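import Pool.Agent.H.MP_ad013a_pr.h63l.A.T
import Pool.Agent.H.MP_ad013a_pr.h63w.VLoop

namespace Pool.Agent.ad013a.LA

theorem c256 : lp7 (fun s => chk (ent L256 s)) 0 = true := by decide +kernel
theorem p256 : PrL chk L256 := leafL c256

theorem c257 : lp7 (fun s => chk (ent L257 s)) 0 = true := by decide +kernel
theorem p257 : PrL chk L257 := leafL c257

theorem c258 : lp7 (fun s => chk (ent L258 s)) 0 = true := by decide +kernel
theorem p258 : PrL chk L258 := leafL c258

theorem c259 : lp7 (fun s => chk (ent L259 s)) 0 = true := by decide +kernel
theorem p259 : PrL chk L259 := leafL c259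

theorem c260 : lp7 (fun s => chk (ent L260 s)) 0 = true := by decide +kernel
theorem p260 : PrL chk L260 := leafL c260

theorem c261 : lp7 (fun s => chk (ent L261 s)) 0 = true := by decide +kernel
theorem p261 : PrL chk L261 := leafL c261

theorem c262 : lp7 (fun s => chk (ent L262 s)) 0 = true := by decide +kernel
theorem p262 : PrL chk L262 := leafL c262

theorem c263 : lp7 (fun s => chk (ent L263 s)) 0 = true := by decide +kernel
theorem p263 : PrL chk L263 := leafL c263

theorem c264 : lp7 (fun s => chk (ent L264 s)) 0 = true := by decide +kernel
theorem p264 : PrL chk L264 := leafL c264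

theorem c265 : lp7 (fun s => chk (ent L265 s)) 0 = true := by decide +kernel
theorem p265 : PrL chk L265 := leafL c265

theorem c266 : lp7 (fun s => chk (ent L266 s)) 0 = true := by decide +kernel
theorem p266 : PrL chk L266 := leafL c266

theorem c267 : lp7 (fun s => chk (ent L267 s)) 0 = true := by decide +kernel
theorem p267 : PrL chk L267 := leafL c267

theorem c268 : lp7 (fun s => chk (ent L268 s)) 0 = true := by decide +kernel
theorem p268 : PrL chk L268 := leafL c268

theorem c269 : lp7 (fun s => chk (ent L269 s)) 0 = true := by decide +kernel
theorem p269 : PrL chk L269 := leafL c269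

theorem c270 : lp7 (fun s => chk (ent L270 s)) 0 = true := by decide +kernel
theorem p270 : PrL chk L270 := leafL c270

theorem c271 : lp7 (fun s => chk (ent L271 s)) 0 = true := by decide +kernel
theorem p271 : PrL chk L271 := leafL c271

theorem c272 : lp7 (fun s => chk (ent L272 s)) 0 = true := by decide +kernel
theorem p272 : PrL chk L272 := leafL c272

theorem c273 : lp7 (fun s => chk (ent L273 s)) 0 = true := by decide +kernel
theorem p273 : PrL chk L273 := leafL c273

theorem c274 : lp7 (fun s => chk (ent L274 s)) 0 = true := by decide +kernel
theorem p274 : PrL chk L274 := leafL c274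

theorem c275 : lp7 (fun s => chk (ent L275 s)) 0 = true := by decide +kernel
theorem p275 : PrL chk L275 := leafL c275

theorem c276 : lp7 (fun s => chk (ent L276 s)) 0 = true := by decide +kernel
theorem p276 : PrL chk L276 := leafL c276

theorem c277 : lp7 (fun s => chk (ent L277 s)) 0 = true := by decide +kernel
theorem p277 : PrL chk L277 := leafL c277

theorem c278 : lp7 (fun s => chk (ent L278 s)) 0 = true := by decide +kernel
theorem p278 : PrL chk L278 := leafL c278

theorem c279 : lp7 (fun s => chk (ent L279 s)) 0 = true := by decide +kernel
theorem p279 : PrL chk L279 := leafL c279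

theorem c280 : lp7 (fun s => chk (ent L280 s)) 0 = true := by decide +kernel
theorem p280 : PrL chk L280 := leafL c280

theorem c281 : lp7 (fun s => chk (ent L281 s)) 0 = true := by decide +kernel
theorem p281 : PrL chk L281 := leafL c281

theorem c282 : lp7 (fun s => chk (ent L282 s)) 0 = true := by decide +kernel
theorem p282 : PrL chk L282 := leafL c282

theorem c283 : lp7 (fun s => chk (ent L283 s)) 0 = true := by decide +kernel
theorem p283 : PrL chk L283 := leafL c283

theorem c284 : lp7 (fun s => chk (ent L284 s)) 0 = true := by decide +kernel
theorem p284 : PrL chk L284 := leafL c284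

theorem c285 : lp7 (fun s => chk (ent L285 s)) 0 = true := by decide +kernel
theorem p285 : PrL chk L285 := leafL c285

theorem c286 : lp7 (fun s => chk (ent L286 s)) 0 = true := by decide +kernel
theorem p286 : PrL chk L286 := leafL c286

theorem c287 : lp7 (fun s => chk (ent L287 s)) 0 = true := by decide +kernel
theorem p287 : PrL chk L287 := leafL c287

theorem c288 : lp7 (fun s => chk (ent L288 s)) 0 = true := by decide +kernel
theorem p288 : PrL chk L288 := leafL c288

theorem c289 : lp7 (fun s => chk (ent L289 s)) 0 = true := by decide +kernel
theorem p289 : PrL chk L289 := leafL c289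

theorem c290 : lp7 (fun s => chk (ent L290 s)) 0 = true := by decide +kernel
theorem p290 : PrL chk L290 := leafL c290

theorem c291 : lp7 (fun s => chk (ent L291 s)) 0 = true := by decide +kernel
theorem p291 : PrL chk L291 := leafL c291

theorem c292 : lp7 (fun s => chk (ent L292 s)) 0 = true := by decide +kernel
theorem p292 : PrL chk L292 := leafL c292

theorem c293 : lp7 (fun s => chk (ent L293 s)) 0 = true := by decide +kernel
theorem p293 : PrL chk L293 := leafL c293

theorem c294 : lp7 (fun s => chk (ent L294 s)) 0 = true := by decide +kernel
theorem p294 : PrL chk L294 := leafL c294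

theorem c295 : lp7 (fun s => chk (ent L295 s)) 0 = true := by decide +kernel
theorem p295 : PrL chk L295 := leafL c295

theorem c296 : lp7 (fun s => chk (ent L296 s)) 0 = true := by decide +kernel
theorem p296 : PrL chk L296 := leafL c296

theorem c297 : lp7 (fun s => chk (ent L297 s)) 0 = true := by decide +kernel
theorem p297 : PrL chk L297 := leafL c297

theorem c298 : lp7 (fun s => chk (ent L298 s)) 0 = true := by decide +kernel
theorem p298 : PrL chk L298 := leafL c298

theorem c299 : lp7 (fun s => chk (ent L299 s)) 0 = true := by decide +kernel
theorem p299 : PrL chk L299 := leafL c299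

theorem c300 : lp7 (fun s => chk (ent L300 s)) 0 = true := by decide +kernel
theorem p300 : PrL chk L300 := leafL c300

theorem c301 : lp7 (fun s => chk (ent L301 s)) 0 = true := by decide +kernel
theorem p301 : PrL chk L301 := leafL c301

theorem c302 : lp7 (fun s => chk (ent L302 s)) 0 = true := by decide +kernel
theorem p302 : PrL chk L302 := leafL c302

theorem c303 : lp7 (fun s => chk (ent L303 s)) 0 = true := by decide +kernel
theorem p303 : PrL chk L303 := leafL c303

theorem c304 : lp7 (fun s => chk (ent L304 s)) 0 = true := by decide +kernel
theorem p304 : PrL chk L304 := leafL c304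

theorem c305 : lp7 (fun s => chk (ent L305 s)) 0 = true := by decide +kernel
theorem p305 : PrL chk L305 := leafL c305

theorem c306 : lp7 (fun s => chk (ent L306 s)) 0 = true := by decide +kernel
theorem p306 : PrL chk L306 := leafL c306

theorem c307 : lp7 (fun s => chk (ent L307 s)) 0 = true := by decide +kernel
theorem p307 : PrL chk L307 := leafL c307

theorem c308 : lp7 (fun s => chk (ent L308 s)) 0 = true := by decide +kernel
theorem p308 : PrL chk L308 := leafL c308

theorem c309 : lp7 (fun s => chk (ent L309 s)) 0 = true := by decide +kernel
theorem p309 : PrL chk L309 := leafL c309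

theorem c310 : lp7 (fun s => chk (ent L310 s)) 0 = true := by decide +kernel
theorem p310 : PrL chk L310 := leafL c310

theorem c311 : lp7 (fun s => chk (ent L311 s)) 0 = true := by decide +kernel
theorem p311 : PrL chk L311 := leafL c311

theorem c312 : lp7 (fun s => chk (ent L312 s)) 0 = true := by decide +kernel
theorem p312 : PrL chk L312 := leafL c312

theorem c313 : lp7 (fun s => chk (ent L313 s)) 0 = true := by decide +kernel
theorem p313 : PrL chk L313 := leafL c313

theorem c314 : lp7 (fun s => chk (ent L314 s)) 0 = true := by decide +kernel
theorem p314 : PrL chk L314 := leafL c314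

theorem c315 : lp7 (fun s => chk (ent L315 s)) 0 = true := by decide +kernel
theorem p315 : PrL chk L315 := leafL c315

theorem c316 : lp7 (fun s => chk (ent L316 s)) 0 = true := by decide +kernel
theorem p316 : PrL chk L316 := leafL c316

theorem c317 : lp7 (fun s => chk (ent L317 s)) 0 = true := by decide +kernel
theorem p317 : PrL chk L317 := leafL c317

theorem c318 : lp7 (fun s => chk (ent L318 s)) 0 = true := by decide +kernel
theorem p318 : PrL chk L318 := leafL c318

theorem c319 : lp7 (fun s => chk (ent L319 s)) 0 = true := by decide +kernel
theorem p319 : PrL chk L319 := leafL c319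

theorem c320 : lp7 (fun s => chk (ent L320 s)) 0 = true := by decide +kernel
theorem p320 : PrL chk L320 := leafL c320

theorem c321 : lp7 (fun s => chk (ent L321 s)) 0 = true := by decide +kernel
theorem p321 : PrL chk L321 := leafL c321

theorem c322 : lp7 (fun s => chk (ent L322 s)) 0 = true := by decide +kernel
theorem p322 : PrL chk L322 := leafL c322

theorem c323 : lp7 (fun s => chk (ent L323 s)) 0 = true := by decide +kernel
theorem p323 : PrL chk L323 := leafL c323

theorem c324 : lp7 (fun s => chk (ent L324 s)) 0 = true := by decide +kernel
theorem p324 : PrL chk L324 := leafL c324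

theorem c325 : lp7 (fun s => chk (ent L325 s)) 0 = true := by decide +kernel
theorem p325 : PrL chk L325 := leafL c325

theorem c326 : lp7 (fun s => chk (ent L326 s)) 0 = true := by decide +kernel
theorem p326 : PrL chk L326 := leafL c326

theorem c327 : lp7 (fun s => chk (ent L327 s)) 0 = true := by decide +kernel
theorem p327 : PrL chk L327 := leafL c327

theorem c328 : lp7 (fun s => chk (ent L328 s)) 0 = true := by decide +kernel
theorem p328 : PrL chk L328 := leafL c328

theorem c329 : lp7 (fun s => chk (ent L329 s)) 0 = true := by decide +kernel
theorem p329 : PrL chk L329 := leafL c329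

theorem c330 : lp7 (fun s => chk (ent L330 s)) 0 = true := by decide +kernel
theorem p330 : PrL chk L330 := leafL c330

theorem c331 : lp7 (fun s => chk (ent L331 s)) 0 = true := by decide +kernel
theorem p331 : PrL chk L331 := leafL c331

theorem c332 : lp7 (fun s => chk (ent L332 s)) 0 = true := by decide +kernel
theorem p332 : PrL chk L332 := leafL c332

theorem c333 : lp7 (fun s => chk (ent L333 s)) 0 = true := by decide +kernel
theorem p333 : PrL chk L333 := leafL c333

theorem c334 : lp7 (fun s => chk (ent L334 s)) 0 = true := by decide +kernel
theorem p334 : PrL chk L334 := leafL c334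

theorem c335 : lp7 (fun s => chk (ent L335 s)) 0 = true := by decide +kernel
theorem p335 : PrL chk L335 := leafL c335

theorem c336 : lp7 (fun s => chk (ent L336 s)) 0 = true := by decide +kernel
theorem p336 : PrL chk L336 := leafL c336

theorem c337 : lp7 (fun s => chk (ent L337 s)) 0 = true := by decide +kernel
theorem p337 : PrL chk L337 := leafL c337

theorem c338 : lp7 (fun s => chk (ent L338 s)) 0 = true := by decide +kernel
theorem p338 : PrL chk L338 := leafL c338

theorem c339 : lp7 (fun s => chk (ent L339 s)) 0 = true := by decide +kernel
theorem p339 : PrL chk L339 := leafL c339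

theorem c340 : lp7 (fun s => chk (ent L340 s)) 0 = true := by decide +kernel
theorem p340 : PrL chk L340 := leafL c340

theorem c341 : lp7 (fun s => chk (ent L341 s)) 0 = true := by decide +kernel
theorem p341 : PrL chk L341 := leafL c341

theorem c342 : lp7 (fun s => chk (ent L342 s)) 0 = true := by decide +kernel
theorem p342 : PrL chk L342 := leafL c342

theorem c343 : lp7 (fun s => chk (ent L343 s)) 0 = true := by decide +kernel
theorem p343 : PrL chk L343 := leafL c343

theorem c344 : lp7 (fun s => chk (ent L344 s)) 0 = true := by decide +kernel
theorem p344 : PrL chk L344 := leafL c344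

theorem c345 : lp7 (fun s => chk (ent L345 s)) 0 = true := by decide +kernel
theorem p345 : PrL chk L345 := leafL c345

theorem c346 : lp7 (fun s => chk (ent L346 s)) 0 = true := by decide +kernel
theorem p346 : PrL chk L346 := leafL c346

theorem c347 : lp7 (fun s => chk (ent L347 s)) 0 = true := by decide +kernel
theorem p347 : PrL chk L347 := leafL c347

theorem c348 : lp7 (fun s => chk (ent L348 s)) 0 = true := by decide +kernel
theorem p348 : PrL chk L348 := leafL c348

theorem c349 : lp7 (fun s => chk (ent L349 s)) 0 = true := by decide +kernel
theorem p349 : PrL chk L349 := leafL c349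

theorem c350 : lp7 (fun s => chk (ent L350 s)) 0 = true := by decide +kernel
theorem p350 : PrL chk L350 := leafL c350

theorem c351 : lp7 (fun s => chk (ent L351 s)) 0 = true := by decide +kernel
theorem p351 : PrL chk L351 := leafL c351

theorem c352 : lp7 (fun s => chk (ent L352 s)) 0 = true := by decide +kernel
theorem p352 : PrL chk L352 := leafL c352

theorem c353 : lp7 (fun s => chk (ent L353 s)) 0 = true := by decide +kernel
theorem p353 : PrL chk L353 := leafL c353

theorem c354 : lp7 (fun s => chk (ent L354 s)) 0 = true := by decide +kernel
theorem p354 : PrL chk L354 := leafL c354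

theorem c355 : lp7 (fun s => chk (ent L355 s)) 0 = true := by decide +kernel
theorem p355 : PrL chk L355 := leafL c355

theorem c356 : lp7 (fun s => chk (ent L356 s)) 0 = true := by decide +kernel
theorem p356 : PrL chk L356 := leafL c356

theorem c357 : lp7 (fun s => chk (ent L357 s)) 0 = true := by decide +kernel
theorem p357 : PrL chk L357 := leafL c357

theorem c358 : lp7 (fun s => chk (ent L358 s)) 0 = true := by decide +kernel
theorem p358 : PrL chk L358 := leafL c358

theorem c359 : lp7 (fun s => chk (ent L359 s)) 0 = true := by decide +kernel
theorem p359 : PrL chk L359 := leafL c359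

theorem c360 : lp7 (fun s => chk (ent L360 s)) 0 = true := by decide +kernel
theorem p360 : PrL chk L360 := leafL c360

theorem c361 : lp7 (fun s => chk (ent L361 s)) 0 = true := by decide +kernel
theorem p361 : PrL chk L361 := leafL c361

theorem c362 : lp7 (fun s => chk (ent L362 s)) 0 = true := by decide +kernel
theorem p362 : PrL chk L362 := leafL c362

theorem c363 : lp7 (fun s => chk (ent L363 s)) 0 = true := by decide +kernel
theorem p363 : PrL chk L363 := leafL c363

theorem c364 : lp7 (fun s => chk (ent L364 s)) 0 = true := by decide +kernel
theorem p364 : PrL chk L364 := leafL c364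

theorem c365 : lp7 (fun s => chk (ent L365 s)) 0 = true := by decide +kernel
theorem p365 : PrL chk L365 := leafL c365

theorem c366 : lp7 (fun s => chk (ent L366 s)) 0 = true := by decide +kernel
theorem p366 : PrL chk L366 := leafL c366

theorem c367 : lp7 (fun s => chk (ent L367 s)) 0 = true := by decide +kernel
theorem p367 : PrL chk L367 := leafL c367

theorem c368 : lp7 (fun s => chk (ent L368 s)) 0 = true := by decide +kernel
theorem p368 : PrL chk L368 := leafL c368

theorem c369 : lp7 (fun s => chk (ent L369 s)) 0 = true := by decide +kernel
theorem p369 : PrL chk L369 := leafL c369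

theorem c370 : lp7 (fun s => chk (ent L370 s)) 0 = true := by decide +kernel
theorem p370 : PrL chk L370 := leafL c370

theorem c371 : lp7 (fun s => chk (ent L371 s)) 0 = true := by decide +kernel
theorem p371 : PrL chk L371 := leafL c371

theorem c372 : lp7 (fun s => chk (ent L372 s)) 0 = true := by decide +kernel
theorem p372 : PrL chk L372 := leafL c372

theorem c373 : lp7 (fun s => chk (ent L373 s)) 0 = true := by decide +kernel
theorem p373 : PrL chk L373 := leafL c373

theorem c374 : lp7 (fun s => chk (ent L374 s)) 0 = true := by decide +kernel
theorem p374 : PrL chk L374 := leafL c374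

theorem c375 : lp7 (fun s => chk (ent L375 s)) 0 = true := by decide +kernel
theorem p375 : PrL chk L375 := leafL c375

theorem c376 : lp7 (fun s => chk (ent L376 s)) 0 = true := by decide +kernel
theorem p376 : PrL chk L376 := leafL c376

theorem c377 : lp7 (fun s => chk (ent L377 s)) 0 = true := by decide +kernel
theorem p377 : PrL chk L377 := leafL c377

theorem c378 : lp7 (fun s => chk (ent L378 s)) 0 = true := by decide +kernel
theorem p378 : PrL chk L378 := leafL c378

theorem c379 : lp7 (fun s => chk (ent L379 s)) 0 = true := by decide +kernel
theorem p379 : PrL chk L379 := leafL c379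

theorem c380 : lp7 (fun s => chk (ent L380 s)) 0 = true := by decide +kernel
theorem p380 : PrL chk L380 := leafL c380

theorem c381 : lp7 (fun s => chk (ent L381 s)) 0 = true := by decide +kernel
theorem p381 : PrL chk L381 := leafL c381

theorem c382 : lp7 (fun s => chk (ent L382 s)) 0 = true := by decide +kernel
theorem p382 : PrL chk L382 := leafL c382

theorem c383 : lp7 (fun s => chk (ent L383 s)) 0 = true := by decide +kernel
theorem p383 : PrL chk L383 := leafL c383

theorem c384 : lp7 (fun s => chk (ent L384 s)) 0 = true := by decide +kernel
theorem p384 : PrL chk L384 := leafL c384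

theorem c385 : lp7 (fun s => chk (ent L385 s)) 0 = true := by decide +kernel
theorem p385 : PrL chk L385 := leafL c385

theorem c386 : lp7 (fun s => chk (ent L386 s)) 0 = true := by decide +kernel
theorem p386 : PrL chk L386 := leafL c386

theorem c387 : lp7 (fun s => chk (ent L387 s)) 0 = true := by decide +kernel
theorem p387 : PrL chk L387 := leafL c387

theorem c388 : lp7 (fun s => chk (ent L388 s)) 0 = true := by decide +kernel
theorem p388 : PrL chk L388 := leafL c388

theorem c389 : lp7 (fun s => chk (ent L389 s)) 0 = true := by decide +kernel
theorem p389 : PrL chk L389 := leafL c389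

theorem c390 : lp7 (fun s => chk (ent L390 s)) 0 = true := by decide +kernel
theorem p390 : PrL chk L390 := leafL c390

theorem c391 : lp7 (fun s => chk (ent L391 s)) 0 = true := by decide +kernel
theorem p391 : PrL chk L391 := leafL c391

theorem c392 : lp7 (fun s => chk (ent L392 s)) 0 = true := by decide +kernel
theorem p392 : PrL chk L392 := leafL c392

theorem c393 : lp7 (fun s => chk (ent L393 s)) 0 = true := by decide +kernel
theorem p393 : PrL chk L393 := leafL c393

theorem c394 : lp7 (fun s => chk (ent L394 s)) 0 = true := by decide +kernel
theorem p394 : PrL chk L394 := leafL c394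

theorem c395 : lp7 (fun s => chk (ent L395 s)) 0 = true := by decide +kernel
theorem p395 : PrL chk L395 := leafL c395

theorem c396 : lp7 (fun s => chk (ent L396 s)) 0 = true := by decide +kernel
theorem p396 : PrL chk L396 := leafL c396

theorem c397 : lp7 (fun s => chk (ent L397 s)) 0 = true := by decide +kernel
theorem p397 : PrL chk L397 := leafL c397

theorem c398 : lp7 (fun s => chk (ent L398 s)) 0 = true := by decide +kernel
theorem p398 : PrL chk L398 := leafL c398

theorem c399 : lp7 (fun s => chk (ent L399 s)) 0 = true := by decide +kernel
theorem p399 : PrL chk L399 := leafL c399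

theorem c400 : lp7 (fun s => chk (ent L400 s)) 0 = true := by decide +kernel
theorem p400 : PrL chk L400 := leafL c400

theorem c401 : lp7 (fun s => chk (ent L401 s)) 0 = true := by decide +kernel
theorem p401 : PrL chk L401 := leafL c401

theorem c402 : lp7 (fun s => chk (ent L402 s)) 0 = true := by decide +kernel
theorem p402 : PrL chk L402 := leafL c402

theorem c403 : lp7 (fun s => chk (ent L403 s)) 0 = true := by decide +kernel
theorem p403 : PrL chk L403 := leafL c403

theorem c404 : lp7 (fun s => chk (ent L404 s)) 0 = true := by decide +kernel
theorem p404 : PrL chk L404 := leafL c404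

theorem c405 : lp7 (fun s => chk (ent L405 s)) 0 = true := by decide +kernel
theorem p405 : PrL chk L405 := leafL c405

theorem c406 : lp7 (fun s => chk (ent L406 s)) 0 = true := by decide +kernel
theorem p406 : PrL chk L406 := leafL c406

theorem c407 : lp7 (fun s => chk (ent L407 s)) 0 = true := by decide +kernel
theorem p407 : PrL chk L407 := leafL c407

theorem c408 : lp7 (fun s => chk (ent L408 s)) 0 = true := by decide +kernel
theorem p408 : PrL chk L408 := leafL c408

theorem c409 : lp7 (fun s => chk (ent L409 s)) 0 = true := by decide +kernel
theorem p409 : PrL chk L409 := leafL c409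

theorem c410 : lp7 (fun s => chk (ent L410 s)) 0 = true := by decide +kernel
theorem p410 : PrL chk L410 := leafL c410

theorem c411 : lp7 (fun s => chk (ent L411 s)) 0 = true := by decide +kernel
theorem p411 : PrL chk L411 := leafL c411

theorem c412 : lp7 (fun s => chk (ent L412 s)) 0 = true := by decide +kernel
theorem p412 : PrL chk L412 := leafL c412

theorem c413 : lp7 (fun s => chk (ent L413 s)) 0 = true := by decide +kernel
theorem p413 : PrL chk L413 := leafL c413

theorem c414 : lp7 (fun s => chk (ent L414 s)) 0 = true := by decide +kernel
theorem p414 : PrL chk L414 := leafL c414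

theorem c415 : lp7 (fun s => chk (ent L415 s)) 0 = true := by decide +kernel
theorem p415 : PrL chk L415 := leafL c415

theorem c416 : lp7 (fun s => chk (ent L416 s)) 0 = true := by decide +kernel
theorem p416 : PrL chk L416 := leafL c416

theorem c417 : lp7 (fun s => chk (ent L417 s)) 0 = true := by decide +kernel
theorem p417 : PrL chk L417 := leafL c417

theorem c418 : lp7 (fun s => chk (ent L418 s)) 0 = true := by decide +kernel
theorem p418 : PrL chk L418 := leafL c418

theorem c419 : lp7 (fun s => chk (ent L419 s)) 0 = true := by decide +kernel
theorem p419 : PrL chk L419 := leafL c419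

theorem c420 : lp7 (fun s => chk (ent L420 s)) 0 = true := by decide +kernel
theorem p420 : PrL chk L420 := leafL c420

theorem c421 : lp7 (fun s => chk (ent L421 s)) 0 = true := by decide +kernel
theorem p421 : PrL chk L421 := leafL c421

theorem c422 : lp7 (fun s => chk (ent L422 s)) 0 = true := by decide +kernel
theorem p422 : PrL chk L422 := leafL c422

theorem c423 : lp7 (fun s => chk (ent L423 s)) 0 = true := by decide +kernel
theorem p423 : PrL chk L423 := leafL c423

theorem c424 : lp7 (fun s => chk (ent L424 s)) 0 = true := by decide +kernel
theorem p424 : PrL chk L424 := leafL c424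

theorem c425 : lp7 (fun s => chk (ent L425 s)) 0 = true := by decide +kernel
theorem p425 : PrL chk L425 := leafL c425

theorem c426 : lp7 (fun s => chk (ent L426 s)) 0 = true := by decide +kernel
theorem p426 : PrL chk L426 := leafL c426

theorem c427 : lp7 (fun s => chk (ent L427 s)) 0 = true := by decide +kernel
theorem p427 : PrL chk L427 := leafL c427

theorem c428 : lp7 (fun s => chk (ent L428 s)) 0 = true := by decide +kernel
theorem p428 : PrL chk L428 := leafL c428

theorem c429 : lp7 (fun s => chk (ent L429 s)) 0 = true := by decide +kernel
theorem p429 : PrL chk L429 := leafL c429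

theorem c430 : lp7 (fun s => chk (ent L430 s)) 0 = true := by decide +kernel
theorem p430 : PrL chk L430 := leafL c430

theorem c431 : lp7 (fun s => chk (ent L431 s)) 0 = true := by decide +kernel
theorem p431 : PrL chk L431 := leafL c431

theorem c432 : lp7 (fun s => chk (ent L432 s)) 0 = true := by decide +kernel
theorem p432 : PrL chk L432 := leafL c432

theorem c433 : lp7 (fun s => chk (ent L433 s)) 0 = true := by decide +kernel
theorem p433 : PrL chk L433 := leafL c433

theorem c434 : lp7 (fun s => chk (ent L434 s)) 0 = true := by decide +kernel
theorem p434 : PrL chk L434 := leafL c434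

theorem c435 : lp7 (fun s => chk (ent L435 s)) 0 = true := by decide +kernel
theorem p435 : PrL chk L435 := leafL c435

theorem c436 : lp7 (fun s => chk (ent L436 s)) 0 = true := by decide +kernel
theorem p436 : PrL chk L436 := leafL c436

theorem c437 : lp7 (fun s => chk (ent L437 s)) 0 = true := by decide +kernel
theorem p437 : PrL chk L437 := leafL c437

theorem c438 : lp7 (fun s => chk (ent L438 s)) 0 = true := by decide +kernel
theorem p438 : PrL chk L438 := leafL c438

theorem c439 : lp7 (fun s => chk (ent L439 s)) 0 = true := by decide +kernel
theorem p439 : PrL chk L439 := leafL c439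

theorem c440 : lp7 (fun s => chk (ent L440 s)) 0 = true := by decide +kernel
theorem p440 : PrL chk L440 := leafL c440

theorem c441 : lp7 (fun s => chk (ent L441 s)) 0 = true := by decide +kernel
theorem p441 : PrL chk L441 := leafL c441

theorem c442 : lp7 (fun s => chk (ent L442 s)) 0 = true := by decide +kernel
theorem p442 : PrL chk L442 := leafL c442

theorem c443 : lp7 (fun s => chk (ent L443 s)) 0 = true := by decide +kernel
theorem p443 : PrL chk L443 := leafL c443

theorem c444 : lp7 (fun s => chk (ent L444 s)) 0 = true := by decide +kernel
theorem p444 : PrL chk L444 := leafL c444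

theorem c445 : lp7 (fun s => chk (ent L445 s)) 0 = true := by decide +kernel
theorem p445 : PrL chk L445 := leafL c445

theorem c446 : lp7 (fun s => chk (ent L446 s)) 0 = true := by decide +kernel
theorem p446 : PrL chk L446 := leafL c446

theorem c447 : lp7 (fun s => chk (ent L447 s)) 0 = true := by decide +kernel
theorem p447 : PrL chk L447 := leafL c447

theorem c448 : lp7 (fun s => chk (ent L448 s)) 0 = true := by decide +kernel
theorem p448 : PrL chk L448 := leafL c448

theorem c449 : lp7 (fun s => chk (ent L449 s)) 0 = true := by decide +kernel
theorem p449 : PrL chk L449 := leafL c449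

theorem c450 : lp7 (fun s => chk (ent L450 s)) 0 = true := by decide +kernel
theorem p450 : PrL chk L450 := leafL c450

theorem c451 : lp7 (fun s => chk (ent L451 s)) 0 = true := by decide +kernel
theorem p451 : PrL chk L451 := leafL c451

theorem c452 : lp7 (fun s => chk (ent L452 s)) 0 = true := by decide +kernel
theorem p452 : PrL chk L452 := leafL c452

theorem c453 : lp7 (fun s => chk (ent L453 s)) 0 = true := by decide +kernel
theorem p453 : PrL chk L453 := leafL c453

theorem c454 : lp7 (fun s => chk (ent L454 s)) 0 = true := by decide +kernel
theorem p454 : PrL chk L454 := leafL c454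

theorem c455 : lp7 (fun s => chk (ent L455 s)) 0 = true := by decide +kernel
theorem p455 : PrL chk L455 := leafL c455

theorem c456 : lp7 (fun s => chk (ent L456 s)) 0 = true := by decide +kernel
theorem p456 : PrL chk L456 := leafL c456

theorem c457 : lp7 (fun s => chk (ent L457 s)) 0 = true := by decide +kernel
theorem p457 : PrL chk L457 := leafL c457

theorem c458 : lp7 (fun s => chk (ent L458 s)) 0 = true := by decide +kernel
theorem p458 : PrL chk L458 := leafL c458

theorem c459 : lp7 (fun s => chk (ent L459 s)) 0 = true := by decide +kernel
theorem p459 : PrL chk L459 := leafL c459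

theorem c460 : lp7 (fun s => chk (ent L460 s)) 0 = true := by decide +kernel
theorem p460 : PrL chk L460 := leafL c460

theorem c461 : lp7 (fun s => chk (ent L461 s)) 0 = true := by decide +kernel
theorem p461 : PrL chk L461 := leafL c461

theorem c462 : lp7 (fun s => chk (ent L462 s)) 0 = true := by decide +kernel
theorem p462 : PrL chk L462 := leafL c462

theorem c463 : lp7 (fun s => chk (ent L463 s)) 0 = true := by decide +kernel
theorem p463 : PrL chk L463 := leafL c463

theorem c464 : lp7 (fun s => chk (ent L464 s)) 0 = true := by decide +kernel
theorem p464 : PrL chk L464 := leafL c464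

theorem c465 : lp7 (fun s => chk (ent L465 s)) 0 = true := by decide +kernel
theorem p465 : PrL chk L465 := leafL c465

theorem c466 : lp7 (fun s => chk (ent L466 s)) 0 = true := by decide +kernel
theorem p466 : PrL chk L466 := leafL c466

theorem c467 : lp7 (fun s => chk (ent L467 s)) 0 = true := by decide +kernel
theorem p467 : PrL chk L467 := leafL c467

theorem c468 : lp7 (fun s => chk (ent L468 s)) 0 = true := by decide +kernel
theorem p468 : PrL chk L468 := leafL c468

theorem c469 : lp7 (fun s => chk (ent L469 s)) 0 = true := by decide +kernel
theorem p469 : PrL chk L469 := leafL c469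

theorem c470 : lp7 (fun s => chk (ent L470 s)) 0 = true := by decide +kernel
theorem p470 : PrL chk L470 := leafL c470

theorem c471 : lp7 (fun s => chk (ent L471 s)) 0 = true := by decide +kernel
theorem p471 : PrL chk L471 := leafL c471

theorem c472 : lp7 (fun s => chk (ent L472 s)) 0 = true := by decide +kernel
theorem p472 : PrL chk L472 := leafL c472

theorem c473 : lp7 (fun s => chk (ent L473 s)) 0 = true := by decide +kernel
theorem p473 : PrL chk L473 := leafL c473

theorem c474 : lp7 (fun s => chk (ent L474 s)) 0 = true := by decide +kernel
theorem p474 : PrL chk L474 := leafL c474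

theorem c475 : lp7 (fun s => chk (ent L475 s)) 0 = true := by decide +kernel
theorem p475 : PrL chk L475 := leafL c475

theorem c476 : lp7 (fun s => chk (ent L476 s)) 0 = true := by decide +kernel
theorem p476 : PrL chk L476 := leafL c476

theorem c477 : lp7 (fun s => chk (ent L477 s)) 0 = true := by decide +kernel
theorem p477 : PrL chk L477 := leafL c477

theorem c478 : lp7 (fun s => chk (ent L478 s)) 0 = true := by decide +kernel
theorem p478 : PrL chk L478 := leafL c478

theorem c479 : lp7 (fun s => chk (ent L479 s)) 0 = true := by decide +kernel
theorem p479 : PrL chk L479 := leafL c479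

theorem c480 : lp7 (fun s => chk (ent L480 s)) 0 = true := by decide +kernel
theorem p480 : PrL chk L480 := leafL c480

theorem c481 : lp7 (fun s => chk (ent L481 s)) 0 = true := by decide +kernel
theorem p481 : PrL chk L481 := leafL c481

theorem c482 : lp7 (fun s => chk (ent L482 s)) 0 = true := by decide +kernel
theorem p482 : PrL chk L482 := leafL c482

theorem c483 : lp7 (fun s => chk (ent L483 s)) 0 = true := by decide +kernel
theorem p483 : PrL chk L483 := leafL c483

theorem c484 : lp7 (fun s => chk (ent L484 s)) 0 = true := by decide +kernel
theorem p484 : PrL chk L484 := leafL c484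

theorem c485 : lp7 (fun s => chk (ent L485 s)) 0 = true := by decide +kernel
theorem p485 : PrL chk L485 := leafL c485

theorem c486 : lp7 (fun s => chk (ent L486 s)) 0 = true := by decide +kernel
theorem p486 : PrL chk L486 := leafL c486

theorem c487 : lp7 (fun s => chk (ent L487 s)) 0 = true := by decide +kernel
theorem p487 : PrL chk L487 := leafL c487

theorem c488 : lp7 (fun s => chk (ent L488 s)) 0 = true := by decide +kernel
theorem p488 : PrL chk L488 := leafL c488

theorem c489 : lp7 (fun s => chk (ent L489 s)) 0 = true := by decide +kernel
theorem p489 : PrL chk L489 := leafL c489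

theorem c490 : lp7 (fun s => chk (ent L490 s)) 0 = true := by decide +kernel
theorem p490 : PrL chk L490 := leafL c490

theorem c491 : lp7 (fun s => chk (ent L491 s)) 0 = true := by decide +kernel
theorem p491 : PrL chk L491 := leafL c491

theorem c492 : lp7 (fun s => chk (ent L492 s)) 0 = true := by decide +kernel
theorem p492 : PrL chk L492 := leafL c492

theorem c493 : lp7 (fun s => chk (ent L493 s)) 0 = true := by decide +kernel
theorem p493 : PrL chk L493 := leafL c493

theorem c494 : lp7 (fun s => chk (ent L494 s)) 0 = true := by decide +kernel
theorem p494 : PrL chk L494 := leafL c494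

theorem c495 : lp7 (fun s => chk (ent L495 s)) 0 = true := by decide +kernel
theorem p495 : PrL chk L495 := leafL c495

theorem c496 : lp7 (fun s => chk (ent L496 s)) 0 = true := by decide +kernel
theorem p496 : PrL chk L496 := leafL c496

theorem c497 : lp7 (fun s => chk (ent L497 s)) 0 = true := by decide +kernel
theorem p497 : PrL chk L497 := leafL c497

theorem c498 : lp7 (fun s => chk (ent L498 s)) 0 = true := by decide +kernel
theorem p498 : PrL chk L498 := leafL c498

theorem c499 : lp7 (fun s => chk (ent L499 s)) 0 = true := by decide +kernel
theorem p499 : PrL chk L499 := leafL c499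

theorem c500 : lp7 (fun s => chk (ent L500 s)) 0 = true := by decide +kernel
theorem p500 : PrL chk L500 := leafL c500

theorem c501 : lp7 (fun s => chk (ent L501 s)) 0 = true := by decide +kernel
theorem p501 : PrL chk L501 := leafL c501

theorem c502 : lp7 (fun s => chk (ent L502 s)) 0 = true := by decide +kernel
theorem p502 : PrL chk L502 := leafL c502

theorem c503 : lp7 (fun s => chk (ent L503 s)) 0 = true := by decide +kernel
theorem p503 : PrL chk L503 := leafL c503

theorem c504 : lp7 (fun s => chk (ent L504 s)) 0 = true := by decide +kernel
theorem p504 : PrL chk L504 := leafL c504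

theorem c505 : lp7 (fun s => chk (ent L505 s)) 0 = true := by decide +kernel
theorem p505 : PrL chk L505 := leafL c505

theorem c506 : lp7 (fun s => chk (ent L506 s)) 0 = true := by decide +kernel
theorem p506 : PrL chk L506 := leafL c506

theorem c507 : lp7 (fun s => chk (ent L507 s)) 0 = true := by decide +kernel
theorem p507 : PrL chk L507 := leafL c507

theorem c508 : lp7 (fun s => chk (ent L508 s)) 0 = true := by decide +kernel
theorem p508 : PrL chk L508 := leafL c508

theorem c509 : lp7 (fun s => chk (ent L509 s)) 0 = true := by decide +kernel
theorem p509 : PrL chk L509 := leafL c509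

theorem c510 : lp7 (fun s => chk (ent L510 s)) 0 = true := by decide +kernel
theorem p510 : PrL chk L510 := leafL c510

theorem c511 : lp7 (fun s => chk (ent L511 s)) 0 = true := by decide +kernel
theorem p511 : PrL chk L511 := leafL c511

end Pool.Agent.ad013a.LA
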