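import Pool.Agent.H.MP_ad013a_pr.h63l.A.T
import Pool.Agent.H.MP_ad013a_pr.h63w.VLoop

namespace Pool.Agent.ad013a.LA

theorem c2560 : lp7 (fun s => chk (ent L2560 s)) 0 = true := by decide +kernel
theorem p2560 : PrL chk L2560 := leafL c2560

theorem c2561 : lp7 (fun s => chk (ent L2561 s)) 0 = true := by decide +kernel
theorem p2561 : PrL chk L2561 := leafL c2561

theorem c2562 : lp7 (fun s => chk (ent L2562 s)) 0 = true := by decide +kernel
theorem p2562 : PrL chk L2562 := leafL c2562

theorem c2563 : lp7 (fun s => chk (ent L2563 s)) 0 = true := by decide +kernel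
theorem p2563 : PrL chk L2563 := leafL c2563

theorem c2564 : lp7 (fun s => chk (ent L2564 s)) 0 = true := by decide +kernel
theorem p2564 : PrL chk L2564 := leafL c2564

theorem c2565 : lp7 (fun s => chk (ent L2565 s)) 0 = true := by decide +kernel
theorem p2565 : PrL chk L2565 := leafL c2565

theorem c2566 : lp7 (fun s => chk (ent L2566 s)) 0 = true := by decide +kernel
theorem p2566 : PrL chk L2566 := leafL c2566

theorem c2567 : lp7 (fun s => chk (ent L2567 s)) 0 = true := by decide +kernel
theorem p2567 : PrL chk L2567 := leafL c2567

theorem c2568 : lp7 (fun s => chk (ent L2568 s)) 0 = true := by decide +kernel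
theorem p2568 : PrL chk L2568 := leafL c2568

theorem c2569 : lp7 (fun s => chk (ent L2569 s)) 0 = true := by decide +kernel
theorem p2569 : PrL chk L2569 := leafL c2569

theorem c2570 : lp7 (fun s => chk (ent L2570 s)) 0 = true := by decide +kernel
theorem p2570 : PrL chk L2570 := leafL c2570

theorem c2571 : lp7 (fun s => chk (ent L2571 s)) 0 = true := by decide +kernel
theorem p2571 : PrL chk L2571 := leafL c2571

theorem c2572 : lp7 (fun s => chk (ent L2572 s)) 0 = true := by decide +kernel
theorem p2572 : PrL chk L2572 := leafL c2572

theorem c2573 : lp7 (fun s => chk (ent L2573 s)) 0 = true := by decide +kernel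
theorem p2573 : PrL chk L2573 := leafL c2573

theorem c2574 : lp7 (fun s => chk (ent L2574 s)) 0 = true := by decide +kernel
theorem p2574 : PrL chk L2574 := leafL c2574

theorem c2575 : lp7 (fun s => chk (ent L2575 s)) 0 = true := by decide +kernel
theorem p2575 : PrL chk L2575 := leafL c2575

theorem c2576 : lp7 (fun s => chk (ent L2576 s)) 0 = true := by decide +kernel
theorem p2576 : PrL chk L2576 := leafL c2576

theorem c2577 : lp7 (fun s => chk (ent L2577 s)) 0 = true := by decide +kernel
theorem p2577 : PrL chk L2577 := leafL c2577

theorem c2578 : lp7 (fun s => chk (ent L2578 s)) 0 = true := by decide +kernel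
theorem p2578 : PrL chk L2578 := leafL c2578

theorem c2579 : lp7 (fun s => chk (ent L2579 s)) 0 = true := by decide +kernel
theorem p2579 : PrL chk L2579 := leafL c2579

theorem c2580 : lp7 (fun s => chk (ent L2580 s)) 0 = true := by decide +kernel
theorem p2580 : PrL chk L2580 := leafL c2580

theorem c2581 : lp7 (fun s => chk (ent L2581 s)) 0 = true := by decide +kernel
theorem p2581 : PrL chk L2581 := leafL c2581

theorem c2582 : lp7 (fun s => chk (ent L2582 s)) 0 = true := by decide +kernel
theorem p2582 : PrL chk L2582 := leafL c2582

theorem c2583 : lp7 (fun s => chk (ent L2583 s)) 0 = true := by decide +kernel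
theorem p2583 : PrL chk L2583 := leafL c2583

theorem c2584 : lp7 (fun s => chk (ent L2584 s)) 0 = true := by decide +kernel
theorem p2584 : PrL chk L2584 := leafL c2584

theorem c2585 : lp7 (fun s => chk (ent L2585 s)) 0 = true := by decide +kernel
theorem p2585 : PrL chk L2585 := leafL c2585

theorem c2586 : lp7 (fun s => chk (ent L2586 s)) 0 = true := by decide +kernel
theorem p2586 : PrL chk L2586 := leafL c2586

theorem c2587 : lp7 (fun s => chk (ent L2587 s)) 0 = true := by decide +kernel
theorem p2587 : PrL chk L2587 := leafL c2587

theorem c2588 : lp7 (fun s => chk (ent L2588 s)) 0 = true := by decide +kernel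
theorem p2588 : PrL chk L2588 := leafL c2588

theorem c2589 : lp7 (fun s => chk (ent L2589 s)) 0 = true := by decide +kernel
theorem p2589 : PrL chk L2589 := leafL c2589

theorem c2590 : lp7 (fun s => chk (ent L2590 s)) 0 = true := by decide +kernel
theorem p2590 : PrL chk L2590 := leafL c2590

theorem c2591 : lp7 (fun s => chk (ent L2591 s)) 0 = true := by decide +kernel
theorem p2591 : PrL chk L2591 := leafL c2591

theorem c2592 : lp7 (fun s => chk (ent L2592 s)) 0 = true := by decide +kernel
theorem p2592 : PrL chk L2592 := leafL c2592

theorem c2593 : lp7 (fun s => chk (ent L2593 s)) 0 = true := by decide +kernel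
theorem p2593 : PrL chk L2593 := leafL c2593

theorem c2594 : lp7 (fun s => chk (ent L2594 s)) 0 = true := by decide +kernel
theorem p2594 : PrL chk L2594 := leafL c2594

theorem c2595 : lp7 (fun s => chk (ent L2595 s)) 0 = true := by decide +kernel
theorem p2595 : PrL chk L2595 := leafL c2595

theorem c2596 : lp7 (fun s => chk (ent L2596 s)) 0 = true := by decide +kernel
theorem p2596 : PrL chk L2596 := leafL c2596

theorem c2597 : lp7 (fun s => chk (ent L2597 s)) 0 = true := by decide +kernel
theorem p2597 : PrL chk L2597 := leafL c2597

theorem c2598 : lp7 (fun s => chk (ent L2598 s)) 0 = true := by decide +kernel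
theorem p2598 : PrL chk L2598 := leafL c2598

theorem c2599 : lp7 (fun s => chk (ent L2599 s)) 0 = true := by decide +kernel
theorem p2599 : PrL chk L2599 := leafL c2599

theorem c2600 : lp7 (fun s => chk (ent L2600 s)) 0 = true := by decide +kernel
theorem p2600 : PrL chk L2600 := leafL c2600

theorem c2601 : lp7 (fun s => chk (ent L2601 s)) 0 = true := by decide +kernel
theorem p2601 : PrL chk L2601 := leafL c2601

theorem c2602 : lp7 (fun s => chk (ent L2602 s)) 0 = true := by decide +kernel
theorem p2602 : PrL chk L2602 := leafL c2602

theorem c2603 : lp7 (fun s => chk (ent L2603 s)) 0 = true := by decide +kernel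
theorem p2603 : PrL chk L2603 := leafL c2603

theorem c2604 : lp7 (fun s => chk (ent L2604 s)) 0 = true := by decide +kernel
theorem p2604 : PrL chk L2604 := leafL c2604

theorem c2605 : lp7 (fun s => chk (ent L2605 s)) 0 = true := by decide +kernel
theorem p2605 : PrL chk L2605 := leafL c2605

theorem c2606 : lp7 (fun s => chk (ent L2606 s)) 0 = true := by decide +kernel
theorem p2606 : PrL chk L2606 := leafL c2606

theorem c2607 : lp7 (fun s => chk (ent L2607 s)) 0 = true := by decide +kernel
theorem p2607 : PrL chk L2607 := leafL c2607

theorem c2608 : lp7 (fun s => chk (ent L2608 s)) 0 = true := by decide +kernel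
theorem p2608 : PrL chk L2608 := leafL c2608

theorem c2609 : lp7 (fun s => chk (ent L2609 s)) 0 = true := by decide +kernel
theorem p2609 : PrL chk L2609 := leafL c2609

theorem c2610 : lp7 (fun s => chk (ent L2610 s)) 0 = true := by decide +kernel
theorem p2610 : PrL chk L2610 := leafL c2610

theorem c2611 : lp7 (fun s => chk (ent L2611 s)) 0 = true := by decide +kernel
theorem p2611 : PrL chk L2611 := leafL c2611

theorem c2612 : lp7 (fun s => chk (ent L2612 s)) 0 = true := by decide +kernel
theorem p2612 : PrL chk L2612 := leafL c2612

theorem c2613 : lp7 (fun s => chk (ent L2613 s)) 0 = true := by decide +kernel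
theorem p2613 : PrL chk L2613 := leafL c2613

theorem c2614 : lp7 (fun s => chk (ent L2614 s)) 0 = true := by decide +kernel
theorem p2614 : PrL chk L2614 := leafL c2614

theorem c2615 : lp7 (fun s => chk (ent L2615 s)) 0 = true := by decide +kernel
theorem p2615 : PrL chk L2615 := leafL c2615

theorem c2616 : lp7 (fun s => chk (ent L2616 s)) 0 = true := by decide +kernel
theorem p2616 : PrL chk L2616 := leafL c2616

theorem c2617 : lp7 (fun s => chk (ent L2617 s)) 0 = true := by decide +kernel
theorem p2617 : PrL chk L2617 := leafL c2617

theorem c2618 : lp7 (fun s => chk (ent L2618 s)) 0 = true := by decide +kernel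
theorem p2618 : PrL chk L2618 := leafL c2618

theorem c2619 : lp7 (fun s => chk (ent L2619 s)) 0 = true := by decide +kernel
theorem p2619 : PrL chk L2619 := leafL c2619

theorem c2620 : lp7 (fun s => chk (ent L2620 s)) 0 = true := by decide +kernel
theorem p2620 : PrL chk L2620 := leafL c2620

theorem c2621 : lp7 (fun s => chk (ent L2621 s)) 0 = true := by decide +kernel
theorem p2621 : PrL chk L2621 := leafL c2621

theorem c2622 : lp7 (fun s => chk (ent L2622 s)) 0 = true := by decide +kernel
theorem p2622 : PrL chk L2622 := leafL c2622

theorem c2623 : lp7 (fun s => chk (ent L2623 s)) 0 = true := by decide +kernel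
theorem p2623 : PrL chk L2623 := leafL c2623

theorem c2624 : lp7 (fun s => chk (ent L2624 s)) 0 = true := by decide +kernel
theorem p2624 : PrL chk L2624 := leafL c2624

theorem c2625 : lp7 (fun s => chk (ent L2625 s)) 0 = true := by decide +kernel
theorem p2625 : PrL chk L2625 := leafL c2625

theorem c2626 : lp7 (fun s => chk (ent L2626 s)) 0 = true := by decide +kernel
theorem p2626 : PrL chk L2626 := leafL c2626

theorem c2627 : lp7 (fun s => chk (ent L2627 s)) 0 = true := by decide +kernel
theorem p2627 : PrL chk L2627 := leafL c2627

theorem c2628 : lp7 (fun s => chk (ent L2628 s)) 0 = true := by decide +kernel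
theorem p2628 : PrL chk L2628 := leafL c2628

theorem c2629 : lp7 (fun s => chk (ent L2629 s)) 0 = true := by decide +kernel
theorem p2629 : PrL chk L2629 := leafL c2629

theorem c2630 : lp7 (fun s => chk (ent L2630 s)) 0 = true := by decide +kernel
theorem p2630 : PrL chk L2630 := leafL c2630

theorem c2631 : lp7 (fun s => chk (ent L2631 s)) 0 = true := by decide +kernel
theorem p2631 : PrL chk L2631 := leafL c2631

theorem c2632 : lp7 (fun s => chk (ent L2632 s)) 0 = true := by decide +kernel
theorem p2632 : PrL chk L2632 := leafL c2632

theorem c2633 : lp7 (fun s => chk (ent L2633 s)) 0 = true := by decide +kernel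
theorem p2633 : PrL chk L2633 := leafL c2633

theorem c2634 : lp7 (fun s => chk (ent L2634 s)) 0 = true := by decide +kernel
theorem p2634 : PrL chk L2634 := leafL c2634

theorem c2635 : lp7 (fun s => chk (ent L2635 s)) 0 = true := by decide +kernel
theorem p2635 : PrL chk L2635 := leafL c2635

theorem c2636 : lp7 (fun s => chk (ent L2636 s)) 0 = true := by decide +kernel
theorem p2636 : PrL chk L2636 := leafL c2636

theorem c2637 : lp7 (fun s => chk (ent L2637 s)) 0 = true := by decide +kernel
theorem p2637 : PrL chk L2637 := leafL c2637

theorem c2638 : lp7 (fun s => chk (ent L2638 s)) 0 = true := by decide +kernel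
theorem p2638 : PrL chk L2638 := leafL c2638

theorem c2639 : lp7 (fun s => chk (ent L2639 s)) 0 = true := by decide +kernel
theorem p2639 : PrL chk L2639 := leafL c2639

theorem c2640 : lp7 (fun s => chk (ent L2640 s)) 0 = true := by decide +kernel
theorem p2640 : PrL chk L2640 := leafL c2640

theorem c2641 : lp7 (fun s => chk (ent L2641 s)) 0 = true := by decide +kernel
theorem p2641 : PrL chk L2641 := leafL c2641

theorem c2642 : lp7 (fun s => chk (ent L2642 s)) 0 = true := by decide +kernel
theorem p2642 : PrL chk L2642 := leafL c2642

theorem c2643 : lp7 (fun s => chk (ent L2643 s)) 0 = true := by decide +kernel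
theorem p2643 : PrL chk L2643 := leafL c2643

theorem c2644 : lp7 (fun s => chk (ent L2644 s)) 0 = true := by decide +kernel
theorem p2644 : PrL chk L2644 := leafL c2644

theorem c2645 : lp7 (fun s => chk (ent L2645 s)) 0 = true := by decide +kernel
theorem p2645 : PrL chk L2645 := leafL c2645

theorem c2646 : lp7 (fun s => chk (ent L2646 s)) 0 = true := by decide +kernel
theorem p2646 : PrL chk L2646 := leafL c2646

theorem c2647 : lp7 (fun s => chk (ent L2647 s)) 0 = true := by decide +kernel
theorem p2647 : PrL chk L2647 := leafL c2647

theorem c2648 : lp7 (fun s => chk (ent L2648 s)) 0 = true := by decide +kernel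
theorem p2648 : PrL chk L2648 := leafL c2648

theorem c2649 : lp7 (fun s => chk (ent L2649 s)) 0 = true := by decide +kernel
theorem p2649 : PrL chk L2649 := leafL c2649

theorem c2650 : lp7 (fun s => chk (ent L2650 s)) 0 = true := by decide +kernel
theorem p2650 : PrL chk L2650 := leafL c2650

theorem c2651 : lp7 (fun s => chk (ent L2651 s)) 0 = true := by decide +kernel
theorem p2651 : PrL chk L2651 := leafL c2651

theorem c2652 : lp7 (fun s => chk (ent L2652 s)) 0 = true := by decide +kernel
theorem p2652 : PrL chk L2652 := leafL c2652

theorem c2653 : lp7 (fun s => chk (ent L2653 s)) 0 = true := by decide +kernel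
theorem p2653 : PrL chk L2653 := leafL c2653

theorem c2654 : lp7 (fun s => chk (ent L2654 s)) 0 = true := by decide +kernel
theorem p2654 : PrL chk L2654 := leafL c2654

theorem c2655 : lp7 (fun s => chk (ent L2655 s)) 0 = true := by decide +kernel
theorem p2655 : PrL chk L2655 := leafL c2655

theorem c2656 : lp7 (fun s => chk (ent L2656 s)) 0 = true := by decide +kernel
theorem p2656 : PrL chk L2656 := leafL c2656

theorem c2657 : lp7 (fun s => chk (ent L2657 s)) 0 = true := by decide +kernel
theorem p2657 : PrL chk L2657 := leafL c2657

theorem c2658 : lp7 (fun s => chk (ent L2658 s)) 0 = true := by decide +kernel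
theorem p2658 : PrL chk L2658 := leafL c2658

theorem c2659 : lp7 (fun s => chk (ent L2659 s)) 0 = true := by decide +kernel
theorem p2659 : PrL chk L2659 := leafL c2659

theorem c2660 : lp7 (fun s => chk (ent L2660 s)) 0 = true := by decide +kernel
theorem p2660 : PrL chk L2660 := leafL c2660

theorem c2661 : lp7 (fun s => chk (ent L2661 s)) 0 = true := by decide +kernel
theorem p2661 : PrL chk L2661 := leafL c2661

theorem c2662 : lp7 (fun s => chk (ent L2662 s)) 0 = true := by decide +kernel
theorem p2662 : PrL chk L2662 := leafL c2662

theorem c2663 : lp7 (fun s => chk (ent L2663 s)) 0 = true := by decide +kernel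
theorem p2663 : PrL chk L2663 := leafL c2663

theorem c2664 : lp7 (fun s => chk (ent L2664 s)) 0 = true := by decide +kernel
theorem p2664 : PrL chk L2664 := leafL c2664

theorem c2665 : lp7 (fun s => chk (ent L2665 s)) 0 = true := by decide +kernel
theorem p2665 : PrL chk L2665 := leafL c2665

theorem c2666 : lp7 (fun s => chk (ent L2666 s)) 0 = true := by decide +kernel
theorem p2666 : PrL chk L2666 := leafL c2666

theorem c2667 : lp7 (fun s => chk (ent L2667 s)) 0 = true := by decide +kernel
theorem p2667 : PrL chk L2667 := leafL c2667

theorem c2668 : lp7 (fun s => chk (ent L2668 s)) 0 = true := by decide +kernel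
theorem p2668 : PrL chk L2668 := leafL c2668

theorem c2669 : lp7 (fun s => chk (ent L2669 s)) 0 = true := by decide +kernel
theorem p2669 : PrL chk L2669 := leafL c2669

theorem c2670 : lp7 (fun s => chk (ent L2670 s)) 0 = true := by decide +kernel
theorem p2670 : PrL chk L2670 := leafL c2670

theorem c2671 : lp7 (fun s => chk (ent L2671 s)) 0 = true := by decide +kernel
theorem p2671 : PrL chk L2671 := leafL c2671

theorem c2672 : lp7 (fun s => chk (ent L2672 s)) 0 = true := by decide +kernel
theorem p2672 : PrL chk L2672 := leafL c2672

theorem c2673 : lp7 (fun s => chk (ent L2673 s)) 0 = true := by decide +kernel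
theorem p2673 : PrL chk L2673 := leafL c2673

theorem c2674 : lp7 (fun s => chk (ent L2674 s)) 0 = true := by decide +kernel
theorem p2674 : PrL chk L2674 := leafL c2674

theorem c2675 : lp7 (fun s => chk (ent L2675 s)) 0 = true := by decide +kernel
theorem p2675 : PrL chk L2675 := leafL c2675

theorem c2676 : lp7 (fun s => chk (ent L2676 s)) 0 = true := by decide +kernel
theorem p2676 : PrL chk L2676 := leafL c2676

theorem c2677 : lp7 (fun s => chk (ent L2677 s)) 0 = true := by decide +kernel
theorem p2677 : PrL chk L2677 := leafL c2677

theorem c2678 : lp7 (fun s => chk (ent L2678 s)) 0 = true := by decide +kernel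
theorem p2678 : PrL chk L2678 := leafL c2678

theorem c2679 : lp7 (fun s => chk (ent L2679 s)) 0 = true := by decide +kernel
theorem p2679 : PrL chk L2679 := leafL c2679

theorem c2680 : lp7 (fun s => chk (ent L2680 s)) 0 = true := by decide +kernel
theorem p2680 : PrL chk L2680 := leafL c2680

theorem c2681 : lp7 (fun s => chk (ent L2681 s)) 0 = true := by decide +kernel
theorem p2681 : PrL chk L2681 := leafL c2681

theorem c2682 : lp7 (fun s => chk (ent L2682 s)) 0 = true := by decide +kernel
theorem p2682 : PrL chk L2682 := leafL c2682

theorem c2683 : lp7 (fun s => chk (ent L2683 s)) 0 = true := by decide +kernel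
theorem p2683 : PrL chk L2683 := leafL c2683

theorem c2684 : lp7 (fun s => chk (ent L2684 s)) 0 = true := by decide +kernel
theorem p2684 : PrL chk L2684 := leafL c2684

theorem c2685 : lp7 (fun s => chk (ent L2685 s)) 0 = true := by decide +kernel
theorem p2685 : PrL chk L2685 := leafL c2685

theorem c2686 : lp7 (fun s => chk (ent L2686 s)) 0 = true := by decide +kernel
theorem p2686 : PrL chk L2686 := leafL c2686

theorem c2687 : lp7 (fun s => chk (ent L2687 s)) 0 = true := by decide +kernel
theorem p2687 : PrL chk L2687 := leafL c2687

theorem c2688 : lp7 (fun s => chk (ent L2688 s)) 0 = true := by decide +kernel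
theorem p2688 : PrL chk L2688 := leafL c2688

theorem c2689 : lp7 (fun s => chk (ent L2689 s)) 0 = true := by decide +kernel
theorem p2689 : PrL chk L2689 := leafL c2689

theorem c2690 : lp7 (fun s => chk (ent L2690 s)) 0 = true := by decide +kernel
theorem p2690 : PrL chk L2690 := leafL c2690

theorem c2691 : lp7 (fun s => chk (ent L2691 s)) 0 = true := by decide +kernel
theorem p2691 : PrL chk L2691 := leafL c2691

theorem c2692 : lp7 (fun s => chk (ent L2692 s)) 0 = true := by decide +kernel
theorem p2692 : PrL chk L2692 := leafL c2692

theorem c2693 : lp7 (fun s => chk (ent L2693 s)) 0 = true := by decide +kernel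
theorem p2693 : PrL chk L2693 := leafL c2693

theorem c2694 : lp7 (fun s => chk (ent L2694 s)) 0 = true := by decide +kernel
theorem p2694 : PrL chk L2694 := leafL c2694

theorem c2695 : lp7 (fun s => chk (ent L2695 s)) 0 = true := by decide +kernel
theorem p2695 : PrL chk L2695 := leafL c2695

theorem c2696 : lp7 (fun s => chk (ent L2696 s)) 0 = true := by decide +kernel
theorem p2696 : PrL chk L2696 := leafL c2696

theorem c2697 : lp7 (fun s => chk (ent L2697 s)) 0 = true := by decide +kernel
theorem p2697 : PrL chk L2697 := leafL c2697

theorem c2698 : lp7 (fun s => chk (ent L2698 s)) 0 = true := by decide +kernel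
theorem p2698 : PrL chk L2698 := leafL c2698

theorem c2699 : lp7 (fun s => chk (ent L2699 s)) 0 = true := by decide +kernel
theorem p2699 : PrL chk L2699 := leafL c2699

theorem c2700 : lp7 (fun s => chk (ent L2700 s)) 0 = true := by decide +kernel
theorem p2700 : PrL chk L2700 := leafL c2700

theorem c2701 : lp7 (fun s => chk (ent L2701 s)) 0 = true := by decide +kernel
theorem p2701 : PrL chk L2701 := leafL c2701

theorem c2702 : lp7 (fun s => chk (ent L2702 s)) 0 = true := by decide +kernel
theorem p2702 : PrL chk L2702 := leafL c2702

theorem c2703 : lp7 (fun s => chk (ent L2703 s)) 0 = true := by decide +kernel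
theorem p2703 : PrL chk L2703 := leafL c2703

theorem c2704 : lp7 (fun s => chk (ent L2704 s)) 0 = true := by decide +kernel
theorem p2704 : PrL chk L2704 := leafL c2704

theorem c2705 : lp7 (fun s => chk (ent L2705 s)) 0 = true := by decide +kernel
theorem p2705 : PrL chk L2705 := leafL c2705

theorem c2706 : lp7 (fun s => chk (ent L2706 s)) 0 = true := by decide +kernel
theorem p2706 : PrL chk L2706 := leafL c2706

theorem c2707 : lp7 (fun s => chk (ent L2707 s)) 0 = true := by decide +kernel
theorem p2707 : PrL chk L2707 := leafL c2707

theorem c2708 : lp7 (fun s => chk (ent L2708 s)) 0 = true := by decide +kernel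
theorem p2708 : PrL chk L2708 := leafL c2708

theorem c2709 : lp7 (fun s => chk (ent L2709 s)) 0 = true := by decide +kernel
theorem p2709 : PrL chk L2709 := leafL c2709

theorem c2710 : lp7 (fun s => chk (ent L2710 s)) 0 = true := by decide +kernel
theorem p2710 : PrL chk L2710 := leafL c2710

theorem c2711 : lp7 (fun s => chk (ent L2711 s)) 0 = true := by decide +kernel
theorem p2711 : PrL chk L2711 := leafL c2711

theorem c2712 : lp7 (fun s => chk (ent L2712 s)) 0 = true := by decide +kernel
theorem p2712 : PrL chk L2712 := leafL c2712

theorem c2713 : lp7 (fun s => chk (ent L2713 s)) 0 = true := by decide +kernel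
theorem p2713 : PrL chk L2713 := leafL c2713

theorem c2714 : lp7 (fun s => chk (ent L2714 s)) 0 = true := by decide +kernel
theorem p2714 : PrL chk L2714 := leafL c2714

theorem c2715 : lp7 (fun s => chk (ent L2715 s)) 0 = true := by decide +kernel
theorem p2715 : PrL chk L2715 := leafL c2715

theorem c2716 : lp7 (fun s => chk (ent L2716 s)) 0 = true := by decide +kernel
theorem p2716 : PrL chk L2716 := leafL c2716

theorem c2717 : lp7 (fun s => chk (ent L2717 s)) 0 = true := by decide +kernel
theorem p2717 : PrL chk L2717 := leafL c2717

theorem c2718 : lp7 (fun s => chk (ent L2718 s)) 0 = true := by decide +kernel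
theorem p2718 : PrL chk L2718 := leafL c2718

theorem c2719 : lp7 (fun s => chk (ent L2719 s)) 0 = true := by decide +kernel
theorem p2719 : PrL chk L2719 := leafL c2719

theorem c2720 : lp7 (fun s => chk (ent L2720 s)) 0 = true := by decide +kernel
theorem p2720 : PrL chk L2720 := leafL c2720

theorem c2721 : lp7 (fun s => chk (ent L2721 s)) 0 = true := by decide +kernel
theorem p2721 : PrL chk L2721 := leafL c2721

theorem c2722 : lp7 (fun s => chk (ent L2722 s)) 0 = true := by decide +kernel
theorem p2722 : PrL chk L2722 := leafL c2722

theorem c2723 : lp7 (fun s => chk (ent L2723 s)) 0 = true := by decide +kernel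
theorem p2723 : PrL chk L2723 := leafL c2723

theorem c2724 : lp7 (fun s => chk (ent L2724 s)) 0 = true := by decide +kernel
theorem p2724 : PrL chk L2724 := leafL c2724

theorem c2725 : lp7 (fun s => chk (ent L2725 s)) 0 = true := by decide +kernel
theorem p2725 : PrL chk L2725 := leafL c2725

theorem c2726 : lp7 (fun s => chk (ent L2726 s)) 0 = true := by decide +kernel
theorem p2726 : PrL chk L2726 := leafL c2726

theorem c2727 : lp7 (fun s => chk (ent L2727 s)) 0 = true := by decide +kernel
theorem p2727 : PrL chk L2727 := leafL c2727

theorem c2728 : lp7 (fun s => chk (ent L2728 s)) 0 = true := by decide +kernel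
theorem p2728 : PrL chk L2728 := leafL c2728

theorem c2729 : lp7 (fun s => chk (ent L2729 s)) 0 = true := by decide +kernel
theorem p2729 : PrL chk L2729 := leafL c2729

theorem c2730 : lp7 (fun s => chk (ent L2730 s)) 0 = true := by decide +kernel
theorem p2730 : PrL chk L2730 := leafL c2730

theorem c2731 : lp7 (fun s => chk (ent L2731 s)) 0 = true := by decide +kernel
theorem p2731 : PrL chk L2731 := leafL c2731

theorem c2732 : lp7 (fun s => chk (ent L2732 s)) 0 = true := by decide +kernel
theorem p2732 : PrL chk L2732 := leafL c2732

theorem c2733 : lp7 (fun s => chk (ent L2733 s)) 0 = true := by decide +kernel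
theorem p2733 : PrL chk L2733 := leafL c2733

theorem c2734 : lp7 (fun s => chk (ent L2734 s)) 0 = true := by decide +kernel
theorem p2734 : PrL chk L2734 := leafL c2734

theorem c2735 : lp7 (fun s => chk (ent L2735 s)) 0 = true := by decide +kernel
theorem p2735 : PrL chk L2735 := leafL c2735

theorem c2736 : lp7 (fun s => chk (ent L2736 s)) 0 = true := by decide +kernel
theorem p2736 : PrL chk L2736 := leafL c2736

theorem c2737 : lp7 (fun s => chk (ent L2737 s)) 0 = true := by decide +kernel
theorem p2737 : PrL chk L2737 := leafL c2737

theorem c2738 : lp7 (fun s => chk (ent L2738 s)) 0 = true := by decide +kernel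
theorem p2738 : PrL chk L2738 := leafL c2738

theorem c2739 : lp7 (fun s => chk (ent L2739 s)) 0 = true := by decide +kernel
theorem p2739 : PrL chk L2739 := leafL c2739

theorem c2740 : lp7 (fun s => chk (ent L2740 s)) 0 = true := by decide +kernel
theorem p2740 : PrL chk L2740 := leafL c2740

theorem c2741 : lp7 (fun s => chk (ent L2741 s)) 0 = true := by decide +kernel
theorem p2741 : PrL chk L2741 := leafL c2741

theorem c2742 : lp7 (fun s => chk (ent L2742 s)) 0 = true := by decide +kernel
theorem p2742 : PrL chk L2742 := leafL c2742

theorem c2743 : lp7 (fun s => chk (ent L2743 s)) 0 = true := by decide +kernel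
theorem p2743 : PrL chk L2743 := leafL c2743

theorem c2744 : lp7 (fun s => chk (ent L2744 s)) 0 = true := by decide +kernel
theorem p2744 : PrL chk L2744 := leafL c2744

theorem c2745 : lp7 (fun s => chk (ent L2745 s)) 0 = true := by decide +kernel
theorem p2745 : PrL chk L2745 := leafL c2745

theorem c2746 : lp7 (fun s => chk (ent L2746 s)) 0 = true := by decide +kernel
theorem p2746 : PrL chk L2746 := leafL c2746

theorem c2747 : lp7 (fun s => chk (ent L2747 s)) 0 = true := by decide +kernel
theorem p2747 : PrL chk L2747 := leafL c2747

theorem c2748 : lp7 (fun s => chk (ent L2748 s)) 0 = true := by decide +kernel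
theorem p2748 : PrL chk L2748 := leafL c2748

theorem c2749 : lp7 (fun s => chk (ent L2749 s)) 0 = true := by decide +kernel
theorem p2749 : PrL chk L2749 := leafL c2749

theorem c2750 : lp7 (fun s => chk (ent L2750 s)) 0 = true := by decide +kernel
theorem p2750 : PrL chk L2750 := leafL c2750

theorem c2751 : lp7 (fun s => chk (ent L2751 s)) 0 = true := by decide +kernel
theorem p2751 : PrL chk L2751 := leafL c2751

theorem c2752 : lp7 (fun s => chk (ent L2752 s)) 0 = true := by decide +kernel
theorem p2752 : PrL chk L2752 := leafL c2752

theorem c2753 : lp7 (fun s => chk (ent L2753 s)) 0 = true := by decide +kernel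
theorem p2753 : PrL chk L2753 := leafL c2753

theorem c2754 : lp7 (fun s => chk (ent L2754 s)) 0 = true := by decide +kernel
theorem p2754 : PrL chk L2754 := leafL c2754

theorem c2755 : lp7 (fun s => chk (ent L2755 s)) 0 = true := by decide +kernel
theorem p2755 : PrL chk L2755 := leafL c2755

theorem c2756 : lp7 (fun s => chk (ent L2756 s)) 0 = true := by decide +kernel
theorem p2756 : PrL chk L2756 := leafL c2756

theorem c2757 : lp7 (fun s => chk (ent L2757 s)) 0 = true := by decide +kernel
theorem p2757 : PrL chk L2757 := leafL c2757

theorem c2758 : lp7 (fun s => chk (ent L2758 s)) 0 = true := by decide +kernel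
theorem p2758 : PrL chk L2758 := leafL c2758

theorem c2759 : lp7 (fun s => chk (ent L2759 s)) 0 = true := by decide +kernel
theorem p2759 : PrL chk L2759 := leafL c2759

theorem c2760 : lp7 (fun s => chk (ent L2760 s)) 0 = true := by decide +kernel
theorem p2760 : PrL chk L2760 := leafL c2760

theorem c2761 : lp7 (fun s => chk (ent L2761 s)) 0 = true := by decide +kernel
theorem p2761 : PrL chk L2761 := leafL c2761

theorem c2762 : lp7 (fun s => chk (ent L2762 s)) 0 = true := by decide +kernel
theorem p2762 : PrL chk L2762 := leafL c2762

theorem c2763 : lp7 (fun s => chk (ent L2763 s)) 0 = true := by decide +kernel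
theorem p2763 : PrL chk L2763 := leafL c2763

theorem c2764 : lp7 (fun s => chk (ent L2764 s)) 0 = true := by decide +kernel
theorem p2764 : PrL chk L2764 := leafL c2764

theorem c2765 : lp7 (fun s => chk (ent L2765 s)) 0 = true := by decide +kernel
theorem p2765 : PrL chk L2765 := leafL c2765

theorem c2766 : lp7 (fun s => chk (ent L2766 s)) 0 = true := by decide +kernel
theorem p2766 : PrL chk L2766 := leafL c2766

theorem c2767 : lp7 (fun s => chk (ent L2767 s)) 0 = true := by decide +kernel
theorem p2767 : PrL chk L2767 := leafL c2767

theorem c2768 : lp7 (fun s => chk (ent L2768 s)) 0 = true := by decide +kernel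
theorem p2768 : PrL chk L2768 := leafL c2768

theorem c2769 : lp7 (fun s => chk (ent L2769 s)) 0 = true := by decide +kernel
theorem p2769 : PrL chk L2769 := leafL c2769

theorem c2770 : lp7 (fun s => chk (ent L2770 s)) 0 = true := by decide +kernel
theorem p2770 : PrL chk L2770 := leafL c2770

theorem c2771 : lp7 (fun s => chk (ent L2771 s)) 0 = true := by decide +kernel
theorem p2771 : PrL chk L2771 := leafL c2771

theorem c2772 : lp7 (fun s => chk (ent L2772 s)) 0 = true := by decide +kernel
theorem p2772 : PrL chk L2772 := leafL c2772

theorem c2773 : lp7 (fun s => chk (ent L2773 s)) 0 = true := by decide +kernel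
theorem p2773 : PrL chk L2773 := leafL c2773

theorem c2774 : lp7 (fun s => chk (ent L2774 s)) 0 = true := by decide +kernel
theorem p2774 : PrL chk L2774 := leafL c2774

theorem c2775 : lp7 (fun s => chk (ent L2775 s)) 0 = true := by decide +kernel
theorem p2775 : PrL chk L2775 := leafL c2775

theorem c2776 : lp7 (fun s => chk (ent L2776 s)) 0 = true := by decide +kernel
theorem p2776 : PrL chk L2776 := leafL c2776

theorem c2777 : lp7 (fun s => chk (ent L2777 s)) 0 = true := by decide +kernel
theorem p2777 : PrL chk L2777 := leafL c2777

theorem c2778 : lp7 (fun s => chk (ent L2778 s)) 0 = true := by decide +kernel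
theorem p2778 : PrL chk L2778 := leafL c2778

theorem c2779 : lp7 (fun s => chk (ent L2779 s)) 0 = true := by decide +kernel
theorem p2779 : PrL chk L2779 := leafL c2779

theorem c2780 : lp7 (fun s => chk (ent L2780 s)) 0 = true := by decide +kernel
theorem p2780 : PrL chk L2780 := leafL c2780

theorem c2781 : lp7 (fun s => chk (ent L2781 s)) 0 = true := by decide +kernel
theorem p2781 : PrL chk L2781 := leafL c2781

theorem c2782 : lp7 (fun s => chk (ent L2782 s)) 0 = true := by decide +kernel
theorem p2782 : PrL chk L2782 := leafL c2782

theorem c2783 : lp7 (fun s => chk (ent L2783 s)) 0 = true := by decide +kernel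
theorem p2783 : PrL chk L2783 := leafL c2783

theorem c2784 : lp7 (fun s => chk (ent L2784 s)) 0 = true := by decide +kernel
theorem p2784 : PrL chk L2784 := leafL c2784

theorem c2785 : lp7 (fun s => chk (ent L2785 s)) 0 = true := by decide +kernel
theorem p2785 : PrL chk L2785 := leafL c2785

theorem c2786 : lp7 (fun s => chk (ent L2786 s)) 0 = true := by decide +kernel
theorem p2786 : PrL chk L2786 := leafL c2786

theorem c2787 : lp7 (fun s => chk (ent L2787 s)) 0 = true := by decide +kernel
theorem p2787 : PrL chk L2787 := leafL c2787

theorem c2788 : lp7 (fun s => chk (ent L2788 s)) 0 = true := by decide +kernel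
theorem p2788 : PrL chk L2788 := leafL c2788

theorem c2789 : lp7 (fun s => chk (ent L2789 s)) 0 = true := by decide +kernel
theorem p2789 : PrL chk L2789 := leafL c2789

theorem c2790 : lp7 (fun s => chk (ent L2790 s)) 0 = true := by decide +kernel
theorem p2790 : PrL chk L2790 := leafL c2790

theorem c2791 : lp7 (fun s => chk (ent L2791 s)) 0 = true := by decide +kernel
theorem p2791 : PrL chk L2791 := leafL c2791

theorem c2792 : lp7 (fun s => chk (ent L2792 s)) 0 = true := by decide +kernel
theorem p2792 : PrL chk L2792 := leafL c2792

theorem c2793 : lp7 (fun s => chk (ent L2793 s)) 0 = true := by decide +kernel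
theorem p2793 : PrL chk L2793 := leafL c2793

theorem c2794 : lp7 (fun s => chk (ent L2794 s)) 0 = true := by decide +kernel
theorem p2794 : PrL chk L2794 := leafL c2794

theorem c2795 : lp7 (fun s => chk (ent L2795 s)) 0 = true := by decide +kernel
theorem p2795 : PrL chk L2795 := leafL c2795

theorem c2796 : lp7 (fun s => chk (ent L2796 s)) 0 = true := by decide +kernel
theorem p2796 : PrL chk L2796 := leafL c2796

theorem c2797 : lp7 (fun s => chk (ent L2797 s)) 0 = true := by decide +kernel
theorem p2797 : PrL chk L2797 := leafL c2797

theorem c2798 : lp7 (fun s => chk (ent L2798 s)) 0 = true := by decide +kernel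
theorem p2798 : PrL chk L2798 := leafL c2798

theorem c2799 : lp7 (fun s => chk (ent L2799 s)) 0 = true := by decide +kernel
theorem p2799 : PrL chk L2799 := leafL c2799

theorem c2800 : lp7 (fun s => chk (ent L2800 s)) 0 = true := by decide +kernel
theorem p2800 : PrL chk L2800 := leafL c2800

theorem c2801 : lp7 (fun s => chk (ent L2801 s)) 0 = true := by decide +kernel
theorem p2801 : PrL chk L2801 := leafL c2801

theorem c2802 : lp7 (fun s => chk (ent L2802 s)) 0 = true := by decide +kernel
theorem p2802 : PrL chk L2802 := leafL c2802

theorem c2803 : lp7 (fun s => chk (ent L2803 s)) 0 = true := by decide +kernel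
theorem p2803 : PrL chk L2803 := leafL c2803

theorem c2804 : lp7 (fun s => chk (ent L2804 s)) 0 = true := by decide +kernel
theorem p2804 : PrL chk L2804 := leafL c2804

theorem c2805 : lp7 (fun s => chk (ent L2805 s)) 0 = true := by decide +kernel
theorem p2805 : PrL chk L2805 := leafL c2805

theorem c2806 : lp7 (fun s => chk (ent L2806 s)) 0 = true := by decide +kernel
theorem p2806 : PrL chk L2806 := leafL c2806

theorem c2807 : lp7 (fun s => chk (ent L2807 s)) 0 = true := by decide +kernel
theorem p2807 : PrL chk L2807 := leafL c2807

theorem c2808 : lp7 (fun s => chk (ent L2808 s)) 0 = true := by decide +kernel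
theorem p2808 : PrL chk L2808 := leafL c2808

theorem c2809 : lp7 (fun s => chk (ent L2809 s)) 0 = true := by decide +kernel
theorem p2809 : PrL chk L2809 := leafL c2809

theorem c2810 : lp7 (fun s => chk (ent L2810 s)) 0 = true := by decide +kernel
theorem p2810 : PrL chk L2810 := leafL c2810

theorem c2811 : lp7 (fun s => chk (ent L2811 s)) 0 = true := by decide +kernel
theorem p2811 : PrL chk L2811 := leafL c2811

theorem c2812 : lp7 (fun s => chk (ent L2812 s)) 0 = true := by decide +kernel
theorem p2812 : PrL chk L2812 := leafL c2812

theorem c2813 : lp7 (fun s => chk (ent L2813 s)) 0 = true := by decide +kernel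
theorem p2813 : PrL chk L2813 := leafL c2813

theorem c2814 : lp7 (fun s => chk (ent L2814 s)) 0 = true := by decide +kernel
theorem p2814 : PrL chk L2814 := leafL c2814

theorem c2815 : lp7 (fun s => chk (ent L2815 s)) 0 = true := by decide +kernel
theorem p2815 : PrL chk L2815 := leafL c2815

end Pool.Agent.ad013a.LA
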