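import Pool.Agent.H.MP_ad013a_pr.h63l.A.T
import Pool.Agent.H.MP_ad013a_pr.h63w.VLoop

namespace Pool.Agent.ad013a.LA

theorem c2816 : lp7 (fun s => chk (ent L2816 s)) 0 = true := by decide +kernel
theorem p2816 : PrL chk L2816 := leafL c2816

theorem c2817 : lp7 (fun s => chk (ent L2817 s)) 0 = true := by decide +kernel
theorem p2817 : PrL chk L2817 := leafL c2817

theorem c2818 : lp7 (fun s => chk (ent L2818 s)) 0 = true := by decide +kernel
theorem p2818 : PrL chk L2818 := leafL c2818

theorem c2819 : lp7 (fun s => chk (ent L2819 s)) 0 = true := by decide +kernel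
theorem p2819 : PrL chk L2819 := leafL c2819

theorem c2820 : lp7 (fun s => chk (ent L2820 s)) 0 = true := by decide +kernel
theorem p2820 : PrL chk L2820 := leafL c2820

theorem c2821 : lp7 (fun s => chk (ent L2821 s)) 0 = true := by decide +kernel
theorem p2821 : PrL chk L2821 := leafL c2821

theorem c2822 : lp7 (fun s => chk (ent L2822 s)) 0 = true := by decide +kernel
theorem p2822 : PrL chk L2822 := leafL c2822

theorem c2823 : lp7 (fun s => chk (ent L2823 s)) 0 = true := by decide +kernel
theorem p2823 : PrL chk L2823 := leafL c2823

theorem c2824 : lp7 (fun s => chk (ent L2824 s)) 0 = true := by decide +kernel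
theorem p2824 : PrL chk L2824 := leafL c2824

theorem c2825 : lp7 (fun s => chk (ent L2825 s)) 0 = true := by decide +kernel
theorem p2825 : PrL chk L2825 := leafL c2825

theorem c2826 : lp7 (fun s => chk (ent L2826 s)) 0 = true := by decide +kernel
theorem p2826 : PrL chk L2826 := leafL c2826

theorem c2827 : lp7 (fun s => chk (ent L2827 s)) 0 = true := by decide +kernel
theorem p2827 : PrL chk L2827 := leafL c2827

theorem c2828 : lp7 (fun s => chk (ent L2828 s)) 0 = true := by decide +kernel
theorem p2828 : PrL chk L2828 := leafL c2828

theorem c2829 : lp7 (fun s => chk (ent L2829 s)) 0 = true := by decide +kernel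
theorem p2829 : PrL chk L2829 := leafL c2829

theorem c2830 : lp7 (fun s => chk (ent L2830 s)) 0 = true := by decide +kernel
theorem p2830 : PrL chk L2830 := leafL c2830

theorem c2831 : lp7 (fun s => chk (ent L2831 s)) 0 = true := by decide +kernel
theorem p2831 : PrL chk L2831 := leafL c2831

theorem c2832 : lp7 (fun s => chk (ent L2832 s)) 0 = true := by decide +kernel
theorem p2832 : PrL chk L2832 := leafL c2832

theorem c2833 : lp7 (fun s => chk (ent L2833 s)) 0 = true := by decide +kernel
theorem p2833 : PrL chk L2833 := leafL c2833

theorem c2834 : lp7 (fun s => chk (ent L2834 s)) 0 = true := by decide +kernel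
theorem p2834 : PrL chk L2834 := leafL c2834

theorem c2835 : lp7 (fun s => chk (ent L2835 s)) 0 = true := by decide +kernel
theorem p2835 : PrL chk L2835 := leafL c2835

theorem c2836 : lp7 (fun s => chk (ent L2836 s)) 0 = true := by decide +kernel
theorem p2836 : PrL chk L2836 := leafL c2836

theorem c2837 : lp7 (fun s => chk (ent L2837 s)) 0 = true := by decide +kernel
theorem p2837 : PrL chk L2837 := leafL c2837

theorem c2838 : lp7 (fun s => chk (ent L2838 s)) 0 = true := by decide +kernel
theorem p2838 : PrL chk L2838 := leafL c2838

theorem c2839 : lp7 (fun s => chk (ent L2839 s)) 0 = true := by decide +kernel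
theorem p2839 : PrL chk L2839 := leafL c2839

theorem c2840 : lp7 (fun s => chk (ent L2840 s)) 0 = true := by decide +kernel
theorem p2840 : PrL chk L2840 := leafL c2840

theorem c2841 : lp7 (fun s => chk (ent L2841 s)) 0 = true := by decide +kernel
theorem p2841 : PrL chk L2841 := leafL c2841

theorem c2842 : lp7 (fun s => chk (ent L2842 s)) 0 = true := by decide +kernel
theorem p2842 : PrL chk L2842 := leafL c2842

theorem c2843 : lp7 (fun s => chk (ent L2843 s)) 0 = true := by decide +kernel
theorem p2843 : PrL chk L2843 := leafL c2843

theorem c2844 : lp7 (fun s => chk (ent L2844 s)) 0 = true := by decide +kernel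
theorem p2844 : PrL chk L2844 := leafL c2844

theorem c2845 : lp7 (fun s => chk (ent L2845 s)) 0 = true := by decide +kernel
theorem p2845 : PrL chk L2845 := leafL c2845

theorem c2846 : lp7 (fun s => chk (ent L2846 s)) 0 = true := by decide +kernel
theorem p2846 : PrL chk L2846 := leafL c2846

theorem c2847 : lp7 (fun s => chk (ent L2847 s)) 0 = true := by decide +kernel
theorem p2847 : PrL chk L2847 := leafL c2847

theorem c2848 : lp7 (fun s => chk (ent L2848 s)) 0 = true := by decide +kernel
theorem p2848 : PrL chk L2848 := leafL c2848

theorem c2849 : lp7 (fun s => chk (ent L2849 s)) 0 = true := by decide +kernel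
theorem p2849 : PrL chk L2849 := leafL c2849

theorem c2850 : lp7 (fun s => chk (ent L2850 s)) 0 = true := by decide +kernel
theorem p2850 : PrL chk L2850 := leafL c2850

theorem c2851 : lp7 (fun s => chk (ent L2851 s)) 0 = true := by decide +kernel
theorem p2851 : PrL chk L2851 := leafL c2851

theorem c2852 : lp7 (fun s => chk (ent L2852 s)) 0 = true := by decide +kernel
theorem p2852 : PrL chk L2852 := leafL c2852

theorem c2853 : lp7 (fun s => chk (ent L2853 s)) 0 = true := by decide +kernel
theorem p2853 : PrL chk L2853 := leafL c2853

theorem c2854 : lp7 (fun s => chk (ent L2854 s)) 0 = true := by decide +kernel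
theorem p2854 : PrL chk L2854 := leafL c2854

theorem c2855 : lp7 (fun s => chk (ent L2855 s)) 0 = true := by decide +kernel
theorem p2855 : PrL chk L2855 := leafL c2855

theorem c2856 : lp7 (fun s => chk (ent L2856 s)) 0 = true := by decide +kernel
theorem p2856 : PrL chk L2856 := leafL c2856

theorem c2857 : lp7 (fun s => chk (ent L2857 s)) 0 = true := by decide +kernel
theorem p2857 : PrL chk L2857 := leafL c2857

theorem c2858 : lp7 (fun s => chk (ent L2858 s)) 0 = true := by decide +kernel
theorem p2858 : PrL chk L2858 := leafL c2858

theorem c2859 : lp7 (fun s => chk (ent L2859 s)) 0 = true := by decide +kernel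
theorem p2859 : PrL chk L2859 := leafL c2859

theorem c2860 : lp7 (fun s => chk (ent L2860 s)) 0 = true := by decide +kernel
theorem p2860 : PrL chk L2860 := leafL c2860

theorem c2861 : lp7 (fun s => chk (ent L2861 s)) 0 = true := by decide +kernel
theorem p2861 : PrL chk L2861 := leafL c2861

theorem c2862 : lp7 (fun s => chk (ent L2862 s)) 0 = true := by decide +kernel
theorem p2862 : PrL chk L2862 := leafL c2862

theorem c2863 : lp7 (fun s => chk (ent L2863 s)) 0 = true := by decide +kernel
theorem p2863 : PrL chk L2863 := leafL c2863

theorem c2864 : lp7 (fun s => chk (ent L2864 s)) 0 = true := by decide +kernel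
theorem p2864 : PrL chk L2864 := leafL c2864

theorem c2865 : lp7 (fun s => chk (ent L2865 s)) 0 = true := by decide +kernel
theorem p2865 : PrL chk L2865 := leafL c2865

theorem c2866 : lp7 (fun s => chk (ent L2866 s)) 0 = true := by decide +kernel
theorem p2866 : PrL chk L2866 := leafL c2866

theorem c2867 : lp7 (fun s => chk (ent L2867 s)) 0 = true := by decide +kernel
theorem p2867 : PrL chk L2867 := leafL c2867

theorem c2868 : lp7 (fun s => chk (ent L2868 s)) 0 = true := by decide +kernel
theorem p2868 : PrL chk L2868 := leafL c2868

theorem c2869 : lp7 (fun s => chk (ent L2869 s)) 0 = true := by decide +kernel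
theorem p2869 : PrL chk L2869 := leafL c2869

theorem c2870 : lp7 (fun s => chk (ent L2870 s)) 0 = true := by decide +kernel
theorem p2870 : PrL chk L2870 := leafL c2870

theorem c2871 : lp7 (fun s => chk (ent L2871 s)) 0 = true := by decide +kernel
theorem p2871 : PrL chk L2871 := leafL c2871

theorem c2872 : lp7 (fun s => chk (ent L2872 s)) 0 = true := by decide +kernel
theorem p2872 : PrL chk L2872 := leafL c2872

theorem c2873 : lp7 (fun s => chk (ent L2873 s)) 0 = true := by decide +kernel
theorem p2873 : PrL chk L2873 := leafL c2873

theorem c2874 : lp7 (fun s => chk (ent L2874 s)) 0 = true := by decide +kernel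
theorem p2874 : PrL chk L2874 := leafL c2874

theorem c2875 : lp7 (fun s => chk (ent L2875 s)) 0 = true := by decide +kernel
theorem p2875 : PrL chk L2875 := leafL c2875

theorem c2876 : lp7 (fun s => chk (ent L2876 s)) 0 = true := by decide +kernel
theorem p2876 : PrL chk L2876 := leafL c2876

theorem c2877 : lp7 (fun s => chk (ent L2877 s)) 0 = true := by decide +kernel
theorem p2877 : PrL chk L2877 := leafL c2877

theorem c2878 : lp7 (fun s => chk (ent L2878 s)) 0 = true := by decide +kernel
theorem p2878 : PrL chk L2878 := leafL c2878

theorem c2879 : lp7 (fun s => chk (ent L2879 s)) 0 = true := by decide +kernel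
theorem p2879 : PrL chk L2879 := leafL c2879

theorem c2880 : lp7 (fun s => chk (ent L2880 s)) 0 = true := by decide +kernel
theorem p2880 : PrL chk L2880 := leafL c2880

theorem c2881 : lp7 (fun s => chk (ent L2881 s)) 0 = true := by decide +kernel
theorem p2881 : PrL chk L2881 := leafL c2881

theorem c2882 : lp7 (fun s => chk (ent L2882 s)) 0 = true := by decide +kernel
theorem p2882 : PrL chk L2882 := leafL c2882

theorem c2883 : lp7 (fun s => chk (ent L2883 s)) 0 = true := by decide +kernel
theorem p2883 : PrL chk L2883 := leafL c2883

theorem c2884 : lp7 (fun s => chk (ent L2884 s)) 0 = true := by decide +kernel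
theorem p2884 : PrL chk L2884 := leafL c2884

theorem c2885 : lp7 (fun s => chk (ent L2885 s)) 0 = true := by decide +kernel
theorem p2885 : PrL chk L2885 := leafL c2885

theorem c2886 : lp7 (fun s => chk (ent L2886 s)) 0 = true := by decide +kernel
theorem p2886 : PrL chk L2886 := leafL c2886

theorem c2887 : lp7 (fun s => chk (ent L2887 s)) 0 = true := by decide +kernel
theorem p2887 : PrL chk L2887 := leafL c2887

theorem c2888 : lp7 (fun s => chk (ent L2888 s)) 0 = true := by decide +kernel
theorem p2888 : PrL chk L2888 := leafL c2888

theorem c2889 : lp7 (fun s => chk (ent L2889 s)) 0 = true := by decide +kernel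
theorem p2889 : PrL chk L2889 := leafL c2889

theorem c2890 : lp7 (fun s => chk (ent L2890 s)) 0 = true := by decide +kernel
theorem p2890 : PrL chk L2890 := leafL c2890

theorem c2891 : lp7 (fun s => chk (ent L2891 s)) 0 = true := by decide +kernel
theorem p2891 : PrL chk L2891 := leafL c2891

theorem c2892 : lp7 (fun s => chk (ent L2892 s)) 0 = true := by decide +kernel
theorem p2892 : PrL chk L2892 := leafL c2892

theorem c2893 : lp7 (fun s => chk (ent L2893 s)) 0 = true := by decide +kernel
theorem p2893 : PrL chk L2893 := leafL c2893

theorem c2894 : lp7 (fun s => chk (ent L2894 s)) 0 = true := by decide +kernel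
theorem p2894 : PrL chk L2894 := leafL c2894

theorem c2895 : lp7 (fun s => chk (ent L2895 s)) 0 = true := by decide +kernel
theorem p2895 : PrL chk L2895 := leafL c2895

theorem c2896 : lp7 (fun s => chk (ent L2896 s)) 0 = true := by decide +kernel
theorem p2896 : PrL chk L2896 := leafL c2896

theorem c2897 : lp7 (fun s => chk (ent L2897 s)) 0 = true := by decide +kernel
theorem p2897 : PrL chk L2897 := leafL c2897

theorem c2898 : lp7 (fun s => chk (ent L2898 s)) 0 = true := by decide +kernel
theorem p2898 : PrL chk L2898 := leafL c2898

theorem c2899 : lp7 (fun s => chk (ent L2899 s)) 0 = true := by decide +kernel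
theorem p2899 : PrL chk L2899 := leafL c2899

theorem c2900 : lp7 (fun s => chk (ent L2900 s)) 0 = true := by decide +kernel
theorem p2900 : PrL chk L2900 := leafL c2900

theorem c2901 : lp7 (fun s => chk (ent L2901 s)) 0 = true := by decide +kernel
theorem p2901 : PrL chk L2901 := leafL c2901

theorem c2902 : lp7 (fun s => chk (ent L2902 s)) 0 = true := by decide +kernel
theorem p2902 : PrL chk L2902 := leafL c2902

theorem c2903 : lp7 (fun s => chk (ent L2903 s)) 0 = true := by decide +kernel
theorem p2903 : PrL chk L2903 := leafL c2903

theorem c2904 : lp7 (fun s => chk (ent L2904 s)) 0 = true := by decide +kernel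
theorem p2904 : PrL chk L2904 := leafL c2904

theorem c2905 : lp7 (fun s => chk (ent L2905 s)) 0 = true := by decide +kernel
theorem p2905 : PrL chk L2905 := leafL c2905

theorem c2906 : lp7 (fun s => chk (ent L2906 s)) 0 = true := by decide +kernel
theorem p2906 : PrL chk L2906 := leafL c2906

theorem c2907 : lp7 (fun s => chk (ent L2907 s)) 0 = true := by decide +kernel
theorem p2907 : PrL chk L2907 := leafL c2907

theorem c2908 : lp7 (fun s => chk (ent L2908 s)) 0 = true := by decide +kernel
theorem p2908 : PrL chk L2908 := leafL c2908

theorem c2909 : lp7 (fun s => chk (ent L2909 s)) 0 = true := by decide +kernel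
theorem p2909 : PrL chk L2909 := leafL c2909

theorem c2910 : lp7 (fun s => chk (ent L2910 s)) 0 = true := by decide +kernel
theorem p2910 : PrL chk L2910 := leafL c2910

theorem c2911 : lp7 (fun s => chk (ent L2911 s)) 0 = true := by decide +kernel
theorem p2911 : PrL chk L2911 := leafL c2911

theorem c2912 : lp7 (fun s => chk (ent L2912 s)) 0 = true := by decide +kernel
theorem p2912 : PrL chk L2912 := leafL c2912

theorem c2913 : lp7 (fun s => chk (ent L2913 s)) 0 = true := by decide +kernel
theorem p2913 : PrL chk L2913 := leafL c2913

theorem c2914 : lp7 (fun s => chk (ent L2914 s)) 0 = true := by decide +kernel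
theorem p2914 : PrL chk L2914 := leafL c2914

theorem c2915 : lp7 (fun s => chk (ent L2915 s)) 0 = true := by decide +kernel
theorem p2915 : PrL chk L2915 := leafL c2915

theorem c2916 : lp7 (fun s => chk (ent L2916 s)) 0 = true := by decide +kernel
theorem p2916 : PrL chk L2916 := leafL c2916

theorem c2917 : lp7 (fun s => chk (ent L2917 s)) 0 = true := by decide +kernel
theorem p2917 : PrL chk L2917 := leafL c2917

theorem c2918 : lp7 (fun s => chk (ent L2918 s)) 0 = true := by decide +kernel
theorem p2918 : PrL chk L2918 := leafL c2918

theorem c2919 : lp7 (fun s => chk (ent L2919 s)) 0 = true := by decide +kernel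
theorem p2919 : PrL chk L2919 := leafL c2919

theorem c2920 : lp7 (fun s => chk (ent L2920 s)) 0 = true := by decide +kernel
theorem p2920 : PrL chk L2920 := leafL c2920

theorem c2921 : lp7 (fun s => chk (ent L2921 s)) 0 = true := by decide +kernel
theorem p2921 : PrL chk L2921 := leafL c2921

theorem c2922 : lp7 (fun s => chk (ent L2922 s)) 0 = true := by decide +kernel
theorem p2922 : PrL chk L2922 := leafL c2922

theorem c2923 : lp7 (fun s => chk (ent L2923 s)) 0 = true := by decide +kernel
theorem p2923 : PrL chk L2923 := leafL c2923

theorem c2924 : lp7 (fun s => chk (ent L2924 s)) 0 = true := by decide +kernel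
theorem p2924 : PrL chk L2924 := leafL c2924

theorem c2925 : lp7 (fun s => chk (ent L2925 s)) 0 = true := by decide +kernel
theorem p2925 : PrL chk L2925 := leafL c2925

theorem c2926 : lp7 (fun s => chk (ent L2926 s)) 0 = true := by decide +kernel
theorem p2926 : PrL chk L2926 := leafL c2926

theorem c2927 : lp7 (fun s => chk (ent L2927 s)) 0 = true := by decide +kernel
theorem p2927 : PrL chk L2927 := leafL c2927

theorem c2928 : lp7 (fun s => chk (ent L2928 s)) 0 = true := by decide +kernel
theorem p2928 : PrL chk L2928 := leafL c2928

theorem c2929 : lp7 (fun s => chk (ent L2929 s)) 0 = true := by decide +kernel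
theorem p2929 : PrL chk L2929 := leafL c2929

theorem c2930 : lp7 (fun s => chk (ent L2930 s)) 0 = true := by decide +kernel
theorem p2930 : PrL chk L2930 := leafL c2930

theorem c2931 : lp7 (fun s => chk (ent L2931 s)) 0 = true := by decide +kernel
theorem p2931 : PrL chk L2931 := leafL c2931

theorem c2932 : lp7 (fun s => chk (ent L2932 s)) 0 = true := by decide +kernel
theorem p2932 : PrL chk L2932 := leafL c2932

theorem c2933 : lp7 (fun s => chk (ent L2933 s)) 0 = true := by decide +kernel
theorem p2933 : PrL chk L2933 := leafL c2933

theorem c2934 : lp7 (fun s => chk (ent L2934 s)) 0 = true := by decide +kernel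
theorem p2934 : PrL chk L2934 := leafL c2934

theorem c2935 : lp7 (fun s => chk (ent L2935 s)) 0 = true := by decide +kernel
theorem p2935 : PrL chk L2935 := leafL c2935

theorem c2936 : lp7 (fun s => chk (ent L2936 s)) 0 = true := by decide +kernel
theorem p2936 : PrL chk L2936 := leafL c2936

theorem c2937 : lp7 (fun s => chk (ent L2937 s)) 0 = true := by decide +kernel
theorem p2937 : PrL chk L2937 := leafL c2937

theorem c2938 : lp7 (fun s => chk (ent L2938 s)) 0 = true := by decide +kernel
theorem p2938 : PrL chk L2938 := leafL c2938

theorem c2939 : lp7 (fun s => chk (ent L2939 s)) 0 = true := by decide +kernel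
theorem p2939 : PrL chk L2939 := leafL c2939

theorem c2940 : lp7 (fun s => chk (ent L2940 s)) 0 = true := by decide +kernel
theorem p2940 : PrL chk L2940 := leafL c2940

theorem c2941 : lp7 (fun s => chk (ent L2941 s)) 0 = true := by decide +kernel
theorem p2941 : PrL chk L2941 := leafL c2941

theorem c2942 : lp7 (fun s => chk (ent L2942 s)) 0 = true := by decide +kernel
theorem p2942 : PrL chk L2942 := leafL c2942

theorem c2943 : lp7 (fun s => chk (ent L2943 s)) 0 = true := by decide +kernel
theorem p2943 : PrL chk L2943 := leafL c2943

theorem c2944 : lp7 (fun s => chk (ent L2944 s)) 0 = true := by decide +kernel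
theorem p2944 : PrL chk L2944 := leafL c2944

theorem c2945 : lp7 (fun s => chk (ent L2945 s)) 0 = true := by decide +kernel
theorem p2945 : PrL chk L2945 := leafL c2945

theorem c2946 : lp7 (fun s => chk (ent L2946 s)) 0 = true := by decide +kernel
theorem p2946 : PrL chk L2946 := leafL c2946

theorem c2947 : lp7 (fun s => chk (ent L2947 s)) 0 = true := by decide +kernel
theorem p2947 : PrL chk L2947 := leafL c2947

theorem c2948 : lp7 (fun s => chk (ent L2948 s)) 0 = true := by decide +kernel
theorem p2948 : PrL chk L2948 := leafL c2948

theorem c2949 : lp7 (fun s => chk (ent L2949 s)) 0 = true := by decide +kernel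
theorem p2949 : PrL chk L2949 := leafL c2949

theorem c2950 : lp7 (fun s => chk (ent L2950 s)) 0 = true := by decide +kernel
theorem p2950 : PrL chk L2950 := leafL c2950

theorem c2951 : lp7 (fun s => chk (ent L2951 s)) 0 = true := by decide +kernel
theorem p2951 : PrL chk L2951 := leafL c2951

theorem c2952 : lp7 (fun s => chk (ent L2952 s)) 0 = true := by decide +kernel
theorem p2952 : PrL chk L2952 := leafL c2952

theorem c2953 : lp7 (fun s => chk (ent L2953 s)) 0 = true := by decide +kernel
theorem p2953 : PrL chk L2953 := leafL c2953

theorem c2954 : lp7 (fun s => chk (ent L2954 s)) 0 = true := by decide +kernel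
theorem p2954 : PrL chk L2954 := leafL c2954

theorem c2955 : lp7 (fun s => chk (ent L2955 s)) 0 = true := by decide +kernel
theorem p2955 : PrL chk L2955 := leafL c2955

theorem c2956 : lp7 (fun s => chk (ent L2956 s)) 0 = true := by decide +kernel
theorem p2956 : PrL chk L2956 := leafL c2956

theorem c2957 : lp7 (fun s => chk (ent L2957 s)) 0 = true := by decide +kernel
theorem p2957 : PrL chk L2957 := leafL c2957

theorem c2958 : lp7 (fun s => chk (ent L2958 s)) 0 = true := by decide +kernel
theorem p2958 : PrL chk L2958 := leafL c2958

theorem c2959 : lp7 (fun s => chk (ent L2959 s)) 0 = true := by decide +kernel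
theorem p2959 : PrL chk L2959 := leafL c2959

theorem c2960 : lp7 (fun s => chk (ent L2960 s)) 0 = true := by decide +kernel
theorem p2960 : PrL chk L2960 := leafL c2960

theorem c2961 : lp7 (fun s => chk (ent L2961 s)) 0 = true := by decide +kernel
theorem p2961 : PrL chk L2961 := leafL c2961

theorem c2962 : lp7 (fun s => chk (ent L2962 s)) 0 = true := by decide +kernel
theorem p2962 : PrL chk L2962 := leafL c2962

theorem c2963 : lp7 (fun s => chk (ent L2963 s)) 0 = true := by decide +kernel
theorem p2963 : PrL chk L2963 := leafL c2963

theorem c2964 : lp7 (fun s => chk (ent L2964 s)) 0 = true := by decide +kernel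
theorem p2964 : PrL chk L2964 := leafL c2964

theorem c2965 : lp7 (fun s => chk (ent L2965 s)) 0 = true := by decide +kernel
theorem p2965 : PrL chk L2965 := leafL c2965

theorem c2966 : lp7 (fun s => chk (ent L2966 s)) 0 = true := by decide +kernel
theorem p2966 : PrL chk L2966 := leafL c2966

theorem c2967 : lp7 (fun s => chk (ent L2967 s)) 0 = true := by decide +kernel
theorem p2967 : PrL chk L2967 := leafL c2967

theorem c2968 : lp7 (fun s => chk (ent L2968 s)) 0 = true := by decide +kernel
theorem p2968 : PrL chk L2968 := leafL c2968

theorem c2969 : lp7 (fun s => chk (ent L2969 s)) 0 = true := by decide +kernel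
theorem p2969 : PrL chk L2969 := leafL c2969

theorem c2970 : lp7 (fun s => chk (ent L2970 s)) 0 = true := by decide +kernel
theorem p2970 : PrL chk L2970 := leafL c2970

theorem c2971 : lp7 (fun s => chk (ent L2971 s)) 0 = true := by decide +kernel
theorem p2971 : PrL chk L2971 := leafL c2971

theorem c2972 : lp7 (fun s => chk (ent L2972 s)) 0 = true := by decide +kernel
theorem p2972 : PrL chk L2972 := leafL c2972

theorem c2973 : lp7 (fun s => chk (ent L2973 s)) 0 = true := by decide +kernel
theorem p2973 : PrL chk L2973 := leafL c2973

theorem c2974 : lp7 (fun s => chk (ent L2974 s)) 0 = true := by decide +kernel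
theorem p2974 : PrL chk L2974 := leafL c2974

theorem c2975 : lp7 (fun s => chk (ent L2975 s)) 0 = true := by decide +kernel
theorem p2975 : PrL chk L2975 := leafL c2975

theorem c2976 : lp7 (fun s => chk (ent L2976 s)) 0 = true := by decide +kernel
theorem p2976 : PrL chk L2976 := leafL c2976

theorem c2977 : lp7 (fun s => chk (ent L2977 s)) 0 = true := by decide +kernel
theorem p2977 : PrL chk L2977 := leafL c2977

theorem c2978 : lp7 (fun s => chk (ent L2978 s)) 0 = true := by decide +kernel
theorem p2978 : PrL chk L2978 := leafL c2978

theorem c2979 : lp7 (fun s => chk (ent L2979 s)) 0 = true := by decide +kernel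
theorem p2979 : PrL chk L2979 := leafL c2979

theorem c2980 : lp7 (fun s => chk (ent L2980 s)) 0 = true := by decide +kernel
theorem p2980 : PrL chk L2980 := leafL c2980

theorem c2981 : lp7 (fun s => chk (ent L2981 s)) 0 = true := by decide +kernel
theorem p2981 : PrL chk L2981 := leafL c2981

theorem c2982 : lp7 (fun s => chk (ent L2982 s)) 0 = true := by decide +kernel
theorem p2982 : PrL chk L2982 := leafL c2982

theorem c2983 : lp7 (fun s => chk (ent L2983 s)) 0 = true := by decide +kernel
theorem p2983 : PrL chk L2983 := leafL c2983

theorem c2984 : lp7 (fun s => chk (ent L2984 s)) 0 = true := by decide +kernel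
theorem p2984 : PrL chk L2984 := leafL c2984

theorem c2985 : lp7 (fun s => chk (ent L2985 s)) 0 = true := by decide +kernel
theorem p2985 : PrL chk L2985 := leafL c2985

theorem c2986 : lp7 (fun s => chk (ent L2986 s)) 0 = true := by decide +kernel
theorem p2986 : PrL chk L2986 := leafL c2986

theorem c2987 : lp7 (fun s => chk (ent L2987 s)) 0 = true := by decide +kernel
theorem p2987 : PrL chk L2987 := leafL c2987

theorem c2988 : lp7 (fun s => chk (ent L2988 s)) 0 = true := by decide +kernel
theorem p2988 : PrL chk L2988 := leafL c2988

theorem c2989 : lp7 (fun s => chk (ent L2989 s)) 0 = true := by decide +kernel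
theorem p2989 : PrL chk L2989 := leafL c2989

theorem c2990 : lp7 (fun s => chk (ent L2990 s)) 0 = true := by decide +kernel
theorem p2990 : PrL chk L2990 := leafL c2990

theorem c2991 : lp7 (fun s => chk (ent L2991 s)) 0 = true := by decide +kernel
theorem p2991 : PrL chk L2991 := leafL c2991

theorem c2992 : lp7 (fun s => chk (ent L2992 s)) 0 = true := by decide +kernel
theorem p2992 : PrL chk L2992 := leafL c2992

theorem c2993 : lp7 (fun s => chk (ent L2993 s)) 0 = true := by decide +kernel
theorem p2993 : PrL chk L2993 := leafL c2993

theorem c2994 : lp7 (fun s => chk (ent L2994 s)) 0 = true := by decide +kernel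
theorem p2994 : PrL chk L2994 := leafL c2994

theorem c2995 : lp7 (fun s => chk (ent L2995 s)) 0 = true := by decide +kernel
theorem p2995 : PrL chk L2995 := leafL c2995

theorem c2996 : lp7 (fun s => chk (ent L2996 s)) 0 = true := by decide +kernel
theorem p2996 : PrL chk L2996 := leafL c2996

theorem c2997 : lp7 (fun s => chk (ent L2997 s)) 0 = true := by decide +kernel
theorem p2997 : PrL chk L2997 := leafL c2997

theorem c2998 : lp7 (fun s => chk (ent L2998 s)) 0 = true := by decide +kernel
theorem p2998 : PrL chk L2998 := leafL c2998

theorem c2999 : lp7 (fun s => chk (ent L2999 s)) 0 = true := by decide +kernel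
theorem p2999 : PrL chk L2999 := leafL c2999

theorem c3000 : lp7 (fun s => chk (ent L3000 s)) 0 = true := by decide +kernel
theorem p3000 : PrL chk L3000 := leafL c3000

theorem c3001 : lp7 (fun s => chk (ent L3001 s)) 0 = true := by decide +kernel
theorem p3001 : PrL chk L3001 := leafL c3001

theorem c3002 : lp7 (fun s => chk (ent L3002 s)) 0 = true := by decide +kernel
theorem p3002 : PrL chk L3002 := leafL c3002

theorem c3003 : lp7 (fun s => chk (ent L3003 s)) 0 = true := by decide +kernel
theorem p3003 : PrL chk L3003 := leafL c3003

theorem c3004 : lp7 (fun s => chk (ent L3004 s)) 0 = true := by decide +kernel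
theorem p3004 : PrL chk L3004 := leafL c3004

theorem c3005 : lp7 (fun s => chk (ent L3005 s)) 0 = true := by decide +kernel
theorem p3005 : PrL chk L3005 := leafL c3005

theorem c3006 : lp7 (fun s => chk (ent L3006 s)) 0 = true := by decide +kernel
theorem p3006 : PrL chk L3006 := leafL c3006

theorem c3007 : lp7 (fun s => chk (ent L3007 s)) 0 = true := by decide +kernel
theorem p3007 : PrL chk L3007 := leafL c3007

theorem c3008 : lp7 (fun s => chk (ent L3008 s)) 0 = true := by decide +kernel
theorem p3008 : PrL chk L3008 := leafL c3008

theorem c3009 : lp7 (fun s => chk (ent L3009 s)) 0 = true := by decide +kernel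
theorem p3009 : PrL chk L3009 := leafL c3009

theorem c3010 : lp7 (fun s => chk (ent L3010 s)) 0 = true := by decide +kernel
theorem p3010 : PrL chk L3010 := leafL c3010

theorem c3011 : lp7 (fun s => chk (ent L3011 s)) 0 = true := by decide +kernel
theorem p3011 : PrL chk L3011 := leafL c3011

theorem c3012 : lp7 (fun s => chk (ent L3012 s)) 0 = true := by decide +kernel
theorem p3012 : PrL chk L3012 := leafL c3012

theorem c3013 : lp7 (fun s => chk (ent L3013 s)) 0 = true := by decide +kernel
theorem p3013 : PrL chk L3013 := leafL c3013

theorem c3014 : lp7 (fun s => chk (ent L3014 s)) 0 = true := by decide +kernel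
theorem p3014 : PrL chk L3014 := leafL c3014

theorem c3015 : lp7 (fun s => chk (ent L3015 s)) 0 = true := by decide +kernel
theorem p3015 : PrL chk L3015 := leafL c3015

theorem c3016 : lp7 (fun s => chk (ent L3016 s)) 0 = true := by decide +kernel
theorem p3016 : PrL chk L3016 := leafL c3016

theorem c3017 : lp7 (fun s => chk (ent L3017 s)) 0 = true := by decide +kernel
theorem p3017 : PrL chk L3017 := leafL c3017

theorem c3018 : lp7 (fun s => chk (ent L3018 s)) 0 = true := by decide +kernel
theorem p3018 : PrL chk L3018 := leafL c3018

theorem c3019 : lp7 (fun s => chk (ent L3019 s)) 0 = true := by decide +kernel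
theorem p3019 : PrL chk L3019 := leafL c3019

theorem c3020 : lp7 (fun s => chk (ent L3020 s)) 0 = true := by decide +kernel
theorem p3020 : PrL chk L3020 := leafL c3020

theorem c3021 : lp7 (fun s => chk (ent L3021 s)) 0 = true := by decide +kernel
theorem p3021 : PrL chk L3021 := leafL c3021

theorem c3022 : lp7 (fun s => chk (ent L3022 s)) 0 = true := by decide +kernel
theorem p3022 : PrL chk L3022 := leafL c3022

theorem c3023 : lp7 (fun s => chk (ent L3023 s)) 0 = true := by decide +kernel
theorem p3023 : PrL chk L3023 := leafL c3023

theorem c3024 : lp7 (fun s => chk (ent L3024 s)) 0 = true := by decide +kernel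
theorem p3024 : PrL chk L3024 := leafL c3024

theorem c3025 : lp7 (fun s => chk (ent L3025 s)) 0 = true := by decide +kernel
theorem p3025 : PrL chk L3025 := leafL c3025

theorem c3026 : lp7 (fun s => chk (ent L3026 s)) 0 = true := by decide +kernel
theorem p3026 : PrL chk L3026 := leafL c3026

theorem c3027 : lp7 (fun s => chk (ent L3027 s)) 0 = true := by decide +kernel
theorem p3027 : PrL chk L3027 := leafL c3027

theorem c3028 : lp7 (fun s => chk (ent L3028 s)) 0 = true := by decide +kernel
theorem p3028 : PrL chk L3028 := leafL c3028

theorem c3029 : lp7 (fun s => chk (ent L3029 s)) 0 = true := by decide +kernel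
theorem p3029 : PrL chk L3029 := leafL c3029

theorem c3030 : lp7 (fun s => chk (ent L3030 s)) 0 = true := by decide +kernel
theorem p3030 : PrL chk L3030 := leafL c3030

theorem c3031 : lp7 (fun s => chk (ent L3031 s)) 0 = true := by decide +kernel
theorem p3031 : PrL chk L3031 := leafL c3031

theorem c3032 : lp7 (fun s => chk (ent L3032 s)) 0 = true := by decide +kernel
theorem p3032 : PrL chk L3032 := leafL c3032

theorem c3033 : lp7 (fun s => chk (ent L3033 s)) 0 = true := by decide +kernel
theorem p3033 : PrL chk L3033 := leafL c3033

theorem c3034 : lp7 (fun s => chk (ent L3034 s)) 0 = true := by decide +kernel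
theorem p3034 : PrL chk L3034 := leafL c3034

theorem c3035 : lp7 (fun s => chk (ent L3035 s)) 0 = true := by decide +kernel
theorem p3035 : PrL chk L3035 := leafL c3035

theorem c3036 : lp7 (fun s => chk (ent L3036 s)) 0 = true := by decide +kernel
theorem p3036 : PrL chk L3036 := leafL c3036

theorem c3037 : lp7 (fun s => chk (ent L3037 s)) 0 = true := by decide +kernel
theorem p3037 : PrL chk L3037 := leafL c3037

theorem c3038 : lp7 (fun s => chk (ent L3038 s)) 0 = true := by decide +kernel
theorem p3038 : PrL chk L3038 := leafL c3038

theorem c3039 : lp7 (fun s => chk (ent L3039 s)) 0 = true := by decide +kernel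
theorem p3039 : PrL chk L3039 := leafL c3039

theorem c3040 : lp7 (fun s => chk (ent L3040 s)) 0 = true := by decide +kernel
theorem p3040 : PrL chk L3040 := leafL c3040

theorem c3041 : lp7 (fun s => chk (ent L3041 s)) 0 = true := by decide +kernel
theorem p3041 : PrL chk L3041 := leafL c3041

theorem c3042 : lp7 (fun s => chk (ent L3042 s)) 0 = true := by decide +kernel
theorem p3042 : PrL chk L3042 := leafL c3042

theorem c3043 : lp7 (fun s => chk (ent L3043 s)) 0 = true := by decide +kernel
theorem p3043 : PrL chk L3043 := leafL c3043

theorem c3044 : lp7 (fun s => chk (ent L3044 s)) 0 = true := by decide +kernel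
theorem p3044 : PrL chk L3044 := leafL c3044

theorem c3045 : lp7 (fun s => chk (ent L3045 s)) 0 = true := by decide +kernel
theorem p3045 : PrL chk L3045 := leafL c3045

theorem c3046 : lp7 (fun s => chk (ent L3046 s)) 0 = true := by decide +kernel
theorem p3046 : PrL chk L3046 := leafL c3046

theorem c3047 : lp7 (fun s => chk (ent L3047 s)) 0 = true := by decide +kernel
theorem p3047 : PrL chk L3047 := leafL c3047

theorem c3048 : lp7 (fun s => chk (ent L3048 s)) 0 = true := by decide +kernel
theorem p3048 : PrL chk L3048 := leafL c3048

theorem c3049 : lp7 (fun s => chk (ent L3049 s)) 0 = true := by decide +kernel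
theorem p3049 : PrL chk L3049 := leafL c3049

theorem c3050 : lp7 (fun s => chk (ent L3050 s)) 0 = true := by decide +kernel
theorem p3050 : PrL chk L3050 := leafL c3050

theorem c3051 : lp7 (fun s => chk (ent L3051 s)) 0 = true := by decide +kernel
theorem p3051 : PrL chk L3051 := leafL c3051

theorem c3052 : lp7 (fun s => chk (ent L3052 s)) 0 = true := by decide +kernel
theorem p3052 : PrL chk L3052 := leafL c3052

theorem c3053 : lp7 (fun s => chk (ent L3053 s)) 0 = true := by decide +kernel
theorem p3053 : PrL chk L3053 := leafL c3053

theorem c3054 : lp7 (fun s => chk (ent L3054 s)) 0 = true := by decide +kernel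
theorem p3054 : PrL chk L3054 := leafL c3054

theorem c3055 : lp7 (fun s => chk (ent L3055 s)) 0 = true := by decide +kernel
theorem p3055 : PrL chk L3055 := leafL c3055

theorem c3056 : lp7 (fun s => chk (ent L3056 s)) 0 = true := by decide +kernel
theorem p3056 : PrL chk L3056 := leafL c3056

theorem c3057 : lp7 (fun s => chk (ent L3057 s)) 0 = true := by decide +kernel
theorem p3057 : PrL chk L3057 := leafL c3057

theorem c3058 : lp7 (fun s => chk (ent L3058 s)) 0 = true := by decide +kernel
theorem p3058 : PrL chk L3058 := leafL c3058

theorem c3059 : lp7 (fun s => chk (ent L3059 s)) 0 = true := by decide +kernel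
theorem p3059 : PrL chk L3059 := leafL c3059

theorem c3060 : lp7 (fun s => chk (ent L3060 s)) 0 = true := by decide +kernel
theorem p3060 : PrL chk L3060 := leafL c3060

theorem c3061 : lp7 (fun s => chk (ent L3061 s)) 0 = true := by decide +kernel
theorem p3061 : PrL chk L3061 := leafL c3061

theorem c3062 : lp7 (fun s => chk (ent L3062 s)) 0 = true := by decide +kernel
theorem p3062 : PrL chk L3062 := leafL c3062

theorem c3063 : lp7 (fun s => chk (ent L3063 s)) 0 = true := by decide +kernel
theorem p3063 : PrL chk L3063 := leafL c3063

theorem c3064 : lp7 (fun s => chk (ent L3064 s)) 0 = true := by decide +kernel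
theorem p3064 : PrL chk L3064 := leafL c3064

theorem c3065 : lp7 (fun s => chk (ent L3065 s)) 0 = true := by decide +kernel
theorem p3065 : PrL chk L3065 := leafL c3065

theorem c3066 : lp7 (fun s => chk (ent L3066 s)) 0 = true := by decide +kernel
theorem p3066 : PrL chk L3066 := leafL c3066

theorem c3067 : lp7 (fun s => chk (ent L3067 s)) 0 = true := by decide +kernel
theorem p3067 : PrL chk L3067 := leafL c3067

theorem c3068 : lp7 (fun s => chk (ent L3068 s)) 0 = true := by decide +kernel
theorem p3068 : PrL chk L3068 := leafL c3068

theorem c3069 : lp7 (fun s => chk (ent L3069 s)) 0 = true := by decide +kernel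
theorem p3069 : PrL chk L3069 := leafL c3069

theorem c3070 : lp7 (fun s => chk (ent L3070 s)) 0 = true := by decide +kernel
theorem p3070 : PrL chk L3070 := leafL c3070

theorem c3071 : lp7 (fun s => chk (ent L3071 s)) 0 = true := by decide +kernel
theorem p3071 : PrL chk L3071 := leafL c3071

end Pool.Agent.ad013a.LA
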