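import Pool.Agent.H.MP_ad013a_pr.h63l.A.T
import Pool.Agent.H.MP_ad013a_pr.h63w.VLoop

namespace Pool.Agent.ad013a.LA

theorem c3072 : lp7 (fun s => chk (ent L3072 s)) 0 = true := by decide +kernel
theorem p3072 : PrL chk L3072 := leafL c3072

theorem c3073 : lp7 (fun s => chk (ent L3073 s)) 0 = true := by decide +kernel
theorem p3073 : PrL chk L3073 := leafL c3073

theorem c3074 : lp7 (fun s => chk (ent L3074 s)) 0 = true := by decide +kernel
theorem p3074 : PrL chk L3074 := leafL c3074

theorem c3075 : lp7 (fun s => chk (ent L3075 s)) 0 = true := by decide +kernel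
theorem p3075 : PrL chk L3075 := leafL c3075

theorem c3076 : lp7 (fun s => chk (ent L3076 s)) 0 = true := by decide +kernel
theorem p3076 : PrL chk L3076 := leafL c3076

theorem c3077 : lp7 (fun s => chk (ent L3077 s)) 0 = true := by decide +kernel
theorem p3077 : PrL chk L3077 := leafL c3077

theorem c3078 : lp7 (fun s => chk (ent L3078 s)) 0 = true := by decide +kernel
theorem p3078 : PrL chk L3078 := leafL c3078

theorem c3079 : lp7 (fun s => chk (ent L3079 s)) 0 = true := by decide +kernel
theorem p3079 : PrL chk L3079 := leafL c3079

theorem c3080 : lp7 (fun s => chk (ent L3080 s)) 0 = true := by decide +kernel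
theorem p3080 : PrL chk L3080 := leafL c3080

theorem c3081 : lp7 (fun s => chk (ent L3081 s)) 0 = true := by decide +kernel
theorem p3081 : PrL chk L3081 := leafL c3081

theorem c3082 : lp7 (fun s => chk (ent L3082 s)) 0 = true := by decide +kernel
theorem p3082 : PrL chk L3082 := leafL c3082

theorem c3083 : lp7 (fun s => chk (ent L3083 s)) 0 = true := by decide +kernel
theorem p3083 : PrL chk L3083 := leafL c3083

theorem c3084 : lp7 (fun s => chk (ent L3084 s)) 0 = true := by decide +kernel
theorem p3084 : PrL chk L3084 := leafL c3084

theorem c3085 : lp7 (fun s => chk (ent L3085 s)) 0 = true := by decide +kernel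
theorem p3085 : PrL chk L3085 := leafL c3085

theorem c3086 : lp7 (fun s => chk (ent L3086 s)) 0 = true := by decide +kernel
theorem p3086 : PrL chk L3086 := leafL c3086

theorem c3087 : lp7 (fun s => chk (ent L3087 s)) 0 = true := by decide +kernel
theorem p3087 : PrL chk L3087 := leafL c3087

theorem c3088 : lp7 (fun s => chk (ent L3088 s)) 0 = true := by decide +kernel
theorem p3088 : PrL chk L3088 := leafL c3088

theorem c3089 : lp7 (fun s => chk (ent L3089 s)) 0 = true := by decide +kernel
theorem p3089 : PrL chk L3089 := leafL c3089

theorem c3090 : lp7 (fun s => chk (ent L3090 s)) 0 = true := by decide +kernel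
theorem p3090 : PrL chk L3090 := leafL c3090

theorem c3091 : lp7 (fun s => chk (ent L3091 s)) 0 = true := by decide +kernel
theorem p3091 : PrL chk L3091 := leafL c3091

theorem c3092 : lp7 (fun s => chk (ent L3092 s)) 0 = true := by decide +kernel
theorem p3092 : PrL chk L3092 := leafL c3092

theorem c3093 : lp7 (fun s => chk (ent L3093 s)) 0 = true := by decide +kernel
theorem p3093 : PrL chk L3093 := leafL c3093

theorem c3094 : lp7 (fun s => chk (ent L3094 s)) 0 = true := by decide +kernel
theorem p3094 : PrL chk L3094 := leafL c3094

theorem c3095 : lp7 (fun s => chk (ent L3095 s)) 0 = true := by decide +kernel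
theorem p3095 : PrL chk L3095 := leafL c3095

theorem c3096 : lp7 (fun s => chk (ent L3096 s)) 0 = true := by decide +kernel
theorem p3096 : PrL chk L3096 := leafL c3096

theorem c3097 : lp7 (fun s => chk (ent L3097 s)) 0 = true := by decide +kernel
theorem p3097 : PrL chk L3097 := leafL c3097

theorem c3098 : lp7 (fun s => chk (ent L3098 s)) 0 = true := by decide +kernel
theorem p3098 : PrL chk L3098 := leafL c3098

theorem c3099 : lp7 (fun s => chk (ent L3099 s)) 0 = true := by decide +kernel
theorem p3099 : PrL chk L3099 := leafL c3099

theorem c3100 : lp7 (fun s => chk (ent L3100 s)) 0 = true := by decide +kernel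
theorem p3100 : PrL chk L3100 := leafL c3100

theorem c3101 : lp7 (fun s => chk (ent L3101 s)) 0 = true := by decide +kernel
theorem p3101 : PrL chk L3101 := leafL c3101

theorem c3102 : lp7 (fun s => chk (ent L3102 s)) 0 = true := by decide +kernel
theorem p3102 : PrL chk L3102 := leafL c3102

theorem c3103 : lp7 (fun s => chk (ent L3103 s)) 0 = true := by decide +kernel
theorem p3103 : PrL chk L3103 := leafL c3103

theorem c3104 : lp7 (fun s => chk (ent L3104 s)) 0 = true := by decide +kernel
theorem p3104 : PrL chk L3104 := leafL c3104

theorem c3105 : lp7 (fun s => chk (ent L3105 s)) 0 = true := by decide +kernel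
theorem p3105 : PrL chk L3105 := leafL c3105

theorem c3106 : lp7 (fun s => chk (ent L3106 s)) 0 = true := by decide +kernel
theorem p3106 : PrL chk L3106 := leafL c3106

theorem c3107 : lp7 (fun s => chk (ent L3107 s)) 0 = true := by decide +kernel
theorem p3107 : PrL chk L3107 := leafL c3107

theorem c3108 : lp7 (fun s => chk (ent L3108 s)) 0 = true := by decide +kernel
theorem p3108 : PrL chk L3108 := leafL c3108

theorem c3109 : lp7 (fun s => chk (ent L3109 s)) 0 = true := by decide +kernel
theorem p3109 : PrL chk L3109 := leafL c3109

theorem c3110 : lp7 (fun s => chk (ent L3110 s)) 0 = true := by decide +kernel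
theorem p3110 : PrL chk L3110 := leafL c3110

theorem c3111 : lp7 (fun s => chk (ent L3111 s)) 0 = true := by decide +kernel
theorem p3111 : PrL chk L3111 := leafL c3111

theorem c3112 : lp7 (fun s => chk (ent L3112 s)) 0 = true := by decide +kernel
theorem p3112 : PrL chk L3112 := leafL c3112

theorem c3113 : lp7 (fun s => chk (ent L3113 s)) 0 = true := by decide +kernel
theorem p3113 : PrL chk L3113 := leafL c3113

theorem c3114 : lp7 (fun s => chk (ent L3114 s)) 0 = true := by decide +kernel
theorem p3114 : PrL chk L3114 := leafL c3114

theorem c3115 : lp7 (fun s => chk (ent L3115 s)) 0 = true := by decide +kernel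
theorem p3115 : PrL chk L3115 := leafL c3115

theorem c3116 : lp7 (fun s => chk (ent L3116 s)) 0 = true := by decide +kernel
theorem p3116 : PrL chk L3116 := leafL c3116

theorem c3117 : lp7 (fun s => chk (ent L3117 s)) 0 = true := by decide +kernel
theorem p3117 : PrL chk L3117 := leafL c3117

theorem c3118 : lp7 (fun s => chk (ent L3118 s)) 0 = true := by decide +kernel
theorem p3118 : PrL chk L3118 := leafL c3118

theorem c3119 : lp7 (fun s => chk (ent L3119 s)) 0 = true := by decide +kernel
theorem p3119 : PrL chk L3119 := leafL c3119

theorem c3120 : lp7 (fun s => chk (ent L3120 s)) 0 = true := by decide +kernel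
theorem p3120 : PrL chk L3120 := leafL c3120

theorem c3121 : lp7 (fun s => chk (ent L3121 s)) 0 = true := by decide +kernel
theorem p3121 : PrL chk L3121 := leafL c3121

theorem c3122 : lp7 (fun s => chk (ent L3122 s)) 0 = true := by decide +kernel
theorem p3122 : PrL chk L3122 := leafL c3122

theorem c3123 : lp7 (fun s => chk (ent L3123 s)) 0 = true := by decide +kernel
theorem p3123 : PrL chk L3123 := leafL c3123

theorem c3124 : lp7 (fun s => chk (ent L3124 s)) 0 = true := by decide +kernel
theorem p3124 : PrL chk L3124 := leafL c3124

theorem c3125 : lp7 (fun s => chk (ent L3125 s)) 0 = true := by decide +kernel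
theorem p3125 : PrL chk L3125 := leafL c3125

theorem c3126 : lp7 (fun s => chk (ent L3126 s)) 0 = true := by decide +kernel
theorem p3126 : PrL chk L3126 := leafL c3126

theorem c3127 : lp7 (fun s => chk (ent L3127 s)) 0 = true := by decide +kernel
theorem p3127 : PrL chk L3127 := leafL c3127

theorem c3128 : lp7 (fun s => chk (ent L3128 s)) 0 = true := by decide +kernel
theorem p3128 : PrL chk L3128 := leafL c3128

theorem c3129 : lp7 (fun s => chk (ent L3129 s)) 0 = true := by decide +kernel
theorem p3129 : PrL chk L3129 := leafL c3129

theorem c3130 : lp7 (fun s => chk (ent L3130 s)) 0 = true := by decide +kernel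
theorem p3130 : PrL chk L3130 := leafL c3130

theorem c3131 : lp7 (fun s => chk (ent L3131 s)) 0 = true := by decide +kernel
theorem p3131 : PrL chk L3131 := leafL c3131

theorem c3132 : lp7 (fun s => chk (ent L3132 s)) 0 = true := by decide +kernel
theorem p3132 : PrL chk L3132 := leafL c3132

theorem c3133 : lp7 (fun s => chk (ent L3133 s)) 0 = true := by decide +kernel
theorem p3133 : PrL chk L3133 := leafL c3133

theorem c3134 : lp7 (fun s => chk (ent L3134 s)) 0 = true := by decide +kernel
theorem p3134 : PrL chk L3134 := leafL c3134

theorem c3135 : lp7 (fun s => chk (ent L3135 s)) 0 = true := by decide +kernel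
theorem p3135 : PrL chk L3135 := leafL c3135

theorem c3136 : lp7 (fun s => chk (ent L3136 s)) 0 = true := by decide +kernel
theorem p3136 : PrL chk L3136 := leafL c3136

theorem c3137 : lp7 (fun s => chk (ent L3137 s)) 0 = true := by decide +kernel
theorem p3137 : PrL chk L3137 := leafL c3137

theorem c3138 : lp7 (fun s => chk (ent L3138 s)) 0 = true := by decide +kernel
theorem p3138 : PrL chk L3138 := leafL c3138

theorem c3139 : lp7 (fun s => chk (ent L3139 s)) 0 = true := by decide +kernel
theorem p3139 : PrL chk L3139 := leafL c3139

theorem c3140 : lp7 (fun s => chk (ent L3140 s)) 0 = true := by decide +kernel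
theorem p3140 : PrL chk L3140 := leafL c3140

theorem c3141 : lp7 (fun s => chk (ent L3141 s)) 0 = true := by decide +kernel
theorem p3141 : PrL chk L3141 := leafL c3141

theorem c3142 : lp7 (fun s => chk (ent L3142 s)) 0 = true := by decide +kernel
theorem p3142 : PrL chk L3142 := leafL c3142

theorem c3143 : lp7 (fun s => chk (ent L3143 s)) 0 = true := by decide +kernel
theorem p3143 : PrL chk L3143 := leafL c3143

theorem c3144 : lp7 (fun s => chk (ent L3144 s)) 0 = true := by decide +kernel
theorem p3144 : PrL chk L3144 := leafL c3144

theorem c3145 : lp7 (fun s => chk (ent L3145 s)) 0 = true := by decide +kernel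
theorem p3145 : PrL chk L3145 := leafL c3145

theorem c3146 : lp7 (fun s => chk (ent L3146 s)) 0 = true := by decide +kernel
theorem p3146 : PrL chk L3146 := leafL c3146

theorem c3147 : lp7 (fun s => chk (ent L3147 s)) 0 = true := by decide +kernel
theorem p3147 : PrL chk L3147 := leafL c3147

theorem c3148 : lp7 (fun s => chk (ent L3148 s)) 0 = true := by decide +kernel
theorem p3148 : PrL chk L3148 := leafL c3148

theorem c3149 : lp7 (fun s => chk (ent L3149 s)) 0 = true := by decide +kernel
theorem p3149 : PrL chk L3149 := leafL c3149

theorem c3150 : lp7 (fun s => chk (ent L3150 s)) 0 = true := by decide +kernel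
theorem p3150 : PrL chk L3150 := leafL c3150

theorem c3151 : lp7 (fun s => chk (ent L3151 s)) 0 = true := by decide +kernel
theorem p3151 : PrL chk L3151 := leafL c3151

theorem c3152 : lp7 (fun s => chk (ent L3152 s)) 0 = true := by decide +kernel
theorem p3152 : PrL chk L3152 := leafL c3152

theorem c3153 : lp7 (fun s => chk (ent L3153 s)) 0 = true := by decide +kernel
theorem p3153 : PrL chk L3153 := leafL c3153

theorem c3154 : lp7 (fun s => chk (ent L3154 s)) 0 = true := by decide +kernel
theorem p3154 : PrL chk L3154 := leafL c3154

theorem c3155 : lp7 (fun s => chk (ent L3155 s)) 0 = true := by decide +kernel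
theorem p3155 : PrL chk L3155 := leafL c3155

theorem c3156 : lp7 (fun s => chk (ent L3156 s)) 0 = true := by decide +kernel
theorem p3156 : PrL chk L3156 := leafL c3156

theorem c3157 : lp7 (fun s => chk (ent L3157 s)) 0 = true := by decide +kernel
theorem p3157 : PrL chk L3157 := leafL c3157

theorem c3158 : lp7 (fun s => chk (ent L3158 s)) 0 = true := by decide +kernel
theorem p3158 : PrL chk L3158 := leafL c3158

theorem c3159 : lp7 (fun s => chk (ent L3159 s)) 0 = true := by decide +kernel
theorem p3159 : PrL chk L3159 := leafL c3159

theorem c3160 : lp7 (fun s => chk (ent L3160 s)) 0 = true := by decide +kernel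
theorem p3160 : PrL chk L3160 := leafL c3160

theorem c3161 : lp7 (fun s => chk (ent L3161 s)) 0 = true := by decide +kernel
theorem p3161 : PrL chk L3161 := leafL c3161

theorem c3162 : lp7 (fun s => chk (ent L3162 s)) 0 = true := by decide +kernel
theorem p3162 : PrL chk L3162 := leafL c3162

theorem c3163 : lp7 (fun s => chk (ent L3163 s)) 0 = true := by decide +kernel
theorem p3163 : PrL chk L3163 := leafL c3163

theorem c3164 : lp7 (fun s => chk (ent L3164 s)) 0 = true := by decide +kernel
theorem p3164 : PrL chk L3164 := leafL c3164

theorem c3165 : lp7 (fun s => chk (ent L3165 s)) 0 = true := by decide +kernel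
theorem p3165 : PrL chk L3165 := leafL c3165

theorem c3166 : lp7 (fun s => chk (ent L3166 s)) 0 = true := by decide +kernel
theorem p3166 : PrL chk L3166 := leafL c3166

theorem c3167 : lp7 (fun s => chk (ent L3167 s)) 0 = true := by decide +kernel
theorem p3167 : PrL chk L3167 := leafL c3167

theorem c3168 : lp7 (fun s => chk (ent L3168 s)) 0 = true := by decide +kernel
theorem p3168 : PrL chk L3168 := leafL c3168

theorem c3169 : lp7 (fun s => chk (ent L3169 s)) 0 = true := by decide +kernel
theorem p3169 : PrL chk L3169 := leafL c3169

theorem c3170 : lp7 (fun s => chk (ent L3170 s)) 0 = true := by decide +kernel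
theorem p3170 : PrL chk L3170 := leafL c3170

theorem c3171 : lp7 (fun s => chk (ent L3171 s)) 0 = true := by decide +kernel
theorem p3171 : PrL chk L3171 := leafL c3171

theorem c3172 : lp7 (fun s => chk (ent L3172 s)) 0 = true := by decide +kernel
theorem p3172 : PrL chk L3172 := leafL c3172

theorem c3173 : lp7 (fun s => chk (ent L3173 s)) 0 = true := by decide +kernel
theorem p3173 : PrL chk L3173 := leafL c3173

theorem c3174 : lp7 (fun s => chk (ent L3174 s)) 0 = true := by decide +kernel
theorem p3174 : PrL chk L3174 := leafL c3174

theorem c3175 : lp7 (fun s => chk (ent L3175 s)) 0 = true := by decide +kernel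
theorem p3175 : PrL chk L3175 := leafL c3175

theorem c3176 : lp7 (fun s => chk (ent L3176 s)) 0 = true := by decide +kernel
theorem p3176 : PrL chk L3176 := leafL c3176

theorem c3177 : lp7 (fun s => chk (ent L3177 s)) 0 = true := by decide +kernel
theorem p3177 : PrL chk L3177 := leafL c3177

theorem c3178 : lp7 (fun s => chk (ent L3178 s)) 0 = true := by decide +kernel
theorem p3178 : PrL chk L3178 := leafL c3178

theorem c3179 : lp7 (fun s => chk (ent L3179 s)) 0 = true := by decide +kernel
theorem p3179 : PrL chk L3179 := leafL c3179

theorem c3180 : lp7 (fun s => chk (ent L3180 s)) 0 = true := by decide +kernel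
theorem p3180 : PrL chk L3180 := leafL c3180

theorem c3181 : lp7 (fun s => chk (ent L3181 s)) 0 = true := by decide +kernel
theorem p3181 : PrL chk L3181 := leafL c3181

theorem c3182 : lp7 (fun s => chk (ent L3182 s)) 0 = true := by decide +kernel
theorem p3182 : PrL chk L3182 := leafL c3182

theorem c3183 : lp7 (fun s => chk (ent L3183 s)) 0 = true := by decide +kernel
theorem p3183 : PrL chk L3183 := leafL c3183

theorem c3184 : lp7 (fun s => chk (ent L3184 s)) 0 = true := by decide +kernel
theorem p3184 : PrL chk L3184 := leafL c3184

theorem c3185 : lp7 (fun s => chk (ent L3185 s)) 0 = true := by decide +kernel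
theorem p3185 : PrL chk L3185 := leafL c3185

theorem c3186 : lp7 (fun s => chk (ent L3186 s)) 0 = true := by decide +kernel
theorem p3186 : PrL chk L3186 := leafL c3186

theorem c3187 : lp7 (fun s => chk (ent L3187 s)) 0 = true := by decide +kernel
theorem p3187 : PrL chk L3187 := leafL c3187

theorem c3188 : lp7 (fun s => chk (ent L3188 s)) 0 = true := by decide +kernel
theorem p3188 : PrL chk L3188 := leafL c3188

theorem c3189 : lp7 (fun s => chk (ent L3189 s)) 0 = true := by decide +kernel
theorem p3189 : PrL chk L3189 := leafL c3189

theorem c3190 : lp7 (fun s => chk (ent L3190 s)) 0 = true := by decide +kernel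
theorem p3190 : PrL chk L3190 := leafL c3190

theorem c3191 : lp7 (fun s => chk (ent L3191 s)) 0 = true := by decide +kernel
theorem p3191 : PrL chk L3191 := leafL c3191

theorem c3192 : lp7 (fun s => chk (ent L3192 s)) 0 = true := by decide +kernel
theorem p3192 : PrL chk L3192 := leafL c3192

theorem c3193 : lp7 (fun s => chk (ent L3193 s)) 0 = true := by decide +kernel
theorem p3193 : PrL chk L3193 := leafL c3193

theorem c3194 : lp7 (fun s => chk (ent L3194 s)) 0 = true := by decide +kernel
theorem p3194 : PrL chk L3194 := leafL c3194

theorem c3195 : lp7 (fun s => chk (ent L3195 s)) 0 = true := by decide +kernel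
theorem p3195 : PrL chk L3195 := leafL c3195

theorem c3196 : lp7 (fun s => chk (ent L3196 s)) 0 = true := by decide +kernel
theorem p3196 : PrL chk L3196 := leafL c3196

theorem c3197 : lp7 (fun s => chk (ent L3197 s)) 0 = true := by decide +kernel
theorem p3197 : PrL chk L3197 := leafL c3197

theorem c3198 : lp7 (fun s => chk (ent L3198 s)) 0 = true := by decide +kernel
theorem p3198 : PrL chk L3198 := leafL c3198

theorem c3199 : lp7 (fun s => chk (ent L3199 s)) 0 = true := by decide +kernel
theorem p3199 : PrL chk L3199 := leafL c3199

theorem c3200 : lp7 (fun s => chk (ent L3200 s)) 0 = true := by decide +kernel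
theorem p3200 : PrL chk L3200 := leafL c3200

theorem c3201 : lp7 (fun s => chk (ent L3201 s)) 0 = true := by decide +kernel
theorem p3201 : PrL chk L3201 := leafL c3201

theorem c3202 : lp7 (fun s => chk (ent L3202 s)) 0 = true := by decide +kernel
theorem p3202 : PrL chk L3202 := leafL c3202

theorem c3203 : lp7 (fun s => chk (ent L3203 s)) 0 = true := by decide +kernel
theorem p3203 : PrL chk L3203 := leafL c3203

theorem c3204 : lp7 (fun s => chk (ent L3204 s)) 0 = true := by decide +kernel
theorem p3204 : PrL chk L3204 := leafL c3204

theorem c3205 : lp7 (fun s => chk (ent L3205 s)) 0 = true := by decide +kernel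
theorem p3205 : PrL chk L3205 := leafL c3205

theorem c3206 : lp7 (fun s => chk (ent L3206 s)) 0 = true := by decide +kernel
theorem p3206 : PrL chk L3206 := leafL c3206

theorem c3207 : lp7 (fun s => chk (ent L3207 s)) 0 = true := by decide +kernel
theorem p3207 : PrL chk L3207 := leafL c3207

theorem c3208 : lp7 (fun s => chk (ent L3208 s)) 0 = true := by decide +kernel
theorem p3208 : PrL chk L3208 := leafL c3208

theorem c3209 : lp7 (fun s => chk (ent L3209 s)) 0 = true := by decide +kernel
theorem p3209 : PrL chk L3209 := leafL c3209

theorem c3210 : lp7 (fun s => chk (ent L3210 s)) 0 = true := by decide +kernel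
theorem p3210 : PrL chk L3210 := leafL c3210

theorem c3211 : lp7 (fun s => chk (ent L3211 s)) 0 = true := by decide +kernel
theorem p3211 : PrL chk L3211 := leafL c3211

theorem c3212 : lp7 (fun s => chk (ent L3212 s)) 0 = true := by decide +kernel
theorem p3212 : PrL chk L3212 := leafL c3212

theorem c3213 : lp7 (fun s => chk (ent L3213 s)) 0 = true := by decide +kernel
theorem p3213 : PrL chk L3213 := leafL c3213

theorem c3214 : lp7 (fun s => chk (ent L3214 s)) 0 = true := by decide +kernel
theorem p3214 : PrL chk L3214 := leafL c3214

theorem c3215 : lp7 (fun s => chk (ent L3215 s)) 0 = true := by decide +kernel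
theorem p3215 : PrL chk L3215 := leafL c3215

theorem c3216 : lp7 (fun s => chk (ent L3216 s)) 0 = true := by decide +kernel
theorem p3216 : PrL chk L3216 := leafL c3216

theorem c3217 : lp7 (fun s => chk (ent L3217 s)) 0 = true := by decide +kernel
theorem p3217 : PrL chk L3217 := leafL c3217

theorem c3218 : lp7 (fun s => chk (ent L3218 s)) 0 = true := by decide +kernel
theorem p3218 : PrL chk L3218 := leafL c3218

theorem c3219 : lp7 (fun s => chk (ent L3219 s)) 0 = true := by decide +kernel
theorem p3219 : PrL chk L3219 := leafL c3219

theorem c3220 : lp7 (fun s => chk (ent L3220 s)) 0 = true := by decide +kernel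
theorem p3220 : PrL chk L3220 := leafL c3220

theorem c3221 : lp7 (fun s => chk (ent L3221 s)) 0 = true := by decide +kernel
theorem p3221 : PrL chk L3221 := leafL c3221

theorem c3222 : lp7 (fun s => chk (ent L3222 s)) 0 = true := by decide +kernel
theorem p3222 : PrL chk L3222 := leafL c3222

theorem c3223 : lp7 (fun s => chk (ent L3223 s)) 0 = true := by decide +kernel
theorem p3223 : PrL chk L3223 := leafL c3223

theorem c3224 : lp7 (fun s => chk (ent L3224 s)) 0 = true := by decide +kernel
theorem p3224 : PrL chk L3224 := leafL c3224

theorem c3225 : lp7 (fun s => chk (ent L3225 s)) 0 = true := by decide +kernel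
theorem p3225 : PrL chk L3225 := leafL c3225

theorem c3226 : lp7 (fun s => chk (ent L3226 s)) 0 = true := by decide +kernel
theorem p3226 : PrL chk L3226 := leafL c3226

theorem c3227 : lp7 (fun s => chk (ent L3227 s)) 0 = true := by decide +kernel
theorem p3227 : PrL chk L3227 := leafL c3227

theorem c3228 : lp7 (fun s => chk (ent L3228 s)) 0 = true := by decide +kernel
theorem p3228 : PrL chk L3228 := leafL c3228

theorem c3229 : lp7 (fun s => chk (ent L3229 s)) 0 = true := by decide +kernel
theorem p3229 : PrL chk L3229 := leafL c3229

theorem c3230 : lp7 (fun s => chk (ent L3230 s)) 0 = true := by decide +kernel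
theorem p3230 : PrL chk L3230 := leafL c3230

theorem c3231 : lp7 (fun s => chk (ent L3231 s)) 0 = true := by decide +kernel
theorem p3231 : PrL chk L3231 := leafL c3231

theorem c3232 : lp7 (fun s => chk (ent L3232 s)) 0 = true := by decide +kernel
theorem p3232 : PrL chk L3232 := leafL c3232

theorem c3233 : lp7 (fun s => chk (ent L3233 s)) 0 = true := by decide +kernel
theorem p3233 : PrL chk L3233 := leafL c3233

theorem c3234 : lp7 (fun s => chk (ent L3234 s)) 0 = true := by decide +kernel
theorem p3234 : PrL chk L3234 := leafL c3234

theorem c3235 : lp7 (fun s => chk (ent L3235 s)) 0 = true := by decide +kernel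
theorem p3235 : PrL chk L3235 := leafL c3235

theorem c3236 : lp7 (fun s => chk (ent L3236 s)) 0 = true := by decide +kernel
theorem p3236 : PrL chk L3236 := leafL c3236

theorem c3237 : lp7 (fun s => chk (ent L3237 s)) 0 = true := by decide +kernel
theorem p3237 : PrL chk L3237 := leafL c3237

theorem c3238 : lp7 (fun s => chk (ent L3238 s)) 0 = true := by decide +kernel
theorem p3238 : PrL chk L3238 := leafL c3238

theorem c3239 : lp7 (fun s => chk (ent L3239 s)) 0 = true := by decide +kernel
theorem p3239 : PrL chk L3239 := leafL c3239

theorem c3240 : lp7 (fun s => chk (ent L3240 s)) 0 = true := by decide +kernel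
theorem p3240 : PrL chk L3240 := leafL c3240

theorem c3241 : lp7 (fun s => chk (ent L3241 s)) 0 = true := by decide +kernel
theorem p3241 : PrL chk L3241 := leafL c3241

theorem c3242 : lp7 (fun s => chk (ent L3242 s)) 0 = true := by decide +kernel
theorem p3242 : PrL chk L3242 := leafL c3242

theorem c3243 : lp7 (fun s => chk (ent L3243 s)) 0 = true := by decide +kernel
theorem p3243 : PrL chk L3243 := leafL c3243

theorem c3244 : lp7 (fun s => chk (ent L3244 s)) 0 = true := by decide +kernel
theorem p3244 : PrL chk L3244 := leafL c3244

theorem c3245 : lp7 (fun s => chk (ent L3245 s)) 0 = true := by decide +kernel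
theorem p3245 : PrL chk L3245 := leafL c3245

theorem c3246 : lp7 (fun s => chk (ent L3246 s)) 0 = true := by decide +kernel
theorem p3246 : PrL chk L3246 := leafL c3246

theorem c3247 : lp7 (fun s => chk (ent L3247 s)) 0 = true := by decide +kernel
theorem p3247 : PrL chk L3247 := leafL c3247

theorem c3248 : lp7 (fun s => chk (ent L3248 s)) 0 = true := by decide +kernel
theorem p3248 : PrL chk L3248 := leafL c3248

theorem c3249 : lp7 (fun s => chk (ent L3249 s)) 0 = true := by decide +kernel
theorem p3249 : PrL chk L3249 := leafL c3249

theorem c3250 : lp7 (fun s => chk (ent L3250 s)) 0 = true := by decide +kernel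
theorem p3250 : PrL chk L3250 := leafL c3250

theorem c3251 : lp7 (fun s => chk (ent L3251 s)) 0 = true := by decide +kernel
theorem p3251 : PrL chk L3251 := leafL c3251

theorem c3252 : lp7 (fun s => chk (ent L3252 s)) 0 = true := by decide +kernel
theorem p3252 : PrL chk L3252 := leafL c3252

theorem c3253 : lp7 (fun s => chk (ent L3253 s)) 0 = true := by decide +kernel
theorem p3253 : PrL chk L3253 := leafL c3253

theorem c3254 : lp7 (fun s => chk (ent L3254 s)) 0 = true := by decide +kernel
theorem p3254 : PrL chk L3254 := leafL c3254

theorem c3255 : lp7 (fun s => chk (ent L3255 s)) 0 = true := by decide +kernel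
theorem p3255 : PrL chk L3255 := leafL c3255

theorem c3256 : lp7 (fun s => chk (ent L3256 s)) 0 = true := by decide +kernel
theorem p3256 : PrL chk L3256 := leafL c3256

theorem c3257 : lp7 (fun s => chk (ent L3257 s)) 0 = true := by decide +kernel
theorem p3257 : PrL chk L3257 := leafL c3257

theorem c3258 : lp7 (fun s => chk (ent L3258 s)) 0 = true := by decide +kernel
theorem p3258 : PrL chk L3258 := leafL c3258

theorem c3259 : lp7 (fun s => chk (ent L3259 s)) 0 = true := by decide +kernel
theorem p3259 : PrL chk L3259 := leafL c3259

theorem c3260 : lp7 (fun s => chk (ent L3260 s)) 0 = true := by decide +kernel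
theorem p3260 : PrL chk L3260 := leafL c3260

theorem c3261 : lp7 (fun s => chk (ent L3261 s)) 0 = true := by decide +kernel
theorem p3261 : PrL chk L3261 := leafL c3261

theorem c3262 : lp7 (fun s => chk (ent L3262 s)) 0 = true := by decide +kernel
theorem p3262 : PrL chk L3262 := leafL c3262

theorem c3263 : lp7 (fun s => chk (ent L3263 s)) 0 = true := by decide +kernel
theorem p3263 : PrL chk L3263 := leafL c3263

theorem c3264 : lp7 (fun s => chk (ent L3264 s)) 0 = true := by decide +kernel
theorem p3264 : PrL chk L3264 := leafL c3264

theorem c3265 : lp7 (fun s => chk (ent L3265 s)) 0 = true := by decide +kernel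
theorem p3265 : PrL chk L3265 := leafL c3265

theorem c3266 : lp7 (fun s => chk (ent L3266 s)) 0 = true := by decide +kernel
theorem p3266 : PrL chk L3266 := leafL c3266

theorem c3267 : lp7 (fun s => chk (ent L3267 s)) 0 = true := by decide +kernel
theorem p3267 : PrL chk L3267 := leafL c3267

theorem c3268 : lp7 (fun s => chk (ent L3268 s)) 0 = true := by decide +kernel
theorem p3268 : PrL chk L3268 := leafL c3268

theorem c3269 : lp7 (fun s => chk (ent L3269 s)) 0 = true := by decide +kernel
theorem p3269 : PrL chk L3269 := leafL c3269

theorem c3270 : lp7 (fun s => chk (ent L3270 s)) 0 = true := by decide +kernel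
theorem p3270 : PrL chk L3270 := leafL c3270

theorem c3271 : lp7 (fun s => chk (ent L3271 s)) 0 = true := by decide +kernel
theorem p3271 : PrL chk L3271 := leafL c3271

theorem c3272 : lp7 (fun s => chk (ent L3272 s)) 0 = true := by decide +kernel
theorem p3272 : PrL chk L3272 := leafL c3272

theorem c3273 : lp7 (fun s => chk (ent L3273 s)) 0 = true := by decide +kernel
theorem p3273 : PrL chk L3273 := leafL c3273

theorem c3274 : lp7 (fun s => chk (ent L3274 s)) 0 = true := by decide +kernel
theorem p3274 : PrL chk L3274 := leafL c3274

theorem c3275 : lp7 (fun s => chk (ent L3275 s)) 0 = true := by decide +kernel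
theorem p3275 : PrL chk L3275 := leafL c3275

theorem c3276 : lp7 (fun s => chk (ent L3276 s)) 0 = true := by decide +kernel
theorem p3276 : PrL chk L3276 := leafL c3276

theorem c3277 : lp7 (fun s => chk (ent L3277 s)) 0 = true := by decide +kernel
theorem p3277 : PrL chk L3277 := leafL c3277

theorem c3278 : lp7 (fun s => chk (ent L3278 s)) 0 = true := by decide +kernel
theorem p3278 : PrL chk L3278 := leafL c3278

theorem c3279 : lp7 (fun s => chk (ent L3279 s)) 0 = true := by decide +kernel
theorem p3279 : PrL chk L3279 := leafL c3279

theorem c3280 : lp7 (fun s => chk (ent L3280 s)) 0 = true := by decide +kernel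
theorem p3280 : PrL chk L3280 := leafL c3280

theorem c3281 : lp7 (fun s => chk (ent L3281 s)) 0 = true := by decide +kernel
theorem p3281 : PrL chk L3281 := leafL c3281

theorem c3282 : lp7 (fun s => chk (ent L3282 s)) 0 = true := by decide +kernel
theorem p3282 : PrL chk L3282 := leafL c3282

theorem c3283 : lp7 (fun s => chk (ent L3283 s)) 0 = true := by decide +kernel
theorem p3283 : PrL chk L3283 := leafL c3283

theorem c3284 : lp7 (fun s => chk (ent L3284 s)) 0 = true := by decide +kernel
theorem p3284 : PrL chk L3284 := leafL c3284

theorem c3285 : lp7 (fun s => chk (ent L3285 s)) 0 = true := by decide +kernel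
theorem p3285 : PrL chk L3285 := leafL c3285

theorem c3286 : lp7 (fun s => chk (ent L3286 s)) 0 = true := by decide +kernel
theorem p3286 : PrL chk L3286 := leafL c3286

theorem c3287 : lp7 (fun s => chk (ent L3287 s)) 0 = true := by decide +kernel
theorem p3287 : PrL chk L3287 := leafL c3287

theorem c3288 : lp7 (fun s => chk (ent L3288 s)) 0 = true := by decide +kernel
theorem p3288 : PrL chk L3288 := leafL c3288

theorem c3289 : lp7 (fun s => chk (ent L3289 s)) 0 = true := by decide +kernel
theorem p3289 : PrL chk L3289 := leafL c3289

theorem c3290 : lp7 (fun s => chk (ent L3290 s)) 0 = true := by decide +kernel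
theorem p3290 : PrL chk L3290 := leafL c3290

theorem c3291 : lp7 (fun s => chk (ent L3291 s)) 0 = true := by decide +kernel
theorem p3291 : PrL chk L3291 := leafL c3291

theorem c3292 : lp7 (fun s => chk (ent L3292 s)) 0 = true := by decide +kernel
theorem p3292 : PrL chk L3292 := leafL c3292

theorem c3293 : lp7 (fun s => chk (ent L3293 s)) 0 = true := by decide +kernel
theorem p3293 : PrL chk L3293 := leafL c3293

theorem c3294 : lp7 (fun s => chk (ent L3294 s)) 0 = true := by decide +kernel
theorem p3294 : PrL chk L3294 := leafL c3294

theorem c3295 : lp7 (fun s => chk (ent L3295 s)) 0 = true := by decide +kernel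
theorem p3295 : PrL chk L3295 := leafL c3295

theorem c3296 : lp7 (fun s => chk (ent L3296 s)) 0 = true := by decide +kernel
theorem p3296 : PrL chk L3296 := leafL c3296

theorem c3297 : lp7 (fun s => chk (ent L3297 s)) 0 = true := by decide +kernel
theorem p3297 : PrL chk L3297 := leafL c3297

theorem c3298 : lp7 (fun s => chk (ent L3298 s)) 0 = true := by decide +kernel
theorem p3298 : PrL chk L3298 := leafL c3298

theorem c3299 : lp7 (fun s => chk (ent L3299 s)) 0 = true := by decide +kernel
theorem p3299 : PrL chk L3299 := leafL c3299

theorem c3300 : lp7 (fun s => chk (ent L3300 s)) 0 = true := by decide +kernel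
theorem p3300 : PrL chk L3300 := leafL c3300

theorem c3301 : lp7 (fun s => chk (ent L3301 s)) 0 = true := by decide +kernel
theorem p3301 : PrL chk L3301 := leafL c3301

theorem c3302 : lp7 (fun s => chk (ent L3302 s)) 0 = true := by decide +kernel
theorem p3302 : PrL chk L3302 := leafL c3302

theorem c3303 : lp7 (fun s => chk (ent L3303 s)) 0 = true := by decide +kernel
theorem p3303 : PrL chk L3303 := leafL c3303

theorem c3304 : lp7 (fun s => chk (ent L3304 s)) 0 = true := by decide +kernel
theorem p3304 : PrL chk L3304 := leafL c3304

theorem c3305 : lp7 (fun s => chk (ent L3305 s)) 0 = true := by decide +kernel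
theorem p3305 : PrL chk L3305 := leafL c3305

theorem c3306 : lp7 (fun s => chk (ent L3306 s)) 0 = true := by decide +kernel
theorem p3306 : PrL chk L3306 := leafL c3306

theorem c3307 : lp7 (fun s => chk (ent L3307 s)) 0 = true := by decide +kernel
theorem p3307 : PrL chk L3307 := leafL c3307

theorem c3308 : lp7 (fun s => chk (ent L3308 s)) 0 = true := by decide +kernel
theorem p3308 : PrL chk L3308 := leafL c3308

theorem c3309 : lp7 (fun s => chk (ent L3309 s)) 0 = true := by decide +kernel
theorem p3309 : PrL chk L3309 := leafL c3309

theorem c3310 : lp7 (fun s => chk (ent L3310 s)) 0 = true := by decide +kernel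
theorem p3310 : PrL chk L3310 := leafL c3310

theorem c3311 : lp7 (fun s => chk (ent L3311 s)) 0 = true := by decide +kernel
theorem p3311 : PrL chk L3311 := leafL c3311

theorem c3312 : lp7 (fun s => chk (ent L3312 s)) 0 = true := by decide +kernel
theorem p3312 : PrL chk L3312 := leafL c3312

theorem c3313 : lp7 (fun s => chk (ent L3313 s)) 0 = true := by decide +kernel
theorem p3313 : PrL chk L3313 := leafL c3313

theorem c3314 : lp7 (fun s => chk (ent L3314 s)) 0 = true := by decide +kernel
theorem p3314 : PrL chk L3314 := leafL c3314

theorem c3315 : lp7 (fun s => chk (ent L3315 s)) 0 = true := by decide +kernel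
theorem p3315 : PrL chk L3315 := leafL c3315

theorem c3316 : lp7 (fun s => chk (ent L3316 s)) 0 = true := by decide +kernel
theorem p3316 : PrL chk L3316 := leafL c3316

theorem c3317 : lp7 (fun s => chk (ent L3317 s)) 0 = true := by decide +kernel
theorem p3317 : PrL chk L3317 := leafL c3317

theorem c3318 : lp7 (fun s => chk (ent L3318 s)) 0 = true := by decide +kernel
theorem p3318 : PrL chk L3318 := leafL c3318

theorem c3319 : lp7 (fun s => chk (ent L3319 s)) 0 = true := by decide +kernel
theorem p3319 : PrL chk L3319 := leafL c3319

theorem c3320 : lp7 (fun s => chk (ent L3320 s)) 0 = true := by decide +kernel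
theorem p3320 : PrL chk L3320 := leafL c3320

theorem c3321 : lp7 (fun s => chk (ent L3321 s)) 0 = true := by decide +kernel
theorem p3321 : PrL chk L3321 := leafL c3321

theorem c3322 : lp7 (fun s => chk (ent L3322 s)) 0 = true := by decide +kernel
theorem p3322 : PrL chk L3322 := leafL c3322

theorem c3323 : lp7 (fun s => chk (ent L3323 s)) 0 = true := by decide +kernel
theorem p3323 : PrL chk L3323 := leafL c3323

theorem c3324 : lp7 (fun s => chk (ent L3324 s)) 0 = true := by decide +kernel
theorem p3324 : PrL chk L3324 := leafL c3324

theorem c3325 : lp7 (fun s => chk (ent L3325 s)) 0 = true := by decide +kernel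
theorem p3325 : PrL chk L3325 := leafL c3325

theorem c3326 : lp7 (fun s => chk (ent L3326 s)) 0 = true := by decide +kernel
theorem p3326 : PrL chk L3326 := leafL c3326

theorem c3327 : lp7 (fun s => chk (ent L3327 s)) 0 = true := by decide +kernel
theorem p3327 : PrL chk L3327 := leafL c3327

end Pool.Agent.ad013a.LA
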