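import Pool.Agent.H.MP_ad013a_pr.h63l.A.T
import Pool.Agent.H.MP_ad013a_pr.h63w.VLoop

namespace Pool.Agent.ad013a.LA

theorem c3328 : lp7 (fun s => chk (ent L3328 s)) 0 = true := by decide +kernel
theorem p3328 : PrL chk L3328 := leafL c3328

theorem c3329 : lp7 (fun s => chk (ent L3329 s)) 0 = true := by decide +kernel
theorem p3329 : PrL chk L3329 := leafL c3329

theorem c3330 : lp7 (fun s => chk (ent L3330 s)) 0 = true := by decide +kernel
theorem p3330 : PrL chk L3330 := leafL c3330

theorem c3331 : lp7 (fun s => chk (ent L3331 s)) 0 = true := by decide +kernel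
theorem p3331 : PrL chk L3331 := leafL c3331

theorem c3332 : lp7 (fun s => chk (ent L3332 s)) 0 = true := by decide +kernel
theorem p3332 : PrL chk L3332 := leafL c3332

theorem c3333 : lp7 (fun s => chk (ent L3333 s)) 0 = true := by decide +kernel
theorem p3333 : PrL chk L3333 := leafL c3333

theorem c3334 : lp7 (fun s => chk (ent L3334 s)) 0 = true := by decide +kernel
theorem p3334 : PrL chk L3334 := leafL c3334

theorem c3335 : lp7 (fun s => chk (ent L3335 s)) 0 = true := by decide +kernel
theorem p3335 : PrL chk L3335 := leafL c3335

theorem c3336 : lp7 (fun s => chk (ent L3336 s)) 0 = true := by decide +kernel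
theorem p3336 : PrL chk L3336 := leafL c3336

theorem c3337 : lp7 (fun s => chk (ent L3337 s)) 0 = true := by decide +kernel
theorem p3337 : PrL chk L3337 := leafL c3337

theorem c3338 : lp7 (fun s => chk (ent L3338 s)) 0 = true := by decide +kernel
theorem p3338 : PrL chk L3338 := leafL c3338

theorem c3339 : lp7 (fun s => chk (ent L3339 s)) 0 = true := by decide +kernel
theorem p3339 : PrL chk L3339 := leafL c3339

theorem c3340 : lp7 (fun s => chk (ent L3340 s)) 0 = true := by decide +kernel
theorem p3340 : PrL chk L3340 := leafL c3340

theorem c3341 : lp7 (fun s => chk (ent L3341 s)) 0 = true := by decide +kernel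
theorem p3341 : PrL chk L3341 := leafL c3341

theorem c3342 : lp7 (fun s => chk (ent L3342 s)) 0 = true := by decide +kernel
theorem p3342 : PrL chk L3342 := leafL c3342

theorem c3343 : lp7 (fun s => chk (ent L3343 s)) 0 = true := by decide +kernel
theorem p3343 : PrL chk L3343 := leafL c3343

theorem c3344 : lp7 (fun s => chk (ent L3344 s)) 0 = true := by decide +kernel
theorem p3344 : PrL chk L3344 := leafL c3344

theorem c3345 : lp7 (fun s => chk (ent L3345 s)) 0 = true := by decide +kernel
theorem p3345 : PrL chk L3345 := leafL c3345

theorem c3346 : lp7 (fun s => chk (ent L3346 s)) 0 = true := by decide +kernel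
theorem p3346 : PrL chk L3346 := leafL c3346

theorem c3347 : lp7 (fun s => chk (ent L3347 s)) 0 = true := by decide +kernel
theorem p3347 : PrL chk L3347 := leafL c3347

theorem c3348 : lp7 (fun s => chk (ent L3348 s)) 0 = true := by decide +kernel
theorem p3348 : PrL chk L3348 := leafL c3348

theorem c3349 : lp7 (fun s => chk (ent L3349 s)) 0 = true := by decide +kernel
theorem p3349 : PrL chk L3349 := leafL c3349

theorem c3350 : lp7 (fun s => chk (ent L3350 s)) 0 = true := by decide +kernel
theorem p3350 : PrL chk L3350 := leafL c3350

theorem c3351 : lp7 (fun s => chk (ent L3351 s)) 0 = true := by decide +kernel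
theorem p3351 : PrL chk L3351 := leafL c3351

theorem c3352 : lp7 (fun s => chk (ent L3352 s)) 0 = true := by decide +kernel
theorem p3352 : PrL chk L3352 := leafL c3352

theorem c3353 : lp7 (fun s => chk (ent L3353 s)) 0 = true := by decide +kernel
theorem p3353 : PrL chk L3353 := leafL c3353

theorem c3354 : lp7 (fun s => chk (ent L3354 s)) 0 = true := by decide +kernel
theorem p3354 : PrL chk L3354 := leafL c3354

theorem c3355 : lp7 (fun s => chk (ent L3355 s)) 0 = true := by decide +kernel
theorem p3355 : PrL chk L3355 := leafL c3355

theorem c3356 : lp7 (fun s => chk (ent L3356 s)) 0 = true := by decide +kernel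
theorem p3356 : PrL chk L3356 := leafL c3356

theorem c3357 : lp7 (fun s => chk (ent L3357 s)) 0 = true := by decide +kernel
theorem p3357 : PrL chk L3357 := leafL c3357

theorem c3358 : lp7 (fun s => chk (ent L3358 s)) 0 = true := by decide +kernel
theorem p3358 : PrL chk L3358 := leafL c3358

theorem c3359 : lp7 (fun s => chk (ent L3359 s)) 0 = true := by decide +kernel
theorem p3359 : PrL chk L3359 := leafL c3359

theorem c3360 : lp7 (fun s => chk (ent L3360 s)) 0 = true := by decide +kernel
theorem p3360 : PrL chk L3360 := leafL c3360

theorem c3361 : lp7 (fun s => chk (ent L3361 s)) 0 = true := by decide +kernel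
theorem p3361 : PrL chk L3361 := leafL c3361

theorem c3362 : lp7 (fun s => chk (ent L3362 s)) 0 = true := by decide +kernel
theorem p3362 : PrL chk L3362 := leafL c3362

theorem c3363 : lp7 (fun s => chk (ent L3363 s)) 0 = true := by decide +kernel
theorem p3363 : PrL chk L3363 := leafL c3363

theorem c3364 : lp7 (fun s => chk (ent L3364 s)) 0 = true := by decide +kernel
theorem p3364 : PrL chk L3364 := leafL c3364

theorem c3365 : lp7 (fun s => chk (ent L3365 s)) 0 = true := by decide +kernel
theorem p3365 : PrL chk L3365 := leafL c3365

theorem c3366 : lp7 (fun s => chk (ent L3366 s)) 0 = true := by decide +kernel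
theorem p3366 : PrL chk L3366 := leafL c3366

theorem c3367 : lp7 (fun s => chk (ent L3367 s)) 0 = true := by decide +kernel
theorem p3367 : PrL chk L3367 := leafL c3367

theorem c3368 : lp7 (fun s => chk (ent L3368 s)) 0 = true := by decide +kernel
theorem p3368 : PrL chk L3368 := leafL c3368

theorem c3369 : lp7 (fun s => chk (ent L3369 s)) 0 = true := by decide +kernel
theorem p3369 : PrL chk L3369 := leafL c3369

theorem c3370 : lp7 (fun s => chk (ent L3370 s)) 0 = true := by decide +kernel
theorem p3370 : PrL chk L3370 := leafL c3370

theorem c3371 : lp7 (fun s => chk (ent L3371 s)) 0 = true := by decide +kernel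
theorem p3371 : PrL chk L3371 := leafL c3371

theorem c3372 : lp7 (fun s => chk (ent L3372 s)) 0 = true := by decide +kernel
theorem p3372 : PrL chk L3372 := leafL c3372

theorem c3373 : lp7 (fun s => chk (ent L3373 s)) 0 = true := by decide +kernel
theorem p3373 : PrL chk L3373 := leafL c3373

theorem c3374 : lp7 (fun s => chk (ent L3374 s)) 0 = true := by decide +kernel
theorem p3374 : PrL chk L3374 := leafL c3374

theorem c3375 : lp7 (fun s => chk (ent L3375 s)) 0 = true := by decide +kernel
theorem p3375 : PrL chk L3375 := leafL c3375

theorem c3376 : lp7 (fun s => chk (ent L3376 s)) 0 = true := by decide +kernel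
theorem p3376 : PrL chk L3376 := leafL c3376

theorem c3377 : lp7 (fun s => chk (ent L3377 s)) 0 = true := by decide +kernel
theorem p3377 : PrL chk L3377 := leafL c3377

theorem c3378 : lp7 (fun s => chk (ent L3378 s)) 0 = true := by decide +kernel
theorem p3378 : PrL chk L3378 := leafL c3378

theorem c3379 : lp7 (fun s => chk (ent L3379 s)) 0 = true := by decide +kernel
theorem p3379 : PrL chk L3379 := leafL c3379

theorem c3380 : lp7 (fun s => chk (ent L3380 s)) 0 = true := by decide +kernel
theorem p3380 : PrL chk L3380 := leafL c3380

theorem c3381 : lp7 (fun s => chk (ent L3381 s)) 0 = true := by decide +kernel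
theorem p3381 : PrL chk L3381 := leafL c3381

theorem c3382 : lp7 (fun s => chk (ent L3382 s)) 0 = true := by decide +kernel
theorem p3382 : PrL chk L3382 := leafL c3382

theorem c3383 : lp7 (fun s => chk (ent L3383 s)) 0 = true := by decide +kernel
theorem p3383 : PrL chk L3383 := leafL c3383

theorem c3384 : lp7 (fun s => chk (ent L3384 s)) 0 = true := by decide +kernel
theorem p3384 : PrL chk L3384 := leafL c3384

theorem c3385 : lp7 (fun s => chk (ent L3385 s)) 0 = true := by decide +kernel
theorem p3385 : PrL chk L3385 := leafL c3385

theorem c3386 : lp7 (fun s => chk (ent L3386 s)) 0 = true := by decide +kernel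
theorem p3386 : PrL chk L3386 := leafL c3386

theorem c3387 : lp7 (fun s => chk (ent L3387 s)) 0 = true := by decide +kernel
theorem p3387 : PrL chk L3387 := leafL c3387

theorem c3388 : lp7 (fun s => chk (ent L3388 s)) 0 = true := by decide +kernel
theorem p3388 : PrL chk L3388 := leafL c3388

theorem c3389 : lp7 (fun s => chk (ent L3389 s)) 0 = true := by decide +kernel
theorem p3389 : PrL chk L3389 := leafL c3389

theorem c3390 : lp7 (fun s => chk (ent L3390 s)) 0 = true := by decide +kernel
theorem p3390 : PrL chk L3390 := leafL c3390

theorem c3391 : lp7 (fun s => chk (ent L3391 s)) 0 = true := by decide +kernel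
theorem p3391 : PrL chk L3391 := leafL c3391

theorem c3392 : lp7 (fun s => chk (ent L3392 s)) 0 = true := by decide +kernel
theorem p3392 : PrL chk L3392 := leafL c3392

theorem c3393 : lp7 (fun s => chk (ent L3393 s)) 0 = true := by decide +kernel
theorem p3393 : PrL chk L3393 := leafL c3393

theorem c3394 : lp7 (fun s => chk (ent L3394 s)) 0 = true := by decide +kernel
theorem p3394 : PrL chk L3394 := leafL c3394

theorem c3395 : lp7 (fun s => chk (ent L3395 s)) 0 = true := by decide +kernel
theorem p3395 : PrL chk L3395 := leafL c3395

theorem c3396 : lp7 (fun s => chk (ent L3396 s)) 0 = true := by decide +kernel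
theorem p3396 : PrL chk L3396 := leafL c3396

theorem c3397 : lp7 (fun s => chk (ent L3397 s)) 0 = true := by decide +kernel
theorem p3397 : PrL chk L3397 := leafL c3397

theorem c3398 : lp7 (fun s => chk (ent L3398 s)) 0 = true := by decide +kernel
theorem p3398 : PrL chk L3398 := leafL c3398

theorem c3399 : lp7 (fun s => chk (ent L3399 s)) 0 = true := by decide +kernel
theorem p3399 : PrL chk L3399 := leafL c3399

theorem c3400 : lp7 (fun s => chk (ent L3400 s)) 0 = true := by decide +kernel
theorem p3400 : PrL chk L3400 := leafL c3400

theorem c3401 : lp7 (fun s => chk (ent L3401 s)) 0 = true := by decide +kernel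
theorem p3401 : PrL chk L3401 := leafL c3401

theorem c3402 : lp7 (fun s => chk (ent L3402 s)) 0 = true := by decide +kernel
theorem p3402 : PrL chk L3402 := leafL c3402

theorem c3403 : lp7 (fun s => chk (ent L3403 s)) 0 = true := by decide +kernel
theorem p3403 : PrL chk L3403 := leafL c3403

theorem c3404 : lp7 (fun s => chk (ent L3404 s)) 0 = true := by decide +kernel
theorem p3404 : PrL chk L3404 := leafL c3404

theorem c3405 : lp7 (fun s => chk (ent L3405 s)) 0 = true := by decide +kernel
theorem p3405 : PrL chk L3405 := leafL c3405

theorem c3406 : lp7 (fun s => chk (ent L3406 s)) 0 = true := by decide +kernel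
theorem p3406 : PrL chk L3406 := leafL c3406

theorem c3407 : lp7 (fun s => chk (ent L3407 s)) 0 = true := by decide +kernel
theorem p3407 : PrL chk L3407 := leafL c3407

theorem c3408 : lp7 (fun s => chk (ent L3408 s)) 0 = true := by decide +kernel
theorem p3408 : PrL chk L3408 := leafL c3408

theorem c3409 : lp7 (fun s => chk (ent L3409 s)) 0 = true := by decide +kernel
theorem p3409 : PrL chk L3409 := leafL c3409

theorem c3410 : lp7 (fun s => chk (ent L3410 s)) 0 = true := by decide +kernel
theorem p3410 : PrL chk L3410 := leafL c3410

theorem c3411 : lp7 (fun s => chk (ent L3411 s)) 0 = true := by decide +kernel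
theorem p3411 : PrL chk L3411 := leafL c3411

theorem c3412 : lp7 (fun s => chk (ent L3412 s)) 0 = true := by decide +kernel
theorem p3412 : PrL chk L3412 := leafL c3412

theorem c3413 : lp7 (fun s => chk (ent L3413 s)) 0 = true := by decide +kernel
theorem p3413 : PrL chk L3413 := leafL c3413

theorem c3414 : lp7 (fun s => chk (ent L3414 s)) 0 = true := by decide +kernel
theorem p3414 : PrL chk L3414 := leafL c3414

theorem c3415 : lp7 (fun s => chk (ent L3415 s)) 0 = true := by decide +kernel
theorem p3415 : PrL chk L3415 := leafL c3415

theorem c3416 : lp7 (fun s => chk (ent L3416 s)) 0 = true := by decide +kernel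
theorem p3416 : PrL chk L3416 := leafL c3416

theorem c3417 : lp7 (fun s => chk (ent L3417 s)) 0 = true := by decide +kernel
theorem p3417 : PrL chk L3417 := leafL c3417

theorem c3418 : lp7 (fun s => chk (ent L3418 s)) 0 = true := by decide +kernel
theorem p3418 : PrL chk L3418 := leafL c3418

theorem c3419 : lp7 (fun s => chk (ent L3419 s)) 0 = true := by decide +kernel
theorem p3419 : PrL chk L3419 := leafL c3419

theorem c3420 : lp7 (fun s => chk (ent L3420 s)) 0 = true := by decide +kernel
theorem p3420 : PrL chk L3420 := leafL c3420

theorem c3421 : lp7 (fun s => chk (ent L3421 s)) 0 = true := by decide +kernel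
theorem p3421 : PrL chk L3421 := leafL c3421

theorem c3422 : lp7 (fun s => chk (ent L3422 s)) 0 = true := by decide +kernel
theorem p3422 : PrL chk L3422 := leafL c3422

theorem c3423 : lp7 (fun s => chk (ent L3423 s)) 0 = true := by decide +kernel
theorem p3423 : PrL chk L3423 := leafL c3423

theorem c3424 : lp7 (fun s => chk (ent L3424 s)) 0 = true := by decide +kernel
theorem p3424 : PrL chk L3424 := leafL c3424

theorem c3425 : lp7 (fun s => chk (ent L3425 s)) 0 = true := by decide +kernel
theorem p3425 : PrL chk L3425 := leafL c3425

theorem c3426 : lp7 (fun s => chk (ent L3426 s)) 0 = true := by decide +kernel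
theorem p3426 : PrL chk L3426 := leafL c3426

theorem c3427 : lp7 (fun s => chk (ent L3427 s)) 0 = true := by decide +kernel
theorem p3427 : PrL chk L3427 := leafL c3427

theorem c3428 : lp7 (fun s => chk (ent L3428 s)) 0 = true := by decide +kernel
theorem p3428 : PrL chk L3428 := leafL c3428

theorem c3429 : lp7 (fun s => chk (ent L3429 s)) 0 = true := by decide +kernel
theorem p3429 : PrL chk L3429 := leafL c3429

theorem c3430 : lp7 (fun s => chk (ent L3430 s)) 0 = true := by decide +kernel
theorem p3430 : PrL chk L3430 := leafL c3430

theorem c3431 : lp7 (fun s => chk (ent L3431 s)) 0 = true := by decide +kernel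
theorem p3431 : PrL chk L3431 := leafL c3431

theorem c3432 : lp7 (fun s => chk (ent L3432 s)) 0 = true := by decide +kernel
theorem p3432 : PrL chk L3432 := leafL c3432

theorem c3433 : lp7 (fun s => chk (ent L3433 s)) 0 = true := by decide +kernel
theorem p3433 : PrL chk L3433 := leafL c3433

theorem c3434 : lp7 (fun s => chk (ent L3434 s)) 0 = true := by decide +kernel
theorem p3434 : PrL chk L3434 := leafL c3434

theorem c3435 : lp7 (fun s => chk (ent L3435 s)) 0 = true := by decide +kernel
theorem p3435 : PrL chk L3435 := leafL c3435

theorem c3436 : lp7 (fun s => chk (ent L3436 s)) 0 = true := by decide +kernel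
theorem p3436 : PrL chk L3436 := leafL c3436

theorem c3437 : lp7 (fun s => chk (ent L3437 s)) 0 = true := by decide +kernel
theorem p3437 : PrL chk L3437 := leafL c3437

theorem c3438 : lp7 (fun s => chk (ent L3438 s)) 0 = true := by decide +kernel
theorem p3438 : PrL chk L3438 := leafL c3438

theorem c3439 : lp7 (fun s => chk (ent L3439 s)) 0 = true := by decide +kernel
theorem p3439 : PrL chk L3439 := leafL c3439

theorem c3440 : lp7 (fun s => chk (ent L3440 s)) 0 = true := by decide +kernel
theorem p3440 : PrL chk L3440 := leafL c3440

theorem c3441 : lp7 (fun s => chk (ent L3441 s)) 0 = true := by decide +kernel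
theorem p3441 : PrL chk L3441 := leafL c3441

theorem c3442 : lp7 (fun s => chk (ent L3442 s)) 0 = true := by decide +kernel
theorem p3442 : PrL chk L3442 := leafL c3442

theorem c3443 : lp7 (fun s => chk (ent L3443 s)) 0 = true := by decide +kernel
theorem p3443 : PrL chk L3443 := leafL c3443

theorem c3444 : lp7 (fun s => chk (ent L3444 s)) 0 = true := by decide +kernel
theorem p3444 : PrL chk L3444 := leafL c3444

theorem c3445 : lp7 (fun s => chk (ent L3445 s)) 0 = true := by decide +kernel
theorem p3445 : PrL chk L3445 := leafL c3445

theorem c3446 : lp7 (fun s => chk (ent L3446 s)) 0 = true := by decide +kernel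
theorem p3446 : PrL chk L3446 := leafL c3446

theorem c3447 : lp7 (fun s => chk (ent L3447 s)) 0 = true := by decide +kernel
theorem p3447 : PrL chk L3447 := leafL c3447

theorem c3448 : lp7 (fun s => chk (ent L3448 s)) 0 = true := by decide +kernel
theorem p3448 : PrL chk L3448 := leafL c3448

theorem c3449 : lp7 (fun s => chk (ent L3449 s)) 0 = true := by decide +kernel
theorem p3449 : PrL chk L3449 := leafL c3449

theorem c3450 : lp7 (fun s => chk (ent L3450 s)) 0 = true := by decide +kernel
theorem p3450 : PrL chk L3450 := leafL c3450

theorem c3451 : lp7 (fun s => chk (ent L3451 s)) 0 = true := by decide +kernel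
theorem p3451 : PrL chk L3451 := leafL c3451

theorem c3452 : lp7 (fun s => chk (ent L3452 s)) 0 = true := by decide +kernel
theorem p3452 : PrL chk L3452 := leafL c3452

theorem c3453 : lp7 (fun s => chk (ent L3453 s)) 0 = true := by decide +kernel
theorem p3453 : PrL chk L3453 := leafL c3453

theorem c3454 : lp7 (fun s => chk (ent L3454 s)) 0 = true := by decide +kernel
theorem p3454 : PrL chk L3454 := leafL c3454

theorem c3455 : lp7 (fun s => chk (ent L3455 s)) 0 = true := by decide +kernel
theorem p3455 : PrL chk L3455 := leafL c3455

theorem c3456 : lp7 (fun s => chk (ent L3456 s)) 0 = true := by decide +kernel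
theorem p3456 : PrL chk L3456 := leafL c3456

theorem c3457 : lp7 (fun s => chk (ent L3457 s)) 0 = true := by decide +kernel
theorem p3457 : PrL chk L3457 := leafL c3457

theorem c3458 : lp7 (fun s => chk (ent L3458 s)) 0 = true := by decide +kernel
theorem p3458 : PrL chk L3458 := leafL c3458

theorem c3459 : lp7 (fun s => chk (ent L3459 s)) 0 = true := by decide +kernel
theorem p3459 : PrL chk L3459 := leafL c3459

theorem c3460 : lp7 (fun s => chk (ent L3460 s)) 0 = true := by decide +kernel
theorem p3460 : PrL chk L3460 := leafL c3460

theorem c3461 : lp7 (fun s => chk (ent L3461 s)) 0 = true := by decide +kernel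
theorem p3461 : PrL chk L3461 := leafL c3461

theorem c3462 : lp7 (fun s => chk (ent L3462 s)) 0 = true := by decide +kernel
theorem p3462 : PrL chk L3462 := leafL c3462

theorem c3463 : lp7 (fun s => chk (ent L3463 s)) 0 = true := by decide +kernel
theorem p3463 : PrL chk L3463 := leafL c3463

theorem c3464 : lp7 (fun s => chk (ent L3464 s)) 0 = true := by decide +kernel
theorem p3464 : PrL chk L3464 := leafL c3464

theorem c3465 : lp7 (fun s => chk (ent L3465 s)) 0 = true := by decide +kernel
theorem p3465 : PrL chk L3465 := leafL c3465

theorem c3466 : lp7 (fun s => chk (ent L3466 s)) 0 = true := by decide +kernel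
theorem p3466 : PrL chk L3466 := leafL c3466

theorem c3467 : lp7 (fun s => chk (ent L3467 s)) 0 = true := by decide +kernel
theorem p3467 : PrL chk L3467 := leafL c3467

theorem c3468 : lp7 (fun s => chk (ent L3468 s)) 0 = true := by decide +kernel
theorem p3468 : PrL chk L3468 := leafL c3468

theorem c3469 : lp7 (fun s => chk (ent L3469 s)) 0 = true := by decide +kernel
theorem p3469 : PrL chk L3469 := leafL c3469

theorem c3470 : lp7 (fun s => chk (ent L3470 s)) 0 = true := by decide +kernel
theorem p3470 : PrL chk L3470 := leafL c3470

theorem c3471 : lp7 (fun s => chk (ent L3471 s)) 0 = true := by decide +kernel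
theorem p3471 : PrL chk L3471 := leafL c3471

theorem c3472 : lp7 (fun s => chk (ent L3472 s)) 0 = true := by decide +kernel
theorem p3472 : PrL chk L3472 := leafL c3472

theorem c3473 : lp7 (fun s => chk (ent L3473 s)) 0 = true := by decide +kernel
theorem p3473 : PrL chk L3473 := leafL c3473

theorem c3474 : lp7 (fun s => chk (ent L3474 s)) 0 = true := by decide +kernel
theorem p3474 : PrL chk L3474 := leafL c3474

theorem c3475 : lp7 (fun s => chk (ent L3475 s)) 0 = true := by decide +kernel
theorem p3475 : PrL chk L3475 := leafL c3475

theorem c3476 : lp7 (fun s => chk (ent L3476 s)) 0 = true := by decide +kernel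
theorem p3476 : PrL chk L3476 := leafL c3476

theorem c3477 : lp7 (fun s => chk (ent L3477 s)) 0 = true := by decide +kernel
theorem p3477 : PrL chk L3477 := leafL c3477

theorem c3478 : lp7 (fun s => chk (ent L3478 s)) 0 = true := by decide +kernel
theorem p3478 : PrL chk L3478 := leafL c3478

theorem c3479 : lp7 (fun s => chk (ent L3479 s)) 0 = true := by decide +kernel
theorem p3479 : PrL chk L3479 := leafL c3479

theorem c3480 : lp7 (fun s => chk (ent L3480 s)) 0 = true := by decide +kernel
theorem p3480 : PrL chk L3480 := leafL c3480

theorem c3481 : lp7 (fun s => chk (ent L3481 s)) 0 = true := by decide +kernel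
theorem p3481 : PrL chk L3481 := leafL c3481

theorem c3482 : lp7 (fun s => chk (ent L3482 s)) 0 = true := by decide +kernel
theorem p3482 : PrL chk L3482 := leafL c3482

theorem c3483 : lp7 (fun s => chk (ent L3483 s)) 0 = true := by decide +kernel
theorem p3483 : PrL chk L3483 := leafL c3483

theorem c3484 : lp7 (fun s => chk (ent L3484 s)) 0 = true := by decide +kernel
theorem p3484 : PrL chk L3484 := leafL c3484

theorem c3485 : lp7 (fun s => chk (ent L3485 s)) 0 = true := by decide +kernel
theorem p3485 : PrL chk L3485 := leafL c3485

theorem c3486 : lp7 (fun s => chk (ent L3486 s)) 0 = true := by decide +kernel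
theorem p3486 : PrL chk L3486 := leafL c3486

theorem c3487 : lp7 (fun s => chk (ent L3487 s)) 0 = true := by decide +kernel
theorem p3487 : PrL chk L3487 := leafL c3487

theorem c3488 : lp7 (fun s => chk (ent L3488 s)) 0 = true := by decide +kernel
theorem p3488 : PrL chk L3488 := leafL c3488

theorem c3489 : lp7 (fun s => chk (ent L3489 s)) 0 = true := by decide +kernel
theorem p3489 : PrL chk L3489 := leafL c3489

theorem c3490 : lp7 (fun s => chk (ent L3490 s)) 0 = true := by decide +kernel
theorem p3490 : PrL chk L3490 := leafL c3490

theorem c3491 : lp7 (fun s => chk (ent L3491 s)) 0 = true := by decide +kernel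
theorem p3491 : PrL chk L3491 := leafL c3491

theorem c3492 : lp7 (fun s => chk (ent L3492 s)) 0 = true := by decide +kernel
theorem p3492 : PrL chk L3492 := leafL c3492

theorem c3493 : lp7 (fun s => chk (ent L3493 s)) 0 = true := by decide +kernel
theorem p3493 : PrL chk L3493 := leafL c3493

theorem c3494 : lp7 (fun s => chk (ent L3494 s)) 0 = true := by decide +kernel
theorem p3494 : PrL chk L3494 := leafL c3494

theorem c3495 : lp7 (fun s => chk (ent L3495 s)) 0 = true := by decide +kernel
theorem p3495 : PrL chk L3495 := leafL c3495

theorem c3496 : lp7 (fun s => chk (ent L3496 s)) 0 = true := by decide +kernel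
theorem p3496 : PrL chk L3496 := leafL c3496

theorem c3497 : lp7 (fun s => chk (ent L3497 s)) 0 = true := by decide +kernel
theorem p3497 : PrL chk L3497 := leafL c3497

theorem c3498 : lp7 (fun s => chk (ent L3498 s)) 0 = true := by decide +kernel
theorem p3498 : PrL chk L3498 := leafL c3498

theorem c3499 : lp7 (fun s => chk (ent L3499 s)) 0 = true := by decide +kernel
theorem p3499 : PrL chk L3499 := leafL c3499

theorem c3500 : lp7 (fun s => chk (ent L3500 s)) 0 = true := by decide +kernel
theorem p3500 : PrL chk L3500 := leafL c3500

theorem c3501 : lp7 (fun s => chk (ent L3501 s)) 0 = true := by decide +kernel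
theorem p3501 : PrL chk L3501 := leafL c3501

theorem c3502 : lp7 (fun s => chk (ent L3502 s)) 0 = true := by decide +kernel
theorem p3502 : PrL chk L3502 := leafL c3502

theorem c3503 : lp7 (fun s => chk (ent L3503 s)) 0 = true := by decide +kernel
theorem p3503 : PrL chk L3503 := leafL c3503

theorem c3504 : lp7 (fun s => chk (ent L3504 s)) 0 = true := by decide +kernel
theorem p3504 : PrL chk L3504 := leafL c3504

theorem c3505 : lp7 (fun s => chk (ent L3505 s)) 0 = true := by decide +kernel
theorem p3505 : PrL chk L3505 := leafL c3505

theorem c3506 : lp7 (fun s => chk (ent L3506 s)) 0 = true := by decide +kernel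
theorem p3506 : PrL chk L3506 := leafL c3506

theorem c3507 : lp7 (fun s => chk (ent L3507 s)) 0 = true := by decide +kernel
theorem p3507 : PrL chk L3507 := leafL c3507

theorem c3508 : lp7 (fun s => chk (ent L3508 s)) 0 = true := by decide +kernel
theorem p3508 : PrL chk L3508 := leafL c3508

theorem c3509 : lp7 (fun s => chk (ent L3509 s)) 0 = true := by decide +kernel
theorem p3509 : PrL chk L3509 := leafL c3509

theorem c3510 : lp7 (fun s => chk (ent L3510 s)) 0 = true := by decide +kernel
theorem p3510 : PrL chk L3510 := leafL c3510

theorem c3511 : lp7 (fun s => chk (ent L3511 s)) 0 = true := by decide +kernel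
theorem p3511 : PrL chk L3511 := leafL c3511

theorem c3512 : lp7 (fun s => chk (ent L3512 s)) 0 = true := by decide +kernel
theorem p3512 : PrL chk L3512 := leafL c3512

theorem c3513 : lp7 (fun s => chk (ent L3513 s)) 0 = true := by decide +kernel
theorem p3513 : PrL chk L3513 := leafL c3513

theorem c3514 : lp7 (fun s => chk (ent L3514 s)) 0 = true := by decide +kernel
theorem p3514 : PrL chk L3514 := leafL c3514

theorem c3515 : lp7 (fun s => chk (ent L3515 s)) 0 = true := by decide +kernel
theorem p3515 : PrL chk L3515 := leafL c3515

theorem c3516 : lp7 (fun s => chk (ent L3516 s)) 0 = true := by decide +kernel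
theorem p3516 : PrL chk L3516 := leafL c3516

theorem c3517 : lp7 (fun s => chk (ent L3517 s)) 0 = true := by decide +kernel
theorem p3517 : PrL chk L3517 := leafL c3517

theorem c3518 : lp7 (fun s => chk (ent L3518 s)) 0 = true := by decide +kernel
theorem p3518 : PrL chk L3518 := leafL c3518

theorem c3519 : lp7 (fun s => chk (ent L3519 s)) 0 = true := by decide +kernel
theorem p3519 : PrL chk L3519 := leafL c3519

theorem c3520 : lp7 (fun s => chk (ent L3520 s)) 0 = true := by decide +kernel
theorem p3520 : PrL chk L3520 := leafL c3520

theorem c3521 : lp7 (fun s => chk (ent L3521 s)) 0 = true := by decide +kernel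
theorem p3521 : PrL chk L3521 := leafL c3521

theorem c3522 : lp7 (fun s => chk (ent L3522 s)) 0 = true := by decide +kernel
theorem p3522 : PrL chk L3522 := leafL c3522

theorem c3523 : lp7 (fun s => chk (ent L3523 s)) 0 = true := by decide +kernel
theorem p3523 : PrL chk L3523 := leafL c3523

theorem c3524 : lp7 (fun s => chk (ent L3524 s)) 0 = true := by decide +kernel
theorem p3524 : PrL chk L3524 := leafL c3524

theorem c3525 : lp7 (fun s => chk (ent L3525 s)) 0 = true := by decide +kernel
theorem p3525 : PrL chk L3525 := leafL c3525

theorem c3526 : lp7 (fun s => chk (ent L3526 s)) 0 = true := by decide +kernel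
theorem p3526 : PrL chk L3526 := leafL c3526

theorem c3527 : lp7 (fun s => chk (ent L3527 s)) 0 = true := by decide +kernel
theorem p3527 : PrL chk L3527 := leafL c3527

theorem c3528 : lp7 (fun s => chk (ent L3528 s)) 0 = true := by decide +kernel
theorem p3528 : PrL chk L3528 := leafL c3528

theorem c3529 : lp7 (fun s => chk (ent L3529 s)) 0 = true := by decide +kernel
theorem p3529 : PrL chk L3529 := leafL c3529

theorem c3530 : lp7 (fun s => chk (ent L3530 s)) 0 = true := by decide +kernel
theorem p3530 : PrL chk L3530 := leafL c3530

theorem c3531 : lp7 (fun s => chk (ent L3531 s)) 0 = true := by decide +kernel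
theorem p3531 : PrL chk L3531 := leafL c3531

theorem c3532 : lp7 (fun s => chk (ent L3532 s)) 0 = true := by decide +kernel
theorem p3532 : PrL chk L3532 := leafL c3532

theorem c3533 : lp7 (fun s => chk (ent L3533 s)) 0 = true := by decide +kernel
theorem p3533 : PrL chk L3533 := leafL c3533

theorem c3534 : lp7 (fun s => chk (ent L3534 s)) 0 = true := by decide +kernel
theorem p3534 : PrL chk L3534 := leafL c3534

theorem c3535 : lp7 (fun s => chk (ent L3535 s)) 0 = true := by decide +kernel
theorem p3535 : PrL chk L3535 := leafL c3535

theorem c3536 : lp7 (fun s => chk (ent L3536 s)) 0 = true := by decide +kernel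
theorem p3536 : PrL chk L3536 := leafL c3536

theorem c3537 : lp7 (fun s => chk (ent L3537 s)) 0 = true := by decide +kernel
theorem p3537 : PrL chk L3537 := leafL c3537

theorem c3538 : lp7 (fun s => chk (ent L3538 s)) 0 = true := by decide +kernel
theorem p3538 : PrL chk L3538 := leafL c3538

theorem c3539 : lp7 (fun s => chk (ent L3539 s)) 0 = true := by decide +kernel
theorem p3539 : PrL chk L3539 := leafL c3539

theorem c3540 : lp7 (fun s => chk (ent L3540 s)) 0 = true := by decide +kernel
theorem p3540 : PrL chk L3540 := leafL c3540

theorem c3541 : lp7 (fun s => chk (ent L3541 s)) 0 = true := by decide +kernel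
theorem p3541 : PrL chk L3541 := leafL c3541

theorem c3542 : lp7 (fun s => chk (ent L3542 s)) 0 = true := by decide +kernel
theorem p3542 : PrL chk L3542 := leafL c3542

theorem c3543 : lp7 (fun s => chk (ent L3543 s)) 0 = true := by decide +kernel
theorem p3543 : PrL chk L3543 := leafL c3543

theorem c3544 : lp7 (fun s => chk (ent L3544 s)) 0 = true := by decide +kernel
theorem p3544 : PrL chk L3544 := leafL c3544

theorem c3545 : lp7 (fun s => chk (ent L3545 s)) 0 = true := by decide +kernel
theorem p3545 : PrL chk L3545 := leafL c3545

theorem c3546 : lp7 (fun s => chk (ent L3546 s)) 0 = true := by decide +kernel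
theorem p3546 : PrL chk L3546 := leafL c3546

theorem c3547 : lp7 (fun s => chk (ent L3547 s)) 0 = true := by decide +kernel
theorem p3547 : PrL chk L3547 := leafL c3547

theorem c3548 : lp7 (fun s => chk (ent L3548 s)) 0 = true := by decide +kernel
theorem p3548 : PrL chk L3548 := leafL c3548

theorem c3549 : lp7 (fun s => chk (ent L3549 s)) 0 = true := by decide +kernel
theorem p3549 : PrL chk L3549 := leafL c3549

theorem c3550 : lp7 (fun s => chk (ent L3550 s)) 0 = true := by decide +kernel
theorem p3550 : PrL chk L3550 := leafL c3550

theorem c3551 : lp7 (fun s => chk (ent L3551 s)) 0 = true := by decide +kernel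
theorem p3551 : PrL chk L3551 := leafL c3551

theorem c3552 : lp7 (fun s => chk (ent L3552 s)) 0 = true := by decide +kernel
theorem p3552 : PrL chk L3552 := leafL c3552

theorem c3553 : lp7 (fun s => chk (ent L3553 s)) 0 = true := by decide +kernel
theorem p3553 : PrL chk L3553 := leafL c3553

theorem c3554 : lp7 (fun s => chk (ent L3554 s)) 0 = true := by decide +kernel
theorem p3554 : PrL chk L3554 := leafL c3554

theorem c3555 : lp7 (fun s => chk (ent L3555 s)) 0 = true := by decide +kernel
theorem p3555 : PrL chk L3555 := leafL c3555

theorem c3556 : lp7 (fun s => chk (ent L3556 s)) 0 = true := by decide +kernel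
theorem p3556 : PrL chk L3556 := leafL c3556

theorem c3557 : lp7 (fun s => chk (ent L3557 s)) 0 = true := by decide +kernel
theorem p3557 : PrL chk L3557 := leafL c3557

theorem c3558 : lp7 (fun s => chk (ent L3558 s)) 0 = true := by decide +kernel
theorem p3558 : PrL chk L3558 := leafL c3558

theorem c3559 : lp7 (fun s => chk (ent L3559 s)) 0 = true := by decide +kernel
theorem p3559 : PrL chk L3559 := leafL c3559

theorem c3560 : lp7 (fun s => chk (ent L3560 s)) 0 = true := by decide +kernel
theorem p3560 : PrL chk L3560 := leafL c3560

theorem c3561 : lp7 (fun s => chk (ent L3561 s)) 0 = true := by decide +kernel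
theorem p3561 : PrL chk L3561 := leafL c3561

theorem c3562 : lp7 (fun s => chk (ent L3562 s)) 0 = true := by decide +kernel
theorem p3562 : PrL chk L3562 := leafL c3562

theorem c3563 : lp7 (fun s => chk (ent L3563 s)) 0 = true := by decide +kernel
theorem p3563 : PrL chk L3563 := leafL c3563

theorem c3564 : lp7 (fun s => chk (ent L3564 s)) 0 = true := by decide +kernel
theorem p3564 : PrL chk L3564 := leafL c3564

theorem c3565 : lp7 (fun s => chk (ent L3565 s)) 0 = true := by decide +kernel
theorem p3565 : PrL chk L3565 := leafL c3565

theorem c3566 : lp7 (fun s => chk (ent L3566 s)) 0 = true := by decide +kernel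
theorem p3566 : PrL chk L3566 := leafL c3566

theorem c3567 : lp7 (fun s => chk (ent L3567 s)) 0 = true := by decide +kernel
theorem p3567 : PrL chk L3567 := leafL c3567

theorem c3568 : lp7 (fun s => chk (ent L3568 s)) 0 = true := by decide +kernel
theorem p3568 : PrL chk L3568 := leafL c3568

theorem c3569 : lp7 (fun s => chk (ent L3569 s)) 0 = true := by decide +kernel
theorem p3569 : PrL chk L3569 := leafL c3569

theorem c3570 : lp7 (fun s => chk (ent L3570 s)) 0 = true := by decide +kernel
theorem p3570 : PrL chk L3570 := leafL c3570

theorem c3571 : lp7 (fun s => chk (ent L3571 s)) 0 = true := by decide +kernel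
theorem p3571 : PrL chk L3571 := leafL c3571

theorem c3572 : lp7 (fun s => chk (ent L3572 s)) 0 = true := by decide +kernel
theorem p3572 : PrL chk L3572 := leafL c3572

theorem c3573 : lp7 (fun s => chk (ent L3573 s)) 0 = true := by decide +kernel
theorem p3573 : PrL chk L3573 := leafL c3573

theorem c3574 : lp7 (fun s => chk (ent L3574 s)) 0 = true := by decide +kernel
theorem p3574 : PrL chk L3574 := leafL c3574

theorem c3575 : lp7 (fun s => chk (ent L3575 s)) 0 = true := by decide +kernel
theorem p3575 : PrL chk L3575 := leafL c3575

theorem c3576 : lp7 (fun s => chk (ent L3576 s)) 0 = true := by decide +kernel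
theorem p3576 : PrL chk L3576 := leafL c3576

theorem c3577 : lp7 (fun s => chk (ent L3577 s)) 0 = true := by decide +kernel
theorem p3577 : PrL chk L3577 := leafL c3577

theorem c3578 : lp7 (fun s => chk (ent L3578 s)) 0 = true := by decide +kernel
theorem p3578 : PrL chk L3578 := leafL c3578

theorem c3579 : lp7 (fun s => chk (ent L3579 s)) 0 = true := by decide +kernel
theorem p3579 : PrL chk L3579 := leafL c3579

theorem c3580 : lp7 (fun s => chk (ent L3580 s)) 0 = true := by decide +kernel
theorem p3580 : PrL chk L3580 := leafL c3580

theorem c3581 : lp7 (fun s => chk (ent L3581 s)) 0 = true := by decide +kernel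
theorem p3581 : PrL chk L3581 := leafL c3581

theorem c3582 : lp7 (fun s => chk (ent L3582 s)) 0 = true := by decide +kernel
theorem p3582 : PrL chk L3582 := leafL c3582

theorem c3583 : lp7 (fun s => chk (ent L3583 s)) 0 = true := by decide +kernel
theorem p3583 : PrL chk L3583 := leafL c3583

end Pool.Agent.ad013a.LA
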