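import Pool.Agent.H.MP_ad013a_pr.h63l.A.T
import Pool.Agent.H.MP_ad013a_pr.h63w.VLoop

namespace Pool.Agent.ad013a.LA

theorem c3584 : lp7 (fun s => chk (ent L3584 s)) 0 = true := by decide +kernel
theorem p3584 : PrL chk L3584 := leafL c3584

theorem c3585 : lp7 (fun s => chk (ent L3585 s)) 0 = true := by decide +kernel
theorem p3585 : PrL chk L3585 := leafL c3585

theorem c3586 : lp7 (fun s => chk (ent L3586 s)) 0 = true := by decide +kernel
theorem p3586 : PrL chk L3586 := leafL c3586

theorem c3587 : lp7 (fun s => chk (ent L3587 s)) 0 = true := by decide +kernel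
theorem p3587 : PrL chk L3587 := leafL c3587

theorem c3588 : lp7 (fun s => chk (ent L3588 s)) 0 = true := by decide +kernel
theorem p3588 : PrL chk L3588 := leafL c3588

theorem c3589 : lp7 (fun s => chk (ent L3589 s)) 0 = true := by decide +kernel
theorem p3589 : PrL chk L3589 := leafL c3589

theorem c3590 : lp7 (fun s => chk (ent L3590 s)) 0 = true := by decide +kernel
theorem p3590 : PrL chk L3590 := leafL c3590

theorem c3591 : lp7 (fun s => chk (ent L3591 s)) 0 = true := by decide +kernel
theorem p3591 : PrL chk L3591 := leafL c3591

theorem c3592 : lp7 (fun s => chk (ent L3592 s)) 0 = true := by decide +kernel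
theorem p3592 : PrL chk L3592 := leafL c3592

theorem c3593 : lp7 (fun s => chk (ent L3593 s)) 0 = true := by decide +kernel
theorem p3593 : PrL chk L3593 := leafL c3593

theorem c3594 : lp7 (fun s => chk (ent L3594 s)) 0 = true := by decide +kernel
theorem p3594 : PrL chk L3594 := leafL c3594

theorem c3595 : lp7 (fun s => chk (ent L3595 s)) 0 = true := by decide +kernel
theorem p3595 : PrL chk L3595 := leafL c3595

theorem c3596 : lp7 (fun s => chk (ent L3596 s)) 0 = true := by decide +kernel
theorem p3596 : PrL chk L3596 := leafL c3596

theorem c3597 : lp7 (fun s => chk (ent L3597 s)) 0 = true := by decide +kernel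
theorem p3597 : PrL chk L3597 := leafL c3597

theorem c3598 : lp7 (fun s => chk (ent L3598 s)) 0 = true := by decide +kernel
theorem p3598 : PrL chk L3598 := leafL c3598

theorem c3599 : lp7 (fun s => chk (ent L3599 s)) 0 = true := by decide +kernel
theorem p3599 : PrL chk L3599 := leafL c3599

theorem c3600 : lp7 (fun s => chk (ent L3600 s)) 0 = true := by decide +kernel
theorem p3600 : PrL chk L3600 := leafL c3600

theorem c3601 : lp7 (fun s => chk (ent L3601 s)) 0 = true := by decide +kernel
theorem p3601 : PrL chk L3601 := leafL c3601

theorem c3602 : lp7 (fun s => chk (ent L3602 s)) 0 = true := by decide +kernel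
theorem p3602 : PrL chk L3602 := leafL c3602

theorem c3603 : lp7 (fun s => chk (ent L3603 s)) 0 = true := by decide +kernel
theorem p3603 : PrL chk L3603 := leafL c3603

theorem c3604 : lp7 (fun s => chk (ent L3604 s)) 0 = true := by decide +kernel
theorem p3604 : PrL chk L3604 := leafL c3604

theorem c3605 : lp7 (fun s => chk (ent L3605 s)) 0 = true := by decide +kernel
theorem p3605 : PrL chk L3605 := leafL c3605

theorem c3606 : lp7 (fun s => chk (ent L3606 s)) 0 = true := by decide +kernel
theorem p3606 : PrL chk L3606 := leafL c3606

theorem c3607 : lp7 (fun s => chk (ent L3607 s)) 0 = true := by decide +kernel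
theorem p3607 : PrL chk L3607 := leafL c3607

theorem c3608 : lp7 (fun s => chk (ent L3608 s)) 0 = true := by decide +kernel
theorem p3608 : PrL chk L3608 := leafL c3608

theorem c3609 : lp7 (fun s => chk (ent L3609 s)) 0 = true := by decide +kernel
theorem p3609 : PrL chk L3609 := leafL c3609

theorem c3610 : lp7 (fun s => chk (ent L3610 s)) 0 = true := by decide +kernel
theorem p3610 : PrL chk L3610 := leafL c3610

theorem c3611 : lp7 (fun s => chk (ent L3611 s)) 0 = true := by decide +kernel
theorem p3611 : PrL chk L3611 := leafL c3611

theorem c3612 : lp7 (fun s => chk (ent L3612 s)) 0 = true := by decide +kernel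
theorem p3612 : PrL chk L3612 := leafL c3612

theorem c3613 : lp7 (fun s => chk (ent L3613 s)) 0 = true := by decide +kernel
theorem p3613 : PrL chk L3613 := leafL c3613

theorem c3614 : lp7 (fun s => chk (ent L3614 s)) 0 = true := by decide +kernel
theorem p3614 : PrL chk L3614 := leafL c3614

theorem c3615 : lp7 (fun s => chk (ent L3615 s)) 0 = true := by decide +kernel
theorem p3615 : PrL chk L3615 := leafL c3615

theorem c3616 : lp7 (fun s => chk (ent L3616 s)) 0 = true := by decide +kernel
theorem p3616 : PrL chk L3616 := leafL c3616

theorem c3617 : lp7 (fun s => chk (ent L3617 s)) 0 = true := by decide +kernel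
theorem p3617 : PrL chk L3617 := leafL c3617

theorem c3618 : lp7 (fun s => chk (ent L3618 s)) 0 = true := by decide +kernel
theorem p3618 : PrL chk L3618 := leafL c3618

theorem c3619 : lp7 (fun s => chk (ent L3619 s)) 0 = true := by decide +kernel
theorem p3619 : PrL chk L3619 := leafL c3619

theorem c3620 : lp7 (fun s => chk (ent L3620 s)) 0 = true := by decide +kernel
theorem p3620 : PrL chk L3620 := leafL c3620

theorem c3621 : lp7 (fun s => chk (ent L3621 s)) 0 = true := by decide +kernel
theorem p3621 : PrL chk L3621 := leafL c3621

theorem c3622 : lp7 (fun s => chk (ent L3622 s)) 0 = true := by decide +kernel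
theorem p3622 : PrL chk L3622 := leafL c3622

theorem c3623 : lp7 (fun s => chk (ent L3623 s)) 0 = true := by decide +kernel
theorem p3623 : PrL chk L3623 := leafL c3623

theorem c3624 : lp7 (fun s => chk (ent L3624 s)) 0 = true := by decide +kernel
theorem p3624 : PrL chk L3624 := leafL c3624

theorem c3625 : lp7 (fun s => chk (ent L3625 s)) 0 = true := by decide +kernel
theorem p3625 : PrL chk L3625 := leafL c3625

theorem c3626 : lp7 (fun s => chk (ent L3626 s)) 0 = true := by decide +kernel
theorem p3626 : PrL chk L3626 := leafL c3626

theorem c3627 : lp7 (fun s => chk (ent L3627 s)) 0 = true := by decide +kernel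
theorem p3627 : PrL chk L3627 := leafL c3627

theorem c3628 : lp7 (fun s => chk (ent L3628 s)) 0 = true := by decide +kernel
theorem p3628 : PrL chk L3628 := leafL c3628

theorem c3629 : lp7 (fun s => chk (ent L3629 s)) 0 = true := by decide +kernel
theorem p3629 : PrL chk L3629 := leafL c3629

theorem c3630 : lp7 (fun s => chk (ent L3630 s)) 0 = true := by decide +kernel
theorem p3630 : PrL chk L3630 := leafL c3630

theorem c3631 : lp7 (fun s => chk (ent L3631 s)) 0 = true := by decide +kernel
theorem p3631 : PrL chk L3631 := leafL c3631

theorem c3632 : lp7 (fun s => chk (ent L3632 s)) 0 = true := by decide +kernel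
theorem p3632 : PrL chk L3632 := leafL c3632

theorem c3633 : lp7 (fun s => chk (ent L3633 s)) 0 = true := by decide +kernel
theorem p3633 : PrL chk L3633 := leafL c3633

theorem c3634 : lp7 (fun s => chk (ent L3634 s)) 0 = true := by decide +kernel
theorem p3634 : PrL chk L3634 := leafL c3634

theorem c3635 : lp7 (fun s => chk (ent L3635 s)) 0 = true := by decide +kernel
theorem p3635 : PrL chk L3635 := leafL c3635

theorem c3636 : lp7 (fun s => chk (ent L3636 s)) 0 = true := by decide +kernel
theorem p3636 : PrL chk L3636 := leafL c3636

theorem c3637 : lp7 (fun s => chk (ent L3637 s)) 0 = true := by decide +kernel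
theorem p3637 : PrL chk L3637 := leafL c3637

theorem c3638 : lp7 (fun s => chk (ent L3638 s)) 0 = true := by decide +kernel
theorem p3638 : PrL chk L3638 := leafL c3638

theorem c3639 : lp7 (fun s => chk (ent L3639 s)) 0 = true := by decide +kernel
theorem p3639 : PrL chk L3639 := leafL c3639

theorem c3640 : lp7 (fun s => chk (ent L3640 s)) 0 = true := by decide +kernel
theorem p3640 : PrL chk L3640 := leafL c3640

theorem c3641 : lp7 (fun s => chk (ent L3641 s)) 0 = true := by decide +kernel
theorem p3641 : PrL chk L3641 := leafL c3641

theorem c3642 : lp7 (fun s => chk (ent L3642 s)) 0 = true := by decide +kernel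
theorem p3642 : PrL chk L3642 := leafL c3642

theorem c3643 : lp7 (fun s => chk (ent L3643 s)) 0 = true := by decide +kernel
theorem p3643 : PrL chk L3643 := leafL c3643

theorem c3644 : lp7 (fun s => chk (ent L3644 s)) 0 = true := by decide +kernel
theorem p3644 : PrL chk L3644 := leafL c3644

theorem c3645 : lp7 (fun s => chk (ent L3645 s)) 0 = true := by decide +kernel
theorem p3645 : PrL chk L3645 := leafL c3645

theorem c3646 : lp7 (fun s => chk (ent L3646 s)) 0 = true := by decide +kernel
theorem p3646 : PrL chk L3646 := leafL c3646

theorem c3647 : lp7 (fun s => chk (ent L3647 s)) 0 = true := by decide +kernel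
theorem p3647 : PrL chk L3647 := leafL c3647

theorem c3648 : lp7 (fun s => chk (ent L3648 s)) 0 = true := by decide +kernel
theorem p3648 : PrL chk L3648 := leafL c3648

theorem c3649 : lp7 (fun s => chk (ent L3649 s)) 0 = true := by decide +kernel
theorem p3649 : PrL chk L3649 := leafL c3649

theorem c3650 : lp7 (fun s => chk (ent L3650 s)) 0 = true := by decide +kernel
theorem p3650 : PrL chk L3650 := leafL c3650

theorem c3651 : lp7 (fun s => chk (ent L3651 s)) 0 = true := by decide +kernel
theorem p3651 : PrL chk L3651 := leafL c3651

theorem c3652 : lp7 (fun s => chk (ent L3652 s)) 0 = true := by decide +kernel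
theorem p3652 : PrL chk L3652 := leafL c3652

theorem c3653 : lp7 (fun s => chk (ent L3653 s)) 0 = true := by decide +kernel
theorem p3653 : PrL chk L3653 := leafL c3653

theorem c3654 : lp7 (fun s => chk (ent L3654 s)) 0 = true := by decide +kernel
theorem p3654 : PrL chk L3654 := leafL c3654

theorem c3655 : lp7 (fun s => chk (ent L3655 s)) 0 = true := by decide +kernel
theorem p3655 : PrL chk L3655 := leafL c3655

theorem c3656 : lp7 (fun s => chk (ent L3656 s)) 0 = true := by decide +kernel
theorem p3656 : PrL chk L3656 := leafL c3656

theorem c3657 : lp7 (fun s => chk (ent L3657 s)) 0 = true := by decide +kernel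
theorem p3657 : PrL chk L3657 := leafL c3657

theorem c3658 : lp7 (fun s => chk (ent L3658 s)) 0 = true := by decide +kernel
theorem p3658 : PrL chk L3658 := leafL c3658

theorem c3659 : lp7 (fun s => chk (ent L3659 s)) 0 = true := by decide +kernel
theorem p3659 : PrL chk L3659 := leafL c3659

theorem c3660 : lp7 (fun s => chk (ent L3660 s)) 0 = true := by decide +kernel
theorem p3660 : PrL chk L3660 := leafL c3660

theorem c3661 : lp7 (fun s => chk (ent L3661 s)) 0 = true := by decide +kernel
theorem p3661 : PrL chk L3661 := leafL c3661

theorem c3662 : lp7 (fun s => chk (ent L3662 s)) 0 = true := by decide +kernel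
theorem p3662 : PrL chk L3662 := leafL c3662

theorem c3663 : lp7 (fun s => chk (ent L3663 s)) 0 = true := by decide +kernel
theorem p3663 : PrL chk L3663 := leafL c3663

theorem c3664 : lp7 (fun s => chk (ent L3664 s)) 0 = true := by decide +kernel
theorem p3664 : PrL chk L3664 := leafL c3664

theorem c3665 : lp7 (fun s => chk (ent L3665 s)) 0 = true := by decide +kernel
theorem p3665 : PrL chk L3665 := leafL c3665

theorem c3666 : lp7 (fun s => chk (ent L3666 s)) 0 = true := by decide +kernel
theorem p3666 : PrL chk L3666 := leafL c3666

theorem c3667 : lp7 (fun s => chk (ent L3667 s)) 0 = true := by decide +kernel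
theorem p3667 : PrL chk L3667 := leafL c3667

theorem c3668 : lp7 (fun s => chk (ent L3668 s)) 0 = true := by decide +kernel
theorem p3668 : PrL chk L3668 := leafL c3668

theorem c3669 : lp7 (fun s => chk (ent L3669 s)) 0 = true := by decide +kernel
theorem p3669 : PrL chk L3669 := leafL c3669

theorem c3670 : lp7 (fun s => chk (ent L3670 s)) 0 = true := by decide +kernel
theorem p3670 : PrL chk L3670 := leafL c3670

theorem c3671 : lp7 (fun s => chk (ent L3671 s)) 0 = true := by decide +kernel
theorem p3671 : PrL chk L3671 := leafL c3671

theorem c3672 : lp7 (fun s => chk (ent L3672 s)) 0 = true := by decide +kernel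
theorem p3672 : PrL chk L3672 := leafL c3672

theorem c3673 : lp7 (fun s => chk (ent L3673 s)) 0 = true := by decide +kernel
theorem p3673 : PrL chk L3673 := leafL c3673

theorem c3674 : lp7 (fun s => chk (ent L3674 s)) 0 = true := by decide +kernel
theorem p3674 : PrL chk L3674 := leafL c3674

theorem c3675 : lp7 (fun s => chk (ent L3675 s)) 0 = true := by decide +kernel
theorem p3675 : PrL chk L3675 := leafL c3675

theorem c3676 : lp7 (fun s => chk (ent L3676 s)) 0 = true := by decide +kernel
theorem p3676 : PrL chk L3676 := leafL c3676

theorem c3677 : lp7 (fun s => chk (ent L3677 s)) 0 = true := by decide +kernel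
theorem p3677 : PrL chk L3677 := leafL c3677

theorem c3678 : lp7 (fun s => chk (ent L3678 s)) 0 = true := by decide +kernel
theorem p3678 : PrL chk L3678 := leafL c3678

theorem c3679 : lp7 (fun s => chk (ent L3679 s)) 0 = true := by decide +kernel
theorem p3679 : PrL chk L3679 := leafL c3679

theorem c3680 : lp7 (fun s => chk (ent L3680 s)) 0 = true := by decide +kernel
theorem p3680 : PrL chk L3680 := leafL c3680

theorem c3681 : lp7 (fun s => chk (ent L3681 s)) 0 = true := by decide +kernel
theorem p3681 : PrL chk L3681 := leafL c3681

theorem c3682 : lp7 (fun s => chk (ent L3682 s)) 0 = true := by decide +kernel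
theorem p3682 : PrL chk L3682 := leafL c3682

theorem c3683 : lp7 (fun s => chk (ent L3683 s)) 0 = true := by decide +kernel
theorem p3683 : PrL chk L3683 := leafL c3683

theorem c3684 : lp7 (fun s => chk (ent L3684 s)) 0 = true := by decide +kernel
theorem p3684 : PrL chk L3684 := leafL c3684

theorem c3685 : lp7 (fun s => chk (ent L3685 s)) 0 = true := by decide +kernel
theorem p3685 : PrL chk L3685 := leafL c3685

theorem c3686 : lp7 (fun s => chk (ent L3686 s)) 0 = true := by decide +kernel
theorem p3686 : PrL chk L3686 := leafL c3686

theorem c3687 : lp7 (fun s => chk (ent L3687 s)) 0 = true := by decide +kernel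
theorem p3687 : PrL chk L3687 := leafL c3687

theorem c3688 : lp7 (fun s => chk (ent L3688 s)) 0 = true := by decide +kernel
theorem p3688 : PrL chk L3688 := leafL c3688

theorem c3689 : lp7 (fun s => chk (ent L3689 s)) 0 = true := by decide +kernel
theorem p3689 : PrL chk L3689 := leafL c3689

theorem c3690 : lp7 (fun s => chk (ent L3690 s)) 0 = true := by decide +kernel
theorem p3690 : PrL chk L3690 := leafL c3690

theorem c3691 : lp7 (fun s => chk (ent L3691 s)) 0 = true := by decide +kernel
theorem p3691 : PrL chk L3691 := leafL c3691

theorem c3692 : lp7 (fun s => chk (ent L3692 s)) 0 = true := by decide +kernel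
theorem p3692 : PrL chk L3692 := leafL c3692

theorem c3693 : lp7 (fun s => chk (ent L3693 s)) 0 = true := by decide +kernel
theorem p3693 : PrL chk L3693 := leafL c3693

theorem c3694 : lp7 (fun s => chk (ent L3694 s)) 0 = true := by decide +kernel
theorem p3694 : PrL chk L3694 := leafL c3694

theorem c3695 : lp7 (fun s => chk (ent L3695 s)) 0 = true := by decide +kernel
theorem p3695 : PrL chk L3695 := leafL c3695

theorem c3696 : lp7 (fun s => chk (ent L3696 s)) 0 = true := by decide +kernel
theorem p3696 : PrL chk L3696 := leafL c3696

theorem c3697 : lp7 (fun s => chk (ent L3697 s)) 0 = true := by decide +kernel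
theorem p3697 : PrL chk L3697 := leafL c3697

theorem c3698 : lp7 (fun s => chk (ent L3698 s)) 0 = true := by decide +kernel
theorem p3698 : PrL chk L3698 := leafL c3698

theorem c3699 : lp7 (fun s => chk (ent L3699 s)) 0 = true := by decide +kernel
theorem p3699 : PrL chk L3699 := leafL c3699

theorem c3700 : lp7 (fun s => chk (ent L3700 s)) 0 = true := by decide +kernel
theorem p3700 : PrL chk L3700 := leafL c3700

theorem c3701 : lp7 (fun s => chk (ent L3701 s)) 0 = true := by decide +kernel
theorem p3701 : PrL chk L3701 := leafL c3701

theorem c3702 : lp7 (fun s => chk (ent L3702 s)) 0 = true := by decide +kernel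
theorem p3702 : PrL chk L3702 := leafL c3702

theorem c3703 : lp7 (fun s => chk (ent L3703 s)) 0 = true := by decide +kernel
theorem p3703 : PrL chk L3703 := leafL c3703

theorem c3704 : lp7 (fun s => chk (ent L3704 s)) 0 = true := by decide +kernel
theorem p3704 : PrL chk L3704 := leafL c3704

theorem c3705 : lp7 (fun s => chk (ent L3705 s)) 0 = true := by decide +kernel
theorem p3705 : PrL chk L3705 := leafL c3705

theorem c3706 : lp7 (fun s => chk (ent L3706 s)) 0 = true := by decide +kernel
theorem p3706 : PrL chk L3706 := leafL c3706

theorem c3707 : lp7 (fun s => chk (ent L3707 s)) 0 = true := by decide +kernel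
theorem p3707 : PrL chk L3707 := leafL c3707

theorem c3708 : lp7 (fun s => chk (ent L3708 s)) 0 = true := by decide +kernel
theorem p3708 : PrL chk L3708 := leafL c3708

theorem c3709 : lp7 (fun s => chk (ent L3709 s)) 0 = true := by decide +kernel
theorem p3709 : PrL chk L3709 := leafL c3709

theorem c3710 : lp7 (fun s => chk (ent L3710 s)) 0 = true := by decide +kernel
theorem p3710 : PrL chk L3710 := leafL c3710

theorem c3711 : lp7 (fun s => chk (ent L3711 s)) 0 = true := by decide +kernel
theorem p3711 : PrL chk L3711 := leafL c3711

theorem c3712 : lp7 (fun s => chk (ent L3712 s)) 0 = true := by decide +kernel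
theorem p3712 : PrL chk L3712 := leafL c3712

theorem c3713 : lp7 (fun s => chk (ent L3713 s)) 0 = true := by decide +kernel
theorem p3713 : PrL chk L3713 := leafL c3713

theorem c3714 : lp7 (fun s => chk (ent L3714 s)) 0 = true := by decide +kernel
theorem p3714 : PrL chk L3714 := leafL c3714

theorem c3715 : lp7 (fun s => chk (ent L3715 s)) 0 = true := by decide +kernel
theorem p3715 : PrL chk L3715 := leafL c3715

theorem c3716 : lp7 (fun s => chk (ent L3716 s)) 0 = true := by decide +kernel
theorem p3716 : PrL chk L3716 := leafL c3716

theorem c3717 : lp7 (fun s => chk (ent L3717 s)) 0 = true := by decide +kernel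
theorem p3717 : PrL chk L3717 := leafL c3717

theorem c3718 : lp7 (fun s => chk (ent L3718 s)) 0 = true := by decide +kernel
theorem p3718 : PrL chk L3718 := leafL c3718

theorem c3719 : lp7 (fun s => chk (ent L3719 s)) 0 = true := by decide +kernel
theorem p3719 : PrL chk L3719 := leafL c3719

theorem c3720 : lp7 (fun s => chk (ent L3720 s)) 0 = true := by decide +kernel
theorem p3720 : PrL chk L3720 := leafL c3720

theorem c3721 : lp7 (fun s => chk (ent L3721 s)) 0 = true := by decide +kernel
theorem p3721 : PrL chk L3721 := leafL c3721

theorem c3722 : lp7 (fun s => chk (ent L3722 s)) 0 = true := by decide +kernel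
theorem p3722 : PrL chk L3722 := leafL c3722

theorem c3723 : lp7 (fun s => chk (ent L3723 s)) 0 = true := by decide +kernel
theorem p3723 : PrL chk L3723 := leafL c3723

theorem c3724 : lp7 (fun s => chk (ent L3724 s)) 0 = true := by decide +kernel
theorem p3724 : PrL chk L3724 := leafL c3724

theorem c3725 : lp7 (fun s => chk (ent L3725 s)) 0 = true := by decide +kernel
theorem p3725 : PrL chk L3725 := leafL c3725

theorem c3726 : lp7 (fun s => chk (ent L3726 s)) 0 = true := by decide +kernel
theorem p3726 : PrL chk L3726 := leafL c3726

theorem c3727 : lp7 (fun s => chk (ent L3727 s)) 0 = true := by decide +kernel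
theorem p3727 : PrL chk L3727 := leafL c3727

theorem c3728 : lp7 (fun s => chk (ent L3728 s)) 0 = true := by decide +kernel
theorem p3728 : PrL chk L3728 := leafL c3728

theorem c3729 : lp7 (fun s => chk (ent L3729 s)) 0 = true := by decide +kernel
theorem p3729 : PrL chk L3729 := leafL c3729

theorem c3730 : lp7 (fun s => chk (ent L3730 s)) 0 = true := by decide +kernel
theorem p3730 : PrL chk L3730 := leafL c3730

theorem c3731 : lp7 (fun s => chk (ent L3731 s)) 0 = true := by decide +kernel
theorem p3731 : PrL chk L3731 := leafL c3731

theorem c3732 : lp7 (fun s => chk (ent L3732 s)) 0 = true := by decide +kernel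
theorem p3732 : PrL chk L3732 := leafL c3732

theorem c3733 : lp7 (fun s => chk (ent L3733 s)) 0 = true := by decide +kernel
theorem p3733 : PrL chk L3733 := leafL c3733

theorem c3734 : lp7 (fun s => chk (ent L3734 s)) 0 = true := by decide +kernel
theorem p3734 : PrL chk L3734 := leafL c3734

theorem c3735 : lp7 (fun s => chk (ent L3735 s)) 0 = true := by decide +kernel
theorem p3735 : PrL chk L3735 := leafL c3735

theorem c3736 : lp7 (fun s => chk (ent L3736 s)) 0 = true := by decide +kernel
theorem p3736 : PrL chk L3736 := leafL c3736

theorem c3737 : lp7 (fun s => chk (ent L3737 s)) 0 = true := by decide +kernel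
theorem p3737 : PrL chk L3737 := leafL c3737

theorem c3738 : lp7 (fun s => chk (ent L3738 s)) 0 = true := by decide +kernel
theorem p3738 : PrL chk L3738 := leafL c3738

theorem c3739 : lp7 (fun s => chk (ent L3739 s)) 0 = true := by decide +kernel
theorem p3739 : PrL chk L3739 := leafL c3739

theorem c3740 : lp7 (fun s => chk (ent L3740 s)) 0 = true := by decide +kernel
theorem p3740 : PrL chk L3740 := leafL c3740

theorem c3741 : lp7 (fun s => chk (ent L3741 s)) 0 = true := by decide +kernel
theorem p3741 : PrL chk L3741 := leafL c3741

theorem c3742 : lp7 (fun s => chk (ent L3742 s)) 0 = true := by decide +kernel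
theorem p3742 : PrL chk L3742 := leafL c3742

theorem c3743 : lp7 (fun s => chk (ent L3743 s)) 0 = true := by decide +kernel
theorem p3743 : PrL chk L3743 := leafL c3743

theorem c3744 : lp7 (fun s => chk (ent L3744 s)) 0 = true := by decide +kernel
theorem p3744 : PrL chk L3744 := leafL c3744

theorem c3745 : lp7 (fun s => chk (ent L3745 s)) 0 = true := by decide +kernel
theorem p3745 : PrL chk L3745 := leafL c3745

theorem c3746 : lp7 (fun s => chk (ent L3746 s)) 0 = true := by decide +kernel
theorem p3746 : PrL chk L3746 := leafL c3746

theorem c3747 : lp7 (fun s => chk (ent L3747 s)) 0 = true := by decide +kernel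
theorem p3747 : PrL chk L3747 := leafL c3747

theorem c3748 : lp7 (fun s => chk (ent L3748 s)) 0 = true := by decide +kernel
theorem p3748 : PrL chk L3748 := leafL c3748

theorem c3749 : lp7 (fun s => chk (ent L3749 s)) 0 = true := by decide +kernel
theorem p3749 : PrL chk L3749 := leafL c3749

theorem c3750 : lp7 (fun s => chk (ent L3750 s)) 0 = true := by decide +kernel
theorem p3750 : PrL chk L3750 := leafL c3750

theorem c3751 : lp7 (fun s => chk (ent L3751 s)) 0 = true := by decide +kernel
theorem p3751 : PrL chk L3751 := leafL c3751

theorem c3752 : lp7 (fun s => chk (ent L3752 s)) 0 = true := by decide +kernel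
theorem p3752 : PrL chk L3752 := leafL c3752

theorem c3753 : lp7 (fun s => chk (ent L3753 s)) 0 = true := by decide +kernel
theorem p3753 : PrL chk L3753 := leafL c3753

theorem c3754 : lp7 (fun s => chk (ent L3754 s)) 0 = true := by decide +kernel
theorem p3754 : PrL chk L3754 := leafL c3754

theorem c3755 : lp7 (fun s => chk (ent L3755 s)) 0 = true := by decide +kernel
theorem p3755 : PrL chk L3755 := leafL c3755

theorem c3756 : lp7 (fun s => chk (ent L3756 s)) 0 = true := by decide +kernel
theorem p3756 : PrL chk L3756 := leafL c3756

theorem c3757 : lp7 (fun s => chk (ent L3757 s)) 0 = true := by decide +kernel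
theorem p3757 : PrL chk L3757 := leafL c3757

theorem c3758 : lp7 (fun s => chk (ent L3758 s)) 0 = true := by decide +kernel
theorem p3758 : PrL chk L3758 := leafL c3758

theorem c3759 : lp7 (fun s => chk (ent L3759 s)) 0 = true := by decide +kernel
theorem p3759 : PrL chk L3759 := leafL c3759

theorem c3760 : lp7 (fun s => chk (ent L3760 s)) 0 = true := by decide +kernel
theorem p3760 : PrL chk L3760 := leafL c3760

theorem c3761 : lp7 (fun s => chk (ent L3761 s)) 0 = true := by decide +kernel
theorem p3761 : PrL chk L3761 := leafL c3761

theorem c3762 : lp7 (fun s => chk (ent L3762 s)) 0 = true := by decide +kernel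
theorem p3762 : PrL chk L3762 := leafL c3762

theorem c3763 : lp7 (fun s => chk (ent L3763 s)) 0 = true := by decide +kernel
theorem p3763 : PrL chk L3763 := leafL c3763

theorem c3764 : lp7 (fun s => chk (ent L3764 s)) 0 = true := by decide +kernel
theorem p3764 : PrL chk L3764 := leafL c3764

theorem c3765 : lp7 (fun s => chk (ent L3765 s)) 0 = true := by decide +kernel
theorem p3765 : PrL chk L3765 := leafL c3765

theorem c3766 : lp7 (fun s => chk (ent L3766 s)) 0 = true := by decide +kernel
theorem p3766 : PrL chk L3766 := leafL c3766

theorem c3767 : lp7 (fun s => chk (ent L3767 s)) 0 = true := by decide +kernel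
theorem p3767 : PrL chk L3767 := leafL c3767

theorem c3768 : lp7 (fun s => chk (ent L3768 s)) 0 = true := by decide +kernel
theorem p3768 : PrL chk L3768 := leafL c3768

theorem c3769 : lp7 (fun s => chk (ent L3769 s)) 0 = true := by decide +kernel
theorem p3769 : PrL chk L3769 := leafL c3769

theorem c3770 : lp7 (fun s => chk (ent L3770 s)) 0 = true := by decide +kernel
theorem p3770 : PrL chk L3770 := leafL c3770

theorem c3771 : lp7 (fun s => chk (ent L3771 s)) 0 = true := by decide +kernel
theorem p3771 : PrL chk L3771 := leafL c3771

theorem c3772 : lp7 (fun s => chk (ent L3772 s)) 0 = true := by decide +kernel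
theorem p3772 : PrL chk L3772 := leafL c3772

theorem c3773 : lp7 (fun s => chk (ent L3773 s)) 0 = true := by decide +kernel
theorem p3773 : PrL chk L3773 := leafL c3773

theorem c3774 : lp7 (fun s => chk (ent L3774 s)) 0 = true := by decide +kernel
theorem p3774 : PrL chk L3774 := leafL c3774

theorem c3775 : lp7 (fun s => chk (ent L3775 s)) 0 = true := by decide +kernel
theorem p3775 : PrL chk L3775 := leafL c3775

theorem c3776 : lp7 (fun s => chk (ent L3776 s)) 0 = true := by decide +kernel
theorem p3776 : PrL chk L3776 := leafL c3776

theorem c3777 : lp7 (fun s => chk (ent L3777 s)) 0 = true := by decide +kernel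
theorem p3777 : PrL chk L3777 := leafL c3777

theorem c3778 : lp7 (fun s => chk (ent L3778 s)) 0 = true := by decide +kernel
theorem p3778 : PrL chk L3778 := leafL c3778

theorem c3779 : lp7 (fun s => chk (ent L3779 s)) 0 = true := by decide +kernel
theorem p3779 : PrL chk L3779 := leafL c3779

theorem c3780 : lp7 (fun s => chk (ent L3780 s)) 0 = true := by decide +kernel
theorem p3780 : PrL chk L3780 := leafL c3780

theorem c3781 : lp7 (fun s => chk (ent L3781 s)) 0 = true := by decide +kernel
theorem p3781 : PrL chk L3781 := leafL c3781

theorem c3782 : lp7 (fun s => chk (ent L3782 s)) 0 = true := by decide +kernel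
theorem p3782 : PrL chk L3782 := leafL c3782

theorem c3783 : lp7 (fun s => chk (ent L3783 s)) 0 = true := by decide +kernel
theorem p3783 : PrL chk L3783 := leafL c3783

theorem c3784 : lp7 (fun s => chk (ent L3784 s)) 0 = true := by decide +kernel
theorem p3784 : PrL chk L3784 := leafL c3784

theorem c3785 : lp7 (fun s => chk (ent L3785 s)) 0 = true := by decide +kernel
theorem p3785 : PrL chk L3785 := leafL c3785

theorem c3786 : lp7 (fun s => chk (ent L3786 s)) 0 = true := by decide +kernel
theorem p3786 : PrL chk L3786 := leafL c3786

theorem c3787 : lp7 (fun s => chk (ent L3787 s)) 0 = true := by decide +kernel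
theorem p3787 : PrL chk L3787 := leafL c3787

theorem c3788 : lp7 (fun s => chk (ent L3788 s)) 0 = true := by decide +kernel
theorem p3788 : PrL chk L3788 := leafL c3788

theorem c3789 : lp7 (fun s => chk (ent L3789 s)) 0 = true := by decide +kernel
theorem p3789 : PrL chk L3789 := leafL c3789

theorem c3790 : lp7 (fun s => chk (ent L3790 s)) 0 = true := by decide +kernel
theorem p3790 : PrL chk L3790 := leafL c3790

theorem c3791 : lp7 (fun s => chk (ent L3791 s)) 0 = true := by decide +kernel
theorem p3791 : PrL chk L3791 := leafL c3791

theorem c3792 : lp7 (fun s => chk (ent L3792 s)) 0 = true := by decide +kernel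
theorem p3792 : PrL chk L3792 := leafL c3792

theorem c3793 : lp7 (fun s => chk (ent L3793 s)) 0 = true := by decide +kernel
theorem p3793 : PrL chk L3793 := leafL c3793

theorem c3794 : lp7 (fun s => chk (ent L3794 s)) 0 = true := by decide +kernel
theorem p3794 : PrL chk L3794 := leafL c3794

theorem c3795 : lp7 (fun s => chk (ent L3795 s)) 0 = true := by decide +kernel
theorem p3795 : PrL chk L3795 := leafL c3795

theorem c3796 : lp7 (fun s => chk (ent L3796 s)) 0 = true := by decide +kernel
theorem p3796 : PrL chk L3796 := leafL c3796

theorem c3797 : lp7 (fun s => chk (ent L3797 s)) 0 = true := by decide +kernel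
theorem p3797 : PrL chk L3797 := leafL c3797

theorem c3798 : lp7 (fun s => chk (ent L3798 s)) 0 = true := by decide +kernel
theorem p3798 : PrL chk L3798 := leafL c3798

theorem c3799 : lp7 (fun s => chk (ent L3799 s)) 0 = true := by decide +kernel
theorem p3799 : PrL chk L3799 := leafL c3799

theorem c3800 : lp7 (fun s => chk (ent L3800 s)) 0 = true := by decide +kernel
theorem p3800 : PrL chk L3800 := leafL c3800

theorem c3801 : lp7 (fun s => chk (ent L3801 s)) 0 = true := by decide +kernel
theorem p3801 : PrL chk L3801 := leafL c3801

theorem c3802 : lp7 (fun s => chk (ent L3802 s)) 0 = true := by decide +kernel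
theorem p3802 : PrL chk L3802 := leafL c3802

theorem c3803 : lp7 (fun s => chk (ent L3803 s)) 0 = true := by decide +kernel
theorem p3803 : PrL chk L3803 := leafL c3803

theorem c3804 : lp7 (fun s => chk (ent L3804 s)) 0 = true := by decide +kernel
theorem p3804 : PrL chk L3804 := leafL c3804

theorem c3805 : lp7 (fun s => chk (ent L3805 s)) 0 = true := by decide +kernel
theorem p3805 : PrL chk L3805 := leafL c3805

theorem c3806 : lp7 (fun s => chk (ent L3806 s)) 0 = true := by decide +kernel
theorem p3806 : PrL chk L3806 := leafL c3806

theorem c3807 : lp7 (fun s => chk (ent L3807 s)) 0 = true := by decide +kernel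
theorem p3807 : PrL chk L3807 := leafL c3807

theorem c3808 : lp7 (fun s => chk (ent L3808 s)) 0 = true := by decide +kernel
theorem p3808 : PrL chk L3808 := leafL c3808

theorem c3809 : lp7 (fun s => chk (ent L3809 s)) 0 = true := by decide +kernel
theorem p3809 : PrL chk L3809 := leafL c3809

theorem c3810 : lp7 (fun s => chk (ent L3810 s)) 0 = true := by decide +kernel
theorem p3810 : PrL chk L3810 := leafL c3810

theorem c3811 : lp7 (fun s => chk (ent L3811 s)) 0 = true := by decide +kernel
theorem p3811 : PrL chk L3811 := leafL c3811

theorem c3812 : lp7 (fun s => chk (ent L3812 s)) 0 = true := by decide +kernel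
theorem p3812 : PrL chk L3812 := leafL c3812

theorem c3813 : lp7 (fun s => chk (ent L3813 s)) 0 = true := by decide +kernel
theorem p3813 : PrL chk L3813 := leafL c3813

theorem c3814 : lp7 (fun s => chk (ent L3814 s)) 0 = true := by decide +kernel
theorem p3814 : PrL chk L3814 := leafL c3814

theorem c3815 : lp7 (fun s => chk (ent L3815 s)) 0 = true := by decide +kernel
theorem p3815 : PrL chk L3815 := leafL c3815

theorem c3816 : lp7 (fun s => chk (ent L3816 s)) 0 = true := by decide +kernel
theorem p3816 : PrL chk L3816 := leafL c3816

theorem c3817 : lp7 (fun s => chk (ent L3817 s)) 0 = true := by decide +kernel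
theorem p3817 : PrL chk L3817 := leafL c3817

theorem c3818 : lp7 (fun s => chk (ent L3818 s)) 0 = true := by decide +kernel
theorem p3818 : PrL chk L3818 := leafL c3818

theorem c3819 : lp7 (fun s => chk (ent L3819 s)) 0 = true := by decide +kernel
theorem p3819 : PrL chk L3819 := leafL c3819

theorem c3820 : lp7 (fun s => chk (ent L3820 s)) 0 = true := by decide +kernel
theorem p3820 : PrL chk L3820 := leafL c3820

theorem c3821 : lp7 (fun s => chk (ent L3821 s)) 0 = true := by decide +kernel
theorem p3821 : PrL chk L3821 := leafL c3821

theorem c3822 : lp7 (fun s => chk (ent L3822 s)) 0 = true := by decide +kernel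
theorem p3822 : PrL chk L3822 := leafL c3822

theorem c3823 : lp7 (fun s => chk (ent L3823 s)) 0 = true := by decide +kernel
theorem p3823 : PrL chk L3823 := leafL c3823

theorem c3824 : lp7 (fun s => chk (ent L3824 s)) 0 = true := by decide +kernel
theorem p3824 : PrL chk L3824 := leafL c3824

theorem c3825 : lp7 (fun s => chk (ent L3825 s)) 0 = true := by decide +kernel
theorem p3825 : PrL chk L3825 := leafL c3825

theorem c3826 : lp7 (fun s => chk (ent L3826 s)) 0 = true := by decide +kernel
theorem p3826 : PrL chk L3826 := leafL c3826

theorem c3827 : lp7 (fun s => chk (ent L3827 s)) 0 = true := by decide +kernel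
theorem p3827 : PrL chk L3827 := leafL c3827

theorem c3828 : lp7 (fun s => chk (ent L3828 s)) 0 = true := by decide +kernel
theorem p3828 : PrL chk L3828 := leafL c3828

theorem c3829 : lp7 (fun s => chk (ent L3829 s)) 0 = true := by decide +kernel
theorem p3829 : PrL chk L3829 := leafL c3829

theorem c3830 : lp7 (fun s => chk (ent L3830 s)) 0 = true := by decide +kernel
theorem p3830 : PrL chk L3830 := leafL c3830

theorem c3831 : lp7 (fun s => chk (ent L3831 s)) 0 = true := by decide +kernel
theorem p3831 : PrL chk L3831 := leafL c3831

theorem c3832 : lp7 (fun s => chk (ent L3832 s)) 0 = true := by decide +kernel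
theorem p3832 : PrL chk L3832 := leafL c3832

theorem c3833 : lp7 (fun s => chk (ent L3833 s)) 0 = true := by decide +kernel
theorem p3833 : PrL chk L3833 := leafL c3833

theorem c3834 : lp7 (fun s => chk (ent L3834 s)) 0 = true := by decide +kernel
theorem p3834 : PrL chk L3834 := leafL c3834

theorem c3835 : lp7 (fun s => chk (ent L3835 s)) 0 = true := by decide +kernel
theorem p3835 : PrL chk L3835 := leafL c3835

theorem c3836 : lp7 (fun s => chk (ent L3836 s)) 0 = true := by decide +kernel
theorem p3836 : PrL chk L3836 := leafL c3836

theorem c3837 : lp7 (fun s => chk (ent L3837 s)) 0 = true := by decide +kernel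
theorem p3837 : PrL chk L3837 := leafL c3837

theorem c3838 : lp7 (fun s => chk (ent L3838 s)) 0 = true := by decide +kernel
theorem p3838 : PrL chk L3838 := leafL c3838

theorem c3839 : lp7 (fun s => chk (ent L3839 s)) 0 = true := by decide +kernel
theorem p3839 : PrL chk L3839 := leafL c3839

end Pool.Agent.ad013a.LA
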