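import Pool.Agent.H.MP_ad013a_pr.h63l.A.T
import Pool.Agent.H.MP_ad013a_pr.h63w.VLoop

namespace Pool.Agent.ad013a.LA

theorem c3840 : lp7 (fun s => chk (ent L3840 s)) 0 = true := by decide +kernel
theorem p3840 : PrL chk L3840 := leafL c3840

theorem c3841 : lp7 (fun s => chk (ent L3841 s)) 0 = true := by decide +kernel
theorem p3841 : PrL chk L3841 := leafL c3841

theorem c3842 : lp7 (fun s => chk (ent L3842 s)) 0 = true := by decide +kernel
theorem p3842 : PrL chk L3842 := leafL c3842

theorem c3843 : lp7 (fun s => chk (ent L3843 s)) 0 = true := by decide +kernel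
theorem p3843 : PrL chk L3843 := leafL c3843

theorem c3844 : lp7 (fun s => chk (ent L3844 s)) 0 = true := by decide +kernel
theorem p3844 : PrL chk L3844 := leafL c3844

theorem c3845 : lp7 (fun s => chk (ent L3845 s)) 0 = true := by decide +kernel
theorem p3845 : PrL chk L3845 := leafL c3845

theorem c3846 : lp7 (fun s => chk (ent L3846 s)) 0 = true := by decide +kernel
theorem p3846 : PrL chk L3846 := leafL c3846

theorem c3847 : lp7 (fun s => chk (ent L3847 s)) 0 = true := by decide +kernel
theorem p3847 : PrL chk L3847 := leafL c3847

theorem c3848 : lp7 (fun s => chk (ent L3848 s)) 0 = true := by decide +kernel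
theorem p3848 : PrL chk L3848 := leafL c3848

theorem c3849 : lp7 (fun s => chk (ent L3849 s)) 0 = true := by decide +kernel
theorem p3849 : PrL chk L3849 := leafL c3849

theorem c3850 : lp7 (fun s => chk (ent L3850 s)) 0 = true := by decide +kernel
theorem p3850 : PrL chk L3850 := leafL c3850

theorem c3851 : lp7 (fun s => chk (ent L3851 s)) 0 = true := by decide +kernel
theorem p3851 : PrL chk L3851 := leafL c3851

theorem c3852 : lp7 (fun s => chk (ent L3852 s)) 0 = true := by decide +kernel
theorem p3852 : PrL chk L3852 := leafL c3852

theorem c3853 : lp7 (fun s => chk (ent L3853 s)) 0 = true := by decide +kernel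
theorem p3853 : PrL chk L3853 := leafL c3853

theorem c3854 : lp7 (fun s => chk (ent L3854 s)) 0 = true := by decide +kernel
theorem p3854 : PrL chk L3854 := leafL c3854

theorem c3855 : lp7 (fun s => chk (ent L3855 s)) 0 = true := by decide +kernel
theorem p3855 : PrL chk L3855 := leafL c3855

theorem c3856 : lp7 (fun s => chk (ent L3856 s)) 0 = true := by decide +kernel
theorem p3856 : PrL chk L3856 := leafL c3856

theorem c3857 : lp7 (fun s => chk (ent L3857 s)) 0 = true := by decide +kernel
theorem p3857 : PrL chk L3857 := leafL c3857

theorem c3858 : lp7 (fun s => chk (ent L3858 s)) 0 = true := by decide +kernel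
theorem p3858 : PrL chk L3858 := leafL c3858

theorem c3859 : lp7 (fun s => chk (ent L3859 s)) 0 = true := by decide +kernel
theorem p3859 : PrL chk L3859 := leafL c3859

theorem c3860 : lp7 (fun s => chk (ent L3860 s)) 0 = true := by decide +kernel
theorem p3860 : PrL chk L3860 := leafL c3860

theorem c3861 : lp7 (fun s => chk (ent L3861 s)) 0 = true := by decide +kernel
theorem p3861 : PrL chk L3861 := leafL c3861

theorem c3862 : lp7 (fun s => chk (ent L3862 s)) 0 = true := by decide +kernel
theorem p3862 : PrL chk L3862 := leafL c3862

theorem c3863 : lp7 (fun s => chk (ent L3863 s)) 0 = true := by decide +kernel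
theorem p3863 : PrL chk L3863 := leafL c3863

theorem c3864 : lp7 (fun s => chk (ent L3864 s)) 0 = true := by decide +kernel
theorem p3864 : PrL chk L3864 := leafL c3864

theorem c3865 : lp7 (fun s => chk (ent L3865 s)) 0 = true := by decide +kernel
theorem p3865 : PrL chk L3865 := leafL c3865

theorem c3866 : lp7 (fun s => chk (ent L3866 s)) 0 = true := by decide +kernel
theorem p3866 : PrL chk L3866 := leafL c3866

theorem c3867 : lp7 (fun s => chk (ent L3867 s)) 0 = true := by decide +kernel
theorem p3867 : PrL chk L3867 := leafL c3867

theorem c3868 : lp7 (fun s => chk (ent L3868 s)) 0 = true := by decide +kernel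
theorem p3868 : PrL chk L3868 := leafL c3868

theorem c3869 : lp7 (fun s => chk (ent L3869 s)) 0 = true := by decide +kernel
theorem p3869 : PrL chk L3869 := leafL c3869

theorem c3870 : lp7 (fun s => chk (ent L3870 s)) 0 = true := by decide +kernel
theorem p3870 : PrL chk L3870 := leafL c3870

theorem c3871 : lp7 (fun s => chk (ent L3871 s)) 0 = true := by decide +kernel
theorem p3871 : PrL chk L3871 := leafL c3871

theorem c3872 : lp7 (fun s => chk (ent L3872 s)) 0 = true := by decide +kernel
theorem p3872 : PrL chk L3872 := leafL c3872

theorem c3873 : lp7 (fun s => chk (ent L3873 s)) 0 = true := by decide +kernel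
theorem p3873 : PrL chk L3873 := leafL c3873

theorem c3874 : lp7 (fun s => chk (ent L3874 s)) 0 = true := by decide +kernel
theorem p3874 : PrL chk L3874 := leafL c3874

theorem c3875 : lp7 (fun s => chk (ent L3875 s)) 0 = true := by decide +kernel
theorem p3875 : PrL chk L3875 := leafL c3875

theorem c3876 : lp7 (fun s => chk (ent L3876 s)) 0 = true := by decide +kernel
theorem p3876 : PrL chk L3876 := leafL c3876

theorem c3877 : lp7 (fun s => chk (ent L3877 s)) 0 = true := by decide +kernel
theorem p3877 : PrL chk L3877 := leafL c3877

theorem c3878 : lp7 (fun s => chk (ent L3878 s)) 0 = true := by decide +kernel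
theorem p3878 : PrL chk L3878 := leafL c3878

theorem c3879 : lp7 (fun s => chk (ent L3879 s)) 0 = true := by decide +kernel
theorem p3879 : PrL chk L3879 := leafL c3879

theorem c3880 : lp7 (fun s => chk (ent L3880 s)) 0 = true := by decide +kernel
theorem p3880 : PrL chk L3880 := leafL c3880

theorem c3881 : lp7 (fun s => chk (ent L3881 s)) 0 = true := by decide +kernel
theorem p3881 : PrL chk L3881 := leafL c3881

theorem c3882 : lp7 (fun s => chk (ent L3882 s)) 0 = true := by decide +kernel
theorem p3882 : PrL chk L3882 := leafL c3882

theorem c3883 : lp7 (fun s => chk (ent L3883 s)) 0 = true := by decide +kernel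
theorem p3883 : PrL chk L3883 := leafL c3883

theorem c3884 : lp7 (fun s => chk (ent L3884 s)) 0 = true := by decide +kernel
theorem p3884 : PrL chk L3884 := leafL c3884

theorem c3885 : lp7 (fun s => chk (ent L3885 s)) 0 = true := by decide +kernel
theorem p3885 : PrL chk L3885 := leafL c3885

theorem c3886 : lp7 (fun s => chk (ent L3886 s)) 0 = true := by decide +kernel
theorem p3886 : PrL chk L3886 := leafL c3886

theorem c3887 : lp7 (fun s => chk (ent L3887 s)) 0 = true := by decide +kernel
theorem p3887 : PrL chk L3887 := leafL c3887

theorem c3888 : lp7 (fun s => chk (ent L3888 s)) 0 = true := by decide +kernel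
theorem p3888 : PrL chk L3888 := leafL c3888

theorem c3889 : lp7 (fun s => chk (ent L3889 s)) 0 = true := by decide +kernel
theorem p3889 : PrL chk L3889 := leafL c3889

theorem c3890 : lp7 (fun s => chk (ent L3890 s)) 0 = true := by decide +kernel
theorem p3890 : PrL chk L3890 := leafL c3890

theorem c3891 : lp7 (fun s => chk (ent L3891 s)) 0 = true := by decide +kernel
theorem p3891 : PrL chk L3891 := leafL c3891

theorem c3892 : lp7 (fun s => chk (ent L3892 s)) 0 = true := by decide +kernel
theorem p3892 : PrL chk L3892 := leafL c3892

theorem c3893 : lp7 (fun s => chk (ent L3893 s)) 0 = true := by decide +kernel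
theorem p3893 : PrL chk L3893 := leafL c3893

theorem c3894 : lp7 (fun s => chk (ent L3894 s)) 0 = true := by decide +kernel
theorem p3894 : PrL chk L3894 := leafL c3894

theorem c3895 : lp7 (fun s => chk (ent L3895 s)) 0 = true := by decide +kernel
theorem p3895 : PrL chk L3895 := leafL c3895

theorem c3896 : lp7 (fun s => chk (ent L3896 s)) 0 = true := by decide +kernel
theorem p3896 : PrL chk L3896 := leafL c3896

theorem c3897 : lp7 (fun s => chk (ent L3897 s)) 0 = true := by decide +kernel
theorem p3897 : PrL chk L3897 := leafL c3897

theorem c3898 : lp7 (fun s => chk (ent L3898 s)) 0 = true := by decide +kernel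
theorem p3898 : PrL chk L3898 := leafL c3898

theorem c3899 : lp7 (fun s => chk (ent L3899 s)) 0 = true := by decide +kernel
theorem p3899 : PrL chk L3899 := leafL c3899

theorem c3900 : lp7 (fun s => chk (ent L3900 s)) 0 = true := by decide +kernel
theorem p3900 : PrL chk L3900 := leafL c3900

theorem c3901 : lp7 (fun s => chk (ent L3901 s)) 0 = true := by decide +kernel
theorem p3901 : PrL chk L3901 := leafL c3901

theorem c3902 : lp7 (fun s => chk (ent L3902 s)) 0 = true := by decide +kernel
theorem p3902 : PrL chk L3902 := leafL c3902

theorem c3903 : lp7 (fun s => chk (ent L3903 s)) 0 = true := by decide +kernel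
theorem p3903 : PrL chk L3903 := leafL c3903

theorem c3904 : lp7 (fun s => chk (ent L3904 s)) 0 = true := by decide +kernel
theorem p3904 : PrL chk L3904 := leafL c3904

theorem c3905 : lp7 (fun s => chk (ent L3905 s)) 0 = true := by decide +kernel
theorem p3905 : PrL chk L3905 := leafL c3905

theorem c3906 : lp7 (fun s => chk (ent L3906 s)) 0 = true := by decide +kernel
theorem p3906 : PrL chk L3906 := leafL c3906

theorem c3907 : lp7 (fun s => chk (ent L3907 s)) 0 = true := by decide +kernel
theorem p3907 : PrL chk L3907 := leafL c3907

theorem c3908 : lp7 (fun s => chk (ent L3908 s)) 0 = true := by decide +kernel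
theorem p3908 : PrL chk L3908 := leafL c3908

theorem c3909 : lp7 (fun s => chk (ent L3909 s)) 0 = true := by decide +kernel
theorem p3909 : PrL chk L3909 := leafL c3909

theorem c3910 : lp7 (fun s => chk (ent L3910 s)) 0 = true := by decide +kernel
theorem p3910 : PrL chk L3910 := leafL c3910

theorem c3911 : lp7 (fun s => chk (ent L3911 s)) 0 = true := by decide +kernel
theorem p3911 : PrL chk L3911 := leafL c3911

theorem c3912 : lp7 (fun s => chk (ent L3912 s)) 0 = true := by decide +kernel
theorem p3912 : PrL chk L3912 := leafL c3912

theorem c3913 : lp7 (fun s => chk (ent L3913 s)) 0 = true := by decide +kernel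
theorem p3913 : PrL chk L3913 := leafL c3913

theorem c3914 : lp7 (fun s => chk (ent L3914 s)) 0 = true := by decide +kernel
theorem p3914 : PrL chk L3914 := leafL c3914

theorem c3915 : lp7 (fun s => chk (ent L3915 s)) 0 = true := by decide +kernel
theorem p3915 : PrL chk L3915 := leafL c3915

theorem c3916 : lp7 (fun s => chk (ent L3916 s)) 0 = true := by decide +kernel
theorem p3916 : PrL chk L3916 := leafL c3916

theorem c3917 : lp7 (fun s => chk (ent L3917 s)) 0 = true := by decide +kernel
theorem p3917 : PrL chk L3917 := leafL c3917

theorem c3918 : lp7 (fun s => chk (ent L3918 s)) 0 = true := by decide +kernel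
theorem p3918 : PrL chk L3918 := leafL c3918

theorem c3919 : lp7 (fun s => chk (ent L3919 s)) 0 = true := by decide +kernel
theorem p3919 : PrL chk L3919 := leafL c3919

theorem c3920 : lp7 (fun s => chk (ent L3920 s)) 0 = true := by decide +kernel
theorem p3920 : PrL chk L3920 := leafL c3920

theorem c3921 : lp7 (fun s => chk (ent L3921 s)) 0 = true := by decide +kernel
theorem p3921 : PrL chk L3921 := leafL c3921

theorem c3922 : lp7 (fun s => chk (ent L3922 s)) 0 = true := by decide +kernel
theorem p3922 : PrL chk L3922 := leafL c3922

theorem c3923 : lp7 (fun s => chk (ent L3923 s)) 0 = true := by decide +kernel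
theorem p3923 : PrL chk L3923 := leafL c3923

theorem c3924 : lp7 (fun s => chk (ent L3924 s)) 0 = true := by decide +kernel
theorem p3924 : PrL chk L3924 := leafL c3924

theorem c3925 : lp7 (fun s => chk (ent L3925 s)) 0 = true := by decide +kernel
theorem p3925 : PrL chk L3925 := leafL c3925

theorem c3926 : lp7 (fun s => chk (ent L3926 s)) 0 = true := by decide +kernel
theorem p3926 : PrL chk L3926 := leafL c3926

theorem c3927 : lp7 (fun s => chk (ent L3927 s)) 0 = true := by decide +kernel
theorem p3927 : PrL chk L3927 := leafL c3927

theorem c3928 : lp7 (fun s => chk (ent L3928 s)) 0 = true := by decide +kernel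
theorem p3928 : PrL chk L3928 := leafL c3928

theorem c3929 : lp7 (fun s => chk (ent L3929 s)) 0 = true := by decide +kernel
theorem p3929 : PrL chk L3929 := leafL c3929

theorem c3930 : lp7 (fun s => chk (ent L3930 s)) 0 = true := by decide +kernel
theorem p3930 : PrL chk L3930 := leafL c3930

theorem c3931 : lp7 (fun s => chk (ent L3931 s)) 0 = true := by decide +kernel
theorem p3931 : PrL chk L3931 := leafL c3931

theorem c3932 : lp7 (fun s => chk (ent L3932 s)) 0 = true := by decide +kernel
theorem p3932 : PrL chk L3932 := leafL c3932

theorem c3933 : lp7 (fun s => chk (ent L3933 s)) 0 = true := by decide +kernel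
theorem p3933 : PrL chk L3933 := leafL c3933

theorem c3934 : lp7 (fun s => chk (ent L3934 s)) 0 = true := by decide +kernel
theorem p3934 : PrL chk L3934 := leafL c3934

theorem c3935 : lp7 (fun s => chk (ent L3935 s)) 0 = true := by decide +kernel
theorem p3935 : PrL chk L3935 := leafL c3935

theorem c3936 : lp7 (fun s => chk (ent L3936 s)) 0 = true := by decide +kernel
theorem p3936 : PrL chk L3936 := leafL c3936

theorem c3937 : lp7 (fun s => chk (ent L3937 s)) 0 = true := by decide +kernel
theorem p3937 : PrL chk L3937 := leafL c3937

theorem c3938 : lp7 (fun s => chk (ent L3938 s)) 0 = true := by decide +kernel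
theorem p3938 : PrL chk L3938 := leafL c3938

theorem c3939 : lp7 (fun s => chk (ent L3939 s)) 0 = true := by decide +kernel
theorem p3939 : PrL chk L3939 := leafL c3939

theorem c3940 : lp7 (fun s => chk (ent L3940 s)) 0 = true := by decide +kernel
theorem p3940 : PrL chk L3940 := leafL c3940

theorem c3941 : lp7 (fun s => chk (ent L3941 s)) 0 = true := by decide +kernel
theorem p3941 : PrL chk L3941 := leafL c3941

theorem c3942 : lp7 (fun s => chk (ent L3942 s)) 0 = true := by decide +kernel
theorem p3942 : PrL chk L3942 := leafL c3942

theorem c3943 : lp7 (fun s => chk (ent L3943 s)) 0 = true := by decide +kernel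
theorem p3943 : PrL chk L3943 := leafL c3943

theorem c3944 : lp7 (fun s => chk (ent L3944 s)) 0 = true := by decide +kernel
theorem p3944 : PrL chk L3944 := leafL c3944

theorem c3945 : lp7 (fun s => chk (ent L3945 s)) 0 = true := by decide +kernel
theorem p3945 : PrL chk L3945 := leafL c3945

theorem c3946 : lp7 (fun s => chk (ent L3946 s)) 0 = true := by decide +kernel
theorem p3946 : PrL chk L3946 := leafL c3946

theorem c3947 : lp7 (fun s => chk (ent L3947 s)) 0 = true := by decide +kernel
theorem p3947 : PrL chk L3947 := leafL c3947

theorem c3948 : lp7 (fun s => chk (ent L3948 s)) 0 = true := by decide +kernel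
theorem p3948 : PrL chk L3948 := leafL c3948

theorem c3949 : lp7 (fun s => chk (ent L3949 s)) 0 = true := by decide +kernel
theorem p3949 : PrL chk L3949 := leafL c3949

theorem c3950 : lp7 (fun s => chk (ent L3950 s)) 0 = true := by decide +kernel
theorem p3950 : PrL chk L3950 := leafL c3950

theorem c3951 : lp7 (fun s => chk (ent L3951 s)) 0 = true := by decide +kernel
theorem p3951 : PrL chk L3951 := leafL c3951

theorem c3952 : lp7 (fun s => chk (ent L3952 s)) 0 = true := by decide +kernel
theorem p3952 : PrL chk L3952 := leafL c3952

theorem c3953 : lp7 (fun s => chk (ent L3953 s)) 0 = true := by decide +kernel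
theorem p3953 : PrL chk L3953 := leafL c3953

theorem c3954 : lp7 (fun s => chk (ent L3954 s)) 0 = true := by decide +kernel
theorem p3954 : PrL chk L3954 := leafL c3954

theorem c3955 : lp7 (fun s => chk (ent L3955 s)) 0 = true := by decide +kernel
theorem p3955 : PrL chk L3955 := leafL c3955

theorem c3956 : lp7 (fun s => chk (ent L3956 s)) 0 = true := by decide +kernel
theorem p3956 : PrL chk L3956 := leafL c3956

theorem c3957 : lp7 (fun s => chk (ent L3957 s)) 0 = true := by decide +kernel
theorem p3957 : PrL chk L3957 := leafL c3957

theorem c3958 : lp7 (fun s => chk (ent L3958 s)) 0 = true := by decide +kernel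
theorem p3958 : PrL chk L3958 := leafL c3958

theorem c3959 : lp7 (fun s => chk (ent L3959 s)) 0 = true := by decide +kernel
theorem p3959 : PrL chk L3959 := leafL c3959

theorem c3960 : lp7 (fun s => chk (ent L3960 s)) 0 = true := by decide +kernel
theorem p3960 : PrL chk L3960 := leafL c3960

theorem c3961 : lp7 (fun s => chk (ent L3961 s)) 0 = true := by decide +kernel
theorem p3961 : PrL chk L3961 := leafL c3961

theorem c3962 : lp7 (fun s => chk (ent L3962 s)) 0 = true := by decide +kernel
theorem p3962 : PrL chk L3962 := leafL c3962

theorem c3963 : lp7 (fun s => chk (ent L3963 s)) 0 = true := by decide +kernel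
theorem p3963 : PrL chk L3963 := leafL c3963

theorem c3964 : lp7 (fun s => chk (ent L3964 s)) 0 = true := by decide +kernel
theorem p3964 : PrL chk L3964 := leafL c3964

theorem c3965 : lp7 (fun s => chk (ent L3965 s)) 0 = true := by decide +kernel
theorem p3965 : PrL chk L3965 := leafL c3965

theorem c3966 : lp7 (fun s => chk (ent L3966 s)) 0 = true := by decide +kernel
theorem p3966 : PrL chk L3966 := leafL c3966

theorem c3967 : lp7 (fun s => chk (ent L3967 s)) 0 = true := by decide +kernel
theorem p3967 : PrL chk L3967 := leafL c3967

theorem c3968 : lp7 (fun s => chk (ent L3968 s)) 0 = true := by decide +kernel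
theorem p3968 : PrL chk L3968 := leafL c3968

theorem c3969 : lp7 (fun s => chk (ent L3969 s)) 0 = true := by decide +kernel
theorem p3969 : PrL chk L3969 := leafL c3969

theorem c3970 : lp7 (fun s => chk (ent L3970 s)) 0 = true := by decide +kernel
theorem p3970 : PrL chk L3970 := leafL c3970

theorem c3971 : lp7 (fun s => chk (ent L3971 s)) 0 = true := by decide +kernel
theorem p3971 : PrL chk L3971 := leafL c3971

theorem c3972 : lp7 (fun s => chk (ent L3972 s)) 0 = true := by decide +kernel
theorem p3972 : PrL chk L3972 := leafL c3972

theorem c3973 : lp7 (fun s => chk (ent L3973 s)) 0 = true := by decide +kernel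
theorem p3973 : PrL chk L3973 := leafL c3973

theorem c3974 : lp7 (fun s => chk (ent L3974 s)) 0 = true := by decide +kernel
theorem p3974 : PrL chk L3974 := leafL c3974

theorem c3975 : lp7 (fun s => chk (ent L3975 s)) 0 = true := by decide +kernel
theorem p3975 : PrL chk L3975 := leafL c3975

theorem c3976 : lp7 (fun s => chk (ent L3976 s)) 0 = true := by decide +kernel
theorem p3976 : PrL chk L3976 := leafL c3976

theorem c3977 : lp7 (fun s => chk (ent L3977 s)) 0 = true := by decide +kernel
theorem p3977 : PrL chk L3977 := leafL c3977

theorem c3978 : lp7 (fun s => chk (ent L3978 s)) 0 = true := by decide +kernel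
theorem p3978 : PrL chk L3978 := leafL c3978

theorem c3979 : lp7 (fun s => chk (ent L3979 s)) 0 = true := by decide +kernel
theorem p3979 : PrL chk L3979 := leafL c3979

theorem c3980 : lp7 (fun s => chk (ent L3980 s)) 0 = true := by decide +kernel
theorem p3980 : PrL chk L3980 := leafL c3980

theorem c3981 : lp7 (fun s => chk (ent L3981 s)) 0 = true := by decide +kernel
theorem p3981 : PrL chk L3981 := leafL c3981

theorem c3982 : lp7 (fun s => chk (ent L3982 s)) 0 = true := by decide +kernel
theorem p3982 : PrL chk L3982 := leafL c3982

theorem c3983 : lp7 (fun s => chk (ent L3983 s)) 0 = true := by decide +kernel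
theorem p3983 : PrL chk L3983 := leafL c3983

theorem c3984 : lp7 (fun s => chk (ent L3984 s)) 0 = true := by decide +kernel
theorem p3984 : PrL chk L3984 := leafL c3984

theorem c3985 : lp7 (fun s => chk (ent L3985 s)) 0 = true := by decide +kernel
theorem p3985 : PrL chk L3985 := leafL c3985

theorem c3986 : lp7 (fun s => chk (ent L3986 s)) 0 = true := by decide +kernel
theorem p3986 : PrL chk L3986 := leafL c3986

theorem c3987 : lp7 (fun s => chk (ent L3987 s)) 0 = true := by decide +kernel
theorem p3987 : PrL chk L3987 := leafL c3987

theorem c3988 : lp7 (fun s => chk (ent L3988 s)) 0 = true := by decide +kernel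
theorem p3988 : PrL chk L3988 := leafL c3988

theorem c3989 : lp7 (fun s => chk (ent L3989 s)) 0 = true := by decide +kernel
theorem p3989 : PrL chk L3989 := leafL c3989

theorem c3990 : lp7 (fun s => chk (ent L3990 s)) 0 = true := by decide +kernel
theorem p3990 : PrL chk L3990 := leafL c3990

theorem c3991 : lp7 (fun s => chk (ent L3991 s)) 0 = true := by decide +kernel
theorem p3991 : PrL chk L3991 := leafL c3991

theorem c3992 : lp7 (fun s => chk (ent L3992 s)) 0 = true := by decide +kernel
theorem p3992 : PrL chk L3992 := leafL c3992

theorem c3993 : lp7 (fun s => chk (ent L3993 s)) 0 = true := by decide +kernel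
theorem p3993 : PrL chk L3993 := leafL c3993

theorem c3994 : lp7 (fun s => chk (ent L3994 s)) 0 = true := by decide +kernel
theorem p3994 : PrL chk L3994 := leafL c3994

theorem c3995 : lp7 (fun s => chk (ent L3995 s)) 0 = true := by decide +kernel
theorem p3995 : PrL chk L3995 := leafL c3995

theorem c3996 : lp7 (fun s => chk (ent L3996 s)) 0 = true := by decide +kernel
theorem p3996 : PrL chk L3996 := leafL c3996

theorem c3997 : lp7 (fun s => chk (ent L3997 s)) 0 = true := by decide +kernel
theorem p3997 : PrL chk L3997 := leafL c3997

theorem c3998 : lp7 (fun s => chk (ent L3998 s)) 0 = true := by decide +kernel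
theorem p3998 : PrL chk L3998 := leafL c3998

theorem c3999 : lp7 (fun s => chk (ent L3999 s)) 0 = true := by decide +kernel
theorem p3999 : PrL chk L3999 := leafL c3999

theorem c4000 : lp7 (fun s => chk (ent L4000 s)) 0 = true := by decide +kernel
theorem p4000 : PrL chk L4000 := leafL c4000

theorem c4001 : lp7 (fun s => chk (ent L4001 s)) 0 = true := by decide +kernel
theorem p4001 : PrL chk L4001 := leafL c4001

theorem c4002 : lp7 (fun s => chk (ent L4002 s)) 0 = true := by decide +kernel
theorem p4002 : PrL chk L4002 := leafL c4002

theorem c4003 : lp7 (fun s => chk (ent L4003 s)) 0 = true := by decide +kernel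
theorem p4003 : PrL chk L4003 := leafL c4003

theorem c4004 : lp7 (fun s => chk (ent L4004 s)) 0 = true := by decide +kernel
theorem p4004 : PrL chk L4004 := leafL c4004

theorem c4005 : lp7 (fun s => chk (ent L4005 s)) 0 = true := by decide +kernel
theorem p4005 : PrL chk L4005 := leafL c4005

theorem c4006 : lp7 (fun s => chk (ent L4006 s)) 0 = true := by decide +kernel
theorem p4006 : PrL chk L4006 := leafL c4006

theorem c4007 : lp7 (fun s => chk (ent L4007 s)) 0 = true := by decide +kernel
theorem p4007 : PrL chk L4007 := leafL c4007

theorem c4008 : lp7 (fun s => chk (ent L4008 s)) 0 = true := by decide +kernel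
theorem p4008 : PrL chk L4008 := leafL c4008

theorem c4009 : lp7 (fun s => chk (ent L4009 s)) 0 = true := by decide +kernel
theorem p4009 : PrL chk L4009 := leafL c4009

theorem c4010 : lp7 (fun s => chk (ent L4010 s)) 0 = true := by decide +kernel
theorem p4010 : PrL chk L4010 := leafL c4010

theorem c4011 : lp7 (fun s => chk (ent L4011 s)) 0 = true := by decide +kernel
theorem p4011 : PrL chk L4011 := leafL c4011

theorem c4012 : lp7 (fun s => chk (ent L4012 s)) 0 = true := by decide +kernel
theorem p4012 : PrL chk L4012 := leafL c4012

theorem c4013 : lp7 (fun s => chk (ent L4013 s)) 0 = true := by decide +kernel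
theorem p4013 : PrL chk L4013 := leafL c4013

theorem c4014 : lp7 (fun s => chk (ent L4014 s)) 0 = true := by decide +kernel
theorem p4014 : PrL chk L4014 := leafL c4014

theorem c4015 : lp7 (fun s => chk (ent L4015 s)) 0 = true := by decide +kernel
theorem p4015 : PrL chk L4015 := leafL c4015

theorem c4016 : lp7 (fun s => chk (ent L4016 s)) 0 = true := by decide +kernel
theorem p4016 : PrL chk L4016 := leafL c4016

theorem c4017 : lp7 (fun s => chk (ent L4017 s)) 0 = true := by decide +kernel
theorem p4017 : PrL chk L4017 := leafL c4017

theorem c4018 : lp7 (fun s => chk (ent L4018 s)) 0 = true := by decide +kernel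
theorem p4018 : PrL chk L4018 := leafL c4018

theorem c4019 : lp7 (fun s => chk (ent L4019 s)) 0 = true := by decide +kernel
theorem p4019 : PrL chk L4019 := leafL c4019

theorem c4020 : lp7 (fun s => chk (ent L4020 s)) 0 = true := by decide +kernel
theorem p4020 : PrL chk L4020 := leafL c4020

theorem c4021 : lp7 (fun s => chk (ent L4021 s)) 0 = true := by decide +kernel
theorem p4021 : PrL chk L4021 := leafL c4021

theorem c4022 : lp7 (fun s => chk (ent L4022 s)) 0 = true := by decide +kernel
theorem p4022 : PrL chk L4022 := leafL c4022

theorem c4023 : lp7 (fun s => chk (ent L4023 s)) 0 = true := by decide +kernel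
theorem p4023 : PrL chk L4023 := leafL c4023

theorem c4024 : lp7 (fun s => chk (ent L4024 s)) 0 = true := by decide +kernel
theorem p4024 : PrL chk L4024 := leafL c4024

theorem c4025 : lp7 (fun s => chk (ent L4025 s)) 0 = true := by decide +kernel
theorem p4025 : PrL chk L4025 := leafL c4025

theorem c4026 : lp7 (fun s => chk (ent L4026 s)) 0 = true := by decide +kernel
theorem p4026 : PrL chk L4026 := leafL c4026

theorem c4027 : lp7 (fun s => chk (ent L4027 s)) 0 = true := by decide +kernel
theorem p4027 : PrL chk L4027 := leafL c4027

theorem c4028 : lp7 (fun s => chk (ent L4028 s)) 0 = true := by decide +kernel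
theorem p4028 : PrL chk L4028 := leafL c4028

theorem c4029 : lp7 (fun s => chk (ent L4029 s)) 0 = true := by decide +kernel
theorem p4029 : PrL chk L4029 := leafL c4029

theorem c4030 : lp7 (fun s => chk (ent L4030 s)) 0 = true := by decide +kernel
theorem p4030 : PrL chk L4030 := leafL c4030

theorem c4031 : lp7 (fun s => chk (ent L4031 s)) 0 = true := by decide +kernel
theorem p4031 : PrL chk L4031 := leafL c4031

theorem c4032 : lp7 (fun s => chk (ent L4032 s)) 0 = true := by decide +kernel
theorem p4032 : PrL chk L4032 := leafL c4032

theorem c4033 : lp7 (fun s => chk (ent L4033 s)) 0 = true := by decide +kernel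
theorem p4033 : PrL chk L4033 := leafL c4033

theorem c4034 : lp7 (fun s => chk (ent L4034 s)) 0 = true := by decide +kernel
theorem p4034 : PrL chk L4034 := leafL c4034

theorem c4035 : lp7 (fun s => chk (ent L4035 s)) 0 = true := by decide +kernel
theorem p4035 : PrL chk L4035 := leafL c4035

theorem c4036 : lp7 (fun s => chk (ent L4036 s)) 0 = true := by decide +kernel
theorem p4036 : PrL chk L4036 := leafL c4036

theorem c4037 : lp7 (fun s => chk (ent L4037 s)) 0 = true := by decide +kernel
theorem p4037 : PrL chk L4037 := leafL c4037

theorem c4038 : lp7 (fun s => chk (ent L4038 s)) 0 = true := by decide +kernel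
theorem p4038 : PrL chk L4038 := leafL c4038

theorem c4039 : lp7 (fun s => chk (ent L4039 s)) 0 = true := by decide +kernel
theorem p4039 : PrL chk L4039 := leafL c4039

theorem c4040 : lp7 (fun s => chk (ent L4040 s)) 0 = true := by decide +kernel
theorem p4040 : PrL chk L4040 := leafL c4040

theorem c4041 : lp7 (fun s => chk (ent L4041 s)) 0 = true := by decide +kernel
theorem p4041 : PrL chk L4041 := leafL c4041

theorem c4042 : lp7 (fun s => chk (ent L4042 s)) 0 = true := by decide +kernel
theorem p4042 : PrL chk L4042 := leafL c4042

theorem c4043 : lp7 (fun s => chk (ent L4043 s)) 0 = true := by decide +kernel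
theorem p4043 : PrL chk L4043 := leafL c4043

theorem c4044 : lp7 (fun s => chk (ent L4044 s)) 0 = true := by decide +kernel
theorem p4044 : PrL chk L4044 := leafL c4044

theorem c4045 : lp7 (fun s => chk (ent L4045 s)) 0 = true := by decide +kernel
theorem p4045 : PrL chk L4045 := leafL c4045

theorem c4046 : lp7 (fun s => chk (ent L4046 s)) 0 = true := by decide +kernel
theorem p4046 : PrL chk L4046 := leafL c4046

theorem c4047 : lp7 (fun s => chk (ent L4047 s)) 0 = true := by decide +kernel
theorem p4047 : PrL chk L4047 := leafL c4047

theorem c4048 : lp7 (fun s => chk (ent L4048 s)) 0 = true := by decide +kernel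
theorem p4048 : PrL chk L4048 := leafL c4048

theorem c4049 : lp7 (fun s => chk (ent L4049 s)) 0 = true := by decide +kernel
theorem p4049 : PrL chk L4049 := leafL c4049

theorem c4050 : lp7 (fun s => chk (ent L4050 s)) 0 = true := by decide +kernel
theorem p4050 : PrL chk L4050 := leafL c4050

theorem c4051 : lp7 (fun s => chk (ent L4051 s)) 0 = true := by decide +kernel
theorem p4051 : PrL chk L4051 := leafL c4051

theorem c4052 : lp7 (fun s => chk (ent L4052 s)) 0 = true := by decide +kernel
theorem p4052 : PrL chk L4052 := leafL c4052

theorem c4053 : lp7 (fun s => chk (ent L4053 s)) 0 = true := by decide +kernel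
theorem p4053 : PrL chk L4053 := leafL c4053

theorem c4054 : lp7 (fun s => chk (ent L4054 s)) 0 = true := by decide +kernel
theorem p4054 : PrL chk L4054 := leafL c4054

theorem c4055 : lp7 (fun s => chk (ent L4055 s)) 0 = true := by decide +kernel
theorem p4055 : PrL chk L4055 := leafL c4055

theorem c4056 : lp7 (fun s => chk (ent L4056 s)) 0 = true := by decide +kernel
theorem p4056 : PrL chk L4056 := leafL c4056

theorem c4057 : lp7 (fun s => chk (ent L4057 s)) 0 = true := by decide +kernel
theorem p4057 : PrL chk L4057 := leafL c4057

theorem c4058 : lp7 (fun s => chk (ent L4058 s)) 0 = true := by decide +kernel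
theorem p4058 : PrL chk L4058 := leafL c4058

theorem c4059 : lp7 (fun s => chk (ent L4059 s)) 0 = true := by decide +kernel
theorem p4059 : PrL chk L4059 := leafL c4059

theorem c4060 : lp7 (fun s => chk (ent L4060 s)) 0 = true := by decide +kernel
theorem p4060 : PrL chk L4060 := leafL c4060

theorem c4061 : lp7 (fun s => chk (ent L4061 s)) 0 = true := by decide +kernel
theorem p4061 : PrL chk L4061 := leafL c4061

theorem c4062 : lp7 (fun s => chk (ent L4062 s)) 0 = true := by decide +kernel
theorem p4062 : PrL chk L4062 := leafL c4062

theorem c4063 : lp7 (fun s => chk (ent L4063 s)) 0 = true := by decide +kernel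
theorem p4063 : PrL chk L4063 := leafL c4063

theorem c4064 : lp7 (fun s => chk (ent L4064 s)) 0 = true := by decide +kernel
theorem p4064 : PrL chk L4064 := leafL c4064

theorem c4065 : lp7 (fun s => chk (ent L4065 s)) 0 = true := by decide +kernel
theorem p4065 : PrL chk L4065 := leafL c4065

theorem c4066 : lp7 (fun s => chk (ent L4066 s)) 0 = true := by decide +kernel
theorem p4066 : PrL chk L4066 := leafL c4066

theorem c4067 : lp7 (fun s => chk (ent L4067 s)) 0 = true := by decide +kernel
theorem p4067 : PrL chk L4067 := leafL c4067

theorem c4068 : lp7 (fun s => chk (ent L4068 s)) 0 = true := by decide +kernel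
theorem p4068 : PrL chk L4068 := leafL c4068

theorem c4069 : lp7 (fun s => chk (ent L4069 s)) 0 = true := by decide +kernel
theorem p4069 : PrL chk L4069 := leafL c4069

theorem c4070 : lp7 (fun s => chk (ent L4070 s)) 0 = true := by decide +kernel
theorem p4070 : PrL chk L4070 := leafL c4070

theorem c4071 : lp7 (fun s => chk (ent L4071 s)) 0 = true := by decide +kernel
theorem p4071 : PrL chk L4071 := leafL c4071

theorem c4072 : lp7 (fun s => chk (ent L4072 s)) 0 = true := by decide +kernel
theorem p4072 : PrL chk L4072 := leafL c4072

theorem c4073 : lp7 (fun s => chk (ent L4073 s)) 0 = true := by decide +kernel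
theorem p4073 : PrL chk L4073 := leafL c4073

theorem c4074 : lp7 (fun s => chk (ent L4074 s)) 0 = true := by decide +kernel
theorem p4074 : PrL chk L4074 := leafL c4074

theorem c4075 : lp7 (fun s => chk (ent L4075 s)) 0 = true := by decide +kernel
theorem p4075 : PrL chk L4075 := leafL c4075

theorem c4076 : lp7 (fun s => chk (ent L4076 s)) 0 = true := by decide +kernel
theorem p4076 : PrL chk L4076 := leafL c4076

theorem c4077 : lp7 (fun s => chk (ent L4077 s)) 0 = true := by decide +kernel
theorem p4077 : PrL chk L4077 := leafL c4077

theorem c4078 : lp7 (fun s => chk (ent L4078 s)) 0 = true := by decide +kernel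
theorem p4078 : PrL chk L4078 := leafL c4078

theorem c4079 : lp7 (fun s => chk (ent L4079 s)) 0 = true := by decide +kernel
theorem p4079 : PrL chk L4079 := leafL c4079

theorem c4080 : lp7 (fun s => chk (ent L4080 s)) 0 = true := by decide +kernel
theorem p4080 : PrL chk L4080 := leafL c4080

theorem c4081 : lp7 (fun s => chk (ent L4081 s)) 0 = true := by decide +kernel
theorem p4081 : PrL chk L4081 := leafL c4081

theorem c4082 : lp7 (fun s => chk (ent L4082 s)) 0 = true := by decide +kernel
theorem p4082 : PrL chk L4082 := leafL c4082

theorem c4083 : lp7 (fun s => chk (ent L4083 s)) 0 = true := by decide +kernel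
theorem p4083 : PrL chk L4083 := leafL c4083

theorem c4084 : lp7 (fun s => chk (ent L4084 s)) 0 = true := by decide +kernel
theorem p4084 : PrL chk L4084 := leafL c4084

theorem c4085 : lp7 (fun s => chk (ent L4085 s)) 0 = true := by decide +kernel
theorem p4085 : PrL chk L4085 := leafL c4085

theorem c4086 : lp7 (fun s => chk (ent L4086 s)) 0 = true := by decide +kernel
theorem p4086 : PrL chk L4086 := leafL c4086

theorem c4087 : lp7 (fun s => chk (ent L4087 s)) 0 = true := by decide +kernel
theorem p4087 : PrL chk L4087 := leafL c4087

theorem c4088 : lp7 (fun s => chk (ent L4088 s)) 0 = true := by decide +kernel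
theorem p4088 : PrL chk L4088 := leafL c4088

theorem c4089 : lp7 (fun s => chk (ent L4089 s)) 0 = true := by decide +kernel
theorem p4089 : PrL chk L4089 := leafL c4089

theorem c4090 : lp7 (fun s => chk (ent L4090 s)) 0 = true := by decide +kernel
theorem p4090 : PrL chk L4090 := leafL c4090

theorem c4091 : lp7 (fun s => chk (ent L4091 s)) 0 = true := by decide +kernel
theorem p4091 : PrL chk L4091 := leafL c4091

theorem c4092 : lp7 (fun s => chk (ent L4092 s)) 0 = true := by decide +kernel
theorem p4092 : PrL chk L4092 := leafL c4092

theorem c4093 : lp7 (fun s => chk (ent L4093 s)) 0 = true := by decide +kernel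
theorem p4093 : PrL chk L4093 := leafL c4093

theorem c4094 : lp7 (fun s => chk (ent L4094 s)) 0 = true := by decide +kernel
theorem p4094 : PrL chk L4094 := leafL c4094

theorem c4095 : lp7 (fun s => chk (ent L4095 s)) 0 = true := by decide +kernel
theorem p4095 : PrL chk L4095 := leafL c4095

end Pool.Agent.ad013a.LA
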