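import Pool.Agent.H.MP_ad013a_pr.h63l.A.T
import Pool.Agent.H.MP_ad013a_pr.h63w.VLoop

namespace Pool.Agent.ad013a.LA

theorem c4096 : lp7 (fun s => chk (ent L4096 s)) 0 = true := by decide +kernel
theorem p4096 : PrL chk L4096 := leafL c4096

theorem c4097 : lp7 (fun s => chk (ent L4097 s)) 0 = true := by decide +kernel
theorem p4097 : PrL chk L4097 := leafL c4097

theorem c4098 : lp7 (fun s => chk (ent L4098 s)) 0 = true := by decide +kernel
theorem p4098 : PrL chk L4098 := leafL c4098

theorem c4099 : lp7 (fun s => chk (ent L4099 s)) 0 = true := by decide +kernel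
theorem p4099 : PrL chk L4099 := leafL c4099

theorem c4100 : lp7 (fun s => chk (ent L4100 s)) 0 = true := by decide +kernel
theorem p4100 : PrL chk L4100 := leafL c4100

theorem c4101 : lp7 (fun s => chk (ent L4101 s)) 0 = true := by decide +kernel
theorem p4101 : PrL chk L4101 := leafL c4101

theorem c4102 : lp7 (fun s => chk (ent L4102 s)) 0 = true := by decide +kernel
theorem p4102 : PrL chk L4102 := leafL c4102

theorem c4103 : lp7 (fun s => chk (ent L4103 s)) 0 = true := by decide +kernel
theorem p4103 : PrL chk L4103 := leafL c4103

theorem c4104 : lp7 (fun s => chk (ent L4104 s)) 0 = true := by decide +kernel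
theorem p4104 : PrL chk L4104 := leafL c4104

theorem c4105 : lp7 (fun s => chk (ent L4105 s)) 0 = true := by decide +kernel
theorem p4105 : PrL chk L4105 := leafL c4105

theorem c4106 : lp7 (fun s => chk (ent L4106 s)) 0 = true := by decide +kernel
theorem p4106 : PrL chk L4106 := leafL c4106

theorem c4107 : lp7 (fun s => chk (ent L4107 s)) 0 = true := by decide +kernel
theorem p4107 : PrL chk L4107 := leafL c4107

theorem c4108 : lp7 (fun s => chk (ent L4108 s)) 0 = true := by decide +kernel
theorem p4108 : PrL chk L4108 := leafL c4108

theorem c4109 : lp7 (fun s => chk (ent L4109 s)) 0 = true := by decide +kernel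
theorem p4109 : PrL chk L4109 := leafL c4109

theorem c4110 : lp7 (fun s => chk (ent L4110 s)) 0 = true := by decide +kernel
theorem p4110 : PrL chk L4110 := leafL c4110

theorem c4111 : lp7 (fun s => chk (ent L4111 s)) 0 = true := by decide +kernel
theorem p4111 : PrL chk L4111 := leafL c4111

theorem c4112 : lp7 (fun s => chk (ent L4112 s)) 0 = true := by decide +kernel
theorem p4112 : PrL chk L4112 := leafL c4112

theorem c4113 : lp7 (fun s => chk (ent L4113 s)) 0 = true := by decide +kernel
theorem p4113 : PrL chk L4113 := leafL c4113

theorem c4114 : lp7 (fun s => chk (ent L4114 s)) 0 = true := by decide +kernel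
theorem p4114 : PrL chk L4114 := leafL c4114

theorem c4115 : lp7 (fun s => chk (ent L4115 s)) 0 = true := by decide +kernel
theorem p4115 : PrL chk L4115 := leafL c4115

theorem c4116 : lp7 (fun s => chk (ent L4116 s)) 0 = true := by decide +kernel
theorem p4116 : PrL chk L4116 := leafL c4116

theorem c4117 : lp7 (fun s => chk (ent L4117 s)) 0 = true := by decide +kernel
theorem p4117 : PrL chk L4117 := leafL c4117

theorem c4118 : lp7 (fun s => chk (ent L4118 s)) 0 = true := by decide +kernel
theorem p4118 : PrL chk L4118 := leafL c4118

theorem c4119 : lp7 (fun s => chk (ent L4119 s)) 0 = true := by decide +kernel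
theorem p4119 : PrL chk L4119 := leafL c4119

theorem c4120 : lp7 (fun s => chk (ent L4120 s)) 0 = true := by decide +kernel
theorem p4120 : PrL chk L4120 := leafL c4120

theorem c4121 : lp7 (fun s => chk (ent L4121 s)) 0 = true := by decide +kernel
theorem p4121 : PrL chk L4121 := leafL c4121

theorem c4122 : lp7 (fun s => chk (ent L4122 s)) 0 = true := by decide +kernel
theorem p4122 : PrL chk L4122 := leafL c4122

theorem c4123 : lp7 (fun s => chk (ent L4123 s)) 0 = true := by decide +kernel
theorem p4123 : PrL chk L4123 := leafL c4123

theorem c4124 : lp7 (fun s => chk (ent L4124 s)) 0 = true := by decide +kernel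
theorem p4124 : PrL chk L4124 := leafL c4124

theorem c4125 : lp7 (fun s => chk (ent L4125 s)) 0 = true := by decide +kernel
theorem p4125 : PrL chk L4125 := leafL c4125

theorem c4126 : lp7 (fun s => chk (ent L4126 s)) 0 = true := by decide +kernel
theorem p4126 : PrL chk L4126 := leafL c4126

theorem c4127 : lp7 (fun s => chk (ent L4127 s)) 0 = true := by decide +kernel
theorem p4127 : PrL chk L4127 := leafL c4127

theorem c4128 : lp7 (fun s => chk (ent L4128 s)) 0 = true := by decide +kernel
theorem p4128 : PrL chk L4128 := leafL c4128

theorem c4129 : lp7 (fun s => chk (ent L4129 s)) 0 = true := by decide +kernel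
theorem p4129 : PrL chk L4129 := leafL c4129

theorem c4130 : lp7 (fun s => chk (ent L4130 s)) 0 = true := by decide +kernel
theorem p4130 : PrL chk L4130 := leafL c4130

theorem c4131 : lp7 (fun s => chk (ent L4131 s)) 0 = true := by decide +kernel
theorem p4131 : PrL chk L4131 := leafL c4131

theorem c4132 : lp7 (fun s => chk (ent L4132 s)) 0 = true := by decide +kernel
theorem p4132 : PrL chk L4132 := leafL c4132

theorem c4133 : lp7 (fun s => chk (ent L4133 s)) 0 = true := by decide +kernel
theorem p4133 : PrL chk L4133 := leafL c4133

theorem c4134 : lp7 (fun s => chk (ent L4134 s)) 0 = true := by decide +kernel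
theorem p4134 : PrL chk L4134 := leafL c4134

theorem c4135 : lp7 (fun s => chk (ent L4135 s)) 0 = true := by decide +kernel
theorem p4135 : PrL chk L4135 := leafL c4135

theorem c4136 : lp7 (fun s => chk (ent L4136 s)) 0 = true := by decide +kernel
theorem p4136 : PrL chk L4136 := leafL c4136

theorem c4137 : lp7 (fun s => chk (ent L4137 s)) 0 = true := by decide +kernel
theorem p4137 : PrL chk L4137 := leafL c4137

theorem c4138 : lp7 (fun s => chk (ent L4138 s)) 0 = true := by decide +kernel
theorem p4138 : PrL chk L4138 := leafL c4138

theorem c4139 : lp7 (fun s => chk (ent L4139 s)) 0 = true := by decide +kernel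
theorem p4139 : PrL chk L4139 := leafL c4139

theorem c4140 : lp7 (fun s => chk (ent L4140 s)) 0 = true := by decide +kernel
theorem p4140 : PrL chk L4140 := leafL c4140

theorem c4141 : lp7 (fun s => chk (ent L4141 s)) 0 = true := by decide +kernel
theorem p4141 : PrL chk L4141 := leafL c4141

theorem c4142 : lp7 (fun s => chk (ent L4142 s)) 0 = true := by decide +kernel
theorem p4142 : PrL chk L4142 := leafL c4142

theorem c4143 : lp7 (fun s => chk (ent L4143 s)) 0 = true := by decide +kernel
theorem p4143 : PrL chk L4143 := leafL c4143

theorem c4144 : lp7 (fun s => chk (ent L4144 s)) 0 = true := by decide +kernel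
theorem p4144 : PrL chk L4144 := leafL c4144

theorem c4145 : lp7 (fun s => chk (ent L4145 s)) 0 = true := by decide +kernel
theorem p4145 : PrL chk L4145 := leafL c4145

theorem c4146 : lp7 (fun s => chk (ent L4146 s)) 0 = true := by decide +kernel
theorem p4146 : PrL chk L4146 := leafL c4146

theorem c4147 : lp7 (fun s => chk (ent L4147 s)) 0 = true := by decide +kernel
theorem p4147 : PrL chk L4147 := leafL c4147

theorem c4148 : lp7 (fun s => chk (ent L4148 s)) 0 = true := by decide +kernel
theorem p4148 : PrL chk L4148 := leafL c4148

theorem c4149 : lp7 (fun s => chk (ent L4149 s)) 0 = true := by decide +kernel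
theorem p4149 : PrL chk L4149 := leafL c4149

theorem c4150 : lp7 (fun s => chk (ent L4150 s)) 0 = true := by decide +kernel
theorem p4150 : PrL chk L4150 := leafL c4150

theorem c4151 : lp7 (fun s => chk (ent L4151 s)) 0 = true := by decide +kernel
theorem p4151 : PrL chk L4151 := leafL c4151

theorem c4152 : lp7 (fun s => chk (ent L4152 s)) 0 = true := by decide +kernel
theorem p4152 : PrL chk L4152 := leafL c4152

theorem c4153 : lp7 (fun s => chk (ent L4153 s)) 0 = true := by decide +kernel
theorem p4153 : PrL chk L4153 := leafL c4153

theorem c4154 : lp7 (fun s => chk (ent L4154 s)) 0 = true := by decide +kernel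
theorem p4154 : PrL chk L4154 := leafL c4154

theorem c4155 : lp7 (fun s => chk (ent L4155 s)) 0 = true := by decide +kernel
theorem p4155 : PrL chk L4155 := leafL c4155

theorem c4156 : lp7 (fun s => chk (ent L4156 s)) 0 = true := by decide +kernel
theorem p4156 : PrL chk L4156 := leafL c4156

theorem c4157 : lp7 (fun s => chk (ent L4157 s)) 0 = true := by decide +kernel
theorem p4157 : PrL chk L4157 := leafL c4157

theorem c4158 : lp7 (fun s => chk (ent L4158 s)) 0 = true := by decide +kernel
theorem p4158 : PrL chk L4158 := leafL c4158

theorem c4159 : lp7 (fun s => chk (ent L4159 s)) 0 = true := by decide +kernel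
theorem p4159 : PrL chk L4159 := leafL c4159

theorem c4160 : lp7 (fun s => chk (ent L4160 s)) 0 = true := by decide +kernel
theorem p4160 : PrL chk L4160 := leafL c4160

theorem c4161 : lp7 (fun s => chk (ent L4161 s)) 0 = true := by decide +kernel
theorem p4161 : PrL chk L4161 := leafL c4161

theorem c4162 : lp7 (fun s => chk (ent L4162 s)) 0 = true := by decide +kernel
theorem p4162 : PrL chk L4162 := leafL c4162

theorem c4163 : lp7 (fun s => chk (ent L4163 s)) 0 = true := by decide +kernel
theorem p4163 : PrL chk L4163 := leafL c4163

theorem c4164 : lp7 (fun s => chk (ent L4164 s)) 0 = true := by decide +kernel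
theorem p4164 : PrL chk L4164 := leafL c4164

theorem c4165 : lp7 (fun s => chk (ent L4165 s)) 0 = true := by decide +kernel
theorem p4165 : PrL chk L4165 := leafL c4165

theorem c4166 : lp7 (fun s => chk (ent L4166 s)) 0 = true := by decide +kernel
theorem p4166 : PrL chk L4166 := leafL c4166

theorem c4167 : lp7 (fun s => chk (ent L4167 s)) 0 = true := by decide +kernel
theorem p4167 : PrL chk L4167 := leafL c4167

theorem c4168 : lp7 (fun s => chk (ent L4168 s)) 0 = true := by decide +kernel
theorem p4168 : PrL chk L4168 := leafL c4168

theorem c4169 : lp7 (fun s => chk (ent L4169 s)) 0 = true := by decide +kernel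
theorem p4169 : PrL chk L4169 := leafL c4169

theorem c4170 : lp7 (fun s => chk (ent L4170 s)) 0 = true := by decide +kernel
theorem p4170 : PrL chk L4170 := leafL c4170

theorem c4171 : lp7 (fun s => chk (ent L4171 s)) 0 = true := by decide +kernel
theorem p4171 : PrL chk L4171 := leafL c4171

theorem c4172 : lp7 (fun s => chk (ent L4172 s)) 0 = true := by decide +kernel
theorem p4172 : PrL chk L4172 := leafL c4172

theorem c4173 : lp7 (fun s => chk (ent L4173 s)) 0 = true := by decide +kernel
theorem p4173 : PrL chk L4173 := leafL c4173

theorem c4174 : lp7 (fun s => chk (ent L4174 s)) 0 = true := by decide +kernel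
theorem p4174 : PrL chk L4174 := leafL c4174

theorem c4175 : lp7 (fun s => chk (ent L4175 s)) 0 = true := by decide +kernel
theorem p4175 : PrL chk L4175 := leafL c4175

theorem c4176 : lp7 (fun s => chk (ent L4176 s)) 0 = true := by decide +kernel
theorem p4176 : PrL chk L4176 := leafL c4176

theorem c4177 : lp7 (fun s => chk (ent L4177 s)) 0 = true := by decide +kernel
theorem p4177 : PrL chk L4177 := leafL c4177

theorem c4178 : lp7 (fun s => chk (ent L4178 s)) 0 = true := by decide +kernel
theorem p4178 : PrL chk L4178 := leafL c4178

theorem c4179 : lp7 (fun s => chk (ent L4179 s)) 0 = true := by decide +kernel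
theorem p4179 : PrL chk L4179 := leafL c4179

theorem c4180 : lp7 (fun s => chk (ent L4180 s)) 0 = true := by decide +kernel
theorem p4180 : PrL chk L4180 := leafL c4180

theorem c4181 : lp7 (fun s => chk (ent L4181 s)) 0 = true := by decide +kernel
theorem p4181 : PrL chk L4181 := leafL c4181

theorem c4182 : lp7 (fun s => chk (ent L4182 s)) 0 = true := by decide +kernel
theorem p4182 : PrL chk L4182 := leafL c4182

theorem c4183 : lp7 (fun s => chk (ent L4183 s)) 0 = true := by decide +kernel
theorem p4183 : PrL chk L4183 := leafL c4183

theorem c4184 : lp7 (fun s => chk (ent L4184 s)) 0 = true := by decide +kernel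
theorem p4184 : PrL chk L4184 := leafL c4184

theorem c4185 : lp7 (fun s => chk (ent L4185 s)) 0 = true := by decide +kernel
theorem p4185 : PrL chk L4185 := leafL c4185

theorem c4186 : lp7 (fun s => chk (ent L4186 s)) 0 = true := by decide +kernel
theorem p4186 : PrL chk L4186 := leafL c4186

theorem c4187 : lp7 (fun s => chk (ent L4187 s)) 0 = true := by decide +kernel
theorem p4187 : PrL chk L4187 := leafL c4187

theorem c4188 : lp7 (fun s => chk (ent L4188 s)) 0 = true := by decide +kernel
theorem p4188 : PrL chk L4188 := leafL c4188

theorem c4189 : lp7 (fun s => chk (ent L4189 s)) 0 = true := by decide +kernel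
theorem p4189 : PrL chk L4189 := leafL c4189

theorem c4190 : lp7 (fun s => chk (ent L4190 s)) 0 = true := by decide +kernel
theorem p4190 : PrL chk L4190 := leafL c4190

theorem c4191 : lp7 (fun s => chk (ent L4191 s)) 0 = true := by decide +kernel
theorem p4191 : PrL chk L4191 := leafL c4191

theorem c4192 : lp7 (fun s => chk (ent L4192 s)) 0 = true := by decide +kernel
theorem p4192 : PrL chk L4192 := leafL c4192

theorem c4193 : lp7 (fun s => chk (ent L4193 s)) 0 = true := by decide +kernel
theorem p4193 : PrL chk L4193 := leafL c4193

theorem c4194 : lp7 (fun s => chk (ent L4194 s)) 0 = true := by decide +kernel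
theorem p4194 : PrL chk L4194 := leafL c4194

theorem c4195 : lp7 (fun s => chk (ent L4195 s)) 0 = true := by decide +kernel
theorem p4195 : PrL chk L4195 := leafL c4195

theorem c4196 : lp7 (fun s => chk (ent L4196 s)) 0 = true := by decide +kernel
theorem p4196 : PrL chk L4196 := leafL c4196

theorem c4197 : lp7 (fun s => chk (ent L4197 s)) 0 = true := by decide +kernel
theorem p4197 : PrL chk L4197 := leafL c4197

theorem c4198 : lp7 (fun s => chk (ent L4198 s)) 0 = true := by decide +kernel
theorem p4198 : PrL chk L4198 := leafL c4198

theorem c4199 : lp7 (fun s => chk (ent L4199 s)) 0 = true := by decide +kernel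
theorem p4199 : PrL chk L4199 := leafL c4199

theorem c4200 : lp7 (fun s => chk (ent L4200 s)) 0 = true := by decide +kernel
theorem p4200 : PrL chk L4200 := leafL c4200

theorem c4201 : lp7 (fun s => chk (ent L4201 s)) 0 = true := by decide +kernel
theorem p4201 : PrL chk L4201 := leafL c4201

theorem c4202 : lp7 (fun s => chk (ent L4202 s)) 0 = true := by decide +kernel
theorem p4202 : PrL chk L4202 := leafL c4202

theorem c4203 : lp7 (fun s => chk (ent L4203 s)) 0 = true := by decide +kernel
theorem p4203 : PrL chk L4203 := leafL c4203

theorem c4204 : lp7 (fun s => chk (ent L4204 s)) 0 = true := by decide +kernel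
theorem p4204 : PrL chk L4204 := leafL c4204

theorem c4205 : lp7 (fun s => chk (ent L4205 s)) 0 = true := by decide +kernel
theorem p4205 : PrL chk L4205 := leafL c4205

theorem c4206 : lp7 (fun s => chk (ent L4206 s)) 0 = true := by decide +kernel
theorem p4206 : PrL chk L4206 := leafL c4206

theorem c4207 : lp7 (fun s => chk (ent L4207 s)) 0 = true := by decide +kernel
theorem p4207 : PrL chk L4207 := leafL c4207

theorem c4208 : lp7 (fun s => chk (ent L4208 s)) 0 = true := by decide +kernel
theorem p4208 : PrL chk L4208 := leafL c4208

theorem c4209 : lp7 (fun s => chk (ent L4209 s)) 0 = true := by decide +kernel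
theorem p4209 : PrL chk L4209 := leafL c4209

theorem c4210 : lp7 (fun s => chk (ent L4210 s)) 0 = true := by decide +kernel
theorem p4210 : PrL chk L4210 := leafL c4210

theorem c4211 : lp7 (fun s => chk (ent L4211 s)) 0 = true := by decide +kernel
theorem p4211 : PrL chk L4211 := leafL c4211

theorem c4212 : lp7 (fun s => chk (ent L4212 s)) 0 = true := by decide +kernel
theorem p4212 : PrL chk L4212 := leafL c4212

theorem c4213 : lp7 (fun s => chk (ent L4213 s)) 0 = true := by decide +kernel
theorem p4213 : PrL chk L4213 := leafL c4213

theorem c4214 : lp7 (fun s => chk (ent L4214 s)) 0 = true := by decide +kernel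
theorem p4214 : PrL chk L4214 := leafL c4214

theorem c4215 : lp7 (fun s => chk (ent L4215 s)) 0 = true := by decide +kernel
theorem p4215 : PrL chk L4215 := leafL c4215

theorem c4216 : lp7 (fun s => chk (ent L4216 s)) 0 = true := by decide +kernel
theorem p4216 : PrL chk L4216 := leafL c4216

theorem c4217 : lp7 (fun s => chk (ent L4217 s)) 0 = true := by decide +kernel
theorem p4217 : PrL chk L4217 := leafL c4217

theorem c4218 : lp7 (fun s => chk (ent L4218 s)) 0 = true := by decide +kernel
theorem p4218 : PrL chk L4218 := leafL c4218

theorem c4219 : lp7 (fun s => chk (ent L4219 s)) 0 = true := by decide +kernel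
theorem p4219 : PrL chk L4219 := leafL c4219

theorem c4220 : lp7 (fun s => chk (ent L4220 s)) 0 = true := by decide +kernel
theorem p4220 : PrL chk L4220 := leafL c4220

theorem c4221 : lp7 (fun s => chk (ent L4221 s)) 0 = true := by decide +kernel
theorem p4221 : PrL chk L4221 := leafL c4221

theorem c4222 : lp7 (fun s => chk (ent L4222 s)) 0 = true := by decide +kernel
theorem p4222 : PrL chk L4222 := leafL c4222

theorem c4223 : lp7 (fun s => chk (ent L4223 s)) 0 = true := by decide +kernel
theorem p4223 : PrL chk L4223 := leafL c4223

theorem c4224 : lp7 (fun s => chk (ent L4224 s)) 0 = true := by decide +kernel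
theorem p4224 : PrL chk L4224 := leafL c4224

theorem c4225 : lp7 (fun s => chk (ent L4225 s)) 0 = true := by decide +kernel
theorem p4225 : PrL chk L4225 := leafL c4225

theorem c4226 : lp7 (fun s => chk (ent L4226 s)) 0 = true := by decide +kernel
theorem p4226 : PrL chk L4226 := leafL c4226

theorem c4227 : lp7 (fun s => chk (ent L4227 s)) 0 = true := by decide +kernel
theorem p4227 : PrL chk L4227 := leafL c4227

theorem c4228 : lp7 (fun s => chk (ent L4228 s)) 0 = true := by decide +kernel
theorem p4228 : PrL chk L4228 := leafL c4228

theorem c4229 : lp7 (fun s => chk (ent L4229 s)) 0 = true := by decide +kernel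
theorem p4229 : PrL chk L4229 := leafL c4229

theorem c4230 : lp7 (fun s => chk (ent L4230 s)) 0 = true := by decide +kernel
theorem p4230 : PrL chk L4230 := leafL c4230

theorem c4231 : lp7 (fun s => chk (ent L4231 s)) 0 = true := by decide +kernel
theorem p4231 : PrL chk L4231 := leafL c4231

theorem c4232 : lp7 (fun s => chk (ent L4232 s)) 0 = true := by decide +kernel
theorem p4232 : PrL chk L4232 := leafL c4232

theorem c4233 : lp7 (fun s => chk (ent L4233 s)) 0 = true := by decide +kernel
theorem p4233 : PrL chk L4233 := leafL c4233

theorem c4234 : lp7 (fun s => chk (ent L4234 s)) 0 = true := by decide +kernel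
theorem p4234 : PrL chk L4234 := leafL c4234

theorem c4235 : lp7 (fun s => chk (ent L4235 s)) 0 = true := by decide +kernel
theorem p4235 : PrL chk L4235 := leafL c4235

theorem c4236 : lp7 (fun s => chk (ent L4236 s)) 0 = true := by decide +kernel
theorem p4236 : PrL chk L4236 := leafL c4236

theorem c4237 : lp7 (fun s => chk (ent L4237 s)) 0 = true := by decide +kernel
theorem p4237 : PrL chk L4237 := leafL c4237

theorem c4238 : lp7 (fun s => chk (ent L4238 s)) 0 = true := by decide +kernel
theorem p4238 : PrL chk L4238 := leafL c4238

theorem c4239 : lp7 (fun s => chk (ent L4239 s)) 0 = true := by decide +kernel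
theorem p4239 : PrL chk L4239 := leafL c4239

theorem c4240 : lp7 (fun s => chk (ent L4240 s)) 0 = true := by decide +kernel
theorem p4240 : PrL chk L4240 := leafL c4240

theorem c4241 : lp7 (fun s => chk (ent L4241 s)) 0 = true := by decide +kernel
theorem p4241 : PrL chk L4241 := leafL c4241

theorem c4242 : lp7 (fun s => chk (ent L4242 s)) 0 = true := by decide +kernel
theorem p4242 : PrL chk L4242 := leafL c4242

theorem c4243 : lp7 (fun s => chk (ent L4243 s)) 0 = true := by decide +kernel
theorem p4243 : PrL chk L4243 := leafL c4243

theorem c4244 : lp7 (fun s => chk (ent L4244 s)) 0 = true := by decide +kernel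
theorem p4244 : PrL chk L4244 := leafL c4244

theorem c4245 : lp7 (fun s => chk (ent L4245 s)) 0 = true := by decide +kernel
theorem p4245 : PrL chk L4245 := leafL c4245

theorem c4246 : lp7 (fun s => chk (ent L4246 s)) 0 = true := by decide +kernel
theorem p4246 : PrL chk L4246 := leafL c4246

theorem c4247 : lp7 (fun s => chk (ent L4247 s)) 0 = true := by decide +kernel
theorem p4247 : PrL chk L4247 := leafL c4247

theorem c4248 : lp7 (fun s => chk (ent L4248 s)) 0 = true := by decide +kernel
theorem p4248 : PrL chk L4248 := leafL c4248

theorem c4249 : lp7 (fun s => chk (ent L4249 s)) 0 = true := by decide +kernel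
theorem p4249 : PrL chk L4249 := leafL c4249

theorem c4250 : lp7 (fun s => chk (ent L4250 s)) 0 = true := by decide +kernel
theorem p4250 : PrL chk L4250 := leafL c4250

theorem c4251 : lp7 (fun s => chk (ent L4251 s)) 0 = true := by decide +kernel
theorem p4251 : PrL chk L4251 := leafL c4251

theorem c4252 : lp7 (fun s => chk (ent L4252 s)) 0 = true := by decide +kernel
theorem p4252 : PrL chk L4252 := leafL c4252

theorem c4253 : lp7 (fun s => chk (ent L4253 s)) 0 = true := by decide +kernel
theorem p4253 : PrL chk L4253 := leafL c4253

theorem c4254 : lp7 (fun s => chk (ent L4254 s)) 0 = true := by decide +kernel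
theorem p4254 : PrL chk L4254 := leafL c4254

theorem c4255 : lp7 (fun s => chk (ent L4255 s)) 0 = true := by decide +kernel
theorem p4255 : PrL chk L4255 := leafL c4255

theorem c4256 : lp7 (fun s => chk (ent L4256 s)) 0 = true := by decide +kernel
theorem p4256 : PrL chk L4256 := leafL c4256

theorem c4257 : lp7 (fun s => chk (ent L4257 s)) 0 = true := by decide +kernel
theorem p4257 : PrL chk L4257 := leafL c4257

theorem c4258 : lp7 (fun s => chk (ent L4258 s)) 0 = true := by decide +kernel
theorem p4258 : PrL chk L4258 := leafL c4258

theorem c4259 : lp7 (fun s => chk (ent L4259 s)) 0 = true := by decide +kernel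
theorem p4259 : PrL chk L4259 := leafL c4259

theorem c4260 : lp7 (fun s => chk (ent L4260 s)) 0 = true := by decide +kernel
theorem p4260 : PrL chk L4260 := leafL c4260

theorem c4261 : lp7 (fun s => chk (ent L4261 s)) 0 = true := by decide +kernel
theorem p4261 : PrL chk L4261 := leafL c4261

theorem c4262 : lp7 (fun s => chk (ent L4262 s)) 0 = true := by decide +kernel
theorem p4262 : PrL chk L4262 := leafL c4262

theorem c4263 : lp7 (fun s => chk (ent L4263 s)) 0 = true := by decide +kernel
theorem p4263 : PrL chk L4263 := leafL c4263

theorem c4264 : lp7 (fun s => chk (ent L4264 s)) 0 = true := by decide +kernel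
theorem p4264 : PrL chk L4264 := leafL c4264

theorem c4265 : lp7 (fun s => chk (ent L4265 s)) 0 = true := by decide +kernel
theorem p4265 : PrL chk L4265 := leafL c4265

theorem c4266 : lp7 (fun s => chk (ent L4266 s)) 0 = true := by decide +kernel
theorem p4266 : PrL chk L4266 := leafL c4266

theorem c4267 : lp7 (fun s => chk (ent L4267 s)) 0 = true := by decide +kernel
theorem p4267 : PrL chk L4267 := leafL c4267

theorem c4268 : lp7 (fun s => chk (ent L4268 s)) 0 = true := by decide +kernel
theorem p4268 : PrL chk L4268 := leafL c4268

theorem c4269 : lp7 (fun s => chk (ent L4269 s)) 0 = true := by decide +kernel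
theorem p4269 : PrL chk L4269 := leafL c4269

theorem c4270 : lp7 (fun s => chk (ent L4270 s)) 0 = true := by decide +kernel
theorem p4270 : PrL chk L4270 := leafL c4270

theorem c4271 : lp7 (fun s => chk (ent L4271 s)) 0 = true := by decide +kernel
theorem p4271 : PrL chk L4271 := leafL c4271

theorem c4272 : lp7 (fun s => chk (ent L4272 s)) 0 = true := by decide +kernel
theorem p4272 : PrL chk L4272 := leafL c4272

theorem c4273 : lp7 (fun s => chk (ent L4273 s)) 0 = true := by decide +kernel
theorem p4273 : PrL chk L4273 := leafL c4273

theorem c4274 : lp7 (fun s => chk (ent L4274 s)) 0 = true := by decide +kernel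
theorem p4274 : PrL chk L4274 := leafL c4274

theorem c4275 : lp7 (fun s => chk (ent L4275 s)) 0 = true := by decide +kernel
theorem p4275 : PrL chk L4275 := leafL c4275

theorem c4276 : lp7 (fun s => chk (ent L4276 s)) 0 = true := by decide +kernel
theorem p4276 : PrL chk L4276 := leafL c4276

theorem c4277 : lp7 (fun s => chk (ent L4277 s)) 0 = true := by decide +kernel
theorem p4277 : PrL chk L4277 := leafL c4277

theorem c4278 : lp7 (fun s => chk (ent L4278 s)) 0 = true := by decide +kernel
theorem p4278 : PrL chk L4278 := leafL c4278

theorem c4279 : lp7 (fun s => chk (ent L4279 s)) 0 = true := by decide +kernel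
theorem p4279 : PrL chk L4279 := leafL c4279

theorem c4280 : lp7 (fun s => chk (ent L4280 s)) 0 = true := by decide +kernel
theorem p4280 : PrL chk L4280 := leafL c4280

theorem c4281 : lp7 (fun s => chk (ent L4281 s)) 0 = true := by decide +kernel
theorem p4281 : PrL chk L4281 := leafL c4281

theorem c4282 : lp7 (fun s => chk (ent L4282 s)) 0 = true := by decide +kernel
theorem p4282 : PrL chk L4282 := leafL c4282

theorem c4283 : lp7 (fun s => chk (ent L4283 s)) 0 = true := by decide +kernel
theorem p4283 : PrL chk L4283 := leafL c4283

theorem c4284 : lp7 (fun s => chk (ent L4284 s)) 0 = true := by decide +kernel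
theorem p4284 : PrL chk L4284 := leafL c4284

theorem c4285 : lp7 (fun s => chk (ent L4285 s)) 0 = true := by decide +kernel
theorem p4285 : PrL chk L4285 := leafL c4285

theorem c4286 : lp7 (fun s => chk (ent L4286 s)) 0 = true := by decide +kernel
theorem p4286 : PrL chk L4286 := leafL c4286

theorem c4287 : lp7 (fun s => chk (ent L4287 s)) 0 = true := by decide +kernel
theorem p4287 : PrL chk L4287 := leafL c4287

theorem c4288 : lp7 (fun s => chk (ent L4288 s)) 0 = true := by decide +kernel
theorem p4288 : PrL chk L4288 := leafL c4288

theorem c4289 : lp7 (fun s => chk (ent L4289 s)) 0 = true := by decide +kernel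
theorem p4289 : PrL chk L4289 := leafL c4289

theorem c4290 : lp7 (fun s => chk (ent L4290 s)) 0 = true := by decide +kernel
theorem p4290 : PrL chk L4290 := leafL c4290

theorem c4291 : lp7 (fun s => chk (ent L4291 s)) 0 = true := by decide +kernel
theorem p4291 : PrL chk L4291 := leafL c4291

theorem c4292 : lp7 (fun s => chk (ent L4292 s)) 0 = true := by decide +kernel
theorem p4292 : PrL chk L4292 := leafL c4292

theorem c4293 : lp7 (fun s => chk (ent L4293 s)) 0 = true := by decide +kernel
theorem p4293 : PrL chk L4293 := leafL c4293

theorem c4294 : lp7 (fun s => chk (ent L4294 s)) 0 = true := by decide +kernel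
theorem p4294 : PrL chk L4294 := leafL c4294

theorem c4295 : lp7 (fun s => chk (ent L4295 s)) 0 = true := by decide +kernel
theorem p4295 : PrL chk L4295 := leafL c4295

theorem c4296 : lp7 (fun s => chk (ent L4296 s)) 0 = true := by decide +kernel
theorem p4296 : PrL chk L4296 := leafL c4296

theorem c4297 : lp7 (fun s => chk (ent L4297 s)) 0 = true := by decide +kernel
theorem p4297 : PrL chk L4297 := leafL c4297

theorem c4298 : lp7 (fun s => chk (ent L4298 s)) 0 = true := by decide +kernel
theorem p4298 : PrL chk L4298 := leafL c4298

theorem c4299 : lp7 (fun s => chk (ent L4299 s)) 0 = true := by decide +kernel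
theorem p4299 : PrL chk L4299 := leafL c4299

theorem c4300 : lp7 (fun s => chk (ent L4300 s)) 0 = true := by decide +kernel
theorem p4300 : PrL chk L4300 := leafL c4300

theorem c4301 : lp7 (fun s => chk (ent L4301 s)) 0 = true := by decide +kernel
theorem p4301 : PrL chk L4301 := leafL c4301

theorem c4302 : lp7 (fun s => chk (ent L4302 s)) 0 = true := by decide +kernel
theorem p4302 : PrL chk L4302 := leafL c4302

theorem c4303 : lp7 (fun s => chk (ent L4303 s)) 0 = true := by decide +kernel
theorem p4303 : PrL chk L4303 := leafL c4303

theorem c4304 : lp7 (fun s => chk (ent L4304 s)) 0 = true := by decide +kernel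
theorem p4304 : PrL chk L4304 := leafL c4304

theorem c4305 : lp7 (fun s => chk (ent L4305 s)) 0 = true := by decide +kernel
theorem p4305 : PrL chk L4305 := leafL c4305

theorem c4306 : lp7 (fun s => chk (ent L4306 s)) 0 = true := by decide +kernel
theorem p4306 : PrL chk L4306 := leafL c4306

theorem c4307 : lp7 (fun s => chk (ent L4307 s)) 0 = true := by decide +kernel
theorem p4307 : PrL chk L4307 := leafL c4307

theorem c4308 : lp7 (fun s => chk (ent L4308 s)) 0 = true := by decide +kernel
theorem p4308 : PrL chk L4308 := leafL c4308

theorem c4309 : lp7 (fun s => chk (ent L4309 s)) 0 = true := by decide +kernel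
theorem p4309 : PrL chk L4309 := leafL c4309

theorem c4310 : lp7 (fun s => chk (ent L4310 s)) 0 = true := by decide +kernel
theorem p4310 : PrL chk L4310 := leafL c4310

theorem c4311 : lp7 (fun s => chk (ent L4311 s)) 0 = true := by decide +kernel
theorem p4311 : PrL chk L4311 := leafL c4311

theorem c4312 : lp7 (fun s => chk (ent L4312 s)) 0 = true := by decide +kernel
theorem p4312 : PrL chk L4312 := leafL c4312

theorem c4313 : lp7 (fun s => chk (ent L4313 s)) 0 = true := by decide +kernel
theorem p4313 : PrL chk L4313 := leafL c4313

theorem c4314 : lp7 (fun s => chk (ent L4314 s)) 0 = true := by decide +kernel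
theorem p4314 : PrL chk L4314 := leafL c4314

theorem c4315 : lp7 (fun s => chk (ent L4315 s)) 0 = true := by decide +kernel
theorem p4315 : PrL chk L4315 := leafL c4315

theorem c4316 : lp7 (fun s => chk (ent L4316 s)) 0 = true := by decide +kernel
theorem p4316 : PrL chk L4316 := leafL c4316

theorem c4317 : lp7 (fun s => chk (ent L4317 s)) 0 = true := by decide +kernel
theorem p4317 : PrL chk L4317 := leafL c4317

theorem c4318 : lp7 (fun s => chk (ent L4318 s)) 0 = true := by decide +kernel
theorem p4318 : PrL chk L4318 := leafL c4318

theorem c4319 : lp7 (fun s => chk (ent L4319 s)) 0 = true := by decide +kernel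
theorem p4319 : PrL chk L4319 := leafL c4319

theorem c4320 : lp7 (fun s => chk (ent L4320 s)) 0 = true := by decide +kernel
theorem p4320 : PrL chk L4320 := leafL c4320

theorem c4321 : lp7 (fun s => chk (ent L4321 s)) 0 = true := by decide +kernel
theorem p4321 : PrL chk L4321 := leafL c4321

theorem c4322 : lp7 (fun s => chk (ent L4322 s)) 0 = true := by decide +kernel
theorem p4322 : PrL chk L4322 := leafL c4322

theorem c4323 : lp7 (fun s => chk (ent L4323 s)) 0 = true := by decide +kernel
theorem p4323 : PrL chk L4323 := leafL c4323

theorem c4324 : lp7 (fun s => chk (ent L4324 s)) 0 = true := by decide +kernel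
theorem p4324 : PrL chk L4324 := leafL c4324

theorem c4325 : lp7 (fun s => chk (ent L4325 s)) 0 = true := by decide +kernel
theorem p4325 : PrL chk L4325 := leafL c4325

theorem c4326 : lp7 (fun s => chk (ent L4326 s)) 0 = true := by decide +kernel
theorem p4326 : PrL chk L4326 := leafL c4326

theorem c4327 : lp7 (fun s => chk (ent L4327 s)) 0 = true := by decide +kernel
theorem p4327 : PrL chk L4327 := leafL c4327

theorem c4328 : lp7 (fun s => chk (ent L4328 s)) 0 = true := by decide +kernel
theorem p4328 : PrL chk L4328 := leafL c4328

theorem c4329 : lp7 (fun s => chk (ent L4329 s)) 0 = true := by decide +kernel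
theorem p4329 : PrL chk L4329 := leafL c4329

theorem c4330 : lp7 (fun s => chk (ent L4330 s)) 0 = true := by decide +kernel
theorem p4330 : PrL chk L4330 := leafL c4330

theorem c4331 : lp7 (fun s => chk (ent L4331 s)) 0 = true := by decide +kernel
theorem p4331 : PrL chk L4331 := leafL c4331

theorem c4332 : lp7 (fun s => chk (ent L4332 s)) 0 = true := by decide +kernel
theorem p4332 : PrL chk L4332 := leafL c4332

theorem c4333 : lp7 (fun s => chk (ent L4333 s)) 0 = true := by decide +kernel
theorem p4333 : PrL chk L4333 := leafL c4333

theorem c4334 : lp7 (fun s => chk (ent L4334 s)) 0 = true := by decide +kernel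
theorem p4334 : PrL chk L4334 := leafL c4334

theorem c4335 : lp7 (fun s => chk (ent L4335 s)) 0 = true := by decide +kernel
theorem p4335 : PrL chk L4335 := leafL c4335

theorem c4336 : lp7 (fun s => chk (ent L4336 s)) 0 = true := by decide +kernel
theorem p4336 : PrL chk L4336 := leafL c4336

theorem c4337 : lp7 (fun s => chk (ent L4337 s)) 0 = true := by decide +kernel
theorem p4337 : PrL chk L4337 := leafL c4337

theorem c4338 : lp7 (fun s => chk (ent L4338 s)) 0 = true := by decide +kernel
theorem p4338 : PrL chk L4338 := leafL c4338

theorem c4339 : lp7 (fun s => chk (ent L4339 s)) 0 = true := by decide +kernel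
theorem p4339 : PrL chk L4339 := leafL c4339

theorem c4340 : lp7 (fun s => chk (ent L4340 s)) 0 = true := by decide +kernel
theorem p4340 : PrL chk L4340 := leafL c4340

theorem c4341 : lp7 (fun s => chk (ent L4341 s)) 0 = true := by decide +kernel
theorem p4341 : PrL chk L4341 := leafL c4341

theorem c4342 : lp7 (fun s => chk (ent L4342 s)) 0 = true := by decide +kernel
theorem p4342 : PrL chk L4342 := leafL c4342

theorem c4343 : lp7 (fun s => chk (ent L4343 s)) 0 = true := by decide +kernel
theorem p4343 : PrL chk L4343 := leafL c4343

theorem c4344 : lp7 (fun s => chk (ent L4344 s)) 0 = true := by decide +kernel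
theorem p4344 : PrL chk L4344 := leafL c4344

theorem c4345 : lp7 (fun s => chk (ent L4345 s)) 0 = true := by decide +kernel
theorem p4345 : PrL chk L4345 := leafL c4345

theorem c4346 : lp7 (fun s => chk (ent L4346 s)) 0 = true := by decide +kernel
theorem p4346 : PrL chk L4346 := leafL c4346

theorem c4347 : lp7 (fun s => chk (ent L4347 s)) 0 = true := by decide +kernel
theorem p4347 : PrL chk L4347 := leafL c4347

theorem c4348 : lp7 (fun s => chk (ent L4348 s)) 0 = true := by decide +kernel
theorem p4348 : PrL chk L4348 := leafL c4348

theorem c4349 : lp7 (fun s => chk (ent L4349 s)) 0 = true := by decide +kernel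
theorem p4349 : PrL chk L4349 := leafL c4349

theorem c4350 : lp7 (fun s => chk (ent L4350 s)) 0 = true := by decide +kernel
theorem p4350 : PrL chk L4350 := leafL c4350

theorem c4351 : lp7 (fun s => chk (ent L4351 s)) 0 = true := by decide +kernel
theorem p4351 : PrL chk L4351 := leafL c4351

end Pool.Agent.ad013a.LA
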