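import Pool.Agent.H.MP_ad013a_pr.h63l.A.T
import Pool.Agent.H.MP_ad013a_pr.h63w.VLoop

namespace Pool.Agent.ad013a.LA

theorem c4352 : lp7 (fun s => chk (ent L4352 s)) 0 = true := by decide +kernel
theorem p4352 : PrL chk L4352 := leafL c4352

theorem c4353 : lp7 (fun s => chk (ent L4353 s)) 0 = true := by decide +kernel
theorem p4353 : PrL chk L4353 := leafL c4353

theorem c4354 : lp7 (fun s => chk (ent L4354 s)) 0 = true := by decide +kernel
theorem p4354 : PrL chk L4354 := leafL c4354

theorem c4355 : lp7 (fun s => chk (ent L4355 s)) 0 = true := by decide +kernel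
theorem p4355 : PrL chk L4355 := leafL c4355

theorem c4356 : lp7 (fun s => chk (ent L4356 s)) 0 = true := by decide +kernel
theorem p4356 : PrL chk L4356 := leafL c4356

theorem c4357 : lp7 (fun s => chk (ent L4357 s)) 0 = true := by decide +kernel
theorem p4357 : PrL chk L4357 := leafL c4357

theorem c4358 : lp7 (fun s => chk (ent L4358 s)) 0 = true := by decide +kernel
theorem p4358 : PrL chk L4358 := leafL c4358

theorem c4359 : lp7 (fun s => chk (ent L4359 s)) 0 = true := by decide +kernel
theorem p4359 : PrL chk L4359 := leafL c4359

theorem c4360 : lp7 (fun s => chk (ent L4360 s)) 0 = true := by decide +kernel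
theorem p4360 : PrL chk L4360 := leafL c4360

theorem c4361 : lp7 (fun s => chk (ent L4361 s)) 0 = true := by decide +kernel
theorem p4361 : PrL chk L4361 := leafL c4361

theorem c4362 : lp7 (fun s => chk (ent L4362 s)) 0 = true := by decide +kernel
theorem p4362 : PrL chk L4362 := leafL c4362

theorem c4363 : lp7 (fun s => chk (ent L4363 s)) 0 = true := by decide +kernel
theorem p4363 : PrL chk L4363 := leafL c4363

theorem c4364 : lp7 (fun s => chk (ent L4364 s)) 0 = true := by decide +kernel
theorem p4364 : PrL chk L4364 := leafL c4364

theorem c4365 : lp7 (fun s => chk (ent L4365 s)) 0 = true := by decide +kernel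
theorem p4365 : PrL chk L4365 := leafL c4365

theorem c4366 : lp7 (fun s => chk (ent L4366 s)) 0 = true := by decide +kernel
theorem p4366 : PrL chk L4366 := leafL c4366

theorem c4367 : lp7 (fun s => chk (ent L4367 s)) 0 = true := by decide +kernel
theorem p4367 : PrL chk L4367 := leafL c4367

theorem c4368 : lp7 (fun s => chk (ent L4368 s)) 0 = true := by decide +kernel
theorem p4368 : PrL chk L4368 := leafL c4368

theorem c4369 : lp7 (fun s => chk (ent L4369 s)) 0 = true := by decide +kernel
theorem p4369 : PrL chk L4369 := leafL c4369

theorem c4370 : lp7 (fun s => chk (ent L4370 s)) 0 = true := by decide +kernel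
theorem p4370 : PrL chk L4370 := leafL c4370

theorem c4371 : lp7 (fun s => chk (ent L4371 s)) 0 = true := by decide +kernel
theorem p4371 : PrL chk L4371 := leafL c4371

theorem c4372 : lp7 (fun s => chk (ent L4372 s)) 0 = true := by decide +kernel
theorem p4372 : PrL chk L4372 := leafL c4372

theorem c4373 : lp7 (fun s => chk (ent L4373 s)) 0 = true := by decide +kernel
theorem p4373 : PrL chk L4373 := leafL c4373

theorem c4374 : lp7 (fun s => chk (ent L4374 s)) 0 = true := by decide +kernel
theorem p4374 : PrL chk L4374 := leafL c4374

theorem c4375 : lp7 (fun s => chk (ent L4375 s)) 0 = true := by decide +kernel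
theorem p4375 : PrL chk L4375 := leafL c4375

theorem c4376 : lp7 (fun s => chk (ent L4376 s)) 0 = true := by decide +kernel
theorem p4376 : PrL chk L4376 := leafL c4376

theorem c4377 : lp7 (fun s => chk (ent L4377 s)) 0 = true := by decide +kernel
theorem p4377 : PrL chk L4377 := leafL c4377

theorem c4378 : lp7 (fun s => chk (ent L4378 s)) 0 = true := by decide +kernel
theorem p4378 : PrL chk L4378 := leafL c4378

theorem c4379 : lp7 (fun s => chk (ent L4379 s)) 0 = true := by decide +kernel
theorem p4379 : PrL chk L4379 := leafL c4379

theorem c4380 : lp7 (fun s => chk (ent L4380 s)) 0 = true := by decide +kernel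
theorem p4380 : PrL chk L4380 := leafL c4380

theorem c4381 : lp7 (fun s => chk (ent L4381 s)) 0 = true := by decide +kernel
theorem p4381 : PrL chk L4381 := leafL c4381

theorem c4382 : lp7 (fun s => chk (ent L4382 s)) 0 = true := by decide +kernel
theorem p4382 : PrL chk L4382 := leafL c4382

theorem c4383 : lp7 (fun s => chk (ent L4383 s)) 0 = true := by decide +kernel
theorem p4383 : PrL chk L4383 := leafL c4383

theorem c4384 : lp7 (fun s => chk (ent L4384 s)) 0 = true := by decide +kernel
theorem p4384 : PrL chk L4384 := leafL c4384

theorem c4385 : lp7 (fun s => chk (ent L4385 s)) 0 = true := by decide +kernel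
theorem p4385 : PrL chk L4385 := leafL c4385

theorem c4386 : lp7 (fun s => chk (ent L4386 s)) 0 = true := by decide +kernel
theorem p4386 : PrL chk L4386 := leafL c4386

theorem c4387 : lp7 (fun s => chk (ent L4387 s)) 0 = true := by decide +kernel
theorem p4387 : PrL chk L4387 := leafL c4387

theorem c4388 : lp7 (fun s => chk (ent L4388 s)) 0 = true := by decide +kernel
theorem p4388 : PrL chk L4388 := leafL c4388

theorem c4389 : lp7 (fun s => chk (ent L4389 s)) 0 = true := by decide +kernel
theorem p4389 : PrL chk L4389 := leafL c4389

theorem c4390 : lp7 (fun s => chk (ent L4390 s)) 0 = true := by decide +kernel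
theorem p4390 : PrL chk L4390 := leafL c4390

theorem c4391 : lp7 (fun s => chk (ent L4391 s)) 0 = true := by decide +kernel
theorem p4391 : PrL chk L4391 := leafL c4391

theorem c4392 : lp7 (fun s => chk (ent L4392 s)) 0 = true := by decide +kernel
theorem p4392 : PrL chk L4392 := leafL c4392

theorem c4393 : lp7 (fun s => chk (ent L4393 s)) 0 = true := by decide +kernel
theorem p4393 : PrL chk L4393 := leafL c4393

theorem c4394 : lp7 (fun s => chk (ent L4394 s)) 0 = true := by decide +kernel
theorem p4394 : PrL chk L4394 := leafL c4394

theorem c4395 : lp7 (fun s => chk (ent L4395 s)) 0 = true := by decide +kernel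
theorem p4395 : PrL chk L4395 := leafL c4395

theorem c4396 : lp7 (fun s => chk (ent L4396 s)) 0 = true := by decide +kernel
theorem p4396 : PrL chk L4396 := leafL c4396

theorem c4397 : lp7 (fun s => chk (ent L4397 s)) 0 = true := by decide +kernel
theorem p4397 : PrL chk L4397 := leafL c4397

theorem c4398 : lp7 (fun s => chk (ent L4398 s)) 0 = true := by decide +kernel
theorem p4398 : PrL chk L4398 := leafL c4398

theorem c4399 : lp7 (fun s => chk (ent L4399 s)) 0 = true := by decide +kernel
theorem p4399 : PrL chk L4399 := leafL c4399

theorem c4400 : lp7 (fun s => chk (ent L4400 s)) 0 = true := by decide +kernel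
theorem p4400 : PrL chk L4400 := leafL c4400

theorem c4401 : lp7 (fun s => chk (ent L4401 s)) 0 = true := by decide +kernel
theorem p4401 : PrL chk L4401 := leafL c4401

theorem c4402 : lp7 (fun s => chk (ent L4402 s)) 0 = true := by decide +kernel
theorem p4402 : PrL chk L4402 := leafL c4402

theorem c4403 : lp7 (fun s => chk (ent L4403 s)) 0 = true := by decide +kernel
theorem p4403 : PrL chk L4403 := leafL c4403

theorem c4404 : lp7 (fun s => chk (ent L4404 s)) 0 = true := by decide +kernel
theorem p4404 : PrL chk L4404 := leafL c4404

theorem c4405 : lp7 (fun s => chk (ent L4405 s)) 0 = true := by decide +kernel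
theorem p4405 : PrL chk L4405 := leafL c4405

theorem c4406 : lp7 (fun s => chk (ent L4406 s)) 0 = true := by decide +kernel
theorem p4406 : PrL chk L4406 := leafL c4406

theorem c4407 : lp7 (fun s => chk (ent L4407 s)) 0 = true := by decide +kernel
theorem p4407 : PrL chk L4407 := leafL c4407

theorem c4408 : lp7 (fun s => chk (ent L4408 s)) 0 = true := by decide +kernel
theorem p4408 : PrL chk L4408 := leafL c4408

theorem c4409 : lp7 (fun s => chk (ent L4409 s)) 0 = true := by decide +kernel
theorem p4409 : PrL chk L4409 := leafL c4409

theorem c4410 : lp7 (fun s => chk (ent L4410 s)) 0 = true := by decide +kernel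
theorem p4410 : PrL chk L4410 := leafL c4410

theorem c4411 : lp7 (fun s => chk (ent L4411 s)) 0 = true := by decide +kernel
theorem p4411 : PrL chk L4411 := leafL c4411

theorem c4412 : lp7 (fun s => chk (ent L4412 s)) 0 = true := by decide +kernel
theorem p4412 : PrL chk L4412 := leafL c4412

theorem c4413 : lp7 (fun s => chk (ent L4413 s)) 0 = true := by decide +kernel
theorem p4413 : PrL chk L4413 := leafL c4413

theorem c4414 : lp7 (fun s => chk (ent L4414 s)) 0 = true := by decide +kernel
theorem p4414 : PrL chk L4414 := leafL c4414

theorem c4415 : lp7 (fun s => chk (ent L4415 s)) 0 = true := by decide +kernel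
theorem p4415 : PrL chk L4415 := leafL c4415

theorem c4416 : lp7 (fun s => chk (ent L4416 s)) 0 = true := by decide +kernel
theorem p4416 : PrL chk L4416 := leafL c4416

theorem c4417 : lp7 (fun s => chk (ent L4417 s)) 0 = true := by decide +kernel
theorem p4417 : PrL chk L4417 := leafL c4417

theorem c4418 : lp7 (fun s => chk (ent L4418 s)) 0 = true := by decide +kernel
theorem p4418 : PrL chk L4418 := leafL c4418

theorem c4419 : lp7 (fun s => chk (ent L4419 s)) 0 = true := by decide +kernel
theorem p4419 : PrL chk L4419 := leafL c4419

theorem c4420 : lp7 (fun s => chk (ent L4420 s)) 0 = true := by decide +kernel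
theorem p4420 : PrL chk L4420 := leafL c4420

theorem c4421 : lp7 (fun s => chk (ent L4421 s)) 0 = true := by decide +kernel
theorem p4421 : PrL chk L4421 := leafL c4421

theorem c4422 : lp7 (fun s => chk (ent L4422 s)) 0 = true := by decide +kernel
theorem p4422 : PrL chk L4422 := leafL c4422

theorem c4423 : lp7 (fun s => chk (ent L4423 s)) 0 = true := by decide +kernel
theorem p4423 : PrL chk L4423 := leafL c4423

theorem c4424 : lp7 (fun s => chk (ent L4424 s)) 0 = true := by decide +kernel
theorem p4424 : PrL chk L4424 := leafL c4424

theorem c4425 : lp7 (fun s => chk (ent L4425 s)) 0 = true := by decide +kernel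
theorem p4425 : PrL chk L4425 := leafL c4425

theorem c4426 : lp7 (fun s => chk (ent L4426 s)) 0 = true := by decide +kernel
theorem p4426 : PrL chk L4426 := leafL c4426

theorem c4427 : lp7 (fun s => chk (ent L4427 s)) 0 = true := by decide +kernel
theorem p4427 : PrL chk L4427 := leafL c4427

theorem c4428 : lp7 (fun s => chk (ent L4428 s)) 0 = true := by decide +kernel
theorem p4428 : PrL chk L4428 := leafL c4428

theorem c4429 : lp7 (fun s => chk (ent L4429 s)) 0 = true := by decide +kernel
theorem p4429 : PrL chk L4429 := leafL c4429

theorem c4430 : lp7 (fun s => chk (ent L4430 s)) 0 = true := by decide +kernel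
theorem p4430 : PrL chk L4430 := leafL c4430

theorem c4431 : lp7 (fun s => chk (ent L4431 s)) 0 = true := by decide +kernel
theorem p4431 : PrL chk L4431 := leafL c4431

theorem c4432 : lp7 (fun s => chk (ent L4432 s)) 0 = true := by decide +kernel
theorem p4432 : PrL chk L4432 := leafL c4432

theorem c4433 : lp7 (fun s => chk (ent L4433 s)) 0 = true := by decide +kernel
theorem p4433 : PrL chk L4433 := leafL c4433

theorem c4434 : lp7 (fun s => chk (ent L4434 s)) 0 = true := by decide +kernel
theorem p4434 : PrL chk L4434 := leafL c4434

theorem c4435 : lp7 (fun s => chk (ent L4435 s)) 0 = true := by decide +kernel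
theorem p4435 : PrL chk L4435 := leafL c4435

theorem c4436 : lp7 (fun s => chk (ent L4436 s)) 0 = true := by decide +kernel
theorem p4436 : PrL chk L4436 := leafL c4436

theorem c4437 : lp7 (fun s => chk (ent L4437 s)) 0 = true := by decide +kernel
theorem p4437 : PrL chk L4437 := leafL c4437

theorem c4438 : lp7 (fun s => chk (ent L4438 s)) 0 = true := by decide +kernel
theorem p4438 : PrL chk L4438 := leafL c4438

theorem c4439 : lp7 (fun s => chk (ent L4439 s)) 0 = true := by decide +kernel
theorem p4439 : PrL chk L4439 := leafL c4439

theorem c4440 : lp7 (fun s => chk (ent L4440 s)) 0 = true := by decide +kernel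
theorem p4440 : PrL chk L4440 := leafL c4440

theorem c4441 : lp7 (fun s => chk (ent L4441 s)) 0 = true := by decide +kernel
theorem p4441 : PrL chk L4441 := leafL c4441

theorem c4442 : lp7 (fun s => chk (ent L4442 s)) 0 = true := by decide +kernel
theorem p4442 : PrL chk L4442 := leafL c4442

theorem c4443 : lp7 (fun s => chk (ent L4443 s)) 0 = true := by decide +kernel
theorem p4443 : PrL chk L4443 := leafL c4443

theorem c4444 : lp7 (fun s => chk (ent L4444 s)) 0 = true := by decide +kernel
theorem p4444 : PrL chk L4444 := leafL c4444

theorem c4445 : lp7 (fun s => chk (ent L4445 s)) 0 = true := by decide +kernel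
theorem p4445 : PrL chk L4445 := leafL c4445

theorem c4446 : lp7 (fun s => chk (ent L4446 s)) 0 = true := by decide +kernel
theorem p4446 : PrL chk L4446 := leafL c4446

theorem c4447 : lp7 (fun s => chk (ent L4447 s)) 0 = true := by decide +kernel
theorem p4447 : PrL chk L4447 := leafL c4447

theorem c4448 : lp7 (fun s => chk (ent L4448 s)) 0 = true := by decide +kernel
theorem p4448 : PrL chk L4448 := leafL c4448

theorem c4449 : lp7 (fun s => chk (ent L4449 s)) 0 = true := by decide +kernel
theorem p4449 : PrL chk L4449 := leafL c4449

theorem c4450 : lp7 (fun s => chk (ent L4450 s)) 0 = true := by decide +kernel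
theorem p4450 : PrL chk L4450 := leafL c4450

theorem c4451 : lp7 (fun s => chk (ent L4451 s)) 0 = true := by decide +kernel
theorem p4451 : PrL chk L4451 := leafL c4451

theorem c4452 : lp7 (fun s => chk (ent L4452 s)) 0 = true := by decide +kernel
theorem p4452 : PrL chk L4452 := leafL c4452

theorem c4453 : lp7 (fun s => chk (ent L4453 s)) 0 = true := by decide +kernel
theorem p4453 : PrL chk L4453 := leafL c4453

theorem c4454 : lp7 (fun s => chk (ent L4454 s)) 0 = true := by decide +kernel
theorem p4454 : PrL chk L4454 := leafL c4454

theorem c4455 : lp7 (fun s => chk (ent L4455 s)) 0 = true := by decide +kernel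
theorem p4455 : PrL chk L4455 := leafL c4455

theorem c4456 : lp7 (fun s => chk (ent L4456 s)) 0 = true := by decide +kernel
theorem p4456 : PrL chk L4456 := leafL c4456

theorem c4457 : lp7 (fun s => chk (ent L4457 s)) 0 = true := by decide +kernel
theorem p4457 : PrL chk L4457 := leafL c4457

theorem c4458 : lp7 (fun s => chk (ent L4458 s)) 0 = true := by decide +kernel
theorem p4458 : PrL chk L4458 := leafL c4458

theorem c4459 : lp7 (fun s => chk (ent L4459 s)) 0 = true := by decide +kernel
theorem p4459 : PrL chk L4459 := leafL c4459

theorem c4460 : lp7 (fun s => chk (ent L4460 s)) 0 = true := by decide +kernel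
theorem p4460 : PrL chk L4460 := leafL c4460

theorem c4461 : lp7 (fun s => chk (ent L4461 s)) 0 = true := by decide +kernel
theorem p4461 : PrL chk L4461 := leafL c4461

theorem c4462 : lp7 (fun s => chk (ent L4462 s)) 0 = true := by decide +kernel
theorem p4462 : PrL chk L4462 := leafL c4462

theorem c4463 : lp7 (fun s => chk (ent L4463 s)) 0 = true := by decide +kernel
theorem p4463 : PrL chk L4463 := leafL c4463

theorem c4464 : lp7 (fun s => chk (ent L4464 s)) 0 = true := by decide +kernel
theorem p4464 : PrL chk L4464 := leafL c4464

theorem c4465 : lp7 (fun s => chk (ent L4465 s)) 0 = true := by decide +kernel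
theorem p4465 : PrL chk L4465 := leafL c4465

theorem c4466 : lp7 (fun s => chk (ent L4466 s)) 0 = true := by decide +kernel
theorem p4466 : PrL chk L4466 := leafL c4466

theorem c4467 : lp7 (fun s => chk (ent L4467 s)) 0 = true := by decide +kernel
theorem p4467 : PrL chk L4467 := leafL c4467

theorem c4468 : lp7 (fun s => chk (ent L4468 s)) 0 = true := by decide +kernel
theorem p4468 : PrL chk L4468 := leafL c4468

theorem c4469 : lp7 (fun s => chk (ent L4469 s)) 0 = true := by decide +kernel
theorem p4469 : PrL chk L4469 := leafL c4469

theorem c4470 : lp7 (fun s => chk (ent L4470 s)) 0 = true := by decide +kernel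
theorem p4470 : PrL chk L4470 := leafL c4470

theorem c4471 : lp7 (fun s => chk (ent L4471 s)) 0 = true := by decide +kernel
theorem p4471 : PrL chk L4471 := leafL c4471

theorem c4472 : lp7 (fun s => chk (ent L4472 s)) 0 = true := by decide +kernel
theorem p4472 : PrL chk L4472 := leafL c4472

theorem c4473 : lp7 (fun s => chk (ent L4473 s)) 0 = true := by decide +kernel
theorem p4473 : PrL chk L4473 := leafL c4473

theorem c4474 : lp7 (fun s => chk (ent L4474 s)) 0 = true := by decide +kernel
theorem p4474 : PrL chk L4474 := leafL c4474

theorem c4475 : lp7 (fun s => chk (ent L4475 s)) 0 = true := by decide +kernel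
theorem p4475 : PrL chk L4475 := leafL c4475

theorem c4476 : lp7 (fun s => chk (ent L4476 s)) 0 = true := by decide +kernel
theorem p4476 : PrL chk L4476 := leafL c4476

theorem c4477 : lp7 (fun s => chk (ent L4477 s)) 0 = true := by decide +kernel
theorem p4477 : PrL chk L4477 := leafL c4477

theorem c4478 : lp7 (fun s => chk (ent L4478 s)) 0 = true := by decide +kernel
theorem p4478 : PrL chk L4478 := leafL c4478

theorem c4479 : lp7 (fun s => chk (ent L4479 s)) 0 = true := by decide +kernel
theorem p4479 : PrL chk L4479 := leafL c4479

theorem c4480 : lp7 (fun s => chk (ent L4480 s)) 0 = true := by decide +kernel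
theorem p4480 : PrL chk L4480 := leafL c4480

theorem c4481 : lp7 (fun s => chk (ent L4481 s)) 0 = true := by decide +kernel
theorem p4481 : PrL chk L4481 := leafL c4481

theorem c4482 : lp7 (fun s => chk (ent L4482 s)) 0 = true := by decide +kernel
theorem p4482 : PrL chk L4482 := leafL c4482

theorem c4483 : lp7 (fun s => chk (ent L4483 s)) 0 = true := by decide +kernel
theorem p4483 : PrL chk L4483 := leafL c4483

theorem c4484 : lp7 (fun s => chk (ent L4484 s)) 0 = true := by decide +kernel
theorem p4484 : PrL chk L4484 := leafL c4484

theorem c4485 : lp7 (fun s => chk (ent L4485 s)) 0 = true := by decide +kernel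
theorem p4485 : PrL chk L4485 := leafL c4485

theorem c4486 : lp7 (fun s => chk (ent L4486 s)) 0 = true := by decide +kernel
theorem p4486 : PrL chk L4486 := leafL c4486

theorem c4487 : lp7 (fun s => chk (ent L4487 s)) 0 = true := by decide +kernel
theorem p4487 : PrL chk L4487 := leafL c4487

theorem c4488 : lp7 (fun s => chk (ent L4488 s)) 0 = true := by decide +kernel
theorem p4488 : PrL chk L4488 := leafL c4488

theorem c4489 : lp7 (fun s => chk (ent L4489 s)) 0 = true := by decide +kernel
theorem p4489 : PrL chk L4489 := leafL c4489

theorem c4490 : lp7 (fun s => chk (ent L4490 s)) 0 = true := by decide +kernel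
theorem p4490 : PrL chk L4490 := leafL c4490

theorem c4491 : lp7 (fun s => chk (ent L4491 s)) 0 = true := by decide +kernel
theorem p4491 : PrL chk L4491 := leafL c4491

theorem c4492 : lp7 (fun s => chk (ent L4492 s)) 0 = true := by decide +kernel
theorem p4492 : PrL chk L4492 := leafL c4492

theorem c4493 : lp7 (fun s => chk (ent L4493 s)) 0 = true := by decide +kernel
theorem p4493 : PrL chk L4493 := leafL c4493

theorem c4494 : lp7 (fun s => chk (ent L4494 s)) 0 = true := by decide +kernel
theorem p4494 : PrL chk L4494 := leafL c4494

theorem c4495 : lp7 (fun s => chk (ent L4495 s)) 0 = true := by decide +kernel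
theorem p4495 : PrL chk L4495 := leafL c4495

theorem c4496 : lp7 (fun s => chk (ent L4496 s)) 0 = true := by decide +kernel
theorem p4496 : PrL chk L4496 := leafL c4496

theorem c4497 : lp7 (fun s => chk (ent L4497 s)) 0 = true := by decide +kernel
theorem p4497 : PrL chk L4497 := leafL c4497

theorem c4498 : lp7 (fun s => chk (ent L4498 s)) 0 = true := by decide +kernel
theorem p4498 : PrL chk L4498 := leafL c4498

theorem c4499 : lp7 (fun s => chk (ent L4499 s)) 0 = true := by decide +kernel
theorem p4499 : PrL chk L4499 := leafL c4499

theorem c4500 : lp7 (fun s => chk (ent L4500 s)) 0 = true := by decide +kernel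
theorem p4500 : PrL chk L4500 := leafL c4500

theorem c4501 : lp7 (fun s => chk (ent L4501 s)) 0 = true := by decide +kernel
theorem p4501 : PrL chk L4501 := leafL c4501

theorem c4502 : lp7 (fun s => chk (ent L4502 s)) 0 = true := by decide +kernel
theorem p4502 : PrL chk L4502 := leafL c4502

theorem c4503 : lp7 (fun s => chk (ent L4503 s)) 0 = true := by decide +kernel
theorem p4503 : PrL chk L4503 := leafL c4503

theorem c4504 : lp7 (fun s => chk (ent L4504 s)) 0 = true := by decide +kernel
theorem p4504 : PrL chk L4504 := leafL c4504

theorem c4505 : lp7 (fun s => chk (ent L4505 s)) 0 = true := by decide +kernel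
theorem p4505 : PrL chk L4505 := leafL c4505

theorem c4506 : lp7 (fun s => chk (ent L4506 s)) 0 = true := by decide +kernel
theorem p4506 : PrL chk L4506 := leafL c4506

theorem c4507 : lp7 (fun s => chk (ent L4507 s)) 0 = true := by decide +kernel
theorem p4507 : PrL chk L4507 := leafL c4507

theorem c4508 : lp7 (fun s => chk (ent L4508 s)) 0 = true := by decide +kernel
theorem p4508 : PrL chk L4508 := leafL c4508

theorem c4509 : lp7 (fun s => chk (ent L4509 s)) 0 = true := by decide +kernel
theorem p4509 : PrL chk L4509 := leafL c4509

theorem c4510 : lp7 (fun s => chk (ent L4510 s)) 0 = true := by decide +kernel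
theorem p4510 : PrL chk L4510 := leafL c4510

theorem c4511 : lp7 (fun s => chk (ent L4511 s)) 0 = true := by decide +kernel
theorem p4511 : PrL chk L4511 := leafL c4511

theorem c4512 : lp7 (fun s => chk (ent L4512 s)) 0 = true := by decide +kernel
theorem p4512 : PrL chk L4512 := leafL c4512

theorem c4513 : lp7 (fun s => chk (ent L4513 s)) 0 = true := by decide +kernel
theorem p4513 : PrL chk L4513 := leafL c4513

theorem c4514 : lp7 (fun s => chk (ent L4514 s)) 0 = true := by decide +kernel
theorem p4514 : PrL chk L4514 := leafL c4514

theorem c4515 : lp7 (fun s => chk (ent L4515 s)) 0 = true := by decide +kernel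
theorem p4515 : PrL chk L4515 := leafL c4515

theorem c4516 : lp7 (fun s => chk (ent L4516 s)) 0 = true := by decide +kernel
theorem p4516 : PrL chk L4516 := leafL c4516

theorem c4517 : lp7 (fun s => chk (ent L4517 s)) 0 = true := by decide +kernel
theorem p4517 : PrL chk L4517 := leafL c4517

theorem c4518 : lp7 (fun s => chk (ent L4518 s)) 0 = true := by decide +kernel
theorem p4518 : PrL chk L4518 := leafL c4518

theorem c4519 : lp7 (fun s => chk (ent L4519 s)) 0 = true := by decide +kernel
theorem p4519 : PrL chk L4519 := leafL c4519

theorem c4520 : lp7 (fun s => chk (ent L4520 s)) 0 = true := by decide +kernel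
theorem p4520 : PrL chk L4520 := leafL c4520

theorem c4521 : lp7 (fun s => chk (ent L4521 s)) 0 = true := by decide +kernel
theorem p4521 : PrL chk L4521 := leafL c4521

theorem c4522 : lp7 (fun s => chk (ent L4522 s)) 0 = true := by decide +kernel
theorem p4522 : PrL chk L4522 := leafL c4522

theorem c4523 : lp7 (fun s => chk (ent L4523 s)) 0 = true := by decide +kernel
theorem p4523 : PrL chk L4523 := leafL c4523

theorem c4524 : lp7 (fun s => chk (ent L4524 s)) 0 = true := by decide +kernel
theorem p4524 : PrL chk L4524 := leafL c4524

theorem c4525 : lp7 (fun s => chk (ent L4525 s)) 0 = true := by decide +kernel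
theorem p4525 : PrL chk L4525 := leafL c4525

theorem c4526 : lp7 (fun s => chk (ent L4526 s)) 0 = true := by decide +kernel
theorem p4526 : PrL chk L4526 := leafL c4526

theorem c4527 : lp7 (fun s => chk (ent L4527 s)) 0 = true := by decide +kernel
theorem p4527 : PrL chk L4527 := leafL c4527

theorem c4528 : lp7 (fun s => chk (ent L4528 s)) 0 = true := by decide +kernel
theorem p4528 : PrL chk L4528 := leafL c4528

theorem c4529 : lp7 (fun s => chk (ent L4529 s)) 0 = true := by decide +kernel
theorem p4529 : PrL chk L4529 := leafL c4529

theorem c4530 : lp7 (fun s => chk (ent L4530 s)) 0 = true := by decide +kernel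
theorem p4530 : PrL chk L4530 := leafL c4530

theorem c4531 : lp7 (fun s => chk (ent L4531 s)) 0 = true := by decide +kernel
theorem p4531 : PrL chk L4531 := leafL c4531

theorem c4532 : lp7 (fun s => chk (ent L4532 s)) 0 = true := by decide +kernel
theorem p4532 : PrL chk L4532 := leafL c4532

theorem c4533 : lp7 (fun s => chk (ent L4533 s)) 0 = true := by decide +kernel
theorem p4533 : PrL chk L4533 := leafL c4533

theorem c4534 : lp7 (fun s => chk (ent L4534 s)) 0 = true := by decide +kernel
theorem p4534 : PrL chk L4534 := leafL c4534

theorem c4535 : lp7 (fun s => chk (ent L4535 s)) 0 = true := by decide +kernel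
theorem p4535 : PrL chk L4535 := leafL c4535

theorem c4536 : lp7 (fun s => chk (ent L4536 s)) 0 = true := by decide +kernel
theorem p4536 : PrL chk L4536 := leafL c4536

theorem c4537 : lp7 (fun s => chk (ent L4537 s)) 0 = true := by decide +kernel
theorem p4537 : PrL chk L4537 := leafL c4537

theorem c4538 : lp7 (fun s => chk (ent L4538 s)) 0 = true := by decide +kernel
theorem p4538 : PrL chk L4538 := leafL c4538

theorem c4539 : lp7 (fun s => chk (ent L4539 s)) 0 = true := by decide +kernel
theorem p4539 : PrL chk L4539 := leafL c4539

theorem c4540 : lp7 (fun s => chk (ent L4540 s)) 0 = true := by decide +kernel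
theorem p4540 : PrL chk L4540 := leafL c4540

theorem c4541 : lp7 (fun s => chk (ent L4541 s)) 0 = true := by decide +kernel
theorem p4541 : PrL chk L4541 := leafL c4541

theorem c4542 : lp7 (fun s => chk (ent L4542 s)) 0 = true := by decide +kernel
theorem p4542 : PrL chk L4542 := leafL c4542

theorem c4543 : lp7 (fun s => chk (ent L4543 s)) 0 = true := by decide +kernel
theorem p4543 : PrL chk L4543 := leafL c4543

theorem c4544 : lp7 (fun s => chk (ent L4544 s)) 0 = true := by decide +kernel
theorem p4544 : PrL chk L4544 := leafL c4544

theorem c4545 : lp7 (fun s => chk (ent L4545 s)) 0 = true := by decide +kernel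
theorem p4545 : PrL chk L4545 := leafL c4545

theorem c4546 : lp7 (fun s => chk (ent L4546 s)) 0 = true := by decide +kernel
theorem p4546 : PrL chk L4546 := leafL c4546

theorem c4547 : lp7 (fun s => chk (ent L4547 s)) 0 = true := by decide +kernel
theorem p4547 : PrL chk L4547 := leafL c4547

theorem c4548 : lp7 (fun s => chk (ent L4548 s)) 0 = true := by decide +kernel
theorem p4548 : PrL chk L4548 := leafL c4548

theorem c4549 : lp7 (fun s => chk (ent L4549 s)) 0 = true := by decide +kernel
theorem p4549 : PrL chk L4549 := leafL c4549

theorem c4550 : lp7 (fun s => chk (ent L4550 s)) 0 = true := by decide +kernel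
theorem p4550 : PrL chk L4550 := leafL c4550

theorem c4551 : lp7 (fun s => chk (ent L4551 s)) 0 = true := by decide +kernel
theorem p4551 : PrL chk L4551 := leafL c4551

theorem c4552 : lp7 (fun s => chk (ent L4552 s)) 0 = true := by decide +kernel
theorem p4552 : PrL chk L4552 := leafL c4552

theorem c4553 : lp7 (fun s => chk (ent L4553 s)) 0 = true := by decide +kernel
theorem p4553 : PrL chk L4553 := leafL c4553

theorem c4554 : lp7 (fun s => chk (ent L4554 s)) 0 = true := by decide +kernel
theorem p4554 : PrL chk L4554 := leafL c4554

theorem c4555 : lp7 (fun s => chk (ent L4555 s)) 0 = true := by decide +kernel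
theorem p4555 : PrL chk L4555 := leafL c4555

theorem c4556 : lp7 (fun s => chk (ent L4556 s)) 0 = true := by decide +kernel
theorem p4556 : PrL chk L4556 := leafL c4556

theorem c4557 : lp7 (fun s => chk (ent L4557 s)) 0 = true := by decide +kernel
theorem p4557 : PrL chk L4557 := leafL c4557

theorem c4558 : lp7 (fun s => chk (ent L4558 s)) 0 = true := by decide +kernel
theorem p4558 : PrL chk L4558 := leafL c4558

theorem c4559 : lp7 (fun s => chk (ent L4559 s)) 0 = true := by decide +kernel
theorem p4559 : PrL chk L4559 := leafL c4559

theorem c4560 : lp7 (fun s => chk (ent L4560 s)) 0 = true := by decide +kernel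
theorem p4560 : PrL chk L4560 := leafL c4560

theorem c4561 : lp7 (fun s => chk (ent L4561 s)) 0 = true := by decide +kernel
theorem p4561 : PrL chk L4561 := leafL c4561

theorem c4562 : lp7 (fun s => chk (ent L4562 s)) 0 = true := by decide +kernel
theorem p4562 : PrL chk L4562 := leafL c4562

theorem c4563 : lp7 (fun s => chk (ent L4563 s)) 0 = true := by decide +kernel
theorem p4563 : PrL chk L4563 := leafL c4563

theorem c4564 : lp7 (fun s => chk (ent L4564 s)) 0 = true := by decide +kernel
theorem p4564 : PrL chk L4564 := leafL c4564

theorem c4565 : lp7 (fun s => chk (ent L4565 s)) 0 = true := by decide +kernel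
theorem p4565 : PrL chk L4565 := leafL c4565

theorem c4566 : lp7 (fun s => chk (ent L4566 s)) 0 = true := by decide +kernel
theorem p4566 : PrL chk L4566 := leafL c4566

theorem c4567 : lp7 (fun s => chk (ent L4567 s)) 0 = true := by decide +kernel
theorem p4567 : PrL chk L4567 := leafL c4567

theorem c4568 : lp7 (fun s => chk (ent L4568 s)) 0 = true := by decide +kernel
theorem p4568 : PrL chk L4568 := leafL c4568

theorem c4569 : lp7 (fun s => chk (ent L4569 s)) 0 = true := by decide +kernel
theorem p4569 : PrL chk L4569 := leafL c4569

theorem c4570 : lp7 (fun s => chk (ent L4570 s)) 0 = true := by decide +kernel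
theorem p4570 : PrL chk L4570 := leafL c4570

theorem c4571 : lp7 (fun s => chk (ent L4571 s)) 0 = true := by decide +kernel
theorem p4571 : PrL chk L4571 := leafL c4571

theorem c4572 : lp7 (fun s => chk (ent L4572 s)) 0 = true := by decide +kernel
theorem p4572 : PrL chk L4572 := leafL c4572

theorem c4573 : lp7 (fun s => chk (ent L4573 s)) 0 = true := by decide +kernel
theorem p4573 : PrL chk L4573 := leafL c4573

theorem c4574 : lp7 (fun s => chk (ent L4574 s)) 0 = true := by decide +kernel
theorem p4574 : PrL chk L4574 := leafL c4574

theorem c4575 : lp7 (fun s => chk (ent L4575 s)) 0 = true := by decide +kernel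
theorem p4575 : PrL chk L4575 := leafL c4575

theorem c4576 : lp7 (fun s => chk (ent L4576 s)) 0 = true := by decide +kernel
theorem p4576 : PrL chk L4576 := leafL c4576

theorem c4577 : lp7 (fun s => chk (ent L4577 s)) 0 = true := by decide +kernel
theorem p4577 : PrL chk L4577 := leafL c4577

theorem c4578 : lp7 (fun s => chk (ent L4578 s)) 0 = true := by decide +kernel
theorem p4578 : PrL chk L4578 := leafL c4578

theorem c4579 : lp7 (fun s => chk (ent L4579 s)) 0 = true := by decide +kernel
theorem p4579 : PrL chk L4579 := leafL c4579

theorem c4580 : lp7 (fun s => chk (ent L4580 s)) 0 = true := by decide +kernel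
theorem p4580 : PrL chk L4580 := leafL c4580

theorem c4581 : lp7 (fun s => chk (ent L4581 s)) 0 = true := by decide +kernel
theorem p4581 : PrL chk L4581 := leafL c4581

theorem c4582 : lp7 (fun s => chk (ent L4582 s)) 0 = true := by decide +kernel
theorem p4582 : PrL chk L4582 := leafL c4582

theorem c4583 : lp7 (fun s => chk (ent L4583 s)) 0 = true := by decide +kernel
theorem p4583 : PrL chk L4583 := leafL c4583

theorem c4584 : lp7 (fun s => chk (ent L4584 s)) 0 = true := by decide +kernel
theorem p4584 : PrL chk L4584 := leafL c4584

theorem c4585 : lp7 (fun s => chk (ent L4585 s)) 0 = true := by decide +kernel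
theorem p4585 : PrL chk L4585 := leafL c4585

theorem c4586 : lp7 (fun s => chk (ent L4586 s)) 0 = true := by decide +kernel
theorem p4586 : PrL chk L4586 := leafL c4586

theorem c4587 : lp7 (fun s => chk (ent L4587 s)) 0 = true := by decide +kernel
theorem p4587 : PrL chk L4587 := leafL c4587

theorem c4588 : lp7 (fun s => chk (ent L4588 s)) 0 = true := by decide +kernel
theorem p4588 : PrL chk L4588 := leafL c4588

theorem c4589 : lp7 (fun s => chk (ent L4589 s)) 0 = true := by decide +kernel
theorem p4589 : PrL chk L4589 := leafL c4589

theorem c4590 : lp7 (fun s => chk (ent L4590 s)) 0 = true := by decide +kernel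
theorem p4590 : PrL chk L4590 := leafL c4590

theorem c4591 : lp7 (fun s => chk (ent L4591 s)) 0 = true := by decide +kernel
theorem p4591 : PrL chk L4591 := leafL c4591

theorem c4592 : lp7 (fun s => chk (ent L4592 s)) 0 = true := by decide +kernel
theorem p4592 : PrL chk L4592 := leafL c4592

theorem c4593 : lp7 (fun s => chk (ent L4593 s)) 0 = true := by decide +kernel
theorem p4593 : PrL chk L4593 := leafL c4593

theorem c4594 : lp7 (fun s => chk (ent L4594 s)) 0 = true := by decide +kernel
theorem p4594 : PrL chk L4594 := leafL c4594

theorem c4595 : lp7 (fun s => chk (ent L4595 s)) 0 = true := by decide +kernel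
theorem p4595 : PrL chk L4595 := leafL c4595

theorem c4596 : lp7 (fun s => chk (ent L4596 s)) 0 = true := by decide +kernel
theorem p4596 : PrL chk L4596 := leafL c4596

theorem c4597 : lp7 (fun s => chk (ent L4597 s)) 0 = true := by decide +kernel
theorem p4597 : PrL chk L4597 := leafL c4597

theorem c4598 : lp7 (fun s => chk (ent L4598 s)) 0 = true := by decide +kernel
theorem p4598 : PrL chk L4598 := leafL c4598

theorem c4599 : lp7 (fun s => chk (ent L4599 s)) 0 = true := by decide +kernel
theorem p4599 : PrL chk L4599 := leafL c4599

theorem c4600 : lp7 (fun s => chk (ent L4600 s)) 0 = true := by decide +kernel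
theorem p4600 : PrL chk L4600 := leafL c4600

theorem c4601 : lp7 (fun s => chk (ent L4601 s)) 0 = true := by decide +kernel
theorem p4601 : PrL chk L4601 := leafL c4601

theorem c4602 : lp7 (fun s => chk (ent L4602 s)) 0 = true := by decide +kernel
theorem p4602 : PrL chk L4602 := leafL c4602

theorem c4603 : lp7 (fun s => chk (ent L4603 s)) 0 = true := by decide +kernel
theorem p4603 : PrL chk L4603 := leafL c4603

theorem c4604 : lp7 (fun s => chk (ent L4604 s)) 0 = true := by decide +kernel
theorem p4604 : PrL chk L4604 := leafL c4604

theorem c4605 : lp7 (fun s => chk (ent L4605 s)) 0 = true := by decide +kernel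
theorem p4605 : PrL chk L4605 := leafL c4605

theorem c4606 : lp7 (fun s => chk (ent L4606 s)) 0 = true := by decide +kernel
theorem p4606 : PrL chk L4606 := leafL c4606

theorem c4607 : lp7 (fun s => chk (ent L4607 s)) 0 = true := by decide +kernel
theorem p4607 : PrL chk L4607 := leafL c4607

end Pool.Agent.ad013a.LA
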