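import Pool.Agent.H.MP_ad013a_pr.h63l.A.T
import Pool.Agent.H.MP_ad013a_pr.h63w.VLoop

namespace Pool.Agent.ad013a.LA

theorem c4608 : lp7 (fun s => chk (ent L4608 s)) 0 = true := by decide +kernel
theorem p4608 : PrL chk L4608 := leafL c4608

theorem c4609 : lp7 (fun s => chk (ent L4609 s)) 0 = true := by decide +kernel
theorem p4609 : PrL chk L4609 := leafL c4609

theorem c4610 : lp7 (fun s => chk (ent L4610 s)) 0 = true := by decide +kernel
theorem p4610 : PrL chk L4610 := leafL c4610

theorem c4611 : lp7 (fun s => chk (ent L4611 s)) 0 = true := by decide +kernel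
theorem p4611 : PrL chk L4611 := leafL c4611

theorem c4612 : lp7 (fun s => chk (ent L4612 s)) 0 = true := by decide +kernel
theorem p4612 : PrL chk L4612 := leafL c4612

theorem c4613 : lp7 (fun s => chk (ent L4613 s)) 0 = true := by decide +kernel
theorem p4613 : PrL chk L4613 := leafL c4613

theorem c4614 : lp7 (fun s => chk (ent L4614 s)) 0 = true := by decide +kernel
theorem p4614 : PrL chk L4614 := leafL c4614

theorem c4615 : lp7 (fun s => chk (ent L4615 s)) 0 = true := by decide +kernel
theorem p4615 : PrL chk L4615 := leafL c4615

theorem c4616 : lp7 (fun s => chk (ent L4616 s)) 0 = true := by decide +kernel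
theorem p4616 : PrL chk L4616 := leafL c4616

theorem c4617 : lp7 (fun s => chk (ent L4617 s)) 0 = true := by decide +kernel
theorem p4617 : PrL chk L4617 := leafL c4617

theorem c4618 : lp7 (fun s => chk (ent L4618 s)) 0 = true := by decide +kernel
theorem p4618 : PrL chk L4618 := leafL c4618

theorem c4619 : lp7 (fun s => chk (ent L4619 s)) 0 = true := by decide +kernel
theorem p4619 : PrL chk L4619 := leafL c4619

theorem c4620 : lp7 (fun s => chk (ent L4620 s)) 0 = true := by decide +kernel
theorem p4620 : PrL chk L4620 := leafL c4620

theorem c4621 : lp7 (fun s => chk (ent L4621 s)) 0 = true := by decide +kernel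
theorem p4621 : PrL chk L4621 := leafL c4621

theorem c4622 : lp7 (fun s => chk (ent L4622 s)) 0 = true := by decide +kernel
theorem p4622 : PrL chk L4622 := leafL c4622

theorem c4623 : lp7 (fun s => chk (ent L4623 s)) 0 = true := by decide +kernel
theorem p4623 : PrL chk L4623 := leafL c4623

theorem c4624 : lp7 (fun s => chk (ent L4624 s)) 0 = true := by decide +kernel
theorem p4624 : PrL chk L4624 := leafL c4624

theorem c4625 : lp7 (fun s => chk (ent L4625 s)) 0 = true := by decide +kernel
theorem p4625 : PrL chk L4625 := leafL c4625

theorem c4626 : lp7 (fun s => chk (ent L4626 s)) 0 = true := by decide +kernel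
theorem p4626 : PrL chk L4626 := leafL c4626

theorem c4627 : lp7 (fun s => chk (ent L4627 s)) 0 = true := by decide +kernel
theorem p4627 : PrL chk L4627 := leafL c4627

theorem c4628 : lp7 (fun s => chk (ent L4628 s)) 0 = true := by decide +kernel
theorem p4628 : PrL chk L4628 := leafL c4628

theorem c4629 : lp7 (fun s => chk (ent L4629 s)) 0 = true := by decide +kernel
theorem p4629 : PrL chk L4629 := leafL c4629

theorem c4630 : lp7 (fun s => chk (ent L4630 s)) 0 = true := by decide +kernel
theorem p4630 : PrL chk L4630 := leafL c4630

theorem c4631 : lp7 (fun s => chk (ent L4631 s)) 0 = true := by decide +kernel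
theorem p4631 : PrL chk L4631 := leafL c4631

theorem c4632 : lp7 (fun s => chk (ent L4632 s)) 0 = true := by decide +kernel
theorem p4632 : PrL chk L4632 := leafL c4632

theorem c4633 : lp7 (fun s => chk (ent L4633 s)) 0 = true := by decide +kernel
theorem p4633 : PrL chk L4633 := leafL c4633

theorem c4634 : lp7 (fun s => chk (ent L4634 s)) 0 = true := by decide +kernel
theorem p4634 : PrL chk L4634 := leafL c4634

theorem c4635 : lp7 (fun s => chk (ent L4635 s)) 0 = true := by decide +kernel
theorem p4635 : PrL chk L4635 := leafL c4635

theorem c4636 : lp7 (fun s => chk (ent L4636 s)) 0 = true := by decide +kernel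
theorem p4636 : PrL chk L4636 := leafL c4636

theorem c4637 : lp7 (fun s => chk (ent L4637 s)) 0 = true := by decide +kernel
theorem p4637 : PrL chk L4637 := leafL c4637

theorem c4638 : lp7 (fun s => chk (ent L4638 s)) 0 = true := by decide +kernel
theorem p4638 : PrL chk L4638 := leafL c4638

theorem c4639 : lp7 (fun s => chk (ent L4639 s)) 0 = true := by decide +kernel
theorem p4639 : PrL chk L4639 := leafL c4639

theorem c4640 : lp7 (fun s => chk (ent L4640 s)) 0 = true := by decide +kernel
theorem p4640 : PrL chk L4640 := leafL c4640

theorem c4641 : lp7 (fun s => chk (ent L4641 s)) 0 = true := by decide +kernel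
theorem p4641 : PrL chk L4641 := leafL c4641

theorem c4642 : lp7 (fun s => chk (ent L4642 s)) 0 = true := by decide +kernel
theorem p4642 : PrL chk L4642 := leafL c4642

theorem c4643 : lp7 (fun s => chk (ent L4643 s)) 0 = true := by decide +kernel
theorem p4643 : PrL chk L4643 := leafL c4643

theorem c4644 : lp7 (fun s => chk (ent L4644 s)) 0 = true := by decide +kernel
theorem p4644 : PrL chk L4644 := leafL c4644

theorem c4645 : lp7 (fun s => chk (ent L4645 s)) 0 = true := by decide +kernel
theorem p4645 : PrL chk L4645 := leafL c4645

theorem c4646 : lp7 (fun s => chk (ent L4646 s)) 0 = true := by decide +kernel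
theorem p4646 : PrL chk L4646 := leafL c4646

theorem c4647 : lp7 (fun s => chk (ent L4647 s)) 0 = true := by decide +kernel
theorem p4647 : PrL chk L4647 := leafL c4647

theorem c4648 : lp7 (fun s => chk (ent L4648 s)) 0 = true := by decide +kernel
theorem p4648 : PrL chk L4648 := leafL c4648

theorem c4649 : lp7 (fun s => chk (ent L4649 s)) 0 = true := by decide +kernel
theorem p4649 : PrL chk L4649 := leafL c4649

theorem c4650 : lp7 (fun s => chk (ent L4650 s)) 0 = true := by decide +kernel
theorem p4650 : PrL chk L4650 := leafL c4650

theorem c4651 : lp7 (fun s => chk (ent L4651 s)) 0 = true := by decide +kernel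
theorem p4651 : PrL chk L4651 := leafL c4651

theorem c4652 : lp7 (fun s => chk (ent L4652 s)) 0 = true := by decide +kernel
theorem p4652 : PrL chk L4652 := leafL c4652

theorem c4653 : lp7 (fun s => chk (ent L4653 s)) 0 = true := by decide +kernel
theorem p4653 : PrL chk L4653 := leafL c4653

theorem c4654 : lp7 (fun s => chk (ent L4654 s)) 0 = true := by decide +kernel
theorem p4654 : PrL chk L4654 := leafL c4654

theorem c4655 : lp7 (fun s => chk (ent L4655 s)) 0 = true := by decide +kernel
theorem p4655 : PrL chk L4655 := leafL c4655

theorem c4656 : lp7 (fun s => chk (ent L4656 s)) 0 = true := by decide +kernel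
theorem p4656 : PrL chk L4656 := leafL c4656

theorem c4657 : lp7 (fun s => chk (ent L4657 s)) 0 = true := by decide +kernel
theorem p4657 : PrL chk L4657 := leafL c4657

theorem c4658 : lp7 (fun s => chk (ent L4658 s)) 0 = true := by decide +kernel
theorem p4658 : PrL chk L4658 := leafL c4658

theorem c4659 : lp7 (fun s => chk (ent L4659 s)) 0 = true := by decide +kernel
theorem p4659 : PrL chk L4659 := leafL c4659

theorem c4660 : lp7 (fun s => chk (ent L4660 s)) 0 = true := by decide +kernel
theorem p4660 : PrL chk L4660 := leafL c4660

theorem c4661 : lp7 (fun s => chk (ent L4661 s)) 0 = true := by decide +kernel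
theorem p4661 : PrL chk L4661 := leafL c4661

theorem c4662 : lp7 (fun s => chk (ent L4662 s)) 0 = true := by decide +kernel
theorem p4662 : PrL chk L4662 := leafL c4662

theorem c4663 : lp7 (fun s => chk (ent L4663 s)) 0 = true := by decide +kernel
theorem p4663 : PrL chk L4663 := leafL c4663

theorem c4664 : lp7 (fun s => chk (ent L4664 s)) 0 = true := by decide +kernel
theorem p4664 : PrL chk L4664 := leafL c4664

theorem c4665 : lp7 (fun s => chk (ent L4665 s)) 0 = true := by decide +kernel
theorem p4665 : PrL chk L4665 := leafL c4665

theorem c4666 : lp7 (fun s => chk (ent L4666 s)) 0 = true := by decide +kernel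
theorem p4666 : PrL chk L4666 := leafL c4666

theorem c4667 : lp7 (fun s => chk (ent L4667 s)) 0 = true := by decide +kernel
theorem p4667 : PrL chk L4667 := leafL c4667

theorem c4668 : lp7 (fun s => chk (ent L4668 s)) 0 = true := by decide +kernel
theorem p4668 : PrL chk L4668 := leafL c4668

theorem c4669 : lp7 (fun s => chk (ent L4669 s)) 0 = true := by decide +kernel
theorem p4669 : PrL chk L4669 := leafL c4669

theorem c4670 : lp7 (fun s => chk (ent L4670 s)) 0 = true := by decide +kernel
theorem p4670 : PrL chk L4670 := leafL c4670

theorem c4671 : lp7 (fun s => chk (ent L4671 s)) 0 = true := by decide +kernel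
theorem p4671 : PrL chk L4671 := leafL c4671

theorem c4672 : lp7 (fun s => chk (ent L4672 s)) 0 = true := by decide +kernel
theorem p4672 : PrL chk L4672 := leafL c4672

theorem c4673 : lp7 (fun s => chk (ent L4673 s)) 0 = true := by decide +kernel
theorem p4673 : PrL chk L4673 := leafL c4673

theorem c4674 : lp7 (fun s => chk (ent L4674 s)) 0 = true := by decide +kernel
theorem p4674 : PrL chk L4674 := leafL c4674

theorem c4675 : lp7 (fun s => chk (ent L4675 s)) 0 = true := by decide +kernel
theorem p4675 : PrL chk L4675 := leafL c4675

theorem c4676 : lp7 (fun s => chk (ent L4676 s)) 0 = true := by decide +kernel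
theorem p4676 : PrL chk L4676 := leafL c4676

theorem c4677 : lp7 (fun s => chk (ent L4677 s)) 0 = true := by decide +kernel
theorem p4677 : PrL chk L4677 := leafL c4677

theorem c4678 : lp7 (fun s => chk (ent L4678 s)) 0 = true := by decide +kernel
theorem p4678 : PrL chk L4678 := leafL c4678

theorem c4679 : lp7 (fun s => chk (ent L4679 s)) 0 = true := by decide +kernel
theorem p4679 : PrL chk L4679 := leafL c4679

theorem c4680 : lp7 (fun s => chk (ent L4680 s)) 0 = true := by decide +kernel
theorem p4680 : PrL chk L4680 := leafL c4680

theorem c4681 : lp7 (fun s => chk (ent L4681 s)) 0 = true := by decide +kernel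
theorem p4681 : PrL chk L4681 := leafL c4681

theorem c4682 : lp7 (fun s => chk (ent L4682 s)) 0 = true := by decide +kernel
theorem p4682 : PrL chk L4682 := leafL c4682

theorem c4683 : lp7 (fun s => chk (ent L4683 s)) 0 = true := by decide +kernel
theorem p4683 : PrL chk L4683 := leafL c4683

theorem c4684 : lp7 (fun s => chk (ent L4684 s)) 0 = true := by decide +kernel
theorem p4684 : PrL chk L4684 := leafL c4684

theorem c4685 : lp7 (fun s => chk (ent L4685 s)) 0 = true := by decide +kernel
theorem p4685 : PrL chk L4685 := leafL c4685

theorem c4686 : lp7 (fun s => chk (ent L4686 s)) 0 = true := by decide +kernel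
theorem p4686 : PrL chk L4686 := leafL c4686

theorem c4687 : lp7 (fun s => chk (ent L4687 s)) 0 = true := by decide +kernel
theorem p4687 : PrL chk L4687 := leafL c4687

theorem c4688 : lp7 (fun s => chk (ent L4688 s)) 0 = true := by decide +kernel
theorem p4688 : PrL chk L4688 := leafL c4688

theorem c4689 : lp7 (fun s => chk (ent L4689 s)) 0 = true := by decide +kernel
theorem p4689 : PrL chk L4689 := leafL c4689

theorem c4690 : lp7 (fun s => chk (ent L4690 s)) 0 = true := by decide +kernel
theorem p4690 : PrL chk L4690 := leafL c4690

theorem c4691 : lp7 (fun s => chk (ent L4691 s)) 0 = true := by decide +kernel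
theorem p4691 : PrL chk L4691 := leafL c4691

theorem c4692 : lp7 (fun s => chk (ent L4692 s)) 0 = true := by decide +kernel
theorem p4692 : PrL chk L4692 := leafL c4692

theorem c4693 : lp7 (fun s => chk (ent L4693 s)) 0 = true := by decide +kernel
theorem p4693 : PrL chk L4693 := leafL c4693

theorem c4694 : lp7 (fun s => chk (ent L4694 s)) 0 = true := by decide +kernel
theorem p4694 : PrL chk L4694 := leafL c4694

theorem c4695 : lp7 (fun s => chk (ent L4695 s)) 0 = true := by decide +kernel
theorem p4695 : PrL chk L4695 := leafL c4695

theorem c4696 : lp7 (fun s => chk (ent L4696 s)) 0 = true := by decide +kernel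
theorem p4696 : PrL chk L4696 := leafL c4696

theorem c4697 : lp7 (fun s => chk (ent L4697 s)) 0 = true := by decide +kernel
theorem p4697 : PrL chk L4697 := leafL c4697

theorem c4698 : lp7 (fun s => chk (ent L4698 s)) 0 = true := by decide +kernel
theorem p4698 : PrL chk L4698 := leafL c4698

theorem c4699 : lp7 (fun s => chk (ent L4699 s)) 0 = true := by decide +kernel
theorem p4699 : PrL chk L4699 := leafL c4699

theorem c4700 : lp7 (fun s => chk (ent L4700 s)) 0 = true := by decide +kernel
theorem p4700 : PrL chk L4700 := leafL c4700

theorem c4701 : lp7 (fun s => chk (ent L4701 s)) 0 = true := by decide +kernel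
theorem p4701 : PrL chk L4701 := leafL c4701

theorem c4702 : lp7 (fun s => chk (ent L4702 s)) 0 = true := by decide +kernel
theorem p4702 : PrL chk L4702 := leafL c4702

theorem c4703 : lp7 (fun s => chk (ent L4703 s)) 0 = true := by decide +kernel
theorem p4703 : PrL chk L4703 := leafL c4703

theorem c4704 : lp7 (fun s => chk (ent L4704 s)) 0 = true := by decide +kernel
theorem p4704 : PrL chk L4704 := leafL c4704

theorem c4705 : lp7 (fun s => chk (ent L4705 s)) 0 = true := by decide +kernel
theorem p4705 : PrL chk L4705 := leafL c4705

theorem c4706 : lp7 (fun s => chk (ent L4706 s)) 0 = true := by decide +kernel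
theorem p4706 : PrL chk L4706 := leafL c4706

theorem c4707 : lp7 (fun s => chk (ent L4707 s)) 0 = true := by decide +kernel
theorem p4707 : PrL chk L4707 := leafL c4707

theorem c4708 : lp7 (fun s => chk (ent L4708 s)) 0 = true := by decide +kernel
theorem p4708 : PrL chk L4708 := leafL c4708

theorem c4709 : lp7 (fun s => chk (ent L4709 s)) 0 = true := by decide +kernel
theorem p4709 : PrL chk L4709 := leafL c4709

theorem c4710 : lp7 (fun s => chk (ent L4710 s)) 0 = true := by decide +kernel
theorem p4710 : PrL chk L4710 := leafL c4710

theorem c4711 : lp7 (fun s => chk (ent L4711 s)) 0 = true := by decide +kernel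
theorem p4711 : PrL chk L4711 := leafL c4711

theorem c4712 : lp7 (fun s => chk (ent L4712 s)) 0 = true := by decide +kernel
theorem p4712 : PrL chk L4712 := leafL c4712

theorem c4713 : lp7 (fun s => chk (ent L4713 s)) 0 = true := by decide +kernel
theorem p4713 : PrL chk L4713 := leafL c4713

theorem c4714 : lp7 (fun s => chk (ent L4714 s)) 0 = true := by decide +kernel
theorem p4714 : PrL chk L4714 := leafL c4714

theorem c4715 : lp7 (fun s => chk (ent L4715 s)) 0 = true := by decide +kernel
theorem p4715 : PrL chk L4715 := leafL c4715

theorem c4716 : lp7 (fun s => chk (ent L4716 s)) 0 = true := by decide +kernel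
theorem p4716 : PrL chk L4716 := leafL c4716

theorem c4717 : lp7 (fun s => chk (ent L4717 s)) 0 = true := by decide +kernel
theorem p4717 : PrL chk L4717 := leafL c4717

theorem c4718 : lp7 (fun s => chk (ent L4718 s)) 0 = true := by decide +kernel
theorem p4718 : PrL chk L4718 := leafL c4718

theorem c4719 : lp7 (fun s => chk (ent L4719 s)) 0 = true := by decide +kernel
theorem p4719 : PrL chk L4719 := leafL c4719

theorem c4720 : lp7 (fun s => chk (ent L4720 s)) 0 = true := by decide +kernel
theorem p4720 : PrL chk L4720 := leafL c4720

theorem c4721 : lp7 (fun s => chk (ent L4721 s)) 0 = true := by decide +kernel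
theorem p4721 : PrL chk L4721 := leafL c4721

theorem c4722 : lp7 (fun s => chk (ent L4722 s)) 0 = true := by decide +kernel
theorem p4722 : PrL chk L4722 := leafL c4722

theorem c4723 : lp7 (fun s => chk (ent L4723 s)) 0 = true := by decide +kernel
theorem p4723 : PrL chk L4723 := leafL c4723

theorem c4724 : lp7 (fun s => chk (ent L4724 s)) 0 = true := by decide +kernel
theorem p4724 : PrL chk L4724 := leafL c4724

theorem c4725 : lp7 (fun s => chk (ent L4725 s)) 0 = true := by decide +kernel
theorem p4725 : PrL chk L4725 := leafL c4725

theorem c4726 : lp7 (fun s => chk (ent L4726 s)) 0 = true := by decide +kernel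
theorem p4726 : PrL chk L4726 := leafL c4726

theorem c4727 : lp7 (fun s => chk (ent L4727 s)) 0 = true := by decide +kernel
theorem p4727 : PrL chk L4727 := leafL c4727

theorem c4728 : lp7 (fun s => chk (ent L4728 s)) 0 = true := by decide +kernel
theorem p4728 : PrL chk L4728 := leafL c4728

theorem c4729 : lp7 (fun s => chk (ent L4729 s)) 0 = true := by decide +kernel
theorem p4729 : PrL chk L4729 := leafL c4729

theorem c4730 : lp7 (fun s => chk (ent L4730 s)) 0 = true := by decide +kernel
theorem p4730 : PrL chk L4730 := leafL c4730

theorem c4731 : lp7 (fun s => chk (ent L4731 s)) 0 = true := by decide +kernel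
theorem p4731 : PrL chk L4731 := leafL c4731

theorem c4732 : lp7 (fun s => chk (ent L4732 s)) 0 = true := by decide +kernel
theorem p4732 : PrL chk L4732 := leafL c4732

theorem c4733 : lp7 (fun s => chk (ent L4733 s)) 0 = true := by decide +kernel
theorem p4733 : PrL chk L4733 := leafL c4733

theorem c4734 : lp7 (fun s => chk (ent L4734 s)) 0 = true := by decide +kernel
theorem p4734 : PrL chk L4734 := leafL c4734

theorem c4735 : lp7 (fun s => chk (ent L4735 s)) 0 = true := by decide +kernel
theorem p4735 : PrL chk L4735 := leafL c4735

theorem c4736 : lp7 (fun s => chk (ent L4736 s)) 0 = true := by decide +kernel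
theorem p4736 : PrL chk L4736 := leafL c4736

theorem c4737 : lp7 (fun s => chk (ent L4737 s)) 0 = true := by decide +kernel
theorem p4737 : PrL chk L4737 := leafL c4737

theorem c4738 : lp7 (fun s => chk (ent L4738 s)) 0 = true := by decide +kernel
theorem p4738 : PrL chk L4738 := leafL c4738

theorem c4739 : lp7 (fun s => chk (ent L4739 s)) 0 = true := by decide +kernel
theorem p4739 : PrL chk L4739 := leafL c4739

theorem c4740 : lp7 (fun s => chk (ent L4740 s)) 0 = true := by decide +kernel
theorem p4740 : PrL chk L4740 := leafL c4740

theorem c4741 : lp7 (fun s => chk (ent L4741 s)) 0 = true := by decide +kernel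
theorem p4741 : PrL chk L4741 := leafL c4741

theorem c4742 : lp7 (fun s => chk (ent L4742 s)) 0 = true := by decide +kernel
theorem p4742 : PrL chk L4742 := leafL c4742

theorem c4743 : lp7 (fun s => chk (ent L4743 s)) 0 = true := by decide +kernel
theorem p4743 : PrL chk L4743 := leafL c4743

theorem c4744 : lp7 (fun s => chk (ent L4744 s)) 0 = true := by decide +kernel
theorem p4744 : PrL chk L4744 := leafL c4744

theorem c4745 : lp7 (fun s => chk (ent L4745 s)) 0 = true := by decide +kernel
theorem p4745 : PrL chk L4745 := leafL c4745

theorem c4746 : lp7 (fun s => chk (ent L4746 s)) 0 = true := by decide +kernel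
theorem p4746 : PrL chk L4746 := leafL c4746

theorem c4747 : lp7 (fun s => chk (ent L4747 s)) 0 = true := by decide +kernel
theorem p4747 : PrL chk L4747 := leafL c4747

theorem c4748 : lp7 (fun s => chk (ent L4748 s)) 0 = true := by decide +kernel
theorem p4748 : PrL chk L4748 := leafL c4748

theorem c4749 : lp7 (fun s => chk (ent L4749 s)) 0 = true := by decide +kernel
theorem p4749 : PrL chk L4749 := leafL c4749

theorem c4750 : lp7 (fun s => chk (ent L4750 s)) 0 = true := by decide +kernel
theorem p4750 : PrL chk L4750 := leafL c4750

theorem c4751 : lp7 (fun s => chk (ent L4751 s)) 0 = true := by decide +kernel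
theorem p4751 : PrL chk L4751 := leafL c4751

theorem c4752 : lp7 (fun s => chk (ent L4752 s)) 0 = true := by decide +kernel
theorem p4752 : PrL chk L4752 := leafL c4752

theorem c4753 : lp7 (fun s => chk (ent L4753 s)) 0 = true := by decide +kernel
theorem p4753 : PrL chk L4753 := leafL c4753

theorem c4754 : lp7 (fun s => chk (ent L4754 s)) 0 = true := by decide +kernel
theorem p4754 : PrL chk L4754 := leafL c4754

theorem c4755 : lp7 (fun s => chk (ent L4755 s)) 0 = true := by decide +kernel
theorem p4755 : PrL chk L4755 := leafL c4755

theorem c4756 : lp7 (fun s => chk (ent L4756 s)) 0 = true := by decide +kernel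
theorem p4756 : PrL chk L4756 := leafL c4756

theorem c4757 : lp7 (fun s => chk (ent L4757 s)) 0 = true := by decide +kernel
theorem p4757 : PrL chk L4757 := leafL c4757

theorem c4758 : lp7 (fun s => chk (ent L4758 s)) 0 = true := by decide +kernel
theorem p4758 : PrL chk L4758 := leafL c4758

theorem c4759 : lp7 (fun s => chk (ent L4759 s)) 0 = true := by decide +kernel
theorem p4759 : PrL chk L4759 := leafL c4759

theorem c4760 : lp7 (fun s => chk (ent L4760 s)) 0 = true := by decide +kernel
theorem p4760 : PrL chk L4760 := leafL c4760

theorem c4761 : lp7 (fun s => chk (ent L4761 s)) 0 = true := by decide +kernel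
theorem p4761 : PrL chk L4761 := leafL c4761

theorem c4762 : lp7 (fun s => chk (ent L4762 s)) 0 = true := by decide +kernel
theorem p4762 : PrL chk L4762 := leafL c4762

theorem c4763 : lp7 (fun s => chk (ent L4763 s)) 0 = true := by decide +kernel
theorem p4763 : PrL chk L4763 := leafL c4763

theorem c4764 : lp7 (fun s => chk (ent L4764 s)) 0 = true := by decide +kernel
theorem p4764 : PrL chk L4764 := leafL c4764

theorem c4765 : lp7 (fun s => chk (ent L4765 s)) 0 = true := by decide +kernel
theorem p4765 : PrL chk L4765 := leafL c4765

theorem c4766 : lp7 (fun s => chk (ent L4766 s)) 0 = true := by decide +kernel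
theorem p4766 : PrL chk L4766 := leafL c4766

theorem c4767 : lp7 (fun s => chk (ent L4767 s)) 0 = true := by decide +kernel
theorem p4767 : PrL chk L4767 := leafL c4767

theorem c4768 : lp7 (fun s => chk (ent L4768 s)) 0 = true := by decide +kernel
theorem p4768 : PrL chk L4768 := leafL c4768

theorem c4769 : lp7 (fun s => chk (ent L4769 s)) 0 = true := by decide +kernel
theorem p4769 : PrL chk L4769 := leafL c4769

theorem c4770 : lp7 (fun s => chk (ent L4770 s)) 0 = true := by decide +kernel
theorem p4770 : PrL chk L4770 := leafL c4770

theorem c4771 : lp7 (fun s => chk (ent L4771 s)) 0 = true := by decide +kernel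
theorem p4771 : PrL chk L4771 := leafL c4771

theorem c4772 : lp7 (fun s => chk (ent L4772 s)) 0 = true := by decide +kernel
theorem p4772 : PrL chk L4772 := leafL c4772

theorem c4773 : lp7 (fun s => chk (ent L4773 s)) 0 = true := by decide +kernel
theorem p4773 : PrL chk L4773 := leafL c4773

theorem c4774 : lp7 (fun s => chk (ent L4774 s)) 0 = true := by decide +kernel
theorem p4774 : PrL chk L4774 := leafL c4774

theorem c4775 : lp7 (fun s => chk (ent L4775 s)) 0 = true := by decide +kernel
theorem p4775 : PrL chk L4775 := leafL c4775

theorem c4776 : lp7 (fun s => chk (ent L4776 s)) 0 = true := by decide +kernel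
theorem p4776 : PrL chk L4776 := leafL c4776

theorem c4777 : lp7 (fun s => chk (ent L4777 s)) 0 = true := by decide +kernel
theorem p4777 : PrL chk L4777 := leafL c4777

theorem c4778 : lp7 (fun s => chk (ent L4778 s)) 0 = true := by decide +kernel
theorem p4778 : PrL chk L4778 := leafL c4778

theorem c4779 : lp7 (fun s => chk (ent L4779 s)) 0 = true := by decide +kernel
theorem p4779 : PrL chk L4779 := leafL c4779

theorem c4780 : lp7 (fun s => chk (ent L4780 s)) 0 = true := by decide +kernel
theorem p4780 : PrL chk L4780 := leafL c4780

theorem c4781 : lp7 (fun s => chk (ent L4781 s)) 0 = true := by decide +kernel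
theorem p4781 : PrL chk L4781 := leafL c4781

theorem c4782 : lp7 (fun s => chk (ent L4782 s)) 0 = true := by decide +kernel
theorem p4782 : PrL chk L4782 := leafL c4782

theorem c4783 : lp7 (fun s => chk (ent L4783 s)) 0 = true := by decide +kernel
theorem p4783 : PrL chk L4783 := leafL c4783

theorem c4784 : lp7 (fun s => chk (ent L4784 s)) 0 = true := by decide +kernel
theorem p4784 : PrL chk L4784 := leafL c4784

theorem c4785 : lp7 (fun s => chk (ent L4785 s)) 0 = true := by decide +kernel
theorem p4785 : PrL chk L4785 := leafL c4785

theorem c4786 : lp7 (fun s => chk (ent L4786 s)) 0 = true := by decide +kernel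
theorem p4786 : PrL chk L4786 := leafL c4786

theorem c4787 : lp7 (fun s => chk (ent L4787 s)) 0 = true := by decide +kernel
theorem p4787 : PrL chk L4787 := leafL c4787

theorem c4788 : lp7 (fun s => chk (ent L4788 s)) 0 = true := by decide +kernel
theorem p4788 : PrL chk L4788 := leafL c4788

theorem c4789 : lp7 (fun s => chk (ent L4789 s)) 0 = true := by decide +kernel
theorem p4789 : PrL chk L4789 := leafL c4789

theorem c4790 : lp7 (fun s => chk (ent L4790 s)) 0 = true := by decide +kernel
theorem p4790 : PrL chk L4790 := leafL c4790

theorem c4791 : lp7 (fun s => chk (ent L4791 s)) 0 = true := by decide +kernel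
theorem p4791 : PrL chk L4791 := leafL c4791

theorem c4792 : lp7 (fun s => chk (ent L4792 s)) 0 = true := by decide +kernel
theorem p4792 : PrL chk L4792 := leafL c4792

theorem c4793 : lp7 (fun s => chk (ent L4793 s)) 0 = true := by decide +kernel
theorem p4793 : PrL chk L4793 := leafL c4793

theorem c4794 : lp7 (fun s => chk (ent L4794 s)) 0 = true := by decide +kernel
theorem p4794 : PrL chk L4794 := leafL c4794

theorem c4795 : lp7 (fun s => chk (ent L4795 s)) 0 = true := by decide +kernel
theorem p4795 : PrL chk L4795 := leafL c4795

theorem c4796 : lp7 (fun s => chk (ent L4796 s)) 0 = true := by decide +kernel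
theorem p4796 : PrL chk L4796 := leafL c4796

theorem c4797 : lp7 (fun s => chk (ent L4797 s)) 0 = true := by decide +kernel
theorem p4797 : PrL chk L4797 := leafL c4797

theorem c4798 : lp7 (fun s => chk (ent L4798 s)) 0 = true := by decide +kernel
theorem p4798 : PrL chk L4798 := leafL c4798

theorem c4799 : lp7 (fun s => chk (ent L4799 s)) 0 = true := by decide +kernel
theorem p4799 : PrL chk L4799 := leafL c4799

theorem c4800 : lp7 (fun s => chk (ent L4800 s)) 0 = true := by decide +kernel
theorem p4800 : PrL chk L4800 := leafL c4800

theorem c4801 : lp7 (fun s => chk (ent L4801 s)) 0 = true := by decide +kernel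
theorem p4801 : PrL chk L4801 := leafL c4801

theorem c4802 : lp7 (fun s => chk (ent L4802 s)) 0 = true := by decide +kernel
theorem p4802 : PrL chk L4802 := leafL c4802

theorem c4803 : lp7 (fun s => chk (ent L4803 s)) 0 = true := by decide +kernel
theorem p4803 : PrL chk L4803 := leafL c4803

theorem c4804 : lp7 (fun s => chk (ent L4804 s)) 0 = true := by decide +kernel
theorem p4804 : PrL chk L4804 := leafL c4804

theorem c4805 : lp7 (fun s => chk (ent L4805 s)) 0 = true := by decide +kernel
theorem p4805 : PrL chk L4805 := leafL c4805

theorem c4806 : lp7 (fun s => chk (ent L4806 s)) 0 = true := by decide +kernel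
theorem p4806 : PrL chk L4806 := leafL c4806

theorem c4807 : lp7 (fun s => chk (ent L4807 s)) 0 = true := by decide +kernel
theorem p4807 : PrL chk L4807 := leafL c4807

theorem c4808 : lp7 (fun s => chk (ent L4808 s)) 0 = true := by decide +kernel
theorem p4808 : PrL chk L4808 := leafL c4808

theorem c4809 : lp7 (fun s => chk (ent L4809 s)) 0 = true := by decide +kernel
theorem p4809 : PrL chk L4809 := leafL c4809

theorem c4810 : lp7 (fun s => chk (ent L4810 s)) 0 = true := by decide +kernel
theorem p4810 : PrL chk L4810 := leafL c4810

theorem c4811 : lp7 (fun s => chk (ent L4811 s)) 0 = true := by decide +kernel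
theorem p4811 : PrL chk L4811 := leafL c4811

theorem c4812 : lp7 (fun s => chk (ent L4812 s)) 0 = true := by decide +kernel
theorem p4812 : PrL chk L4812 := leafL c4812

theorem c4813 : lp7 (fun s => chk (ent L4813 s)) 0 = true := by decide +kernel
theorem p4813 : PrL chk L4813 := leafL c4813

theorem c4814 : lp7 (fun s => chk (ent L4814 s)) 0 = true := by decide +kernel
theorem p4814 : PrL chk L4814 := leafL c4814

theorem c4815 : lp7 (fun s => chk (ent L4815 s)) 0 = true := by decide +kernel
theorem p4815 : PrL chk L4815 := leafL c4815

theorem c4816 : lp7 (fun s => chk (ent L4816 s)) 0 = true := by decide +kernel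
theorem p4816 : PrL chk L4816 := leafL c4816

theorem c4817 : lp7 (fun s => chk (ent L4817 s)) 0 = true := by decide +kernel
theorem p4817 : PrL chk L4817 := leafL c4817

theorem c4818 : lp7 (fun s => chk (ent L4818 s)) 0 = true := by decide +kernel
theorem p4818 : PrL chk L4818 := leafL c4818

theorem c4819 : lp7 (fun s => chk (ent L4819 s)) 0 = true := by decide +kernel
theorem p4819 : PrL chk L4819 := leafL c4819

theorem c4820 : lp7 (fun s => chk (ent L4820 s)) 0 = true := by decide +kernel
theorem p4820 : PrL chk L4820 := leafL c4820

theorem c4821 : lp7 (fun s => chk (ent L4821 s)) 0 = true := by decide +kernel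
theorem p4821 : PrL chk L4821 := leafL c4821

theorem c4822 : lp7 (fun s => chk (ent L4822 s)) 0 = true := by decide +kernel
theorem p4822 : PrL chk L4822 := leafL c4822

theorem c4823 : lp7 (fun s => chk (ent L4823 s)) 0 = true := by decide +kernel
theorem p4823 : PrL chk L4823 := leafL c4823

theorem c4824 : lp7 (fun s => chk (ent L4824 s)) 0 = true := by decide +kernel
theorem p4824 : PrL chk L4824 := leafL c4824

theorem c4825 : lp7 (fun s => chk (ent L4825 s)) 0 = true := by decide +kernel
theorem p4825 : PrL chk L4825 := leafL c4825

theorem c4826 : lp7 (fun s => chk (ent L4826 s)) 0 = true := by decide +kernel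
theorem p4826 : PrL chk L4826 := leafL c4826

theorem c4827 : lp7 (fun s => chk (ent L4827 s)) 0 = true := by decide +kernel
theorem p4827 : PrL chk L4827 := leafL c4827

theorem c4828 : lp7 (fun s => chk (ent L4828 s)) 0 = true := by decide +kernel
theorem p4828 : PrL chk L4828 := leafL c4828

theorem c4829 : lp7 (fun s => chk (ent L4829 s)) 0 = true := by decide +kernel
theorem p4829 : PrL chk L4829 := leafL c4829

theorem c4830 : lp7 (fun s => chk (ent L4830 s)) 0 = true := by decide +kernel
theorem p4830 : PrL chk L4830 := leafL c4830

theorem c4831 : lp7 (fun s => chk (ent L4831 s)) 0 = true := by decide +kernel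
theorem p4831 : PrL chk L4831 := leafL c4831

theorem c4832 : lp7 (fun s => chk (ent L4832 s)) 0 = true := by decide +kernel
theorem p4832 : PrL chk L4832 := leafL c4832

theorem c4833 : lp7 (fun s => chk (ent L4833 s)) 0 = true := by decide +kernel
theorem p4833 : PrL chk L4833 := leafL c4833

theorem c4834 : lp7 (fun s => chk (ent L4834 s)) 0 = true := by decide +kernel
theorem p4834 : PrL chk L4834 := leafL c4834

theorem c4835 : lp7 (fun s => chk (ent L4835 s)) 0 = true := by decide +kernel
theorem p4835 : PrL chk L4835 := leafL c4835

theorem c4836 : lp7 (fun s => chk (ent L4836 s)) 0 = true := by decide +kernel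
theorem p4836 : PrL chk L4836 := leafL c4836

theorem c4837 : lp7 (fun s => chk (ent L4837 s)) 0 = true := by decide +kernel
theorem p4837 : PrL chk L4837 := leafL c4837

theorem c4838 : lp7 (fun s => chk (ent L4838 s)) 0 = true := by decide +kernel
theorem p4838 : PrL chk L4838 := leafL c4838

theorem c4839 : lp7 (fun s => chk (ent L4839 s)) 0 = true := by decide +kernel
theorem p4839 : PrL chk L4839 := leafL c4839

theorem c4840 : lp7 (fun s => chk (ent L4840 s)) 0 = true := by decide +kernel
theorem p4840 : PrL chk L4840 := leafL c4840

theorem c4841 : lp7 (fun s => chk (ent L4841 s)) 0 = true := by decide +kernel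
theorem p4841 : PrL chk L4841 := leafL c4841

theorem c4842 : lp7 (fun s => chk (ent L4842 s)) 0 = true := by decide +kernel
theorem p4842 : PrL chk L4842 := leafL c4842

theorem c4843 : lp7 (fun s => chk (ent L4843 s)) 0 = true := by decide +kernel
theorem p4843 : PrL chk L4843 := leafL c4843

theorem c4844 : lp7 (fun s => chk (ent L4844 s)) 0 = true := by decide +kernel
theorem p4844 : PrL chk L4844 := leafL c4844

theorem c4845 : lp7 (fun s => chk (ent L4845 s)) 0 = true := by decide +kernel
theorem p4845 : PrL chk L4845 := leafL c4845

theorem c4846 : lp7 (fun s => chk (ent L4846 s)) 0 = true := by decide +kernel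
theorem p4846 : PrL chk L4846 := leafL c4846

theorem c4847 : lp7 (fun s => chk (ent L4847 s)) 0 = true := by decide +kernel
theorem p4847 : PrL chk L4847 := leafL c4847

theorem c4848 : lp7 (fun s => chk (ent L4848 s)) 0 = true := by decide +kernel
theorem p4848 : PrL chk L4848 := leafL c4848

theorem c4849 : lp7 (fun s => chk (ent L4849 s)) 0 = true := by decide +kernel
theorem p4849 : PrL chk L4849 := leafL c4849

theorem c4850 : lp7 (fun s => chk (ent L4850 s)) 0 = true := by decide +kernel
theorem p4850 : PrL chk L4850 := leafL c4850

theorem c4851 : lp7 (fun s => chk (ent L4851 s)) 0 = true := by decide +kernel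
theorem p4851 : PrL chk L4851 := leafL c4851

theorem c4852 : lp7 (fun s => chk (ent L4852 s)) 0 = true := by decide +kernel
theorem p4852 : PrL chk L4852 := leafL c4852

theorem c4853 : lp7 (fun s => chk (ent L4853 s)) 0 = true := by decide +kernel
theorem p4853 : PrL chk L4853 := leafL c4853

theorem c4854 : lp7 (fun s => chk (ent L4854 s)) 0 = true := by decide +kernel
theorem p4854 : PrL chk L4854 := leafL c4854

theorem c4855 : lp7 (fun s => chk (ent L4855 s)) 0 = true := by decide +kernel
theorem p4855 : PrL chk L4855 := leafL c4855

theorem c4856 : lp7 (fun s => chk (ent L4856 s)) 0 = true := by decide +kernel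
theorem p4856 : PrL chk L4856 := leafL c4856

theorem c4857 : lp7 (fun s => chk (ent L4857 s)) 0 = true := by decide +kernel
theorem p4857 : PrL chk L4857 := leafL c4857

theorem c4858 : lp7 (fun s => chk (ent L4858 s)) 0 = true := by decide +kernel
theorem p4858 : PrL chk L4858 := leafL c4858

theorem c4859 : lp7 (fun s => chk (ent L4859 s)) 0 = true := by decide +kernel
theorem p4859 : PrL chk L4859 := leafL c4859

theorem c4860 : lp7 (fun s => chk (ent L4860 s)) 0 = true := by decide +kernel
theorem p4860 : PrL chk L4860 := leafL c4860

theorem c4861 : lp7 (fun s => chk (ent L4861 s)) 0 = true := by decide +kernel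
theorem p4861 : PrL chk L4861 := leafL c4861

theorem c4862 : lp7 (fun s => chk (ent L4862 s)) 0 = true := by decide +kernel
theorem p4862 : PrL chk L4862 := leafL c4862

theorem c4863 : lp7 (fun s => chk (ent L4863 s)) 0 = true := by decide +kernel
theorem p4863 : PrL chk L4863 := leafL c4863

end Pool.Agent.ad013a.LA
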