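import Pool.Agent.H.MP_ad013a_pr.h63l.A.T
import Pool.Agent.H.MP_ad013a_pr.h63w.VLoop

namespace Pool.Agent.ad013a.LA

theorem c4864 : lp7 (fun s => chk (ent L4864 s)) 0 = true := by decide +kernel
theorem p4864 : PrL chk L4864 := leafL c4864

theorem c4865 : lp7 (fun s => chk (ent L4865 s)) 0 = true := by decide +kernel
theorem p4865 : PrL chk L4865 := leafL c4865

theorem c4866 : lp7 (fun s => chk (ent L4866 s)) 0 = true := by decide +kernel
theorem p4866 : PrL chk L4866 := leafL c4866

theorem c4867 : lp7 (fun s => chk (ent L4867 s)) 0 = true := by decide +kernel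
theorem p4867 : PrL chk L4867 := leafL c4867

theorem c4868 : lp7 (fun s => chk (ent L4868 s)) 0 = true := by decide +kernel
theorem p4868 : PrL chk L4868 := leafL c4868

theorem c4869 : lp7 (fun s => chk (ent L4869 s)) 0 = true := by decide +kernel
theorem p4869 : PrL chk L4869 := leafL c4869

theorem c4870 : lp7 (fun s => chk (ent L4870 s)) 0 = true := by decide +kernel
theorem p4870 : PrL chk L4870 := leafL c4870

theorem c4871 : lp7 (fun s => chk (ent L4871 s)) 0 = true := by decide +kernel
theorem p4871 : PrL chk L4871 := leafL c4871

theorem c4872 : lp7 (fun s => chk (ent L4872 s)) 0 = true := by decide +kernel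
theorem p4872 : PrL chk L4872 := leafL c4872

theorem c4873 : lp7 (fun s => chk (ent L4873 s)) 0 = true := by decide +kernel
theorem p4873 : PrL chk L4873 := leafL c4873

theorem c4874 : lp7 (fun s => chk (ent L4874 s)) 0 = true := by decide +kernel
theorem p4874 : PrL chk L4874 := leafL c4874

theorem c4875 : lp7 (fun s => chk (ent L4875 s)) 0 = true := by decide +kernel
theorem p4875 : PrL chk L4875 := leafL c4875

theorem c4876 : lp7 (fun s => chk (ent L4876 s)) 0 = true := by decide +kernel
theorem p4876 : PrL chk L4876 := leafL c4876

theorem c4877 : lp7 (fun s => chk (ent L4877 s)) 0 = true := by decide +kernel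
theorem p4877 : PrL chk L4877 := leafL c4877

theorem c4878 : lp7 (fun s => chk (ent L4878 s)) 0 = true := by decide +kernel
theorem p4878 : PrL chk L4878 := leafL c4878

theorem c4879 : lp7 (fun s => chk (ent L4879 s)) 0 = true := by decide +kernel
theorem p4879 : PrL chk L4879 := leafL c4879

theorem c4880 : lp7 (fun s => chk (ent L4880 s)) 0 = true := by decide +kernel
theorem p4880 : PrL chk L4880 := leafL c4880

theorem c4881 : lp7 (fun s => chk (ent L4881 s)) 0 = true := by decide +kernel
theorem p4881 : PrL chk L4881 := leafL c4881

theorem c4882 : lp7 (fun s => chk (ent L4882 s)) 0 = true := by decide +kernel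
theorem p4882 : PrL chk L4882 := leafL c4882

theorem c4883 : lp7 (fun s => chk (ent L4883 s)) 0 = true := by decide +kernel
theorem p4883 : PrL chk L4883 := leafL c4883

theorem c4884 : lp7 (fun s => chk (ent L4884 s)) 0 = true := by decide +kernel
theorem p4884 : PrL chk L4884 := leafL c4884

theorem c4885 : lp7 (fun s => chk (ent L4885 s)) 0 = true := by decide +kernel
theorem p4885 : PrL chk L4885 := leafL c4885

theorem c4886 : lp7 (fun s => chk (ent L4886 s)) 0 = true := by decide +kernel
theorem p4886 : PrL chk L4886 := leafL c4886

theorem c4887 : lp7 (fun s => chk (ent L4887 s)) 0 = true := by decide +kernel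
theorem p4887 : PrL chk L4887 := leafL c4887

theorem c4888 : lp7 (fun s => chk (ent L4888 s)) 0 = true := by decide +kernel
theorem p4888 : PrL chk L4888 := leafL c4888

theorem c4889 : lp7 (fun s => chk (ent L4889 s)) 0 = true := by decide +kernel
theorem p4889 : PrL chk L4889 := leafL c4889

theorem c4890 : lp7 (fun s => chk (ent L4890 s)) 0 = true := by decide +kernel
theorem p4890 : PrL chk L4890 := leafL c4890

theorem c4891 : lp7 (fun s => chk (ent L4891 s)) 0 = true := by decide +kernel
theorem p4891 : PrL chk L4891 := leafL c4891

theorem c4892 : lp7 (fun s => chk (ent L4892 s)) 0 = true := by decide +kernel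
theorem p4892 : PrL chk L4892 := leafL c4892

theorem c4893 : lp7 (fun s => chk (ent L4893 s)) 0 = true := by decide +kernel
theorem p4893 : PrL chk L4893 := leafL c4893

theorem c4894 : lp7 (fun s => chk (ent L4894 s)) 0 = true := by decide +kernel
theorem p4894 : PrL chk L4894 := leafL c4894

theorem c4895 : lp7 (fun s => chk (ent L4895 s)) 0 = true := by decide +kernel
theorem p4895 : PrL chk L4895 := leafL c4895

theorem c4896 : lp7 (fun s => chk (ent L4896 s)) 0 = true := by decide +kernel
theorem p4896 : PrL chk L4896 := leafL c4896

theorem c4897 : lp7 (fun s => chk (ent L4897 s)) 0 = true := by decide +kernel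
theorem p4897 : PrL chk L4897 := leafL c4897

theorem c4898 : lp7 (fun s => chk (ent L4898 s)) 0 = true := by decide +kernel
theorem p4898 : PrL chk L4898 := leafL c4898

theorem c4899 : lp7 (fun s => chk (ent L4899 s)) 0 = true := by decide +kernel
theorem p4899 : PrL chk L4899 := leafL c4899

theorem c4900 : lp7 (fun s => chk (ent L4900 s)) 0 = true := by decide +kernel
theorem p4900 : PrL chk L4900 := leafL c4900

theorem c4901 : lp7 (fun s => chk (ent L4901 s)) 0 = true := by decide +kernel
theorem p4901 : PrL chk L4901 := leafL c4901

theorem c4902 : lp7 (fun s => chk (ent L4902 s)) 0 = true := by decide +kernel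
theorem p4902 : PrL chk L4902 := leafL c4902

theorem c4903 : lp7 (fun s => chk (ent L4903 s)) 0 = true := by decide +kernel
theorem p4903 : PrL chk L4903 := leafL c4903

theorem c4904 : lp7 (fun s => chk (ent L4904 s)) 0 = true := by decide +kernel
theorem p4904 : PrL chk L4904 := leafL c4904

theorem c4905 : lp7 (fun s => chk (ent L4905 s)) 0 = true := by decide +kernel
theorem p4905 : PrL chk L4905 := leafL c4905

theorem c4906 : lp7 (fun s => chk (ent L4906 s)) 0 = true := by decide +kernel
theorem p4906 : PrL chk L4906 := leafL c4906

theorem c4907 : lp7 (fun s => chk (ent L4907 s)) 0 = true := by decide +kernel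
theorem p4907 : PrL chk L4907 := leafL c4907

theorem c4908 : lp7 (fun s => chk (ent L4908 s)) 0 = true := by decide +kernel
theorem p4908 : PrL chk L4908 := leafL c4908

theorem c4909 : lp7 (fun s => chk (ent L4909 s)) 0 = true := by decide +kernel
theorem p4909 : PrL chk L4909 := leafL c4909

theorem c4910 : lp7 (fun s => chk (ent L4910 s)) 0 = true := by decide +kernel
theorem p4910 : PrL chk L4910 := leafL c4910

theorem c4911 : lp7 (fun s => chk (ent L4911 s)) 0 = true := by decide +kernel
theorem p4911 : PrL chk L4911 := leafL c4911

theorem c4912 : lp7 (fun s => chk (ent L4912 s)) 0 = true := by decide +kernel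
theorem p4912 : PrL chk L4912 := leafL c4912

theorem c4913 : lp7 (fun s => chk (ent L4913 s)) 0 = true := by decide +kernel
theorem p4913 : PrL chk L4913 := leafL c4913

theorem c4914 : lp7 (fun s => chk (ent L4914 s)) 0 = true := by decide +kernel
theorem p4914 : PrL chk L4914 := leafL c4914

theorem c4915 : lp7 (fun s => chk (ent L4915 s)) 0 = true := by decide +kernel
theorem p4915 : PrL chk L4915 := leafL c4915

theorem c4916 : lp7 (fun s => chk (ent L4916 s)) 0 = true := by decide +kernel
theorem p4916 : PrL chk L4916 := leafL c4916

theorem c4917 : lp7 (fun s => chk (ent L4917 s)) 0 = true := by decide +kernel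
theorem p4917 : PrL chk L4917 := leafL c4917

theorem c4918 : lp7 (fun s => chk (ent L4918 s)) 0 = true := by decide +kernel
theorem p4918 : PrL chk L4918 := leafL c4918

theorem c4919 : lp7 (fun s => chk (ent L4919 s)) 0 = true := by decide +kernel
theorem p4919 : PrL chk L4919 := leafL c4919

theorem c4920 : lp7 (fun s => chk (ent L4920 s)) 0 = true := by decide +kernel
theorem p4920 : PrL chk L4920 := leafL c4920

theorem c4921 : lp7 (fun s => chk (ent L4921 s)) 0 = true := by decide +kernel
theorem p4921 : PrL chk L4921 := leafL c4921

theorem c4922 : lp7 (fun s => chk (ent L4922 s)) 0 = true := by decide +kernel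
theorem p4922 : PrL chk L4922 := leafL c4922

theorem c4923 : lp7 (fun s => chk (ent L4923 s)) 0 = true := by decide +kernel
theorem p4923 : PrL chk L4923 := leafL c4923

theorem c4924 : lp7 (fun s => chk (ent L4924 s)) 0 = true := by decide +kernel
theorem p4924 : PrL chk L4924 := leafL c4924

theorem c4925 : lp7 (fun s => chk (ent L4925 s)) 0 = true := by decide +kernel
theorem p4925 : PrL chk L4925 := leafL c4925

theorem c4926 : lp7 (fun s => chk (ent L4926 s)) 0 = true := by decide +kernel
theorem p4926 : PrL chk L4926 := leafL c4926

theorem c4927 : lp7 (fun s => chk (ent L4927 s)) 0 = true := by decide +kernel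
theorem p4927 : PrL chk L4927 := leafL c4927

theorem c4928 : lp7 (fun s => chk (ent L4928 s)) 0 = true := by decide +kernel
theorem p4928 : PrL chk L4928 := leafL c4928

theorem c4929 : lp7 (fun s => chk (ent L4929 s)) 0 = true := by decide +kernel
theorem p4929 : PrL chk L4929 := leafL c4929

theorem c4930 : lp7 (fun s => chk (ent L4930 s)) 0 = true := by decide +kernel
theorem p4930 : PrL chk L4930 := leafL c4930

theorem c4931 : lp7 (fun s => chk (ent L4931 s)) 0 = true := by decide +kernel
theorem p4931 : PrL chk L4931 := leafL c4931

theorem c4932 : lp7 (fun s => chk (ent L4932 s)) 0 = true := by decide +kernel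
theorem p4932 : PrL chk L4932 := leafL c4932

theorem c4933 : lp7 (fun s => chk (ent L4933 s)) 0 = true := by decide +kernel
theorem p4933 : PrL chk L4933 := leafL c4933

theorem c4934 : lp7 (fun s => chk (ent L4934 s)) 0 = true := by decide +kernel
theorem p4934 : PrL chk L4934 := leafL c4934

theorem c4935 : lp7 (fun s => chk (ent L4935 s)) 0 = true := by decide +kernel
theorem p4935 : PrL chk L4935 := leafL c4935

theorem c4936 : lp7 (fun s => chk (ent L4936 s)) 0 = true := by decide +kernel
theorem p4936 : PrL chk L4936 := leafL c4936

theorem c4937 : lp7 (fun s => chk (ent L4937 s)) 0 = true := by decide +kernel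
theorem p4937 : PrL chk L4937 := leafL c4937

theorem c4938 : lp7 (fun s => chk (ent L4938 s)) 0 = true := by decide +kernel
theorem p4938 : PrL chk L4938 := leafL c4938

theorem c4939 : lp7 (fun s => chk (ent L4939 s)) 0 = true := by decide +kernel
theorem p4939 : PrL chk L4939 := leafL c4939

theorem c4940 : lp7 (fun s => chk (ent L4940 s)) 0 = true := by decide +kernel
theorem p4940 : PrL chk L4940 := leafL c4940

theorem c4941 : lp7 (fun s => chk (ent L4941 s)) 0 = true := by decide +kernel
theorem p4941 : PrL chk L4941 := leafL c4941

theorem c4942 : lp7 (fun s => chk (ent L4942 s)) 0 = true := by decide +kernel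
theorem p4942 : PrL chk L4942 := leafL c4942

theorem c4943 : lp7 (fun s => chk (ent L4943 s)) 0 = true := by decide +kernel
theorem p4943 : PrL chk L4943 := leafL c4943

theorem c4944 : lp7 (fun s => chk (ent L4944 s)) 0 = true := by decide +kernel
theorem p4944 : PrL chk L4944 := leafL c4944

theorem c4945 : lp7 (fun s => chk (ent L4945 s)) 0 = true := by decide +kernel
theorem p4945 : PrL chk L4945 := leafL c4945

theorem c4946 : lp7 (fun s => chk (ent L4946 s)) 0 = true := by decide +kernel
theorem p4946 : PrL chk L4946 := leafL c4946

theorem c4947 : lp7 (fun s => chk (ent L4947 s)) 0 = true := by decide +kernel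
theorem p4947 : PrL chk L4947 := leafL c4947

theorem c4948 : lp7 (fun s => chk (ent L4948 s)) 0 = true := by decide +kernel
theorem p4948 : PrL chk L4948 := leafL c4948

theorem c4949 : lp7 (fun s => chk (ent L4949 s)) 0 = true := by decide +kernel
theorem p4949 : PrL chk L4949 := leafL c4949

theorem c4950 : lp7 (fun s => chk (ent L4950 s)) 0 = true := by decide +kernel
theorem p4950 : PrL chk L4950 := leafL c4950

theorem c4951 : lp7 (fun s => chk (ent L4951 s)) 0 = true := by decide +kernel
theorem p4951 : PrL chk L4951 := leafL c4951

theorem c4952 : lp7 (fun s => chk (ent L4952 s)) 0 = true := by decide +kernel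
theorem p4952 : PrL chk L4952 := leafL c4952

theorem c4953 : lp7 (fun s => chk (ent L4953 s)) 0 = true := by decide +kernel
theorem p4953 : PrL chk L4953 := leafL c4953

theorem c4954 : lp7 (fun s => chk (ent L4954 s)) 0 = true := by decide +kernel
theorem p4954 : PrL chk L4954 := leafL c4954

theorem c4955 : lp7 (fun s => chk (ent L4955 s)) 0 = true := by decide +kernel
theorem p4955 : PrL chk L4955 := leafL c4955

theorem c4956 : lp7 (fun s => chk (ent L4956 s)) 0 = true := by decide +kernel
theorem p4956 : PrL chk L4956 := leafL c4956

theorem c4957 : lp7 (fun s => chk (ent L4957 s)) 0 = true := by decide +kernel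
theorem p4957 : PrL chk L4957 := leafL c4957

theorem c4958 : lp7 (fun s => chk (ent L4958 s)) 0 = true := by decide +kernel
theorem p4958 : PrL chk L4958 := leafL c4958

theorem c4959 : lp7 (fun s => chk (ent L4959 s)) 0 = true := by decide +kernel
theorem p4959 : PrL chk L4959 := leafL c4959

theorem c4960 : lp7 (fun s => chk (ent L4960 s)) 0 = true := by decide +kernel
theorem p4960 : PrL chk L4960 := leafL c4960

theorem c4961 : lp7 (fun s => chk (ent L4961 s)) 0 = true := by decide +kernel
theorem p4961 : PrL chk L4961 := leafL c4961

theorem c4962 : lp7 (fun s => chk (ent L4962 s)) 0 = true := by decide +kernel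
theorem p4962 : PrL chk L4962 := leafL c4962

theorem c4963 : lp7 (fun s => chk (ent L4963 s)) 0 = true := by decide +kernel
theorem p4963 : PrL chk L4963 := leafL c4963

theorem c4964 : lp7 (fun s => chk (ent L4964 s)) 0 = true := by decide +kernel
theorem p4964 : PrL chk L4964 := leafL c4964

theorem c4965 : lp7 (fun s => chk (ent L4965 s)) 0 = true := by decide +kernel
theorem p4965 : PrL chk L4965 := leafL c4965

theorem c4966 : lp7 (fun s => chk (ent L4966 s)) 0 = true := by decide +kernel
theorem p4966 : PrL chk L4966 := leafL c4966

theorem c4967 : lp7 (fun s => chk (ent L4967 s)) 0 = true := by decide +kernel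
theorem p4967 : PrL chk L4967 := leafL c4967

theorem c4968 : lp7 (fun s => chk (ent L4968 s)) 0 = true := by decide +kernel
theorem p4968 : PrL chk L4968 := leafL c4968

theorem c4969 : lp7 (fun s => chk (ent L4969 s)) 0 = true := by decide +kernel
theorem p4969 : PrL chk L4969 := leafL c4969

theorem c4970 : lp7 (fun s => chk (ent L4970 s)) 0 = true := by decide +kernel
theorem p4970 : PrL chk L4970 := leafL c4970

theorem c4971 : lp7 (fun s => chk (ent L4971 s)) 0 = true := by decide +kernel
theorem p4971 : PrL chk L4971 := leafL c4971

theorem c4972 : lp7 (fun s => chk (ent L4972 s)) 0 = true := by decide +kernel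
theorem p4972 : PrL chk L4972 := leafL c4972

theorem c4973 : lp7 (fun s => chk (ent L4973 s)) 0 = true := by decide +kernel
theorem p4973 : PrL chk L4973 := leafL c4973

theorem c4974 : lp7 (fun s => chk (ent L4974 s)) 0 = true := by decide +kernel
theorem p4974 : PrL chk L4974 := leafL c4974

theorem c4975 : lp7 (fun s => chk (ent L4975 s)) 0 = true := by decide +kernel
theorem p4975 : PrL chk L4975 := leafL c4975

theorem c4976 : lp7 (fun s => chk (ent L4976 s)) 0 = true := by decide +kernel
theorem p4976 : PrL chk L4976 := leafL c4976

theorem c4977 : lp7 (fun s => chk (ent L4977 s)) 0 = true := by decide +kernel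
theorem p4977 : PrL chk L4977 := leafL c4977

theorem c4978 : lp7 (fun s => chk (ent L4978 s)) 0 = true := by decide +kernel
theorem p4978 : PrL chk L4978 := leafL c4978

theorem c4979 : lp7 (fun s => chk (ent L4979 s)) 0 = true := by decide +kernel
theorem p4979 : PrL chk L4979 := leafL c4979

theorem c4980 : lp7 (fun s => chk (ent L4980 s)) 0 = true := by decide +kernel
theorem p4980 : PrL chk L4980 := leafL c4980

theorem c4981 : lp7 (fun s => chk (ent L4981 s)) 0 = true := by decide +kernel
theorem p4981 : PrL chk L4981 := leafL c4981

theorem c4982 : lp7 (fun s => chk (ent L4982 s)) 0 = true := by decide +kernel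
theorem p4982 : PrL chk L4982 := leafL c4982

theorem c4983 : lp7 (fun s => chk (ent L4983 s)) 0 = true := by decide +kernel
theorem p4983 : PrL chk L4983 := leafL c4983

theorem c4984 : lp7 (fun s => chk (ent L4984 s)) 0 = true := by decide +kernel
theorem p4984 : PrL chk L4984 := leafL c4984

theorem c4985 : lp7 (fun s => chk (ent L4985 s)) 0 = true := by decide +kernel
theorem p4985 : PrL chk L4985 := leafL c4985

theorem c4986 : lp7 (fun s => chk (ent L4986 s)) 0 = true := by decide +kernel
theorem p4986 : PrL chk L4986 := leafL c4986

theorem c4987 : lp7 (fun s => chk (ent L4987 s)) 0 = true := by decide +kernel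
theorem p4987 : PrL chk L4987 := leafL c4987

theorem c4988 : lp7 (fun s => chk (ent L4988 s)) 0 = true := by decide +kernel
theorem p4988 : PrL chk L4988 := leafL c4988

theorem c4989 : lp7 (fun s => chk (ent L4989 s)) 0 = true := by decide +kernel
theorem p4989 : PrL chk L4989 := leafL c4989

theorem c4990 : lp7 (fun s => chk (ent L4990 s)) 0 = true := by decide +kernel
theorem p4990 : PrL chk L4990 := leafL c4990

theorem c4991 : lp7 (fun s => chk (ent L4991 s)) 0 = true := by decide +kernel
theorem p4991 : PrL chk L4991 := leafL c4991

theorem c4992 : lp7 (fun s => chk (ent L4992 s)) 0 = true := by decide +kernel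
theorem p4992 : PrL chk L4992 := leafL c4992

theorem c4993 : lp7 (fun s => chk (ent L4993 s)) 0 = true := by decide +kernel
theorem p4993 : PrL chk L4993 := leafL c4993

theorem c4994 : lp7 (fun s => chk (ent L4994 s)) 0 = true := by decide +kernel
theorem p4994 : PrL chk L4994 := leafL c4994

theorem c4995 : lp7 (fun s => chk (ent L4995 s)) 0 = true := by decide +kernel
theorem p4995 : PrL chk L4995 := leafL c4995

theorem c4996 : lp7 (fun s => chk (ent L4996 s)) 0 = true := by decide +kernel
theorem p4996 : PrL chk L4996 := leafL c4996

theorem c4997 : lp7 (fun s => chk (ent L4997 s)) 0 = true := by decide +kernel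
theorem p4997 : PrL chk L4997 := leafL c4997

theorem c4998 : lp7 (fun s => chk (ent L4998 s)) 0 = true := by decide +kernel
theorem p4998 : PrL chk L4998 := leafL c4998

theorem c4999 : lp7 (fun s => chk (ent L4999 s)) 0 = true := by decide +kernel
theorem p4999 : PrL chk L4999 := leafL c4999

theorem c5000 : lp7 (fun s => chk (ent L5000 s)) 0 = true := by decide +kernel
theorem p5000 : PrL chk L5000 := leafL c5000

theorem c5001 : lp7 (fun s => chk (ent L5001 s)) 0 = true := by decide +kernel
theorem p5001 : PrL chk L5001 := leafL c5001

theorem c5002 : lp7 (fun s => chk (ent L5002 s)) 0 = true := by decide +kernel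
theorem p5002 : PrL chk L5002 := leafL c5002

theorem c5003 : lp7 (fun s => chk (ent L5003 s)) 0 = true := by decide +kernel
theorem p5003 : PrL chk L5003 := leafL c5003

theorem c5004 : lp7 (fun s => chk (ent L5004 s)) 0 = true := by decide +kernel
theorem p5004 : PrL chk L5004 := leafL c5004

theorem c5005 : lp7 (fun s => chk (ent L5005 s)) 0 = true := by decide +kernel
theorem p5005 : PrL chk L5005 := leafL c5005

theorem c5006 : lp7 (fun s => chk (ent L5006 s)) 0 = true := by decide +kernel
theorem p5006 : PrL chk L5006 := leafL c5006

theorem c5007 : lp7 (fun s => chk (ent L5007 s)) 0 = true := by decide +kernel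
theorem p5007 : PrL chk L5007 := leafL c5007

theorem c5008 : lp7 (fun s => chk (ent L5008 s)) 0 = true := by decide +kernel
theorem p5008 : PrL chk L5008 := leafL c5008

theorem c5009 : lp7 (fun s => chk (ent L5009 s)) 0 = true := by decide +kernel
theorem p5009 : PrL chk L5009 := leafL c5009

theorem c5010 : lp7 (fun s => chk (ent L5010 s)) 0 = true := by decide +kernel
theorem p5010 : PrL chk L5010 := leafL c5010

theorem c5011 : lp7 (fun s => chk (ent L5011 s)) 0 = true := by decide +kernel
theorem p5011 : PrL chk L5011 := leafL c5011

theorem c5012 : lp7 (fun s => chk (ent L5012 s)) 0 = true := by decide +kernel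
theorem p5012 : PrL chk L5012 := leafL c5012

theorem c5013 : lp7 (fun s => chk (ent L5013 s)) 0 = true := by decide +kernel
theorem p5013 : PrL chk L5013 := leafL c5013

theorem c5014 : lp7 (fun s => chk (ent L5014 s)) 0 = true := by decide +kernel
theorem p5014 : PrL chk L5014 := leafL c5014

theorem c5015 : lp7 (fun s => chk (ent L5015 s)) 0 = true := by decide +kernel
theorem p5015 : PrL chk L5015 := leafL c5015

theorem c5016 : lp7 (fun s => chk (ent L5016 s)) 0 = true := by decide +kernel
theorem p5016 : PrL chk L5016 := leafL c5016

theorem c5017 : lp7 (fun s => chk (ent L5017 s)) 0 = true := by decide +kernel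
theorem p5017 : PrL chk L5017 := leafL c5017

theorem c5018 : lp7 (fun s => chk (ent L5018 s)) 0 = true := by decide +kernel
theorem p5018 : PrL chk L5018 := leafL c5018

theorem c5019 : lp7 (fun s => chk (ent L5019 s)) 0 = true := by decide +kernel
theorem p5019 : PrL chk L5019 := leafL c5019

theorem c5020 : lp7 (fun s => chk (ent L5020 s)) 0 = true := by decide +kernel
theorem p5020 : PrL chk L5020 := leafL c5020

theorem c5021 : lp7 (fun s => chk (ent L5021 s)) 0 = true := by decide +kernel
theorem p5021 : PrL chk L5021 := leafL c5021

theorem c5022 : lp7 (fun s => chk (ent L5022 s)) 0 = true := by decide +kernel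
theorem p5022 : PrL chk L5022 := leafL c5022

theorem c5023 : lp7 (fun s => chk (ent L5023 s)) 0 = true := by decide +kernel
theorem p5023 : PrL chk L5023 := leafL c5023

theorem c5024 : lp7 (fun s => chk (ent L5024 s)) 0 = true := by decide +kernel
theorem p5024 : PrL chk L5024 := leafL c5024

theorem c5025 : lp7 (fun s => chk (ent L5025 s)) 0 = true := by decide +kernel
theorem p5025 : PrL chk L5025 := leafL c5025

theorem c5026 : lp7 (fun s => chk (ent L5026 s)) 0 = true := by decide +kernel
theorem p5026 : PrL chk L5026 := leafL c5026

theorem c5027 : lp7 (fun s => chk (ent L5027 s)) 0 = true := by decide +kernel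
theorem p5027 : PrL chk L5027 := leafL c5027

theorem c5028 : lp7 (fun s => chk (ent L5028 s)) 0 = true := by decide +kernel
theorem p5028 : PrL chk L5028 := leafL c5028

theorem c5029 : lp7 (fun s => chk (ent L5029 s)) 0 = true := by decide +kernel
theorem p5029 : PrL chk L5029 := leafL c5029

theorem c5030 : lp7 (fun s => chk (ent L5030 s)) 0 = true := by decide +kernel
theorem p5030 : PrL chk L5030 := leafL c5030

theorem c5031 : lp7 (fun s => chk (ent L5031 s)) 0 = true := by decide +kernel
theorem p5031 : PrL chk L5031 := leafL c5031

theorem c5032 : lp7 (fun s => chk (ent L5032 s)) 0 = true := by decide +kernel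
theorem p5032 : PrL chk L5032 := leafL c5032

theorem c5033 : lp7 (fun s => chk (ent L5033 s)) 0 = true := by decide +kernel
theorem p5033 : PrL chk L5033 := leafL c5033

theorem c5034 : lp7 (fun s => chk (ent L5034 s)) 0 = true := by decide +kernel
theorem p5034 : PrL chk L5034 := leafL c5034

theorem c5035 : lp7 (fun s => chk (ent L5035 s)) 0 = true := by decide +kernel
theorem p5035 : PrL chk L5035 := leafL c5035

theorem c5036 : lp7 (fun s => chk (ent L5036 s)) 0 = true := by decide +kernel
theorem p5036 : PrL chk L5036 := leafL c5036

theorem c5037 : lp7 (fun s => chk (ent L5037 s)) 0 = true := by decide +kernel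
theorem p5037 : PrL chk L5037 := leafL c5037

theorem c5038 : lp7 (fun s => chk (ent L5038 s)) 0 = true := by decide +kernel
theorem p5038 : PrL chk L5038 := leafL c5038

theorem c5039 : lp7 (fun s => chk (ent L5039 s)) 0 = true := by decide +kernel
theorem p5039 : PrL chk L5039 := leafL c5039

theorem c5040 : lp7 (fun s => chk (ent L5040 s)) 0 = true := by decide +kernel
theorem p5040 : PrL chk L5040 := leafL c5040

theorem c5041 : lp7 (fun s => chk (ent L5041 s)) 0 = true := by decide +kernel
theorem p5041 : PrL chk L5041 := leafL c5041

theorem c5042 : lp7 (fun s => chk (ent L5042 s)) 0 = true := by decide +kernel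
theorem p5042 : PrL chk L5042 := leafL c5042

theorem c5043 : lp7 (fun s => chk (ent L5043 s)) 0 = true := by decide +kernel
theorem p5043 : PrL chk L5043 := leafL c5043

theorem c5044 : lp7 (fun s => chk (ent L5044 s)) 0 = true := by decide +kernel
theorem p5044 : PrL chk L5044 := leafL c5044

theorem c5045 : lp7 (fun s => chk (ent L5045 s)) 0 = true := by decide +kernel
theorem p5045 : PrL chk L5045 := leafL c5045

theorem c5046 : lp7 (fun s => chk (ent L5046 s)) 0 = true := by decide +kernel
theorem p5046 : PrL chk L5046 := leafL c5046

theorem c5047 : lp7 (fun s => chk (ent L5047 s)) 0 = true := by decide +kernel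
theorem p5047 : PrL chk L5047 := leafL c5047

theorem c5048 : lp7 (fun s => chk (ent L5048 s)) 0 = true := by decide +kernel
theorem p5048 : PrL chk L5048 := leafL c5048

theorem c5049 : lp7 (fun s => chk (ent L5049 s)) 0 = true := by decide +kernel
theorem p5049 : PrL chk L5049 := leafL c5049

theorem c5050 : lp7 (fun s => chk (ent L5050 s)) 0 = true := by decide +kernel
theorem p5050 : PrL chk L5050 := leafL c5050

theorem c5051 : lp7 (fun s => chk (ent L5051 s)) 0 = true := by decide +kernel
theorem p5051 : PrL chk L5051 := leafL c5051

theorem c5052 : lp7 (fun s => chk (ent L5052 s)) 0 = true := by decide +kernel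
theorem p5052 : PrL chk L5052 := leafL c5052

theorem c5053 : lp7 (fun s => chk (ent L5053 s)) 0 = true := by decide +kernel
theorem p5053 : PrL chk L5053 := leafL c5053

theorem c5054 : lp7 (fun s => chk (ent L5054 s)) 0 = true := by decide +kernel
theorem p5054 : PrL chk L5054 := leafL c5054

theorem c5055 : lp7 (fun s => chk (ent L5055 s)) 0 = true := by decide +kernel
theorem p5055 : PrL chk L5055 := leafL c5055

theorem c5056 : lp7 (fun s => chk (ent L5056 s)) 0 = true := by decide +kernel
theorem p5056 : PrL chk L5056 := leafL c5056

theorem c5057 : lp7 (fun s => chk (ent L5057 s)) 0 = true := by decide +kernel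
theorem p5057 : PrL chk L5057 := leafL c5057

theorem c5058 : lp7 (fun s => chk (ent L5058 s)) 0 = true := by decide +kernel
theorem p5058 : PrL chk L5058 := leafL c5058

theorem c5059 : lp7 (fun s => chk (ent L5059 s)) 0 = true := by decide +kernel
theorem p5059 : PrL chk L5059 := leafL c5059

theorem c5060 : lp7 (fun s => chk (ent L5060 s)) 0 = true := by decide +kernel
theorem p5060 : PrL chk L5060 := leafL c5060

theorem c5061 : lp7 (fun s => chk (ent L5061 s)) 0 = true := by decide +kernel
theorem p5061 : PrL chk L5061 := leafL c5061

theorem c5062 : lp7 (fun s => chk (ent L5062 s)) 0 = true := by decide +kernel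
theorem p5062 : PrL chk L5062 := leafL c5062

theorem c5063 : lp7 (fun s => chk (ent L5063 s)) 0 = true := by decide +kernel
theorem p5063 : PrL chk L5063 := leafL c5063

theorem c5064 : lp7 (fun s => chk (ent L5064 s)) 0 = true := by decide +kernel
theorem p5064 : PrL chk L5064 := leafL c5064

theorem c5065 : lp7 (fun s => chk (ent L5065 s)) 0 = true := by decide +kernel
theorem p5065 : PrL chk L5065 := leafL c5065

theorem c5066 : lp7 (fun s => chk (ent L5066 s)) 0 = true := by decide +kernel
theorem p5066 : PrL chk L5066 := leafL c5066

theorem c5067 : lp7 (fun s => chk (ent L5067 s)) 0 = true := by decide +kernel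
theorem p5067 : PrL chk L5067 := leafL c5067

theorem c5068 : lp7 (fun s => chk (ent L5068 s)) 0 = true := by decide +kernel
theorem p5068 : PrL chk L5068 := leafL c5068

theorem c5069 : lp7 (fun s => chk (ent L5069 s)) 0 = true := by decide +kernel
theorem p5069 : PrL chk L5069 := leafL c5069

theorem c5070 : lp7 (fun s => chk (ent L5070 s)) 0 = true := by decide +kernel
theorem p5070 : PrL chk L5070 := leafL c5070

theorem c5071 : lp7 (fun s => chk (ent L5071 s)) 0 = true := by decide +kernel
theorem p5071 : PrL chk L5071 := leafL c5071

theorem c5072 : lp7 (fun s => chk (ent L5072 s)) 0 = true := by decide +kernel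
theorem p5072 : PrL chk L5072 := leafL c5072

theorem c5073 : lp7 (fun s => chk (ent L5073 s)) 0 = true := by decide +kernel
theorem p5073 : PrL chk L5073 := leafL c5073

theorem c5074 : lp7 (fun s => chk (ent L5074 s)) 0 = true := by decide +kernel
theorem p5074 : PrL chk L5074 := leafL c5074

theorem c5075 : lp7 (fun s => chk (ent L5075 s)) 0 = true := by decide +kernel
theorem p5075 : PrL chk L5075 := leafL c5075

theorem c5076 : lp7 (fun s => chk (ent L5076 s)) 0 = true := by decide +kernel
theorem p5076 : PrL chk L5076 := leafL c5076

theorem c5077 : lp7 (fun s => chk (ent L5077 s)) 0 = true := by decide +kernel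
theorem p5077 : PrL chk L5077 := leafL c5077

theorem c5078 : lp7 (fun s => chk (ent L5078 s)) 0 = true := by decide +kernel
theorem p5078 : PrL chk L5078 := leafL c5078

theorem c5079 : lp7 (fun s => chk (ent L5079 s)) 0 = true := by decide +kernel
theorem p5079 : PrL chk L5079 := leafL c5079

theorem c5080 : lp7 (fun s => chk (ent L5080 s)) 0 = true := by decide +kernel
theorem p5080 : PrL chk L5080 := leafL c5080

theorem c5081 : lp7 (fun s => chk (ent L5081 s)) 0 = true := by decide +kernel
theorem p5081 : PrL chk L5081 := leafL c5081

theorem c5082 : lp7 (fun s => chk (ent L5082 s)) 0 = true := by decide +kernel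
theorem p5082 : PrL chk L5082 := leafL c5082

theorem c5083 : lp7 (fun s => chk (ent L5083 s)) 0 = true := by decide +kernel
theorem p5083 : PrL chk L5083 := leafL c5083

theorem c5084 : lp7 (fun s => chk (ent L5084 s)) 0 = true := by decide +kernel
theorem p5084 : PrL chk L5084 := leafL c5084

theorem c5085 : lp7 (fun s => chk (ent L5085 s)) 0 = true := by decide +kernel
theorem p5085 : PrL chk L5085 := leafL c5085

theorem c5086 : lp7 (fun s => chk (ent L5086 s)) 0 = true := by decide +kernel
theorem p5086 : PrL chk L5086 := leafL c5086

theorem c5087 : lp7 (fun s => chk (ent L5087 s)) 0 = true := by decide +kernel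
theorem p5087 : PrL chk L5087 := leafL c5087

theorem c5088 : lp7 (fun s => chk (ent L5088 s)) 0 = true := by decide +kernel
theorem p5088 : PrL chk L5088 := leafL c5088

theorem c5089 : lp7 (fun s => chk (ent L5089 s)) 0 = true := by decide +kernel
theorem p5089 : PrL chk L5089 := leafL c5089

theorem c5090 : lp7 (fun s => chk (ent L5090 s)) 0 = true := by decide +kernel
theorem p5090 : PrL chk L5090 := leafL c5090

theorem c5091 : lp7 (fun s => chk (ent L5091 s)) 0 = true := by decide +kernel
theorem p5091 : PrL chk L5091 := leafL c5091

theorem c5092 : lp7 (fun s => chk (ent L5092 s)) 0 = true := by decide +kernel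
theorem p5092 : PrL chk L5092 := leafL c5092

theorem c5093 : lp7 (fun s => chk (ent L5093 s)) 0 = true := by decide +kernel
theorem p5093 : PrL chk L5093 := leafL c5093

theorem c5094 : lp7 (fun s => chk (ent L5094 s)) 0 = true := by decide +kernel
theorem p5094 : PrL chk L5094 := leafL c5094

theorem c5095 : lp7 (fun s => chk (ent L5095 s)) 0 = true := by decide +kernel
theorem p5095 : PrL chk L5095 := leafL c5095

theorem c5096 : lp7 (fun s => chk (ent L5096 s)) 0 = true := by decide +kernel
theorem p5096 : PrL chk L5096 := leafL c5096

theorem c5097 : lp7 (fun s => chk (ent L5097 s)) 0 = true := by decide +kernel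
theorem p5097 : PrL chk L5097 := leafL c5097

theorem c5098 : lp7 (fun s => chk (ent L5098 s)) 0 = true := by decide +kernel
theorem p5098 : PrL chk L5098 := leafL c5098

theorem c5099 : lp7 (fun s => chk (ent L5099 s)) 0 = true := by decide +kernel
theorem p5099 : PrL chk L5099 := leafL c5099

theorem c5100 : lp7 (fun s => chk (ent L5100 s)) 0 = true := by decide +kernel
theorem p5100 : PrL chk L5100 := leafL c5100

theorem c5101 : lp7 (fun s => chk (ent L5101 s)) 0 = true := by decide +kernel
theorem p5101 : PrL chk L5101 := leafL c5101

theorem c5102 : lp7 (fun s => chk (ent L5102 s)) 0 = true := by decide +kernel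
theorem p5102 : PrL chk L5102 := leafL c5102

theorem c5103 : lp7 (fun s => chk (ent L5103 s)) 0 = true := by decide +kernel
theorem p5103 : PrL chk L5103 := leafL c5103

theorem c5104 : lp7 (fun s => chk (ent L5104 s)) 0 = true := by decide +kernel
theorem p5104 : PrL chk L5104 := leafL c5104

theorem c5105 : lp7 (fun s => chk (ent L5105 s)) 0 = true := by decide +kernel
theorem p5105 : PrL chk L5105 := leafL c5105

theorem c5106 : lp7 (fun s => chk (ent L5106 s)) 0 = true := by decide +kernel
theorem p5106 : PrL chk L5106 := leafL c5106

theorem c5107 : lp7 (fun s => chk (ent L5107 s)) 0 = true := by decide +kernel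
theorem p5107 : PrL chk L5107 := leafL c5107

theorem c5108 : lp7 (fun s => chk (ent L5108 s)) 0 = true := by decide +kernel
theorem p5108 : PrL chk L5108 := leafL c5108

theorem c5109 : lp7 (fun s => chk (ent L5109 s)) 0 = true := by decide +kernel
theorem p5109 : PrL chk L5109 := leafL c5109

theorem c5110 : lp7 (fun s => chk (ent L5110 s)) 0 = true := by decide +kernel
theorem p5110 : PrL chk L5110 := leafL c5110

theorem c5111 : lp7 (fun s => chk (ent L5111 s)) 0 = true := by decide +kernel
theorem p5111 : PrL chk L5111 := leafL c5111

theorem c5112 : lp7 (fun s => chk (ent L5112 s)) 0 = true := by decide +kernel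
theorem p5112 : PrL chk L5112 := leafL c5112

theorem c5113 : lp7 (fun s => chk (ent L5113 s)) 0 = true := by decide +kernel
theorem p5113 : PrL chk L5113 := leafL c5113

theorem c5114 : lp7 (fun s => chk (ent L5114 s)) 0 = true := by decide +kernel
theorem p5114 : PrL chk L5114 := leafL c5114

theorem c5115 : lp7 (fun s => chk (ent L5115 s)) 0 = true := by decide +kernel
theorem p5115 : PrL chk L5115 := leafL c5115

theorem c5116 : lp7 (fun s => chk (ent L5116 s)) 0 = true := by decide +kernel
theorem p5116 : PrL chk L5116 := leafL c5116

theorem c5117 : lp7 (fun s => chk (ent L5117 s)) 0 = true := by decide +kernel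
theorem p5117 : PrL chk L5117 := leafL c5117

theorem c5118 : lp7 (fun s => chk (ent L5118 s)) 0 = true := by decide +kernel
theorem p5118 : PrL chk L5118 := leafL c5118

theorem c5119 : lp7 (fun s => chk (ent L5119 s)) 0 = true := by decide +kernel
theorem p5119 : PrL chk L5119 := leafL c5119

end Pool.Agent.ad013a.LA
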