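import Pool.Agent.H.MP_ad013a_pr.h63l.A.T
import Pool.Agent.H.MP_ad013a_pr.h63w.VLoop

namespace Pool.Agent.ad013a.LA

theorem c5120 : lp7 (fun s => chk (ent L5120 s)) 0 = true := by decide +kernel
theorem p5120 : PrL chk L5120 := leafL c5120

theorem c5121 : lp7 (fun s => chk (ent L5121 s)) 0 = true := by decide +kernel
theorem p5121 : PrL chk L5121 := leafL c5121

theorem c5122 : lp7 (fun s => chk (ent L5122 s)) 0 = true := by decide +kernel
theorem p5122 : PrL chk L5122 := leafL c5122

theorem c5123 : lp7 (fun s => chk (ent L5123 s)) 0 = true := by decide +kernel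
theorem p5123 : PrL chk L5123 := leafL c5123

theorem c5124 : lp7 (fun s => chk (ent L5124 s)) 0 = true := by decide +kernel
theorem p5124 : PrL chk L5124 := leafL c5124

theorem c5125 : lp7 (fun s => chk (ent L5125 s)) 0 = true := by decide +kernel
theorem p5125 : PrL chk L5125 := leafL c5125

theorem c5126 : lp7 (fun s => chk (ent L5126 s)) 0 = true := by decide +kernel
theorem p5126 : PrL chk L5126 := leafL c5126

theorem c5127 : lp7 (fun s => chk (ent L5127 s)) 0 = true := by decide +kernel
theorem p5127 : PrL chk L5127 := leafL c5127

theorem c5128 : lp7 (fun s => chk (ent L5128 s)) 0 = true := by decide +kernel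
theorem p5128 : PrL chk L5128 := leafL c5128

theorem c5129 : lp7 (fun s => chk (ent L5129 s)) 0 = true := by decide +kernel
theorem p5129 : PrL chk L5129 := leafL c5129

theorem c5130 : lp7 (fun s => chk (ent L5130 s)) 0 = true := by decide +kernel
theorem p5130 : PrL chk L5130 := leafL c5130

theorem c5131 : lp7 (fun s => chk (ent L5131 s)) 0 = true := by decide +kernel
theorem p5131 : PrL chk L5131 := leafL c5131

theorem c5132 : lp7 (fun s => chk (ent L5132 s)) 0 = true := by decide +kernel
theorem p5132 : PrL chk L5132 := leafL c5132

theorem c5133 : lp7 (fun s => chk (ent L5133 s)) 0 = true := by decide +kernel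
theorem p5133 : PrL chk L5133 := leafL c5133

theorem c5134 : lp7 (fun s => chk (ent L5134 s)) 0 = true := by decide +kernel
theorem p5134 : PrL chk L5134 := leafL c5134

theorem c5135 : lp7 (fun s => chk (ent L5135 s)) 0 = true := by decide +kernel
theorem p5135 : PrL chk L5135 := leafL c5135

theorem c5136 : lp7 (fun s => chk (ent L5136 s)) 0 = true := by decide +kernel
theorem p5136 : PrL chk L5136 := leafL c5136

theorem c5137 : lp7 (fun s => chk (ent L5137 s)) 0 = true := by decide +kernel
theorem p5137 : PrL chk L5137 := leafL c5137

theorem c5138 : lp7 (fun s => chk (ent L5138 s)) 0 = true := by decide +kernel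
theorem p5138 : PrL chk L5138 := leafL c5138

theorem c5139 : lp7 (fun s => chk (ent L5139 s)) 0 = true := by decide +kernel
theorem p5139 : PrL chk L5139 := leafL c5139

theorem c5140 : lp7 (fun s => chk (ent L5140 s)) 0 = true := by decide +kernel
theorem p5140 : PrL chk L5140 := leafL c5140

theorem c5141 : lp7 (fun s => chk (ent L5141 s)) 0 = true := by decide +kernel
theorem p5141 : PrL chk L5141 := leafL c5141

theorem c5142 : lp7 (fun s => chk (ent L5142 s)) 0 = true := by decide +kernel
theorem p5142 : PrL chk L5142 := leafL c5142

theorem c5143 : lp7 (fun s => chk (ent L5143 s)) 0 = true := by decide +kernel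
theorem p5143 : PrL chk L5143 := leafL c5143

theorem c5144 : lp7 (fun s => chk (ent L5144 s)) 0 = true := by decide +kernel
theorem p5144 : PrL chk L5144 := leafL c5144

theorem c5145 : lp7 (fun s => chk (ent L5145 s)) 0 = true := by decide +kernel
theorem p5145 : PrL chk L5145 := leafL c5145

theorem c5146 : lp7 (fun s => chk (ent L5146 s)) 0 = true := by decide +kernel
theorem p5146 : PrL chk L5146 := leafL c5146

theorem c5147 : lp7 (fun s => chk (ent L5147 s)) 0 = true := by decide +kernel
theorem p5147 : PrL chk L5147 := leafL c5147

theorem c5148 : lp7 (fun s => chk (ent L5148 s)) 0 = true := by decide +kernel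
theorem p5148 : PrL chk L5148 := leafL c5148

theorem c5149 : lp7 (fun s => chk (ent L5149 s)) 0 = true := by decide +kernel
theorem p5149 : PrL chk L5149 := leafL c5149

theorem c5150 : lp7 (fun s => chk (ent L5150 s)) 0 = true := by decide +kernel
theorem p5150 : PrL chk L5150 := leafL c5150

theorem c5151 : lp7 (fun s => chk (ent L5151 s)) 0 = true := by decide +kernel
theorem p5151 : PrL chk L5151 := leafL c5151

theorem c5152 : lp7 (fun s => chk (ent L5152 s)) 0 = true := by decide +kernel
theorem p5152 : PrL chk L5152 := leafL c5152

theorem c5153 : lp7 (fun s => chk (ent L5153 s)) 0 = true := by decide +kernel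
theorem p5153 : PrL chk L5153 := leafL c5153

theorem c5154 : lp7 (fun s => chk (ent L5154 s)) 0 = true := by decide +kernel
theorem p5154 : PrL chk L5154 := leafL c5154

theorem c5155 : lp7 (fun s => chk (ent L5155 s)) 0 = true := by decide +kernel
theorem p5155 : PrL chk L5155 := leafL c5155

theorem c5156 : lp7 (fun s => chk (ent L5156 s)) 0 = true := by decide +kernel
theorem p5156 : PrL chk L5156 := leafL c5156

theorem c5157 : lp7 (fun s => chk (ent L5157 s)) 0 = true := by decide +kernel
theorem p5157 : PrL chk L5157 := leafL c5157

theorem c5158 : lp7 (fun s => chk (ent L5158 s)) 0 = true := by decide +kernel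
theorem p5158 : PrL chk L5158 := leafL c5158

theorem c5159 : lp7 (fun s => chk (ent L5159 s)) 0 = true := by decide +kernel
theorem p5159 : PrL chk L5159 := leafL c5159

theorem c5160 : lp7 (fun s => chk (ent L5160 s)) 0 = true := by decide +kernel
theorem p5160 : PrL chk L5160 := leafL c5160

theorem c5161 : lp7 (fun s => chk (ent L5161 s)) 0 = true := by decide +kernel
theorem p5161 : PrL chk L5161 := leafL c5161

theorem c5162 : lp7 (fun s => chk (ent L5162 s)) 0 = true := by decide +kernel
theorem p5162 : PrL chk L5162 := leafL c5162

theorem c5163 : lp7 (fun s => chk (ent L5163 s)) 0 = true := by decide +kernel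
theorem p5163 : PrL chk L5163 := leafL c5163

theorem c5164 : lp7 (fun s => chk (ent L5164 s)) 0 = true := by decide +kernel
theorem p5164 : PrL chk L5164 := leafL c5164

theorem c5165 : lp7 (fun s => chk (ent L5165 s)) 0 = true := by decide +kernel
theorem p5165 : PrL chk L5165 := leafL c5165

theorem c5166 : lp7 (fun s => chk (ent L5166 s)) 0 = true := by decide +kernel
theorem p5166 : PrL chk L5166 := leafL c5166

theorem c5167 : lp7 (fun s => chk (ent L5167 s)) 0 = true := by decide +kernel
theorem p5167 : PrL chk L5167 := leafL c5167

theorem c5168 : lp7 (fun s => chk (ent L5168 s)) 0 = true := by decide +kernel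
theorem p5168 : PrL chk L5168 := leafL c5168

theorem c5169 : lp7 (fun s => chk (ent L5169 s)) 0 = true := by decide +kernel
theorem p5169 : PrL chk L5169 := leafL c5169

theorem c5170 : lp7 (fun s => chk (ent L5170 s)) 0 = true := by decide +kernel
theorem p5170 : PrL chk L5170 := leafL c5170

theorem c5171 : lp7 (fun s => chk (ent L5171 s)) 0 = true := by decide +kernel
theorem p5171 : PrL chk L5171 := leafL c5171

theorem c5172 : lp7 (fun s => chk (ent L5172 s)) 0 = true := by decide +kernel
theorem p5172 : PrL chk L5172 := leafL c5172

theorem c5173 : lp7 (fun s => chk (ent L5173 s)) 0 = true := by decide +kernel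
theorem p5173 : PrL chk L5173 := leafL c5173

theorem c5174 : lp7 (fun s => chk (ent L5174 s)) 0 = true := by decide +kernel
theorem p5174 : PrL chk L5174 := leafL c5174

theorem c5175 : lp7 (fun s => chk (ent L5175 s)) 0 = true := by decide +kernel
theorem p5175 : PrL chk L5175 := leafL c5175

theorem c5176 : lp7 (fun s => chk (ent L5176 s)) 0 = true := by decide +kernel
theorem p5176 : PrL chk L5176 := leafL c5176

theorem c5177 : lp7 (fun s => chk (ent L5177 s)) 0 = true := by decide +kernel
theorem p5177 : PrL chk L5177 := leafL c5177

theorem c5178 : lp7 (fun s => chk (ent L5178 s)) 0 = true := by decide +kernel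
theorem p5178 : PrL chk L5178 := leafL c5178

theorem c5179 : lp7 (fun s => chk (ent L5179 s)) 0 = true := by decide +kernel
theorem p5179 : PrL chk L5179 := leafL c5179

theorem c5180 : lp7 (fun s => chk (ent L5180 s)) 0 = true := by decide +kernel
theorem p5180 : PrL chk L5180 := leafL c5180

theorem c5181 : lp7 (fun s => chk (ent L5181 s)) 0 = true := by decide +kernel
theorem p5181 : PrL chk L5181 := leafL c5181

theorem c5182 : lp7 (fun s => chk (ent L5182 s)) 0 = true := by decide +kernel
theorem p5182 : PrL chk L5182 := leafL c5182

theorem c5183 : lp7 (fun s => chk (ent L5183 s)) 0 = true := by decide +kernel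
theorem p5183 : PrL chk L5183 := leafL c5183

theorem c5184 : lp7 (fun s => chk (ent L5184 s)) 0 = true := by decide +kernel
theorem p5184 : PrL chk L5184 := leafL c5184

theorem c5185 : lp7 (fun s => chk (ent L5185 s)) 0 = true := by decide +kernel
theorem p5185 : PrL chk L5185 := leafL c5185

theorem c5186 : lp7 (fun s => chk (ent L5186 s)) 0 = true := by decide +kernel
theorem p5186 : PrL chk L5186 := leafL c5186

theorem c5187 : lp7 (fun s => chk (ent L5187 s)) 0 = true := by decide +kernel
theorem p5187 : PrL chk L5187 := leafL c5187

theorem c5188 : lp7 (fun s => chk (ent L5188 s)) 0 = true := by decide +kernel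
theorem p5188 : PrL chk L5188 := leafL c5188

theorem c5189 : lp7 (fun s => chk (ent L5189 s)) 0 = true := by decide +kernel
theorem p5189 : PrL chk L5189 := leafL c5189

theorem c5190 : lp7 (fun s => chk (ent L5190 s)) 0 = true := by decide +kernel
theorem p5190 : PrL chk L5190 := leafL c5190

theorem c5191 : lp7 (fun s => chk (ent L5191 s)) 0 = true := by decide +kernel
theorem p5191 : PrL chk L5191 := leafL c5191

theorem c5192 : lp7 (fun s => chk (ent L5192 s)) 0 = true := by decide +kernel
theorem p5192 : PrL chk L5192 := leafL c5192

theorem c5193 : lp7 (fun s => chk (ent L5193 s)) 0 = true := by decide +kernel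
theorem p5193 : PrL chk L5193 := leafL c5193

theorem c5194 : lp7 (fun s => chk (ent L5194 s)) 0 = true := by decide +kernel
theorem p5194 : PrL chk L5194 := leafL c5194

theorem c5195 : lp7 (fun s => chk (ent L5195 s)) 0 = true := by decide +kernel
theorem p5195 : PrL chk L5195 := leafL c5195

theorem c5196 : lp7 (fun s => chk (ent L5196 s)) 0 = true := by decide +kernel
theorem p5196 : PrL chk L5196 := leafL c5196

theorem c5197 : lp7 (fun s => chk (ent L5197 s)) 0 = true := by decide +kernel
theorem p5197 : PrL chk L5197 := leafL c5197

theorem c5198 : lp7 (fun s => chk (ent L5198 s)) 0 = true := by decide +kernel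
theorem p5198 : PrL chk L5198 := leafL c5198

theorem c5199 : lp7 (fun s => chk (ent L5199 s)) 0 = true := by decide +kernel
theorem p5199 : PrL chk L5199 := leafL c5199

theorem c5200 : lp7 (fun s => chk (ent L5200 s)) 0 = true := by decide +kernel
theorem p5200 : PrL chk L5200 := leafL c5200

theorem c5201 : lp7 (fun s => chk (ent L5201 s)) 0 = true := by decide +kernel
theorem p5201 : PrL chk L5201 := leafL c5201

theorem c5202 : lp7 (fun s => chk (ent L5202 s)) 0 = true := by decide +kernel
theorem p5202 : PrL chk L5202 := leafL c5202

theorem c5203 : lp7 (fun s => chk (ent L5203 s)) 0 = true := by decide +kernel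
theorem p5203 : PrL chk L5203 := leafL c5203

theorem c5204 : lp7 (fun s => chk (ent L5204 s)) 0 = true := by decide +kernel
theorem p5204 : PrL chk L5204 := leafL c5204

theorem c5205 : lp7 (fun s => chk (ent L5205 s)) 0 = true := by decide +kernel
theorem p5205 : PrL chk L5205 := leafL c5205

theorem c5206 : lp7 (fun s => chk (ent L5206 s)) 0 = true := by decide +kernel
theorem p5206 : PrL chk L5206 := leafL c5206

theorem c5207 : lp7 (fun s => chk (ent L5207 s)) 0 = true := by decide +kernel
theorem p5207 : PrL chk L5207 := leafL c5207

theorem c5208 : lp7 (fun s => chk (ent L5208 s)) 0 = true := by decide +kernel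
theorem p5208 : PrL chk L5208 := leafL c5208

theorem c5209 : lp7 (fun s => chk (ent L5209 s)) 0 = true := by decide +kernel
theorem p5209 : PrL chk L5209 := leafL c5209

theorem c5210 : lp7 (fun s => chk (ent L5210 s)) 0 = true := by decide +kernel
theorem p5210 : PrL chk L5210 := leafL c5210

theorem c5211 : lp7 (fun s => chk (ent L5211 s)) 0 = true := by decide +kernel
theorem p5211 : PrL chk L5211 := leafL c5211

theorem c5212 : lp7 (fun s => chk (ent L5212 s)) 0 = true := by decide +kernel
theorem p5212 : PrL chk L5212 := leafL c5212

theorem c5213 : lp7 (fun s => chk (ent L5213 s)) 0 = true := by decide +kernel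
theorem p5213 : PrL chk L5213 := leafL c5213

theorem c5214 : lp7 (fun s => chk (ent L5214 s)) 0 = true := by decide +kernel
theorem p5214 : PrL chk L5214 := leafL c5214

theorem c5215 : lp7 (fun s => chk (ent L5215 s)) 0 = true := by decide +kernel
theorem p5215 : PrL chk L5215 := leafL c5215

theorem c5216 : lp7 (fun s => chk (ent L5216 s)) 0 = true := by decide +kernel
theorem p5216 : PrL chk L5216 := leafL c5216

theorem c5217 : lp7 (fun s => chk (ent L5217 s)) 0 = true := by decide +kernel
theorem p5217 : PrL chk L5217 := leafL c5217

theorem c5218 : lp7 (fun s => chk (ent L5218 s)) 0 = true := by decide +kernel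
theorem p5218 : PrL chk L5218 := leafL c5218

theorem c5219 : lp7 (fun s => chk (ent L5219 s)) 0 = true := by decide +kernel
theorem p5219 : PrL chk L5219 := leafL c5219

theorem c5220 : lp7 (fun s => chk (ent L5220 s)) 0 = true := by decide +kernel
theorem p5220 : PrL chk L5220 := leafL c5220

theorem c5221 : lp7 (fun s => chk (ent L5221 s)) 0 = true := by decide +kernel
theorem p5221 : PrL chk L5221 := leafL c5221

theorem c5222 : lp7 (fun s => chk (ent L5222 s)) 0 = true := by decide +kernel
theorem p5222 : PrL chk L5222 := leafL c5222

theorem c5223 : lp7 (fun s => chk (ent L5223 s)) 0 = true := by decide +kernel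
theorem p5223 : PrL chk L5223 := leafL c5223

theorem c5224 : lp7 (fun s => chk (ent L5224 s)) 0 = true := by decide +kernel
theorem p5224 : PrL chk L5224 := leafL c5224

theorem c5225 : lp7 (fun s => chk (ent L5225 s)) 0 = true := by decide +kernel
theorem p5225 : PrL chk L5225 := leafL c5225

theorem c5226 : lp7 (fun s => chk (ent L5226 s)) 0 = true := by decide +kernel
theorem p5226 : PrL chk L5226 := leafL c5226

theorem c5227 : lp7 (fun s => chk (ent L5227 s)) 0 = true := by decide +kernel
theorem p5227 : PrL chk L5227 := leafL c5227

theorem c5228 : lp7 (fun s => chk (ent L5228 s)) 0 = true := by decide +kernel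
theorem p5228 : PrL chk L5228 := leafL c5228

theorem c5229 : lp7 (fun s => chk (ent L5229 s)) 0 = true := by decide +kernel
theorem p5229 : PrL chk L5229 := leafL c5229

theorem c5230 : lp7 (fun s => chk (ent L5230 s)) 0 = true := by decide +kernel
theorem p5230 : PrL chk L5230 := leafL c5230

theorem c5231 : lp7 (fun s => chk (ent L5231 s)) 0 = true := by decide +kernel
theorem p5231 : PrL chk L5231 := leafL c5231

theorem c5232 : lp7 (fun s => chk (ent L5232 s)) 0 = true := by decide +kernel
theorem p5232 : PrL chk L5232 := leafL c5232

theorem c5233 : lp7 (fun s => chk (ent L5233 s)) 0 = true := by decide +kernel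
theorem p5233 : PrL chk L5233 := leafL c5233

theorem c5234 : lp7 (fun s => chk (ent L5234 s)) 0 = true := by decide +kernel
theorem p5234 : PrL chk L5234 := leafL c5234

theorem c5235 : lp7 (fun s => chk (ent L5235 s)) 0 = true := by decide +kernel
theorem p5235 : PrL chk L5235 := leafL c5235

theorem c5236 : lp7 (fun s => chk (ent L5236 s)) 0 = true := by decide +kernel
theorem p5236 : PrL chk L5236 := leafL c5236

theorem c5237 : lp7 (fun s => chk (ent L5237 s)) 0 = true := by decide +kernel
theorem p5237 : PrL chk L5237 := leafL c5237

theorem c5238 : lp7 (fun s => chk (ent L5238 s)) 0 = true := by decide +kernel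
theorem p5238 : PrL chk L5238 := leafL c5238

theorem c5239 : lp7 (fun s => chk (ent L5239 s)) 0 = true := by decide +kernel
theorem p5239 : PrL chk L5239 := leafL c5239

theorem c5240 : lp7 (fun s => chk (ent L5240 s)) 0 = true := by decide +kernel
theorem p5240 : PrL chk L5240 := leafL c5240

theorem c5241 : lp7 (fun s => chk (ent L5241 s)) 0 = true := by decide +kernel
theorem p5241 : PrL chk L5241 := leafL c5241

theorem c5242 : lp7 (fun s => chk (ent L5242 s)) 0 = true := by decide +kernel
theorem p5242 : PrL chk L5242 := leafL c5242

theorem c5243 : lp7 (fun s => chk (ent L5243 s)) 0 = true := by decide +kernel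
theorem p5243 : PrL chk L5243 := leafL c5243

theorem c5244 : lp7 (fun s => chk (ent L5244 s)) 0 = true := by decide +kernel
theorem p5244 : PrL chk L5244 := leafL c5244

theorem c5245 : lp7 (fun s => chk (ent L5245 s)) 0 = true := by decide +kernel
theorem p5245 : PrL chk L5245 := leafL c5245

theorem c5246 : lp7 (fun s => chk (ent L5246 s)) 0 = true := by decide +kernel
theorem p5246 : PrL chk L5246 := leafL c5246

theorem c5247 : lp7 (fun s => chk (ent L5247 s)) 0 = true := by decide +kernel
theorem p5247 : PrL chk L5247 := leafL c5247

theorem c5248 : lp7 (fun s => chk (ent L5248 s)) 0 = true := by decide +kernel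
theorem p5248 : PrL chk L5248 := leafL c5248

theorem c5249 : lp7 (fun s => chk (ent L5249 s)) 0 = true := by decide +kernel
theorem p5249 : PrL chk L5249 := leafL c5249

theorem c5250 : lp7 (fun s => chk (ent L5250 s)) 0 = true := by decide +kernel
theorem p5250 : PrL chk L5250 := leafL c5250

theorem c5251 : lp7 (fun s => chk (ent L5251 s)) 0 = true := by decide +kernel
theorem p5251 : PrL chk L5251 := leafL c5251

theorem c5252 : lp7 (fun s => chk (ent L5252 s)) 0 = true := by decide +kernel
theorem p5252 : PrL chk L5252 := leafL c5252

theorem c5253 : lp7 (fun s => chk (ent L5253 s)) 0 = true := by decide +kernel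
theorem p5253 : PrL chk L5253 := leafL c5253

theorem c5254 : lp7 (fun s => chk (ent L5254 s)) 0 = true := by decide +kernel
theorem p5254 : PrL chk L5254 := leafL c5254

theorem c5255 : lp7 (fun s => chk (ent L5255 s)) 0 = true := by decide +kernel
theorem p5255 : PrL chk L5255 := leafL c5255

theorem c5256 : lp7 (fun s => chk (ent L5256 s)) 0 = true := by decide +kernel
theorem p5256 : PrL chk L5256 := leafL c5256

theorem c5257 : lp7 (fun s => chk (ent L5257 s)) 0 = true := by decide +kernel
theorem p5257 : PrL chk L5257 := leafL c5257

theorem c5258 : lp7 (fun s => chk (ent L5258 s)) 0 = true := by decide +kernel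
theorem p5258 : PrL chk L5258 := leafL c5258

theorem c5259 : lp7 (fun s => chk (ent L5259 s)) 0 = true := by decide +kernel
theorem p5259 : PrL chk L5259 := leafL c5259

theorem c5260 : lp7 (fun s => chk (ent L5260 s)) 0 = true := by decide +kernel
theorem p5260 : PrL chk L5260 := leafL c5260

theorem c5261 : lp7 (fun s => chk (ent L5261 s)) 0 = true := by decide +kernel
theorem p5261 : PrL chk L5261 := leafL c5261

theorem c5262 : lp7 (fun s => chk (ent L5262 s)) 0 = true := by decide +kernel
theorem p5262 : PrL chk L5262 := leafL c5262

theorem c5263 : lp7 (fun s => chk (ent L5263 s)) 0 = true := by decide +kernel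
theorem p5263 : PrL chk L5263 := leafL c5263

theorem c5264 : lp7 (fun s => chk (ent L5264 s)) 0 = true := by decide +kernel
theorem p5264 : PrL chk L5264 := leafL c5264

theorem c5265 : lp7 (fun s => chk (ent L5265 s)) 0 = true := by decide +kernel
theorem p5265 : PrL chk L5265 := leafL c5265

theorem c5266 : lp7 (fun s => chk (ent L5266 s)) 0 = true := by decide +kernel
theorem p5266 : PrL chk L5266 := leafL c5266

theorem c5267 : lp7 (fun s => chk (ent L5267 s)) 0 = true := by decide +kernel
theorem p5267 : PrL chk L5267 := leafL c5267

theorem c5268 : lp7 (fun s => chk (ent L5268 s)) 0 = true := by decide +kernel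
theorem p5268 : PrL chk L5268 := leafL c5268

theorem c5269 : lp7 (fun s => chk (ent L5269 s)) 0 = true := by decide +kernel
theorem p5269 : PrL chk L5269 := leafL c5269

theorem c5270 : lp7 (fun s => chk (ent L5270 s)) 0 = true := by decide +kernel
theorem p5270 : PrL chk L5270 := leafL c5270

theorem c5271 : lp7 (fun s => chk (ent L5271 s)) 0 = true := by decide +kernel
theorem p5271 : PrL chk L5271 := leafL c5271

theorem c5272 : lp7 (fun s => chk (ent L5272 s)) 0 = true := by decide +kernel
theorem p5272 : PrL chk L5272 := leafL c5272

theorem c5273 : lp7 (fun s => chk (ent L5273 s)) 0 = true := by decide +kernel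
theorem p5273 : PrL chk L5273 := leafL c5273

theorem c5274 : lp7 (fun s => chk (ent L5274 s)) 0 = true := by decide +kernel
theorem p5274 : PrL chk L5274 := leafL c5274

theorem c5275 : lp7 (fun s => chk (ent L5275 s)) 0 = true := by decide +kernel
theorem p5275 : PrL chk L5275 := leafL c5275

theorem c5276 : lp7 (fun s => chk (ent L5276 s)) 0 = true := by decide +kernel
theorem p5276 : PrL chk L5276 := leafL c5276

theorem c5277 : lp7 (fun s => chk (ent L5277 s)) 0 = true := by decide +kernel
theorem p5277 : PrL chk L5277 := leafL c5277

theorem c5278 : lp7 (fun s => chk (ent L5278 s)) 0 = true := by decide +kernel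
theorem p5278 : PrL chk L5278 := leafL c5278

theorem c5279 : lp7 (fun s => chk (ent L5279 s)) 0 = true := by decide +kernel
theorem p5279 : PrL chk L5279 := leafL c5279

theorem c5280 : lp7 (fun s => chk (ent L5280 s)) 0 = true := by decide +kernel
theorem p5280 : PrL chk L5280 := leafL c5280

theorem c5281 : lp7 (fun s => chk (ent L5281 s)) 0 = true := by decide +kernel
theorem p5281 : PrL chk L5281 := leafL c5281

theorem c5282 : lp7 (fun s => chk (ent L5282 s)) 0 = true := by decide +kernel
theorem p5282 : PrL chk L5282 := leafL c5282

theorem c5283 : lp7 (fun s => chk (ent L5283 s)) 0 = true := by decide +kernel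
theorem p5283 : PrL chk L5283 := leafL c5283

theorem c5284 : lp7 (fun s => chk (ent L5284 s)) 0 = true := by decide +kernel
theorem p5284 : PrL chk L5284 := leafL c5284

theorem c5285 : lp7 (fun s => chk (ent L5285 s)) 0 = true := by decide +kernel
theorem p5285 : PrL chk L5285 := leafL c5285

theorem c5286 : lp7 (fun s => chk (ent L5286 s)) 0 = true := by decide +kernel
theorem p5286 : PrL chk L5286 := leafL c5286

theorem c5287 : lp7 (fun s => chk (ent L5287 s)) 0 = true := by decide +kernel
theorem p5287 : PrL chk L5287 := leafL c5287

theorem c5288 : lp7 (fun s => chk (ent L5288 s)) 0 = true := by decide +kernel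
theorem p5288 : PrL chk L5288 := leafL c5288

theorem c5289 : lp7 (fun s => chk (ent L5289 s)) 0 = true := by decide +kernel
theorem p5289 : PrL chk L5289 := leafL c5289

theorem c5290 : lp7 (fun s => chk (ent L5290 s)) 0 = true := by decide +kernel
theorem p5290 : PrL chk L5290 := leafL c5290

theorem c5291 : lp7 (fun s => chk (ent L5291 s)) 0 = true := by decide +kernel
theorem p5291 : PrL chk L5291 := leafL c5291

theorem c5292 : lp7 (fun s => chk (ent L5292 s)) 0 = true := by decide +kernel
theorem p5292 : PrL chk L5292 := leafL c5292

theorem c5293 : lp7 (fun s => chk (ent L5293 s)) 0 = true := by decide +kernel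
theorem p5293 : PrL chk L5293 := leafL c5293

theorem c5294 : lp7 (fun s => chk (ent L5294 s)) 0 = true := by decide +kernel
theorem p5294 : PrL chk L5294 := leafL c5294

theorem c5295 : lp7 (fun s => chk (ent L5295 s)) 0 = true := by decide +kernel
theorem p5295 : PrL chk L5295 := leafL c5295

theorem c5296 : lp7 (fun s => chk (ent L5296 s)) 0 = true := by decide +kernel
theorem p5296 : PrL chk L5296 := leafL c5296

theorem c5297 : lp7 (fun s => chk (ent L5297 s)) 0 = true := by decide +kernel
theorem p5297 : PrL chk L5297 := leafL c5297

theorem c5298 : lp7 (fun s => chk (ent L5298 s)) 0 = true := by decide +kernel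
theorem p5298 : PrL chk L5298 := leafL c5298

theorem c5299 : lp7 (fun s => chk (ent L5299 s)) 0 = true := by decide +kernel
theorem p5299 : PrL chk L5299 := leafL c5299

theorem c5300 : lp7 (fun s => chk (ent L5300 s)) 0 = true := by decide +kernel
theorem p5300 : PrL chk L5300 := leafL c5300

theorem c5301 : lp7 (fun s => chk (ent L5301 s)) 0 = true := by decide +kernel
theorem p5301 : PrL chk L5301 := leafL c5301

theorem c5302 : lp7 (fun s => chk (ent L5302 s)) 0 = true := by decide +kernel
theorem p5302 : PrL chk L5302 := leafL c5302

theorem c5303 : lp7 (fun s => chk (ent L5303 s)) 0 = true := by decide +kernel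
theorem p5303 : PrL chk L5303 := leafL c5303

theorem c5304 : lp7 (fun s => chk (ent L5304 s)) 0 = true := by decide +kernel
theorem p5304 : PrL chk L5304 := leafL c5304

theorem c5305 : lp7 (fun s => chk (ent L5305 s)) 0 = true := by decide +kernel
theorem p5305 : PrL chk L5305 := leafL c5305

theorem c5306 : lp7 (fun s => chk (ent L5306 s)) 0 = true := by decide +kernel
theorem p5306 : PrL chk L5306 := leafL c5306

theorem c5307 : lp7 (fun s => chk (ent L5307 s)) 0 = true := by decide +kernel
theorem p5307 : PrL chk L5307 := leafL c5307

theorem c5308 : lp7 (fun s => chk (ent L5308 s)) 0 = true := by decide +kernel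
theorem p5308 : PrL chk L5308 := leafL c5308

theorem c5309 : lp7 (fun s => chk (ent L5309 s)) 0 = true := by decide +kernel
theorem p5309 : PrL chk L5309 := leafL c5309

theorem c5310 : lp7 (fun s => chk (ent L5310 s)) 0 = true := by decide +kernel
theorem p5310 : PrL chk L5310 := leafL c5310

theorem c5311 : lp7 (fun s => chk (ent L5311 s)) 0 = true := by decide +kernel
theorem p5311 : PrL chk L5311 := leafL c5311

theorem c5312 : lp7 (fun s => chk (ent L5312 s)) 0 = true := by decide +kernel
theorem p5312 : PrL chk L5312 := leafL c5312

theorem c5313 : lp7 (fun s => chk (ent L5313 s)) 0 = true := by decide +kernel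
theorem p5313 : PrL chk L5313 := leafL c5313

theorem c5314 : lp7 (fun s => chk (ent L5314 s)) 0 = true := by decide +kernel
theorem p5314 : PrL chk L5314 := leafL c5314

theorem c5315 : lp7 (fun s => chk (ent L5315 s)) 0 = true := by decide +kernel
theorem p5315 : PrL chk L5315 := leafL c5315

theorem c5316 : lp7 (fun s => chk (ent L5316 s)) 0 = true := by decide +kernel
theorem p5316 : PrL chk L5316 := leafL c5316

theorem c5317 : lp7 (fun s => chk (ent L5317 s)) 0 = true := by decide +kernel
theorem p5317 : PrL chk L5317 := leafL c5317

theorem c5318 : lp7 (fun s => chk (ent L5318 s)) 0 = true := by decide +kernel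
theorem p5318 : PrL chk L5318 := leafL c5318

theorem c5319 : lp7 (fun s => chk (ent L5319 s)) 0 = true := by decide +kernel
theorem p5319 : PrL chk L5319 := leafL c5319

theorem c5320 : lp7 (fun s => chk (ent L5320 s)) 0 = true := by decide +kernel
theorem p5320 : PrL chk L5320 := leafL c5320

theorem c5321 : lp7 (fun s => chk (ent L5321 s)) 0 = true := by decide +kernel
theorem p5321 : PrL chk L5321 := leafL c5321

theorem c5322 : lp7 (fun s => chk (ent L5322 s)) 0 = true := by decide +kernel
theorem p5322 : PrL chk L5322 := leafL c5322

theorem c5323 : lp7 (fun s => chk (ent L5323 s)) 0 = true := by decide +kernel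
theorem p5323 : PrL chk L5323 := leafL c5323

theorem c5324 : lp7 (fun s => chk (ent L5324 s)) 0 = true := by decide +kernel
theorem p5324 : PrL chk L5324 := leafL c5324

theorem c5325 : lp7 (fun s => chk (ent L5325 s)) 0 = true := by decide +kernel
theorem p5325 : PrL chk L5325 := leafL c5325

theorem c5326 : lp7 (fun s => chk (ent L5326 s)) 0 = true := by decide +kernel
theorem p5326 : PrL chk L5326 := leafL c5326

theorem c5327 : lp7 (fun s => chk (ent L5327 s)) 0 = true := by decide +kernel
theorem p5327 : PrL chk L5327 := leafL c5327

theorem c5328 : lp7 (fun s => chk (ent L5328 s)) 0 = true := by decide +kernel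
theorem p5328 : PrL chk L5328 := leafL c5328

theorem c5329 : lp7 (fun s => chk (ent L5329 s)) 0 = true := by decide +kernel
theorem p5329 : PrL chk L5329 := leafL c5329

theorem c5330 : lp7 (fun s => chk (ent L5330 s)) 0 = true := by decide +kernel
theorem p5330 : PrL chk L5330 := leafL c5330

theorem c5331 : lp7 (fun s => chk (ent L5331 s)) 0 = true := by decide +kernel
theorem p5331 : PrL chk L5331 := leafL c5331

theorem c5332 : lp7 (fun s => chk (ent L5332 s)) 0 = true := by decide +kernel
theorem p5332 : PrL chk L5332 := leafL c5332

theorem c5333 : lp7 (fun s => chk (ent L5333 s)) 0 = true := by decide +kernel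
theorem p5333 : PrL chk L5333 := leafL c5333

theorem c5334 : lp7 (fun s => chk (ent L5334 s)) 0 = true := by decide +kernel
theorem p5334 : PrL chk L5334 := leafL c5334

theorem c5335 : lp7 (fun s => chk (ent L5335 s)) 0 = true := by decide +kernel
theorem p5335 : PrL chk L5335 := leafL c5335

theorem c5336 : lp7 (fun s => chk (ent L5336 s)) 0 = true := by decide +kernel
theorem p5336 : PrL chk L5336 := leafL c5336

theorem c5337 : lp7 (fun s => chk (ent L5337 s)) 0 = true := by decide +kernel
theorem p5337 : PrL chk L5337 := leafL c5337

theorem c5338 : lp7 (fun s => chk (ent L5338 s)) 0 = true := by decide +kernel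
theorem p5338 : PrL chk L5338 := leafL c5338

theorem c5339 : lp7 (fun s => chk (ent L5339 s)) 0 = true := by decide +kernel
theorem p5339 : PrL chk L5339 := leafL c5339

theorem c5340 : lp7 (fun s => chk (ent L5340 s)) 0 = true := by decide +kernel
theorem p5340 : PrL chk L5340 := leafL c5340

theorem c5341 : lp7 (fun s => chk (ent L5341 s)) 0 = true := by decide +kernel
theorem p5341 : PrL chk L5341 := leafL c5341

theorem c5342 : lp7 (fun s => chk (ent L5342 s)) 0 = true := by decide +kernel
theorem p5342 : PrL chk L5342 := leafL c5342

theorem c5343 : lp7 (fun s => chk (ent L5343 s)) 0 = true := by decide +kernel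
theorem p5343 : PrL chk L5343 := leafL c5343

theorem c5344 : lp7 (fun s => chk (ent L5344 s)) 0 = true := by decide +kernel
theorem p5344 : PrL chk L5344 := leafL c5344

theorem c5345 : lp7 (fun s => chk (ent L5345 s)) 0 = true := by decide +kernel
theorem p5345 : PrL chk L5345 := leafL c5345

theorem c5346 : lp7 (fun s => chk (ent L5346 s)) 0 = true := by decide +kernel
theorem p5346 : PrL chk L5346 := leafL c5346

theorem c5347 : lp7 (fun s => chk (ent L5347 s)) 0 = true := by decide +kernel
theorem p5347 : PrL chk L5347 := leafL c5347

theorem c5348 : lp7 (fun s => chk (ent L5348 s)) 0 = true := by decide +kernel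
theorem p5348 : PrL chk L5348 := leafL c5348

theorem c5349 : lp7 (fun s => chk (ent L5349 s)) 0 = true := by decide +kernel
theorem p5349 : PrL chk L5349 := leafL c5349

theorem c5350 : lp7 (fun s => chk (ent L5350 s)) 0 = true := by decide +kernel
theorem p5350 : PrL chk L5350 := leafL c5350

theorem c5351 : lp7 (fun s => chk (ent L5351 s)) 0 = true := by decide +kernel
theorem p5351 : PrL chk L5351 := leafL c5351

theorem c5352 : lp7 (fun s => chk (ent L5352 s)) 0 = true := by decide +kernel
theorem p5352 : PrL chk L5352 := leafL c5352

theorem c5353 : lp7 (fun s => chk (ent L5353 s)) 0 = true := by decide +kernel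
theorem p5353 : PrL chk L5353 := leafL c5353

theorem c5354 : lp7 (fun s => chk (ent L5354 s)) 0 = true := by decide +kernel
theorem p5354 : PrL chk L5354 := leafL c5354

theorem c5355 : lp7 (fun s => chk (ent L5355 s)) 0 = true := by decide +kernel
theorem p5355 : PrL chk L5355 := leafL c5355

theorem c5356 : lp7 (fun s => chk (ent L5356 s)) 0 = true := by decide +kernel
theorem p5356 : PrL chk L5356 := leafL c5356

theorem c5357 : lp7 (fun s => chk (ent L5357 s)) 0 = true := by decide +kernel
theorem p5357 : PrL chk L5357 := leafL c5357

theorem c5358 : lp7 (fun s => chk (ent L5358 s)) 0 = true := by decide +kernel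
theorem p5358 : PrL chk L5358 := leafL c5358

theorem c5359 : lp7 (fun s => chk (ent L5359 s)) 0 = true := by decide +kernel
theorem p5359 : PrL chk L5359 := leafL c5359

theorem c5360 : lp7 (fun s => chk (ent L5360 s)) 0 = true := by decide +kernel
theorem p5360 : PrL chk L5360 := leafL c5360

theorem c5361 : lp7 (fun s => chk (ent L5361 s)) 0 = true := by decide +kernel
theorem p5361 : PrL chk L5361 := leafL c5361

theorem c5362 : lp7 (fun s => chk (ent L5362 s)) 0 = true := by decide +kernel
theorem p5362 : PrL chk L5362 := leafL c5362

theorem c5363 : lp7 (fun s => chk (ent L5363 s)) 0 = true := by decide +kernel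
theorem p5363 : PrL chk L5363 := leafL c5363

theorem c5364 : lp7 (fun s => chk (ent L5364 s)) 0 = true := by decide +kernel
theorem p5364 : PrL chk L5364 := leafL c5364

theorem c5365 : lp7 (fun s => chk (ent L5365 s)) 0 = true := by decide +kernel
theorem p5365 : PrL chk L5365 := leafL c5365

theorem c5366 : lp7 (fun s => chk (ent L5366 s)) 0 = true := by decide +kernel
theorem p5366 : PrL chk L5366 := leafL c5366

theorem c5367 : lp7 (fun s => chk (ent L5367 s)) 0 = true := by decide +kernel
theorem p5367 : PrL chk L5367 := leafL c5367

theorem c5368 : lp7 (fun s => chk (ent L5368 s)) 0 = true := by decide +kernel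
theorem p5368 : PrL chk L5368 := leafL c5368

theorem c5369 : lp7 (fun s => chk (ent L5369 s)) 0 = true := by decide +kernel
theorem p5369 : PrL chk L5369 := leafL c5369

theorem c5370 : lp7 (fun s => chk (ent L5370 s)) 0 = true := by decide +kernel
theorem p5370 : PrL chk L5370 := leafL c5370

theorem c5371 : lp7 (fun s => chk (ent L5371 s)) 0 = true := by decide +kernel
theorem p5371 : PrL chk L5371 := leafL c5371

theorem c5372 : lp7 (fun s => chk (ent L5372 s)) 0 = true := by decide +kernel
theorem p5372 : PrL chk L5372 := leafL c5372

theorem c5373 : lp7 (fun s => chk (ent L5373 s)) 0 = true := by decide +kernel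
theorem p5373 : PrL chk L5373 := leafL c5373

theorem c5374 : lp7 (fun s => chk (ent L5374 s)) 0 = true := by decide +kernel
theorem p5374 : PrL chk L5374 := leafL c5374

theorem c5375 : lp7 (fun s => chk (ent L5375 s)) 0 = true := by decide +kernel
theorem p5375 : PrL chk L5375 := leafL c5375

end Pool.Agent.ad013a.LA
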