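import Pool.Agent.H.MP_ad013a_pr.h63l.A.T
import Pool.Agent.H.MP_ad013a_pr.h63w.VLoop

namespace Pool.Agent.ad013a.LA

theorem c5376 : lp7 (fun s => chk (ent L5376 s)) 0 = true := by decide +kernel
theorem p5376 : PrL chk L5376 := leafL c5376

theorem c5377 : lp7 (fun s => chk (ent L5377 s)) 0 = true := by decide +kernel
theorem p5377 : PrL chk L5377 := leafL c5377

theorem c5378 : lp7 (fun s => chk (ent L5378 s)) 0 = true := by decide +kernel
theorem p5378 : PrL chk L5378 := leafL c5378

theorem c5379 : lp7 (fun s => chk (ent L5379 s)) 0 = true := by decide +kernel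
theorem p5379 : PrL chk L5379 := leafL c5379

theorem c5380 : lp7 (fun s => chk (ent L5380 s)) 0 = true := by decide +kernel
theorem p5380 : PrL chk L5380 := leafL c5380

theorem c5381 : lp7 (fun s => chk (ent L5381 s)) 0 = true := by decide +kernel
theorem p5381 : PrL chk L5381 := leafL c5381

theorem c5382 : lp7 (fun s => chk (ent L5382 s)) 0 = true := by decide +kernel
theorem p5382 : PrL chk L5382 := leafL c5382

theorem c5383 : lp7 (fun s => chk (ent L5383 s)) 0 = true := by decide +kernel
theorem p5383 : PrL chk L5383 := leafL c5383

theorem c5384 : lp7 (fun s => chk (ent L5384 s)) 0 = true := by decide +kernel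
theorem p5384 : PrL chk L5384 := leafL c5384

theorem c5385 : lp7 (fun s => chk (ent L5385 s)) 0 = true := by decide +kernel
theorem p5385 : PrL chk L5385 := leafL c5385

theorem c5386 : lp7 (fun s => chk (ent L5386 s)) 0 = true := by decide +kernel
theorem p5386 : PrL chk L5386 := leafL c5386

theorem c5387 : lp7 (fun s => chk (ent L5387 s)) 0 = true := by decide +kernel
theorem p5387 : PrL chk L5387 := leafL c5387

theorem c5388 : lp7 (fun s => chk (ent L5388 s)) 0 = true := by decide +kernel
theorem p5388 : PrL chk L5388 := leafL c5388

theorem c5389 : lp7 (fun s => chk (ent L5389 s)) 0 = true := by decide +kernel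
theorem p5389 : PrL chk L5389 := leafL c5389

theorem c5390 : lp7 (fun s => chk (ent L5390 s)) 0 = true := by decide +kernel
theorem p5390 : PrL chk L5390 := leafL c5390

theorem c5391 : lp7 (fun s => chk (ent L5391 s)) 0 = true := by decide +kernel
theorem p5391 : PrL chk L5391 := leafL c5391

theorem c5392 : lp7 (fun s => chk (ent L5392 s)) 0 = true := by decide +kernel
theorem p5392 : PrL chk L5392 := leafL c5392

theorem c5393 : lp7 (fun s => chk (ent L5393 s)) 0 = true := by decide +kernel
theorem p5393 : PrL chk L5393 := leafL c5393

theorem c5394 : lp7 (fun s => chk (ent L5394 s)) 0 = true := by decide +kernel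
theorem p5394 : PrL chk L5394 := leafL c5394

theorem c5395 : lp7 (fun s => chk (ent L5395 s)) 0 = true := by decide +kernel
theorem p5395 : PrL chk L5395 := leafL c5395

theorem c5396 : lp7 (fun s => chk (ent L5396 s)) 0 = true := by decide +kernel
theorem p5396 : PrL chk L5396 := leafL c5396

theorem c5397 : lp7 (fun s => chk (ent L5397 s)) 0 = true := by decide +kernel
theorem p5397 : PrL chk L5397 := leafL c5397

theorem c5398 : lp7 (fun s => chk (ent L5398 s)) 0 = true := by decide +kernel
theorem p5398 : PrL chk L5398 := leafL c5398

theorem c5399 : lp7 (fun s => chk (ent L5399 s)) 0 = true := by decide +kernel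
theorem p5399 : PrL chk L5399 := leafL c5399

theorem c5400 : lp7 (fun s => chk (ent L5400 s)) 0 = true := by decide +kernel
theorem p5400 : PrL chk L5400 := leafL c5400

theorem c5401 : lp7 (fun s => chk (ent L5401 s)) 0 = true := by decide +kernel
theorem p5401 : PrL chk L5401 := leafL c5401

theorem c5402 : lp7 (fun s => chk (ent L5402 s)) 0 = true := by decide +kernel
theorem p5402 : PrL chk L5402 := leafL c5402

theorem c5403 : lp7 (fun s => chk (ent L5403 s)) 0 = true := by decide +kernel
theorem p5403 : PrL chk L5403 := leafL c5403

theorem c5404 : lp7 (fun s => chk (ent L5404 s)) 0 = true := by decide +kernel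
theorem p5404 : PrL chk L5404 := leafL c5404

theorem c5405 : lp7 (fun s => chk (ent L5405 s)) 0 = true := by decide +kernel
theorem p5405 : PrL chk L5405 := leafL c5405

theorem c5406 : lp7 (fun s => chk (ent L5406 s)) 0 = true := by decide +kernel
theorem p5406 : PrL chk L5406 := leafL c5406

theorem c5407 : lp7 (fun s => chk (ent L5407 s)) 0 = true := by decide +kernel
theorem p5407 : PrL chk L5407 := leafL c5407

theorem c5408 : lp7 (fun s => chk (ent L5408 s)) 0 = true := by decide +kernel
theorem p5408 : PrL chk L5408 := leafL c5408

theorem c5409 : lp7 (fun s => chk (ent L5409 s)) 0 = true := by decide +kernel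
theorem p5409 : PrL chk L5409 := leafL c5409

theorem c5410 : lp7 (fun s => chk (ent L5410 s)) 0 = true := by decide +kernel
theorem p5410 : PrL chk L5410 := leafL c5410

theorem c5411 : lp7 (fun s => chk (ent L5411 s)) 0 = true := by decide +kernel
theorem p5411 : PrL chk L5411 := leafL c5411

theorem c5412 : lp7 (fun s => chk (ent L5412 s)) 0 = true := by decide +kernel
theorem p5412 : PrL chk L5412 := leafL c5412

theorem c5413 : lp7 (fun s => chk (ent L5413 s)) 0 = true := by decide +kernel
theorem p5413 : PrL chk L5413 := leafL c5413

theorem c5414 : lp7 (fun s => chk (ent L5414 s)) 0 = true := by decide +kernel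
theorem p5414 : PrL chk L5414 := leafL c5414

theorem c5415 : lp7 (fun s => chk (ent L5415 s)) 0 = true := by decide +kernel
theorem p5415 : PrL chk L5415 := leafL c5415

theorem c5416 : lp7 (fun s => chk (ent L5416 s)) 0 = true := by decide +kernel
theorem p5416 : PrL chk L5416 := leafL c5416

theorem c5417 : lp7 (fun s => chk (ent L5417 s)) 0 = true := by decide +kernel
theorem p5417 : PrL chk L5417 := leafL c5417

theorem c5418 : lp7 (fun s => chk (ent L5418 s)) 0 = true := by decide +kernel
theorem p5418 : PrL chk L5418 := leafL c5418

theorem c5419 : lp7 (fun s => chk (ent L5419 s)) 0 = true := by decide +kernel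
theorem p5419 : PrL chk L5419 := leafL c5419

theorem c5420 : lp7 (fun s => chk (ent L5420 s)) 0 = true := by decide +kernel
theorem p5420 : PrL chk L5420 := leafL c5420

theorem c5421 : lp7 (fun s => chk (ent L5421 s)) 0 = true := by decide +kernel
theorem p5421 : PrL chk L5421 := leafL c5421

theorem c5422 : lp7 (fun s => chk (ent L5422 s)) 0 = true := by decide +kernel
theorem p5422 : PrL chk L5422 := leafL c5422

theorem c5423 : lp7 (fun s => chk (ent L5423 s)) 0 = true := by decide +kernel
theorem p5423 : PrL chk L5423 := leafL c5423

theorem c5424 : lp7 (fun s => chk (ent L5424 s)) 0 = true := by decide +kernel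
theorem p5424 : PrL chk L5424 := leafL c5424

theorem c5425 : lp7 (fun s => chk (ent L5425 s)) 0 = true := by decide +kernel
theorem p5425 : PrL chk L5425 := leafL c5425

theorem c5426 : lp7 (fun s => chk (ent L5426 s)) 0 = true := by decide +kernel
theorem p5426 : PrL chk L5426 := leafL c5426

theorem c5427 : lp7 (fun s => chk (ent L5427 s)) 0 = true := by decide +kernel
theorem p5427 : PrL chk L5427 := leafL c5427

theorem c5428 : lp7 (fun s => chk (ent L5428 s)) 0 = true := by decide +kernel
theorem p5428 : PrL chk L5428 := leafL c5428

theorem c5429 : lp7 (fun s => chk (ent L5429 s)) 0 = true := by decide +kernel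
theorem p5429 : PrL chk L5429 := leafL c5429

theorem c5430 : lp7 (fun s => chk (ent L5430 s)) 0 = true := by decide +kernel
theorem p5430 : PrL chk L5430 := leafL c5430

theorem c5431 : lp7 (fun s => chk (ent L5431 s)) 0 = true := by decide +kernel
theorem p5431 : PrL chk L5431 := leafL c5431

theorem c5432 : lp7 (fun s => chk (ent L5432 s)) 0 = true := by decide +kernel
theorem p5432 : PrL chk L5432 := leafL c5432

theorem c5433 : lp7 (fun s => chk (ent L5433 s)) 0 = true := by decide +kernel
theorem p5433 : PrL chk L5433 := leafL c5433

theorem c5434 : lp7 (fun s => chk (ent L5434 s)) 0 = true := by decide +kernel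
theorem p5434 : PrL chk L5434 := leafL c5434

theorem c5435 : lp7 (fun s => chk (ent L5435 s)) 0 = true := by decide +kernel
theorem p5435 : PrL chk L5435 := leafL c5435

theorem c5436 : lp7 (fun s => chk (ent L5436 s)) 0 = true := by decide +kernel
theorem p5436 : PrL chk L5436 := leafL c5436

theorem c5437 : lp7 (fun s => chk (ent L5437 s)) 0 = true := by decide +kernel
theorem p5437 : PrL chk L5437 := leafL c5437

theorem c5438 : lp7 (fun s => chk (ent L5438 s)) 0 = true := by decide +kernel
theorem p5438 : PrL chk L5438 := leafL c5438

theorem c5439 : lp7 (fun s => chk (ent L5439 s)) 0 = true := by decide +kernel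
theorem p5439 : PrL chk L5439 := leafL c5439

theorem c5440 : lp7 (fun s => chk (ent L5440 s)) 0 = true := by decide +kernel
theorem p5440 : PrL chk L5440 := leafL c5440

theorem c5441 : lp7 (fun s => chk (ent L5441 s)) 0 = true := by decide +kernel
theorem p5441 : PrL chk L5441 := leafL c5441

theorem c5442 : lp7 (fun s => chk (ent L5442 s)) 0 = true := by decide +kernel
theorem p5442 : PrL chk L5442 := leafL c5442

theorem c5443 : lp7 (fun s => chk (ent L5443 s)) 0 = true := by decide +kernel
theorem p5443 : PrL chk L5443 := leafL c5443

theorem c5444 : lp7 (fun s => chk (ent L5444 s)) 0 = true := by decide +kernel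
theorem p5444 : PrL chk L5444 := leafL c5444

theorem c5445 : lp7 (fun s => chk (ent L5445 s)) 0 = true := by decide +kernel
theorem p5445 : PrL chk L5445 := leafL c5445

theorem c5446 : lp7 (fun s => chk (ent L5446 s)) 0 = true := by decide +kernel
theorem p5446 : PrL chk L5446 := leafL c5446

theorem c5447 : lp7 (fun s => chk (ent L5447 s)) 0 = true := by decide +kernel
theorem p5447 : PrL chk L5447 := leafL c5447

theorem c5448 : lp7 (fun s => chk (ent L5448 s)) 0 = true := by decide +kernel
theorem p5448 : PrL chk L5448 := leafL c5448

theorem c5449 : lp7 (fun s => chk (ent L5449 s)) 0 = true := by decide +kernel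
theorem p5449 : PrL chk L5449 := leafL c5449

theorem c5450 : lp7 (fun s => chk (ent L5450 s)) 0 = true := by decide +kernel
theorem p5450 : PrL chk L5450 := leafL c5450

theorem c5451 : lp7 (fun s => chk (ent L5451 s)) 0 = true := by decide +kernel
theorem p5451 : PrL chk L5451 := leafL c5451

theorem c5452 : lp7 (fun s => chk (ent L5452 s)) 0 = true := by decide +kernel
theorem p5452 : PrL chk L5452 := leafL c5452

theorem c5453 : lp7 (fun s => chk (ent L5453 s)) 0 = true := by decide +kernel
theorem p5453 : PrL chk L5453 := leafL c5453

theorem c5454 : lp7 (fun s => chk (ent L5454 s)) 0 = true := by decide +kernel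
theorem p5454 : PrL chk L5454 := leafL c5454

theorem c5455 : lp7 (fun s => chk (ent L5455 s)) 0 = true := by decide +kernel
theorem p5455 : PrL chk L5455 := leafL c5455

theorem c5456 : lp7 (fun s => chk (ent L5456 s)) 0 = true := by decide +kernel
theorem p5456 : PrL chk L5456 := leafL c5456

theorem c5457 : lp7 (fun s => chk (ent L5457 s)) 0 = true := by decide +kernel
theorem p5457 : PrL chk L5457 := leafL c5457

theorem c5458 : lp7 (fun s => chk (ent L5458 s)) 0 = true := by decide +kernel
theorem p5458 : PrL chk L5458 := leafL c5458

theorem c5459 : lp7 (fun s => chk (ent L5459 s)) 0 = true := by decide +kernel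
theorem p5459 : PrL chk L5459 := leafL c5459

theorem c5460 : lp7 (fun s => chk (ent L5460 s)) 0 = true := by decide +kernel
theorem p5460 : PrL chk L5460 := leafL c5460

theorem c5461 : lp7 (fun s => chk (ent L5461 s)) 0 = true := by decide +kernel
theorem p5461 : PrL chk L5461 := leafL c5461

theorem c5462 : lp7 (fun s => chk (ent L5462 s)) 0 = true := by decide +kernel
theorem p5462 : PrL chk L5462 := leafL c5462

theorem c5463 : lp7 (fun s => chk (ent L5463 s)) 0 = true := by decide +kernel
theorem p5463 : PrL chk L5463 := leafL c5463

theorem c5464 : lp7 (fun s => chk (ent L5464 s)) 0 = true := by decide +kernel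
theorem p5464 : PrL chk L5464 := leafL c5464

theorem c5465 : lp7 (fun s => chk (ent L5465 s)) 0 = true := by decide +kernel
theorem p5465 : PrL chk L5465 := leafL c5465

theorem c5466 : lp7 (fun s => chk (ent L5466 s)) 0 = true := by decide +kernel
theorem p5466 : PrL chk L5466 := leafL c5466

theorem c5467 : lp7 (fun s => chk (ent L5467 s)) 0 = true := by decide +kernel
theorem p5467 : PrL chk L5467 := leafL c5467

theorem c5468 : lp7 (fun s => chk (ent L5468 s)) 0 = true := by decide +kernel
theorem p5468 : PrL chk L5468 := leafL c5468

theorem c5469 : lp7 (fun s => chk (ent L5469 s)) 0 = true := by decide +kernel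
theorem p5469 : PrL chk L5469 := leafL c5469

theorem c5470 : lp7 (fun s => chk (ent L5470 s)) 0 = true := by decide +kernel
theorem p5470 : PrL chk L5470 := leafL c5470

theorem c5471 : lp7 (fun s => chk (ent L5471 s)) 0 = true := by decide +kernel
theorem p5471 : PrL chk L5471 := leafL c5471

theorem c5472 : lp7 (fun s => chk (ent L5472 s)) 0 = true := by decide +kernel
theorem p5472 : PrL chk L5472 := leafL c5472

theorem c5473 : lp7 (fun s => chk (ent L5473 s)) 0 = true := by decide +kernel
theorem p5473 : PrL chk L5473 := leafL c5473

theorem c5474 : lp7 (fun s => chk (ent L5474 s)) 0 = true := by decide +kernel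
theorem p5474 : PrL chk L5474 := leafL c5474

theorem c5475 : lp7 (fun s => chk (ent L5475 s)) 0 = true := by decide +kernel
theorem p5475 : PrL chk L5475 := leafL c5475

theorem c5476 : lp7 (fun s => chk (ent L5476 s)) 0 = true := by decide +kernel
theorem p5476 : PrL chk L5476 := leafL c5476

theorem c5477 : lp7 (fun s => chk (ent L5477 s)) 0 = true := by decide +kernel
theorem p5477 : PrL chk L5477 := leafL c5477

theorem c5478 : lp7 (fun s => chk (ent L5478 s)) 0 = true := by decide +kernel
theorem p5478 : PrL chk L5478 := leafL c5478

theorem c5479 : lp7 (fun s => chk (ent L5479 s)) 0 = true := by decide +kernel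
theorem p5479 : PrL chk L5479 := leafL c5479

theorem c5480 : lp7 (fun s => chk (ent L5480 s)) 0 = true := by decide +kernel
theorem p5480 : PrL chk L5480 := leafL c5480

theorem c5481 : lp7 (fun s => chk (ent L5481 s)) 0 = true := by decide +kernel
theorem p5481 : PrL chk L5481 := leafL c5481

theorem c5482 : lp7 (fun s => chk (ent L5482 s)) 0 = true := by decide +kernel
theorem p5482 : PrL chk L5482 := leafL c5482

theorem c5483 : lp7 (fun s => chk (ent L5483 s)) 0 = true := by decide +kernel
theorem p5483 : PrL chk L5483 := leafL c5483

theorem c5484 : lp7 (fun s => chk (ent L5484 s)) 0 = true := by decide +kernel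
theorem p5484 : PrL chk L5484 := leafL c5484

theorem c5485 : lp7 (fun s => chk (ent L5485 s)) 0 = true := by decide +kernel
theorem p5485 : PrL chk L5485 := leafL c5485

theorem c5486 : lp7 (fun s => chk (ent L5486 s)) 0 = true := by decide +kernel
theorem p5486 : PrL chk L5486 := leafL c5486

theorem c5487 : lp7 (fun s => chk (ent L5487 s)) 0 = true := by decide +kernel
theorem p5487 : PrL chk L5487 := leafL c5487

theorem c5488 : lp7 (fun s => chk (ent L5488 s)) 0 = true := by decide +kernel
theorem p5488 : PrL chk L5488 := leafL c5488

theorem c5489 : lp7 (fun s => chk (ent L5489 s)) 0 = true := by decide +kernel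
theorem p5489 : PrL chk L5489 := leafL c5489

theorem c5490 : lp7 (fun s => chk (ent L5490 s)) 0 = true := by decide +kernel
theorem p5490 : PrL chk L5490 := leafL c5490

theorem c5491 : lp7 (fun s => chk (ent L5491 s)) 0 = true := by decide +kernel
theorem p5491 : PrL chk L5491 := leafL c5491

theorem c5492 : lp7 (fun s => chk (ent L5492 s)) 0 = true := by decide +kernel
theorem p5492 : PrL chk L5492 := leafL c5492

theorem c5493 : lp7 (fun s => chk (ent L5493 s)) 0 = true := by decide +kernel
theorem p5493 : PrL chk L5493 := leafL c5493

theorem c5494 : lp7 (fun s => chk (ent L5494 s)) 0 = true := by decide +kernel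
theorem p5494 : PrL chk L5494 := leafL c5494

theorem c5495 : lp7 (fun s => chk (ent L5495 s)) 0 = true := by decide +kernel
theorem p5495 : PrL chk L5495 := leafL c5495

theorem c5496 : lp7 (fun s => chk (ent L5496 s)) 0 = true := by decide +kernel
theorem p5496 : PrL chk L5496 := leafL c5496

theorem c5497 : lp7 (fun s => chk (ent L5497 s)) 0 = true := by decide +kernel
theorem p5497 : PrL chk L5497 := leafL c5497

theorem c5498 : lp7 (fun s => chk (ent L5498 s)) 0 = true := by decide +kernel
theorem p5498 : PrL chk L5498 := leafL c5498

theorem c5499 : lp7 (fun s => chk (ent L5499 s)) 0 = true := by decide +kernel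
theorem p5499 : PrL chk L5499 := leafL c5499

theorem c5500 : lp7 (fun s => chk (ent L5500 s)) 0 = true := by decide +kernel
theorem p5500 : PrL chk L5500 := leafL c5500

theorem c5501 : lp7 (fun s => chk (ent L5501 s)) 0 = true := by decide +kernel
theorem p5501 : PrL chk L5501 := leafL c5501

theorem c5502 : lp7 (fun s => chk (ent L5502 s)) 0 = true := by decide +kernel
theorem p5502 : PrL chk L5502 := leafL c5502

theorem c5503 : lp7 (fun s => chk (ent L5503 s)) 0 = true := by decide +kernel
theorem p5503 : PrL chk L5503 := leafL c5503

theorem c5504 : lp7 (fun s => chk (ent L5504 s)) 0 = true := by decide +kernel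
theorem p5504 : PrL chk L5504 := leafL c5504

theorem c5505 : lp7 (fun s => chk (ent L5505 s)) 0 = true := by decide +kernel
theorem p5505 : PrL chk L5505 := leafL c5505

theorem c5506 : lp7 (fun s => chk (ent L5506 s)) 0 = true := by decide +kernel
theorem p5506 : PrL chk L5506 := leafL c5506

theorem c5507 : lp7 (fun s => chk (ent L5507 s)) 0 = true := by decide +kernel
theorem p5507 : PrL chk L5507 := leafL c5507

theorem c5508 : lp7 (fun s => chk (ent L5508 s)) 0 = true := by decide +kernel
theorem p5508 : PrL chk L5508 := leafL c5508

theorem c5509 : lp7 (fun s => chk (ent L5509 s)) 0 = true := by decide +kernel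
theorem p5509 : PrL chk L5509 := leafL c5509

theorem c5510 : lp7 (fun s => chk (ent L5510 s)) 0 = true := by decide +kernel
theorem p5510 : PrL chk L5510 := leafL c5510

theorem c5511 : lp7 (fun s => chk (ent L5511 s)) 0 = true := by decide +kernel
theorem p5511 : PrL chk L5511 := leafL c5511

theorem c5512 : lp7 (fun s => chk (ent L5512 s)) 0 = true := by decide +kernel
theorem p5512 : PrL chk L5512 := leafL c5512

theorem c5513 : lp7 (fun s => chk (ent L5513 s)) 0 = true := by decide +kernel
theorem p5513 : PrL chk L5513 := leafL c5513

theorem c5514 : lp7 (fun s => chk (ent L5514 s)) 0 = true := by decide +kernel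
theorem p5514 : PrL chk L5514 := leafL c5514

theorem c5515 : lp7 (fun s => chk (ent L5515 s)) 0 = true := by decide +kernel
theorem p5515 : PrL chk L5515 := leafL c5515

theorem c5516 : lp7 (fun s => chk (ent L5516 s)) 0 = true := by decide +kernel
theorem p5516 : PrL chk L5516 := leafL c5516

theorem c5517 : lp7 (fun s => chk (ent L5517 s)) 0 = true := by decide +kernel
theorem p5517 : PrL chk L5517 := leafL c5517

theorem c5518 : lp7 (fun s => chk (ent L5518 s)) 0 = true := by decide +kernel
theorem p5518 : PrL chk L5518 := leafL c5518

theorem c5519 : lp7 (fun s => chk (ent L5519 s)) 0 = true := by decide +kernel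
theorem p5519 : PrL chk L5519 := leafL c5519

theorem c5520 : lp7 (fun s => chk (ent L5520 s)) 0 = true := by decide +kernel
theorem p5520 : PrL chk L5520 := leafL c5520

theorem c5521 : lp7 (fun s => chk (ent L5521 s)) 0 = true := by decide +kernel
theorem p5521 : PrL chk L5521 := leafL c5521

theorem c5522 : lp7 (fun s => chk (ent L5522 s)) 0 = true := by decide +kernel
theorem p5522 : PrL chk L5522 := leafL c5522

theorem c5523 : lp7 (fun s => chk (ent L5523 s)) 0 = true := by decide +kernel
theorem p5523 : PrL chk L5523 := leafL c5523

theorem c5524 : lp7 (fun s => chk (ent L5524 s)) 0 = true := by decide +kernel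
theorem p5524 : PrL chk L5524 := leafL c5524

theorem c5525 : lp7 (fun s => chk (ent L5525 s)) 0 = true := by decide +kernel
theorem p5525 : PrL chk L5525 := leafL c5525

theorem c5526 : lp7 (fun s => chk (ent L5526 s)) 0 = true := by decide +kernel
theorem p5526 : PrL chk L5526 := leafL c5526

theorem c5527 : lp7 (fun s => chk (ent L5527 s)) 0 = true := by decide +kernel
theorem p5527 : PrL chk L5527 := leafL c5527

theorem c5528 : lp7 (fun s => chk (ent L5528 s)) 0 = true := by decide +kernel
theorem p5528 : PrL chk L5528 := leafL c5528

theorem c5529 : lp7 (fun s => chk (ent L5529 s)) 0 = true := by decide +kernel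
theorem p5529 : PrL chk L5529 := leafL c5529

theorem c5530 : lp7 (fun s => chk (ent L5530 s)) 0 = true := by decide +kernel
theorem p5530 : PrL chk L5530 := leafL c5530

theorem c5531 : lp7 (fun s => chk (ent L5531 s)) 0 = true := by decide +kernel
theorem p5531 : PrL chk L5531 := leafL c5531

theorem c5532 : lp7 (fun s => chk (ent L5532 s)) 0 = true := by decide +kernel
theorem p5532 : PrL chk L5532 := leafL c5532

theorem c5533 : lp7 (fun s => chk (ent L5533 s)) 0 = true := by decide +kernel
theorem p5533 : PrL chk L5533 := leafL c5533

theorem c5534 : lp7 (fun s => chk (ent L5534 s)) 0 = true := by decide +kernel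
theorem p5534 : PrL chk L5534 := leafL c5534

theorem c5535 : lp7 (fun s => chk (ent L5535 s)) 0 = true := by decide +kernel
theorem p5535 : PrL chk L5535 := leafL c5535

theorem c5536 : lp7 (fun s => chk (ent L5536 s)) 0 = true := by decide +kernel
theorem p5536 : PrL chk L5536 := leafL c5536

theorem c5537 : lp7 (fun s => chk (ent L5537 s)) 0 = true := by decide +kernel
theorem p5537 : PrL chk L5537 := leafL c5537

theorem c5538 : lp7 (fun s => chk (ent L5538 s)) 0 = true := by decide +kernel
theorem p5538 : PrL chk L5538 := leafL c5538

theorem c5539 : lp7 (fun s => chk (ent L5539 s)) 0 = true := by decide +kernel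
theorem p5539 : PrL chk L5539 := leafL c5539

theorem c5540 : lp7 (fun s => chk (ent L5540 s)) 0 = true := by decide +kernel
theorem p5540 : PrL chk L5540 := leafL c5540

theorem c5541 : lp7 (fun s => chk (ent L5541 s)) 0 = true := by decide +kernel
theorem p5541 : PrL chk L5541 := leafL c5541

theorem c5542 : lp7 (fun s => chk (ent L5542 s)) 0 = true := by decide +kernel
theorem p5542 : PrL chk L5542 := leafL c5542

theorem c5543 : lp7 (fun s => chk (ent L5543 s)) 0 = true := by decide +kernel
theorem p5543 : PrL chk L5543 := leafL c5543

theorem c5544 : lp7 (fun s => chk (ent L5544 s)) 0 = true := by decide +kernel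
theorem p5544 : PrL chk L5544 := leafL c5544

theorem c5545 : lp7 (fun s => chk (ent L5545 s)) 0 = true := by decide +kernel
theorem p5545 : PrL chk L5545 := leafL c5545

theorem c5546 : lp7 (fun s => chk (ent L5546 s)) 0 = true := by decide +kernel
theorem p5546 : PrL chk L5546 := leafL c5546

theorem c5547 : lp7 (fun s => chk (ent L5547 s)) 0 = true := by decide +kernel
theorem p5547 : PrL chk L5547 := leafL c5547

theorem c5548 : lp7 (fun s => chk (ent L5548 s)) 0 = true := by decide +kernel
theorem p5548 : PrL chk L5548 := leafL c5548

theorem c5549 : lp7 (fun s => chk (ent L5549 s)) 0 = true := by decide +kernel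
theorem p5549 : PrL chk L5549 := leafL c5549

theorem c5550 : lp7 (fun s => chk (ent L5550 s)) 0 = true := by decide +kernel
theorem p5550 : PrL chk L5550 := leafL c5550

theorem c5551 : lp7 (fun s => chk (ent L5551 s)) 0 = true := by decide +kernel
theorem p5551 : PrL chk L5551 := leafL c5551

theorem c5552 : lp7 (fun s => chk (ent L5552 s)) 0 = true := by decide +kernel
theorem p5552 : PrL chk L5552 := leafL c5552

theorem c5553 : lp7 (fun s => chk (ent L5553 s)) 0 = true := by decide +kernel
theorem p5553 : PrL chk L5553 := leafL c5553

theorem c5554 : lp7 (fun s => chk (ent L5554 s)) 0 = true := by decide +kernel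
theorem p5554 : PrL chk L5554 := leafL c5554

theorem c5555 : lp7 (fun s => chk (ent L5555 s)) 0 = true := by decide +kernel
theorem p5555 : PrL chk L5555 := leafL c5555

theorem c5556 : lp7 (fun s => chk (ent L5556 s)) 0 = true := by decide +kernel
theorem p5556 : PrL chk L5556 := leafL c5556

theorem c5557 : lp7 (fun s => chk (ent L5557 s)) 0 = true := by decide +kernel
theorem p5557 : PrL chk L5557 := leafL c5557

theorem c5558 : lp7 (fun s => chk (ent L5558 s)) 0 = true := by decide +kernel
theorem p5558 : PrL chk L5558 := leafL c5558

theorem c5559 : lp7 (fun s => chk (ent L5559 s)) 0 = true := by decide +kernel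
theorem p5559 : PrL chk L5559 := leafL c5559

theorem c5560 : lp7 (fun s => chk (ent L5560 s)) 0 = true := by decide +kernel
theorem p5560 : PrL chk L5560 := leafL c5560

theorem c5561 : lp7 (fun s => chk (ent L5561 s)) 0 = true := by decide +kernel
theorem p5561 : PrL chk L5561 := leafL c5561

theorem c5562 : lp7 (fun s => chk (ent L5562 s)) 0 = true := by decide +kernel
theorem p5562 : PrL chk L5562 := leafL c5562

theorem c5563 : lp7 (fun s => chk (ent L5563 s)) 0 = true := by decide +kernel
theorem p5563 : PrL chk L5563 := leafL c5563

theorem c5564 : lp7 (fun s => chk (ent L5564 s)) 0 = true := by decide +kernel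
theorem p5564 : PrL chk L5564 := leafL c5564

theorem c5565 : lp7 (fun s => chk (ent L5565 s)) 0 = true := by decide +kernel
theorem p5565 : PrL chk L5565 := leafL c5565

theorem c5566 : lp7 (fun s => chk (ent L5566 s)) 0 = true := by decide +kernel
theorem p5566 : PrL chk L5566 := leafL c5566

theorem c5567 : lp7 (fun s => chk (ent L5567 s)) 0 = true := by decide +kernel
theorem p5567 : PrL chk L5567 := leafL c5567

theorem c5568 : lp7 (fun s => chk (ent L5568 s)) 0 = true := by decide +kernel
theorem p5568 : PrL chk L5568 := leafL c5568

theorem c5569 : lp7 (fun s => chk (ent L5569 s)) 0 = true := by decide +kernel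
theorem p5569 : PrL chk L5569 := leafL c5569

theorem c5570 : lp7 (fun s => chk (ent L5570 s)) 0 = true := by decide +kernel
theorem p5570 : PrL chk L5570 := leafL c5570

theorem c5571 : lp7 (fun s => chk (ent L5571 s)) 0 = true := by decide +kernel
theorem p5571 : PrL chk L5571 := leafL c5571

theorem c5572 : lp7 (fun s => chk (ent L5572 s)) 0 = true := by decide +kernel
theorem p5572 : PrL chk L5572 := leafL c5572

theorem c5573 : lp7 (fun s => chk (ent L5573 s)) 0 = true := by decide +kernel
theorem p5573 : PrL chk L5573 := leafL c5573

theorem c5574 : lp7 (fun s => chk (ent L5574 s)) 0 = true := by decide +kernel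
theorem p5574 : PrL chk L5574 := leafL c5574

theorem c5575 : lp7 (fun s => chk (ent L5575 s)) 0 = true := by decide +kernel
theorem p5575 : PrL chk L5575 := leafL c5575

theorem c5576 : lp7 (fun s => chk (ent L5576 s)) 0 = true := by decide +kernel
theorem p5576 : PrL chk L5576 := leafL c5576

theorem c5577 : lp7 (fun s => chk (ent L5577 s)) 0 = true := by decide +kernel
theorem p5577 : PrL chk L5577 := leafL c5577

theorem c5578 : lp7 (fun s => chk (ent L5578 s)) 0 = true := by decide +kernel
theorem p5578 : PrL chk L5578 := leafL c5578

theorem c5579 : lp7 (fun s => chk (ent L5579 s)) 0 = true := by decide +kernel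
theorem p5579 : PrL chk L5579 := leafL c5579

theorem c5580 : lp7 (fun s => chk (ent L5580 s)) 0 = true := by decide +kernel
theorem p5580 : PrL chk L5580 := leafL c5580

theorem c5581 : lp7 (fun s => chk (ent L5581 s)) 0 = true := by decide +kernel
theorem p5581 : PrL chk L5581 := leafL c5581

theorem c5582 : lp7 (fun s => chk (ent L5582 s)) 0 = true := by decide +kernel
theorem p5582 : PrL chk L5582 := leafL c5582

theorem c5583 : lp7 (fun s => chk (ent L5583 s)) 0 = true := by decide +kernel
theorem p5583 : PrL chk L5583 := leafL c5583

theorem c5584 : lp7 (fun s => chk (ent L5584 s)) 0 = true := by decide +kernel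
theorem p5584 : PrL chk L5584 := leafL c5584

theorem c5585 : lp7 (fun s => chk (ent L5585 s)) 0 = true := by decide +kernel
theorem p5585 : PrL chk L5585 := leafL c5585

theorem c5586 : lp7 (fun s => chk (ent L5586 s)) 0 = true := by decide +kernel
theorem p5586 : PrL chk L5586 := leafL c5586

theorem c5587 : lp7 (fun s => chk (ent L5587 s)) 0 = true := by decide +kernel
theorem p5587 : PrL chk L5587 := leafL c5587

theorem c5588 : lp7 (fun s => chk (ent L5588 s)) 0 = true := by decide +kernel
theorem p5588 : PrL chk L5588 := leafL c5588

theorem c5589 : lp7 (fun s => chk (ent L5589 s)) 0 = true := by decide +kernel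
theorem p5589 : PrL chk L5589 := leafL c5589

theorem c5590 : lp7 (fun s => chk (ent L5590 s)) 0 = true := by decide +kernel
theorem p5590 : PrL chk L5590 := leafL c5590

theorem c5591 : lp7 (fun s => chk (ent L5591 s)) 0 = true := by decide +kernel
theorem p5591 : PrL chk L5591 := leafL c5591

theorem c5592 : lp7 (fun s => chk (ent L5592 s)) 0 = true := by decide +kernel
theorem p5592 : PrL chk L5592 := leafL c5592

theorem c5593 : lp7 (fun s => chk (ent L5593 s)) 0 = true := by decide +kernel
theorem p5593 : PrL chk L5593 := leafL c5593

theorem c5594 : lp7 (fun s => chk (ent L5594 s)) 0 = true := by decide +kernel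
theorem p5594 : PrL chk L5594 := leafL c5594

theorem c5595 : lp7 (fun s => chk (ent L5595 s)) 0 = true := by decide +kernel
theorem p5595 : PrL chk L5595 := leafL c5595

theorem c5596 : lp7 (fun s => chk (ent L5596 s)) 0 = true := by decide +kernel
theorem p5596 : PrL chk L5596 := leafL c5596

theorem c5597 : lp7 (fun s => chk (ent L5597 s)) 0 = true := by decide +kernel
theorem p5597 : PrL chk L5597 := leafL c5597

theorem c5598 : lp7 (fun s => chk (ent L5598 s)) 0 = true := by decide +kernel
theorem p5598 : PrL chk L5598 := leafL c5598

theorem c5599 : lp7 (fun s => chk (ent L5599 s)) 0 = true := by decide +kernel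
theorem p5599 : PrL chk L5599 := leafL c5599

theorem c5600 : lp7 (fun s => chk (ent L5600 s)) 0 = true := by decide +kernel
theorem p5600 : PrL chk L5600 := leafL c5600

theorem c5601 : lp7 (fun s => chk (ent L5601 s)) 0 = true := by decide +kernel
theorem p5601 : PrL chk L5601 := leafL c5601

theorem c5602 : lp7 (fun s => chk (ent L5602 s)) 0 = true := by decide +kernel
theorem p5602 : PrL chk L5602 := leafL c5602

theorem c5603 : lp7 (fun s => chk (ent L5603 s)) 0 = true := by decide +kernel
theorem p5603 : PrL chk L5603 := leafL c5603

theorem c5604 : lp7 (fun s => chk (ent L5604 s)) 0 = true := by decide +kernel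
theorem p5604 : PrL chk L5604 := leafL c5604

theorem c5605 : lp7 (fun s => chk (ent L5605 s)) 0 = true := by decide +kernel
theorem p5605 : PrL chk L5605 := leafL c5605

theorem c5606 : lp7 (fun s => chk (ent L5606 s)) 0 = true := by decide +kernel
theorem p5606 : PrL chk L5606 := leafL c5606

theorem c5607 : lp7 (fun s => chk (ent L5607 s)) 0 = true := by decide +kernel
theorem p5607 : PrL chk L5607 := leafL c5607

theorem c5608 : lp7 (fun s => chk (ent L5608 s)) 0 = true := by decide +kernel
theorem p5608 : PrL chk L5608 := leafL c5608

theorem c5609 : lp7 (fun s => chk (ent L5609 s)) 0 = true := by decide +kernel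
theorem p5609 : PrL chk L5609 := leafL c5609

theorem c5610 : lp7 (fun s => chk (ent L5610 s)) 0 = true := by decide +kernel
theorem p5610 : PrL chk L5610 := leafL c5610

theorem c5611 : lp7 (fun s => chk (ent L5611 s)) 0 = true := by decide +kernel
theorem p5611 : PrL chk L5611 := leafL c5611

theorem c5612 : lp7 (fun s => chk (ent L5612 s)) 0 = true := by decide +kernel
theorem p5612 : PrL chk L5612 := leafL c5612

theorem c5613 : lp7 (fun s => chk (ent L5613 s)) 0 = true := by decide +kernel
theorem p5613 : PrL chk L5613 := leafL c5613

theorem c5614 : lp7 (fun s => chk (ent L5614 s)) 0 = true := by decide +kernel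
theorem p5614 : PrL chk L5614 := leafL c5614

theorem c5615 : lp7 (fun s => chk (ent L5615 s)) 0 = true := by decide +kernel
theorem p5615 : PrL chk L5615 := leafL c5615

theorem c5616 : lp7 (fun s => chk (ent L5616 s)) 0 = true := by decide +kernel
theorem p5616 : PrL chk L5616 := leafL c5616

theorem c5617 : lp7 (fun s => chk (ent L5617 s)) 0 = true := by decide +kernel
theorem p5617 : PrL chk L5617 := leafL c5617

theorem c5618 : lp7 (fun s => chk (ent L5618 s)) 0 = true := by decide +kernel
theorem p5618 : PrL chk L5618 := leafL c5618

theorem c5619 : lp7 (fun s => chk (ent L5619 s)) 0 = true := by decide +kernel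
theorem p5619 : PrL chk L5619 := leafL c5619

theorem c5620 : lp7 (fun s => chk (ent L5620 s)) 0 = true := by decide +kernel
theorem p5620 : PrL chk L5620 := leafL c5620

theorem c5621 : lp7 (fun s => chk (ent L5621 s)) 0 = true := by decide +kernel
theorem p5621 : PrL chk L5621 := leafL c5621

theorem c5622 : lp7 (fun s => chk (ent L5622 s)) 0 = true := by decide +kernel
theorem p5622 : PrL chk L5622 := leafL c5622

theorem c5623 : lp7 (fun s => chk (ent L5623 s)) 0 = true := by decide +kernel
theorem p5623 : PrL chk L5623 := leafL c5623

theorem c5624 : lp7 (fun s => chk (ent L5624 s)) 0 = true := by decide +kernel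
theorem p5624 : PrL chk L5624 := leafL c5624

theorem c5625 : lp7 (fun s => chk (ent L5625 s)) 0 = true := by decide +kernel
theorem p5625 : PrL chk L5625 := leafL c5625

theorem c5626 : lp7 (fun s => chk (ent L5626 s)) 0 = true := by decide +kernel
theorem p5626 : PrL chk L5626 := leafL c5626

theorem c5627 : lp7 (fun s => chk (ent L5627 s)) 0 = true := by decide +kernel
theorem p5627 : PrL chk L5627 := leafL c5627

theorem c5628 : lp7 (fun s => chk (ent L5628 s)) 0 = true := by decide +kernel
theorem p5628 : PrL chk L5628 := leafL c5628

theorem c5629 : lp7 (fun s => chk (ent L5629 s)) 0 = true := by decide +kernel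
theorem p5629 : PrL chk L5629 := leafL c5629

theorem c5630 : lp7 (fun s => chk (ent L5630 s)) 0 = true := by decide +kernel
theorem p5630 : PrL chk L5630 := leafL c5630

theorem c5631 : lp7 (fun s => chk (ent L5631 s)) 0 = true := by decide +kernel
theorem p5631 : PrL chk L5631 := leafL c5631

end Pool.Agent.ad013a.LA
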