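import Pool.Agent.H.MP_ad013a_pr.h63l.A.T
import Pool.Agent.H.MP_ad013a_pr.h63w.VLoop

namespace Pool.Agent.ad013a.LA

theorem c5632 : lp7 (fun s => chk (ent L5632 s)) 0 = true := by decide +kernel
theorem p5632 : PrL chk L5632 := leafL c5632

theorem c5633 : lp7 (fun s => chk (ent L5633 s)) 0 = true := by decide +kernel
theorem p5633 : PrL chk L5633 := leafL c5633

theorem c5634 : lp7 (fun s => chk (ent L5634 s)) 0 = true := by decide +kernel
theorem p5634 : PrL chk L5634 := leafL c5634

theorem c5635 : lp7 (fun s => chk (ent L5635 s)) 0 = true := by decide +kernel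
theorem p5635 : PrL chk L5635 := leafL c5635

theorem c5636 : lp7 (fun s => chk (ent L5636 s)) 0 = true := by decide +kernel
theorem p5636 : PrL chk L5636 := leafL c5636

theorem c5637 : lp7 (fun s => chk (ent L5637 s)) 0 = true := by decide +kernel
theorem p5637 : PrL chk L5637 := leafL c5637

theorem c5638 : lp7 (fun s => chk (ent L5638 s)) 0 = true := by decide +kernel
theorem p5638 : PrL chk L5638 := leafL c5638

theorem c5639 : lp7 (fun s => chk (ent L5639 s)) 0 = true := by decide +kernel
theorem p5639 : PrL chk L5639 := leafL c5639

theorem c5640 : lp7 (fun s => chk (ent L5640 s)) 0 = true := by decide +kernel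
theorem p5640 : PrL chk L5640 := leafL c5640

theorem c5641 : lp7 (fun s => chk (ent L5641 s)) 0 = true := by decide +kernel
theorem p5641 : PrL chk L5641 := leafL c5641

theorem c5642 : lp7 (fun s => chk (ent L5642 s)) 0 = true := by decide +kernel
theorem p5642 : PrL chk L5642 := leafL c5642

theorem c5643 : lp7 (fun s => chk (ent L5643 s)) 0 = true := by decide +kernel
theorem p5643 : PrL chk L5643 := leafL c5643

theorem c5644 : lp7 (fun s => chk (ent L5644 s)) 0 = true := by decide +kernel
theorem p5644 : PrL chk L5644 := leafL c5644

theorem c5645 : lp7 (fun s => chk (ent L5645 s)) 0 = true := by decide +kernel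
theorem p5645 : PrL chk L5645 := leafL c5645

theorem c5646 : lp7 (fun s => chk (ent L5646 s)) 0 = true := by decide +kernel
theorem p5646 : PrL chk L5646 := leafL c5646

theorem c5647 : lp7 (fun s => chk (ent L5647 s)) 0 = true := by decide +kernel
theorem p5647 : PrL chk L5647 := leafL c5647

theorem c5648 : lp7 (fun s => chk (ent L5648 s)) 0 = true := by decide +kernel
theorem p5648 : PrL chk L5648 := leafL c5648

theorem c5649 : lp7 (fun s => chk (ent L5649 s)) 0 = true := by decide +kernel
theorem p5649 : PrL chk L5649 := leafL c5649

theorem c5650 : lp7 (fun s => chk (ent L5650 s)) 0 = true := by decide +kernel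
theorem p5650 : PrL chk L5650 := leafL c5650

theorem c5651 : lp7 (fun s => chk (ent L5651 s)) 0 = true := by decide +kernel
theorem p5651 : PrL chk L5651 := leafL c5651

theorem c5652 : lp7 (fun s => chk (ent L5652 s)) 0 = true := by decide +kernel
theorem p5652 : PrL chk L5652 := leafL c5652

theorem c5653 : lp7 (fun s => chk (ent L5653 s)) 0 = true := by decide +kernel
theorem p5653 : PrL chk L5653 := leafL c5653

theorem c5654 : lp7 (fun s => chk (ent L5654 s)) 0 = true := by decide +kernel
theorem p5654 : PrL chk L5654 := leafL c5654

theorem c5655 : lp7 (fun s => chk (ent L5655 s)) 0 = true := by decide +kernel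
theorem p5655 : PrL chk L5655 := leafL c5655

theorem c5656 : lp7 (fun s => chk (ent L5656 s)) 0 = true := by decide +kernel
theorem p5656 : PrL chk L5656 := leafL c5656

theorem c5657 : lp7 (fun s => chk (ent L5657 s)) 0 = true := by decide +kernel
theorem p5657 : PrL chk L5657 := leafL c5657

theorem c5658 : lp7 (fun s => chk (ent L5658 s)) 0 = true := by decide +kernel
theorem p5658 : PrL chk L5658 := leafL c5658

theorem c5659 : lp7 (fun s => chk (ent L5659 s)) 0 = true := by decide +kernel
theorem p5659 : PrL chk L5659 := leafL c5659

theorem c5660 : lp7 (fun s => chk (ent L5660 s)) 0 = true := by decide +kernel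
theorem p5660 : PrL chk L5660 := leafL c5660

theorem c5661 : lp7 (fun s => chk (ent L5661 s)) 0 = true := by decide +kernel
theorem p5661 : PrL chk L5661 := leafL c5661

theorem c5662 : lp7 (fun s => chk (ent L5662 s)) 0 = true := by decide +kernel
theorem p5662 : PrL chk L5662 := leafL c5662

theorem c5663 : lp7 (fun s => chk (ent L5663 s)) 0 = true := by decide +kernel
theorem p5663 : PrL chk L5663 := leafL c5663

theorem c5664 : lp7 (fun s => chk (ent L5664 s)) 0 = true := by decide +kernel
theorem p5664 : PrL chk L5664 := leafL c5664

theorem c5665 : lp7 (fun s => chk (ent L5665 s)) 0 = true := by decide +kernel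
theorem p5665 : PrL chk L5665 := leafL c5665

theorem c5666 : lp7 (fun s => chk (ent L5666 s)) 0 = true := by decide +kernel
theorem p5666 : PrL chk L5666 := leafL c5666

theorem c5667 : lp7 (fun s => chk (ent L5667 s)) 0 = true := by decide +kernel
theorem p5667 : PrL chk L5667 := leafL c5667

theorem c5668 : lp7 (fun s => chk (ent L5668 s)) 0 = true := by decide +kernel
theorem p5668 : PrL chk L5668 := leafL c5668

theorem c5669 : lp7 (fun s => chk (ent L5669 s)) 0 = true := by decide +kernel
theorem p5669 : PrL chk L5669 := leafL c5669

theorem c5670 : lp7 (fun s => chk (ent L5670 s)) 0 = true := by decide +kernel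
theorem p5670 : PrL chk L5670 := leafL c5670

theorem c5671 : lp7 (fun s => chk (ent L5671 s)) 0 = true := by decide +kernel
theorem p5671 : PrL chk L5671 := leafL c5671

theorem c5672 : lp7 (fun s => chk (ent L5672 s)) 0 = true := by decide +kernel
theorem p5672 : PrL chk L5672 := leafL c5672

theorem c5673 : lp7 (fun s => chk (ent L5673 s)) 0 = true := by decide +kernel
theorem p5673 : PrL chk L5673 := leafL c5673

theorem c5674 : lp7 (fun s => chk (ent L5674 s)) 0 = true := by decide +kernel
theorem p5674 : PrL chk L5674 := leafL c5674

theorem c5675 : lp7 (fun s => chk (ent L5675 s)) 0 = true := by decide +kernel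
theorem p5675 : PrL chk L5675 := leafL c5675

theorem c5676 : lp7 (fun s => chk (ent L5676 s)) 0 = true := by decide +kernel
theorem p5676 : PrL chk L5676 := leafL c5676

theorem c5677 : lp7 (fun s => chk (ent L5677 s)) 0 = true := by decide +kernel
theorem p5677 : PrL chk L5677 := leafL c5677

theorem c5678 : lp7 (fun s => chk (ent L5678 s)) 0 = true := by decide +kernel
theorem p5678 : PrL chk L5678 := leafL c5678

theorem c5679 : lp7 (fun s => chk (ent L5679 s)) 0 = true := by decide +kernel
theorem p5679 : PrL chk L5679 := leafL c5679

theorem c5680 : lp7 (fun s => chk (ent L5680 s)) 0 = true := by decide +kernel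
theorem p5680 : PrL chk L5680 := leafL c5680

theorem c5681 : lp7 (fun s => chk (ent L5681 s)) 0 = true := by decide +kernel
theorem p5681 : PrL chk L5681 := leafL c5681

theorem c5682 : lp7 (fun s => chk (ent L5682 s)) 0 = true := by decide +kernel
theorem p5682 : PrL chk L5682 := leafL c5682

theorem c5683 : lp7 (fun s => chk (ent L5683 s)) 0 = true := by decide +kernel
theorem p5683 : PrL chk L5683 := leafL c5683

theorem c5684 : lp7 (fun s => chk (ent L5684 s)) 0 = true := by decide +kernel
theorem p5684 : PrL chk L5684 := leafL c5684

theorem c5685 : lp7 (fun s => chk (ent L5685 s)) 0 = true := by decide +kernel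
theorem p5685 : PrL chk L5685 := leafL c5685

theorem c5686 : lp7 (fun s => chk (ent L5686 s)) 0 = true := by decide +kernel
theorem p5686 : PrL chk L5686 := leafL c5686

theorem c5687 : lp7 (fun s => chk (ent L5687 s)) 0 = true := by decide +kernel
theorem p5687 : PrL chk L5687 := leafL c5687

theorem c5688 : lp7 (fun s => chk (ent L5688 s)) 0 = true := by decide +kernel
theorem p5688 : PrL chk L5688 := leafL c5688

theorem c5689 : lp7 (fun s => chk (ent L5689 s)) 0 = true := by decide +kernel
theorem p5689 : PrL chk L5689 := leafL c5689

theorem c5690 : lp7 (fun s => chk (ent L5690 s)) 0 = true := by decide +kernel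
theorem p5690 : PrL chk L5690 := leafL c5690

theorem c5691 : lp7 (fun s => chk (ent L5691 s)) 0 = true := by decide +kernel
theorem p5691 : PrL chk L5691 := leafL c5691

theorem c5692 : lp7 (fun s => chk (ent L5692 s)) 0 = true := by decide +kernel
theorem p5692 : PrL chk L5692 := leafL c5692

theorem c5693 : lp7 (fun s => chk (ent L5693 s)) 0 = true := by decide +kernel
theorem p5693 : PrL chk L5693 := leafL c5693

theorem c5694 : lp7 (fun s => chk (ent L5694 s)) 0 = true := by decide +kernel
theorem p5694 : PrL chk L5694 := leafL c5694

theorem c5695 : lp7 (fun s => chk (ent L5695 s)) 0 = true := by decide +kernel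
theorem p5695 : PrL chk L5695 := leafL c5695

theorem c5696 : lp7 (fun s => chk (ent L5696 s)) 0 = true := by decide +kernel
theorem p5696 : PrL chk L5696 := leafL c5696

theorem c5697 : lp7 (fun s => chk (ent L5697 s)) 0 = true := by decide +kernel
theorem p5697 : PrL chk L5697 := leafL c5697

theorem c5698 : lp7 (fun s => chk (ent L5698 s)) 0 = true := by decide +kernel
theorem p5698 : PrL chk L5698 := leafL c5698

theorem c5699 : lp7 (fun s => chk (ent L5699 s)) 0 = true := by decide +kernel
theorem p5699 : PrL chk L5699 := leafL c5699

theorem c5700 : lp7 (fun s => chk (ent L5700 s)) 0 = true := by decide +kernel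
theorem p5700 : PrL chk L5700 := leafL c5700

theorem c5701 : lp7 (fun s => chk (ent L5701 s)) 0 = true := by decide +kernel
theorem p5701 : PrL chk L5701 := leafL c5701

theorem c5702 : lp7 (fun s => chk (ent L5702 s)) 0 = true := by decide +kernel
theorem p5702 : PrL chk L5702 := leafL c5702

theorem c5703 : lp7 (fun s => chk (ent L5703 s)) 0 = true := by decide +kernel
theorem p5703 : PrL chk L5703 := leafL c5703

theorem c5704 : lp7 (fun s => chk (ent L5704 s)) 0 = true := by decide +kernel
theorem p5704 : PrL chk L5704 := leafL c5704

theorem c5705 : lp7 (fun s => chk (ent L5705 s)) 0 = true := by decide +kernel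
theorem p5705 : PrL chk L5705 := leafL c5705

theorem c5706 : lp7 (fun s => chk (ent L5706 s)) 0 = true := by decide +kernel
theorem p5706 : PrL chk L5706 := leafL c5706

theorem c5707 : lp7 (fun s => chk (ent L5707 s)) 0 = true := by decide +kernel
theorem p5707 : PrL chk L5707 := leafL c5707

theorem c5708 : lp7 (fun s => chk (ent L5708 s)) 0 = true := by decide +kernel
theorem p5708 : PrL chk L5708 := leafL c5708

theorem c5709 : lp7 (fun s => chk (ent L5709 s)) 0 = true := by decide +kernel
theorem p5709 : PrL chk L5709 := leafL c5709

theorem c5710 : lp7 (fun s => chk (ent L5710 s)) 0 = true := by decide +kernel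
theorem p5710 : PrL chk L5710 := leafL c5710

theorem c5711 : lp7 (fun s => chk (ent L5711 s)) 0 = true := by decide +kernel
theorem p5711 : PrL chk L5711 := leafL c5711

theorem c5712 : lp7 (fun s => chk (ent L5712 s)) 0 = true := by decide +kernel
theorem p5712 : PrL chk L5712 := leafL c5712

theorem c5713 : lp7 (fun s => chk (ent L5713 s)) 0 = true := by decide +kernel
theorem p5713 : PrL chk L5713 := leafL c5713

theorem c5714 : lp7 (fun s => chk (ent L5714 s)) 0 = true := by decide +kernel
theorem p5714 : PrL chk L5714 := leafL c5714

theorem c5715 : lp7 (fun s => chk (ent L5715 s)) 0 = true := by decide +kernel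
theorem p5715 : PrL chk L5715 := leafL c5715

theorem c5716 : lp7 (fun s => chk (ent L5716 s)) 0 = true := by decide +kernel
theorem p5716 : PrL chk L5716 := leafL c5716

theorem c5717 : lp7 (fun s => chk (ent L5717 s)) 0 = true := by decide +kernel
theorem p5717 : PrL chk L5717 := leafL c5717

theorem c5718 : lp7 (fun s => chk (ent L5718 s)) 0 = true := by decide +kernel
theorem p5718 : PrL chk L5718 := leafL c5718

theorem c5719 : lp7 (fun s => chk (ent L5719 s)) 0 = true := by decide +kernel
theorem p5719 : PrL chk L5719 := leafL c5719

theorem c5720 : lp7 (fun s => chk (ent L5720 s)) 0 = true := by decide +kernel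
theorem p5720 : PrL chk L5720 := leafL c5720

theorem c5721 : lp7 (fun s => chk (ent L5721 s)) 0 = true := by decide +kernel
theorem p5721 : PrL chk L5721 := leafL c5721

theorem c5722 : lp7 (fun s => chk (ent L5722 s)) 0 = true := by decide +kernel
theorem p5722 : PrL chk L5722 := leafL c5722

theorem c5723 : lp7 (fun s => chk (ent L5723 s)) 0 = true := by decide +kernel
theorem p5723 : PrL chk L5723 := leafL c5723

theorem c5724 : lp7 (fun s => chk (ent L5724 s)) 0 = true := by decide +kernel
theorem p5724 : PrL chk L5724 := leafL c5724

theorem c5725 : lp7 (fun s => chk (ent L5725 s)) 0 = true := by decide +kernel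
theorem p5725 : PrL chk L5725 := leafL c5725

theorem c5726 : lp7 (fun s => chk (ent L5726 s)) 0 = true := by decide +kernel
theorem p5726 : PrL chk L5726 := leafL c5726

theorem c5727 : lp7 (fun s => chk (ent L5727 s)) 0 = true := by decide +kernel
theorem p5727 : PrL chk L5727 := leafL c5727

theorem c5728 : lp7 (fun s => chk (ent L5728 s)) 0 = true := by decide +kernel
theorem p5728 : PrL chk L5728 := leafL c5728

theorem c5729 : lp7 (fun s => chk (ent L5729 s)) 0 = true := by decide +kernel
theorem p5729 : PrL chk L5729 := leafL c5729

theorem c5730 : lp7 (fun s => chk (ent L5730 s)) 0 = true := by decide +kernel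
theorem p5730 : PrL chk L5730 := leafL c5730

theorem c5731 : lp7 (fun s => chk (ent L5731 s)) 0 = true := by decide +kernel
theorem p5731 : PrL chk L5731 := leafL c5731

theorem c5732 : lp7 (fun s => chk (ent L5732 s)) 0 = true := by decide +kernel
theorem p5732 : PrL chk L5732 := leafL c5732

theorem c5733 : lp7 (fun s => chk (ent L5733 s)) 0 = true := by decide +kernel
theorem p5733 : PrL chk L5733 := leafL c5733

theorem c5734 : lp7 (fun s => chk (ent L5734 s)) 0 = true := by decide +kernel
theorem p5734 : PrL chk L5734 := leafL c5734

theorem c5735 : lp7 (fun s => chk (ent L5735 s)) 0 = true := by decide +kernel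
theorem p5735 : PrL chk L5735 := leafL c5735

theorem c5736 : lp7 (fun s => chk (ent L5736 s)) 0 = true := by decide +kernel
theorem p5736 : PrL chk L5736 := leafL c5736

theorem c5737 : lp7 (fun s => chk (ent L5737 s)) 0 = true := by decide +kernel
theorem p5737 : PrL chk L5737 := leafL c5737

theorem c5738 : lp7 (fun s => chk (ent L5738 s)) 0 = true := by decide +kernel
theorem p5738 : PrL chk L5738 := leafL c5738

theorem c5739 : lp7 (fun s => chk (ent L5739 s)) 0 = true := by decide +kernel
theorem p5739 : PrL chk L5739 := leafL c5739

theorem c5740 : lp7 (fun s => chk (ent L5740 s)) 0 = true := by decide +kernel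
theorem p5740 : PrL chk L5740 := leafL c5740

theorem c5741 : lp7 (fun s => chk (ent L5741 s)) 0 = true := by decide +kernel
theorem p5741 : PrL chk L5741 := leafL c5741

theorem c5742 : lp7 (fun s => chk (ent L5742 s)) 0 = true := by decide +kernel
theorem p5742 : PrL chk L5742 := leafL c5742

theorem c5743 : lp7 (fun s => chk (ent L5743 s)) 0 = true := by decide +kernel
theorem p5743 : PrL chk L5743 := leafL c5743

theorem c5744 : lp7 (fun s => chk (ent L5744 s)) 0 = true := by decide +kernel
theorem p5744 : PrL chk L5744 := leafL c5744

theorem c5745 : lp7 (fun s => chk (ent L5745 s)) 0 = true := by decide +kernel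
theorem p5745 : PrL chk L5745 := leafL c5745

theorem c5746 : lp7 (fun s => chk (ent L5746 s)) 0 = true := by decide +kernel
theorem p5746 : PrL chk L5746 := leafL c5746

theorem c5747 : lp7 (fun s => chk (ent L5747 s)) 0 = true := by decide +kernel
theorem p5747 : PrL chk L5747 := leafL c5747

theorem c5748 : lp7 (fun s => chk (ent L5748 s)) 0 = true := by decide +kernel
theorem p5748 : PrL chk L5748 := leafL c5748

theorem c5749 : lp7 (fun s => chk (ent L5749 s)) 0 = true := by decide +kernel
theorem p5749 : PrL chk L5749 := leafL c5749

theorem c5750 : lp7 (fun s => chk (ent L5750 s)) 0 = true := by decide +kernel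
theorem p5750 : PrL chk L5750 := leafL c5750

theorem c5751 : lp7 (fun s => chk (ent L5751 s)) 0 = true := by decide +kernel
theorem p5751 : PrL chk L5751 := leafL c5751

theorem c5752 : lp7 (fun s => chk (ent L5752 s)) 0 = true := by decide +kernel
theorem p5752 : PrL chk L5752 := leafL c5752

theorem c5753 : lp7 (fun s => chk (ent L5753 s)) 0 = true := by decide +kernel
theorem p5753 : PrL chk L5753 := leafL c5753

theorem c5754 : lp7 (fun s => chk (ent L5754 s)) 0 = true := by decide +kernel
theorem p5754 : PrL chk L5754 := leafL c5754

theorem c5755 : lp7 (fun s => chk (ent L5755 s)) 0 = true := by decide +kernel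
theorem p5755 : PrL chk L5755 := leafL c5755

theorem c5756 : lp7 (fun s => chk (ent L5756 s)) 0 = true := by decide +kernel
theorem p5756 : PrL chk L5756 := leafL c5756

theorem c5757 : lp7 (fun s => chk (ent L5757 s)) 0 = true := by decide +kernel
theorem p5757 : PrL chk L5757 := leafL c5757

theorem c5758 : lp7 (fun s => chk (ent L5758 s)) 0 = true := by decide +kernel
theorem p5758 : PrL chk L5758 := leafL c5758

theorem c5759 : lp7 (fun s => chk (ent L5759 s)) 0 = true := by decide +kernel
theorem p5759 : PrL chk L5759 := leafL c5759

theorem c5760 : lp7 (fun s => chk (ent L5760 s)) 0 = true := by decide +kernel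
theorem p5760 : PrL chk L5760 := leafL c5760

theorem c5761 : lp7 (fun s => chk (ent L5761 s)) 0 = true := by decide +kernel
theorem p5761 : PrL chk L5761 := leafL c5761

theorem c5762 : lp7 (fun s => chk (ent L5762 s)) 0 = true := by decide +kernel
theorem p5762 : PrL chk L5762 := leafL c5762

theorem c5763 : lp7 (fun s => chk (ent L5763 s)) 0 = true := by decide +kernel
theorem p5763 : PrL chk L5763 := leafL c5763

theorem c5764 : lp7 (fun s => chk (ent L5764 s)) 0 = true := by decide +kernel
theorem p5764 : PrL chk L5764 := leafL c5764

theorem c5765 : lp7 (fun s => chk (ent L5765 s)) 0 = true := by decide +kernel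
theorem p5765 : PrL chk L5765 := leafL c5765

theorem c5766 : lp7 (fun s => chk (ent L5766 s)) 0 = true := by decide +kernel
theorem p5766 : PrL chk L5766 := leafL c5766

theorem c5767 : lp7 (fun s => chk (ent L5767 s)) 0 = true := by decide +kernel
theorem p5767 : PrL chk L5767 := leafL c5767

theorem c5768 : lp7 (fun s => chk (ent L5768 s)) 0 = true := by decide +kernel
theorem p5768 : PrL chk L5768 := leafL c5768

theorem c5769 : lp7 (fun s => chk (ent L5769 s)) 0 = true := by decide +kernel
theorem p5769 : PrL chk L5769 := leafL c5769

theorem c5770 : lp7 (fun s => chk (ent L5770 s)) 0 = true := by decide +kernel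
theorem p5770 : PrL chk L5770 := leafL c5770

theorem c5771 : lp7 (fun s => chk (ent L5771 s)) 0 = true := by decide +kernel
theorem p5771 : PrL chk L5771 := leafL c5771

theorem c5772 : lp7 (fun s => chk (ent L5772 s)) 0 = true := by decide +kernel
theorem p5772 : PrL chk L5772 := leafL c5772

theorem c5773 : lp7 (fun s => chk (ent L5773 s)) 0 = true := by decide +kernel
theorem p5773 : PrL chk L5773 := leafL c5773

theorem c5774 : lp7 (fun s => chk (ent L5774 s)) 0 = true := by decide +kernel
theorem p5774 : PrL chk L5774 := leafL c5774

theorem c5775 : lp7 (fun s => chk (ent L5775 s)) 0 = true := by decide +kernel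
theorem p5775 : PrL chk L5775 := leafL c5775

theorem c5776 : lp7 (fun s => chk (ent L5776 s)) 0 = true := by decide +kernel
theorem p5776 : PrL chk L5776 := leafL c5776

theorem c5777 : lp7 (fun s => chk (ent L5777 s)) 0 = true := by decide +kernel
theorem p5777 : PrL chk L5777 := leafL c5777

theorem c5778 : lp7 (fun s => chk (ent L5778 s)) 0 = true := by decide +kernel
theorem p5778 : PrL chk L5778 := leafL c5778

theorem c5779 : lp7 (fun s => chk (ent L5779 s)) 0 = true := by decide +kernel
theorem p5779 : PrL chk L5779 := leafL c5779

theorem c5780 : lp7 (fun s => chk (ent L5780 s)) 0 = true := by decide +kernel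
theorem p5780 : PrL chk L5780 := leafL c5780

theorem c5781 : lp7 (fun s => chk (ent L5781 s)) 0 = true := by decide +kernel
theorem p5781 : PrL chk L5781 := leafL c5781

theorem c5782 : lp7 (fun s => chk (ent L5782 s)) 0 = true := by decide +kernel
theorem p5782 : PrL chk L5782 := leafL c5782

theorem c5783 : lp7 (fun s => chk (ent L5783 s)) 0 = true := by decide +kernel
theorem p5783 : PrL chk L5783 := leafL c5783

theorem c5784 : lp7 (fun s => chk (ent L5784 s)) 0 = true := by decide +kernel
theorem p5784 : PrL chk L5784 := leafL c5784

theorem c5785 : lp7 (fun s => chk (ent L5785 s)) 0 = true := by decide +kernel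
theorem p5785 : PrL chk L5785 := leafL c5785

theorem c5786 : lp7 (fun s => chk (ent L5786 s)) 0 = true := by decide +kernel
theorem p5786 : PrL chk L5786 := leafL c5786

theorem c5787 : lp7 (fun s => chk (ent L5787 s)) 0 = true := by decide +kernel
theorem p5787 : PrL chk L5787 := leafL c5787

theorem c5788 : lp7 (fun s => chk (ent L5788 s)) 0 = true := by decide +kernel
theorem p5788 : PrL chk L5788 := leafL c5788

theorem c5789 : lp7 (fun s => chk (ent L5789 s)) 0 = true := by decide +kernel
theorem p5789 : PrL chk L5789 := leafL c5789

theorem c5790 : lp7 (fun s => chk (ent L5790 s)) 0 = true := by decide +kernel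
theorem p5790 : PrL chk L5790 := leafL c5790

theorem c5791 : lp7 (fun s => chk (ent L5791 s)) 0 = true := by decide +kernel
theorem p5791 : PrL chk L5791 := leafL c5791

theorem c5792 : lp7 (fun s => chk (ent L5792 s)) 0 = true := by decide +kernel
theorem p5792 : PrL chk L5792 := leafL c5792

theorem c5793 : lp7 (fun s => chk (ent L5793 s)) 0 = true := by decide +kernel
theorem p5793 : PrL chk L5793 := leafL c5793

theorem c5794 : lp7 (fun s => chk (ent L5794 s)) 0 = true := by decide +kernel
theorem p5794 : PrL chk L5794 := leafL c5794

theorem c5795 : lp7 (fun s => chk (ent L5795 s)) 0 = true := by decide +kernel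
theorem p5795 : PrL chk L5795 := leafL c5795

theorem c5796 : lp7 (fun s => chk (ent L5796 s)) 0 = true := by decide +kernel
theorem p5796 : PrL chk L5796 := leafL c5796

theorem c5797 : lp7 (fun s => chk (ent L5797 s)) 0 = true := by decide +kernel
theorem p5797 : PrL chk L5797 := leafL c5797

theorem c5798 : lp7 (fun s => chk (ent L5798 s)) 0 = true := by decide +kernel
theorem p5798 : PrL chk L5798 := leafL c5798

theorem c5799 : lp7 (fun s => chk (ent L5799 s)) 0 = true := by decide +kernel
theorem p5799 : PrL chk L5799 := leafL c5799

theorem c5800 : lp7 (fun s => chk (ent L5800 s)) 0 = true := by decide +kernel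
theorem p5800 : PrL chk L5800 := leafL c5800

theorem c5801 : lp7 (fun s => chk (ent L5801 s)) 0 = true := by decide +kernel
theorem p5801 : PrL chk L5801 := leafL c5801

theorem c5802 : lp7 (fun s => chk (ent L5802 s)) 0 = true := by decide +kernel
theorem p5802 : PrL chk L5802 := leafL c5802

theorem c5803 : lp7 (fun s => chk (ent L5803 s)) 0 = true := by decide +kernel
theorem p5803 : PrL chk L5803 := leafL c5803

theorem c5804 : lp7 (fun s => chk (ent L5804 s)) 0 = true := by decide +kernel
theorem p5804 : PrL chk L5804 := leafL c5804

theorem c5805 : lp7 (fun s => chk (ent L5805 s)) 0 = true := by decide +kernel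
theorem p5805 : PrL chk L5805 := leafL c5805

theorem c5806 : lp7 (fun s => chk (ent L5806 s)) 0 = true := by decide +kernel
theorem p5806 : PrL chk L5806 := leafL c5806

theorem c5807 : lp7 (fun s => chk (ent L5807 s)) 0 = true := by decide +kernel
theorem p5807 : PrL chk L5807 := leafL c5807

theorem c5808 : lp7 (fun s => chk (ent L5808 s)) 0 = true := by decide +kernel
theorem p5808 : PrL chk L5808 := leafL c5808

theorem c5809 : lp7 (fun s => chk (ent L5809 s)) 0 = true := by decide +kernel
theorem p5809 : PrL chk L5809 := leafL c5809

theorem c5810 : lp7 (fun s => chk (ent L5810 s)) 0 = true := by decide +kernel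
theorem p5810 : PrL chk L5810 := leafL c5810

theorem c5811 : lp7 (fun s => chk (ent L5811 s)) 0 = true := by decide +kernel
theorem p5811 : PrL chk L5811 := leafL c5811

theorem c5812 : lp7 (fun s => chk (ent L5812 s)) 0 = true := by decide +kernel
theorem p5812 : PrL chk L5812 := leafL c5812

theorem c5813 : lp7 (fun s => chk (ent L5813 s)) 0 = true := by decide +kernel
theorem p5813 : PrL chk L5813 := leafL c5813

theorem c5814 : lp7 (fun s => chk (ent L5814 s)) 0 = true := by decide +kernel
theorem p5814 : PrL chk L5814 := leafL c5814

theorem c5815 : lp7 (fun s => chk (ent L5815 s)) 0 = true := by decide +kernel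
theorem p5815 : PrL chk L5815 := leafL c5815

theorem c5816 : lp7 (fun s => chk (ent L5816 s)) 0 = true := by decide +kernel
theorem p5816 : PrL chk L5816 := leafL c5816

theorem c5817 : lp7 (fun s => chk (ent L5817 s)) 0 = true := by decide +kernel
theorem p5817 : PrL chk L5817 := leafL c5817

theorem c5818 : lp7 (fun s => chk (ent L5818 s)) 0 = true := by decide +kernel
theorem p5818 : PrL chk L5818 := leafL c5818

theorem c5819 : lp7 (fun s => chk (ent L5819 s)) 0 = true := by decide +kernel
theorem p5819 : PrL chk L5819 := leafL c5819

theorem c5820 : lp7 (fun s => chk (ent L5820 s)) 0 = true := by decide +kernel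
theorem p5820 : PrL chk L5820 := leafL c5820

theorem c5821 : lp7 (fun s => chk (ent L5821 s)) 0 = true := by decide +kernel
theorem p5821 : PrL chk L5821 := leafL c5821

theorem c5822 : lp7 (fun s => chk (ent L5822 s)) 0 = true := by decide +kernel
theorem p5822 : PrL chk L5822 := leafL c5822

theorem c5823 : lp7 (fun s => chk (ent L5823 s)) 0 = true := by decide +kernel
theorem p5823 : PrL chk L5823 := leafL c5823

theorem c5824 : lp7 (fun s => chk (ent L5824 s)) 0 = true := by decide +kernel
theorem p5824 : PrL chk L5824 := leafL c5824

theorem c5825 : lp7 (fun s => chk (ent L5825 s)) 0 = true := by decide +kernel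
theorem p5825 : PrL chk L5825 := leafL c5825

theorem c5826 : lp7 (fun s => chk (ent L5826 s)) 0 = true := by decide +kernel
theorem p5826 : PrL chk L5826 := leafL c5826

theorem c5827 : lp7 (fun s => chk (ent L5827 s)) 0 = true := by decide +kernel
theorem p5827 : PrL chk L5827 := leafL c5827

theorem c5828 : lp7 (fun s => chk (ent L5828 s)) 0 = true := by decide +kernel
theorem p5828 : PrL chk L5828 := leafL c5828

theorem c5829 : lp7 (fun s => chk (ent L5829 s)) 0 = true := by decide +kernel
theorem p5829 : PrL chk L5829 := leafL c5829

theorem c5830 : lp7 (fun s => chk (ent L5830 s)) 0 = true := by decide +kernel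
theorem p5830 : PrL chk L5830 := leafL c5830

theorem c5831 : lp7 (fun s => chk (ent L5831 s)) 0 = true := by decide +kernel
theorem p5831 : PrL chk L5831 := leafL c5831

theorem c5832 : lp7 (fun s => chk (ent L5832 s)) 0 = true := by decide +kernel
theorem p5832 : PrL chk L5832 := leafL c5832

theorem c5833 : lp7 (fun s => chk (ent L5833 s)) 0 = true := by decide +kernel
theorem p5833 : PrL chk L5833 := leafL c5833

theorem c5834 : lp7 (fun s => chk (ent L5834 s)) 0 = true := by decide +kernel
theorem p5834 : PrL chk L5834 := leafL c5834

theorem c5835 : lp7 (fun s => chk (ent L5835 s)) 0 = true := by decide +kernel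
theorem p5835 : PrL chk L5835 := leafL c5835

theorem c5836 : lp7 (fun s => chk (ent L5836 s)) 0 = true := by decide +kernel
theorem p5836 : PrL chk L5836 := leafL c5836

theorem c5837 : lp7 (fun s => chk (ent L5837 s)) 0 = true := by decide +kernel
theorem p5837 : PrL chk L5837 := leafL c5837

theorem c5838 : lp7 (fun s => chk (ent L5838 s)) 0 = true := by decide +kernel
theorem p5838 : PrL chk L5838 := leafL c5838

theorem c5839 : lp7 (fun s => chk (ent L5839 s)) 0 = true := by decide +kernel
theorem p5839 : PrL chk L5839 := leafL c5839

theorem c5840 : lp7 (fun s => chk (ent L5840 s)) 0 = true := by decide +kernel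
theorem p5840 : PrL chk L5840 := leafL c5840

theorem c5841 : lp7 (fun s => chk (ent L5841 s)) 0 = true := by decide +kernel
theorem p5841 : PrL chk L5841 := leafL c5841

theorem c5842 : lp7 (fun s => chk (ent L5842 s)) 0 = true := by decide +kernel
theorem p5842 : PrL chk L5842 := leafL c5842

theorem c5843 : lp7 (fun s => chk (ent L5843 s)) 0 = true := by decide +kernel
theorem p5843 : PrL chk L5843 := leafL c5843

theorem c5844 : lp7 (fun s => chk (ent L5844 s)) 0 = true := by decide +kernel
theorem p5844 : PrL chk L5844 := leafL c5844

theorem c5845 : lp7 (fun s => chk (ent L5845 s)) 0 = true := by decide +kernel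
theorem p5845 : PrL chk L5845 := leafL c5845

theorem c5846 : lp7 (fun s => chk (ent L5846 s)) 0 = true := by decide +kernel
theorem p5846 : PrL chk L5846 := leafL c5846

theorem c5847 : lp7 (fun s => chk (ent L5847 s)) 0 = true := by decide +kernel
theorem p5847 : PrL chk L5847 := leafL c5847

theorem c5848 : lp7 (fun s => chk (ent L5848 s)) 0 = true := by decide +kernel
theorem p5848 : PrL chk L5848 := leafL c5848

theorem c5849 : lp7 (fun s => chk (ent L5849 s)) 0 = true := by decide +kernel
theorem p5849 : PrL chk L5849 := leafL c5849

theorem c5850 : lp7 (fun s => chk (ent L5850 s)) 0 = true := by decide +kernel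
theorem p5850 : PrL chk L5850 := leafL c5850

theorem c5851 : lp7 (fun s => chk (ent L5851 s)) 0 = true := by decide +kernel
theorem p5851 : PrL chk L5851 := leafL c5851

theorem c5852 : lp7 (fun s => chk (ent L5852 s)) 0 = true := by decide +kernel
theorem p5852 : PrL chk L5852 := leafL c5852

theorem c5853 : lp7 (fun s => chk (ent L5853 s)) 0 = true := by decide +kernel
theorem p5853 : PrL chk L5853 := leafL c5853

theorem c5854 : lp7 (fun s => chk (ent L5854 s)) 0 = true := by decide +kernel
theorem p5854 : PrL chk L5854 := leafL c5854

theorem c5855 : lp7 (fun s => chk (ent L5855 s)) 0 = true := by decide +kernel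
theorem p5855 : PrL chk L5855 := leafL c5855

theorem c5856 : lp7 (fun s => chk (ent L5856 s)) 0 = true := by decide +kernel
theorem p5856 : PrL chk L5856 := leafL c5856

theorem c5857 : lp7 (fun s => chk (ent L5857 s)) 0 = true := by decide +kernel
theorem p5857 : PrL chk L5857 := leafL c5857

theorem c5858 : lp7 (fun s => chk (ent L5858 s)) 0 = true := by decide +kernel
theorem p5858 : PrL chk L5858 := leafL c5858

theorem c5859 : lp7 (fun s => chk (ent L5859 s)) 0 = true := by decide +kernel
theorem p5859 : PrL chk L5859 := leafL c5859

theorem c5860 : lp7 (fun s => chk (ent L5860 s)) 0 = true := by decide +kernel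
theorem p5860 : PrL chk L5860 := leafL c5860

theorem c5861 : lp7 (fun s => chk (ent L5861 s)) 0 = true := by decide +kernel
theorem p5861 : PrL chk L5861 := leafL c5861

theorem c5862 : lp7 (fun s => chk (ent L5862 s)) 0 = true := by decide +kernel
theorem p5862 : PrL chk L5862 := leafL c5862

theorem c5863 : lp7 (fun s => chk (ent L5863 s)) 0 = true := by decide +kernel
theorem p5863 : PrL chk L5863 := leafL c5863

theorem c5864 : lp7 (fun s => chk (ent L5864 s)) 0 = true := by decide +kernel
theorem p5864 : PrL chk L5864 := leafL c5864

theorem c5865 : lp7 (fun s => chk (ent L5865 s)) 0 = true := by decide +kernel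
theorem p5865 : PrL chk L5865 := leafL c5865

theorem c5866 : lp7 (fun s => chk (ent L5866 s)) 0 = true := by decide +kernel
theorem p5866 : PrL chk L5866 := leafL c5866

theorem c5867 : lp7 (fun s => chk (ent L5867 s)) 0 = true := by decide +kernel
theorem p5867 : PrL chk L5867 := leafL c5867

theorem c5868 : lp7 (fun s => chk (ent L5868 s)) 0 = true := by decide +kernel
theorem p5868 : PrL chk L5868 := leafL c5868

theorem c5869 : lp7 (fun s => chk (ent L5869 s)) 0 = true := by decide +kernel
theorem p5869 : PrL chk L5869 := leafL c5869

theorem c5870 : lp7 (fun s => chk (ent L5870 s)) 0 = true := by decide +kernel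
theorem p5870 : PrL chk L5870 := leafL c5870

theorem c5871 : lp7 (fun s => chk (ent L5871 s)) 0 = true := by decide +kernel
theorem p5871 : PrL chk L5871 := leafL c5871

theorem c5872 : lp7 (fun s => chk (ent L5872 s)) 0 = true := by decide +kernel
theorem p5872 : PrL chk L5872 := leafL c5872

theorem c5873 : lp7 (fun s => chk (ent L5873 s)) 0 = true := by decide +kernel
theorem p5873 : PrL chk L5873 := leafL c5873

theorem c5874 : lp7 (fun s => chk (ent L5874 s)) 0 = true := by decide +kernel
theorem p5874 : PrL chk L5874 := leafL c5874

theorem c5875 : lp7 (fun s => chk (ent L5875 s)) 0 = true := by decide +kernel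
theorem p5875 : PrL chk L5875 := leafL c5875

theorem c5876 : lp7 (fun s => chk (ent L5876 s)) 0 = true := by decide +kernel
theorem p5876 : PrL chk L5876 := leafL c5876

theorem c5877 : lp7 (fun s => chk (ent L5877 s)) 0 = true := by decide +kernel
theorem p5877 : PrL chk L5877 := leafL c5877

theorem c5878 : lp7 (fun s => chk (ent L5878 s)) 0 = true := by decide +kernel
theorem p5878 : PrL chk L5878 := leafL c5878

theorem c5879 : lp7 (fun s => chk (ent L5879 s)) 0 = true := by decide +kernel
theorem p5879 : PrL chk L5879 := leafL c5879

theorem c5880 : lp7 (fun s => chk (ent L5880 s)) 0 = true := by decide +kernel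
theorem p5880 : PrL chk L5880 := leafL c5880

theorem c5881 : lp7 (fun s => chk (ent L5881 s)) 0 = true := by decide +kernel
theorem p5881 : PrL chk L5881 := leafL c5881

theorem c5882 : lp7 (fun s => chk (ent L5882 s)) 0 = true := by decide +kernel
theorem p5882 : PrL chk L5882 := leafL c5882

theorem c5883 : lp7 (fun s => chk (ent L5883 s)) 0 = true := by decide +kernel
theorem p5883 : PrL chk L5883 := leafL c5883

theorem c5884 : lp7 (fun s => chk (ent L5884 s)) 0 = true := by decide +kernel
theorem p5884 : PrL chk L5884 := leafL c5884

theorem c5885 : lp7 (fun s => chk (ent L5885 s)) 0 = true := by decide +kernel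
theorem p5885 : PrL chk L5885 := leafL c5885

theorem c5886 : lp7 (fun s => chk (ent L5886 s)) 0 = true := by decide +kernel
theorem p5886 : PrL chk L5886 := leafL c5886

theorem c5887 : lp7 (fun s => chk (ent L5887 s)) 0 = true := by decide +kernel
theorem p5887 : PrL chk L5887 := leafL c5887

end Pool.Agent.ad013a.LA
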