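import Pool.Agent.H.MP_ad013a_pr.h63l.A.T
import Pool.Agent.H.MP_ad013a_pr.h63w.VLoop

namespace Pool.Agent.ad013a.LA

theorem c5888 : lp7 (fun s => chk (ent L5888 s)) 0 = true := by decide +kernel
theorem p5888 : PrL chk L5888 := leafL c5888

theorem c5889 : lp7 (fun s => chk (ent L5889 s)) 0 = true := by decide +kernel
theorem p5889 : PrL chk L5889 := leafL c5889

theorem c5890 : lp7 (fun s => chk (ent L5890 s)) 0 = true := by decide +kernel
theorem p5890 : PrL chk L5890 := leafL c5890

theorem c5891 : lp7 (fun s => chk (ent L5891 s)) 0 = true := by decide +kernel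
theorem p5891 : PrL chk L5891 := leafL c5891

theorem c5892 : lp7 (fun s => chk (ent L5892 s)) 0 = true := by decide +kernel
theorem p5892 : PrL chk L5892 := leafL c5892

theorem c5893 : lp7 (fun s => chk (ent L5893 s)) 0 = true := by decide +kernel
theorem p5893 : PrL chk L5893 := leafL c5893

theorem c5894 : lp7 (fun s => chk (ent L5894 s)) 0 = true := by decide +kernel
theorem p5894 : PrL chk L5894 := leafL c5894

theorem c5895 : lp7 (fun s => chk (ent L5895 s)) 0 = true := by decide +kernel
theorem p5895 : PrL chk L5895 := leafL c5895

theorem c5896 : lp7 (fun s => chk (ent L5896 s)) 0 = true := by decide +kernel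
theorem p5896 : PrL chk L5896 := leafL c5896

theorem c5897 : lp7 (fun s => chk (ent L5897 s)) 0 = true := by decide +kernel
theorem p5897 : PrL chk L5897 := leafL c5897

theorem c5898 : lp7 (fun s => chk (ent L5898 s)) 0 = true := by decide +kernel
theorem p5898 : PrL chk L5898 := leafL c5898

theorem c5899 : lp7 (fun s => chk (ent L5899 s)) 0 = true := by decide +kernel
theorem p5899 : PrL chk L5899 := leafL c5899

theorem c5900 : lp7 (fun s => chk (ent L5900 s)) 0 = true := by decide +kernel
theorem p5900 : PrL chk L5900 := leafL c5900

theorem c5901 : lp7 (fun s => chk (ent L5901 s)) 0 = true := by decide +kernel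
theorem p5901 : PrL chk L5901 := leafL c5901

theorem c5902 : lp7 (fun s => chk (ent L5902 s)) 0 = true := by decide +kernel
theorem p5902 : PrL chk L5902 := leafL c5902

theorem c5903 : lp7 (fun s => chk (ent L5903 s)) 0 = true := by decide +kernel
theorem p5903 : PrL chk L5903 := leafL c5903

theorem c5904 : lp7 (fun s => chk (ent L5904 s)) 0 = true := by decide +kernel
theorem p5904 : PrL chk L5904 := leafL c5904

theorem c5905 : lp7 (fun s => chk (ent L5905 s)) 0 = true := by decide +kernel
theorem p5905 : PrL chk L5905 := leafL c5905

theorem c5906 : lp7 (fun s => chk (ent L5906 s)) 0 = true := by decide +kernel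
theorem p5906 : PrL chk L5906 := leafL c5906

theorem c5907 : lp7 (fun s => chk (ent L5907 s)) 0 = true := by decide +kernel
theorem p5907 : PrL chk L5907 := leafL c5907

theorem c5908 : lp7 (fun s => chk (ent L5908 s)) 0 = true := by decide +kernel
theorem p5908 : PrL chk L5908 := leafL c5908

theorem c5909 : lp7 (fun s => chk (ent L5909 s)) 0 = true := by decide +kernel
theorem p5909 : PrL chk L5909 := leafL c5909

theorem c5910 : lp7 (fun s => chk (ent L5910 s)) 0 = true := by decide +kernel
theorem p5910 : PrL chk L5910 := leafL c5910

theorem c5911 : lp7 (fun s => chk (ent L5911 s)) 0 = true := by decide +kernel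
theorem p5911 : PrL chk L5911 := leafL c5911

theorem c5912 : lp7 (fun s => chk (ent L5912 s)) 0 = true := by decide +kernel
theorem p5912 : PrL chk L5912 := leafL c5912

theorem c5913 : lp7 (fun s => chk (ent L5913 s)) 0 = true := by decide +kernel
theorem p5913 : PrL chk L5913 := leafL c5913

theorem c5914 : lp7 (fun s => chk (ent L5914 s)) 0 = true := by decide +kernel
theorem p5914 : PrL chk L5914 := leafL c5914

theorem c5915 : lp7 (fun s => chk (ent L5915 s)) 0 = true := by decide +kernel
theorem p5915 : PrL chk L5915 := leafL c5915

theorem c5916 : lp7 (fun s => chk (ent L5916 s)) 0 = true := by decide +kernel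
theorem p5916 : PrL chk L5916 := leafL c5916

theorem c5917 : lp7 (fun s => chk (ent L5917 s)) 0 = true := by decide +kernel
theorem p5917 : PrL chk L5917 := leafL c5917

theorem c5918 : lp7 (fun s => chk (ent L5918 s)) 0 = true := by decide +kernel
theorem p5918 : PrL chk L5918 := leafL c5918

theorem c5919 : lp7 (fun s => chk (ent L5919 s)) 0 = true := by decide +kernel
theorem p5919 : PrL chk L5919 := leafL c5919

theorem c5920 : lp7 (fun s => chk (ent L5920 s)) 0 = true := by decide +kernel
theorem p5920 : PrL chk L5920 := leafL c5920

theorem c5921 : lp7 (fun s => chk (ent L5921 s)) 0 = true := by decide +kernel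
theorem p5921 : PrL chk L5921 := leafL c5921

theorem c5922 : lp7 (fun s => chk (ent L5922 s)) 0 = true := by decide +kernel
theorem p5922 : PrL chk L5922 := leafL c5922

theorem c5923 : lp7 (fun s => chk (ent L5923 s)) 0 = true := by decide +kernel
theorem p5923 : PrL chk L5923 := leafL c5923

theorem c5924 : lp7 (fun s => chk (ent L5924 s)) 0 = true := by decide +kernel
theorem p5924 : PrL chk L5924 := leafL c5924

theorem c5925 : lp7 (fun s => chk (ent L5925 s)) 0 = true := by decide +kernel
theorem p5925 : PrL chk L5925 := leafL c5925

theorem c5926 : lp7 (fun s => chk (ent L5926 s)) 0 = true := by decide +kernel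
theorem p5926 : PrL chk L5926 := leafL c5926

theorem c5927 : lp7 (fun s => chk (ent L5927 s)) 0 = true := by decide +kernel
theorem p5927 : PrL chk L5927 := leafL c5927

theorem c5928 : lp7 (fun s => chk (ent L5928 s)) 0 = true := by decide +kernel
theorem p5928 : PrL chk L5928 := leafL c5928

theorem c5929 : lp7 (fun s => chk (ent L5929 s)) 0 = true := by decide +kernel
theorem p5929 : PrL chk L5929 := leafL c5929

theorem c5930 : lp7 (fun s => chk (ent L5930 s)) 0 = true := by decide +kernel
theorem p5930 : PrL chk L5930 := leafL c5930

theorem c5931 : lp7 (fun s => chk (ent L5931 s)) 0 = true := by decide +kernel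
theorem p5931 : PrL chk L5931 := leafL c5931

theorem c5932 : lp7 (fun s => chk (ent L5932 s)) 0 = true := by decide +kernel
theorem p5932 : PrL chk L5932 := leafL c5932

theorem c5933 : lp7 (fun s => chk (ent L5933 s)) 0 = true := by decide +kernel
theorem p5933 : PrL chk L5933 := leafL c5933

theorem c5934 : lp7 (fun s => chk (ent L5934 s)) 0 = true := by decide +kernel
theorem p5934 : PrL chk L5934 := leafL c5934

theorem c5935 : lp7 (fun s => chk (ent L5935 s)) 0 = true := by decide +kernel
theorem p5935 : PrL chk L5935 := leafL c5935

theorem c5936 : lp7 (fun s => chk (ent L5936 s)) 0 = true := by decide +kernel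
theorem p5936 : PrL chk L5936 := leafL c5936

theorem c5937 : lp7 (fun s => chk (ent L5937 s)) 0 = true := by decide +kernel
theorem p5937 : PrL chk L5937 := leafL c5937

theorem c5938 : lp7 (fun s => chk (ent L5938 s)) 0 = true := by decide +kernel
theorem p5938 : PrL chk L5938 := leafL c5938

theorem c5939 : lp7 (fun s => chk (ent L5939 s)) 0 = true := by decide +kernel
theorem p5939 : PrL chk L5939 := leafL c5939

theorem c5940 : lp7 (fun s => chk (ent L5940 s)) 0 = true := by decide +kernel
theorem p5940 : PrL chk L5940 := leafL c5940

theorem c5941 : lp7 (fun s => chk (ent L5941 s)) 0 = true := by decide +kernel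
theorem p5941 : PrL chk L5941 := leafL c5941

theorem c5942 : lp7 (fun s => chk (ent L5942 s)) 0 = true := by decide +kernel
theorem p5942 : PrL chk L5942 := leafL c5942

theorem c5943 : lp7 (fun s => chk (ent L5943 s)) 0 = true := by decide +kernel
theorem p5943 : PrL chk L5943 := leafL c5943

theorem c5944 : lp7 (fun s => chk (ent L5944 s)) 0 = true := by decide +kernel
theorem p5944 : PrL chk L5944 := leafL c5944

theorem c5945 : lp7 (fun s => chk (ent L5945 s)) 0 = true := by decide +kernel
theorem p5945 : PrL chk L5945 := leafL c5945

theorem c5946 : lp7 (fun s => chk (ent L5946 s)) 0 = true := by decide +kernel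
theorem p5946 : PrL chk L5946 := leafL c5946

theorem c5947 : lp7 (fun s => chk (ent L5947 s)) 0 = true := by decide +kernel
theorem p5947 : PrL chk L5947 := leafL c5947

theorem c5948 : lp7 (fun s => chk (ent L5948 s)) 0 = true := by decide +kernel
theorem p5948 : PrL chk L5948 := leafL c5948

theorem c5949 : lp7 (fun s => chk (ent L5949 s)) 0 = true := by decide +kernel
theorem p5949 : PrL chk L5949 := leafL c5949

theorem c5950 : lp7 (fun s => chk (ent L5950 s)) 0 = true := by decide +kernel
theorem p5950 : PrL chk L5950 := leafL c5950

theorem c5951 : lp7 (fun s => chk (ent L5951 s)) 0 = true := by decide +kernel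
theorem p5951 : PrL chk L5951 := leafL c5951

theorem c5952 : lp7 (fun s => chk (ent L5952 s)) 0 = true := by decide +kernel
theorem p5952 : PrL chk L5952 := leafL c5952

theorem c5953 : lp7 (fun s => chk (ent L5953 s)) 0 = true := by decide +kernel
theorem p5953 : PrL chk L5953 := leafL c5953

theorem c5954 : lp7 (fun s => chk (ent L5954 s)) 0 = true := by decide +kernel
theorem p5954 : PrL chk L5954 := leafL c5954

theorem c5955 : lp7 (fun s => chk (ent L5955 s)) 0 = true := by decide +kernel
theorem p5955 : PrL chk L5955 := leafL c5955

theorem c5956 : lp7 (fun s => chk (ent L5956 s)) 0 = true := by decide +kernel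
theorem p5956 : PrL chk L5956 := leafL c5956

theorem c5957 : lp7 (fun s => chk (ent L5957 s)) 0 = true := by decide +kernel
theorem p5957 : PrL chk L5957 := leafL c5957

theorem c5958 : lp7 (fun s => chk (ent L5958 s)) 0 = true := by decide +kernel
theorem p5958 : PrL chk L5958 := leafL c5958

theorem c5959 : lp7 (fun s => chk (ent L5959 s)) 0 = true := by decide +kernel
theorem p5959 : PrL chk L5959 := leafL c5959

theorem c5960 : lp7 (fun s => chk (ent L5960 s)) 0 = true := by decide +kernel
theorem p5960 : PrL chk L5960 := leafL c5960

theorem c5961 : lp7 (fun s => chk (ent L5961 s)) 0 = true := by decide +kernel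
theorem p5961 : PrL chk L5961 := leafL c5961

theorem c5962 : lp7 (fun s => chk (ent L5962 s)) 0 = true := by decide +kernel
theorem p5962 : PrL chk L5962 := leafL c5962

theorem c5963 : lp7 (fun s => chk (ent L5963 s)) 0 = true := by decide +kernel
theorem p5963 : PrL chk L5963 := leafL c5963

theorem c5964 : lp7 (fun s => chk (ent L5964 s)) 0 = true := by decide +kernel
theorem p5964 : PrL chk L5964 := leafL c5964

theorem c5965 : lp7 (fun s => chk (ent L5965 s)) 0 = true := by decide +kernel
theorem p5965 : PrL chk L5965 := leafL c5965

theorem c5966 : lp7 (fun s => chk (ent L5966 s)) 0 = true := by decide +kernel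
theorem p5966 : PrL chk L5966 := leafL c5966

theorem c5967 : lp7 (fun s => chk (ent L5967 s)) 0 = true := by decide +kernel
theorem p5967 : PrL chk L5967 := leafL c5967

theorem c5968 : lp7 (fun s => chk (ent L5968 s)) 0 = true := by decide +kernel
theorem p5968 : PrL chk L5968 := leafL c5968

theorem c5969 : lp7 (fun s => chk (ent L5969 s)) 0 = true := by decide +kernel
theorem p5969 : PrL chk L5969 := leafL c5969

theorem c5970 : lp7 (fun s => chk (ent L5970 s)) 0 = true := by decide +kernel
theorem p5970 : PrL chk L5970 := leafL c5970

theorem c5971 : lp7 (fun s => chk (ent L5971 s)) 0 = true := by decide +kernel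
theorem p5971 : PrL chk L5971 := leafL c5971

theorem c5972 : lp7 (fun s => chk (ent L5972 s)) 0 = true := by decide +kernel
theorem p5972 : PrL chk L5972 := leafL c5972

theorem c5973 : lp7 (fun s => chk (ent L5973 s)) 0 = true := by decide +kernel
theorem p5973 : PrL chk L5973 := leafL c5973

theorem c5974 : lp7 (fun s => chk (ent L5974 s)) 0 = true := by decide +kernel
theorem p5974 : PrL chk L5974 := leafL c5974

theorem c5975 : lp7 (fun s => chk (ent L5975 s)) 0 = true := by decide +kernel
theorem p5975 : PrL chk L5975 := leafL c5975

theorem c5976 : lp7 (fun s => chk (ent L5976 s)) 0 = true := by decide +kernel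
theorem p5976 : PrL chk L5976 := leafL c5976

theorem c5977 : lp7 (fun s => chk (ent L5977 s)) 0 = true := by decide +kernel
theorem p5977 : PrL chk L5977 := leafL c5977

theorem c5978 : lp7 (fun s => chk (ent L5978 s)) 0 = true := by decide +kernel
theorem p5978 : PrL chk L5978 := leafL c5978

theorem c5979 : lp7 (fun s => chk (ent L5979 s)) 0 = true := by decide +kernel
theorem p5979 : PrL chk L5979 := leafL c5979

theorem c5980 : lp7 (fun s => chk (ent L5980 s)) 0 = true := by decide +kernel
theorem p5980 : PrL chk L5980 := leafL c5980

theorem c5981 : lp7 (fun s => chk (ent L5981 s)) 0 = true := by decide +kernel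
theorem p5981 : PrL chk L5981 := leafL c5981

theorem c5982 : lp7 (fun s => chk (ent L5982 s)) 0 = true := by decide +kernel
theorem p5982 : PrL chk L5982 := leafL c5982

theorem c5983 : lp7 (fun s => chk (ent L5983 s)) 0 = true := by decide +kernel
theorem p5983 : PrL chk L5983 := leafL c5983

theorem c5984 : lp7 (fun s => chk (ent L5984 s)) 0 = true := by decide +kernel
theorem p5984 : PrL chk L5984 := leafL c5984

theorem c5985 : lp7 (fun s => chk (ent L5985 s)) 0 = true := by decide +kernel
theorem p5985 : PrL chk L5985 := leafL c5985

theorem c5986 : lp7 (fun s => chk (ent L5986 s)) 0 = true := by decide +kernel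
theorem p5986 : PrL chk L5986 := leafL c5986

theorem c5987 : lp7 (fun s => chk (ent L5987 s)) 0 = true := by decide +kernel
theorem p5987 : PrL chk L5987 := leafL c5987

theorem c5988 : lp7 (fun s => chk (ent L5988 s)) 0 = true := by decide +kernel
theorem p5988 : PrL chk L5988 := leafL c5988

theorem c5989 : lp7 (fun s => chk (ent L5989 s)) 0 = true := by decide +kernel
theorem p5989 : PrL chk L5989 := leafL c5989

theorem c5990 : lp7 (fun s => chk (ent L5990 s)) 0 = true := by decide +kernel
theorem p5990 : PrL chk L5990 := leafL c5990

theorem c5991 : lp7 (fun s => chk (ent L5991 s)) 0 = true := by decide +kernel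
theorem p5991 : PrL chk L5991 := leafL c5991

theorem c5992 : lp7 (fun s => chk (ent L5992 s)) 0 = true := by decide +kernel
theorem p5992 : PrL chk L5992 := leafL c5992

theorem c5993 : lp7 (fun s => chk (ent L5993 s)) 0 = true := by decide +kernel
theorem p5993 : PrL chk L5993 := leafL c5993

theorem c5994 : lp7 (fun s => chk (ent L5994 s)) 0 = true := by decide +kernel
theorem p5994 : PrL chk L5994 := leafL c5994

theorem c5995 : lp7 (fun s => chk (ent L5995 s)) 0 = true := by decide +kernel
theorem p5995 : PrL chk L5995 := leafL c5995

theorem c5996 : lp7 (fun s => chk (ent L5996 s)) 0 = true := by decide +kernel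
theorem p5996 : PrL chk L5996 := leafL c5996

theorem c5997 : lp7 (fun s => chk (ent L5997 s)) 0 = true := by decide +kernel
theorem p5997 : PrL chk L5997 := leafL c5997

theorem c5998 : lp7 (fun s => chk (ent L5998 s)) 0 = true := by decide +kernel
theorem p5998 : PrL chk L5998 := leafL c5998

theorem c5999 : lp7 (fun s => chk (ent L5999 s)) 0 = true := by decide +kernel
theorem p5999 : PrL chk L5999 := leafL c5999

theorem c6000 : lp7 (fun s => chk (ent L6000 s)) 0 = true := by decide +kernel
theorem p6000 : PrL chk L6000 := leafL c6000

theorem c6001 : lp7 (fun s => chk (ent L6001 s)) 0 = true := by decide +kernel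
theorem p6001 : PrL chk L6001 := leafL c6001

theorem c6002 : lp7 (fun s => chk (ent L6002 s)) 0 = true := by decide +kernel
theorem p6002 : PrL chk L6002 := leafL c6002

theorem c6003 : lp7 (fun s => chk (ent L6003 s)) 0 = true := by decide +kernel
theorem p6003 : PrL chk L6003 := leafL c6003

theorem c6004 : lp7 (fun s => chk (ent L6004 s)) 0 = true := by decide +kernel
theorem p6004 : PrL chk L6004 := leafL c6004

theorem c6005 : lp7 (fun s => chk (ent L6005 s)) 0 = true := by decide +kernel
theorem p6005 : PrL chk L6005 := leafL c6005

theorem c6006 : lp7 (fun s => chk (ent L6006 s)) 0 = true := by decide +kernel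
theorem p6006 : PrL chk L6006 := leafL c6006

theorem c6007 : lp7 (fun s => chk (ent L6007 s)) 0 = true := by decide +kernel
theorem p6007 : PrL chk L6007 := leafL c6007

theorem c6008 : lp7 (fun s => chk (ent L6008 s)) 0 = true := by decide +kernel
theorem p6008 : PrL chk L6008 := leafL c6008

theorem c6009 : lp7 (fun s => chk (ent L6009 s)) 0 = true := by decide +kernel
theorem p6009 : PrL chk L6009 := leafL c6009

theorem c6010 : lp7 (fun s => chk (ent L6010 s)) 0 = true := by decide +kernel
theorem p6010 : PrL chk L6010 := leafL c6010

theorem c6011 : lp7 (fun s => chk (ent L6011 s)) 0 = true := by decide +kernel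
theorem p6011 : PrL chk L6011 := leafL c6011

theorem c6012 : lp7 (fun s => chk (ent L6012 s)) 0 = true := by decide +kernel
theorem p6012 : PrL chk L6012 := leafL c6012

theorem c6013 : lp7 (fun s => chk (ent L6013 s)) 0 = true := by decide +kernel
theorem p6013 : PrL chk L6013 := leafL c6013

theorem c6014 : lp7 (fun s => chk (ent L6014 s)) 0 = true := by decide +kernel
theorem p6014 : PrL chk L6014 := leafL c6014

theorem c6015 : lp7 (fun s => chk (ent L6015 s)) 0 = true := by decide +kernel
theorem p6015 : PrL chk L6015 := leafL c6015

theorem c6016 : lp7 (fun s => chk (ent L6016 s)) 0 = true := by decide +kernel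
theorem p6016 : PrL chk L6016 := leafL c6016

theorem c6017 : lp7 (fun s => chk (ent L6017 s)) 0 = true := by decide +kernel
theorem p6017 : PrL chk L6017 := leafL c6017

theorem c6018 : lp7 (fun s => chk (ent L6018 s)) 0 = true := by decide +kernel
theorem p6018 : PrL chk L6018 := leafL c6018

theorem c6019 : lp7 (fun s => chk (ent L6019 s)) 0 = true := by decide +kernel
theorem p6019 : PrL chk L6019 := leafL c6019

theorem c6020 : lp7 (fun s => chk (ent L6020 s)) 0 = true := by decide +kernel
theorem p6020 : PrL chk L6020 := leafL c6020

theorem c6021 : lp7 (fun s => chk (ent L6021 s)) 0 = true := by decide +kernel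
theorem p6021 : PrL chk L6021 := leafL c6021

theorem c6022 : lp7 (fun s => chk (ent L6022 s)) 0 = true := by decide +kernel
theorem p6022 : PrL chk L6022 := leafL c6022

theorem c6023 : lp7 (fun s => chk (ent L6023 s)) 0 = true := by decide +kernel
theorem p6023 : PrL chk L6023 := leafL c6023

theorem c6024 : lp7 (fun s => chk (ent L6024 s)) 0 = true := by decide +kernel
theorem p6024 : PrL chk L6024 := leafL c6024

theorem c6025 : lp7 (fun s => chk (ent L6025 s)) 0 = true := by decide +kernel
theorem p6025 : PrL chk L6025 := leafL c6025

theorem c6026 : lp7 (fun s => chk (ent L6026 s)) 0 = true := by decide +kernel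
theorem p6026 : PrL chk L6026 := leafL c6026

theorem c6027 : lp7 (fun s => chk (ent L6027 s)) 0 = true := by decide +kernel
theorem p6027 : PrL chk L6027 := leafL c6027

theorem c6028 : lp7 (fun s => chk (ent L6028 s)) 0 = true := by decide +kernel
theorem p6028 : PrL chk L6028 := leafL c6028

theorem c6029 : lp7 (fun s => chk (ent L6029 s)) 0 = true := by decide +kernel
theorem p6029 : PrL chk L6029 := leafL c6029

theorem c6030 : lp7 (fun s => chk (ent L6030 s)) 0 = true := by decide +kernel
theorem p6030 : PrL chk L6030 := leafL c6030

theorem c6031 : lp7 (fun s => chk (ent L6031 s)) 0 = true := by decide +kernel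
theorem p6031 : PrL chk L6031 := leafL c6031

theorem c6032 : lp7 (fun s => chk (ent L6032 s)) 0 = true := by decide +kernel
theorem p6032 : PrL chk L6032 := leafL c6032

theorem c6033 : lp7 (fun s => chk (ent L6033 s)) 0 = true := by decide +kernel
theorem p6033 : PrL chk L6033 := leafL c6033

theorem c6034 : lp7 (fun s => chk (ent L6034 s)) 0 = true := by decide +kernel
theorem p6034 : PrL chk L6034 := leafL c6034

theorem c6035 : lp7 (fun s => chk (ent L6035 s)) 0 = true := by decide +kernel
theorem p6035 : PrL chk L6035 := leafL c6035

theorem c6036 : lp7 (fun s => chk (ent L6036 s)) 0 = true := by decide +kernel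
theorem p6036 : PrL chk L6036 := leafL c6036

theorem c6037 : lp7 (fun s => chk (ent L6037 s)) 0 = true := by decide +kernel
theorem p6037 : PrL chk L6037 := leafL c6037

theorem c6038 : lp7 (fun s => chk (ent L6038 s)) 0 = true := by decide +kernel
theorem p6038 : PrL chk L6038 := leafL c6038

theorem c6039 : lp7 (fun s => chk (ent L6039 s)) 0 = true := by decide +kernel
theorem p6039 : PrL chk L6039 := leafL c6039

theorem c6040 : lp7 (fun s => chk (ent L6040 s)) 0 = true := by decide +kernel
theorem p6040 : PrL chk L6040 := leafL c6040

theorem c6041 : lp7 (fun s => chk (ent L6041 s)) 0 = true := by decide +kernel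
theorem p6041 : PrL chk L6041 := leafL c6041

theorem c6042 : lp7 (fun s => chk (ent L6042 s)) 0 = true := by decide +kernel
theorem p6042 : PrL chk L6042 := leafL c6042

theorem c6043 : lp7 (fun s => chk (ent L6043 s)) 0 = true := by decide +kernel
theorem p6043 : PrL chk L6043 := leafL c6043

theorem c6044 : lp7 (fun s => chk (ent L6044 s)) 0 = true := by decide +kernel
theorem p6044 : PrL chk L6044 := leafL c6044

theorem c6045 : lp7 (fun s => chk (ent L6045 s)) 0 = true := by decide +kernel
theorem p6045 : PrL chk L6045 := leafL c6045

theorem c6046 : lp7 (fun s => chk (ent L6046 s)) 0 = true := by decide +kernel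
theorem p6046 : PrL chk L6046 := leafL c6046

theorem c6047 : lp7 (fun s => chk (ent L6047 s)) 0 = true := by decide +kernel
theorem p6047 : PrL chk L6047 := leafL c6047

theorem c6048 : lp7 (fun s => chk (ent L6048 s)) 0 = true := by decide +kernel
theorem p6048 : PrL chk L6048 := leafL c6048

theorem c6049 : lp7 (fun s => chk (ent L6049 s)) 0 = true := by decide +kernel
theorem p6049 : PrL chk L6049 := leafL c6049

theorem c6050 : lp7 (fun s => chk (ent L6050 s)) 0 = true := by decide +kernel
theorem p6050 : PrL chk L6050 := leafL c6050

theorem c6051 : lp7 (fun s => chk (ent L6051 s)) 0 = true := by decide +kernel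
theorem p6051 : PrL chk L6051 := leafL c6051

theorem c6052 : lp7 (fun s => chk (ent L6052 s)) 0 = true := by decide +kernel
theorem p6052 : PrL chk L6052 := leafL c6052

theorem c6053 : lp7 (fun s => chk (ent L6053 s)) 0 = true := by decide +kernel
theorem p6053 : PrL chk L6053 := leafL c6053

theorem c6054 : lp7 (fun s => chk (ent L6054 s)) 0 = true := by decide +kernel
theorem p6054 : PrL chk L6054 := leafL c6054

theorem c6055 : lp7 (fun s => chk (ent L6055 s)) 0 = true := by decide +kernel
theorem p6055 : PrL chk L6055 := leafL c6055

theorem c6056 : lp7 (fun s => chk (ent L6056 s)) 0 = true := by decide +kernel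
theorem p6056 : PrL chk L6056 := leafL c6056

theorem c6057 : lp7 (fun s => chk (ent L6057 s)) 0 = true := by decide +kernel
theorem p6057 : PrL chk L6057 := leafL c6057

theorem c6058 : lp7 (fun s => chk (ent L6058 s)) 0 = true := by decide +kernel
theorem p6058 : PrL chk L6058 := leafL c6058

theorem c6059 : lp7 (fun s => chk (ent L6059 s)) 0 = true := by decide +kernel
theorem p6059 : PrL chk L6059 := leafL c6059

theorem c6060 : lp7 (fun s => chk (ent L6060 s)) 0 = true := by decide +kernel
theorem p6060 : PrL chk L6060 := leafL c6060

theorem c6061 : lp7 (fun s => chk (ent L6061 s)) 0 = true := by decide +kernel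
theorem p6061 : PrL chk L6061 := leafL c6061

theorem c6062 : lp7 (fun s => chk (ent L6062 s)) 0 = true := by decide +kernel
theorem p6062 : PrL chk L6062 := leafL c6062

theorem c6063 : lp7 (fun s => chk (ent L6063 s)) 0 = true := by decide +kernel
theorem p6063 : PrL chk L6063 := leafL c6063

theorem c6064 : lp7 (fun s => chk (ent L6064 s)) 0 = true := by decide +kernel
theorem p6064 : PrL chk L6064 := leafL c6064

theorem c6065 : lp7 (fun s => chk (ent L6065 s)) 0 = true := by decide +kernel
theorem p6065 : PrL chk L6065 := leafL c6065

theorem c6066 : lp7 (fun s => chk (ent L6066 s)) 0 = true := by decide +kernel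
theorem p6066 : PrL chk L6066 := leafL c6066

theorem c6067 : lp7 (fun s => chk (ent L6067 s)) 0 = true := by decide +kernel
theorem p6067 : PrL chk L6067 := leafL c6067

theorem c6068 : lp7 (fun s => chk (ent L6068 s)) 0 = true := by decide +kernel
theorem p6068 : PrL chk L6068 := leafL c6068

theorem c6069 : lp7 (fun s => chk (ent L6069 s)) 0 = true := by decide +kernel
theorem p6069 : PrL chk L6069 := leafL c6069

theorem c6070 : lp7 (fun s => chk (ent L6070 s)) 0 = true := by decide +kernel
theorem p6070 : PrL chk L6070 := leafL c6070

theorem c6071 : lp7 (fun s => chk (ent L6071 s)) 0 = true := by decide +kernel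
theorem p6071 : PrL chk L6071 := leafL c6071

theorem c6072 : lp7 (fun s => chk (ent L6072 s)) 0 = true := by decide +kernel
theorem p6072 : PrL chk L6072 := leafL c6072

theorem c6073 : lp7 (fun s => chk (ent L6073 s)) 0 = true := by decide +kernel
theorem p6073 : PrL chk L6073 := leafL c6073

theorem c6074 : lp7 (fun s => chk (ent L6074 s)) 0 = true := by decide +kernel
theorem p6074 : PrL chk L6074 := leafL c6074

theorem c6075 : lp7 (fun s => chk (ent L6075 s)) 0 = true := by decide +kernel
theorem p6075 : PrL chk L6075 := leafL c6075

theorem c6076 : lp7 (fun s => chk (ent L6076 s)) 0 = true := by decide +kernel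
theorem p6076 : PrL chk L6076 := leafL c6076

theorem c6077 : lp7 (fun s => chk (ent L6077 s)) 0 = true := by decide +kernel
theorem p6077 : PrL chk L6077 := leafL c6077

theorem c6078 : lp7 (fun s => chk (ent L6078 s)) 0 = true := by decide +kernel
theorem p6078 : PrL chk L6078 := leafL c6078

theorem c6079 : lp7 (fun s => chk (ent L6079 s)) 0 = true := by decide +kernel
theorem p6079 : PrL chk L6079 := leafL c6079

theorem c6080 : lp7 (fun s => chk (ent L6080 s)) 0 = true := by decide +kernel
theorem p6080 : PrL chk L6080 := leafL c6080

theorem c6081 : lp7 (fun s => chk (ent L6081 s)) 0 = true := by decide +kernel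
theorem p6081 : PrL chk L6081 := leafL c6081

theorem c6082 : lp7 (fun s => chk (ent L6082 s)) 0 = true := by decide +kernel
theorem p6082 : PrL chk L6082 := leafL c6082

theorem c6083 : lp7 (fun s => chk (ent L6083 s)) 0 = true := by decide +kernel
theorem p6083 : PrL chk L6083 := leafL c6083

theorem c6084 : lp7 (fun s => chk (ent L6084 s)) 0 = true := by decide +kernel
theorem p6084 : PrL chk L6084 := leafL c6084

theorem c6085 : lp7 (fun s => chk (ent L6085 s)) 0 = true := by decide +kernel
theorem p6085 : PrL chk L6085 := leafL c6085

theorem c6086 : lp7 (fun s => chk (ent L6086 s)) 0 = true := by decide +kernel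
theorem p6086 : PrL chk L6086 := leafL c6086

theorem c6087 : lp7 (fun s => chk (ent L6087 s)) 0 = true := by decide +kernel
theorem p6087 : PrL chk L6087 := leafL c6087

theorem c6088 : lp7 (fun s => chk (ent L6088 s)) 0 = true := by decide +kernel
theorem p6088 : PrL chk L6088 := leafL c6088

theorem c6089 : lp7 (fun s => chk (ent L6089 s)) 0 = true := by decide +kernel
theorem p6089 : PrL chk L6089 := leafL c6089

theorem c6090 : lp7 (fun s => chk (ent L6090 s)) 0 = true := by decide +kernel
theorem p6090 : PrL chk L6090 := leafL c6090

theorem c6091 : lp7 (fun s => chk (ent L6091 s)) 0 = true := by decide +kernel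
theorem p6091 : PrL chk L6091 := leafL c6091

theorem c6092 : lp7 (fun s => chk (ent L6092 s)) 0 = true := by decide +kernel
theorem p6092 : PrL chk L6092 := leafL c6092

theorem c6093 : lp7 (fun s => chk (ent L6093 s)) 0 = true := by decide +kernel
theorem p6093 : PrL chk L6093 := leafL c6093

theorem c6094 : lp7 (fun s => chk (ent L6094 s)) 0 = true := by decide +kernel
theorem p6094 : PrL chk L6094 := leafL c6094

theorem c6095 : lp7 (fun s => chk (ent L6095 s)) 0 = true := by decide +kernel
theorem p6095 : PrL chk L6095 := leafL c6095

theorem c6096 : lp7 (fun s => chk (ent L6096 s)) 0 = true := by decide +kernel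
theorem p6096 : PrL chk L6096 := leafL c6096

theorem c6097 : lp7 (fun s => chk (ent L6097 s)) 0 = true := by decide +kernel
theorem p6097 : PrL chk L6097 := leafL c6097

theorem c6098 : lp7 (fun s => chk (ent L6098 s)) 0 = true := by decide +kernel
theorem p6098 : PrL chk L6098 := leafL c6098

theorem c6099 : lp7 (fun s => chk (ent L6099 s)) 0 = true := by decide +kernel
theorem p6099 : PrL chk L6099 := leafL c6099

theorem c6100 : lp7 (fun s => chk (ent L6100 s)) 0 = true := by decide +kernel
theorem p6100 : PrL chk L6100 := leafL c6100

theorem c6101 : lp7 (fun s => chk (ent L6101 s)) 0 = true := by decide +kernel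
theorem p6101 : PrL chk L6101 := leafL c6101

theorem c6102 : lp7 (fun s => chk (ent L6102 s)) 0 = true := by decide +kernel
theorem p6102 : PrL chk L6102 := leafL c6102

theorem c6103 : lp7 (fun s => chk (ent L6103 s)) 0 = true := by decide +kernel
theorem p6103 : PrL chk L6103 := leafL c6103

theorem c6104 : lp7 (fun s => chk (ent L6104 s)) 0 = true := by decide +kernel
theorem p6104 : PrL chk L6104 := leafL c6104

theorem c6105 : lp7 (fun s => chk (ent L6105 s)) 0 = true := by decide +kernel
theorem p6105 : PrL chk L6105 := leafL c6105

theorem c6106 : lp7 (fun s => chk (ent L6106 s)) 0 = true := by decide +kernel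
theorem p6106 : PrL chk L6106 := leafL c6106

theorem c6107 : lp7 (fun s => chk (ent L6107 s)) 0 = true := by decide +kernel
theorem p6107 : PrL chk L6107 := leafL c6107

theorem c6108 : lp7 (fun s => chk (ent L6108 s)) 0 = true := by decide +kernel
theorem p6108 : PrL chk L6108 := leafL c6108

theorem c6109 : lp7 (fun s => chk (ent L6109 s)) 0 = true := by decide +kernel
theorem p6109 : PrL chk L6109 := leafL c6109

theorem c6110 : lp7 (fun s => chk (ent L6110 s)) 0 = true := by decide +kernel
theorem p6110 : PrL chk L6110 := leafL c6110

theorem c6111 : lp7 (fun s => chk (ent L6111 s)) 0 = true := by decide +kernel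
theorem p6111 : PrL chk L6111 := leafL c6111

theorem c6112 : lp7 (fun s => chk (ent L6112 s)) 0 = true := by decide +kernel
theorem p6112 : PrL chk L6112 := leafL c6112

theorem c6113 : lp7 (fun s => chk (ent L6113 s)) 0 = true := by decide +kernel
theorem p6113 : PrL chk L6113 := leafL c6113

theorem c6114 : lp7 (fun s => chk (ent L6114 s)) 0 = true := by decide +kernel
theorem p6114 : PrL chk L6114 := leafL c6114

theorem c6115 : lp7 (fun s => chk (ent L6115 s)) 0 = true := by decide +kernel
theorem p6115 : PrL chk L6115 := leafL c6115

theorem c6116 : lp7 (fun s => chk (ent L6116 s)) 0 = true := by decide +kernel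
theorem p6116 : PrL chk L6116 := leafL c6116

theorem c6117 : lp7 (fun s => chk (ent L6117 s)) 0 = true := by decide +kernel
theorem p6117 : PrL chk L6117 := leafL c6117

theorem c6118 : lp7 (fun s => chk (ent L6118 s)) 0 = true := by decide +kernel
theorem p6118 : PrL chk L6118 := leafL c6118

theorem c6119 : lp7 (fun s => chk (ent L6119 s)) 0 = true := by decide +kernel
theorem p6119 : PrL chk L6119 := leafL c6119

theorem c6120 : lp7 (fun s => chk (ent L6120 s)) 0 = true := by decide +kernel
theorem p6120 : PrL chk L6120 := leafL c6120

theorem c6121 : lp7 (fun s => chk (ent L6121 s)) 0 = true := by decide +kernel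
theorem p6121 : PrL chk L6121 := leafL c6121

theorem c6122 : lp7 (fun s => chk (ent L6122 s)) 0 = true := by decide +kernel
theorem p6122 : PrL chk L6122 := leafL c6122

theorem c6123 : lp7 (fun s => chk (ent L6123 s)) 0 = true := by decide +kernel
theorem p6123 : PrL chk L6123 := leafL c6123

theorem c6124 : lp7 (fun s => chk (ent L6124 s)) 0 = true := by decide +kernel
theorem p6124 : PrL chk L6124 := leafL c6124

theorem c6125 : lp7 (fun s => chk (ent L6125 s)) 0 = true := by decide +kernel
theorem p6125 : PrL chk L6125 := leafL c6125

theorem c6126 : lp7 (fun s => chk (ent L6126 s)) 0 = true := by decide +kernel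
theorem p6126 : PrL chk L6126 := leafL c6126

theorem c6127 : lp7 (fun s => chk (ent L6127 s)) 0 = true := by decide +kernel
theorem p6127 : PrL chk L6127 := leafL c6127

theorem c6128 : lp7 (fun s => chk (ent L6128 s)) 0 = true := by decide +kernel
theorem p6128 : PrL chk L6128 := leafL c6128

theorem c6129 : lp7 (fun s => chk (ent L6129 s)) 0 = true := by decide +kernel
theorem p6129 : PrL chk L6129 := leafL c6129

theorem c6130 : lp7 (fun s => chk (ent L6130 s)) 0 = true := by decide +kernel
theorem p6130 : PrL chk L6130 := leafL c6130

theorem c6131 : lp7 (fun s => chk (ent L6131 s)) 0 = true := by decide +kernel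
theorem p6131 : PrL chk L6131 := leafL c6131

theorem c6132 : lp7 (fun s => chk (ent L6132 s)) 0 = true := by decide +kernel
theorem p6132 : PrL chk L6132 := leafL c6132

theorem c6133 : lp7 (fun s => chk (ent L6133 s)) 0 = true := by decide +kernel
theorem p6133 : PrL chk L6133 := leafL c6133

theorem c6134 : lp7 (fun s => chk (ent L6134 s)) 0 = true := by decide +kernel
theorem p6134 : PrL chk L6134 := leafL c6134

theorem c6135 : lp7 (fun s => chk (ent L6135 s)) 0 = true := by decide +kernel
theorem p6135 : PrL chk L6135 := leafL c6135

theorem c6136 : lp7 (fun s => chk (ent L6136 s)) 0 = true := by decide +kernel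
theorem p6136 : PrL chk L6136 := leafL c6136

theorem c6137 : lp7 (fun s => chk (ent L6137 s)) 0 = true := by decide +kernel
theorem p6137 : PrL chk L6137 := leafL c6137

theorem c6138 : lp7 (fun s => chk (ent L6138 s)) 0 = true := by decide +kernel
theorem p6138 : PrL chk L6138 := leafL c6138

theorem c6139 : lp7 (fun s => chk (ent L6139 s)) 0 = true := by decide +kernel
theorem p6139 : PrL chk L6139 := leafL c6139

theorem c6140 : lp7 (fun s => chk (ent L6140 s)) 0 = true := by decide +kernel
theorem p6140 : PrL chk L6140 := leafL c6140

theorem c6141 : lp7 (fun s => chk (ent L6141 s)) 0 = true := by decide +kernel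
theorem p6141 : PrL chk L6141 := leafL c6141

theorem c6142 : lp7 (fun s => chk (ent L6142 s)) 0 = true := by decide +kernel
theorem p6142 : PrL chk L6142 := leafL c6142

theorem c6143 : lp7 (fun s => chk (ent L6143 s)) 0 = true := by decide +kernel
theorem p6143 : PrL chk L6143 := leafL c6143

end Pool.Agent.ad013a.LA
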