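import Pool.Agent.H.MP_ad013a_pr.h63l.A.T
import Pool.Agent.H.MP_ad013a_pr.h63w.VLoop

namespace Pool.Agent.ad013a.LA

theorem c6144 : lp7 (fun s => chk (ent L6144 s)) 0 = true := by decide +kernel
theorem p6144 : PrL chk L6144 := leafL c6144

theorem c6145 : lp7 (fun s => chk (ent L6145 s)) 0 = true := by decide +kernel
theorem p6145 : PrL chk L6145 := leafL c6145

theorem c6146 : lp7 (fun s => chk (ent L6146 s)) 0 = true := by decide +kernel
theorem p6146 : PrL chk L6146 := leafL c6146

theorem c6147 : lp7 (fun s => chk (ent L6147 s)) 0 = true := by decide +kernel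
theorem p6147 : PrL chk L6147 := leafL c6147

theorem c6148 : lp7 (fun s => chk (ent L6148 s)) 0 = true := by decide +kernel
theorem p6148 : PrL chk L6148 := leafL c6148

theorem c6149 : lp7 (fun s => chk (ent L6149 s)) 0 = true := by decide +kernel
theorem p6149 : PrL chk L6149 := leafL c6149

theorem c6150 : lp7 (fun s => chk (ent L6150 s)) 0 = true := by decide +kernel
theorem p6150 : PrL chk L6150 := leafL c6150

theorem c6151 : lp7 (fun s => chk (ent L6151 s)) 0 = true := by decide +kernel
theorem p6151 : PrL chk L6151 := leafL c6151

theorem c6152 : lp7 (fun s => chk (ent L6152 s)) 0 = true := by decide +kernel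
theorem p6152 : PrL chk L6152 := leafL c6152

theorem c6153 : lp7 (fun s => chk (ent L6153 s)) 0 = true := by decide +kernel
theorem p6153 : PrL chk L6153 := leafL c6153

theorem c6154 : lp7 (fun s => chk (ent L6154 s)) 0 = true := by decide +kernel
theorem p6154 : PrL chk L6154 := leafL c6154

theorem c6155 : lp7 (fun s => chk (ent L6155 s)) 0 = true := by decide +kernel
theorem p6155 : PrL chk L6155 := leafL c6155

theorem c6156 : lp7 (fun s => chk (ent L6156 s)) 0 = true := by decide +kernel
theorem p6156 : PrL chk L6156 := leafL c6156

theorem c6157 : lp7 (fun s => chk (ent L6157 s)) 0 = true := by decide +kernel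
theorem p6157 : PrL chk L6157 := leafL c6157

theorem c6158 : lp7 (fun s => chk (ent L6158 s)) 0 = true := by decide +kernel
theorem p6158 : PrL chk L6158 := leafL c6158

theorem c6159 : lp7 (fun s => chk (ent L6159 s)) 0 = true := by decide +kernel
theorem p6159 : PrL chk L6159 := leafL c6159

theorem c6160 : lp7 (fun s => chk (ent L6160 s)) 0 = true := by decide +kernel
theorem p6160 : PrL chk L6160 := leafL c6160

theorem c6161 : lp7 (fun s => chk (ent L6161 s)) 0 = true := by decide +kernel
theorem p6161 : PrL chk L6161 := leafL c6161

theorem c6162 : lp7 (fun s => chk (ent L6162 s)) 0 = true := by decide +kernel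
theorem p6162 : PrL chk L6162 := leafL c6162

theorem c6163 : lp7 (fun s => chk (ent L6163 s)) 0 = true := by decide +kernel
theorem p6163 : PrL chk L6163 := leafL c6163

theorem c6164 : lp7 (fun s => chk (ent L6164 s)) 0 = true := by decide +kernel
theorem p6164 : PrL chk L6164 := leafL c6164

theorem c6165 : lp7 (fun s => chk (ent L6165 s)) 0 = true := by decide +kernel
theorem p6165 : PrL chk L6165 := leafL c6165

theorem c6166 : lp7 (fun s => chk (ent L6166 s)) 0 = true := by decide +kernel
theorem p6166 : PrL chk L6166 := leafL c6166

theorem c6167 : lp7 (fun s => chk (ent L6167 s)) 0 = true := by decide +kernel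
theorem p6167 : PrL chk L6167 := leafL c6167

theorem c6168 : lp7 (fun s => chk (ent L6168 s)) 0 = true := by decide +kernel
theorem p6168 : PrL chk L6168 := leafL c6168

theorem c6169 : lp7 (fun s => chk (ent L6169 s)) 0 = true := by decide +kernel
theorem p6169 : PrL chk L6169 := leafL c6169

theorem c6170 : lp7 (fun s => chk (ent L6170 s)) 0 = true := by decide +kernel
theorem p6170 : PrL chk L6170 := leafL c6170

theorem c6171 : lp7 (fun s => chk (ent L6171 s)) 0 = true := by decide +kernel
theorem p6171 : PrL chk L6171 := leafL c6171

theorem c6172 : lp7 (fun s => chk (ent L6172 s)) 0 = true := by decide +kernel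
theorem p6172 : PrL chk L6172 := leafL c6172

theorem c6173 : lp7 (fun s => chk (ent L6173 s)) 0 = true := by decide +kernel
theorem p6173 : PrL chk L6173 := leafL c6173

theorem c6174 : lp7 (fun s => chk (ent L6174 s)) 0 = true := by decide +kernel
theorem p6174 : PrL chk L6174 := leafL c6174

theorem c6175 : lp7 (fun s => chk (ent L6175 s)) 0 = true := by decide +kernel
theorem p6175 : PrL chk L6175 := leafL c6175

theorem c6176 : lp7 (fun s => chk (ent L6176 s)) 0 = true := by decide +kernel
theorem p6176 : PrL chk L6176 := leafL c6176

theorem c6177 : lp7 (fun s => chk (ent L6177 s)) 0 = true := by decide +kernel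
theorem p6177 : PrL chk L6177 := leafL c6177

theorem c6178 : lp7 (fun s => chk (ent L6178 s)) 0 = true := by decide +kernel
theorem p6178 : PrL chk L6178 := leafL c6178

theorem c6179 : lp7 (fun s => chk (ent L6179 s)) 0 = true := by decide +kernel
theorem p6179 : PrL chk L6179 := leafL c6179

theorem c6180 : lp7 (fun s => chk (ent L6180 s)) 0 = true := by decide +kernel
theorem p6180 : PrL chk L6180 := leafL c6180

theorem c6181 : lp7 (fun s => chk (ent L6181 s)) 0 = true := by decide +kernel
theorem p6181 : PrL chk L6181 := leafL c6181

theorem c6182 : lp7 (fun s => chk (ent L6182 s)) 0 = true := by decide +kernel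
theorem p6182 : PrL chk L6182 := leafL c6182

theorem c6183 : lp7 (fun s => chk (ent L6183 s)) 0 = true := by decide +kernel
theorem p6183 : PrL chk L6183 := leafL c6183

theorem c6184 : lp7 (fun s => chk (ent L6184 s)) 0 = true := by decide +kernel
theorem p6184 : PrL chk L6184 := leafL c6184

theorem c6185 : lp7 (fun s => chk (ent L6185 s)) 0 = true := by decide +kernel
theorem p6185 : PrL chk L6185 := leafL c6185

theorem c6186 : lp7 (fun s => chk (ent L6186 s)) 0 = true := by decide +kernel
theorem p6186 : PrL chk L6186 := leafL c6186

theorem c6187 : lp7 (fun s => chk (ent L6187 s)) 0 = true := by decide +kernel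
theorem p6187 : PrL chk L6187 := leafL c6187

theorem c6188 : lp7 (fun s => chk (ent L6188 s)) 0 = true := by decide +kernel
theorem p6188 : PrL chk L6188 := leafL c6188

theorem c6189 : lp7 (fun s => chk (ent L6189 s)) 0 = true := by decide +kernel
theorem p6189 : PrL chk L6189 := leafL c6189

theorem c6190 : lp7 (fun s => chk (ent L6190 s)) 0 = true := by decide +kernel
theorem p6190 : PrL chk L6190 := leafL c6190

theorem c6191 : lp7 (fun s => chk (ent L6191 s)) 0 = true := by decide +kernel
theorem p6191 : PrL chk L6191 := leafL c6191

theorem c6192 : lp7 (fun s => chk (ent L6192 s)) 0 = true := by decide +kernel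
theorem p6192 : PrL chk L6192 := leafL c6192

theorem c6193 : lp7 (fun s => chk (ent L6193 s)) 0 = true := by decide +kernel
theorem p6193 : PrL chk L6193 := leafL c6193

theorem c6194 : lp7 (fun s => chk (ent L6194 s)) 0 = true := by decide +kernel
theorem p6194 : PrL chk L6194 := leafL c6194

theorem c6195 : lp7 (fun s => chk (ent L6195 s)) 0 = true := by decide +kernel
theorem p6195 : PrL chk L6195 := leafL c6195

theorem c6196 : lp7 (fun s => chk (ent L6196 s)) 0 = true := by decide +kernel
theorem p6196 : PrL chk L6196 := leafL c6196

theorem c6197 : lp7 (fun s => chk (ent L6197 s)) 0 = true := by decide +kernel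
theorem p6197 : PrL chk L6197 := leafL c6197

theorem c6198 : lp7 (fun s => chk (ent L6198 s)) 0 = true := by decide +kernel
theorem p6198 : PrL chk L6198 := leafL c6198

theorem c6199 : lp7 (fun s => chk (ent L6199 s)) 0 = true := by decide +kernel
theorem p6199 : PrL chk L6199 := leafL c6199

theorem c6200 : lp7 (fun s => chk (ent L6200 s)) 0 = true := by decide +kernel
theorem p6200 : PrL chk L6200 := leafL c6200

theorem c6201 : lp7 (fun s => chk (ent L6201 s)) 0 = true := by decide +kernel
theorem p6201 : PrL chk L6201 := leafL c6201

theorem c6202 : lp7 (fun s => chk (ent L6202 s)) 0 = true := by decide +kernel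
theorem p6202 : PrL chk L6202 := leafL c6202

theorem c6203 : lp7 (fun s => chk (ent L6203 s)) 0 = true := by decide +kernel
theorem p6203 : PrL chk L6203 := leafL c6203

theorem c6204 : lp7 (fun s => chk (ent L6204 s)) 0 = true := by decide +kernel
theorem p6204 : PrL chk L6204 := leafL c6204

theorem c6205 : lp7 (fun s => chk (ent L6205 s)) 0 = true := by decide +kernel
theorem p6205 : PrL chk L6205 := leafL c6205

theorem c6206 : lp7 (fun s => chk (ent L6206 s)) 0 = true := by decide +kernel
theorem p6206 : PrL chk L6206 := leafL c6206

theorem c6207 : lp7 (fun s => chk (ent L6207 s)) 0 = true := by decide +kernel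
theorem p6207 : PrL chk L6207 := leafL c6207

theorem c6208 : lp7 (fun s => chk (ent L6208 s)) 0 = true := by decide +kernel
theorem p6208 : PrL chk L6208 := leafL c6208

theorem c6209 : lp7 (fun s => chk (ent L6209 s)) 0 = true := by decide +kernel
theorem p6209 : PrL chk L6209 := leafL c6209

theorem c6210 : lp7 (fun s => chk (ent L6210 s)) 0 = true := by decide +kernel
theorem p6210 : PrL chk L6210 := leafL c6210

theorem c6211 : lp7 (fun s => chk (ent L6211 s)) 0 = true := by decide +kernel
theorem p6211 : PrL chk L6211 := leafL c6211

theorem c6212 : lp7 (fun s => chk (ent L6212 s)) 0 = true := by decide +kernel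
theorem p6212 : PrL chk L6212 := leafL c6212

theorem c6213 : lp7 (fun s => chk (ent L6213 s)) 0 = true := by decide +kernel
theorem p6213 : PrL chk L6213 := leafL c6213

theorem c6214 : lp7 (fun s => chk (ent L6214 s)) 0 = true := by decide +kernel
theorem p6214 : PrL chk L6214 := leafL c6214

theorem c6215 : lp7 (fun s => chk (ent L6215 s)) 0 = true := by decide +kernel
theorem p6215 : PrL chk L6215 := leafL c6215

theorem c6216 : lp7 (fun s => chk (ent L6216 s)) 0 = true := by decide +kernel
theorem p6216 : PrL chk L6216 := leafL c6216

theorem c6217 : lp7 (fun s => chk (ent L6217 s)) 0 = true := by decide +kernel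
theorem p6217 : PrL chk L6217 := leafL c6217

theorem c6218 : lp7 (fun s => chk (ent L6218 s)) 0 = true := by decide +kernel
theorem p6218 : PrL chk L6218 := leafL c6218

theorem c6219 : lp7 (fun s => chk (ent L6219 s)) 0 = true := by decide +kernel
theorem p6219 : PrL chk L6219 := leafL c6219

theorem c6220 : lp7 (fun s => chk (ent L6220 s)) 0 = true := by decide +kernel
theorem p6220 : PrL chk L6220 := leafL c6220

theorem c6221 : lp7 (fun s => chk (ent L6221 s)) 0 = true := by decide +kernel
theorem p6221 : PrL chk L6221 := leafL c6221

theorem c6222 : lp7 (fun s => chk (ent L6222 s)) 0 = true := by decide +kernel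
theorem p6222 : PrL chk L6222 := leafL c6222

theorem c6223 : lp7 (fun s => chk (ent L6223 s)) 0 = true := by decide +kernel
theorem p6223 : PrL chk L6223 := leafL c6223

theorem c6224 : lp7 (fun s => chk (ent L6224 s)) 0 = true := by decide +kernel
theorem p6224 : PrL chk L6224 := leafL c6224

theorem c6225 : lp7 (fun s => chk (ent L6225 s)) 0 = true := by decide +kernel
theorem p6225 : PrL chk L6225 := leafL c6225

theorem c6226 : lp7 (fun s => chk (ent L6226 s)) 0 = true := by decide +kernel
theorem p6226 : PrL chk L6226 := leafL c6226

theorem c6227 : lp7 (fun s => chk (ent L6227 s)) 0 = true := by decide +kernel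
theorem p6227 : PrL chk L6227 := leafL c6227

theorem c6228 : lp7 (fun s => chk (ent L6228 s)) 0 = true := by decide +kernel
theorem p6228 : PrL chk L6228 := leafL c6228

theorem c6229 : lp7 (fun s => chk (ent L6229 s)) 0 = true := by decide +kernel
theorem p6229 : PrL chk L6229 := leafL c6229

theorem c6230 : lp7 (fun s => chk (ent L6230 s)) 0 = true := by decide +kernel
theorem p6230 : PrL chk L6230 := leafL c6230

theorem c6231 : lp7 (fun s => chk (ent L6231 s)) 0 = true := by decide +kernel
theorem p6231 : PrL chk L6231 := leafL c6231

theorem c6232 : lp7 (fun s => chk (ent L6232 s)) 0 = true := by decide +kernel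
theorem p6232 : PrL chk L6232 := leafL c6232

theorem c6233 : lp7 (fun s => chk (ent L6233 s)) 0 = true := by decide +kernel
theorem p6233 : PrL chk L6233 := leafL c6233

theorem c6234 : lp7 (fun s => chk (ent L6234 s)) 0 = true := by decide +kernel
theorem p6234 : PrL chk L6234 := leafL c6234

theorem c6235 : lp7 (fun s => chk (ent L6235 s)) 0 = true := by decide +kernel
theorem p6235 : PrL chk L6235 := leafL c6235

theorem c6236 : lp7 (fun s => chk (ent L6236 s)) 0 = true := by decide +kernel
theorem p6236 : PrL chk L6236 := leafL c6236

theorem c6237 : lp7 (fun s => chk (ent L6237 s)) 0 = true := by decide +kernel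
theorem p6237 : PrL chk L6237 := leafL c6237

theorem c6238 : lp7 (fun s => chk (ent L6238 s)) 0 = true := by decide +kernel
theorem p6238 : PrL chk L6238 := leafL c6238

theorem c6239 : lp7 (fun s => chk (ent L6239 s)) 0 = true := by decide +kernel
theorem p6239 : PrL chk L6239 := leafL c6239

theorem c6240 : lp7 (fun s => chk (ent L6240 s)) 0 = true := by decide +kernel
theorem p6240 : PrL chk L6240 := leafL c6240

theorem c6241 : lp7 (fun s => chk (ent L6241 s)) 0 = true := by decide +kernel
theorem p6241 : PrL chk L6241 := leafL c6241

theorem c6242 : lp7 (fun s => chk (ent L6242 s)) 0 = true := by decide +kernel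
theorem p6242 : PrL chk L6242 := leafL c6242

theorem c6243 : lp7 (fun s => chk (ent L6243 s)) 0 = true := by decide +kernel
theorem p6243 : PrL chk L6243 := leafL c6243

theorem c6244 : lp7 (fun s => chk (ent L6244 s)) 0 = true := by decide +kernel
theorem p6244 : PrL chk L6244 := leafL c6244

theorem c6245 : lp7 (fun s => chk (ent L6245 s)) 0 = true := by decide +kernel
theorem p6245 : PrL chk L6245 := leafL c6245

theorem c6246 : lp7 (fun s => chk (ent L6246 s)) 0 = true := by decide +kernel
theorem p6246 : PrL chk L6246 := leafL c6246

theorem c6247 : lp7 (fun s => chk (ent L6247 s)) 0 = true := by decide +kernel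
theorem p6247 : PrL chk L6247 := leafL c6247

theorem c6248 : lp7 (fun s => chk (ent L6248 s)) 0 = true := by decide +kernel
theorem p6248 : PrL chk L6248 := leafL c6248

theorem c6249 : lp7 (fun s => chk (ent L6249 s)) 0 = true := by decide +kernel
theorem p6249 : PrL chk L6249 := leafL c6249

theorem c6250 : lp7 (fun s => chk (ent L6250 s)) 0 = true := by decide +kernel
theorem p6250 : PrL chk L6250 := leafL c6250

theorem c6251 : lp7 (fun s => chk (ent L6251 s)) 0 = true := by decide +kernel
theorem p6251 : PrL chk L6251 := leafL c6251

theorem c6252 : lp7 (fun s => chk (ent L6252 s)) 0 = true := by decide +kernel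
theorem p6252 : PrL chk L6252 := leafL c6252

theorem c6253 : lp7 (fun s => chk (ent L6253 s)) 0 = true := by decide +kernel
theorem p6253 : PrL chk L6253 := leafL c6253

theorem c6254 : lp7 (fun s => chk (ent L6254 s)) 0 = true := by decide +kernel
theorem p6254 : PrL chk L6254 := leafL c6254

theorem c6255 : lp7 (fun s => chk (ent L6255 s)) 0 = true := by decide +kernel
theorem p6255 : PrL chk L6255 := leafL c6255

theorem c6256 : lp7 (fun s => chk (ent L6256 s)) 0 = true := by decide +kernel
theorem p6256 : PrL chk L6256 := leafL c6256

theorem c6257 : lp7 (fun s => chk (ent L6257 s)) 0 = true := by decide +kernel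
theorem p6257 : PrL chk L6257 := leafL c6257

theorem c6258 : lp7 (fun s => chk (ent L6258 s)) 0 = true := by decide +kernel
theorem p6258 : PrL chk L6258 := leafL c6258

theorem c6259 : lp7 (fun s => chk (ent L6259 s)) 0 = true := by decide +kernel
theorem p6259 : PrL chk L6259 := leafL c6259

theorem c6260 : lp7 (fun s => chk (ent L6260 s)) 0 = true := by decide +kernel
theorem p6260 : PrL chk L6260 := leafL c6260

theorem c6261 : lp7 (fun s => chk (ent L6261 s)) 0 = true := by decide +kernel
theorem p6261 : PrL chk L6261 := leafL c6261

theorem c6262 : lp7 (fun s => chk (ent L6262 s)) 0 = true := by decide +kernel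
theorem p6262 : PrL chk L6262 := leafL c6262

theorem c6263 : lp7 (fun s => chk (ent L6263 s)) 0 = true := by decide +kernel
theorem p6263 : PrL chk L6263 := leafL c6263

theorem c6264 : lp7 (fun s => chk (ent L6264 s)) 0 = true := by decide +kernel
theorem p6264 : PrL chk L6264 := leafL c6264

theorem c6265 : lp7 (fun s => chk (ent L6265 s)) 0 = true := by decide +kernel
theorem p6265 : PrL chk L6265 := leafL c6265

theorem c6266 : lp7 (fun s => chk (ent L6266 s)) 0 = true := by decide +kernel
theorem p6266 : PrL chk L6266 := leafL c6266

theorem c6267 : lp7 (fun s => chk (ent L6267 s)) 0 = true := by decide +kernel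
theorem p6267 : PrL chk L6267 := leafL c6267

theorem c6268 : lp7 (fun s => chk (ent L6268 s)) 0 = true := by decide +kernel
theorem p6268 : PrL chk L6268 := leafL c6268

theorem c6269 : lp7 (fun s => chk (ent L6269 s)) 0 = true := by decide +kernel
theorem p6269 : PrL chk L6269 := leafL c6269

theorem c6270 : lp7 (fun s => chk (ent L6270 s)) 0 = true := by decide +kernel
theorem p6270 : PrL chk L6270 := leafL c6270

theorem c6271 : lp7 (fun s => chk (ent L6271 s)) 0 = true := by decide +kernel
theorem p6271 : PrL chk L6271 := leafL c6271

theorem c6272 : lp7 (fun s => chk (ent L6272 s)) 0 = true := by decide +kernel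
theorem p6272 : PrL chk L6272 := leafL c6272

theorem c6273 : lp7 (fun s => chk (ent L6273 s)) 0 = true := by decide +kernel
theorem p6273 : PrL chk L6273 := leafL c6273

theorem c6274 : lp7 (fun s => chk (ent L6274 s)) 0 = true := by decide +kernel
theorem p6274 : PrL chk L6274 := leafL c6274

theorem c6275 : lp7 (fun s => chk (ent L6275 s)) 0 = true := by decide +kernel
theorem p6275 : PrL chk L6275 := leafL c6275

theorem c6276 : lp7 (fun s => chk (ent L6276 s)) 0 = true := by decide +kernel
theorem p6276 : PrL chk L6276 := leafL c6276

theorem c6277 : lp7 (fun s => chk (ent L6277 s)) 0 = true := by decide +kernel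
theorem p6277 : PrL chk L6277 := leafL c6277

theorem c6278 : lp7 (fun s => chk (ent L6278 s)) 0 = true := by decide +kernel
theorem p6278 : PrL chk L6278 := leafL c6278

theorem c6279 : lp7 (fun s => chk (ent L6279 s)) 0 = true := by decide +kernel
theorem p6279 : PrL chk L6279 := leafL c6279

theorem c6280 : lp7 (fun s => chk (ent L6280 s)) 0 = true := by decide +kernel
theorem p6280 : PrL chk L6280 := leafL c6280

theorem c6281 : lp7 (fun s => chk (ent L6281 s)) 0 = true := by decide +kernel
theorem p6281 : PrL chk L6281 := leafL c6281

theorem c6282 : lp7 (fun s => chk (ent L6282 s)) 0 = true := by decide +kernel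
theorem p6282 : PrL chk L6282 := leafL c6282

theorem c6283 : lp7 (fun s => chk (ent L6283 s)) 0 = true := by decide +kernel
theorem p6283 : PrL chk L6283 := leafL c6283

theorem c6284 : lp7 (fun s => chk (ent L6284 s)) 0 = true := by decide +kernel
theorem p6284 : PrL chk L6284 := leafL c6284

theorem c6285 : lp7 (fun s => chk (ent L6285 s)) 0 = true := by decide +kernel
theorem p6285 : PrL chk L6285 := leafL c6285

theorem c6286 : lp7 (fun s => chk (ent L6286 s)) 0 = true := by decide +kernel
theorem p6286 : PrL chk L6286 := leafL c6286

theorem c6287 : lp7 (fun s => chk (ent L6287 s)) 0 = true := by decide +kernel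
theorem p6287 : PrL chk L6287 := leafL c6287

theorem c6288 : lp7 (fun s => chk (ent L6288 s)) 0 = true := by decide +kernel
theorem p6288 : PrL chk L6288 := leafL c6288

theorem c6289 : lp7 (fun s => chk (ent L6289 s)) 0 = true := by decide +kernel
theorem p6289 : PrL chk L6289 := leafL c6289

theorem c6290 : lp7 (fun s => chk (ent L6290 s)) 0 = true := by decide +kernel
theorem p6290 : PrL chk L6290 := leafL c6290

theorem c6291 : lp7 (fun s => chk (ent L6291 s)) 0 = true := by decide +kernel
theorem p6291 : PrL chk L6291 := leafL c6291

theorem c6292 : lp7 (fun s => chk (ent L6292 s)) 0 = true := by decide +kernel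
theorem p6292 : PrL chk L6292 := leafL c6292

theorem c6293 : lp7 (fun s => chk (ent L6293 s)) 0 = true := by decide +kernel
theorem p6293 : PrL chk L6293 := leafL c6293

theorem c6294 : lp7 (fun s => chk (ent L6294 s)) 0 = true := by decide +kernel
theorem p6294 : PrL chk L6294 := leafL c6294

theorem c6295 : lp7 (fun s => chk (ent L6295 s)) 0 = true := by decide +kernel
theorem p6295 : PrL chk L6295 := leafL c6295

theorem c6296 : lp7 (fun s => chk (ent L6296 s)) 0 = true := by decide +kernel
theorem p6296 : PrL chk L6296 := leafL c6296

theorem c6297 : lp7 (fun s => chk (ent L6297 s)) 0 = true := by decide +kernel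
theorem p6297 : PrL chk L6297 := leafL c6297

theorem c6298 : lp7 (fun s => chk (ent L6298 s)) 0 = true := by decide +kernel
theorem p6298 : PrL chk L6298 := leafL c6298

theorem c6299 : lp7 (fun s => chk (ent L6299 s)) 0 = true := by decide +kernel
theorem p6299 : PrL chk L6299 := leafL c6299

theorem c6300 : lp7 (fun s => chk (ent L6300 s)) 0 = true := by decide +kernel
theorem p6300 : PrL chk L6300 := leafL c6300

theorem c6301 : lp7 (fun s => chk (ent L6301 s)) 0 = true := by decide +kernel
theorem p6301 : PrL chk L6301 := leafL c6301

theorem c6302 : lp7 (fun s => chk (ent L6302 s)) 0 = true := by decide +kernel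
theorem p6302 : PrL chk L6302 := leafL c6302

theorem c6303 : lp7 (fun s => chk (ent L6303 s)) 0 = true := by decide +kernel
theorem p6303 : PrL chk L6303 := leafL c6303

theorem c6304 : lp7 (fun s => chk (ent L6304 s)) 0 = true := by decide +kernel
theorem p6304 : PrL chk L6304 := leafL c6304

theorem c6305 : lp7 (fun s => chk (ent L6305 s)) 0 = true := by decide +kernel
theorem p6305 : PrL chk L6305 := leafL c6305

theorem c6306 : lp7 (fun s => chk (ent L6306 s)) 0 = true := by decide +kernel
theorem p6306 : PrL chk L6306 := leafL c6306

theorem c6307 : lp7 (fun s => chk (ent L6307 s)) 0 = true := by decide +kernel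
theorem p6307 : PrL chk L6307 := leafL c6307

theorem c6308 : lp7 (fun s => chk (ent L6308 s)) 0 = true := by decide +kernel
theorem p6308 : PrL chk L6308 := leafL c6308

theorem c6309 : lp7 (fun s => chk (ent L6309 s)) 0 = true := by decide +kernel
theorem p6309 : PrL chk L6309 := leafL c6309

theorem c6310 : lp7 (fun s => chk (ent L6310 s)) 0 = true := by decide +kernel
theorem p6310 : PrL chk L6310 := leafL c6310

theorem c6311 : lp7 (fun s => chk (ent L6311 s)) 0 = true := by decide +kernel
theorem p6311 : PrL chk L6311 := leafL c6311

theorem c6312 : lp7 (fun s => chk (ent L6312 s)) 0 = true := by decide +kernel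
theorem p6312 : PrL chk L6312 := leafL c6312

theorem c6313 : lp7 (fun s => chk (ent L6313 s)) 0 = true := by decide +kernel
theorem p6313 : PrL chk L6313 := leafL c6313

theorem c6314 : lp7 (fun s => chk (ent L6314 s)) 0 = true := by decide +kernel
theorem p6314 : PrL chk L6314 := leafL c6314

theorem c6315 : lp7 (fun s => chk (ent L6315 s)) 0 = true := by decide +kernel
theorem p6315 : PrL chk L6315 := leafL c6315

theorem c6316 : lp7 (fun s => chk (ent L6316 s)) 0 = true := by decide +kernel
theorem p6316 : PrL chk L6316 := leafL c6316

theorem c6317 : lp7 (fun s => chk (ent L6317 s)) 0 = true := by decide +kernel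
theorem p6317 : PrL chk L6317 := leafL c6317

theorem c6318 : lp7 (fun s => chk (ent L6318 s)) 0 = true := by decide +kernel
theorem p6318 : PrL chk L6318 := leafL c6318

theorem c6319 : lp7 (fun s => chk (ent L6319 s)) 0 = true := by decide +kernel
theorem p6319 : PrL chk L6319 := leafL c6319

theorem c6320 : lp7 (fun s => chk (ent L6320 s)) 0 = true := by decide +kernel
theorem p6320 : PrL chk L6320 := leafL c6320

theorem c6321 : lp7 (fun s => chk (ent L6321 s)) 0 = true := by decide +kernel
theorem p6321 : PrL chk L6321 := leafL c6321

theorem c6322 : lp7 (fun s => chk (ent L6322 s)) 0 = true := by decide +kernel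
theorem p6322 : PrL chk L6322 := leafL c6322

theorem c6323 : lp7 (fun s => chk (ent L6323 s)) 0 = true := by decide +kernel
theorem p6323 : PrL chk L6323 := leafL c6323

theorem c6324 : lp7 (fun s => chk (ent L6324 s)) 0 = true := by decide +kernel
theorem p6324 : PrL chk L6324 := leafL c6324

theorem c6325 : lp7 (fun s => chk (ent L6325 s)) 0 = true := by decide +kernel
theorem p6325 : PrL chk L6325 := leafL c6325

theorem c6326 : lp7 (fun s => chk (ent L6326 s)) 0 = true := by decide +kernel
theorem p6326 : PrL chk L6326 := leafL c6326

theorem c6327 : lp7 (fun s => chk (ent L6327 s)) 0 = true := by decide +kernel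
theorem p6327 : PrL chk L6327 := leafL c6327

theorem c6328 : lp7 (fun s => chk (ent L6328 s)) 0 = true := by decide +kernel
theorem p6328 : PrL chk L6328 := leafL c6328

theorem c6329 : lp7 (fun s => chk (ent L6329 s)) 0 = true := by decide +kernel
theorem p6329 : PrL chk L6329 := leafL c6329

theorem c6330 : lp7 (fun s => chk (ent L6330 s)) 0 = true := by decide +kernel
theorem p6330 : PrL chk L6330 := leafL c6330

theorem c6331 : lp7 (fun s => chk (ent L6331 s)) 0 = true := by decide +kernel
theorem p6331 : PrL chk L6331 := leafL c6331

theorem c6332 : lp7 (fun s => chk (ent L6332 s)) 0 = true := by decide +kernel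
theorem p6332 : PrL chk L6332 := leafL c6332

theorem c6333 : lp7 (fun s => chk (ent L6333 s)) 0 = true := by decide +kernel
theorem p6333 : PrL chk L6333 := leafL c6333

theorem c6334 : lp7 (fun s => chk (ent L6334 s)) 0 = true := by decide +kernel
theorem p6334 : PrL chk L6334 := leafL c6334

theorem c6335 : lp7 (fun s => chk (ent L6335 s)) 0 = true := by decide +kernel
theorem p6335 : PrL chk L6335 := leafL c6335

theorem c6336 : lp7 (fun s => chk (ent L6336 s)) 0 = true := by decide +kernel
theorem p6336 : PrL chk L6336 := leafL c6336

theorem c6337 : lp7 (fun s => chk (ent L6337 s)) 0 = true := by decide +kernel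
theorem p6337 : PrL chk L6337 := leafL c6337

theorem c6338 : lp7 (fun s => chk (ent L6338 s)) 0 = true := by decide +kernel
theorem p6338 : PrL chk L6338 := leafL c6338

theorem c6339 : lp7 (fun s => chk (ent L6339 s)) 0 = true := by decide +kernel
theorem p6339 : PrL chk L6339 := leafL c6339

theorem c6340 : lp7 (fun s => chk (ent L6340 s)) 0 = true := by decide +kernel
theorem p6340 : PrL chk L6340 := leafL c6340

theorem c6341 : lp7 (fun s => chk (ent L6341 s)) 0 = true := by decide +kernel
theorem p6341 : PrL chk L6341 := leafL c6341

theorem c6342 : lp7 (fun s => chk (ent L6342 s)) 0 = true := by decide +kernel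
theorem p6342 : PrL chk L6342 := leafL c6342

theorem c6343 : lp7 (fun s => chk (ent L6343 s)) 0 = true := by decide +kernel
theorem p6343 : PrL chk L6343 := leafL c6343

theorem c6344 : lp7 (fun s => chk (ent L6344 s)) 0 = true := by decide +kernel
theorem p6344 : PrL chk L6344 := leafL c6344

theorem c6345 : lp7 (fun s => chk (ent L6345 s)) 0 = true := by decide +kernel
theorem p6345 : PrL chk L6345 := leafL c6345

theorem c6346 : lp7 (fun s => chk (ent L6346 s)) 0 = true := by decide +kernel
theorem p6346 : PrL chk L6346 := leafL c6346

theorem c6347 : lp7 (fun s => chk (ent L6347 s)) 0 = true := by decide +kernel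
theorem p6347 : PrL chk L6347 := leafL c6347

theorem c6348 : lp7 (fun s => chk (ent L6348 s)) 0 = true := by decide +kernel
theorem p6348 : PrL chk L6348 := leafL c6348

theorem c6349 : lp7 (fun s => chk (ent L6349 s)) 0 = true := by decide +kernel
theorem p6349 : PrL chk L6349 := leafL c6349

theorem c6350 : lp7 (fun s => chk (ent L6350 s)) 0 = true := by decide +kernel
theorem p6350 : PrL chk L6350 := leafL c6350

theorem c6351 : lp7 (fun s => chk (ent L6351 s)) 0 = true := by decide +kernel
theorem p6351 : PrL chk L6351 := leafL c6351

theorem c6352 : lp7 (fun s => chk (ent L6352 s)) 0 = true := by decide +kernel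
theorem p6352 : PrL chk L6352 := leafL c6352

theorem c6353 : lp7 (fun s => chk (ent L6353 s)) 0 = true := by decide +kernel
theorem p6353 : PrL chk L6353 := leafL c6353

theorem c6354 : lp7 (fun s => chk (ent L6354 s)) 0 = true := by decide +kernel
theorem p6354 : PrL chk L6354 := leafL c6354

theorem c6355 : lp7 (fun s => chk (ent L6355 s)) 0 = true := by decide +kernel
theorem p6355 : PrL chk L6355 := leafL c6355

theorem c6356 : lp7 (fun s => chk (ent L6356 s)) 0 = true := by decide +kernel
theorem p6356 : PrL chk L6356 := leafL c6356

theorem c6357 : lp7 (fun s => chk (ent L6357 s)) 0 = true := by decide +kernel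
theorem p6357 : PrL chk L6357 := leafL c6357

theorem c6358 : lp7 (fun s => chk (ent L6358 s)) 0 = true := by decide +kernel
theorem p6358 : PrL chk L6358 := leafL c6358

theorem c6359 : lp7 (fun s => chk (ent L6359 s)) 0 = true := by decide +kernel
theorem p6359 : PrL chk L6359 := leafL c6359

theorem c6360 : lp7 (fun s => chk (ent L6360 s)) 0 = true := by decide +kernel
theorem p6360 : PrL chk L6360 := leafL c6360

theorem c6361 : lp7 (fun s => chk (ent L6361 s)) 0 = true := by decide +kernel
theorem p6361 : PrL chk L6361 := leafL c6361

theorem c6362 : lp7 (fun s => chk (ent L6362 s)) 0 = true := by decide +kernel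
theorem p6362 : PrL chk L6362 := leafL c6362

theorem c6363 : lp7 (fun s => chk (ent L6363 s)) 0 = true := by decide +kernel
theorem p6363 : PrL chk L6363 := leafL c6363

theorem c6364 : lp7 (fun s => chk (ent L6364 s)) 0 = true := by decide +kernel
theorem p6364 : PrL chk L6364 := leafL c6364

theorem c6365 : lp7 (fun s => chk (ent L6365 s)) 0 = true := by decide +kernel
theorem p6365 : PrL chk L6365 := leafL c6365

theorem c6366 : lp7 (fun s => chk (ent L6366 s)) 0 = true := by decide +kernel
theorem p6366 : PrL chk L6366 := leafL c6366

theorem c6367 : lp7 (fun s => chk (ent L6367 s)) 0 = true := by decide +kernel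
theorem p6367 : PrL chk L6367 := leafL c6367

theorem c6368 : lp7 (fun s => chk (ent L6368 s)) 0 = true := by decide +kernel
theorem p6368 : PrL chk L6368 := leafL c6368

theorem c6369 : lp7 (fun s => chk (ent L6369 s)) 0 = true := by decide +kernel
theorem p6369 : PrL chk L6369 := leafL c6369

theorem c6370 : lp7 (fun s => chk (ent L6370 s)) 0 = true := by decide +kernel
theorem p6370 : PrL chk L6370 := leafL c6370

theorem c6371 : lp7 (fun s => chk (ent L6371 s)) 0 = true := by decide +kernel
theorem p6371 : PrL chk L6371 := leafL c6371

theorem c6372 : lp7 (fun s => chk (ent L6372 s)) 0 = true := by decide +kernel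
theorem p6372 : PrL chk L6372 := leafL c6372

theorem c6373 : lp7 (fun s => chk (ent L6373 s)) 0 = true := by decide +kernel
theorem p6373 : PrL chk L6373 := leafL c6373

theorem c6374 : lp7 (fun s => chk (ent L6374 s)) 0 = true := by decide +kernel
theorem p6374 : PrL chk L6374 := leafL c6374

theorem c6375 : lp7 (fun s => chk (ent L6375 s)) 0 = true := by decide +kernel
theorem p6375 : PrL chk L6375 := leafL c6375

theorem c6376 : lp7 (fun s => chk (ent L6376 s)) 0 = true := by decide +kernel
theorem p6376 : PrL chk L6376 := leafL c6376

theorem c6377 : lp7 (fun s => chk (ent L6377 s)) 0 = true := by decide +kernel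
theorem p6377 : PrL chk L6377 := leafL c6377

theorem c6378 : lp7 (fun s => chk (ent L6378 s)) 0 = true := by decide +kernel
theorem p6378 : PrL chk L6378 := leafL c6378

theorem c6379 : lp7 (fun s => chk (ent L6379 s)) 0 = true := by decide +kernel
theorem p6379 : PrL chk L6379 := leafL c6379

theorem c6380 : lp7 (fun s => chk (ent L6380 s)) 0 = true := by decide +kernel
theorem p6380 : PrL chk L6380 := leafL c6380

theorem c6381 : lp7 (fun s => chk (ent L6381 s)) 0 = true := by decide +kernel
theorem p6381 : PrL chk L6381 := leafL c6381

theorem c6382 : lp7 (fun s => chk (ent L6382 s)) 0 = true := by decide +kernel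
theorem p6382 : PrL chk L6382 := leafL c6382

theorem c6383 : lp7 (fun s => chk (ent L6383 s)) 0 = true := by decide +kernel
theorem p6383 : PrL chk L6383 := leafL c6383

theorem c6384 : lp7 (fun s => chk (ent L6384 s)) 0 = true := by decide +kernel
theorem p6384 : PrL chk L6384 := leafL c6384

theorem c6385 : lp7 (fun s => chk (ent L6385 s)) 0 = true := by decide +kernel
theorem p6385 : PrL chk L6385 := leafL c6385

theorem c6386 : lp7 (fun s => chk (ent L6386 s)) 0 = true := by decide +kernel
theorem p6386 : PrL chk L6386 := leafL c6386

theorem c6387 : lp7 (fun s => chk (ent L6387 s)) 0 = true := by decide +kernel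
theorem p6387 : PrL chk L6387 := leafL c6387

theorem c6388 : lp7 (fun s => chk (ent L6388 s)) 0 = true := by decide +kernel
theorem p6388 : PrL chk L6388 := leafL c6388

theorem c6389 : lp7 (fun s => chk (ent L6389 s)) 0 = true := by decide +kernel
theorem p6389 : PrL chk L6389 := leafL c6389

theorem c6390 : lp7 (fun s => chk (ent L6390 s)) 0 = true := by decide +kernel
theorem p6390 : PrL chk L6390 := leafL c6390

theorem c6391 : lp7 (fun s => chk (ent L6391 s)) 0 = true := by decide +kernel
theorem p6391 : PrL chk L6391 := leafL c6391

theorem c6392 : lp7 (fun s => chk (ent L6392 s)) 0 = true := by decide +kernel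
theorem p6392 : PrL chk L6392 := leafL c6392

theorem c6393 : lp7 (fun s => chk (ent L6393 s)) 0 = true := by decide +kernel
theorem p6393 : PrL chk L6393 := leafL c6393

theorem c6394 : lp7 (fun s => chk (ent L6394 s)) 0 = true := by decide +kernel
theorem p6394 : PrL chk L6394 := leafL c6394

theorem c6395 : lp7 (fun s => chk (ent L6395 s)) 0 = true := by decide +kernel
theorem p6395 : PrL chk L6395 := leafL c6395

theorem c6396 : lp7 (fun s => chk (ent L6396 s)) 0 = true := by decide +kernel
theorem p6396 : PrL chk L6396 := leafL c6396

theorem c6397 : lp7 (fun s => chk (ent L6397 s)) 0 = true := by decide +kernel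
theorem p6397 : PrL chk L6397 := leafL c6397

theorem c6398 : lp7 (fun s => chk (ent L6398 s)) 0 = true := by decide +kernel
theorem p6398 : PrL chk L6398 := leafL c6398

theorem c6399 : lp7 (fun s => chk (ent L6399 s)) 0 = true := by decide +kernel
theorem p6399 : PrL chk L6399 := leafL c6399

end Pool.Agent.ad013a.LA
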