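import Pool.Agent.H.MP_ad013a_pr.h63l.A.T
import Pool.Agent.H.MP_ad013a_pr.h63w.VLoop

namespace Pool.Agent.ad013a.LA

theorem c6400 : lp7 (fun s => chk (ent L6400 s)) 0 = true := by decide +kernel
theorem p6400 : PrL chk L6400 := leafL c6400

theorem c6401 : lp7 (fun s => chk (ent L6401 s)) 0 = true := by decide +kernel
theorem p6401 : PrL chk L6401 := leafL c6401

theorem c6402 : lp7 (fun s => chk (ent L6402 s)) 0 = true := by decide +kernel
theorem p6402 : PrL chk L6402 := leafL c6402

theorem c6403 : lp7 (fun s => chk (ent L6403 s)) 0 = true := by decide +kernel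
theorem p6403 : PrL chk L6403 := leafL c6403

theorem c6404 : lp7 (fun s => chk (ent L6404 s)) 0 = true := by decide +kernel
theorem p6404 : PrL chk L6404 := leafL c6404

theorem c6405 : lp7 (fun s => chk (ent L6405 s)) 0 = true := by decide +kernel
theorem p6405 : PrL chk L6405 := leafL c6405

theorem c6406 : lp7 (fun s => chk (ent L6406 s)) 0 = true := by decide +kernel
theorem p6406 : PrL chk L6406 := leafL c6406

theorem c6407 : lp7 (fun s => chk (ent L6407 s)) 0 = true := by decide +kernel
theorem p6407 : PrL chk L6407 := leafL c6407

theorem c6408 : lp7 (fun s => chk (ent L6408 s)) 0 = true := by decide +kernel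
theorem p6408 : PrL chk L6408 := leafL c6408

theorem c6409 : lp7 (fun s => chk (ent L6409 s)) 0 = true := by decide +kernel
theorem p6409 : PrL chk L6409 := leafL c6409

theorem c6410 : lp7 (fun s => chk (ent L6410 s)) 0 = true := by decide +kernel
theorem p6410 : PrL chk L6410 := leafL c6410

theorem c6411 : lp7 (fun s => chk (ent L6411 s)) 0 = true := by decide +kernel
theorem p6411 : PrL chk L6411 := leafL c6411

theorem c6412 : lp7 (fun s => chk (ent L6412 s)) 0 = true := by decide +kernel
theorem p6412 : PrL chk L6412 := leafL c6412

theorem c6413 : lp7 (fun s => chk (ent L6413 s)) 0 = true := by decide +kernel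
theorem p6413 : PrL chk L6413 := leafL c6413

theorem c6414 : lp7 (fun s => chk (ent L6414 s)) 0 = true := by decide +kernel
theorem p6414 : PrL chk L6414 := leafL c6414

theorem c6415 : lp7 (fun s => chk (ent L6415 s)) 0 = true := by decide +kernel
theorem p6415 : PrL chk L6415 := leafL c6415

theorem c6416 : lp7 (fun s => chk (ent L6416 s)) 0 = true := by decide +kernel
theorem p6416 : PrL chk L6416 := leafL c6416

theorem c6417 : lp7 (fun s => chk (ent L6417 s)) 0 = true := by decide +kernel
theorem p6417 : PrL chk L6417 := leafL c6417

theorem c6418 : lp7 (fun s => chk (ent L6418 s)) 0 = true := by decide +kernel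
theorem p6418 : PrL chk L6418 := leafL c6418

theorem c6419 : lp7 (fun s => chk (ent L6419 s)) 0 = true := by decide +kernel
theorem p6419 : PrL chk L6419 := leafL c6419

theorem c6420 : lp7 (fun s => chk (ent L6420 s)) 0 = true := by decide +kernel
theorem p6420 : PrL chk L6420 := leafL c6420

theorem c6421 : lp7 (fun s => chk (ent L6421 s)) 0 = true := by decide +kernel
theorem p6421 : PrL chk L6421 := leafL c6421

theorem c6422 : lp7 (fun s => chk (ent L6422 s)) 0 = true := by decide +kernel
theorem p6422 : PrL chk L6422 := leafL c6422

theorem c6423 : lp7 (fun s => chk (ent L6423 s)) 0 = true := by decide +kernel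
theorem p6423 : PrL chk L6423 := leafL c6423

theorem c6424 : lp7 (fun s => chk (ent L6424 s)) 0 = true := by decide +kernel
theorem p6424 : PrL chk L6424 := leafL c6424

theorem c6425 : lp7 (fun s => chk (ent L6425 s)) 0 = true := by decide +kernel
theorem p6425 : PrL chk L6425 := leafL c6425

theorem c6426 : lp7 (fun s => chk (ent L6426 s)) 0 = true := by decide +kernel
theorem p6426 : PrL chk L6426 := leafL c6426

theorem c6427 : lp7 (fun s => chk (ent L6427 s)) 0 = true := by decide +kernel
theorem p6427 : PrL chk L6427 := leafL c6427

theorem c6428 : lp7 (fun s => chk (ent L6428 s)) 0 = true := by decide +kernel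
theorem p6428 : PrL chk L6428 := leafL c6428

theorem c6429 : lp7 (fun s => chk (ent L6429 s)) 0 = true := by decide +kernel
theorem p6429 : PrL chk L6429 := leafL c6429

theorem c6430 : lp7 (fun s => chk (ent L6430 s)) 0 = true := by decide +kernel
theorem p6430 : PrL chk L6430 := leafL c6430

theorem c6431 : lp7 (fun s => chk (ent L6431 s)) 0 = true := by decide +kernel
theorem p6431 : PrL chk L6431 := leafL c6431

theorem c6432 : lp7 (fun s => chk (ent L6432 s)) 0 = true := by decide +kernel
theorem p6432 : PrL chk L6432 := leafL c6432

theorem c6433 : lp7 (fun s => chk (ent L6433 s)) 0 = true := by decide +kernel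
theorem p6433 : PrL chk L6433 := leafL c6433

theorem c6434 : lp7 (fun s => chk (ent L6434 s)) 0 = true := by decide +kernel
theorem p6434 : PrL chk L6434 := leafL c6434

theorem c6435 : lp7 (fun s => chk (ent L6435 s)) 0 = true := by decide +kernel
theorem p6435 : PrL chk L6435 := leafL c6435

theorem c6436 : lp7 (fun s => chk (ent L6436 s)) 0 = true := by decide +kernel
theorem p6436 : PrL chk L6436 := leafL c6436

theorem c6437 : lp7 (fun s => chk (ent L6437 s)) 0 = true := by decide +kernel
theorem p6437 : PrL chk L6437 := leafL c6437

theorem c6438 : lp7 (fun s => chk (ent L6438 s)) 0 = true := by decide +kernel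
theorem p6438 : PrL chk L6438 := leafL c6438

theorem c6439 : lp7 (fun s => chk (ent L6439 s)) 0 = true := by decide +kernel
theorem p6439 : PrL chk L6439 := leafL c6439

theorem c6440 : lp7 (fun s => chk (ent L6440 s)) 0 = true := by decide +kernel
theorem p6440 : PrL chk L6440 := leafL c6440

theorem c6441 : lp7 (fun s => chk (ent L6441 s)) 0 = true := by decide +kernel
theorem p6441 : PrL chk L6441 := leafL c6441

theorem c6442 : lp7 (fun s => chk (ent L6442 s)) 0 = true := by decide +kernel
theorem p6442 : PrL chk L6442 := leafL c6442

theorem c6443 : lp7 (fun s => chk (ent L6443 s)) 0 = true := by decide +kernel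
theorem p6443 : PrL chk L6443 := leafL c6443

theorem c6444 : lp7 (fun s => chk (ent L6444 s)) 0 = true := by decide +kernel
theorem p6444 : PrL chk L6444 := leafL c6444

theorem c6445 : lp7 (fun s => chk (ent L6445 s)) 0 = true := by decide +kernel
theorem p6445 : PrL chk L6445 := leafL c6445

theorem c6446 : lp7 (fun s => chk (ent L6446 s)) 0 = true := by decide +kernel
theorem p6446 : PrL chk L6446 := leafL c6446

theorem c6447 : lp7 (fun s => chk (ent L6447 s)) 0 = true := by decide +kernel
theorem p6447 : PrL chk L6447 := leafL c6447

theorem c6448 : lp7 (fun s => chk (ent L6448 s)) 0 = true := by decide +kernel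
theorem p6448 : PrL chk L6448 := leafL c6448

theorem c6449 : lp7 (fun s => chk (ent L6449 s)) 0 = true := by decide +kernel
theorem p6449 : PrL chk L6449 := leafL c6449

theorem c6450 : lp7 (fun s => chk (ent L6450 s)) 0 = true := by decide +kernel
theorem p6450 : PrL chk L6450 := leafL c6450

theorem c6451 : lp7 (fun s => chk (ent L6451 s)) 0 = true := by decide +kernel
theorem p6451 : PrL chk L6451 := leafL c6451

theorem c6452 : lp7 (fun s => chk (ent L6452 s)) 0 = true := by decide +kernel
theorem p6452 : PrL chk L6452 := leafL c6452

theorem c6453 : lp7 (fun s => chk (ent L6453 s)) 0 = true := by decide +kernel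
theorem p6453 : PrL chk L6453 := leafL c6453

theorem c6454 : lp7 (fun s => chk (ent L6454 s)) 0 = true := by decide +kernel
theorem p6454 : PrL chk L6454 := leafL c6454

theorem c6455 : lp7 (fun s => chk (ent L6455 s)) 0 = true := by decide +kernel
theorem p6455 : PrL chk L6455 := leafL c6455

theorem c6456 : lp7 (fun s => chk (ent L6456 s)) 0 = true := by decide +kernel
theorem p6456 : PrL chk L6456 := leafL c6456

theorem c6457 : lp7 (fun s => chk (ent L6457 s)) 0 = true := by decide +kernel
theorem p6457 : PrL chk L6457 := leafL c6457

theorem c6458 : lp7 (fun s => chk (ent L6458 s)) 0 = true := by decide +kernel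
theorem p6458 : PrL chk L6458 := leafL c6458

theorem c6459 : lp7 (fun s => chk (ent L6459 s)) 0 = true := by decide +kernel
theorem p6459 : PrL chk L6459 := leafL c6459

theorem c6460 : lp7 (fun s => chk (ent L6460 s)) 0 = true := by decide +kernel
theorem p6460 : PrL chk L6460 := leafL c6460

theorem c6461 : lp7 (fun s => chk (ent L6461 s)) 0 = true := by decide +kernel
theorem p6461 : PrL chk L6461 := leafL c6461

theorem c6462 : lp7 (fun s => chk (ent L6462 s)) 0 = true := by decide +kernel
theorem p6462 : PrL chk L6462 := leafL c6462

theorem c6463 : lp7 (fun s => chk (ent L6463 s)) 0 = true := by decide +kernel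
theorem p6463 : PrL chk L6463 := leafL c6463

theorem c6464 : lp7 (fun s => chk (ent L6464 s)) 0 = true := by decide +kernel
theorem p6464 : PrL chk L6464 := leafL c6464

theorem c6465 : lp7 (fun s => chk (ent L6465 s)) 0 = true := by decide +kernel
theorem p6465 : PrL chk L6465 := leafL c6465

theorem c6466 : lp7 (fun s => chk (ent L6466 s)) 0 = true := by decide +kernel
theorem p6466 : PrL chk L6466 := leafL c6466

theorem c6467 : lp7 (fun s => chk (ent L6467 s)) 0 = true := by decide +kernel
theorem p6467 : PrL chk L6467 := leafL c6467

theorem c6468 : lp7 (fun s => chk (ent L6468 s)) 0 = true := by decide +kernel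
theorem p6468 : PrL chk L6468 := leafL c6468

theorem c6469 : lp7 (fun s => chk (ent L6469 s)) 0 = true := by decide +kernel
theorem p6469 : PrL chk L6469 := leafL c6469

theorem c6470 : lp7 (fun s => chk (ent L6470 s)) 0 = true := by decide +kernel
theorem p6470 : PrL chk L6470 := leafL c6470

theorem c6471 : lp7 (fun s => chk (ent L6471 s)) 0 = true := by decide +kernel
theorem p6471 : PrL chk L6471 := leafL c6471

theorem c6472 : lp7 (fun s => chk (ent L6472 s)) 0 = true := by decide +kernel
theorem p6472 : PrL chk L6472 := leafL c6472

theorem c6473 : lp7 (fun s => chk (ent L6473 s)) 0 = true := by decide +kernel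
theorem p6473 : PrL chk L6473 := leafL c6473

theorem c6474 : lp7 (fun s => chk (ent L6474 s)) 0 = true := by decide +kernel
theorem p6474 : PrL chk L6474 := leafL c6474

theorem c6475 : lp7 (fun s => chk (ent L6475 s)) 0 = true := by decide +kernel
theorem p6475 : PrL chk L6475 := leafL c6475

theorem c6476 : lp7 (fun s => chk (ent L6476 s)) 0 = true := by decide +kernel
theorem p6476 : PrL chk L6476 := leafL c6476

theorem c6477 : lp7 (fun s => chk (ent L6477 s)) 0 = true := by decide +kernel
theorem p6477 : PrL chk L6477 := leafL c6477

theorem c6478 : lp7 (fun s => chk (ent L6478 s)) 0 = true := by decide +kernel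
theorem p6478 : PrL chk L6478 := leafL c6478

theorem c6479 : lp7 (fun s => chk (ent L6479 s)) 0 = true := by decide +kernel
theorem p6479 : PrL chk L6479 := leafL c6479

theorem c6480 : lp7 (fun s => chk (ent L6480 s)) 0 = true := by decide +kernel
theorem p6480 : PrL chk L6480 := leafL c6480

theorem c6481 : lp7 (fun s => chk (ent L6481 s)) 0 = true := by decide +kernel
theorem p6481 : PrL chk L6481 := leafL c6481

theorem c6482 : lp7 (fun s => chk (ent L6482 s)) 0 = true := by decide +kernel
theorem p6482 : PrL chk L6482 := leafL c6482

theorem c6483 : lp7 (fun s => chk (ent L6483 s)) 0 = true := by decide +kernel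
theorem p6483 : PrL chk L6483 := leafL c6483

theorem c6484 : lp7 (fun s => chk (ent L6484 s)) 0 = true := by decide +kernel
theorem p6484 : PrL chk L6484 := leafL c6484

theorem c6485 : lp7 (fun s => chk (ent L6485 s)) 0 = true := by decide +kernel
theorem p6485 : PrL chk L6485 := leafL c6485

theorem c6486 : lp7 (fun s => chk (ent L6486 s)) 0 = true := by decide +kernel
theorem p6486 : PrL chk L6486 := leafL c6486

theorem c6487 : lp7 (fun s => chk (ent L6487 s)) 0 = true := by decide +kernel
theorem p6487 : PrL chk L6487 := leafL c6487

theorem c6488 : lp7 (fun s => chk (ent L6488 s)) 0 = true := by decide +kernel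
theorem p6488 : PrL chk L6488 := leafL c6488

theorem c6489 : lp7 (fun s => chk (ent L6489 s)) 0 = true := by decide +kernel
theorem p6489 : PrL chk L6489 := leafL c6489

theorem c6490 : lp7 (fun s => chk (ent L6490 s)) 0 = true := by decide +kernel
theorem p6490 : PrL chk L6490 := leafL c6490

theorem c6491 : lp7 (fun s => chk (ent L6491 s)) 0 = true := by decide +kernel
theorem p6491 : PrL chk L6491 := leafL c6491

theorem c6492 : lp7 (fun s => chk (ent L6492 s)) 0 = true := by decide +kernel
theorem p6492 : PrL chk L6492 := leafL c6492

theorem c6493 : lp7 (fun s => chk (ent L6493 s)) 0 = true := by decide +kernel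
theorem p6493 : PrL chk L6493 := leafL c6493

theorem c6494 : lp7 (fun s => chk (ent L6494 s)) 0 = true := by decide +kernel
theorem p6494 : PrL chk L6494 := leafL c6494

theorem c6495 : lp7 (fun s => chk (ent L6495 s)) 0 = true := by decide +kernel
theorem p6495 : PrL chk L6495 := leafL c6495

theorem c6496 : lp7 (fun s => chk (ent L6496 s)) 0 = true := by decide +kernel
theorem p6496 : PrL chk L6496 := leafL c6496

theorem c6497 : lp7 (fun s => chk (ent L6497 s)) 0 = true := by decide +kernel
theorem p6497 : PrL chk L6497 := leafL c6497

theorem c6498 : lp7 (fun s => chk (ent L6498 s)) 0 = true := by decide +kernel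
theorem p6498 : PrL chk L6498 := leafL c6498

theorem c6499 : lp7 (fun s => chk (ent L6499 s)) 0 = true := by decide +kernel
theorem p6499 : PrL chk L6499 := leafL c6499

theorem c6500 : lp7 (fun s => chk (ent L6500 s)) 0 = true := by decide +kernel
theorem p6500 : PrL chk L6500 := leafL c6500

theorem c6501 : lp7 (fun s => chk (ent L6501 s)) 0 = true := by decide +kernel
theorem p6501 : PrL chk L6501 := leafL c6501

theorem c6502 : lp7 (fun s => chk (ent L6502 s)) 0 = true := by decide +kernel
theorem p6502 : PrL chk L6502 := leafL c6502

theorem c6503 : lp7 (fun s => chk (ent L6503 s)) 0 = true := by decide +kernel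
theorem p6503 : PrL chk L6503 := leafL c6503

theorem c6504 : lp7 (fun s => chk (ent L6504 s)) 0 = true := by decide +kernel
theorem p6504 : PrL chk L6504 := leafL c6504

theorem c6505 : lp7 (fun s => chk (ent L6505 s)) 0 = true := by decide +kernel
theorem p6505 : PrL chk L6505 := leafL c6505

theorem c6506 : lp7 (fun s => chk (ent L6506 s)) 0 = true := by decide +kernel
theorem p6506 : PrL chk L6506 := leafL c6506

theorem c6507 : lp7 (fun s => chk (ent L6507 s)) 0 = true := by decide +kernel
theorem p6507 : PrL chk L6507 := leafL c6507

theorem c6508 : lp7 (fun s => chk (ent L6508 s)) 0 = true := by decide +kernel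
theorem p6508 : PrL chk L6508 := leafL c6508

theorem c6509 : lp7 (fun s => chk (ent L6509 s)) 0 = true := by decide +kernel
theorem p6509 : PrL chk L6509 := leafL c6509

theorem c6510 : lp7 (fun s => chk (ent L6510 s)) 0 = true := by decide +kernel
theorem p6510 : PrL chk L6510 := leafL c6510

theorem c6511 : lp7 (fun s => chk (ent L6511 s)) 0 = true := by decide +kernel
theorem p6511 : PrL chk L6511 := leafL c6511

theorem c6512 : lp7 (fun s => chk (ent L6512 s)) 0 = true := by decide +kernel
theorem p6512 : PrL chk L6512 := leafL c6512

theorem c6513 : lp7 (fun s => chk (ent L6513 s)) 0 = true := by decide +kernel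
theorem p6513 : PrL chk L6513 := leafL c6513

theorem c6514 : lp7 (fun s => chk (ent L6514 s)) 0 = true := by decide +kernel
theorem p6514 : PrL chk L6514 := leafL c6514

theorem c6515 : lp7 (fun s => chk (ent L6515 s)) 0 = true := by decide +kernel
theorem p6515 : PrL chk L6515 := leafL c6515

theorem c6516 : lp7 (fun s => chk (ent L6516 s)) 0 = true := by decide +kernel
theorem p6516 : PrL chk L6516 := leafL c6516

theorem c6517 : lp7 (fun s => chk (ent L6517 s)) 0 = true := by decide +kernel
theorem p6517 : PrL chk L6517 := leafL c6517

theorem c6518 : lp7 (fun s => chk (ent L6518 s)) 0 = true := by decide +kernel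
theorem p6518 : PrL chk L6518 := leafL c6518

theorem c6519 : lp7 (fun s => chk (ent L6519 s)) 0 = true := by decide +kernel
theorem p6519 : PrL chk L6519 := leafL c6519

theorem c6520 : lp7 (fun s => chk (ent L6520 s)) 0 = true := by decide +kernel
theorem p6520 : PrL chk L6520 := leafL c6520

theorem c6521 : lp7 (fun s => chk (ent L6521 s)) 0 = true := by decide +kernel
theorem p6521 : PrL chk L6521 := leafL c6521

theorem c6522 : lp7 (fun s => chk (ent L6522 s)) 0 = true := by decide +kernel
theorem p6522 : PrL chk L6522 := leafL c6522

theorem c6523 : lp7 (fun s => chk (ent L6523 s)) 0 = true := by decide +kernel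
theorem p6523 : PrL chk L6523 := leafL c6523

theorem c6524 : lp7 (fun s => chk (ent L6524 s)) 0 = true := by decide +kernel
theorem p6524 : PrL chk L6524 := leafL c6524

theorem c6525 : lp7 (fun s => chk (ent L6525 s)) 0 = true := by decide +kernel
theorem p6525 : PrL chk L6525 := leafL c6525

theorem c6526 : lp7 (fun s => chk (ent L6526 s)) 0 = true := by decide +kernel
theorem p6526 : PrL chk L6526 := leafL c6526

theorem c6527 : lp7 (fun s => chk (ent L6527 s)) 0 = true := by decide +kernel
theorem p6527 : PrL chk L6527 := leafL c6527

theorem c6528 : lp7 (fun s => chk (ent L6528 s)) 0 = true := by decide +kernel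
theorem p6528 : PrL chk L6528 := leafL c6528

theorem c6529 : lp7 (fun s => chk (ent L6529 s)) 0 = true := by decide +kernel
theorem p6529 : PrL chk L6529 := leafL c6529

theorem c6530 : lp7 (fun s => chk (ent L6530 s)) 0 = true := by decide +kernel
theorem p6530 : PrL chk L6530 := leafL c6530

theorem c6531 : lp7 (fun s => chk (ent L6531 s)) 0 = true := by decide +kernel
theorem p6531 : PrL chk L6531 := leafL c6531

theorem c6532 : lp7 (fun s => chk (ent L6532 s)) 0 = true := by decide +kernel
theorem p6532 : PrL chk L6532 := leafL c6532

theorem c6533 : lp7 (fun s => chk (ent L6533 s)) 0 = true := by decide +kernel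
theorem p6533 : PrL chk L6533 := leafL c6533

theorem c6534 : lp7 (fun s => chk (ent L6534 s)) 0 = true := by decide +kernel
theorem p6534 : PrL chk L6534 := leafL c6534

theorem c6535 : lp7 (fun s => chk (ent L6535 s)) 0 = true := by decide +kernel
theorem p6535 : PrL chk L6535 := leafL c6535

theorem c6536 : lp7 (fun s => chk (ent L6536 s)) 0 = true := by decide +kernel
theorem p6536 : PrL chk L6536 := leafL c6536

theorem c6537 : lp7 (fun s => chk (ent L6537 s)) 0 = true := by decide +kernel
theorem p6537 : PrL chk L6537 := leafL c6537

theorem c6538 : lp7 (fun s => chk (ent L6538 s)) 0 = true := by decide +kernel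
theorem p6538 : PrL chk L6538 := leafL c6538

theorem c6539 : lp7 (fun s => chk (ent L6539 s)) 0 = true := by decide +kernel
theorem p6539 : PrL chk L6539 := leafL c6539

theorem c6540 : lp7 (fun s => chk (ent L6540 s)) 0 = true := by decide +kernel
theorem p6540 : PrL chk L6540 := leafL c6540

theorem c6541 : lp7 (fun s => chk (ent L6541 s)) 0 = true := by decide +kernel
theorem p6541 : PrL chk L6541 := leafL c6541

theorem c6542 : lp7 (fun s => chk (ent L6542 s)) 0 = true := by decide +kernel
theorem p6542 : PrL chk L6542 := leafL c6542

theorem c6543 : lp7 (fun s => chk (ent L6543 s)) 0 = true := by decide +kernel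
theorem p6543 : PrL chk L6543 := leafL c6543

theorem c6544 : lp7 (fun s => chk (ent L6544 s)) 0 = true := by decide +kernel
theorem p6544 : PrL chk L6544 := leafL c6544

theorem c6545 : lp7 (fun s => chk (ent L6545 s)) 0 = true := by decide +kernel
theorem p6545 : PrL chk L6545 := leafL c6545

theorem c6546 : lp7 (fun s => chk (ent L6546 s)) 0 = true := by decide +kernel
theorem p6546 : PrL chk L6546 := leafL c6546

theorem c6547 : lp7 (fun s => chk (ent L6547 s)) 0 = true := by decide +kernel
theorem p6547 : PrL chk L6547 := leafL c6547

theorem c6548 : lp7 (fun s => chk (ent L6548 s)) 0 = true := by decide +kernel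
theorem p6548 : PrL chk L6548 := leafL c6548

theorem c6549 : lp7 (fun s => chk (ent L6549 s)) 0 = true := by decide +kernel
theorem p6549 : PrL chk L6549 := leafL c6549

theorem c6550 : lp7 (fun s => chk (ent L6550 s)) 0 = true := by decide +kernel
theorem p6550 : PrL chk L6550 := leafL c6550

theorem c6551 : lp7 (fun s => chk (ent L6551 s)) 0 = true := by decide +kernel
theorem p6551 : PrL chk L6551 := leafL c6551

theorem c6552 : lp7 (fun s => chk (ent L6552 s)) 0 = true := by decide +kernel
theorem p6552 : PrL chk L6552 := leafL c6552

theorem c6553 : lp7 (fun s => chk (ent L6553 s)) 0 = true := by decide +kernel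
theorem p6553 : PrL chk L6553 := leafL c6553

theorem c6554 : lp7 (fun s => chk (ent L6554 s)) 0 = true := by decide +kernel
theorem p6554 : PrL chk L6554 := leafL c6554

theorem c6555 : lp7 (fun s => chk (ent L6555 s)) 0 = true := by decide +kernel
theorem p6555 : PrL chk L6555 := leafL c6555

theorem c6556 : lp7 (fun s => chk (ent L6556 s)) 0 = true := by decide +kernel
theorem p6556 : PrL chk L6556 := leafL c6556

theorem c6557 : lp7 (fun s => chk (ent L6557 s)) 0 = true := by decide +kernel
theorem p6557 : PrL chk L6557 := leafL c6557

theorem c6558 : lp7 (fun s => chk (ent L6558 s)) 0 = true := by decide +kernel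
theorem p6558 : PrL chk L6558 := leafL c6558

theorem c6559 : lp7 (fun s => chk (ent L6559 s)) 0 = true := by decide +kernel
theorem p6559 : PrL chk L6559 := leafL c6559

theorem c6560 : lp7 (fun s => chk (ent L6560 s)) 0 = true := by decide +kernel
theorem p6560 : PrL chk L6560 := leafL c6560

theorem c6561 : lp7 (fun s => chk (ent L6561 s)) 0 = true := by decide +kernel
theorem p6561 : PrL chk L6561 := leafL c6561

theorem c6562 : lp7 (fun s => chk (ent L6562 s)) 0 = true := by decide +kernel
theorem p6562 : PrL chk L6562 := leafL c6562

theorem c6563 : lp7 (fun s => chk (ent L6563 s)) 0 = true := by decide +kernel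
theorem p6563 : PrL chk L6563 := leafL c6563

theorem c6564 : lp7 (fun s => chk (ent L6564 s)) 0 = true := by decide +kernel
theorem p6564 : PrL chk L6564 := leafL c6564

theorem c6565 : lp7 (fun s => chk (ent L6565 s)) 0 = true := by decide +kernel
theorem p6565 : PrL chk L6565 := leafL c6565

theorem c6566 : lp7 (fun s => chk (ent L6566 s)) 0 = true := by decide +kernel
theorem p6566 : PrL chk L6566 := leafL c6566

theorem c6567 : lp7 (fun s => chk (ent L6567 s)) 0 = true := by decide +kernel
theorem p6567 : PrL chk L6567 := leafL c6567

theorem c6568 : lp7 (fun s => chk (ent L6568 s)) 0 = true := by decide +kernel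
theorem p6568 : PrL chk L6568 := leafL c6568

theorem c6569 : lp7 (fun s => chk (ent L6569 s)) 0 = true := by decide +kernel
theorem p6569 : PrL chk L6569 := leafL c6569

theorem c6570 : lp7 (fun s => chk (ent L6570 s)) 0 = true := by decide +kernel
theorem p6570 : PrL chk L6570 := leafL c6570

theorem c6571 : lp7 (fun s => chk (ent L6571 s)) 0 = true := by decide +kernel
theorem p6571 : PrL chk L6571 := leafL c6571

theorem c6572 : lp7 (fun s => chk (ent L6572 s)) 0 = true := by decide +kernel
theorem p6572 : PrL chk L6572 := leafL c6572

theorem c6573 : lp7 (fun s => chk (ent L6573 s)) 0 = true := by decide +kernel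
theorem p6573 : PrL chk L6573 := leafL c6573

theorem c6574 : lp7 (fun s => chk (ent L6574 s)) 0 = true := by decide +kernel
theorem p6574 : PrL chk L6574 := leafL c6574

theorem c6575 : lp7 (fun s => chk (ent L6575 s)) 0 = true := by decide +kernel
theorem p6575 : PrL chk L6575 := leafL c6575

theorem c6576 : lp7 (fun s => chk (ent L6576 s)) 0 = true := by decide +kernel
theorem p6576 : PrL chk L6576 := leafL c6576

theorem c6577 : lp7 (fun s => chk (ent L6577 s)) 0 = true := by decide +kernel
theorem p6577 : PrL chk L6577 := leafL c6577

theorem c6578 : lp7 (fun s => chk (ent L6578 s)) 0 = true := by decide +kernel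
theorem p6578 : PrL chk L6578 := leafL c6578

theorem c6579 : lp7 (fun s => chk (ent L6579 s)) 0 = true := by decide +kernel
theorem p6579 : PrL chk L6579 := leafL c6579

theorem c6580 : lp7 (fun s => chk (ent L6580 s)) 0 = true := by decide +kernel
theorem p6580 : PrL chk L6580 := leafL c6580

theorem c6581 : lp7 (fun s => chk (ent L6581 s)) 0 = true := by decide +kernel
theorem p6581 : PrL chk L6581 := leafL c6581

theorem c6582 : lp7 (fun s => chk (ent L6582 s)) 0 = true := by decide +kernel
theorem p6582 : PrL chk L6582 := leafL c6582

theorem c6583 : lp7 (fun s => chk (ent L6583 s)) 0 = true := by decide +kernel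
theorem p6583 : PrL chk L6583 := leafL c6583

theorem c6584 : lp7 (fun s => chk (ent L6584 s)) 0 = true := by decide +kernel
theorem p6584 : PrL chk L6584 := leafL c6584

theorem c6585 : lp7 (fun s => chk (ent L6585 s)) 0 = true := by decide +kernel
theorem p6585 : PrL chk L6585 := leafL c6585

theorem c6586 : lp7 (fun s => chk (ent L6586 s)) 0 = true := by decide +kernel
theorem p6586 : PrL chk L6586 := leafL c6586

theorem c6587 : lp7 (fun s => chk (ent L6587 s)) 0 = true := by decide +kernel
theorem p6587 : PrL chk L6587 := leafL c6587

theorem c6588 : lp7 (fun s => chk (ent L6588 s)) 0 = true := by decide +kernel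
theorem p6588 : PrL chk L6588 := leafL c6588

theorem c6589 : lp7 (fun s => chk (ent L6589 s)) 0 = true := by decide +kernel
theorem p6589 : PrL chk L6589 := leafL c6589

theorem c6590 : lp7 (fun s => chk (ent L6590 s)) 0 = true := by decide +kernel
theorem p6590 : PrL chk L6590 := leafL c6590

theorem c6591 : lp7 (fun s => chk (ent L6591 s)) 0 = true := by decide +kernel
theorem p6591 : PrL chk L6591 := leafL c6591

theorem c6592 : lp7 (fun s => chk (ent L6592 s)) 0 = true := by decide +kernel
theorem p6592 : PrL chk L6592 := leafL c6592

theorem c6593 : lp7 (fun s => chk (ent L6593 s)) 0 = true := by decide +kernel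
theorem p6593 : PrL chk L6593 := leafL c6593

theorem c6594 : lp7 (fun s => chk (ent L6594 s)) 0 = true := by decide +kernel
theorem p6594 : PrL chk L6594 := leafL c6594

theorem c6595 : lp7 (fun s => chk (ent L6595 s)) 0 = true := by decide +kernel
theorem p6595 : PrL chk L6595 := leafL c6595

theorem c6596 : lp7 (fun s => chk (ent L6596 s)) 0 = true := by decide +kernel
theorem p6596 : PrL chk L6596 := leafL c6596

theorem c6597 : lp7 (fun s => chk (ent L6597 s)) 0 = true := by decide +kernel
theorem p6597 : PrL chk L6597 := leafL c6597

theorem c6598 : lp7 (fun s => chk (ent L6598 s)) 0 = true := by decide +kernel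
theorem p6598 : PrL chk L6598 := leafL c6598

theorem c6599 : lp7 (fun s => chk (ent L6599 s)) 0 = true := by decide +kernel
theorem p6599 : PrL chk L6599 := leafL c6599

theorem c6600 : lp7 (fun s => chk (ent L6600 s)) 0 = true := by decide +kernel
theorem p6600 : PrL chk L6600 := leafL c6600

theorem c6601 : lp7 (fun s => chk (ent L6601 s)) 0 = true := by decide +kernel
theorem p6601 : PrL chk L6601 := leafL c6601

theorem c6602 : lp7 (fun s => chk (ent L6602 s)) 0 = true := by decide +kernel
theorem p6602 : PrL chk L6602 := leafL c6602

theorem c6603 : lp7 (fun s => chk (ent L6603 s)) 0 = true := by decide +kernel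
theorem p6603 : PrL chk L6603 := leafL c6603

theorem c6604 : lp7 (fun s => chk (ent L6604 s)) 0 = true := by decide +kernel
theorem p6604 : PrL chk L6604 := leafL c6604

theorem c6605 : lp7 (fun s => chk (ent L6605 s)) 0 = true := by decide +kernel
theorem p6605 : PrL chk L6605 := leafL c6605

theorem c6606 : lp7 (fun s => chk (ent L6606 s)) 0 = true := by decide +kernel
theorem p6606 : PrL chk L6606 := leafL c6606

theorem c6607 : lp7 (fun s => chk (ent L6607 s)) 0 = true := by decide +kernel
theorem p6607 : PrL chk L6607 := leafL c6607

theorem c6608 : lp7 (fun s => chk (ent L6608 s)) 0 = true := by decide +kernel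
theorem p6608 : PrL chk L6608 := leafL c6608

theorem c6609 : lp7 (fun s => chk (ent L6609 s)) 0 = true := by decide +kernel
theorem p6609 : PrL chk L6609 := leafL c6609

theorem c6610 : lp7 (fun s => chk (ent L6610 s)) 0 = true := by decide +kernel
theorem p6610 : PrL chk L6610 := leafL c6610

theorem c6611 : lp7 (fun s => chk (ent L6611 s)) 0 = true := by decide +kernel
theorem p6611 : PrL chk L6611 := leafL c6611

theorem c6612 : lp7 (fun s => chk (ent L6612 s)) 0 = true := by decide +kernel
theorem p6612 : PrL chk L6612 := leafL c6612

theorem c6613 : lp7 (fun s => chk (ent L6613 s)) 0 = true := by decide +kernel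
theorem p6613 : PrL chk L6613 := leafL c6613

theorem c6614 : lp7 (fun s => chk (ent L6614 s)) 0 = true := by decide +kernel
theorem p6614 : PrL chk L6614 := leafL c6614

theorem c6615 : lp7 (fun s => chk (ent L6615 s)) 0 = true := by decide +kernel
theorem p6615 : PrL chk L6615 := leafL c6615

theorem c6616 : lp7 (fun s => chk (ent L6616 s)) 0 = true := by decide +kernel
theorem p6616 : PrL chk L6616 := leafL c6616

theorem c6617 : lp7 (fun s => chk (ent L6617 s)) 0 = true := by decide +kernel
theorem p6617 : PrL chk L6617 := leafL c6617

theorem c6618 : lp7 (fun s => chk (ent L6618 s)) 0 = true := by decide +kernel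
theorem p6618 : PrL chk L6618 := leafL c6618

theorem c6619 : lp7 (fun s => chk (ent L6619 s)) 0 = true := by decide +kernel
theorem p6619 : PrL chk L6619 := leafL c6619

theorem c6620 : lp7 (fun s => chk (ent L6620 s)) 0 = true := by decide +kernel
theorem p6620 : PrL chk L6620 := leafL c6620

theorem c6621 : lp7 (fun s => chk (ent L6621 s)) 0 = true := by decide +kernel
theorem p6621 : PrL chk L6621 := leafL c6621

theorem c6622 : lp7 (fun s => chk (ent L6622 s)) 0 = true := by decide +kernel
theorem p6622 : PrL chk L6622 := leafL c6622

theorem c6623 : lp7 (fun s => chk (ent L6623 s)) 0 = true := by decide +kernel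
theorem p6623 : PrL chk L6623 := leafL c6623

theorem c6624 : lp7 (fun s => chk (ent L6624 s)) 0 = true := by decide +kernel
theorem p6624 : PrL chk L6624 := leafL c6624

theorem c6625 : lp7 (fun s => chk (ent L6625 s)) 0 = true := by decide +kernel
theorem p6625 : PrL chk L6625 := leafL c6625

theorem c6626 : lp7 (fun s => chk (ent L6626 s)) 0 = true := by decide +kernel
theorem p6626 : PrL chk L6626 := leafL c6626

theorem c6627 : lp7 (fun s => chk (ent L6627 s)) 0 = true := by decide +kernel
theorem p6627 : PrL chk L6627 := leafL c6627

theorem c6628 : lp7 (fun s => chk (ent L6628 s)) 0 = true := by decide +kernel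
theorem p6628 : PrL chk L6628 := leafL c6628

theorem c6629 : lp7 (fun s => chk (ent L6629 s)) 0 = true := by decide +kernel
theorem p6629 : PrL chk L6629 := leafL c6629

theorem c6630 : lp7 (fun s => chk (ent L6630 s)) 0 = true := by decide +kernel
theorem p6630 : PrL chk L6630 := leafL c6630

theorem c6631 : lp7 (fun s => chk (ent L6631 s)) 0 = true := by decide +kernel
theorem p6631 : PrL chk L6631 := leafL c6631

theorem c6632 : lp7 (fun s => chk (ent L6632 s)) 0 = true := by decide +kernel
theorem p6632 : PrL chk L6632 := leafL c6632

theorem c6633 : lp7 (fun s => chk (ent L6633 s)) 0 = true := by decide +kernel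
theorem p6633 : PrL chk L6633 := leafL c6633

theorem c6634 : lp7 (fun s => chk (ent L6634 s)) 0 = true := by decide +kernel
theorem p6634 : PrL chk L6634 := leafL c6634

theorem c6635 : lp7 (fun s => chk (ent L6635 s)) 0 = true := by decide +kernel
theorem p6635 : PrL chk L6635 := leafL c6635

theorem c6636 : lp7 (fun s => chk (ent L6636 s)) 0 = true := by decide +kernel
theorem p6636 : PrL chk L6636 := leafL c6636

theorem c6637 : lp7 (fun s => chk (ent L6637 s)) 0 = true := by decide +kernel
theorem p6637 : PrL chk L6637 := leafL c6637

theorem c6638 : lp7 (fun s => chk (ent L6638 s)) 0 = true := by decide +kernel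
theorem p6638 : PrL chk L6638 := leafL c6638

theorem c6639 : lp7 (fun s => chk (ent L6639 s)) 0 = true := by decide +kernel
theorem p6639 : PrL chk L6639 := leafL c6639

theorem c6640 : lp7 (fun s => chk (ent L6640 s)) 0 = true := by decide +kernel
theorem p6640 : PrL chk L6640 := leafL c6640

theorem c6641 : lp7 (fun s => chk (ent L6641 s)) 0 = true := by decide +kernel
theorem p6641 : PrL chk L6641 := leafL c6641

theorem c6642 : lp7 (fun s => chk (ent L6642 s)) 0 = true := by decide +kernel
theorem p6642 : PrL chk L6642 := leafL c6642

theorem c6643 : lp7 (fun s => chk (ent L6643 s)) 0 = true := by decide +kernel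
theorem p6643 : PrL chk L6643 := leafL c6643

theorem c6644 : lp7 (fun s => chk (ent L6644 s)) 0 = true := by decide +kernel
theorem p6644 : PrL chk L6644 := leafL c6644

theorem c6645 : lp7 (fun s => chk (ent L6645 s)) 0 = true := by decide +kernel
theorem p6645 : PrL chk L6645 := leafL c6645

theorem c6646 : lp7 (fun s => chk (ent L6646 s)) 0 = true := by decide +kernel
theorem p6646 : PrL chk L6646 := leafL c6646

theorem c6647 : lp7 (fun s => chk (ent L6647 s)) 0 = true := by decide +kernel
theorem p6647 : PrL chk L6647 := leafL c6647

theorem c6648 : lp7 (fun s => chk (ent L6648 s)) 0 = true := by decide +kernel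
theorem p6648 : PrL chk L6648 := leafL c6648

theorem c6649 : lp7 (fun s => chk (ent L6649 s)) 0 = true := by decide +kernel
theorem p6649 : PrL chk L6649 := leafL c6649

theorem c6650 : lp7 (fun s => chk (ent L6650 s)) 0 = true := by decide +kernel
theorem p6650 : PrL chk L6650 := leafL c6650

theorem c6651 : lp7 (fun s => chk (ent L6651 s)) 0 = true := by decide +kernel
theorem p6651 : PrL chk L6651 := leafL c6651

theorem c6652 : lp7 (fun s => chk (ent L6652 s)) 0 = true := by decide +kernel
theorem p6652 : PrL chk L6652 := leafL c6652

theorem c6653 : lp7 (fun s => chk (ent L6653 s)) 0 = true := by decide +kernel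
theorem p6653 : PrL chk L6653 := leafL c6653

theorem c6654 : lp7 (fun s => chk (ent L6654 s)) 0 = true := by decide +kernel
theorem p6654 : PrL chk L6654 := leafL c6654

theorem c6655 : lp7 (fun s => chk (ent L6655 s)) 0 = true := by decide +kernel
theorem p6655 : PrL chk L6655 := leafL c6655

end Pool.Agent.ad013a.LA
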