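import Pool.Agent.H.MP_ad013a_pr.h63l.A.T
import Pool.Agent.H.MP_ad013a_pr.h63w.VLoop

namespace Pool.Agent.ad013a.LA

theorem c6656 : lp7 (fun s => chk (ent L6656 s)) 0 = true := by decide +kernel
theorem p6656 : PrL chk L6656 := leafL c6656

theorem c6657 : lp7 (fun s => chk (ent L6657 s)) 0 = true := by decide +kernel
theorem p6657 : PrL chk L6657 := leafL c6657

theorem c6658 : lp7 (fun s => chk (ent L6658 s)) 0 = true := by decide +kernel
theorem p6658 : PrL chk L6658 := leafL c6658

theorem c6659 : lp7 (fun s => chk (ent L6659 s)) 0 = true := by decide +kernel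
theorem p6659 : PrL chk L6659 := leafL c6659

theorem c6660 : lp7 (fun s => chk (ent L6660 s)) 0 = true := by decide +kernel
theorem p6660 : PrL chk L6660 := leafL c6660

theorem c6661 : lp7 (fun s => chk (ent L6661 s)) 0 = true := by decide +kernel
theorem p6661 : PrL chk L6661 := leafL c6661

theorem c6662 : lp7 (fun s => chk (ent L6662 s)) 0 = true := by decide +kernel
theorem p6662 : PrL chk L6662 := leafL c6662

theorem c6663 : lp7 (fun s => chk (ent L6663 s)) 0 = true := by decide +kernel
theorem p6663 : PrL chk L6663 := leafL c6663

theorem c6664 : lp7 (fun s => chk (ent L6664 s)) 0 = true := by decide +kernel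
theorem p6664 : PrL chk L6664 := leafL c6664

theorem c6665 : lp7 (fun s => chk (ent L6665 s)) 0 = true := by decide +kernel
theorem p6665 : PrL chk L6665 := leafL c6665

theorem c6666 : lp7 (fun s => chk (ent L6666 s)) 0 = true := by decide +kernel
theorem p6666 : PrL chk L6666 := leafL c6666

theorem c6667 : lp7 (fun s => chk (ent L6667 s)) 0 = true := by decide +kernel
theorem p6667 : PrL chk L6667 := leafL c6667

theorem c6668 : lp7 (fun s => chk (ent L6668 s)) 0 = true := by decide +kernel
theorem p6668 : PrL chk L6668 := leafL c6668

theorem c6669 : lp7 (fun s => chk (ent L6669 s)) 0 = true := by decide +kernel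
theorem p6669 : PrL chk L6669 := leafL c6669

theorem c6670 : lp7 (fun s => chk (ent L6670 s)) 0 = true := by decide +kernel
theorem p6670 : PrL chk L6670 := leafL c6670

theorem c6671 : lp7 (fun s => chk (ent L6671 s)) 0 = true := by decide +kernel
theorem p6671 : PrL chk L6671 := leafL c6671

theorem c6672 : lp7 (fun s => chk (ent L6672 s)) 0 = true := by decide +kernel
theorem p6672 : PrL chk L6672 := leafL c6672

theorem c6673 : lp7 (fun s => chk (ent L6673 s)) 0 = true := by decide +kernel
theorem p6673 : PrL chk L6673 := leafL c6673

theorem c6674 : lp7 (fun s => chk (ent L6674 s)) 0 = true := by decide +kernel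
theorem p6674 : PrL chk L6674 := leafL c6674

theorem c6675 : lp7 (fun s => chk (ent L6675 s)) 0 = true := by decide +kernel
theorem p6675 : PrL chk L6675 := leafL c6675

theorem c6676 : lp7 (fun s => chk (ent L6676 s)) 0 = true := by decide +kernel
theorem p6676 : PrL chk L6676 := leafL c6676

theorem c6677 : lp7 (fun s => chk (ent L6677 s)) 0 = true := by decide +kernel
theorem p6677 : PrL chk L6677 := leafL c6677

theorem c6678 : lp7 (fun s => chk (ent L6678 s)) 0 = true := by decide +kernel
theorem p6678 : PrL chk L6678 := leafL c6678

theorem c6679 : lp7 (fun s => chk (ent L6679 s)) 0 = true := by decide +kernel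
theorem p6679 : PrL chk L6679 := leafL c6679

theorem c6680 : lp7 (fun s => chk (ent L6680 s)) 0 = true := by decide +kernel
theorem p6680 : PrL chk L6680 := leafL c6680

theorem c6681 : lp7 (fun s => chk (ent L6681 s)) 0 = true := by decide +kernel
theorem p6681 : PrL chk L6681 := leafL c6681

theorem c6682 : lp7 (fun s => chk (ent L6682 s)) 0 = true := by decide +kernel
theorem p6682 : PrL chk L6682 := leafL c6682

theorem c6683 : lp7 (fun s => chk (ent L6683 s)) 0 = true := by decide +kernel
theorem p6683 : PrL chk L6683 := leafL c6683

theorem c6684 : lp7 (fun s => chk (ent L6684 s)) 0 = true := by decide +kernel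
theorem p6684 : PrL chk L6684 := leafL c6684

theorem c6685 : lp7 (fun s => chk (ent L6685 s)) 0 = true := by decide +kernel
theorem p6685 : PrL chk L6685 := leafL c6685

theorem c6686 : lp7 (fun s => chk (ent L6686 s)) 0 = true := by decide +kernel
theorem p6686 : PrL chk L6686 := leafL c6686

theorem c6687 : lp7 (fun s => chk (ent L6687 s)) 0 = true := by decide +kernel
theorem p6687 : PrL chk L6687 := leafL c6687

theorem c6688 : lp7 (fun s => chk (ent L6688 s)) 0 = true := by decide +kernel
theorem p6688 : PrL chk L6688 := leafL c6688

theorem c6689 : lp7 (fun s => chk (ent L6689 s)) 0 = true := by decide +kernel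
theorem p6689 : PrL chk L6689 := leafL c6689

theorem c6690 : lp7 (fun s => chk (ent L6690 s)) 0 = true := by decide +kernel
theorem p6690 : PrL chk L6690 := leafL c6690

theorem c6691 : lp7 (fun s => chk (ent L6691 s)) 0 = true := by decide +kernel
theorem p6691 : PrL chk L6691 := leafL c6691

theorem c6692 : lp7 (fun s => chk (ent L6692 s)) 0 = true := by decide +kernel
theorem p6692 : PrL chk L6692 := leafL c6692

theorem c6693 : lp7 (fun s => chk (ent L6693 s)) 0 = true := by decide +kernel
theorem p6693 : PrL chk L6693 := leafL c6693

theorem c6694 : lp7 (fun s => chk (ent L6694 s)) 0 = true := by decide +kernel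
theorem p6694 : PrL chk L6694 := leafL c6694

theorem c6695 : lp7 (fun s => chk (ent L6695 s)) 0 = true := by decide +kernel
theorem p6695 : PrL chk L6695 := leafL c6695

theorem c6696 : lp7 (fun s => chk (ent L6696 s)) 0 = true := by decide +kernel
theorem p6696 : PrL chk L6696 := leafL c6696

theorem c6697 : lp7 (fun s => chk (ent L6697 s)) 0 = true := by decide +kernel
theorem p6697 : PrL chk L6697 := leafL c6697

theorem c6698 : lp7 (fun s => chk (ent L6698 s)) 0 = true := by decide +kernel
theorem p6698 : PrL chk L6698 := leafL c6698

theorem c6699 : lp7 (fun s => chk (ent L6699 s)) 0 = true := by decide +kernel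
theorem p6699 : PrL chk L6699 := leafL c6699

theorem c6700 : lp7 (fun s => chk (ent L6700 s)) 0 = true := by decide +kernel
theorem p6700 : PrL chk L6700 := leafL c6700

theorem c6701 : lp7 (fun s => chk (ent L6701 s)) 0 = true := by decide +kernel
theorem p6701 : PrL chk L6701 := leafL c6701

theorem c6702 : lp7 (fun s => chk (ent L6702 s)) 0 = true := by decide +kernel
theorem p6702 : PrL chk L6702 := leafL c6702

theorem c6703 : lp7 (fun s => chk (ent L6703 s)) 0 = true := by decide +kernel
theorem p6703 : PrL chk L6703 := leafL c6703

theorem c6704 : lp7 (fun s => chk (ent L6704 s)) 0 = true := by decide +kernel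
theorem p6704 : PrL chk L6704 := leafL c6704

theorem c6705 : lp7 (fun s => chk (ent L6705 s)) 0 = true := by decide +kernel
theorem p6705 : PrL chk L6705 := leafL c6705

theorem c6706 : lp7 (fun s => chk (ent L6706 s)) 0 = true := by decide +kernel
theorem p6706 : PrL chk L6706 := leafL c6706

theorem c6707 : lp7 (fun s => chk (ent L6707 s)) 0 = true := by decide +kernel
theorem p6707 : PrL chk L6707 := leafL c6707

theorem c6708 : lp7 (fun s => chk (ent L6708 s)) 0 = true := by decide +kernel
theorem p6708 : PrL chk L6708 := leafL c6708

theorem c6709 : lp7 (fun s => chk (ent L6709 s)) 0 = true := by decide +kernel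
theorem p6709 : PrL chk L6709 := leafL c6709

theorem c6710 : lp7 (fun s => chk (ent L6710 s)) 0 = true := by decide +kernel
theorem p6710 : PrL chk L6710 := leafL c6710

theorem c6711 : lp7 (fun s => chk (ent L6711 s)) 0 = true := by decide +kernel
theorem p6711 : PrL chk L6711 := leafL c6711

theorem c6712 : lp7 (fun s => chk (ent L6712 s)) 0 = true := by decide +kernel
theorem p6712 : PrL chk L6712 := leafL c6712

theorem c6713 : lp7 (fun s => chk (ent L6713 s)) 0 = true := by decide +kernel
theorem p6713 : PrL chk L6713 := leafL c6713

theorem c6714 : lp7 (fun s => chk (ent L6714 s)) 0 = true := by decide +kernel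
theorem p6714 : PrL chk L6714 := leafL c6714

theorem c6715 : lp7 (fun s => chk (ent L6715 s)) 0 = true := by decide +kernel
theorem p6715 : PrL chk L6715 := leafL c6715

theorem c6716 : lp7 (fun s => chk (ent L6716 s)) 0 = true := by decide +kernel
theorem p6716 : PrL chk L6716 := leafL c6716

theorem c6717 : lp7 (fun s => chk (ent L6717 s)) 0 = true := by decide +kernel
theorem p6717 : PrL chk L6717 := leafL c6717

theorem c6718 : lp7 (fun s => chk (ent L6718 s)) 0 = true := by decide +kernel
theorem p6718 : PrL chk L6718 := leafL c6718

theorem c6719 : lp7 (fun s => chk (ent L6719 s)) 0 = true := by decide +kernel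
theorem p6719 : PrL chk L6719 := leafL c6719

theorem c6720 : lp7 (fun s => chk (ent L6720 s)) 0 = true := by decide +kernel
theorem p6720 : PrL chk L6720 := leafL c6720

theorem c6721 : lp7 (fun s => chk (ent L6721 s)) 0 = true := by decide +kernel
theorem p6721 : PrL chk L6721 := leafL c6721

theorem c6722 : lp7 (fun s => chk (ent L6722 s)) 0 = true := by decide +kernel
theorem p6722 : PrL chk L6722 := leafL c6722

theorem c6723 : lp7 (fun s => chk (ent L6723 s)) 0 = true := by decide +kernel
theorem p6723 : PrL chk L6723 := leafL c6723

theorem c6724 : lp7 (fun s => chk (ent L6724 s)) 0 = true := by decide +kernel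
theorem p6724 : PrL chk L6724 := leafL c6724

theorem c6725 : lp7 (fun s => chk (ent L6725 s)) 0 = true := by decide +kernel
theorem p6725 : PrL chk L6725 := leafL c6725

theorem c6726 : lp7 (fun s => chk (ent L6726 s)) 0 = true := by decide +kernel
theorem p6726 : PrL chk L6726 := leafL c6726

theorem c6727 : lp7 (fun s => chk (ent L6727 s)) 0 = true := by decide +kernel
theorem p6727 : PrL chk L6727 := leafL c6727

theorem c6728 : lp7 (fun s => chk (ent L6728 s)) 0 = true := by decide +kernel
theorem p6728 : PrL chk L6728 := leafL c6728

theorem c6729 : lp7 (fun s => chk (ent L6729 s)) 0 = true := by decide +kernel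
theorem p6729 : PrL chk L6729 := leafL c6729

theorem c6730 : lp7 (fun s => chk (ent L6730 s)) 0 = true := by decide +kernel
theorem p6730 : PrL chk L6730 := leafL c6730

theorem c6731 : lp7 (fun s => chk (ent L6731 s)) 0 = true := by decide +kernel
theorem p6731 : PrL chk L6731 := leafL c6731

theorem c6732 : lp7 (fun s => chk (ent L6732 s)) 0 = true := by decide +kernel
theorem p6732 : PrL chk L6732 := leafL c6732

theorem c6733 : lp7 (fun s => chk (ent L6733 s)) 0 = true := by decide +kernel
theorem p6733 : PrL chk L6733 := leafL c6733

theorem c6734 : lp7 (fun s => chk (ent L6734 s)) 0 = true := by decide +kernel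
theorem p6734 : PrL chk L6734 := leafL c6734

theorem c6735 : lp7 (fun s => chk (ent L6735 s)) 0 = true := by decide +kernel
theorem p6735 : PrL chk L6735 := leafL c6735

theorem c6736 : lp7 (fun s => chk (ent L6736 s)) 0 = true := by decide +kernel
theorem p6736 : PrL chk L6736 := leafL c6736

theorem c6737 : lp7 (fun s => chk (ent L6737 s)) 0 = true := by decide +kernel
theorem p6737 : PrL chk L6737 := leafL c6737

theorem c6738 : lp7 (fun s => chk (ent L6738 s)) 0 = true := by decide +kernel
theorem p6738 : PrL chk L6738 := leafL c6738

theorem c6739 : lp7 (fun s => chk (ent L6739 s)) 0 = true := by decide +kernel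
theorem p6739 : PrL chk L6739 := leafL c6739

theorem c6740 : lp7 (fun s => chk (ent L6740 s)) 0 = true := by decide +kernel
theorem p6740 : PrL chk L6740 := leafL c6740

theorem c6741 : lp7 (fun s => chk (ent L6741 s)) 0 = true := by decide +kernel
theorem p6741 : PrL chk L6741 := leafL c6741

theorem c6742 : lp7 (fun s => chk (ent L6742 s)) 0 = true := by decide +kernel
theorem p6742 : PrL chk L6742 := leafL c6742

theorem c6743 : lp7 (fun s => chk (ent L6743 s)) 0 = true := by decide +kernel
theorem p6743 : PrL chk L6743 := leafL c6743

theorem c6744 : lp7 (fun s => chk (ent L6744 s)) 0 = true := by decide +kernel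
theorem p6744 : PrL chk L6744 := leafL c6744

theorem c6745 : lp7 (fun s => chk (ent L6745 s)) 0 = true := by decide +kernel
theorem p6745 : PrL chk L6745 := leafL c6745

theorem c6746 : lp7 (fun s => chk (ent L6746 s)) 0 = true := by decide +kernel
theorem p6746 : PrL chk L6746 := leafL c6746

theorem c6747 : lp7 (fun s => chk (ent L6747 s)) 0 = true := by decide +kernel
theorem p6747 : PrL chk L6747 := leafL c6747

theorem c6748 : lp7 (fun s => chk (ent L6748 s)) 0 = true := by decide +kernel
theorem p6748 : PrL chk L6748 := leafL c6748

theorem c6749 : lp7 (fun s => chk (ent L6749 s)) 0 = true := by decide +kernel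
theorem p6749 : PrL chk L6749 := leafL c6749

theorem c6750 : lp7 (fun s => chk (ent L6750 s)) 0 = true := by decide +kernel
theorem p6750 : PrL chk L6750 := leafL c6750

theorem c6751 : lp7 (fun s => chk (ent L6751 s)) 0 = true := by decide +kernel
theorem p6751 : PrL chk L6751 := leafL c6751

theorem c6752 : lp7 (fun s => chk (ent L6752 s)) 0 = true := by decide +kernel
theorem p6752 : PrL chk L6752 := leafL c6752

theorem c6753 : lp7 (fun s => chk (ent L6753 s)) 0 = true := by decide +kernel
theorem p6753 : PrL chk L6753 := leafL c6753

theorem c6754 : lp7 (fun s => chk (ent L6754 s)) 0 = true := by decide +kernel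
theorem p6754 : PrL chk L6754 := leafL c6754

theorem c6755 : lp7 (fun s => chk (ent L6755 s)) 0 = true := by decide +kernel
theorem p6755 : PrL chk L6755 := leafL c6755

theorem c6756 : lp7 (fun s => chk (ent L6756 s)) 0 = true := by decide +kernel
theorem p6756 : PrL chk L6756 := leafL c6756

theorem c6757 : lp7 (fun s => chk (ent L6757 s)) 0 = true := by decide +kernel
theorem p6757 : PrL chk L6757 := leafL c6757

theorem c6758 : lp7 (fun s => chk (ent L6758 s)) 0 = true := by decide +kernel
theorem p6758 : PrL chk L6758 := leafL c6758

theorem c6759 : lp7 (fun s => chk (ent L6759 s)) 0 = true := by decide +kernel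
theorem p6759 : PrL chk L6759 := leafL c6759

theorem c6760 : lp7 (fun s => chk (ent L6760 s)) 0 = true := by decide +kernel
theorem p6760 : PrL chk L6760 := leafL c6760

theorem c6761 : lp7 (fun s => chk (ent L6761 s)) 0 = true := by decide +kernel
theorem p6761 : PrL chk L6761 := leafL c6761

theorem c6762 : lp7 (fun s => chk (ent L6762 s)) 0 = true := by decide +kernel
theorem p6762 : PrL chk L6762 := leafL c6762

theorem c6763 : lp7 (fun s => chk (ent L6763 s)) 0 = true := by decide +kernel
theorem p6763 : PrL chk L6763 := leafL c6763

theorem c6764 : lp7 (fun s => chk (ent L6764 s)) 0 = true := by decide +kernel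
theorem p6764 : PrL chk L6764 := leafL c6764

theorem c6765 : lp7 (fun s => chk (ent L6765 s)) 0 = true := by decide +kernel
theorem p6765 : PrL chk L6765 := leafL c6765

theorem c6766 : lp7 (fun s => chk (ent L6766 s)) 0 = true := by decide +kernel
theorem p6766 : PrL chk L6766 := leafL c6766

theorem c6767 : lp7 (fun s => chk (ent L6767 s)) 0 = true := by decide +kernel
theorem p6767 : PrL chk L6767 := leafL c6767

theorem c6768 : lp7 (fun s => chk (ent L6768 s)) 0 = true := by decide +kernel
theorem p6768 : PrL chk L6768 := leafL c6768

theorem c6769 : lp7 (fun s => chk (ent L6769 s)) 0 = true := by decide +kernel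
theorem p6769 : PrL chk L6769 := leafL c6769

theorem c6770 : lp7 (fun s => chk (ent L6770 s)) 0 = true := by decide +kernel
theorem p6770 : PrL chk L6770 := leafL c6770

theorem c6771 : lp7 (fun s => chk (ent L6771 s)) 0 = true := by decide +kernel
theorem p6771 : PrL chk L6771 := leafL c6771

theorem c6772 : lp7 (fun s => chk (ent L6772 s)) 0 = true := by decide +kernel
theorem p6772 : PrL chk L6772 := leafL c6772

theorem c6773 : lp7 (fun s => chk (ent L6773 s)) 0 = true := by decide +kernel
theorem p6773 : PrL chk L6773 := leafL c6773

theorem c6774 : lp7 (fun s => chk (ent L6774 s)) 0 = true := by decide +kernel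
theorem p6774 : PrL chk L6774 := leafL c6774

theorem c6775 : lp7 (fun s => chk (ent L6775 s)) 0 = true := by decide +kernel
theorem p6775 : PrL chk L6775 := leafL c6775

theorem c6776 : lp7 (fun s => chk (ent L6776 s)) 0 = true := by decide +kernel
theorem p6776 : PrL chk L6776 := leafL c6776

theorem c6777 : lp7 (fun s => chk (ent L6777 s)) 0 = true := by decide +kernel
theorem p6777 : PrL chk L6777 := leafL c6777

theorem c6778 : lp7 (fun s => chk (ent L6778 s)) 0 = true := by decide +kernel
theorem p6778 : PrL chk L6778 := leafL c6778

theorem c6779 : lp7 (fun s => chk (ent L6779 s)) 0 = true := by decide +kernel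
theorem p6779 : PrL chk L6779 := leafL c6779

theorem c6780 : lp7 (fun s => chk (ent L6780 s)) 0 = true := by decide +kernel
theorem p6780 : PrL chk L6780 := leafL c6780

theorem c6781 : lp7 (fun s => chk (ent L6781 s)) 0 = true := by decide +kernel
theorem p6781 : PrL chk L6781 := leafL c6781

theorem c6782 : lp7 (fun s => chk (ent L6782 s)) 0 = true := by decide +kernel
theorem p6782 : PrL chk L6782 := leafL c6782

theorem c6783 : lp7 (fun s => chk (ent L6783 s)) 0 = true := by decide +kernel
theorem p6783 : PrL chk L6783 := leafL c6783

theorem c6784 : lp7 (fun s => chk (ent L6784 s)) 0 = true := by decide +kernel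
theorem p6784 : PrL chk L6784 := leafL c6784

theorem c6785 : lp7 (fun s => chk (ent L6785 s)) 0 = true := by decide +kernel
theorem p6785 : PrL chk L6785 := leafL c6785

theorem c6786 : lp7 (fun s => chk (ent L6786 s)) 0 = true := by decide +kernel
theorem p6786 : PrL chk L6786 := leafL c6786

theorem c6787 : lp7 (fun s => chk (ent L6787 s)) 0 = true := by decide +kernel
theorem p6787 : PrL chk L6787 := leafL c6787

theorem c6788 : lp7 (fun s => chk (ent L6788 s)) 0 = true := by decide +kernel
theorem p6788 : PrL chk L6788 := leafL c6788

theorem c6789 : lp7 (fun s => chk (ent L6789 s)) 0 = true := by decide +kernel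
theorem p6789 : PrL chk L6789 := leafL c6789

theorem c6790 : lp7 (fun s => chk (ent L6790 s)) 0 = true := by decide +kernel
theorem p6790 : PrL chk L6790 := leafL c6790

theorem c6791 : lp7 (fun s => chk (ent L6791 s)) 0 = true := by decide +kernel
theorem p6791 : PrL chk L6791 := leafL c6791

theorem c6792 : lp7 (fun s => chk (ent L6792 s)) 0 = true := by decide +kernel
theorem p6792 : PrL chk L6792 := leafL c6792

theorem c6793 : lp7 (fun s => chk (ent L6793 s)) 0 = true := by decide +kernel
theorem p6793 : PrL chk L6793 := leafL c6793

theorem c6794 : lp7 (fun s => chk (ent L6794 s)) 0 = true := by decide +kernel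
theorem p6794 : PrL chk L6794 := leafL c6794

theorem c6795 : lp7 (fun s => chk (ent L6795 s)) 0 = true := by decide +kernel
theorem p6795 : PrL chk L6795 := leafL c6795

theorem c6796 : lp7 (fun s => chk (ent L6796 s)) 0 = true := by decide +kernel
theorem p6796 : PrL chk L6796 := leafL c6796

theorem c6797 : lp7 (fun s => chk (ent L6797 s)) 0 = true := by decide +kernel
theorem p6797 : PrL chk L6797 := leafL c6797

theorem c6798 : lp7 (fun s => chk (ent L6798 s)) 0 = true := by decide +kernel
theorem p6798 : PrL chk L6798 := leafL c6798

theorem c6799 : lp7 (fun s => chk (ent L6799 s)) 0 = true := by decide +kernel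
theorem p6799 : PrL chk L6799 := leafL c6799

theorem c6800 : lp7 (fun s => chk (ent L6800 s)) 0 = true := by decide +kernel
theorem p6800 : PrL chk L6800 := leafL c6800

theorem c6801 : lp7 (fun s => chk (ent L6801 s)) 0 = true := by decide +kernel
theorem p6801 : PrL chk L6801 := leafL c6801

theorem c6802 : lp7 (fun s => chk (ent L6802 s)) 0 = true := by decide +kernel
theorem p6802 : PrL chk L6802 := leafL c6802

theorem c6803 : lp7 (fun s => chk (ent L6803 s)) 0 = true := by decide +kernel
theorem p6803 : PrL chk L6803 := leafL c6803

theorem c6804 : lp7 (fun s => chk (ent L6804 s)) 0 = true := by decide +kernel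
theorem p6804 : PrL chk L6804 := leafL c6804

theorem c6805 : lp7 (fun s => chk (ent L6805 s)) 0 = true := by decide +kernel
theorem p6805 : PrL chk L6805 := leafL c6805

theorem c6806 : lp7 (fun s => chk (ent L6806 s)) 0 = true := by decide +kernel
theorem p6806 : PrL chk L6806 := leafL c6806

theorem c6807 : lp7 (fun s => chk (ent L6807 s)) 0 = true := by decide +kernel
theorem p6807 : PrL chk L6807 := leafL c6807

theorem c6808 : lp7 (fun s => chk (ent L6808 s)) 0 = true := by decide +kernel
theorem p6808 : PrL chk L6808 := leafL c6808

theorem c6809 : lp7 (fun s => chk (ent L6809 s)) 0 = true := by decide +kernel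
theorem p6809 : PrL chk L6809 := leafL c6809

theorem c6810 : lp7 (fun s => chk (ent L6810 s)) 0 = true := by decide +kernel
theorem p6810 : PrL chk L6810 := leafL c6810

theorem c6811 : lp7 (fun s => chk (ent L6811 s)) 0 = true := by decide +kernel
theorem p6811 : PrL chk L6811 := leafL c6811

theorem c6812 : lp7 (fun s => chk (ent L6812 s)) 0 = true := by decide +kernel
theorem p6812 : PrL chk L6812 := leafL c6812

theorem c6813 : lp7 (fun s => chk (ent L6813 s)) 0 = true := by decide +kernel
theorem p6813 : PrL chk L6813 := leafL c6813

theorem c6814 : lp7 (fun s => chk (ent L6814 s)) 0 = true := by decide +kernel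
theorem p6814 : PrL chk L6814 := leafL c6814

theorem c6815 : lp7 (fun s => chk (ent L6815 s)) 0 = true := by decide +kernel
theorem p6815 : PrL chk L6815 := leafL c6815

theorem c6816 : lp7 (fun s => chk (ent L6816 s)) 0 = true := by decide +kernel
theorem p6816 : PrL chk L6816 := leafL c6816

theorem c6817 : lp7 (fun s => chk (ent L6817 s)) 0 = true := by decide +kernel
theorem p6817 : PrL chk L6817 := leafL c6817

theorem c6818 : lp7 (fun s => chk (ent L6818 s)) 0 = true := by decide +kernel
theorem p6818 : PrL chk L6818 := leafL c6818

theorem c6819 : lp7 (fun s => chk (ent L6819 s)) 0 = true := by decide +kernel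
theorem p6819 : PrL chk L6819 := leafL c6819

theorem c6820 : lp7 (fun s => chk (ent L6820 s)) 0 = true := by decide +kernel
theorem p6820 : PrL chk L6820 := leafL c6820

theorem c6821 : lp7 (fun s => chk (ent L6821 s)) 0 = true := by decide +kernel
theorem p6821 : PrL chk L6821 := leafL c6821

theorem c6822 : lp7 (fun s => chk (ent L6822 s)) 0 = true := by decide +kernel
theorem p6822 : PrL chk L6822 := leafL c6822

theorem c6823 : lp7 (fun s => chk (ent L6823 s)) 0 = true := by decide +kernel
theorem p6823 : PrL chk L6823 := leafL c6823

theorem c6824 : lp7 (fun s => chk (ent L6824 s)) 0 = true := by decide +kernel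
theorem p6824 : PrL chk L6824 := leafL c6824

theorem c6825 : lp7 (fun s => chk (ent L6825 s)) 0 = true := by decide +kernel
theorem p6825 : PrL chk L6825 := leafL c6825

theorem c6826 : lp7 (fun s => chk (ent L6826 s)) 0 = true := by decide +kernel
theorem p6826 : PrL chk L6826 := leafL c6826

theorem c6827 : lp7 (fun s => chk (ent L6827 s)) 0 = true := by decide +kernel
theorem p6827 : PrL chk L6827 := leafL c6827

theorem c6828 : lp7 (fun s => chk (ent L6828 s)) 0 = true := by decide +kernel
theorem p6828 : PrL chk L6828 := leafL c6828

theorem c6829 : lp7 (fun s => chk (ent L6829 s)) 0 = true := by decide +kernel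
theorem p6829 : PrL chk L6829 := leafL c6829

theorem c6830 : lp7 (fun s => chk (ent L6830 s)) 0 = true := by decide +kernel
theorem p6830 : PrL chk L6830 := leafL c6830

theorem c6831 : lp7 (fun s => chk (ent L6831 s)) 0 = true := by decide +kernel
theorem p6831 : PrL chk L6831 := leafL c6831

theorem c6832 : lp7 (fun s => chk (ent L6832 s)) 0 = true := by decide +kernel
theorem p6832 : PrL chk L6832 := leafL c6832

theorem c6833 : lp7 (fun s => chk (ent L6833 s)) 0 = true := by decide +kernel
theorem p6833 : PrL chk L6833 := leafL c6833

theorem c6834 : lp7 (fun s => chk (ent L6834 s)) 0 = true := by decide +kernel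
theorem p6834 : PrL chk L6834 := leafL c6834

theorem c6835 : lp7 (fun s => chk (ent L6835 s)) 0 = true := by decide +kernel
theorem p6835 : PrL chk L6835 := leafL c6835

theorem c6836 : lp7 (fun s => chk (ent L6836 s)) 0 = true := by decide +kernel
theorem p6836 : PrL chk L6836 := leafL c6836

theorem c6837 : lp7 (fun s => chk (ent L6837 s)) 0 = true := by decide +kernel
theorem p6837 : PrL chk L6837 := leafL c6837

theorem c6838 : lp7 (fun s => chk (ent L6838 s)) 0 = true := by decide +kernel
theorem p6838 : PrL chk L6838 := leafL c6838

theorem c6839 : lp7 (fun s => chk (ent L6839 s)) 0 = true := by decide +kernel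
theorem p6839 : PrL chk L6839 := leafL c6839

theorem c6840 : lp7 (fun s => chk (ent L6840 s)) 0 = true := by decide +kernel
theorem p6840 : PrL chk L6840 := leafL c6840

theorem c6841 : lp7 (fun s => chk (ent L6841 s)) 0 = true := by decide +kernel
theorem p6841 : PrL chk L6841 := leafL c6841

theorem c6842 : lp7 (fun s => chk (ent L6842 s)) 0 = true := by decide +kernel
theorem p6842 : PrL chk L6842 := leafL c6842

theorem c6843 : lp7 (fun s => chk (ent L6843 s)) 0 = true := by decide +kernel
theorem p6843 : PrL chk L6843 := leafL c6843

theorem c6844 : lp7 (fun s => chk (ent L6844 s)) 0 = true := by decide +kernel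
theorem p6844 : PrL chk L6844 := leafL c6844

theorem c6845 : lp7 (fun s => chk (ent L6845 s)) 0 = true := by decide +kernel
theorem p6845 : PrL chk L6845 := leafL c6845

theorem c6846 : lp7 (fun s => chk (ent L6846 s)) 0 = true := by decide +kernel
theorem p6846 : PrL chk L6846 := leafL c6846

theorem c6847 : lp7 (fun s => chk (ent L6847 s)) 0 = true := by decide +kernel
theorem p6847 : PrL chk L6847 := leafL c6847

theorem c6848 : lp7 (fun s => chk (ent L6848 s)) 0 = true := by decide +kernel
theorem p6848 : PrL chk L6848 := leafL c6848

theorem c6849 : lp7 (fun s => chk (ent L6849 s)) 0 = true := by decide +kernel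
theorem p6849 : PrL chk L6849 := leafL c6849

theorem c6850 : lp7 (fun s => chk (ent L6850 s)) 0 = true := by decide +kernel
theorem p6850 : PrL chk L6850 := leafL c6850

theorem c6851 : lp7 (fun s => chk (ent L6851 s)) 0 = true := by decide +kernel
theorem p6851 : PrL chk L6851 := leafL c6851

theorem c6852 : lp7 (fun s => chk (ent L6852 s)) 0 = true := by decide +kernel
theorem p6852 : PrL chk L6852 := leafL c6852

theorem c6853 : lp7 (fun s => chk (ent L6853 s)) 0 = true := by decide +kernel
theorem p6853 : PrL chk L6853 := leafL c6853

theorem c6854 : lp7 (fun s => chk (ent L6854 s)) 0 = true := by decide +kernel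
theorem p6854 : PrL chk L6854 := leafL c6854

theorem c6855 : lp7 (fun s => chk (ent L6855 s)) 0 = true := by decide +kernel
theorem p6855 : PrL chk L6855 := leafL c6855

theorem c6856 : lp7 (fun s => chk (ent L6856 s)) 0 = true := by decide +kernel
theorem p6856 : PrL chk L6856 := leafL c6856

theorem c6857 : lp7 (fun s => chk (ent L6857 s)) 0 = true := by decide +kernel
theorem p6857 : PrL chk L6857 := leafL c6857

theorem c6858 : lp7 (fun s => chk (ent L6858 s)) 0 = true := by decide +kernel
theorem p6858 : PrL chk L6858 := leafL c6858

theorem c6859 : lp7 (fun s => chk (ent L6859 s)) 0 = true := by decide +kernel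
theorem p6859 : PrL chk L6859 := leafL c6859

theorem c6860 : lp7 (fun s => chk (ent L6860 s)) 0 = true := by decide +kernel
theorem p6860 : PrL chk L6860 := leafL c6860

theorem c6861 : lp7 (fun s => chk (ent L6861 s)) 0 = true := by decide +kernel
theorem p6861 : PrL chk L6861 := leafL c6861

theorem c6862 : lp7 (fun s => chk (ent L6862 s)) 0 = true := by decide +kernel
theorem p6862 : PrL chk L6862 := leafL c6862

theorem c6863 : lp7 (fun s => chk (ent L6863 s)) 0 = true := by decide +kernel
theorem p6863 : PrL chk L6863 := leafL c6863

theorem c6864 : lp7 (fun s => chk (ent L6864 s)) 0 = true := by decide +kernel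
theorem p6864 : PrL chk L6864 := leafL c6864

theorem c6865 : lp7 (fun s => chk (ent L6865 s)) 0 = true := by decide +kernel
theorem p6865 : PrL chk L6865 := leafL c6865

theorem c6866 : lp7 (fun s => chk (ent L6866 s)) 0 = true := by decide +kernel
theorem p6866 : PrL chk L6866 := leafL c6866

theorem c6867 : lp7 (fun s => chk (ent L6867 s)) 0 = true := by decide +kernel
theorem p6867 : PrL chk L6867 := leafL c6867

theorem c6868 : lp7 (fun s => chk (ent L6868 s)) 0 = true := by decide +kernel
theorem p6868 : PrL chk L6868 := leafL c6868

theorem c6869 : lp7 (fun s => chk (ent L6869 s)) 0 = true := by decide +kernel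
theorem p6869 : PrL chk L6869 := leafL c6869

theorem c6870 : lp7 (fun s => chk (ent L6870 s)) 0 = true := by decide +kernel
theorem p6870 : PrL chk L6870 := leafL c6870

theorem c6871 : lp7 (fun s => chk (ent L6871 s)) 0 = true := by decide +kernel
theorem p6871 : PrL chk L6871 := leafL c6871

theorem c6872 : lp7 (fun s => chk (ent L6872 s)) 0 = true := by decide +kernel
theorem p6872 : PrL chk L6872 := leafL c6872

theorem c6873 : lp7 (fun s => chk (ent L6873 s)) 0 = true := by decide +kernel
theorem p6873 : PrL chk L6873 := leafL c6873

theorem c6874 : lp7 (fun s => chk (ent L6874 s)) 0 = true := by decide +kernel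
theorem p6874 : PrL chk L6874 := leafL c6874

theorem c6875 : lp7 (fun s => chk (ent L6875 s)) 0 = true := by decide +kernel
theorem p6875 : PrL chk L6875 := leafL c6875

theorem c6876 : lp7 (fun s => chk (ent L6876 s)) 0 = true := by decide +kernel
theorem p6876 : PrL chk L6876 := leafL c6876

theorem c6877 : lp7 (fun s => chk (ent L6877 s)) 0 = true := by decide +kernel
theorem p6877 : PrL chk L6877 := leafL c6877

theorem c6878 : lp7 (fun s => chk (ent L6878 s)) 0 = true := by decide +kernel
theorem p6878 : PrL chk L6878 := leafL c6878

theorem c6879 : lp7 (fun s => chk (ent L6879 s)) 0 = true := by decide +kernel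
theorem p6879 : PrL chk L6879 := leafL c6879

theorem c6880 : lp7 (fun s => chk (ent L6880 s)) 0 = true := by decide +kernel
theorem p6880 : PrL chk L6880 := leafL c6880

theorem c6881 : lp7 (fun s => chk (ent L6881 s)) 0 = true := by decide +kernel
theorem p6881 : PrL chk L6881 := leafL c6881

theorem c6882 : lp7 (fun s => chk (ent L6882 s)) 0 = true := by decide +kernel
theorem p6882 : PrL chk L6882 := leafL c6882

theorem c6883 : lp7 (fun s => chk (ent L6883 s)) 0 = true := by decide +kernel
theorem p6883 : PrL chk L6883 := leafL c6883

theorem c6884 : lp7 (fun s => chk (ent L6884 s)) 0 = true := by decide +kernel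
theorem p6884 : PrL chk L6884 := leafL c6884

theorem c6885 : lp7 (fun s => chk (ent L6885 s)) 0 = true := by decide +kernel
theorem p6885 : PrL chk L6885 := leafL c6885

theorem c6886 : lp7 (fun s => chk (ent L6886 s)) 0 = true := by decide +kernel
theorem p6886 : PrL chk L6886 := leafL c6886

theorem c6887 : lp7 (fun s => chk (ent L6887 s)) 0 = true := by decide +kernel
theorem p6887 : PrL chk L6887 := leafL c6887

theorem c6888 : lp7 (fun s => chk (ent L6888 s)) 0 = true := by decide +kernel
theorem p6888 : PrL chk L6888 := leafL c6888

theorem c6889 : lp7 (fun s => chk (ent L6889 s)) 0 = true := by decide +kernel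
theorem p6889 : PrL chk L6889 := leafL c6889

theorem c6890 : lp7 (fun s => chk (ent L6890 s)) 0 = true := by decide +kernel
theorem p6890 : PrL chk L6890 := leafL c6890

theorem c6891 : lp7 (fun s => chk (ent L6891 s)) 0 = true := by decide +kernel
theorem p6891 : PrL chk L6891 := leafL c6891

theorem c6892 : lp7 (fun s => chk (ent L6892 s)) 0 = true := by decide +kernel
theorem p6892 : PrL chk L6892 := leafL c6892

theorem c6893 : lp7 (fun s => chk (ent L6893 s)) 0 = true := by decide +kernel
theorem p6893 : PrL chk L6893 := leafL c6893

theorem c6894 : lp7 (fun s => chk (ent L6894 s)) 0 = true := by decide +kernel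
theorem p6894 : PrL chk L6894 := leafL c6894

theorem c6895 : lp7 (fun s => chk (ent L6895 s)) 0 = true := by decide +kernel
theorem p6895 : PrL chk L6895 := leafL c6895

theorem c6896 : lp7 (fun s => chk (ent L6896 s)) 0 = true := by decide +kernel
theorem p6896 : PrL chk L6896 := leafL c6896

theorem c6897 : lp7 (fun s => chk (ent L6897 s)) 0 = true := by decide +kernel
theorem p6897 : PrL chk L6897 := leafL c6897

theorem c6898 : lp7 (fun s => chk (ent L6898 s)) 0 = true := by decide +kernel
theorem p6898 : PrL chk L6898 := leafL c6898

theorem c6899 : lp7 (fun s => chk (ent L6899 s)) 0 = true := by decide +kernel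
theorem p6899 : PrL chk L6899 := leafL c6899

theorem c6900 : lp7 (fun s => chk (ent L6900 s)) 0 = true := by decide +kernel
theorem p6900 : PrL chk L6900 := leafL c6900

theorem c6901 : lp7 (fun s => chk (ent L6901 s)) 0 = true := by decide +kernel
theorem p6901 : PrL chk L6901 := leafL c6901

theorem c6902 : lp7 (fun s => chk (ent L6902 s)) 0 = true := by decide +kernel
theorem p6902 : PrL chk L6902 := leafL c6902

theorem c6903 : lp7 (fun s => chk (ent L6903 s)) 0 = true := by decide +kernel
theorem p6903 : PrL chk L6903 := leafL c6903

theorem c6904 : lp7 (fun s => chk (ent L6904 s)) 0 = true := by decide +kernel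
theorem p6904 : PrL chk L6904 := leafL c6904

theorem c6905 : lp7 (fun s => chk (ent L6905 s)) 0 = true := by decide +kernel
theorem p6905 : PrL chk L6905 := leafL c6905

theorem c6906 : lp7 (fun s => chk (ent L6906 s)) 0 = true := by decide +kernel
theorem p6906 : PrL chk L6906 := leafL c6906

theorem c6907 : lp7 (fun s => chk (ent L6907 s)) 0 = true := by decide +kernel
theorem p6907 : PrL chk L6907 := leafL c6907

theorem c6908 : lp7 (fun s => chk (ent L6908 s)) 0 = true := by decide +kernel
theorem p6908 : PrL chk L6908 := leafL c6908

theorem c6909 : lp7 (fun s => chk (ent L6909 s)) 0 = true := by decide +kernel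
theorem p6909 : PrL chk L6909 := leafL c6909

theorem c6910 : lp7 (fun s => chk (ent L6910 s)) 0 = true := by decide +kernel
theorem p6910 : PrL chk L6910 := leafL c6910

theorem c6911 : lp7 (fun s => chk (ent L6911 s)) 0 = true := by decide +kernel
theorem p6911 : PrL chk L6911 := leafL c6911

end Pool.Agent.ad013a.LA
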