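import Pool.Agent.H.MP_ad013a_pr.h63l.A.T
import Pool.Agent.H.MP_ad013a_pr.h63w.VLoop

namespace Pool.Agent.ad013a.LA

theorem c6912 : lp7 (fun s => chk (ent L6912 s)) 0 = true := by decide +kernel
theorem p6912 : PrL chk L6912 := leafL c6912

theorem c6913 : lp7 (fun s => chk (ent L6913 s)) 0 = true := by decide +kernel
theorem p6913 : PrL chk L6913 := leafL c6913

theorem c6914 : lp7 (fun s => chk (ent L6914 s)) 0 = true := by decide +kernel
theorem p6914 : PrL chk L6914 := leafL c6914

theorem c6915 : lp7 (fun s => chk (ent L6915 s)) 0 = true := by decide +kernel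
theorem p6915 : PrL chk L6915 := leafL c6915

theorem c6916 : lp7 (fun s => chk (ent L6916 s)) 0 = true := by decide +kernel
theorem p6916 : PrL chk L6916 := leafL c6916

theorem c6917 : lp7 (fun s => chk (ent L6917 s)) 0 = true := by decide +kernel
theorem p6917 : PrL chk L6917 := leafL c6917

theorem c6918 : lp7 (fun s => chk (ent L6918 s)) 0 = true := by decide +kernel
theorem p6918 : PrL chk L6918 := leafL c6918

theorem c6919 : lp7 (fun s => chk (ent L6919 s)) 0 = true := by decide +kernel
theorem p6919 : PrL chk L6919 := leafL c6919

theorem c6920 : lp7 (fun s => chk (ent L6920 s)) 0 = true := by decide +kernel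
theorem p6920 : PrL chk L6920 := leafL c6920

theorem c6921 : lp7 (fun s => chk (ent L6921 s)) 0 = true := by decide +kernel
theorem p6921 : PrL chk L6921 := leafL c6921

theorem c6922 : lp7 (fun s => chk (ent L6922 s)) 0 = true := by decide +kernel
theorem p6922 : PrL chk L6922 := leafL c6922

theorem c6923 : lp7 (fun s => chk (ent L6923 s)) 0 = true := by decide +kernel
theorem p6923 : PrL chk L6923 := leafL c6923

theorem c6924 : lp7 (fun s => chk (ent L6924 s)) 0 = true := by decide +kernel
theorem p6924 : PrL chk L6924 := leafL c6924

theorem c6925 : lp7 (fun s => chk (ent L6925 s)) 0 = true := by decide +kernel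
theorem p6925 : PrL chk L6925 := leafL c6925

theorem c6926 : lp7 (fun s => chk (ent L6926 s)) 0 = true := by decide +kernel
theorem p6926 : PrL chk L6926 := leafL c6926

theorem c6927 : lp7 (fun s => chk (ent L6927 s)) 0 = true := by decide +kernel
theorem p6927 : PrL chk L6927 := leafL c6927

theorem c6928 : lp7 (fun s => chk (ent L6928 s)) 0 = true := by decide +kernel
theorem p6928 : PrL chk L6928 := leafL c6928

theorem c6929 : lp7 (fun s => chk (ent L6929 s)) 0 = true := by decide +kernel
theorem p6929 : PrL chk L6929 := leafL c6929

theorem c6930 : lp7 (fun s => chk (ent L6930 s)) 0 = true := by decide +kernel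
theorem p6930 : PrL chk L6930 := leafL c6930

theorem c6931 : lp7 (fun s => chk (ent L6931 s)) 0 = true := by decide +kernel
theorem p6931 : PrL chk L6931 := leafL c6931

theorem c6932 : lp7 (fun s => chk (ent L6932 s)) 0 = true := by decide +kernel
theorem p6932 : PrL chk L6932 := leafL c6932

theorem c6933 : lp7 (fun s => chk (ent L6933 s)) 0 = true := by decide +kernel
theorem p6933 : PrL chk L6933 := leafL c6933

theorem c6934 : lp7 (fun s => chk (ent L6934 s)) 0 = true := by decide +kernel
theorem p6934 : PrL chk L6934 := leafL c6934

theorem c6935 : lp7 (fun s => chk (ent L6935 s)) 0 = true := by decide +kernel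
theorem p6935 : PrL chk L6935 := leafL c6935

theorem c6936 : lp7 (fun s => chk (ent L6936 s)) 0 = true := by decide +kernel
theorem p6936 : PrL chk L6936 := leafL c6936

theorem c6937 : lp7 (fun s => chk (ent L6937 s)) 0 = true := by decide +kernel
theorem p6937 : PrL chk L6937 := leafL c6937

theorem c6938 : lp7 (fun s => chk (ent L6938 s)) 0 = true := by decide +kernel
theorem p6938 : PrL chk L6938 := leafL c6938

theorem c6939 : lp7 (fun s => chk (ent L6939 s)) 0 = true := by decide +kernel
theorem p6939 : PrL chk L6939 := leafL c6939

theorem c6940 : lp7 (fun s => chk (ent L6940 s)) 0 = true := by decide +kernel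
theorem p6940 : PrL chk L6940 := leafL c6940

theorem c6941 : lp7 (fun s => chk (ent L6941 s)) 0 = true := by decide +kernel
theorem p6941 : PrL chk L6941 := leafL c6941

theorem c6942 : lp7 (fun s => chk (ent L6942 s)) 0 = true := by decide +kernel
theorem p6942 : PrL chk L6942 := leafL c6942

theorem c6943 : lp7 (fun s => chk (ent L6943 s)) 0 = true := by decide +kernel
theorem p6943 : PrL chk L6943 := leafL c6943

theorem c6944 : lp7 (fun s => chk (ent L6944 s)) 0 = true := by decide +kernel
theorem p6944 : PrL chk L6944 := leafL c6944

theorem c6945 : lp7 (fun s => chk (ent L6945 s)) 0 = true := by decide +kernel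
theorem p6945 : PrL chk L6945 := leafL c6945

theorem c6946 : lp7 (fun s => chk (ent L6946 s)) 0 = true := by decide +kernel
theorem p6946 : PrL chk L6946 := leafL c6946

theorem c6947 : lp7 (fun s => chk (ent L6947 s)) 0 = true := by decide +kernel
theorem p6947 : PrL chk L6947 := leafL c6947

theorem c6948 : lp7 (fun s => chk (ent L6948 s)) 0 = true := by decide +kernel
theorem p6948 : PrL chk L6948 := leafL c6948

theorem c6949 : lp7 (fun s => chk (ent L6949 s)) 0 = true := by decide +kernel
theorem p6949 : PrL chk L6949 := leafL c6949

theorem c6950 : lp7 (fun s => chk (ent L6950 s)) 0 = true := by decide +kernel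
theorem p6950 : PrL chk L6950 := leafL c6950

theorem c6951 : lp7 (fun s => chk (ent L6951 s)) 0 = true := by decide +kernel
theorem p6951 : PrL chk L6951 := leafL c6951

theorem c6952 : lp7 (fun s => chk (ent L6952 s)) 0 = true := by decide +kernel
theorem p6952 : PrL chk L6952 := leafL c6952

theorem c6953 : lp7 (fun s => chk (ent L6953 s)) 0 = true := by decide +kernel
theorem p6953 : PrL chk L6953 := leafL c6953

theorem c6954 : lp7 (fun s => chk (ent L6954 s)) 0 = true := by decide +kernel
theorem p6954 : PrL chk L6954 := leafL c6954

theorem c6955 : lp7 (fun s => chk (ent L6955 s)) 0 = true := by decide +kernel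
theorem p6955 : PrL chk L6955 := leafL c6955

theorem c6956 : lp7 (fun s => chk (ent L6956 s)) 0 = true := by decide +kernel
theorem p6956 : PrL chk L6956 := leafL c6956

theorem c6957 : lp7 (fun s => chk (ent L6957 s)) 0 = true := by decide +kernel
theorem p6957 : PrL chk L6957 := leafL c6957

theorem c6958 : lp7 (fun s => chk (ent L6958 s)) 0 = true := by decide +kernel
theorem p6958 : PrL chk L6958 := leafL c6958

theorem c6959 : lp7 (fun s => chk (ent L6959 s)) 0 = true := by decide +kernel
theorem p6959 : PrL chk L6959 := leafL c6959

theorem c6960 : lp7 (fun s => chk (ent L6960 s)) 0 = true := by decide +kernel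
theorem p6960 : PrL chk L6960 := leafL c6960

theorem c6961 : lp7 (fun s => chk (ent L6961 s)) 0 = true := by decide +kernel
theorem p6961 : PrL chk L6961 := leafL c6961

theorem c6962 : lp7 (fun s => chk (ent L6962 s)) 0 = true := by decide +kernel
theorem p6962 : PrL chk L6962 := leafL c6962

theorem c6963 : lp7 (fun s => chk (ent L6963 s)) 0 = true := by decide +kernel
theorem p6963 : PrL chk L6963 := leafL c6963

theorem c6964 : lp7 (fun s => chk (ent L6964 s)) 0 = true := by decide +kernel
theorem p6964 : PrL chk L6964 := leafL c6964

theorem c6965 : lp7 (fun s => chk (ent L6965 s)) 0 = true := by decide +kernel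
theorem p6965 : PrL chk L6965 := leafL c6965

theorem c6966 : lp7 (fun s => chk (ent L6966 s)) 0 = true := by decide +kernel
theorem p6966 : PrL chk L6966 := leafL c6966

theorem c6967 : lp7 (fun s => chk (ent L6967 s)) 0 = true := by decide +kernel
theorem p6967 : PrL chk L6967 := leafL c6967

theorem c6968 : lp7 (fun s => chk (ent L6968 s)) 0 = true := by decide +kernel
theorem p6968 : PrL chk L6968 := leafL c6968

theorem c6969 : lp7 (fun s => chk (ent L6969 s)) 0 = true := by decide +kernel
theorem p6969 : PrL chk L6969 := leafL c6969

theorem c6970 : lp7 (fun s => chk (ent L6970 s)) 0 = true := by decide +kernel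
theorem p6970 : PrL chk L6970 := leafL c6970

theorem c6971 : lp7 (fun s => chk (ent L6971 s)) 0 = true := by decide +kernel
theorem p6971 : PrL chk L6971 := leafL c6971

theorem c6972 : lp7 (fun s => chk (ent L6972 s)) 0 = true := by decide +kernel
theorem p6972 : PrL chk L6972 := leafL c6972

theorem c6973 : lp7 (fun s => chk (ent L6973 s)) 0 = true := by decide +kernel
theorem p6973 : PrL chk L6973 := leafL c6973

theorem c6974 : lp7 (fun s => chk (ent L6974 s)) 0 = true := by decide +kernel
theorem p6974 : PrL chk L6974 := leafL c6974

theorem c6975 : lp7 (fun s => chk (ent L6975 s)) 0 = true := by decide +kernel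
theorem p6975 : PrL chk L6975 := leafL c6975

theorem c6976 : lp7 (fun s => chk (ent L6976 s)) 0 = true := by decide +kernel
theorem p6976 : PrL chk L6976 := leafL c6976

theorem c6977 : lp7 (fun s => chk (ent L6977 s)) 0 = true := by decide +kernel
theorem p6977 : PrL chk L6977 := leafL c6977

theorem c6978 : lp7 (fun s => chk (ent L6978 s)) 0 = true := by decide +kernel
theorem p6978 : PrL chk L6978 := leafL c6978

theorem c6979 : lp7 (fun s => chk (ent L6979 s)) 0 = true := by decide +kernel
theorem p6979 : PrL chk L6979 := leafL c6979

theorem c6980 : lp7 (fun s => chk (ent L6980 s)) 0 = true := by decide +kernel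
theorem p6980 : PrL chk L6980 := leafL c6980

theorem c6981 : lp7 (fun s => chk (ent L6981 s)) 0 = true := by decide +kernel
theorem p6981 : PrL chk L6981 := leafL c6981

theorem c6982 : lp7 (fun s => chk (ent L6982 s)) 0 = true := by decide +kernel
theorem p6982 : PrL chk L6982 := leafL c6982

theorem c6983 : lp7 (fun s => chk (ent L6983 s)) 0 = true := by decide +kernel
theorem p6983 : PrL chk L6983 := leafL c6983

theorem c6984 : lp7 (fun s => chk (ent L6984 s)) 0 = true := by decide +kernel
theorem p6984 : PrL chk L6984 := leafL c6984

theorem c6985 : lp7 (fun s => chk (ent L6985 s)) 0 = true := by decide +kernel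
theorem p6985 : PrL chk L6985 := leafL c6985

theorem c6986 : lp7 (fun s => chk (ent L6986 s)) 0 = true := by decide +kernel
theorem p6986 : PrL chk L6986 := leafL c6986

theorem c6987 : lp7 (fun s => chk (ent L6987 s)) 0 = true := by decide +kernel
theorem p6987 : PrL chk L6987 := leafL c6987

theorem c6988 : lp7 (fun s => chk (ent L6988 s)) 0 = true := by decide +kernel
theorem p6988 : PrL chk L6988 := leafL c6988

theorem c6989 : lp7 (fun s => chk (ent L6989 s)) 0 = true := by decide +kernel
theorem p6989 : PrL chk L6989 := leafL c6989

theorem c6990 : lp7 (fun s => chk (ent L6990 s)) 0 = true := by decide +kernel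
theorem p6990 : PrL chk L6990 := leafL c6990

theorem c6991 : lp7 (fun s => chk (ent L6991 s)) 0 = true := by decide +kernel
theorem p6991 : PrL chk L6991 := leafL c6991

theorem c6992 : lp7 (fun s => chk (ent L6992 s)) 0 = true := by decide +kernel
theorem p6992 : PrL chk L6992 := leafL c6992

theorem c6993 : lp7 (fun s => chk (ent L6993 s)) 0 = true := by decide +kernel
theorem p6993 : PrL chk L6993 := leafL c6993

theorem c6994 : lp7 (fun s => chk (ent L6994 s)) 0 = true := by decide +kernel
theorem p6994 : PrL chk L6994 := leafL c6994

theorem c6995 : lp7 (fun s => chk (ent L6995 s)) 0 = true := by decide +kernel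
theorem p6995 : PrL chk L6995 := leafL c6995

theorem c6996 : lp7 (fun s => chk (ent L6996 s)) 0 = true := by decide +kernel
theorem p6996 : PrL chk L6996 := leafL c6996

theorem c6997 : lp7 (fun s => chk (ent L6997 s)) 0 = true := by decide +kernel
theorem p6997 : PrL chk L6997 := leafL c6997

theorem c6998 : lp7 (fun s => chk (ent L6998 s)) 0 = true := by decide +kernel
theorem p6998 : PrL chk L6998 := leafL c6998

theorem c6999 : lp7 (fun s => chk (ent L6999 s)) 0 = true := by decide +kernel
theorem p6999 : PrL chk L6999 := leafL c6999

theorem c7000 : lp7 (fun s => chk (ent L7000 s)) 0 = true := by decide +kernel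
theorem p7000 : PrL chk L7000 := leafL c7000

theorem c7001 : lp7 (fun s => chk (ent L7001 s)) 0 = true := by decide +kernel
theorem p7001 : PrL chk L7001 := leafL c7001

theorem c7002 : lp7 (fun s => chk (ent L7002 s)) 0 = true := by decide +kernel
theorem p7002 : PrL chk L7002 := leafL c7002

theorem c7003 : lp7 (fun s => chk (ent L7003 s)) 0 = true := by decide +kernel
theorem p7003 : PrL chk L7003 := leafL c7003

theorem c7004 : lp7 (fun s => chk (ent L7004 s)) 0 = true := by decide +kernel
theorem p7004 : PrL chk L7004 := leafL c7004

theorem c7005 : lp7 (fun s => chk (ent L7005 s)) 0 = true := by decide +kernel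
theorem p7005 : PrL chk L7005 := leafL c7005

theorem c7006 : lp7 (fun s => chk (ent L7006 s)) 0 = true := by decide +kernel
theorem p7006 : PrL chk L7006 := leafL c7006

theorem c7007 : lp7 (fun s => chk (ent L7007 s)) 0 = true := by decide +kernel
theorem p7007 : PrL chk L7007 := leafL c7007

theorem c7008 : lp7 (fun s => chk (ent L7008 s)) 0 = true := by decide +kernel
theorem p7008 : PrL chk L7008 := leafL c7008

theorem c7009 : lp7 (fun s => chk (ent L7009 s)) 0 = true := by decide +kernel
theorem p7009 : PrL chk L7009 := leafL c7009

theorem c7010 : lp7 (fun s => chk (ent L7010 s)) 0 = true := by decide +kernel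
theorem p7010 : PrL chk L7010 := leafL c7010

theorem c7011 : lp7 (fun s => chk (ent L7011 s)) 0 = true := by decide +kernel
theorem p7011 : PrL chk L7011 := leafL c7011

theorem c7012 : lp7 (fun s => chk (ent L7012 s)) 0 = true := by decide +kernel
theorem p7012 : PrL chk L7012 := leafL c7012

theorem c7013 : lp7 (fun s => chk (ent L7013 s)) 0 = true := by decide +kernel
theorem p7013 : PrL chk L7013 := leafL c7013

theorem c7014 : lp7 (fun s => chk (ent L7014 s)) 0 = true := by decide +kernel
theorem p7014 : PrL chk L7014 := leafL c7014

theorem c7015 : lp7 (fun s => chk (ent L7015 s)) 0 = true := by decide +kernel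
theorem p7015 : PrL chk L7015 := leafL c7015

theorem c7016 : lp7 (fun s => chk (ent L7016 s)) 0 = true := by decide +kernel
theorem p7016 : PrL chk L7016 := leafL c7016

theorem c7017 : lp7 (fun s => chk (ent L7017 s)) 0 = true := by decide +kernel
theorem p7017 : PrL chk L7017 := leafL c7017

theorem c7018 : lp7 (fun s => chk (ent L7018 s)) 0 = true := by decide +kernel
theorem p7018 : PrL chk L7018 := leafL c7018

theorem c7019 : lp7 (fun s => chk (ent L7019 s)) 0 = true := by decide +kernel
theorem p7019 : PrL chk L7019 := leafL c7019

theorem c7020 : lp7 (fun s => chk (ent L7020 s)) 0 = true := by decide +kernel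
theorem p7020 : PrL chk L7020 := leafL c7020

theorem c7021 : lp7 (fun s => chk (ent L7021 s)) 0 = true := by decide +kernel
theorem p7021 : PrL chk L7021 := leafL c7021

theorem c7022 : lp7 (fun s => chk (ent L7022 s)) 0 = true := by decide +kernel
theorem p7022 : PrL chk L7022 := leafL c7022

theorem c7023 : lp7 (fun s => chk (ent L7023 s)) 0 = true := by decide +kernel
theorem p7023 : PrL chk L7023 := leafL c7023

theorem c7024 : lp7 (fun s => chk (ent L7024 s)) 0 = true := by decide +kernel
theorem p7024 : PrL chk L7024 := leafL c7024

theorem c7025 : lp7 (fun s => chk (ent L7025 s)) 0 = true := by decide +kernel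
theorem p7025 : PrL chk L7025 := leafL c7025

theorem c7026 : lp7 (fun s => chk (ent L7026 s)) 0 = true := by decide +kernel
theorem p7026 : PrL chk L7026 := leafL c7026

theorem c7027 : lp7 (fun s => chk (ent L7027 s)) 0 = true := by decide +kernel
theorem p7027 : PrL chk L7027 := leafL c7027

theorem c7028 : lp7 (fun s => chk (ent L7028 s)) 0 = true := by decide +kernel
theorem p7028 : PrL chk L7028 := leafL c7028

theorem c7029 : lp7 (fun s => chk (ent L7029 s)) 0 = true := by decide +kernel
theorem p7029 : PrL chk L7029 := leafL c7029

theorem c7030 : lp7 (fun s => chk (ent L7030 s)) 0 = true := by decide +kernel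
theorem p7030 : PrL chk L7030 := leafL c7030

theorem c7031 : lp7 (fun s => chk (ent L7031 s)) 0 = true := by decide +kernel
theorem p7031 : PrL chk L7031 := leafL c7031

theorem c7032 : lp7 (fun s => chk (ent L7032 s)) 0 = true := by decide +kernel
theorem p7032 : PrL chk L7032 := leafL c7032

theorem c7033 : lp7 (fun s => chk (ent L7033 s)) 0 = true := by decide +kernel
theorem p7033 : PrL chk L7033 := leafL c7033

theorem c7034 : lp7 (fun s => chk (ent L7034 s)) 0 = true := by decide +kernel
theorem p7034 : PrL chk L7034 := leafL c7034

theorem c7035 : lp7 (fun s => chk (ent L7035 s)) 0 = true := by decide +kernel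
theorem p7035 : PrL chk L7035 := leafL c7035

theorem c7036 : lp7 (fun s => chk (ent L7036 s)) 0 = true := by decide +kernel
theorem p7036 : PrL chk L7036 := leafL c7036

theorem c7037 : lp7 (fun s => chk (ent L7037 s)) 0 = true := by decide +kernel
theorem p7037 : PrL chk L7037 := leafL c7037

theorem c7038 : lp7 (fun s => chk (ent L7038 s)) 0 = true := by decide +kernel
theorem p7038 : PrL chk L7038 := leafL c7038

theorem c7039 : lp7 (fun s => chk (ent L7039 s)) 0 = true := by decide +kernel
theorem p7039 : PrL chk L7039 := leafL c7039

theorem c7040 : lp7 (fun s => chk (ent L7040 s)) 0 = true := by decide +kernel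
theorem p7040 : PrL chk L7040 := leafL c7040

theorem c7041 : lp7 (fun s => chk (ent L7041 s)) 0 = true := by decide +kernel
theorem p7041 : PrL chk L7041 := leafL c7041

theorem c7042 : lp7 (fun s => chk (ent L7042 s)) 0 = true := by decide +kernel
theorem p7042 : PrL chk L7042 := leafL c7042

theorem c7043 : lp7 (fun s => chk (ent L7043 s)) 0 = true := by decide +kernel
theorem p7043 : PrL chk L7043 := leafL c7043

theorem c7044 : lp7 (fun s => chk (ent L7044 s)) 0 = true := by decide +kernel
theorem p7044 : PrL chk L7044 := leafL c7044

theorem c7045 : lp7 (fun s => chk (ent L7045 s)) 0 = true := by decide +kernel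
theorem p7045 : PrL chk L7045 := leafL c7045

theorem c7046 : lp7 (fun s => chk (ent L7046 s)) 0 = true := by decide +kernel
theorem p7046 : PrL chk L7046 := leafL c7046

theorem c7047 : lp7 (fun s => chk (ent L7047 s)) 0 = true := by decide +kernel
theorem p7047 : PrL chk L7047 := leafL c7047

theorem c7048 : lp7 (fun s => chk (ent L7048 s)) 0 = true := by decide +kernel
theorem p7048 : PrL chk L7048 := leafL c7048

theorem c7049 : lp7 (fun s => chk (ent L7049 s)) 0 = true := by decide +kernel
theorem p7049 : PrL chk L7049 := leafL c7049

theorem c7050 : lp7 (fun s => chk (ent L7050 s)) 0 = true := by decide +kernel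
theorem p7050 : PrL chk L7050 := leafL c7050

theorem c7051 : lp7 (fun s => chk (ent L7051 s)) 0 = true := by decide +kernel
theorem p7051 : PrL chk L7051 := leafL c7051

theorem c7052 : lp7 (fun s => chk (ent L7052 s)) 0 = true := by decide +kernel
theorem p7052 : PrL chk L7052 := leafL c7052

theorem c7053 : lp7 (fun s => chk (ent L7053 s)) 0 = true := by decide +kernel
theorem p7053 : PrL chk L7053 := leafL c7053

theorem c7054 : lp7 (fun s => chk (ent L7054 s)) 0 = true := by decide +kernel
theorem p7054 : PrL chk L7054 := leafL c7054

theorem c7055 : lp7 (fun s => chk (ent L7055 s)) 0 = true := by decide +kernel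
theorem p7055 : PrL chk L7055 := leafL c7055

theorem c7056 : lp7 (fun s => chk (ent L7056 s)) 0 = true := by decide +kernel
theorem p7056 : PrL chk L7056 := leafL c7056

theorem c7057 : lp7 (fun s => chk (ent L7057 s)) 0 = true := by decide +kernel
theorem p7057 : PrL chk L7057 := leafL c7057

theorem c7058 : lp7 (fun s => chk (ent L7058 s)) 0 = true := by decide +kernel
theorem p7058 : PrL chk L7058 := leafL c7058

theorem c7059 : lp7 (fun s => chk (ent L7059 s)) 0 = true := by decide +kernel
theorem p7059 : PrL chk L7059 := leafL c7059

theorem c7060 : lp7 (fun s => chk (ent L7060 s)) 0 = true := by decide +kernel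
theorem p7060 : PrL chk L7060 := leafL c7060

theorem c7061 : lp7 (fun s => chk (ent L7061 s)) 0 = true := by decide +kernel
theorem p7061 : PrL chk L7061 := leafL c7061

theorem c7062 : lp7 (fun s => chk (ent L7062 s)) 0 = true := by decide +kernel
theorem p7062 : PrL chk L7062 := leafL c7062

theorem c7063 : lp7 (fun s => chk (ent L7063 s)) 0 = true := by decide +kernel
theorem p7063 : PrL chk L7063 := leafL c7063

theorem c7064 : lp7 (fun s => chk (ent L7064 s)) 0 = true := by decide +kernel
theorem p7064 : PrL chk L7064 := leafL c7064

theorem c7065 : lp7 (fun s => chk (ent L7065 s)) 0 = true := by decide +kernel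
theorem p7065 : PrL chk L7065 := leafL c7065

theorem c7066 : lp7 (fun s => chk (ent L7066 s)) 0 = true := by decide +kernel
theorem p7066 : PrL chk L7066 := leafL c7066

theorem c7067 : lp7 (fun s => chk (ent L7067 s)) 0 = true := by decide +kernel
theorem p7067 : PrL chk L7067 := leafL c7067

theorem c7068 : lp7 (fun s => chk (ent L7068 s)) 0 = true := by decide +kernel
theorem p7068 : PrL chk L7068 := leafL c7068

theorem c7069 : lp7 (fun s => chk (ent L7069 s)) 0 = true := by decide +kernel
theorem p7069 : PrL chk L7069 := leafL c7069

theorem c7070 : lp7 (fun s => chk (ent L7070 s)) 0 = true := by decide +kernel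
theorem p7070 : PrL chk L7070 := leafL c7070

theorem c7071 : lp7 (fun s => chk (ent L7071 s)) 0 = true := by decide +kernel
theorem p7071 : PrL chk L7071 := leafL c7071

theorem c7072 : lp7 (fun s => chk (ent L7072 s)) 0 = true := by decide +kernel
theorem p7072 : PrL chk L7072 := leafL c7072

theorem c7073 : lp7 (fun s => chk (ent L7073 s)) 0 = true := by decide +kernel
theorem p7073 : PrL chk L7073 := leafL c7073

theorem c7074 : lp7 (fun s => chk (ent L7074 s)) 0 = true := by decide +kernel
theorem p7074 : PrL chk L7074 := leafL c7074

theorem c7075 : lp7 (fun s => chk (ent L7075 s)) 0 = true := by decide +kernel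
theorem p7075 : PrL chk L7075 := leafL c7075

theorem c7076 : lp7 (fun s => chk (ent L7076 s)) 0 = true := by decide +kernel
theorem p7076 : PrL chk L7076 := leafL c7076

theorem c7077 : lp7 (fun s => chk (ent L7077 s)) 0 = true := by decide +kernel
theorem p7077 : PrL chk L7077 := leafL c7077

theorem c7078 : lp7 (fun s => chk (ent L7078 s)) 0 = true := by decide +kernel
theorem p7078 : PrL chk L7078 := leafL c7078

theorem c7079 : lp7 (fun s => chk (ent L7079 s)) 0 = true := by decide +kernel
theorem p7079 : PrL chk L7079 := leafL c7079

theorem c7080 : lp7 (fun s => chk (ent L7080 s)) 0 = true := by decide +kernel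
theorem p7080 : PrL chk L7080 := leafL c7080

theorem c7081 : lp7 (fun s => chk (ent L7081 s)) 0 = true := by decide +kernel
theorem p7081 : PrL chk L7081 := leafL c7081

theorem c7082 : lp7 (fun s => chk (ent L7082 s)) 0 = true := by decide +kernel
theorem p7082 : PrL chk L7082 := leafL c7082

theorem c7083 : lp7 (fun s => chk (ent L7083 s)) 0 = true := by decide +kernel
theorem p7083 : PrL chk L7083 := leafL c7083

theorem c7084 : lp7 (fun s => chk (ent L7084 s)) 0 = true := by decide +kernel
theorem p7084 : PrL chk L7084 := leafL c7084

theorem c7085 : lp7 (fun s => chk (ent L7085 s)) 0 = true := by decide +kernel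
theorem p7085 : PrL chk L7085 := leafL c7085

theorem c7086 : lp7 (fun s => chk (ent L7086 s)) 0 = true := by decide +kernel
theorem p7086 : PrL chk L7086 := leafL c7086

theorem c7087 : lp7 (fun s => chk (ent L7087 s)) 0 = true := by decide +kernel
theorem p7087 : PrL chk L7087 := leafL c7087

theorem c7088 : lp7 (fun s => chk (ent L7088 s)) 0 = true := by decide +kernel
theorem p7088 : PrL chk L7088 := leafL c7088

theorem c7089 : lp7 (fun s => chk (ent L7089 s)) 0 = true := by decide +kernel
theorem p7089 : PrL chk L7089 := leafL c7089

theorem c7090 : lp7 (fun s => chk (ent L7090 s)) 0 = true := by decide +kernel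
theorem p7090 : PrL chk L7090 := leafL c7090

theorem c7091 : lp7 (fun s => chk (ent L7091 s)) 0 = true := by decide +kernel
theorem p7091 : PrL chk L7091 := leafL c7091

theorem c7092 : lp7 (fun s => chk (ent L7092 s)) 0 = true := by decide +kernel
theorem p7092 : PrL chk L7092 := leafL c7092

theorem c7093 : lp7 (fun s => chk (ent L7093 s)) 0 = true := by decide +kernel
theorem p7093 : PrL chk L7093 := leafL c7093

theorem c7094 : lp7 (fun s => chk (ent L7094 s)) 0 = true := by decide +kernel
theorem p7094 : PrL chk L7094 := leafL c7094

theorem c7095 : lp7 (fun s => chk (ent L7095 s)) 0 = true := by decide +kernel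
theorem p7095 : PrL chk L7095 := leafL c7095

theorem c7096 : lp7 (fun s => chk (ent L7096 s)) 0 = true := by decide +kernel
theorem p7096 : PrL chk L7096 := leafL c7096

theorem c7097 : lp7 (fun s => chk (ent L7097 s)) 0 = true := by decide +kernel
theorem p7097 : PrL chk L7097 := leafL c7097

theorem c7098 : lp7 (fun s => chk (ent L7098 s)) 0 = true := by decide +kernel
theorem p7098 : PrL chk L7098 := leafL c7098

theorem c7099 : lp7 (fun s => chk (ent L7099 s)) 0 = true := by decide +kernel
theorem p7099 : PrL chk L7099 := leafL c7099

theorem c7100 : lp7 (fun s => chk (ent L7100 s)) 0 = true := by decide +kernel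
theorem p7100 : PrL chk L7100 := leafL c7100

theorem c7101 : lp7 (fun s => chk (ent L7101 s)) 0 = true := by decide +kernel
theorem p7101 : PrL chk L7101 := leafL c7101

theorem c7102 : lp7 (fun s => chk (ent L7102 s)) 0 = true := by decide +kernel
theorem p7102 : PrL chk L7102 := leafL c7102

theorem c7103 : lp7 (fun s => chk (ent L7103 s)) 0 = true := by decide +kernel
theorem p7103 : PrL chk L7103 := leafL c7103

theorem c7104 : lp7 (fun s => chk (ent L7104 s)) 0 = true := by decide +kernel
theorem p7104 : PrL chk L7104 := leafL c7104

theorem c7105 : lp7 (fun s => chk (ent L7105 s)) 0 = true := by decide +kernel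
theorem p7105 : PrL chk L7105 := leafL c7105

theorem c7106 : lp7 (fun s => chk (ent L7106 s)) 0 = true := by decide +kernel
theorem p7106 : PrL chk L7106 := leafL c7106

theorem c7107 : lp7 (fun s => chk (ent L7107 s)) 0 = true := by decide +kernel
theorem p7107 : PrL chk L7107 := leafL c7107

theorem c7108 : lp7 (fun s => chk (ent L7108 s)) 0 = true := by decide +kernel
theorem p7108 : PrL chk L7108 := leafL c7108

theorem c7109 : lp7 (fun s => chk (ent L7109 s)) 0 = true := by decide +kernel
theorem p7109 : PrL chk L7109 := leafL c7109

theorem c7110 : lp7 (fun s => chk (ent L7110 s)) 0 = true := by decide +kernel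
theorem p7110 : PrL chk L7110 := leafL c7110

theorem c7111 : lp7 (fun s => chk (ent L7111 s)) 0 = true := by decide +kernel
theorem p7111 : PrL chk L7111 := leafL c7111

theorem c7112 : lp7 (fun s => chk (ent L7112 s)) 0 = true := by decide +kernel
theorem p7112 : PrL chk L7112 := leafL c7112

theorem c7113 : lp7 (fun s => chk (ent L7113 s)) 0 = true := by decide +kernel
theorem p7113 : PrL chk L7113 := leafL c7113

theorem c7114 : lp7 (fun s => chk (ent L7114 s)) 0 = true := by decide +kernel
theorem p7114 : PrL chk L7114 := leafL c7114

theorem c7115 : lp7 (fun s => chk (ent L7115 s)) 0 = true := by decide +kernel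
theorem p7115 : PrL chk L7115 := leafL c7115

theorem c7116 : lp7 (fun s => chk (ent L7116 s)) 0 = true := by decide +kernel
theorem p7116 : PrL chk L7116 := leafL c7116

theorem c7117 : lp7 (fun s => chk (ent L7117 s)) 0 = true := by decide +kernel
theorem p7117 : PrL chk L7117 := leafL c7117

theorem c7118 : lp7 (fun s => chk (ent L7118 s)) 0 = true := by decide +kernel
theorem p7118 : PrL chk L7118 := leafL c7118

theorem c7119 : lp7 (fun s => chk (ent L7119 s)) 0 = true := by decide +kernel
theorem p7119 : PrL chk L7119 := leafL c7119

theorem c7120 : lp7 (fun s => chk (ent L7120 s)) 0 = true := by decide +kernel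
theorem p7120 : PrL chk L7120 := leafL c7120

theorem c7121 : lp7 (fun s => chk (ent L7121 s)) 0 = true := by decide +kernel
theorem p7121 : PrL chk L7121 := leafL c7121

theorem c7122 : lp7 (fun s => chk (ent L7122 s)) 0 = true := by decide +kernel
theorem p7122 : PrL chk L7122 := leafL c7122

theorem c7123 : lp7 (fun s => chk (ent L7123 s)) 0 = true := by decide +kernel
theorem p7123 : PrL chk L7123 := leafL c7123

theorem c7124 : lp7 (fun s => chk (ent L7124 s)) 0 = true := by decide +kernel
theorem p7124 : PrL chk L7124 := leafL c7124

theorem c7125 : lp7 (fun s => chk (ent L7125 s)) 0 = true := by decide +kernel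
theorem p7125 : PrL chk L7125 := leafL c7125

theorem c7126 : lp7 (fun s => chk (ent L7126 s)) 0 = true := by decide +kernel
theorem p7126 : PrL chk L7126 := leafL c7126

theorem c7127 : lp7 (fun s => chk (ent L7127 s)) 0 = true := by decide +kernel
theorem p7127 : PrL chk L7127 := leafL c7127

theorem c7128 : lp7 (fun s => chk (ent L7128 s)) 0 = true := by decide +kernel
theorem p7128 : PrL chk L7128 := leafL c7128

theorem c7129 : lp7 (fun s => chk (ent L7129 s)) 0 = true := by decide +kernel
theorem p7129 : PrL chk L7129 := leafL c7129

theorem c7130 : lp7 (fun s => chk (ent L7130 s)) 0 = true := by decide +kernel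
theorem p7130 : PrL chk L7130 := leafL c7130

theorem c7131 : lp7 (fun s => chk (ent L7131 s)) 0 = true := by decide +kernel
theorem p7131 : PrL chk L7131 := leafL c7131

theorem c7132 : lp7 (fun s => chk (ent L7132 s)) 0 = true := by decide +kernel
theorem p7132 : PrL chk L7132 := leafL c7132

theorem c7133 : lp7 (fun s => chk (ent L7133 s)) 0 = true := by decide +kernel
theorem p7133 : PrL chk L7133 := leafL c7133

theorem c7134 : lp7 (fun s => chk (ent L7134 s)) 0 = true := by decide +kernel
theorem p7134 : PrL chk L7134 := leafL c7134

theorem c7135 : lp7 (fun s => chk (ent L7135 s)) 0 = true := by decide +kernel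
theorem p7135 : PrL chk L7135 := leafL c7135

theorem c7136 : lp7 (fun s => chk (ent L7136 s)) 0 = true := by decide +kernel
theorem p7136 : PrL chk L7136 := leafL c7136

theorem c7137 : lp7 (fun s => chk (ent L7137 s)) 0 = true := by decide +kernel
theorem p7137 : PrL chk L7137 := leafL c7137

theorem c7138 : lp7 (fun s => chk (ent L7138 s)) 0 = true := by decide +kernel
theorem p7138 : PrL chk L7138 := leafL c7138

theorem c7139 : lp7 (fun s => chk (ent L7139 s)) 0 = true := by decide +kernel
theorem p7139 : PrL chk L7139 := leafL c7139

theorem c7140 : lp7 (fun s => chk (ent L7140 s)) 0 = true := by decide +kernel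
theorem p7140 : PrL chk L7140 := leafL c7140

theorem c7141 : lp7 (fun s => chk (ent L7141 s)) 0 = true := by decide +kernel
theorem p7141 : PrL chk L7141 := leafL c7141

theorem c7142 : lp7 (fun s => chk (ent L7142 s)) 0 = true := by decide +kernel
theorem p7142 : PrL chk L7142 := leafL c7142

theorem c7143 : lp7 (fun s => chk (ent L7143 s)) 0 = true := by decide +kernel
theorem p7143 : PrL chk L7143 := leafL c7143

theorem c7144 : lp7 (fun s => chk (ent L7144 s)) 0 = true := by decide +kernel
theorem p7144 : PrL chk L7144 := leafL c7144

theorem c7145 : lp7 (fun s => chk (ent L7145 s)) 0 = true := by decide +kernel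
theorem p7145 : PrL chk L7145 := leafL c7145

theorem c7146 : lp7 (fun s => chk (ent L7146 s)) 0 = true := by decide +kernel
theorem p7146 : PrL chk L7146 := leafL c7146

theorem c7147 : lp7 (fun s => chk (ent L7147 s)) 0 = true := by decide +kernel
theorem p7147 : PrL chk L7147 := leafL c7147

theorem c7148 : lp7 (fun s => chk (ent L7148 s)) 0 = true := by decide +kernel
theorem p7148 : PrL chk L7148 := leafL c7148

theorem c7149 : lp7 (fun s => chk (ent L7149 s)) 0 = true := by decide +kernel
theorem p7149 : PrL chk L7149 := leafL c7149

theorem c7150 : lp7 (fun s => chk (ent L7150 s)) 0 = true := by decide +kernel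
theorem p7150 : PrL chk L7150 := leafL c7150

theorem c7151 : lp7 (fun s => chk (ent L7151 s)) 0 = true := by decide +kernel
theorem p7151 : PrL chk L7151 := leafL c7151

theorem c7152 : lp7 (fun s => chk (ent L7152 s)) 0 = true := by decide +kernel
theorem p7152 : PrL chk L7152 := leafL c7152

theorem c7153 : lp7 (fun s => chk (ent L7153 s)) 0 = true := by decide +kernel
theorem p7153 : PrL chk L7153 := leafL c7153

theorem c7154 : lp7 (fun s => chk (ent L7154 s)) 0 = true := by decide +kernel
theorem p7154 : PrL chk L7154 := leafL c7154

theorem c7155 : lp7 (fun s => chk (ent L7155 s)) 0 = true := by decide +kernel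
theorem p7155 : PrL chk L7155 := leafL c7155

theorem c7156 : lp7 (fun s => chk (ent L7156 s)) 0 = true := by decide +kernel
theorem p7156 : PrL chk L7156 := leafL c7156

theorem c7157 : lp7 (fun s => chk (ent L7157 s)) 0 = true := by decide +kernel
theorem p7157 : PrL chk L7157 := leafL c7157

theorem c7158 : lp7 (fun s => chk (ent L7158 s)) 0 = true := by decide +kernel
theorem p7158 : PrL chk L7158 := leafL c7158

theorem c7159 : lp7 (fun s => chk (ent L7159 s)) 0 = true := by decide +kernel
theorem p7159 : PrL chk L7159 := leafL c7159

theorem c7160 : lp7 (fun s => chk (ent L7160 s)) 0 = true := by decide +kernel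
theorem p7160 : PrL chk L7160 := leafL c7160

theorem c7161 : lp7 (fun s => chk (ent L7161 s)) 0 = true := by decide +kernel
theorem p7161 : PrL chk L7161 := leafL c7161

theorem c7162 : lp7 (fun s => chk (ent L7162 s)) 0 = true := by decide +kernel
theorem p7162 : PrL chk L7162 := leafL c7162

theorem c7163 : lp7 (fun s => chk (ent L7163 s)) 0 = true := by decide +kernel
theorem p7163 : PrL chk L7163 := leafL c7163

theorem c7164 : lp7 (fun s => chk (ent L7164 s)) 0 = true := by decide +kernel
theorem p7164 : PrL chk L7164 := leafL c7164

theorem c7165 : lp7 (fun s => chk (ent L7165 s)) 0 = true := by decide +kernel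
theorem p7165 : PrL chk L7165 := leafL c7165

theorem c7166 : lp7 (fun s => chk (ent L7166 s)) 0 = true := by decide +kernel
theorem p7166 : PrL chk L7166 := leafL c7166

theorem c7167 : lp7 (fun s => chk (ent L7167 s)) 0 = true := by decide +kernel
theorem p7167 : PrL chk L7167 := leafL c7167

end Pool.Agent.ad013a.LA
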