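import Pool.Agent.H.MP_ad013a_pr.h63l.A.T
import Pool.Agent.H.MP_ad013a_pr.h63w.VLoop

namespace Pool.Agent.ad013a.LA

theorem c7168 : lp7 (fun s => chk (ent L7168 s)) 0 = true := by decide +kernel
theorem p7168 : PrL chk L7168 := leafL c7168

theorem c7169 : lp7 (fun s => chk (ent L7169 s)) 0 = true := by decide +kernel
theorem p7169 : PrL chk L7169 := leafL c7169

theorem c7170 : lp7 (fun s => chk (ent L7170 s)) 0 = true := by decide +kernel
theorem p7170 : PrL chk L7170 := leafL c7170

theorem c7171 : lp7 (fun s => chk (ent L7171 s)) 0 = true := by decide +kernel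
theorem p7171 : PrL chk L7171 := leafL c7171

theorem c7172 : lp7 (fun s => chk (ent L7172 s)) 0 = true := by decide +kernel
theorem p7172 : PrL chk L7172 := leafL c7172

theorem c7173 : lp7 (fun s => chk (ent L7173 s)) 0 = true := by decide +kernel
theorem p7173 : PrL chk L7173 := leafL c7173

theorem c7174 : lp7 (fun s => chk (ent L7174 s)) 0 = true := by decide +kernel
theorem p7174 : PrL chk L7174 := leafL c7174

theorem c7175 : lp7 (fun s => chk (ent L7175 s)) 0 = true := by decide +kernel
theorem p7175 : PrL chk L7175 := leafL c7175

theorem c7176 : lp7 (fun s => chk (ent L7176 s)) 0 = true := by decide +kernel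
theorem p7176 : PrL chk L7176 := leafL c7176

theorem c7177 : lp7 (fun s => chk (ent L7177 s)) 0 = true := by decide +kernel
theorem p7177 : PrL chk L7177 := leafL c7177

theorem c7178 : lp7 (fun s => chk (ent L7178 s)) 0 = true := by decide +kernel
theorem p7178 : PrL chk L7178 := leafL c7178

theorem c7179 : lp7 (fun s => chk (ent L7179 s)) 0 = true := by decide +kernel
theorem p7179 : PrL chk L7179 := leafL c7179

theorem c7180 : lp7 (fun s => chk (ent L7180 s)) 0 = true := by decide +kernel
theorem p7180 : PrL chk L7180 := leafL c7180

theorem c7181 : lp7 (fun s => chk (ent L7181 s)) 0 = true := by decide +kernel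
theorem p7181 : PrL chk L7181 := leafL c7181

theorem c7182 : lp7 (fun s => chk (ent L7182 s)) 0 = true := by decide +kernel
theorem p7182 : PrL chk L7182 := leafL c7182

theorem c7183 : lp7 (fun s => chk (ent L7183 s)) 0 = true := by decide +kernel
theorem p7183 : PrL chk L7183 := leafL c7183

theorem c7184 : lp7 (fun s => chk (ent L7184 s)) 0 = true := by decide +kernel
theorem p7184 : PrL chk L7184 := leafL c7184

theorem c7185 : lp7 (fun s => chk (ent L7185 s)) 0 = true := by decide +kernel
theorem p7185 : PrL chk L7185 := leafL c7185

theorem c7186 : lp7 (fun s => chk (ent L7186 s)) 0 = true := by decide +kernel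
theorem p7186 : PrL chk L7186 := leafL c7186

theorem c7187 : lp7 (fun s => chk (ent L7187 s)) 0 = true := by decide +kernel
theorem p7187 : PrL chk L7187 := leafL c7187

theorem c7188 : lp7 (fun s => chk (ent L7188 s)) 0 = true := by decide +kernel
theorem p7188 : PrL chk L7188 := leafL c7188

theorem c7189 : lp7 (fun s => chk (ent L7189 s)) 0 = true := by decide +kernel
theorem p7189 : PrL chk L7189 := leafL c7189

theorem c7190 : lp7 (fun s => chk (ent L7190 s)) 0 = true := by decide +kernel
theorem p7190 : PrL chk L7190 := leafL c7190

theorem c7191 : lp7 (fun s => chk (ent L7191 s)) 0 = true := by decide +kernel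
theorem p7191 : PrL chk L7191 := leafL c7191

theorem c7192 : lp7 (fun s => chk (ent L7192 s)) 0 = true := by decide +kernel
theorem p7192 : PrL chk L7192 := leafL c7192

theorem c7193 : lp7 (fun s => chk (ent L7193 s)) 0 = true := by decide +kernel
theorem p7193 : PrL chk L7193 := leafL c7193

theorem c7194 : lp7 (fun s => chk (ent L7194 s)) 0 = true := by decide +kernel
theorem p7194 : PrL chk L7194 := leafL c7194

theorem c7195 : lp7 (fun s => chk (ent L7195 s)) 0 = true := by decide +kernel
theorem p7195 : PrL chk L7195 := leafL c7195

theorem c7196 : lp7 (fun s => chk (ent L7196 s)) 0 = true := by decide +kernel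
theorem p7196 : PrL chk L7196 := leafL c7196

theorem c7197 : lp7 (fun s => chk (ent L7197 s)) 0 = true := by decide +kernel
theorem p7197 : PrL chk L7197 := leafL c7197

theorem c7198 : lp7 (fun s => chk (ent L7198 s)) 0 = true := by decide +kernel
theorem p7198 : PrL chk L7198 := leafL c7198

theorem c7199 : lp7 (fun s => chk (ent L7199 s)) 0 = true := by decide +kernel
theorem p7199 : PrL chk L7199 := leafL c7199

theorem c7200 : lp7 (fun s => chk (ent L7200 s)) 0 = true := by decide +kernel
theorem p7200 : PrL chk L7200 := leafL c7200

theorem c7201 : lp7 (fun s => chk (ent L7201 s)) 0 = true := by decide +kernel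
theorem p7201 : PrL chk L7201 := leafL c7201

theorem c7202 : lp7 (fun s => chk (ent L7202 s)) 0 = true := by decide +kernel
theorem p7202 : PrL chk L7202 := leafL c7202

theorem c7203 : lp7 (fun s => chk (ent L7203 s)) 0 = true := by decide +kernel
theorem p7203 : PrL chk L7203 := leafL c7203

theorem c7204 : lp7 (fun s => chk (ent L7204 s)) 0 = true := by decide +kernel
theorem p7204 : PrL chk L7204 := leafL c7204

theorem c7205 : lp7 (fun s => chk (ent L7205 s)) 0 = true := by decide +kernel
theorem p7205 : PrL chk L7205 := leafL c7205

theorem c7206 : lp7 (fun s => chk (ent L7206 s)) 0 = true := by decide +kernel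
theorem p7206 : PrL chk L7206 := leafL c7206

theorem c7207 : lp7 (fun s => chk (ent L7207 s)) 0 = true := by decide +kernel
theorem p7207 : PrL chk L7207 := leafL c7207

theorem c7208 : lp7 (fun s => chk (ent L7208 s)) 0 = true := by decide +kernel
theorem p7208 : PrL chk L7208 := leafL c7208

theorem c7209 : lp7 (fun s => chk (ent L7209 s)) 0 = true := by decide +kernel
theorem p7209 : PrL chk L7209 := leafL c7209

theorem c7210 : lp7 (fun s => chk (ent L7210 s)) 0 = true := by decide +kernel
theorem p7210 : PrL chk L7210 := leafL c7210

theorem c7211 : lp7 (fun s => chk (ent L7211 s)) 0 = true := by decide +kernel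
theorem p7211 : PrL chk L7211 := leafL c7211

theorem c7212 : lp7 (fun s => chk (ent L7212 s)) 0 = true := by decide +kernel
theorem p7212 : PrL chk L7212 := leafL c7212

theorem c7213 : lp7 (fun s => chk (ent L7213 s)) 0 = true := by decide +kernel
theorem p7213 : PrL chk L7213 := leafL c7213

theorem c7214 : lp7 (fun s => chk (ent L7214 s)) 0 = true := by decide +kernel
theorem p7214 : PrL chk L7214 := leafL c7214

theorem c7215 : lp7 (fun s => chk (ent L7215 s)) 0 = true := by decide +kernel
theorem p7215 : PrL chk L7215 := leafL c7215

theorem c7216 : lp7 (fun s => chk (ent L7216 s)) 0 = true := by decide +kernel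
theorem p7216 : PrL chk L7216 := leafL c7216

theorem c7217 : lp7 (fun s => chk (ent L7217 s)) 0 = true := by decide +kernel
theorem p7217 : PrL chk L7217 := leafL c7217

theorem c7218 : lp7 (fun s => chk (ent L7218 s)) 0 = true := by decide +kernel
theorem p7218 : PrL chk L7218 := leafL c7218

theorem c7219 : lp7 (fun s => chk (ent L7219 s)) 0 = true := by decide +kernel
theorem p7219 : PrL chk L7219 := leafL c7219

theorem c7220 : lp7 (fun s => chk (ent L7220 s)) 0 = true := by decide +kernel
theorem p7220 : PrL chk L7220 := leafL c7220

theorem c7221 : lp7 (fun s => chk (ent L7221 s)) 0 = true := by decide +kernel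
theorem p7221 : PrL chk L7221 := leafL c7221

theorem c7222 : lp7 (fun s => chk (ent L7222 s)) 0 = true := by decide +kernel
theorem p7222 : PrL chk L7222 := leafL c7222

theorem c7223 : lp7 (fun s => chk (ent L7223 s)) 0 = true := by decide +kernel
theorem p7223 : PrL chk L7223 := leafL c7223

theorem c7224 : lp7 (fun s => chk (ent L7224 s)) 0 = true := by decide +kernel
theorem p7224 : PrL chk L7224 := leafL c7224

theorem c7225 : lp7 (fun s => chk (ent L7225 s)) 0 = true := by decide +kernel
theorem p7225 : PrL chk L7225 := leafL c7225

theorem c7226 : lp7 (fun s => chk (ent L7226 s)) 0 = true := by decide +kernel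
theorem p7226 : PrL chk L7226 := leafL c7226

theorem c7227 : lp7 (fun s => chk (ent L7227 s)) 0 = true := by decide +kernel
theorem p7227 : PrL chk L7227 := leafL c7227

theorem c7228 : lp7 (fun s => chk (ent L7228 s)) 0 = true := by decide +kernel
theorem p7228 : PrL chk L7228 := leafL c7228

theorem c7229 : lp7 (fun s => chk (ent L7229 s)) 0 = true := by decide +kernel
theorem p7229 : PrL chk L7229 := leafL c7229

theorem c7230 : lp7 (fun s => chk (ent L7230 s)) 0 = true := by decide +kernel
theorem p7230 : PrL chk L7230 := leafL c7230

theorem c7231 : lp7 (fun s => chk (ent L7231 s)) 0 = true := by decide +kernel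
theorem p7231 : PrL chk L7231 := leafL c7231

theorem c7232 : lp7 (fun s => chk (ent L7232 s)) 0 = true := by decide +kernel
theorem p7232 : PrL chk L7232 := leafL c7232

theorem c7233 : lp7 (fun s => chk (ent L7233 s)) 0 = true := by decide +kernel
theorem p7233 : PrL chk L7233 := leafL c7233

theorem c7234 : lp7 (fun s => chk (ent L7234 s)) 0 = true := by decide +kernel
theorem p7234 : PrL chk L7234 := leafL c7234

theorem c7235 : lp7 (fun s => chk (ent L7235 s)) 0 = true := by decide +kernel
theorem p7235 : PrL chk L7235 := leafL c7235

theorem c7236 : lp7 (fun s => chk (ent L7236 s)) 0 = true := by decide +kernel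
theorem p7236 : PrL chk L7236 := leafL c7236

theorem c7237 : lp7 (fun s => chk (ent L7237 s)) 0 = true := by decide +kernel
theorem p7237 : PrL chk L7237 := leafL c7237

theorem c7238 : lp7 (fun s => chk (ent L7238 s)) 0 = true := by decide +kernel
theorem p7238 : PrL chk L7238 := leafL c7238

theorem c7239 : lp7 (fun s => chk (ent L7239 s)) 0 = true := by decide +kernel
theorem p7239 : PrL chk L7239 := leafL c7239

theorem c7240 : lp7 (fun s => chk (ent L7240 s)) 0 = true := by decide +kernel
theorem p7240 : PrL chk L7240 := leafL c7240

theorem c7241 : lp7 (fun s => chk (ent L7241 s)) 0 = true := by decide +kernel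
theorem p7241 : PrL chk L7241 := leafL c7241

theorem c7242 : lp7 (fun s => chk (ent L7242 s)) 0 = true := by decide +kernel
theorem p7242 : PrL chk L7242 := leafL c7242

theorem c7243 : lp7 (fun s => chk (ent L7243 s)) 0 = true := by decide +kernel
theorem p7243 : PrL chk L7243 := leafL c7243

theorem c7244 : lp7 (fun s => chk (ent L7244 s)) 0 = true := by decide +kernel
theorem p7244 : PrL chk L7244 := leafL c7244

theorem c7245 : lp7 (fun s => chk (ent L7245 s)) 0 = true := by decide +kernel
theorem p7245 : PrL chk L7245 := leafL c7245

theorem c7246 : lp7 (fun s => chk (ent L7246 s)) 0 = true := by decide +kernel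
theorem p7246 : PrL chk L7246 := leafL c7246

theorem c7247 : lp7 (fun s => chk (ent L7247 s)) 0 = true := by decide +kernel
theorem p7247 : PrL chk L7247 := leafL c7247

theorem c7248 : lp7 (fun s => chk (ent L7248 s)) 0 = true := by decide +kernel
theorem p7248 : PrL chk L7248 := leafL c7248

theorem c7249 : lp7 (fun s => chk (ent L7249 s)) 0 = true := by decide +kernel
theorem p7249 : PrL chk L7249 := leafL c7249

theorem c7250 : lp7 (fun s => chk (ent L7250 s)) 0 = true := by decide +kernel
theorem p7250 : PrL chk L7250 := leafL c7250

theorem c7251 : lp7 (fun s => chk (ent L7251 s)) 0 = true := by decide +kernel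
theorem p7251 : PrL chk L7251 := leafL c7251

theorem c7252 : lp7 (fun s => chk (ent L7252 s)) 0 = true := by decide +kernel
theorem p7252 : PrL chk L7252 := leafL c7252

theorem c7253 : lp7 (fun s => chk (ent L7253 s)) 0 = true := by decide +kernel
theorem p7253 : PrL chk L7253 := leafL c7253

theorem c7254 : lp7 (fun s => chk (ent L7254 s)) 0 = true := by decide +kernel
theorem p7254 : PrL chk L7254 := leafL c7254

theorem c7255 : lp7 (fun s => chk (ent L7255 s)) 0 = true := by decide +kernel
theorem p7255 : PrL chk L7255 := leafL c7255

theorem c7256 : lp7 (fun s => chk (ent L7256 s)) 0 = true := by decide +kernel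
theorem p7256 : PrL chk L7256 := leafL c7256

theorem c7257 : lp7 (fun s => chk (ent L7257 s)) 0 = true := by decide +kernel
theorem p7257 : PrL chk L7257 := leafL c7257

theorem c7258 : lp7 (fun s => chk (ent L7258 s)) 0 = true := by decide +kernel
theorem p7258 : PrL chk L7258 := leafL c7258

theorem c7259 : lp7 (fun s => chk (ent L7259 s)) 0 = true := by decide +kernel
theorem p7259 : PrL chk L7259 := leafL c7259

theorem c7260 : lp7 (fun s => chk (ent L7260 s)) 0 = true := by decide +kernel
theorem p7260 : PrL chk L7260 := leafL c7260

theorem c7261 : lp7 (fun s => chk (ent L7261 s)) 0 = true := by decide +kernel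
theorem p7261 : PrL chk L7261 := leafL c7261

theorem c7262 : lp7 (fun s => chk (ent L7262 s)) 0 = true := by decide +kernel
theorem p7262 : PrL chk L7262 := leafL c7262

theorem c7263 : lp7 (fun s => chk (ent L7263 s)) 0 = true := by decide +kernel
theorem p7263 : PrL chk L7263 := leafL c7263

theorem c7264 : lp7 (fun s => chk (ent L7264 s)) 0 = true := by decide +kernel
theorem p7264 : PrL chk L7264 := leafL c7264

theorem c7265 : lp7 (fun s => chk (ent L7265 s)) 0 = true := by decide +kernel
theorem p7265 : PrL chk L7265 := leafL c7265

theorem c7266 : lp7 (fun s => chk (ent L7266 s)) 0 = true := by decide +kernel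
theorem p7266 : PrL chk L7266 := leafL c7266

theorem c7267 : lp7 (fun s => chk (ent L7267 s)) 0 = true := by decide +kernel
theorem p7267 : PrL chk L7267 := leafL c7267

theorem c7268 : lp7 (fun s => chk (ent L7268 s)) 0 = true := by decide +kernel
theorem p7268 : PrL chk L7268 := leafL c7268

theorem c7269 : lp7 (fun s => chk (ent L7269 s)) 0 = true := by decide +kernel
theorem p7269 : PrL chk L7269 := leafL c7269

theorem c7270 : lp7 (fun s => chk (ent L7270 s)) 0 = true := by decide +kernel
theorem p7270 : PrL chk L7270 := leafL c7270

theorem c7271 : lp7 (fun s => chk (ent L7271 s)) 0 = true := by decide +kernel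
theorem p7271 : PrL chk L7271 := leafL c7271

theorem c7272 : lp7 (fun s => chk (ent L7272 s)) 0 = true := by decide +kernel
theorem p7272 : PrL chk L7272 := leafL c7272

theorem c7273 : lp7 (fun s => chk (ent L7273 s)) 0 = true := by decide +kernel
theorem p7273 : PrL chk L7273 := leafL c7273

theorem c7274 : lp7 (fun s => chk (ent L7274 s)) 0 = true := by decide +kernel
theorem p7274 : PrL chk L7274 := leafL c7274

theorem c7275 : lp7 (fun s => chk (ent L7275 s)) 0 = true := by decide +kernel
theorem p7275 : PrL chk L7275 := leafL c7275

theorem c7276 : lp7 (fun s => chk (ent L7276 s)) 0 = true := by decide +kernel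
theorem p7276 : PrL chk L7276 := leafL c7276

theorem c7277 : lp7 (fun s => chk (ent L7277 s)) 0 = true := by decide +kernel
theorem p7277 : PrL chk L7277 := leafL c7277

theorem c7278 : lp7 (fun s => chk (ent L7278 s)) 0 = true := by decide +kernel
theorem p7278 : PrL chk L7278 := leafL c7278

theorem c7279 : lp7 (fun s => chk (ent L7279 s)) 0 = true := by decide +kernel
theorem p7279 : PrL chk L7279 := leafL c7279

theorem c7280 : lp7 (fun s => chk (ent L7280 s)) 0 = true := by decide +kernel
theorem p7280 : PrL chk L7280 := leafL c7280

theorem c7281 : lp7 (fun s => chk (ent L7281 s)) 0 = true := by decide +kernel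
theorem p7281 : PrL chk L7281 := leafL c7281

theorem c7282 : lp7 (fun s => chk (ent L7282 s)) 0 = true := by decide +kernel
theorem p7282 : PrL chk L7282 := leafL c7282

theorem c7283 : lp7 (fun s => chk (ent L7283 s)) 0 = true := by decide +kernel
theorem p7283 : PrL chk L7283 := leafL c7283

theorem c7284 : lp7 (fun s => chk (ent L7284 s)) 0 = true := by decide +kernel
theorem p7284 : PrL chk L7284 := leafL c7284

theorem c7285 : lp7 (fun s => chk (ent L7285 s)) 0 = true := by decide +kernel
theorem p7285 : PrL chk L7285 := leafL c7285

theorem c7286 : lp7 (fun s => chk (ent L7286 s)) 0 = true := by decide +kernel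
theorem p7286 : PrL chk L7286 := leafL c7286

theorem c7287 : lp7 (fun s => chk (ent L7287 s)) 0 = true := by decide +kernel
theorem p7287 : PrL chk L7287 := leafL c7287

theorem c7288 : lp7 (fun s => chk (ent L7288 s)) 0 = true := by decide +kernel
theorem p7288 : PrL chk L7288 := leafL c7288

theorem c7289 : lp7 (fun s => chk (ent L7289 s)) 0 = true := by decide +kernel
theorem p7289 : PrL chk L7289 := leafL c7289

theorem c7290 : lp7 (fun s => chk (ent L7290 s)) 0 = true := by decide +kernel
theorem p7290 : PrL chk L7290 := leafL c7290

theorem c7291 : lp7 (fun s => chk (ent L7291 s)) 0 = true := by decide +kernel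
theorem p7291 : PrL chk L7291 := leafL c7291

theorem c7292 : lp7 (fun s => chk (ent L7292 s)) 0 = true := by decide +kernel
theorem p7292 : PrL chk L7292 := leafL c7292

theorem c7293 : lp7 (fun s => chk (ent L7293 s)) 0 = true := by decide +kernel
theorem p7293 : PrL chk L7293 := leafL c7293

theorem c7294 : lp7 (fun s => chk (ent L7294 s)) 0 = true := by decide +kernel
theorem p7294 : PrL chk L7294 := leafL c7294

theorem c7295 : lp7 (fun s => chk (ent L7295 s)) 0 = true := by decide +kernel
theorem p7295 : PrL chk L7295 := leafL c7295

theorem c7296 : lp7 (fun s => chk (ent L7296 s)) 0 = true := by decide +kernel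
theorem p7296 : PrL chk L7296 := leafL c7296

theorem c7297 : lp7 (fun s => chk (ent L7297 s)) 0 = true := by decide +kernel
theorem p7297 : PrL chk L7297 := leafL c7297

theorem c7298 : lp7 (fun s => chk (ent L7298 s)) 0 = true := by decide +kernel
theorem p7298 : PrL chk L7298 := leafL c7298

theorem c7299 : lp7 (fun s => chk (ent L7299 s)) 0 = true := by decide +kernel
theorem p7299 : PrL chk L7299 := leafL c7299

theorem c7300 : lp7 (fun s => chk (ent L7300 s)) 0 = true := by decide +kernel
theorem p7300 : PrL chk L7300 := leafL c7300

theorem c7301 : lp7 (fun s => chk (ent L7301 s)) 0 = true := by decide +kernel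
theorem p7301 : PrL chk L7301 := leafL c7301

theorem c7302 : lp7 (fun s => chk (ent L7302 s)) 0 = true := by decide +kernel
theorem p7302 : PrL chk L7302 := leafL c7302

theorem c7303 : lp7 (fun s => chk (ent L7303 s)) 0 = true := by decide +kernel
theorem p7303 : PrL chk L7303 := leafL c7303

theorem c7304 : lp7 (fun s => chk (ent L7304 s)) 0 = true := by decide +kernel
theorem p7304 : PrL chk L7304 := leafL c7304

theorem c7305 : lp7 (fun s => chk (ent L7305 s)) 0 = true := by decide +kernel
theorem p7305 : PrL chk L7305 := leafL c7305

theorem c7306 : lp7 (fun s => chk (ent L7306 s)) 0 = true := by decide +kernel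
theorem p7306 : PrL chk L7306 := leafL c7306

theorem c7307 : lp7 (fun s => chk (ent L7307 s)) 0 = true := by decide +kernel
theorem p7307 : PrL chk L7307 := leafL c7307

theorem c7308 : lp7 (fun s => chk (ent L7308 s)) 0 = true := by decide +kernel
theorem p7308 : PrL chk L7308 := leafL c7308

theorem c7309 : lp7 (fun s => chk (ent L7309 s)) 0 = true := by decide +kernel
theorem p7309 : PrL chk L7309 := leafL c7309

theorem c7310 : lp7 (fun s => chk (ent L7310 s)) 0 = true := by decide +kernel
theorem p7310 : PrL chk L7310 := leafL c7310

theorem c7311 : lp7 (fun s => chk (ent L7311 s)) 0 = true := by decide +kernel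
theorem p7311 : PrL chk L7311 := leafL c7311

theorem c7312 : lp7 (fun s => chk (ent L7312 s)) 0 = true := by decide +kernel
theorem p7312 : PrL chk L7312 := leafL c7312

theorem c7313 : lp7 (fun s => chk (ent L7313 s)) 0 = true := by decide +kernel
theorem p7313 : PrL chk L7313 := leafL c7313

theorem c7314 : lp7 (fun s => chk (ent L7314 s)) 0 = true := by decide +kernel
theorem p7314 : PrL chk L7314 := leafL c7314

theorem c7315 : lp7 (fun s => chk (ent L7315 s)) 0 = true := by decide +kernel
theorem p7315 : PrL chk L7315 := leafL c7315

theorem c7316 : lp7 (fun s => chk (ent L7316 s)) 0 = true := by decide +kernel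
theorem p7316 : PrL chk L7316 := leafL c7316

theorem c7317 : lp7 (fun s => chk (ent L7317 s)) 0 = true := by decide +kernel
theorem p7317 : PrL chk L7317 := leafL c7317

theorem c7318 : lp7 (fun s => chk (ent L7318 s)) 0 = true := by decide +kernel
theorem p7318 : PrL chk L7318 := leafL c7318

theorem c7319 : lp7 (fun s => chk (ent L7319 s)) 0 = true := by decide +kernel
theorem p7319 : PrL chk L7319 := leafL c7319

theorem c7320 : lp7 (fun s => chk (ent L7320 s)) 0 = true := by decide +kernel
theorem p7320 : PrL chk L7320 := leafL c7320

theorem c7321 : lp7 (fun s => chk (ent L7321 s)) 0 = true := by decide +kernel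
theorem p7321 : PrL chk L7321 := leafL c7321

theorem c7322 : lp7 (fun s => chk (ent L7322 s)) 0 = true := by decide +kernel
theorem p7322 : PrL chk L7322 := leafL c7322

theorem c7323 : lp7 (fun s => chk (ent L7323 s)) 0 = true := by decide +kernel
theorem p7323 : PrL chk L7323 := leafL c7323

theorem c7324 : lp7 (fun s => chk (ent L7324 s)) 0 = true := by decide +kernel
theorem p7324 : PrL chk L7324 := leafL c7324

theorem c7325 : lp7 (fun s => chk (ent L7325 s)) 0 = true := by decide +kernel
theorem p7325 : PrL chk L7325 := leafL c7325

theorem c7326 : lp7 (fun s => chk (ent L7326 s)) 0 = true := by decide +kernel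
theorem p7326 : PrL chk L7326 := leafL c7326

theorem c7327 : lp7 (fun s => chk (ent L7327 s)) 0 = true := by decide +kernel
theorem p7327 : PrL chk L7327 := leafL c7327

theorem c7328 : lp7 (fun s => chk (ent L7328 s)) 0 = true := by decide +kernel
theorem p7328 : PrL chk L7328 := leafL c7328

theorem c7329 : lp7 (fun s => chk (ent L7329 s)) 0 = true := by decide +kernel
theorem p7329 : PrL chk L7329 := leafL c7329

theorem c7330 : lp7 (fun s => chk (ent L7330 s)) 0 = true := by decide +kernel
theorem p7330 : PrL chk L7330 := leafL c7330

theorem c7331 : lp7 (fun s => chk (ent L7331 s)) 0 = true := by decide +kernel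
theorem p7331 : PrL chk L7331 := leafL c7331

theorem c7332 : lp7 (fun s => chk (ent L7332 s)) 0 = true := by decide +kernel
theorem p7332 : PrL chk L7332 := leafL c7332

theorem c7333 : lp7 (fun s => chk (ent L7333 s)) 0 = true := by decide +kernel
theorem p7333 : PrL chk L7333 := leafL c7333

theorem c7334 : lp7 (fun s => chk (ent L7334 s)) 0 = true := by decide +kernel
theorem p7334 : PrL chk L7334 := leafL c7334

theorem c7335 : lp7 (fun s => chk (ent L7335 s)) 0 = true := by decide +kernel
theorem p7335 : PrL chk L7335 := leafL c7335

theorem c7336 : lp7 (fun s => chk (ent L7336 s)) 0 = true := by decide +kernel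
theorem p7336 : PrL chk L7336 := leafL c7336

theorem c7337 : lp7 (fun s => chk (ent L7337 s)) 0 = true := by decide +kernel
theorem p7337 : PrL chk L7337 := leafL c7337

theorem c7338 : lp7 (fun s => chk (ent L7338 s)) 0 = true := by decide +kernel
theorem p7338 : PrL chk L7338 := leafL c7338

theorem c7339 : lp7 (fun s => chk (ent L7339 s)) 0 = true := by decide +kernel
theorem p7339 : PrL chk L7339 := leafL c7339

theorem c7340 : lp7 (fun s => chk (ent L7340 s)) 0 = true := by decide +kernel
theorem p7340 : PrL chk L7340 := leafL c7340

theorem c7341 : lp7 (fun s => chk (ent L7341 s)) 0 = true := by decide +kernel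
theorem p7341 : PrL chk L7341 := leafL c7341

theorem c7342 : lp7 (fun s => chk (ent L7342 s)) 0 = true := by decide +kernel
theorem p7342 : PrL chk L7342 := leafL c7342

theorem c7343 : lp7 (fun s => chk (ent L7343 s)) 0 = true := by decide +kernel
theorem p7343 : PrL chk L7343 := leafL c7343

theorem c7344 : lp7 (fun s => chk (ent L7344 s)) 0 = true := by decide +kernel
theorem p7344 : PrL chk L7344 := leafL c7344

theorem c7345 : lp7 (fun s => chk (ent L7345 s)) 0 = true := by decide +kernel
theorem p7345 : PrL chk L7345 := leafL c7345

theorem c7346 : lp7 (fun s => chk (ent L7346 s)) 0 = true := by decide +kernel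
theorem p7346 : PrL chk L7346 := leafL c7346

theorem c7347 : lp7 (fun s => chk (ent L7347 s)) 0 = true := by decide +kernel
theorem p7347 : PrL chk L7347 := leafL c7347

theorem c7348 : lp7 (fun s => chk (ent L7348 s)) 0 = true := by decide +kernel
theorem p7348 : PrL chk L7348 := leafL c7348

theorem c7349 : lp7 (fun s => chk (ent L7349 s)) 0 = true := by decide +kernel
theorem p7349 : PrL chk L7349 := leafL c7349

theorem c7350 : lp7 (fun s => chk (ent L7350 s)) 0 = true := by decide +kernel
theorem p7350 : PrL chk L7350 := leafL c7350

theorem c7351 : lp7 (fun s => chk (ent L7351 s)) 0 = true := by decide +kernel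
theorem p7351 : PrL chk L7351 := leafL c7351

theorem c7352 : lp7 (fun s => chk (ent L7352 s)) 0 = true := by decide +kernel
theorem p7352 : PrL chk L7352 := leafL c7352

theorem c7353 : lp7 (fun s => chk (ent L7353 s)) 0 = true := by decide +kernel
theorem p7353 : PrL chk L7353 := leafL c7353

theorem c7354 : lp7 (fun s => chk (ent L7354 s)) 0 = true := by decide +kernel
theorem p7354 : PrL chk L7354 := leafL c7354

theorem c7355 : lp7 (fun s => chk (ent L7355 s)) 0 = true := by decide +kernel
theorem p7355 : PrL chk L7355 := leafL c7355

theorem c7356 : lp7 (fun s => chk (ent L7356 s)) 0 = true := by decide +kernel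
theorem p7356 : PrL chk L7356 := leafL c7356

theorem c7357 : lp7 (fun s => chk (ent L7357 s)) 0 = true := by decide +kernel
theorem p7357 : PrL chk L7357 := leafL c7357

theorem c7358 : lp7 (fun s => chk (ent L7358 s)) 0 = true := by decide +kernel
theorem p7358 : PrL chk L7358 := leafL c7358

theorem c7359 : lp7 (fun s => chk (ent L7359 s)) 0 = true := by decide +kernel
theorem p7359 : PrL chk L7359 := leafL c7359

theorem c7360 : lp7 (fun s => chk (ent L7360 s)) 0 = true := by decide +kernel
theorem p7360 : PrL chk L7360 := leafL c7360

theorem c7361 : lp7 (fun s => chk (ent L7361 s)) 0 = true := by decide +kernel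
theorem p7361 : PrL chk L7361 := leafL c7361

theorem c7362 : lp7 (fun s => chk (ent L7362 s)) 0 = true := by decide +kernel
theorem p7362 : PrL chk L7362 := leafL c7362

theorem c7363 : lp7 (fun s => chk (ent L7363 s)) 0 = true := by decide +kernel
theorem p7363 : PrL chk L7363 := leafL c7363

theorem c7364 : lp7 (fun s => chk (ent L7364 s)) 0 = true := by decide +kernel
theorem p7364 : PrL chk L7364 := leafL c7364

theorem c7365 : lp7 (fun s => chk (ent L7365 s)) 0 = true := by decide +kernel
theorem p7365 : PrL chk L7365 := leafL c7365

theorem c7366 : lp7 (fun s => chk (ent L7366 s)) 0 = true := by decide +kernel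
theorem p7366 : PrL chk L7366 := leafL c7366

theorem c7367 : lp7 (fun s => chk (ent L7367 s)) 0 = true := by decide +kernel
theorem p7367 : PrL chk L7367 := leafL c7367

theorem c7368 : lp7 (fun s => chk (ent L7368 s)) 0 = true := by decide +kernel
theorem p7368 : PrL chk L7368 := leafL c7368

theorem c7369 : lp7 (fun s => chk (ent L7369 s)) 0 = true := by decide +kernel
theorem p7369 : PrL chk L7369 := leafL c7369

theorem c7370 : lp7 (fun s => chk (ent L7370 s)) 0 = true := by decide +kernel
theorem p7370 : PrL chk L7370 := leafL c7370

theorem c7371 : lp7 (fun s => chk (ent L7371 s)) 0 = true := by decide +kernel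
theorem p7371 : PrL chk L7371 := leafL c7371

theorem c7372 : lp7 (fun s => chk (ent L7372 s)) 0 = true := by decide +kernel
theorem p7372 : PrL chk L7372 := leafL c7372

theorem c7373 : lp7 (fun s => chk (ent L7373 s)) 0 = true := by decide +kernel
theorem p7373 : PrL chk L7373 := leafL c7373

theorem c7374 : lp7 (fun s => chk (ent L7374 s)) 0 = true := by decide +kernel
theorem p7374 : PrL chk L7374 := leafL c7374

theorem c7375 : lp7 (fun s => chk (ent L7375 s)) 0 = true := by decide +kernel
theorem p7375 : PrL chk L7375 := leafL c7375

theorem c7376 : lp7 (fun s => chk (ent L7376 s)) 0 = true := by decide +kernel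
theorem p7376 : PrL chk L7376 := leafL c7376

theorem c7377 : lp7 (fun s => chk (ent L7377 s)) 0 = true := by decide +kernel
theorem p7377 : PrL chk L7377 := leafL c7377

theorem c7378 : lp7 (fun s => chk (ent L7378 s)) 0 = true := by decide +kernel
theorem p7378 : PrL chk L7378 := leafL c7378

theorem c7379 : lp7 (fun s => chk (ent L7379 s)) 0 = true := by decide +kernel
theorem p7379 : PrL chk L7379 := leafL c7379

theorem c7380 : lp7 (fun s => chk (ent L7380 s)) 0 = true := by decide +kernel
theorem p7380 : PrL chk L7380 := leafL c7380

theorem c7381 : lp7 (fun s => chk (ent L7381 s)) 0 = true := by decide +kernel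
theorem p7381 : PrL chk L7381 := leafL c7381

theorem c7382 : lp7 (fun s => chk (ent L7382 s)) 0 = true := by decide +kernel
theorem p7382 : PrL chk L7382 := leafL c7382

theorem c7383 : lp7 (fun s => chk (ent L7383 s)) 0 = true := by decide +kernel
theorem p7383 : PrL chk L7383 := leafL c7383

theorem c7384 : lp7 (fun s => chk (ent L7384 s)) 0 = true := by decide +kernel
theorem p7384 : PrL chk L7384 := leafL c7384

theorem c7385 : lp7 (fun s => chk (ent L7385 s)) 0 = true := by decide +kernel
theorem p7385 : PrL chk L7385 := leafL c7385

theorem c7386 : lp7 (fun s => chk (ent L7386 s)) 0 = true := by decide +kernel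
theorem p7386 : PrL chk L7386 := leafL c7386

theorem c7387 : lp7 (fun s => chk (ent L7387 s)) 0 = true := by decide +kernel
theorem p7387 : PrL chk L7387 := leafL c7387

theorem c7388 : lp7 (fun s => chk (ent L7388 s)) 0 = true := by decide +kernel
theorem p7388 : PrL chk L7388 := leafL c7388

theorem c7389 : lp7 (fun s => chk (ent L7389 s)) 0 = true := by decide +kernel
theorem p7389 : PrL chk L7389 := leafL c7389

theorem c7390 : lp7 (fun s => chk (ent L7390 s)) 0 = true := by decide +kernel
theorem p7390 : PrL chk L7390 := leafL c7390

theorem c7391 : lp7 (fun s => chk (ent L7391 s)) 0 = true := by decide +kernel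
theorem p7391 : PrL chk L7391 := leafL c7391

theorem c7392 : lp7 (fun s => chk (ent L7392 s)) 0 = true := by decide +kernel
theorem p7392 : PrL chk L7392 := leafL c7392

theorem c7393 : lp7 (fun s => chk (ent L7393 s)) 0 = true := by decide +kernel
theorem p7393 : PrL chk L7393 := leafL c7393

theorem c7394 : lp7 (fun s => chk (ent L7394 s)) 0 = true := by decide +kernel
theorem p7394 : PrL chk L7394 := leafL c7394

theorem c7395 : lp7 (fun s => chk (ent L7395 s)) 0 = true := by decide +kernel
theorem p7395 : PrL chk L7395 := leafL c7395

theorem c7396 : lp7 (fun s => chk (ent L7396 s)) 0 = true := by decide +kernel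
theorem p7396 : PrL chk L7396 := leafL c7396

theorem c7397 : lp7 (fun s => chk (ent L7397 s)) 0 = true := by decide +kernel
theorem p7397 : PrL chk L7397 := leafL c7397

theorem c7398 : lp7 (fun s => chk (ent L7398 s)) 0 = true := by decide +kernel
theorem p7398 : PrL chk L7398 := leafL c7398

theorem c7399 : lp7 (fun s => chk (ent L7399 s)) 0 = true := by decide +kernel
theorem p7399 : PrL chk L7399 := leafL c7399

theorem c7400 : lp7 (fun s => chk (ent L7400 s)) 0 = true := by decide +kernel
theorem p7400 : PrL chk L7400 := leafL c7400

theorem c7401 : lp7 (fun s => chk (ent L7401 s)) 0 = true := by decide +kernel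
theorem p7401 : PrL chk L7401 := leafL c7401

theorem c7402 : lp7 (fun s => chk (ent L7402 s)) 0 = true := by decide +kernel
theorem p7402 : PrL chk L7402 := leafL c7402

theorem c7403 : lp7 (fun s => chk (ent L7403 s)) 0 = true := by decide +kernel
theorem p7403 : PrL chk L7403 := leafL c7403

theorem c7404 : lp7 (fun s => chk (ent L7404 s)) 0 = true := by decide +kernel
theorem p7404 : PrL chk L7404 := leafL c7404

theorem c7405 : lp7 (fun s => chk (ent L7405 s)) 0 = true := by decide +kernel
theorem p7405 : PrL chk L7405 := leafL c7405

theorem c7406 : lp7 (fun s => chk (ent L7406 s)) 0 = true := by decide +kernel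
theorem p7406 : PrL chk L7406 := leafL c7406

theorem c7407 : lp7 (fun s => chk (ent L7407 s)) 0 = true := by decide +kernel
theorem p7407 : PrL chk L7407 := leafL c7407

theorem c7408 : lp7 (fun s => chk (ent L7408 s)) 0 = true := by decide +kernel
theorem p7408 : PrL chk L7408 := leafL c7408

theorem c7409 : lp7 (fun s => chk (ent L7409 s)) 0 = true := by decide +kernel
theorem p7409 : PrL chk L7409 := leafL c7409

theorem c7410 : lp7 (fun s => chk (ent L7410 s)) 0 = true := by decide +kernel
theorem p7410 : PrL chk L7410 := leafL c7410

theorem c7411 : lp7 (fun s => chk (ent L7411 s)) 0 = true := by decide +kernel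
theorem p7411 : PrL chk L7411 := leafL c7411

theorem c7412 : lp7 (fun s => chk (ent L7412 s)) 0 = true := by decide +kernel
theorem p7412 : PrL chk L7412 := leafL c7412

theorem c7413 : lp7 (fun s => chk (ent L7413 s)) 0 = true := by decide +kernel
theorem p7413 : PrL chk L7413 := leafL c7413

theorem c7414 : lp7 (fun s => chk (ent L7414 s)) 0 = true := by decide +kernel
theorem p7414 : PrL chk L7414 := leafL c7414

theorem c7415 : lp7 (fun s => chk (ent L7415 s)) 0 = true := by decide +kernel
theorem p7415 : PrL chk L7415 := leafL c7415

theorem c7416 : lp7 (fun s => chk (ent L7416 s)) 0 = true := by decide +kernel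
theorem p7416 : PrL chk L7416 := leafL c7416

theorem c7417 : lp7 (fun s => chk (ent L7417 s)) 0 = true := by decide +kernel
theorem p7417 : PrL chk L7417 := leafL c7417

theorem c7418 : lp7 (fun s => chk (ent L7418 s)) 0 = true := by decide +kernel
theorem p7418 : PrL chk L7418 := leafL c7418

theorem c7419 : lp7 (fun s => chk (ent L7419 s)) 0 = true := by decide +kernel
theorem p7419 : PrL chk L7419 := leafL c7419

theorem c7420 : lp7 (fun s => chk (ent L7420 s)) 0 = true := by decide +kernel
theorem p7420 : PrL chk L7420 := leafL c7420

theorem c7421 : lp7 (fun s => chk (ent L7421 s)) 0 = true := by decide +kernel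
theorem p7421 : PrL chk L7421 := leafL c7421

theorem c7422 : lp7 (fun s => chk (ent L7422 s)) 0 = true := by decide +kernel
theorem p7422 : PrL chk L7422 := leafL c7422

theorem c7423 : lp7 (fun s => chk (ent L7423 s)) 0 = true := by decide +kernel
theorem p7423 : PrL chk L7423 := leafL c7423

end Pool.Agent.ad013a.LA
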