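import Pool.Agent.H.MP_ad013a_pr.h63l.A.T
import Pool.Agent.H.MP_ad013a_pr.h63w.VLoop

namespace Pool.Agent.ad013a.LA

theorem c7424 : lp7 (fun s => chk (ent L7424 s)) 0 = true := by decide +kernel
theorem p7424 : PrL chk L7424 := leafL c7424

theorem c7425 : lp7 (fun s => chk (ent L7425 s)) 0 = true := by decide +kernel
theorem p7425 : PrL chk L7425 := leafL c7425

theorem c7426 : lp7 (fun s => chk (ent L7426 s)) 0 = true := by decide +kernel
theorem p7426 : PrL chk L7426 := leafL c7426

theorem c7427 : lp7 (fun s => chk (ent L7427 s)) 0 = true := by decide +kernel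
theorem p7427 : PrL chk L7427 := leafL c7427

theorem c7428 : lp7 (fun s => chk (ent L7428 s)) 0 = true := by decide +kernel
theorem p7428 : PrL chk L7428 := leafL c7428

theorem c7429 : lp7 (fun s => chk (ent L7429 s)) 0 = true := by decide +kernel
theorem p7429 : PrL chk L7429 := leafL c7429

theorem c7430 : lp7 (fun s => chk (ent L7430 s)) 0 = true := by decide +kernel
theorem p7430 : PrL chk L7430 := leafL c7430

theorem c7431 : lp7 (fun s => chk (ent L7431 s)) 0 = true := by decide +kernel
theorem p7431 : PrL chk L7431 := leafL c7431

theorem c7432 : lp7 (fun s => chk (ent L7432 s)) 0 = true := by decide +kernel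
theorem p7432 : PrL chk L7432 := leafL c7432

theorem c7433 : lp7 (fun s => chk (ent L7433 s)) 0 = true := by decide +kernel
theorem p7433 : PrL chk L7433 := leafL c7433

theorem c7434 : lp7 (fun s => chk (ent L7434 s)) 0 = true := by decide +kernel
theorem p7434 : PrL chk L7434 := leafL c7434

theorem c7435 : lp7 (fun s => chk (ent L7435 s)) 0 = true := by decide +kernel
theorem p7435 : PrL chk L7435 := leafL c7435

theorem c7436 : lp7 (fun s => chk (ent L7436 s)) 0 = true := by decide +kernel
theorem p7436 : PrL chk L7436 := leafL c7436

theorem c7437 : lp7 (fun s => chk (ent L7437 s)) 0 = true := by decide +kernel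
theorem p7437 : PrL chk L7437 := leafL c7437

theorem c7438 : lp7 (fun s => chk (ent L7438 s)) 0 = true := by decide +kernel
theorem p7438 : PrL chk L7438 := leafL c7438

theorem c7439 : lp7 (fun s => chk (ent L7439 s)) 0 = true := by decide +kernel
theorem p7439 : PrL chk L7439 := leafL c7439

theorem c7440 : lp7 (fun s => chk (ent L7440 s)) 0 = true := by decide +kernel
theorem p7440 : PrL chk L7440 := leafL c7440

theorem c7441 : lp7 (fun s => chk (ent L7441 s)) 0 = true := by decide +kernel
theorem p7441 : PrL chk L7441 := leafL c7441

theorem c7442 : lp7 (fun s => chk (ent L7442 s)) 0 = true := by decide +kernel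
theorem p7442 : PrL chk L7442 := leafL c7442

theorem c7443 : lp7 (fun s => chk (ent L7443 s)) 0 = true := by decide +kernel
theorem p7443 : PrL chk L7443 := leafL c7443

theorem c7444 : lp7 (fun s => chk (ent L7444 s)) 0 = true := by decide +kernel
theorem p7444 : PrL chk L7444 := leafL c7444

theorem c7445 : lp7 (fun s => chk (ent L7445 s)) 0 = true := by decide +kernel
theorem p7445 : PrL chk L7445 := leafL c7445

theorem c7446 : lp7 (fun s => chk (ent L7446 s)) 0 = true := by decide +kernel
theorem p7446 : PrL chk L7446 := leafL c7446

theorem c7447 : lp7 (fun s => chk (ent L7447 s)) 0 = true := by decide +kernel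
theorem p7447 : PrL chk L7447 := leafL c7447

theorem c7448 : lp7 (fun s => chk (ent L7448 s)) 0 = true := by decide +kernel
theorem p7448 : PrL chk L7448 := leafL c7448

theorem c7449 : lp7 (fun s => chk (ent L7449 s)) 0 = true := by decide +kernel
theorem p7449 : PrL chk L7449 := leafL c7449

theorem c7450 : lp7 (fun s => chk (ent L7450 s)) 0 = true := by decide +kernel
theorem p7450 : PrL chk L7450 := leafL c7450

theorem c7451 : lp7 (fun s => chk (ent L7451 s)) 0 = true := by decide +kernel
theorem p7451 : PrL chk L7451 := leafL c7451

theorem c7452 : lp7 (fun s => chk (ent L7452 s)) 0 = true := by decide +kernel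
theorem p7452 : PrL chk L7452 := leafL c7452

theorem c7453 : lp7 (fun s => chk (ent L7453 s)) 0 = true := by decide +kernel
theorem p7453 : PrL chk L7453 := leafL c7453

theorem c7454 : lp7 (fun s => chk (ent L7454 s)) 0 = true := by decide +kernel
theorem p7454 : PrL chk L7454 := leafL c7454

theorem c7455 : lp7 (fun s => chk (ent L7455 s)) 0 = true := by decide +kernel
theorem p7455 : PrL chk L7455 := leafL c7455

theorem c7456 : lp7 (fun s => chk (ent L7456 s)) 0 = true := by decide +kernel
theorem p7456 : PrL chk L7456 := leafL c7456

theorem c7457 : lp7 (fun s => chk (ent L7457 s)) 0 = true := by decide +kernel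
theorem p7457 : PrL chk L7457 := leafL c7457

theorem c7458 : lp7 (fun s => chk (ent L7458 s)) 0 = true := by decide +kernel
theorem p7458 : PrL chk L7458 := leafL c7458

theorem c7459 : lp7 (fun s => chk (ent L7459 s)) 0 = true := by decide +kernel
theorem p7459 : PrL chk L7459 := leafL c7459

theorem c7460 : lp7 (fun s => chk (ent L7460 s)) 0 = true := by decide +kernel
theorem p7460 : PrL chk L7460 := leafL c7460

theorem c7461 : lp7 (fun s => chk (ent L7461 s)) 0 = true := by decide +kernel
theorem p7461 : PrL chk L7461 := leafL c7461

theorem c7462 : lp7 (fun s => chk (ent L7462 s)) 0 = true := by decide +kernel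
theorem p7462 : PrL chk L7462 := leafL c7462

theorem c7463 : lp7 (fun s => chk (ent L7463 s)) 0 = true := by decide +kernel
theorem p7463 : PrL chk L7463 := leafL c7463

theorem c7464 : lp7 (fun s => chk (ent L7464 s)) 0 = true := by decide +kernel
theorem p7464 : PrL chk L7464 := leafL c7464

theorem c7465 : lp7 (fun s => chk (ent L7465 s)) 0 = true := by decide +kernel
theorem p7465 : PrL chk L7465 := leafL c7465

theorem c7466 : lp7 (fun s => chk (ent L7466 s)) 0 = true := by decide +kernel
theorem p7466 : PrL chk L7466 := leafL c7466

theorem c7467 : lp7 (fun s => chk (ent L7467 s)) 0 = true := by decide +kernel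
theorem p7467 : PrL chk L7467 := leafL c7467

theorem c7468 : lp7 (fun s => chk (ent L7468 s)) 0 = true := by decide +kernel
theorem p7468 : PrL chk L7468 := leafL c7468

theorem c7469 : lp7 (fun s => chk (ent L7469 s)) 0 = true := by decide +kernel
theorem p7469 : PrL chk L7469 := leafL c7469

theorem c7470 : lp7 (fun s => chk (ent L7470 s)) 0 = true := by decide +kernel
theorem p7470 : PrL chk L7470 := leafL c7470

theorem c7471 : lp7 (fun s => chk (ent L7471 s)) 0 = true := by decide +kernel
theorem p7471 : PrL chk L7471 := leafL c7471

theorem c7472 : lp7 (fun s => chk (ent L7472 s)) 0 = true := by decide +kernel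
theorem p7472 : PrL chk L7472 := leafL c7472

theorem c7473 : lp7 (fun s => chk (ent L7473 s)) 0 = true := by decide +kernel
theorem p7473 : PrL chk L7473 := leafL c7473

theorem c7474 : lp7 (fun s => chk (ent L7474 s)) 0 = true := by decide +kernel
theorem p7474 : PrL chk L7474 := leafL c7474

theorem c7475 : lp7 (fun s => chk (ent L7475 s)) 0 = true := by decide +kernel
theorem p7475 : PrL chk L7475 := leafL c7475

theorem c7476 : lp7 (fun s => chk (ent L7476 s)) 0 = true := by decide +kernel
theorem p7476 : PrL chk L7476 := leafL c7476

theorem c7477 : lp7 (fun s => chk (ent L7477 s)) 0 = true := by decide +kernel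
theorem p7477 : PrL chk L7477 := leafL c7477

theorem c7478 : lp7 (fun s => chk (ent L7478 s)) 0 = true := by decide +kernel
theorem p7478 : PrL chk L7478 := leafL c7478

theorem c7479 : lp7 (fun s => chk (ent L7479 s)) 0 = true := by decide +kernel
theorem p7479 : PrL chk L7479 := leafL c7479

theorem c7480 : lp7 (fun s => chk (ent L7480 s)) 0 = true := by decide +kernel
theorem p7480 : PrL chk L7480 := leafL c7480

theorem c7481 : lp7 (fun s => chk (ent L7481 s)) 0 = true := by decide +kernel
theorem p7481 : PrL chk L7481 := leafL c7481

theorem c7482 : lp7 (fun s => chk (ent L7482 s)) 0 = true := by decide +kernel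
theorem p7482 : PrL chk L7482 := leafL c7482

theorem c7483 : lp7 (fun s => chk (ent L7483 s)) 0 = true := by decide +kernel
theorem p7483 : PrL chk L7483 := leafL c7483

theorem c7484 : lp7 (fun s => chk (ent L7484 s)) 0 = true := by decide +kernel
theorem p7484 : PrL chk L7484 := leafL c7484

theorem c7485 : lp7 (fun s => chk (ent L7485 s)) 0 = true := by decide +kernel
theorem p7485 : PrL chk L7485 := leafL c7485

theorem c7486 : lp7 (fun s => chk (ent L7486 s)) 0 = true := by decide +kernel
theorem p7486 : PrL chk L7486 := leafL c7486

theorem c7487 : lp7 (fun s => chk (ent L7487 s)) 0 = true := by decide +kernel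
theorem p7487 : PrL chk L7487 := leafL c7487

theorem c7488 : lp7 (fun s => chk (ent L7488 s)) 0 = true := by decide +kernel
theorem p7488 : PrL chk L7488 := leafL c7488

theorem c7489 : lp7 (fun s => chk (ent L7489 s)) 0 = true := by decide +kernel
theorem p7489 : PrL chk L7489 := leafL c7489

theorem c7490 : lp7 (fun s => chk (ent L7490 s)) 0 = true := by decide +kernel
theorem p7490 : PrL chk L7490 := leafL c7490

theorem c7491 : lp7 (fun s => chk (ent L7491 s)) 0 = true := by decide +kernel
theorem p7491 : PrL chk L7491 := leafL c7491

theorem c7492 : lp7 (fun s => chk (ent L7492 s)) 0 = true := by decide +kernel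
theorem p7492 : PrL chk L7492 := leafL c7492

theorem c7493 : lp7 (fun s => chk (ent L7493 s)) 0 = true := by decide +kernel
theorem p7493 : PrL chk L7493 := leafL c7493

theorem c7494 : lp7 (fun s => chk (ent L7494 s)) 0 = true := by decide +kernel
theorem p7494 : PrL chk L7494 := leafL c7494

theorem c7495 : lp7 (fun s => chk (ent L7495 s)) 0 = true := by decide +kernel
theorem p7495 : PrL chk L7495 := leafL c7495

theorem c7496 : lp7 (fun s => chk (ent L7496 s)) 0 = true := by decide +kernel
theorem p7496 : PrL chk L7496 := leafL c7496

theorem c7497 : lp7 (fun s => chk (ent L7497 s)) 0 = true := by decide +kernel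
theorem p7497 : PrL chk L7497 := leafL c7497

theorem c7498 : lp7 (fun s => chk (ent L7498 s)) 0 = true := by decide +kernel
theorem p7498 : PrL chk L7498 := leafL c7498

theorem c7499 : lp7 (fun s => chk (ent L7499 s)) 0 = true := by decide +kernel
theorem p7499 : PrL chk L7499 := leafL c7499

theorem c7500 : lp7 (fun s => chk (ent L7500 s)) 0 = true := by decide +kernel
theorem p7500 : PrL chk L7500 := leafL c7500

theorem c7501 : lp7 (fun s => chk (ent L7501 s)) 0 = true := by decide +kernel
theorem p7501 : PrL chk L7501 := leafL c7501

theorem c7502 : lp7 (fun s => chk (ent L7502 s)) 0 = true := by decide +kernel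
theorem p7502 : PrL chk L7502 := leafL c7502

theorem c7503 : lp7 (fun s => chk (ent L7503 s)) 0 = true := by decide +kernel
theorem p7503 : PrL chk L7503 := leafL c7503

theorem c7504 : lp7 (fun s => chk (ent L7504 s)) 0 = true := by decide +kernel
theorem p7504 : PrL chk L7504 := leafL c7504

theorem c7505 : lp7 (fun s => chk (ent L7505 s)) 0 = true := by decide +kernel
theorem p7505 : PrL chk L7505 := leafL c7505

theorem c7506 : lp7 (fun s => chk (ent L7506 s)) 0 = true := by decide +kernel
theorem p7506 : PrL chk L7506 := leafL c7506

theorem c7507 : lp7 (fun s => chk (ent L7507 s)) 0 = true := by decide +kernel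
theorem p7507 : PrL chk L7507 := leafL c7507

theorem c7508 : lp7 (fun s => chk (ent L7508 s)) 0 = true := by decide +kernel
theorem p7508 : PrL chk L7508 := leafL c7508

theorem c7509 : lp7 (fun s => chk (ent L7509 s)) 0 = true := by decide +kernel
theorem p7509 : PrL chk L7509 := leafL c7509

theorem c7510 : lp7 (fun s => chk (ent L7510 s)) 0 = true := by decide +kernel
theorem p7510 : PrL chk L7510 := leafL c7510

theorem c7511 : lp7 (fun s => chk (ent L7511 s)) 0 = true := by decide +kernel
theorem p7511 : PrL chk L7511 := leafL c7511

theorem c7512 : lp7 (fun s => chk (ent L7512 s)) 0 = true := by decide +kernel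
theorem p7512 : PrL chk L7512 := leafL c7512

theorem c7513 : lp7 (fun s => chk (ent L7513 s)) 0 = true := by decide +kernel
theorem p7513 : PrL chk L7513 := leafL c7513

theorem c7514 : lp7 (fun s => chk (ent L7514 s)) 0 = true := by decide +kernel
theorem p7514 : PrL chk L7514 := leafL c7514

theorem c7515 : lp7 (fun s => chk (ent L7515 s)) 0 = true := by decide +kernel
theorem p7515 : PrL chk L7515 := leafL c7515

theorem c7516 : lp7 (fun s => chk (ent L7516 s)) 0 = true := by decide +kernel
theorem p7516 : PrL chk L7516 := leafL c7516

theorem c7517 : lp7 (fun s => chk (ent L7517 s)) 0 = true := by decide +kernel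
theorem p7517 : PrL chk L7517 := leafL c7517

theorem c7518 : lp7 (fun s => chk (ent L7518 s)) 0 = true := by decide +kernel
theorem p7518 : PrL chk L7518 := leafL c7518

theorem c7519 : lp7 (fun s => chk (ent L7519 s)) 0 = true := by decide +kernel
theorem p7519 : PrL chk L7519 := leafL c7519

theorem c7520 : lp7 (fun s => chk (ent L7520 s)) 0 = true := by decide +kernel
theorem p7520 : PrL chk L7520 := leafL c7520

theorem c7521 : lp7 (fun s => chk (ent L7521 s)) 0 = true := by decide +kernel
theorem p7521 : PrL chk L7521 := leafL c7521

theorem c7522 : lp7 (fun s => chk (ent L7522 s)) 0 = true := by decide +kernel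
theorem p7522 : PrL chk L7522 := leafL c7522

theorem c7523 : lp7 (fun s => chk (ent L7523 s)) 0 = true := by decide +kernel
theorem p7523 : PrL chk L7523 := leafL c7523

theorem c7524 : lp7 (fun s => chk (ent L7524 s)) 0 = true := by decide +kernel
theorem p7524 : PrL chk L7524 := leafL c7524

theorem c7525 : lp7 (fun s => chk (ent L7525 s)) 0 = true := by decide +kernel
theorem p7525 : PrL chk L7525 := leafL c7525

theorem c7526 : lp7 (fun s => chk (ent L7526 s)) 0 = true := by decide +kernel
theorem p7526 : PrL chk L7526 := leafL c7526

theorem c7527 : lp7 (fun s => chk (ent L7527 s)) 0 = true := by decide +kernel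
theorem p7527 : PrL chk L7527 := leafL c7527

theorem c7528 : lp7 (fun s => chk (ent L7528 s)) 0 = true := by decide +kernel
theorem p7528 : PrL chk L7528 := leafL c7528

theorem c7529 : lp7 (fun s => chk (ent L7529 s)) 0 = true := by decide +kernel
theorem p7529 : PrL chk L7529 := leafL c7529

theorem c7530 : lp7 (fun s => chk (ent L7530 s)) 0 = true := by decide +kernel
theorem p7530 : PrL chk L7530 := leafL c7530

theorem c7531 : lp7 (fun s => chk (ent L7531 s)) 0 = true := by decide +kernel
theorem p7531 : PrL chk L7531 := leafL c7531

theorem c7532 : lp7 (fun s => chk (ent L7532 s)) 0 = true := by decide +kernel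
theorem p7532 : PrL chk L7532 := leafL c7532

theorem c7533 : lp7 (fun s => chk (ent L7533 s)) 0 = true := by decide +kernel
theorem p7533 : PrL chk L7533 := leafL c7533

theorem c7534 : lp7 (fun s => chk (ent L7534 s)) 0 = true := by decide +kernel
theorem p7534 : PrL chk L7534 := leafL c7534

theorem c7535 : lp7 (fun s => chk (ent L7535 s)) 0 = true := by decide +kernel
theorem p7535 : PrL chk L7535 := leafL c7535

theorem c7536 : lp7 (fun s => chk (ent L7536 s)) 0 = true := by decide +kernel
theorem p7536 : PrL chk L7536 := leafL c7536

theorem c7537 : lp7 (fun s => chk (ent L7537 s)) 0 = true := by decide +kernel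
theorem p7537 : PrL chk L7537 := leafL c7537

theorem c7538 : lp7 (fun s => chk (ent L7538 s)) 0 = true := by decide +kernel
theorem p7538 : PrL chk L7538 := leafL c7538

theorem c7539 : lp7 (fun s => chk (ent L7539 s)) 0 = true := by decide +kernel
theorem p7539 : PrL chk L7539 := leafL c7539

theorem c7540 : lp7 (fun s => chk (ent L7540 s)) 0 = true := by decide +kernel
theorem p7540 : PrL chk L7540 := leafL c7540

theorem c7541 : lp7 (fun s => chk (ent L7541 s)) 0 = true := by decide +kernel
theorem p7541 : PrL chk L7541 := leafL c7541

theorem c7542 : lp7 (fun s => chk (ent L7542 s)) 0 = true := by decide +kernel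
theorem p7542 : PrL chk L7542 := leafL c7542

theorem c7543 : lp7 (fun s => chk (ent L7543 s)) 0 = true := by decide +kernel
theorem p7543 : PrL chk L7543 := leafL c7543

theorem c7544 : lp7 (fun s => chk (ent L7544 s)) 0 = true := by decide +kernel
theorem p7544 : PrL chk L7544 := leafL c7544

theorem c7545 : lp7 (fun s => chk (ent L7545 s)) 0 = true := by decide +kernel
theorem p7545 : PrL chk L7545 := leafL c7545

theorem c7546 : lp7 (fun s => chk (ent L7546 s)) 0 = true := by decide +kernel
theorem p7546 : PrL chk L7546 := leafL c7546

theorem c7547 : lp7 (fun s => chk (ent L7547 s)) 0 = true := by decide +kernel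
theorem p7547 : PrL chk L7547 := leafL c7547

theorem c7548 : lp7 (fun s => chk (ent L7548 s)) 0 = true := by decide +kernel
theorem p7548 : PrL chk L7548 := leafL c7548

theorem c7549 : lp7 (fun s => chk (ent L7549 s)) 0 = true := by decide +kernel
theorem p7549 : PrL chk L7549 := leafL c7549

theorem c7550 : lp7 (fun s => chk (ent L7550 s)) 0 = true := by decide +kernel
theorem p7550 : PrL chk L7550 := leafL c7550

theorem c7551 : lp7 (fun s => chk (ent L7551 s)) 0 = true := by decide +kernel
theorem p7551 : PrL chk L7551 := leafL c7551

theorem c7552 : lp7 (fun s => chk (ent L7552 s)) 0 = true := by decide +kernel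
theorem p7552 : PrL chk L7552 := leafL c7552

theorem c7553 : lp7 (fun s => chk (ent L7553 s)) 0 = true := by decide +kernel
theorem p7553 : PrL chk L7553 := leafL c7553

theorem c7554 : lp7 (fun s => chk (ent L7554 s)) 0 = true := by decide +kernel
theorem p7554 : PrL chk L7554 := leafL c7554

theorem c7555 : lp7 (fun s => chk (ent L7555 s)) 0 = true := by decide +kernel
theorem p7555 : PrL chk L7555 := leafL c7555

theorem c7556 : lp7 (fun s => chk (ent L7556 s)) 0 = true := by decide +kernel
theorem p7556 : PrL chk L7556 := leafL c7556

theorem c7557 : lp7 (fun s => chk (ent L7557 s)) 0 = true := by decide +kernel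
theorem p7557 : PrL chk L7557 := leafL c7557

theorem c7558 : lp7 (fun s => chk (ent L7558 s)) 0 = true := by decide +kernel
theorem p7558 : PrL chk L7558 := leafL c7558

theorem c7559 : lp7 (fun s => chk (ent L7559 s)) 0 = true := by decide +kernel
theorem p7559 : PrL chk L7559 := leafL c7559

theorem c7560 : lp7 (fun s => chk (ent L7560 s)) 0 = true := by decide +kernel
theorem p7560 : PrL chk L7560 := leafL c7560

theorem c7561 : lp7 (fun s => chk (ent L7561 s)) 0 = true := by decide +kernel
theorem p7561 : PrL chk L7561 := leafL c7561

theorem c7562 : lp7 (fun s => chk (ent L7562 s)) 0 = true := by decide +kernel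
theorem p7562 : PrL chk L7562 := leafL c7562

theorem c7563 : lp7 (fun s => chk (ent L7563 s)) 0 = true := by decide +kernel
theorem p7563 : PrL chk L7563 := leafL c7563

theorem c7564 : lp7 (fun s => chk (ent L7564 s)) 0 = true := by decide +kernel
theorem p7564 : PrL chk L7564 := leafL c7564

theorem c7565 : lp7 (fun s => chk (ent L7565 s)) 0 = true := by decide +kernel
theorem p7565 : PrL chk L7565 := leafL c7565

theorem c7566 : lp7 (fun s => chk (ent L7566 s)) 0 = true := by decide +kernel
theorem p7566 : PrL chk L7566 := leafL c7566

theorem c7567 : lp7 (fun s => chk (ent L7567 s)) 0 = true := by decide +kernel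
theorem p7567 : PrL chk L7567 := leafL c7567

theorem c7568 : lp7 (fun s => chk (ent L7568 s)) 0 = true := by decide +kernel
theorem p7568 : PrL chk L7568 := leafL c7568

theorem c7569 : lp7 (fun s => chk (ent L7569 s)) 0 = true := by decide +kernel
theorem p7569 : PrL chk L7569 := leafL c7569

theorem c7570 : lp7 (fun s => chk (ent L7570 s)) 0 = true := by decide +kernel
theorem p7570 : PrL chk L7570 := leafL c7570

theorem c7571 : lp7 (fun s => chk (ent L7571 s)) 0 = true := by decide +kernel
theorem p7571 : PrL chk L7571 := leafL c7571

theorem c7572 : lp7 (fun s => chk (ent L7572 s)) 0 = true := by decide +kernel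
theorem p7572 : PrL chk L7572 := leafL c7572

theorem c7573 : lp7 (fun s => chk (ent L7573 s)) 0 = true := by decide +kernel
theorem p7573 : PrL chk L7573 := leafL c7573

theorem c7574 : lp7 (fun s => chk (ent L7574 s)) 0 = true := by decide +kernel
theorem p7574 : PrL chk L7574 := leafL c7574

theorem c7575 : lp7 (fun s => chk (ent L7575 s)) 0 = true := by decide +kernel
theorem p7575 : PrL chk L7575 := leafL c7575

theorem c7576 : lp7 (fun s => chk (ent L7576 s)) 0 = true := by decide +kernel
theorem p7576 : PrL chk L7576 := leafL c7576

theorem c7577 : lp7 (fun s => chk (ent L7577 s)) 0 = true := by decide +kernel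
theorem p7577 : PrL chk L7577 := leafL c7577

theorem c7578 : lp7 (fun s => chk (ent L7578 s)) 0 = true := by decide +kernel
theorem p7578 : PrL chk L7578 := leafL c7578

theorem c7579 : lp7 (fun s => chk (ent L7579 s)) 0 = true := by decide +kernel
theorem p7579 : PrL chk L7579 := leafL c7579

theorem c7580 : lp7 (fun s => chk (ent L7580 s)) 0 = true := by decide +kernel
theorem p7580 : PrL chk L7580 := leafL c7580

theorem c7581 : lp7 (fun s => chk (ent L7581 s)) 0 = true := by decide +kernel
theorem p7581 : PrL chk L7581 := leafL c7581

theorem c7582 : lp7 (fun s => chk (ent L7582 s)) 0 = true := by decide +kernel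
theorem p7582 : PrL chk L7582 := leafL c7582

theorem c7583 : lp7 (fun s => chk (ent L7583 s)) 0 = true := by decide +kernel
theorem p7583 : PrL chk L7583 := leafL c7583

theorem c7584 : lp7 (fun s => chk (ent L7584 s)) 0 = true := by decide +kernel
theorem p7584 : PrL chk L7584 := leafL c7584

theorem c7585 : lp7 (fun s => chk (ent L7585 s)) 0 = true := by decide +kernel
theorem p7585 : PrL chk L7585 := leafL c7585

theorem c7586 : lp7 (fun s => chk (ent L7586 s)) 0 = true := by decide +kernel
theorem p7586 : PrL chk L7586 := leafL c7586

theorem c7587 : lp7 (fun s => chk (ent L7587 s)) 0 = true := by decide +kernel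
theorem p7587 : PrL chk L7587 := leafL c7587

theorem c7588 : lp7 (fun s => chk (ent L7588 s)) 0 = true := by decide +kernel
theorem p7588 : PrL chk L7588 := leafL c7588

theorem c7589 : lp7 (fun s => chk (ent L7589 s)) 0 = true := by decide +kernel
theorem p7589 : PrL chk L7589 := leafL c7589

theorem c7590 : lp7 (fun s => chk (ent L7590 s)) 0 = true := by decide +kernel
theorem p7590 : PrL chk L7590 := leafL c7590

theorem c7591 : lp7 (fun s => chk (ent L7591 s)) 0 = true := by decide +kernel
theorem p7591 : PrL chk L7591 := leafL c7591

theorem c7592 : lp7 (fun s => chk (ent L7592 s)) 0 = true := by decide +kernel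
theorem p7592 : PrL chk L7592 := leafL c7592

theorem c7593 : lp7 (fun s => chk (ent L7593 s)) 0 = true := by decide +kernel
theorem p7593 : PrL chk L7593 := leafL c7593

theorem c7594 : lp7 (fun s => chk (ent L7594 s)) 0 = true := by decide +kernel
theorem p7594 : PrL chk L7594 := leafL c7594

theorem c7595 : lp7 (fun s => chk (ent L7595 s)) 0 = true := by decide +kernel
theorem p7595 : PrL chk L7595 := leafL c7595

theorem c7596 : lp7 (fun s => chk (ent L7596 s)) 0 = true := by decide +kernel
theorem p7596 : PrL chk L7596 := leafL c7596

theorem c7597 : lp7 (fun s => chk (ent L7597 s)) 0 = true := by decide +kernel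
theorem p7597 : PrL chk L7597 := leafL c7597

theorem c7598 : lp7 (fun s => chk (ent L7598 s)) 0 = true := by decide +kernel
theorem p7598 : PrL chk L7598 := leafL c7598

theorem c7599 : lp7 (fun s => chk (ent L7599 s)) 0 = true := by decide +kernel
theorem p7599 : PrL chk L7599 := leafL c7599

theorem c7600 : lp7 (fun s => chk (ent L7600 s)) 0 = true := by decide +kernel
theorem p7600 : PrL chk L7600 := leafL c7600

theorem c7601 : lp7 (fun s => chk (ent L7601 s)) 0 = true := by decide +kernel
theorem p7601 : PrL chk L7601 := leafL c7601

theorem c7602 : lp7 (fun s => chk (ent L7602 s)) 0 = true := by decide +kernel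
theorem p7602 : PrL chk L7602 := leafL c7602

theorem c7603 : lp7 (fun s => chk (ent L7603 s)) 0 = true := by decide +kernel
theorem p7603 : PrL chk L7603 := leafL c7603

theorem c7604 : lp7 (fun s => chk (ent L7604 s)) 0 = true := by decide +kernel
theorem p7604 : PrL chk L7604 := leafL c7604

theorem c7605 : lp7 (fun s => chk (ent L7605 s)) 0 = true := by decide +kernel
theorem p7605 : PrL chk L7605 := leafL c7605

theorem c7606 : lp7 (fun s => chk (ent L7606 s)) 0 = true := by decide +kernel
theorem p7606 : PrL chk L7606 := leafL c7606

theorem c7607 : lp7 (fun s => chk (ent L7607 s)) 0 = true := by decide +kernel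
theorem p7607 : PrL chk L7607 := leafL c7607

theorem c7608 : lp7 (fun s => chk (ent L7608 s)) 0 = true := by decide +kernel
theorem p7608 : PrL chk L7608 := leafL c7608

theorem c7609 : lp7 (fun s => chk (ent L7609 s)) 0 = true := by decide +kernel
theorem p7609 : PrL chk L7609 := leafL c7609

theorem c7610 : lp7 (fun s => chk (ent L7610 s)) 0 = true := by decide +kernel
theorem p7610 : PrL chk L7610 := leafL c7610

theorem c7611 : lp7 (fun s => chk (ent L7611 s)) 0 = true := by decide +kernel
theorem p7611 : PrL chk L7611 := leafL c7611

theorem c7612 : lp7 (fun s => chk (ent L7612 s)) 0 = true := by decide +kernel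
theorem p7612 : PrL chk L7612 := leafL c7612

theorem c7613 : lp7 (fun s => chk (ent L7613 s)) 0 = true := by decide +kernel
theorem p7613 : PrL chk L7613 := leafL c7613

theorem c7614 : lp7 (fun s => chk (ent L7614 s)) 0 = true := by decide +kernel
theorem p7614 : PrL chk L7614 := leafL c7614

theorem c7615 : lp7 (fun s => chk (ent L7615 s)) 0 = true := by decide +kernel
theorem p7615 : PrL chk L7615 := leafL c7615

theorem c7616 : lp7 (fun s => chk (ent L7616 s)) 0 = true := by decide +kernel
theorem p7616 : PrL chk L7616 := leafL c7616

theorem c7617 : lp7 (fun s => chk (ent L7617 s)) 0 = true := by decide +kernel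
theorem p7617 : PrL chk L7617 := leafL c7617

theorem c7618 : lp7 (fun s => chk (ent L7618 s)) 0 = true := by decide +kernel
theorem p7618 : PrL chk L7618 := leafL c7618

theorem c7619 : lp7 (fun s => chk (ent L7619 s)) 0 = true := by decide +kernel
theorem p7619 : PrL chk L7619 := leafL c7619

theorem c7620 : lp7 (fun s => chk (ent L7620 s)) 0 = true := by decide +kernel
theorem p7620 : PrL chk L7620 := leafL c7620

theorem c7621 : lp7 (fun s => chk (ent L7621 s)) 0 = true := by decide +kernel
theorem p7621 : PrL chk L7621 := leafL c7621

theorem c7622 : lp7 (fun s => chk (ent L7622 s)) 0 = true := by decide +kernel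
theorem p7622 : PrL chk L7622 := leafL c7622

theorem c7623 : lp7 (fun s => chk (ent L7623 s)) 0 = true := by decide +kernel
theorem p7623 : PrL chk L7623 := leafL c7623

theorem c7624 : lp7 (fun s => chk (ent L7624 s)) 0 = true := by decide +kernel
theorem p7624 : PrL chk L7624 := leafL c7624

theorem c7625 : lp7 (fun s => chk (ent L7625 s)) 0 = true := by decide +kernel
theorem p7625 : PrL chk L7625 := leafL c7625

theorem c7626 : lp7 (fun s => chk (ent L7626 s)) 0 = true := by decide +kernel
theorem p7626 : PrL chk L7626 := leafL c7626

theorem c7627 : lp7 (fun s => chk (ent L7627 s)) 0 = true := by decide +kernel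
theorem p7627 : PrL chk L7627 := leafL c7627

theorem c7628 : lp7 (fun s => chk (ent L7628 s)) 0 = true := by decide +kernel
theorem p7628 : PrL chk L7628 := leafL c7628

theorem c7629 : lp7 (fun s => chk (ent L7629 s)) 0 = true := by decide +kernel
theorem p7629 : PrL chk L7629 := leafL c7629

theorem c7630 : lp7 (fun s => chk (ent L7630 s)) 0 = true := by decide +kernel
theorem p7630 : PrL chk L7630 := leafL c7630

theorem c7631 : lp7 (fun s => chk (ent L7631 s)) 0 = true := by decide +kernel
theorem p7631 : PrL chk L7631 := leafL c7631

theorem c7632 : lp7 (fun s => chk (ent L7632 s)) 0 = true := by decide +kernel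
theorem p7632 : PrL chk L7632 := leafL c7632

theorem c7633 : lp7 (fun s => chk (ent L7633 s)) 0 = true := by decide +kernel
theorem p7633 : PrL chk L7633 := leafL c7633

theorem c7634 : lp7 (fun s => chk (ent L7634 s)) 0 = true := by decide +kernel
theorem p7634 : PrL chk L7634 := leafL c7634

theorem c7635 : lp7 (fun s => chk (ent L7635 s)) 0 = true := by decide +kernel
theorem p7635 : PrL chk L7635 := leafL c7635

theorem c7636 : lp7 (fun s => chk (ent L7636 s)) 0 = true := by decide +kernel
theorem p7636 : PrL chk L7636 := leafL c7636

theorem c7637 : lp7 (fun s => chk (ent L7637 s)) 0 = true := by decide +kernel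
theorem p7637 : PrL chk L7637 := leafL c7637

theorem c7638 : lp7 (fun s => chk (ent L7638 s)) 0 = true := by decide +kernel
theorem p7638 : PrL chk L7638 := leafL c7638

theorem c7639 : lp7 (fun s => chk (ent L7639 s)) 0 = true := by decide +kernel
theorem p7639 : PrL chk L7639 := leafL c7639

theorem c7640 : lp7 (fun s => chk (ent L7640 s)) 0 = true := by decide +kernel
theorem p7640 : PrL chk L7640 := leafL c7640

theorem c7641 : lp7 (fun s => chk (ent L7641 s)) 0 = true := by decide +kernel
theorem p7641 : PrL chk L7641 := leafL c7641

theorem c7642 : lp7 (fun s => chk (ent L7642 s)) 0 = true := by decide +kernel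
theorem p7642 : PrL chk L7642 := leafL c7642

theorem c7643 : lp7 (fun s => chk (ent L7643 s)) 0 = true := by decide +kernel
theorem p7643 : PrL chk L7643 := leafL c7643

theorem c7644 : lp7 (fun s => chk (ent L7644 s)) 0 = true := by decide +kernel
theorem p7644 : PrL chk L7644 := leafL c7644

theorem c7645 : lp7 (fun s => chk (ent L7645 s)) 0 = true := by decide +kernel
theorem p7645 : PrL chk L7645 := leafL c7645

theorem c7646 : lp7 (fun s => chk (ent L7646 s)) 0 = true := by decide +kernel
theorem p7646 : PrL chk L7646 := leafL c7646

theorem c7647 : lp7 (fun s => chk (ent L7647 s)) 0 = true := by decide +kernel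
theorem p7647 : PrL chk L7647 := leafL c7647

theorem c7648 : lp7 (fun s => chk (ent L7648 s)) 0 = true := by decide +kernel
theorem p7648 : PrL chk L7648 := leafL c7648

theorem c7649 : lp7 (fun s => chk (ent L7649 s)) 0 = true := by decide +kernel
theorem p7649 : PrL chk L7649 := leafL c7649

theorem c7650 : lp7 (fun s => chk (ent L7650 s)) 0 = true := by decide +kernel
theorem p7650 : PrL chk L7650 := leafL c7650

theorem c7651 : lp7 (fun s => chk (ent L7651 s)) 0 = true := by decide +kernel
theorem p7651 : PrL chk L7651 := leafL c7651

theorem c7652 : lp7 (fun s => chk (ent L7652 s)) 0 = true := by decide +kernel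
theorem p7652 : PrL chk L7652 := leafL c7652

theorem c7653 : lp7 (fun s => chk (ent L7653 s)) 0 = true := by decide +kernel
theorem p7653 : PrL chk L7653 := leafL c7653

theorem c7654 : lp7 (fun s => chk (ent L7654 s)) 0 = true := by decide +kernel
theorem p7654 : PrL chk L7654 := leafL c7654

theorem c7655 : lp7 (fun s => chk (ent L7655 s)) 0 = true := by decide +kernel
theorem p7655 : PrL chk L7655 := leafL c7655

theorem c7656 : lp7 (fun s => chk (ent L7656 s)) 0 = true := by decide +kernel
theorem p7656 : PrL chk L7656 := leafL c7656

theorem c7657 : lp7 (fun s => chk (ent L7657 s)) 0 = true := by decide +kernel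
theorem p7657 : PrL chk L7657 := leafL c7657

theorem c7658 : lp7 (fun s => chk (ent L7658 s)) 0 = true := by decide +kernel
theorem p7658 : PrL chk L7658 := leafL c7658

theorem c7659 : lp7 (fun s => chk (ent L7659 s)) 0 = true := by decide +kernel
theorem p7659 : PrL chk L7659 := leafL c7659

theorem c7660 : lp7 (fun s => chk (ent L7660 s)) 0 = true := by decide +kernel
theorem p7660 : PrL chk L7660 := leafL c7660

theorem c7661 : lp7 (fun s => chk (ent L7661 s)) 0 = true := by decide +kernel
theorem p7661 : PrL chk L7661 := leafL c7661

theorem c7662 : lp7 (fun s => chk (ent L7662 s)) 0 = true := by decide +kernel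
theorem p7662 : PrL chk L7662 := leafL c7662

theorem c7663 : lp7 (fun s => chk (ent L7663 s)) 0 = true := by decide +kernel
theorem p7663 : PrL chk L7663 := leafL c7663

theorem c7664 : lp7 (fun s => chk (ent L7664 s)) 0 = true := by decide +kernel
theorem p7664 : PrL chk L7664 := leafL c7664

theorem c7665 : lp7 (fun s => chk (ent L7665 s)) 0 = true := by decide +kernel
theorem p7665 : PrL chk L7665 := leafL c7665

theorem c7666 : lp7 (fun s => chk (ent L7666 s)) 0 = true := by decide +kernel
theorem p7666 : PrL chk L7666 := leafL c7666

theorem c7667 : lp7 (fun s => chk (ent L7667 s)) 0 = true := by decide +kernel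
theorem p7667 : PrL chk L7667 := leafL c7667

theorem c7668 : lp7 (fun s => chk (ent L7668 s)) 0 = true := by decide +kernel
theorem p7668 : PrL chk L7668 := leafL c7668

theorem c7669 : lp7 (fun s => chk (ent L7669 s)) 0 = true := by decide +kernel
theorem p7669 : PrL chk L7669 := leafL c7669

theorem c7670 : lp7 (fun s => chk (ent L7670 s)) 0 = true := by decide +kernel
theorem p7670 : PrL chk L7670 := leafL c7670

theorem c7671 : lp7 (fun s => chk (ent L7671 s)) 0 = true := by decide +kernel
theorem p7671 : PrL chk L7671 := leafL c7671

theorem c7672 : lp7 (fun s => chk (ent L7672 s)) 0 = true := by decide +kernel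
theorem p7672 : PrL chk L7672 := leafL c7672

theorem c7673 : lp7 (fun s => chk (ent L7673 s)) 0 = true := by decide +kernel
theorem p7673 : PrL chk L7673 := leafL c7673

theorem c7674 : lp7 (fun s => chk (ent L7674 s)) 0 = true := by decide +kernel
theorem p7674 : PrL chk L7674 := leafL c7674

theorem c7675 : lp7 (fun s => chk (ent L7675 s)) 0 = true := by decide +kernel
theorem p7675 : PrL chk L7675 := leafL c7675

theorem c7676 : lp7 (fun s => chk (ent L7676 s)) 0 = true := by decide +kernel
theorem p7676 : PrL chk L7676 := leafL c7676

theorem c7677 : lp7 (fun s => chk (ent L7677 s)) 0 = true := by decide +kernel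
theorem p7677 : PrL chk L7677 := leafL c7677

theorem c7678 : lp7 (fun s => chk (ent L7678 s)) 0 = true := by decide +kernel
theorem p7678 : PrL chk L7678 := leafL c7678

theorem c7679 : lp7 (fun s => chk (ent L7679 s)) 0 = true := by decide +kernel
theorem p7679 : PrL chk L7679 := leafL c7679

end Pool.Agent.ad013a.LA
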