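import Pool.Agent.H.MP_ad013a_pr.h63l.A.T
import Pool.Agent.H.MP_ad013a_pr.h63w.VLoop

namespace Pool.Agent.ad013a.LA

theorem c768 : lp7 (fun s => chk (ent L768 s)) 0 = true := by decide +kernel
theorem p768 : PrL chk L768 := leafL c768

theorem c769 : lp7 (fun s => chk (ent L769 s)) 0 = true := by decide +kernel
theorem p769 : PrL chk L769 := leafL c769

theorem c770 : lp7 (fun s => chk (ent L770 s)) 0 = true := by decide +kernel
theorem p770 : PrL chk L770 := leafL c770

theorem c771 : lp7 (fun s => chk (ent L771 s)) 0 = true := by decide +kernel
theorem p771 : PrL chk L771 := leafL c771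

theorem c772 : lp7 (fun s => chk (ent L772 s)) 0 = true := by decide +kernel
theorem p772 : PrL chk L772 := leafL c772

theorem c773 : lp7 (fun s => chk (ent L773 s)) 0 = true := by decide +kernel
theorem p773 : PrL chk L773 := leafL c773

theorem c774 : lp7 (fun s => chk (ent L774 s)) 0 = true := by decide +kernel
theorem p774 : PrL chk L774 := leafL c774

theorem c775 : lp7 (fun s => chk (ent L775 s)) 0 = true := by decide +kernel
theorem p775 : PrL chk L775 := leafL c775

theorem c776 : lp7 (fun s => chk (ent L776 s)) 0 = true := by decide +kernel
theorem p776 : PrL chk L776 := leafL c776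

theorem c777 : lp7 (fun s => chk (ent L777 s)) 0 = true := by decide +kernel
theorem p777 : PrL chk L777 := leafL c777

theorem c778 : lp7 (fun s => chk (ent L778 s)) 0 = true := by decide +kernel
theorem p778 : PrL chk L778 := leafL c778

theorem c779 : lp7 (fun s => chk (ent L779 s)) 0 = true := by decide +kernel
theorem p779 : PrL chk L779 := leafL c779

theorem c780 : lp7 (fun s => chk (ent L780 s)) 0 = true := by decide +kernel
theorem p780 : PrL chk L780 := leafL c780

theorem c781 : lp7 (fun s => chk (ent L781 s)) 0 = true := by decide +kernel
theorem p781 : PrL chk L781 := leafL c781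

theorem c782 : lp7 (fun s => chk (ent L782 s)) 0 = true := by decide +kernel
theorem p782 : PrL chk L782 := leafL c782

theorem c783 : lp7 (fun s => chk (ent L783 s)) 0 = true := by decide +kernel
theorem p783 : PrL chk L783 := leafL c783

theorem c784 : lp7 (fun s => chk (ent L784 s)) 0 = true := by decide +kernel
theorem p784 : PrL chk L784 := leafL c784

theorem c785 : lp7 (fun s => chk (ent L785 s)) 0 = true := by decide +kernel
theorem p785 : PrL chk L785 := leafL c785

theorem c786 : lp7 (fun s => chk (ent L786 s)) 0 = true := by decide +kernel
theorem p786 : PrL chk L786 := leafL c786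

theorem c787 : lp7 (fun s => chk (ent L787 s)) 0 = true := by decide +kernel
theorem p787 : PrL chk L787 := leafL c787

theorem c788 : lp7 (fun s => chk (ent L788 s)) 0 = true := by decide +kernel
theorem p788 : PrL chk L788 := leafL c788

theorem c789 : lp7 (fun s => chk (ent L789 s)) 0 = true := by decide +kernel
theorem p789 : PrL chk L789 := leafL c789

theorem c790 : lp7 (fun s => chk (ent L790 s)) 0 = true := by decide +kernel
theorem p790 : PrL chk L790 := leafL c790

theorem c791 : lp7 (fun s => chk (ent L791 s)) 0 = true := by decide +kernel
theorem p791 : PrL chk L791 := leafL c791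

theorem c792 : lp7 (fun s => chk (ent L792 s)) 0 = true := by decide +kernel
theorem p792 : PrL chk L792 := leafL c792

theorem c793 : lp7 (fun s => chk (ent L793 s)) 0 = true := by decide +kernel
theorem p793 : PrL chk L793 := leafL c793

theorem c794 : lp7 (fun s => chk (ent L794 s)) 0 = true := by decide +kernel
theorem p794 : PrL chk L794 := leafL c794

theorem c795 : lp7 (fun s => chk (ent L795 s)) 0 = true := by decide +kernel
theorem p795 : PrL chk L795 := leafL c795

theorem c796 : lp7 (fun s => chk (ent L796 s)) 0 = true := by decide +kernel
theorem p796 : PrL chk L796 := leafL c796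

theorem c797 : lp7 (fun s => chk (ent L797 s)) 0 = true := by decide +kernel
theorem p797 : PrL chk L797 := leafL c797

theorem c798 : lp7 (fun s => chk (ent L798 s)) 0 = true := by decide +kernel
theorem p798 : PrL chk L798 := leafL c798

theorem c799 : lp7 (fun s => chk (ent L799 s)) 0 = true := by decide +kernel
theorem p799 : PrL chk L799 := leafL c799

theorem c800 : lp7 (fun s => chk (ent L800 s)) 0 = true := by decide +kernel
theorem p800 : PrL chk L800 := leafL c800

theorem c801 : lp7 (fun s => chk (ent L801 s)) 0 = true := by decide +kernel
theorem p801 : PrL chk L801 := leafL c801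

theorem c802 : lp7 (fun s => chk (ent L802 s)) 0 = true := by decide +kernel
theorem p802 : PrL chk L802 := leafL c802

theorem c803 : lp7 (fun s => chk (ent L803 s)) 0 = true := by decide +kernel
theorem p803 : PrL chk L803 := leafL c803

theorem c804 : lp7 (fun s => chk (ent L804 s)) 0 = true := by decide +kernel
theorem p804 : PrL chk L804 := leafL c804

theorem c805 : lp7 (fun s => chk (ent L805 s)) 0 = true := by decide +kernel
theorem p805 : PrL chk L805 := leafL c805

theorem c806 : lp7 (fun s => chk (ent L806 s)) 0 = true := by decide +kernel
theorem p806 : PrL chk L806 := leafL c806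

theorem c807 : lp7 (fun s => chk (ent L807 s)) 0 = true := by decide +kernel
theorem p807 : PrL chk L807 := leafL c807

theorem c808 : lp7 (fun s => chk (ent L808 s)) 0 = true := by decide +kernel
theorem p808 : PrL chk L808 := leafL c808

theorem c809 : lp7 (fun s => chk (ent L809 s)) 0 = true := by decide +kernel
theorem p809 : PrL chk L809 := leafL c809

theorem c810 : lp7 (fun s => chk (ent L810 s)) 0 = true := by decide +kernel
theorem p810 : PrL chk L810 := leafL c810

theorem c811 : lp7 (fun s => chk (ent L811 s)) 0 = true := by decide +kernel
theorem p811 : PrL chk L811 := leafL c811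

theorem c812 : lp7 (fun s => chk (ent L812 s)) 0 = true := by decide +kernel
theorem p812 : PrL chk L812 := leafL c812

theorem c813 : lp7 (fun s => chk (ent L813 s)) 0 = true := by decide +kernel
theorem p813 : PrL chk L813 := leafL c813

theorem c814 : lp7 (fun s => chk (ent L814 s)) 0 = true := by decide +kernel
theorem p814 : PrL chk L814 := leafL c814

theorem c815 : lp7 (fun s => chk (ent L815 s)) 0 = true := by decide +kernel
theorem p815 : PrL chk L815 := leafL c815

theorem c816 : lp7 (fun s => chk (ent L816 s)) 0 = true := by decide +kernel
theorem p816 : PrL chk L816 := leafL c816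

theorem c817 : lp7 (fun s => chk (ent L817 s)) 0 = true := by decide +kernel
theorem p817 : PrL chk L817 := leafL c817

theorem c818 : lp7 (fun s => chk (ent L818 s)) 0 = true := by decide +kernel
theorem p818 : PrL chk L818 := leafL c818

theorem c819 : lp7 (fun s => chk (ent L819 s)) 0 = true := by decide +kernel
theorem p819 : PrL chk L819 := leafL c819

theorem c820 : lp7 (fun s => chk (ent L820 s)) 0 = true := by decide +kernel
theorem p820 : PrL chk L820 := leafL c820

theorem c821 : lp7 (fun s => chk (ent L821 s)) 0 = true := by decide +kernel
theorem p821 : PrL chk L821 := leafL c821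

theorem c822 : lp7 (fun s => chk (ent L822 s)) 0 = true := by decide +kernel
theorem p822 : PrL chk L822 := leafL c822

theorem c823 : lp7 (fun s => chk (ent L823 s)) 0 = true := by decide +kernel
theorem p823 : PrL chk L823 := leafL c823

theorem c824 : lp7 (fun s => chk (ent L824 s)) 0 = true := by decide +kernel
theorem p824 : PrL chk L824 := leafL c824

theorem c825 : lp7 (fun s => chk (ent L825 s)) 0 = true := by decide +kernel
theorem p825 : PrL chk L825 := leafL c825

theorem c826 : lp7 (fun s => chk (ent L826 s)) 0 = true := by decide +kernel
theorem p826 : PrL chk L826 := leafL c826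

theorem c827 : lp7 (fun s => chk (ent L827 s)) 0 = true := by decide +kernel
theorem p827 : PrL chk L827 := leafL c827

theorem c828 : lp7 (fun s => chk (ent L828 s)) 0 = true := by decide +kernel
theorem p828 : PrL chk L828 := leafL c828

theorem c829 : lp7 (fun s => chk (ent L829 s)) 0 = true := by decide +kernel
theorem p829 : PrL chk L829 := leafL c829

theorem c830 : lp7 (fun s => chk (ent L830 s)) 0 = true := by decide +kernel
theorem p830 : PrL chk L830 := leafL c830

theorem c831 : lp7 (fun s => chk (ent L831 s)) 0 = true := by decide +kernel
theorem p831 : PrL chk L831 := leafL c831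

theorem c832 : lp7 (fun s => chk (ent L832 s)) 0 = true := by decide +kernel
theorem p832 : PrL chk L832 := leafL c832

theorem c833 : lp7 (fun s => chk (ent L833 s)) 0 = true := by decide +kernel
theorem p833 : PrL chk L833 := leafL c833

theorem c834 : lp7 (fun s => chk (ent L834 s)) 0 = true := by decide +kernel
theorem p834 : PrL chk L834 := leafL c834

theorem c835 : lp7 (fun s => chk (ent L835 s)) 0 = true := by decide +kernel
theorem p835 : PrL chk L835 := leafL c835

theorem c836 : lp7 (fun s => chk (ent L836 s)) 0 = true := by decide +kernel
theorem p836 : PrL chk L836 := leafL c836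

theorem c837 : lp7 (fun s => chk (ent L837 s)) 0 = true := by decide +kernel
theorem p837 : PrL chk L837 := leafL c837

theorem c838 : lp7 (fun s => chk (ent L838 s)) 0 = true := by decide +kernel
theorem p838 : PrL chk L838 := leafL c838

theorem c839 : lp7 (fun s => chk (ent L839 s)) 0 = true := by decide +kernel
theorem p839 : PrL chk L839 := leafL c839

theorem c840 : lp7 (fun s => chk (ent L840 s)) 0 = true := by decide +kernel
theorem p840 : PrL chk L840 := leafL c840

theorem c841 : lp7 (fun s => chk (ent L841 s)) 0 = true := by decide +kernel
theorem p841 : PrL chk L841 := leafL c841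

theorem c842 : lp7 (fun s => chk (ent L842 s)) 0 = true := by decide +kernel
theorem p842 : PrL chk L842 := leafL c842

theorem c843 : lp7 (fun s => chk (ent L843 s)) 0 = true := by decide +kernel
theorem p843 : PrL chk L843 := leafL c843

theorem c844 : lp7 (fun s => chk (ent L844 s)) 0 = true := by decide +kernel
theorem p844 : PrL chk L844 := leafL c844

theorem c845 : lp7 (fun s => chk (ent L845 s)) 0 = true := by decide +kernel
theorem p845 : PrL chk L845 := leafL c845

theorem c846 : lp7 (fun s => chk (ent L846 s)) 0 = true := by decide +kernel
theorem p846 : PrL chk L846 := leafL c846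

theorem c847 : lp7 (fun s => chk (ent L847 s)) 0 = true := by decide +kernel
theorem p847 : PrL chk L847 := leafL c847

theorem c848 : lp7 (fun s => chk (ent L848 s)) 0 = true := by decide +kernel
theorem p848 : PrL chk L848 := leafL c848

theorem c849 : lp7 (fun s => chk (ent L849 s)) 0 = true := by decide +kernel
theorem p849 : PrL chk L849 := leafL c849

theorem c850 : lp7 (fun s => chk (ent L850 s)) 0 = true := by decide +kernel
theorem p850 : PrL chk L850 := leafL c850

theorem c851 : lp7 (fun s => chk (ent L851 s)) 0 = true := by decide +kernel
theorem p851 : PrL chk L851 := leafL c851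

theorem c852 : lp7 (fun s => chk (ent L852 s)) 0 = true := by decide +kernel
theorem p852 : PrL chk L852 := leafL c852

theorem c853 : lp7 (fun s => chk (ent L853 s)) 0 = true := by decide +kernel
theorem p853 : PrL chk L853 := leafL c853

theorem c854 : lp7 (fun s => chk (ent L854 s)) 0 = true := by decide +kernel
theorem p854 : PrL chk L854 := leafL c854

theorem c855 : lp7 (fun s => chk (ent L855 s)) 0 = true := by decide +kernel
theorem p855 : PrL chk L855 := leafL c855

theorem c856 : lp7 (fun s => chk (ent L856 s)) 0 = true := by decide +kernel
theorem p856 : PrL chk L856 := leafL c856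

theorem c857 : lp7 (fun s => chk (ent L857 s)) 0 = true := by decide +kernel
theorem p857 : PrL chk L857 := leafL c857

theorem c858 : lp7 (fun s => chk (ent L858 s)) 0 = true := by decide +kernel
theorem p858 : PrL chk L858 := leafL c858

theorem c859 : lp7 (fun s => chk (ent L859 s)) 0 = true := by decide +kernel
theorem p859 : PrL chk L859 := leafL c859

theorem c860 : lp7 (fun s => chk (ent L860 s)) 0 = true := by decide +kernel
theorem p860 : PrL chk L860 := leafL c860

theorem c861 : lp7 (fun s => chk (ent L861 s)) 0 = true := by decide +kernel
theorem p861 : PrL chk L861 := leafL c861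

theorem c862 : lp7 (fun s => chk (ent L862 s)) 0 = true := by decide +kernel
theorem p862 : PrL chk L862 := leafL c862

theorem c863 : lp7 (fun s => chk (ent L863 s)) 0 = true := by decide +kernel
theorem p863 : PrL chk L863 := leafL c863

theorem c864 : lp7 (fun s => chk (ent L864 s)) 0 = true := by decide +kernel
theorem p864 : PrL chk L864 := leafL c864

theorem c865 : lp7 (fun s => chk (ent L865 s)) 0 = true := by decide +kernel
theorem p865 : PrL chk L865 := leafL c865

theorem c866 : lp7 (fun s => chk (ent L866 s)) 0 = true := by decide +kernel
theorem p866 : PrL chk L866 := leafL c866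

theorem c867 : lp7 (fun s => chk (ent L867 s)) 0 = true := by decide +kernel
theorem p867 : PrL chk L867 := leafL c867

theorem c868 : lp7 (fun s => chk (ent L868 s)) 0 = true := by decide +kernel
theorem p868 : PrL chk L868 := leafL c868

theorem c869 : lp7 (fun s => chk (ent L869 s)) 0 = true := by decide +kernel
theorem p869 : PrL chk L869 := leafL c869

theorem c870 : lp7 (fun s => chk (ent L870 s)) 0 = true := by decide +kernel
theorem p870 : PrL chk L870 := leafL c870

theorem c871 : lp7 (fun s => chk (ent L871 s)) 0 = true := by decide +kernel
theorem p871 : PrL chk L871 := leafL c871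

theorem c872 : lp7 (fun s => chk (ent L872 s)) 0 = true := by decide +kernel
theorem p872 : PrL chk L872 := leafL c872

theorem c873 : lp7 (fun s => chk (ent L873 s)) 0 = true := by decide +kernel
theorem p873 : PrL chk L873 := leafL c873

theorem c874 : lp7 (fun s => chk (ent L874 s)) 0 = true := by decide +kernel
theorem p874 : PrL chk L874 := leafL c874

theorem c875 : lp7 (fun s => chk (ent L875 s)) 0 = true := by decide +kernel
theorem p875 : PrL chk L875 := leafL c875

theorem c876 : lp7 (fun s => chk (ent L876 s)) 0 = true := by decide +kernel
theorem p876 : PrL chk L876 := leafL c876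

theorem c877 : lp7 (fun s => chk (ent L877 s)) 0 = true := by decide +kernel
theorem p877 : PrL chk L877 := leafL c877

theorem c878 : lp7 (fun s => chk (ent L878 s)) 0 = true := by decide +kernel
theorem p878 : PrL chk L878 := leafL c878

theorem c879 : lp7 (fun s => chk (ent L879 s)) 0 = true := by decide +kernel
theorem p879 : PrL chk L879 := leafL c879

theorem c880 : lp7 (fun s => chk (ent L880 s)) 0 = true := by decide +kernel
theorem p880 : PrL chk L880 := leafL c880

theorem c881 : lp7 (fun s => chk (ent L881 s)) 0 = true := by decide +kernel
theorem p881 : PrL chk L881 := leafL c881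

theorem c882 : lp7 (fun s => chk (ent L882 s)) 0 = true := by decide +kernel
theorem p882 : PrL chk L882 := leafL c882

theorem c883 : lp7 (fun s => chk (ent L883 s)) 0 = true := by decide +kernel
theorem p883 : PrL chk L883 := leafL c883

theorem c884 : lp7 (fun s => chk (ent L884 s)) 0 = true := by decide +kernel
theorem p884 : PrL chk L884 := leafL c884

theorem c885 : lp7 (fun s => chk (ent L885 s)) 0 = true := by decide +kernel
theorem p885 : PrL chk L885 := leafL c885

theorem c886 : lp7 (fun s => chk (ent L886 s)) 0 = true := by decide +kernel
theorem p886 : PrL chk L886 := leafL c886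

theorem c887 : lp7 (fun s => chk (ent L887 s)) 0 = true := by decide +kernel
theorem p887 : PrL chk L887 := leafL c887

theorem c888 : lp7 (fun s => chk (ent L888 s)) 0 = true := by decide +kernel
theorem p888 : PrL chk L888 := leafL c888

theorem c889 : lp7 (fun s => chk (ent L889 s)) 0 = true := by decide +kernel
theorem p889 : PrL chk L889 := leafL c889

theorem c890 : lp7 (fun s => chk (ent L890 s)) 0 = true := by decide +kernel
theorem p890 : PrL chk L890 := leafL c890

theorem c891 : lp7 (fun s => chk (ent L891 s)) 0 = true := by decide +kernel
theorem p891 : PrL chk L891 := leafL c891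

theorem c892 : lp7 (fun s => chk (ent L892 s)) 0 = true := by decide +kernel
theorem p892 : PrL chk L892 := leafL c892

theorem c893 : lp7 (fun s => chk (ent L893 s)) 0 = true := by decide +kernel
theorem p893 : PrL chk L893 := leafL c893

theorem c894 : lp7 (fun s => chk (ent L894 s)) 0 = true := by decide +kernel
theorem p894 : PrL chk L894 := leafL c894

theorem c895 : lp7 (fun s => chk (ent L895 s)) 0 = true := by decide +kernel
theorem p895 : PrL chk L895 := leafL c895

theorem c896 : lp7 (fun s => chk (ent L896 s)) 0 = true := by decide +kernel
theorem p896 : PrL chk L896 := leafL c896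

theorem c897 : lp7 (fun s => chk (ent L897 s)) 0 = true := by decide +kernel
theorem p897 : PrL chk L897 := leafL c897

theorem c898 : lp7 (fun s => chk (ent L898 s)) 0 = true := by decide +kernel
theorem p898 : PrL chk L898 := leafL c898

theorem c899 : lp7 (fun s => chk (ent L899 s)) 0 = true := by decide +kernel
theorem p899 : PrL chk L899 := leafL c899

theorem c900 : lp7 (fun s => chk (ent L900 s)) 0 = true := by decide +kernel
theorem p900 : PrL chk L900 := leafL c900

theorem c901 : lp7 (fun s => chk (ent L901 s)) 0 = true := by decide +kernel
theorem p901 : PrL chk L901 := leafL c901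

theorem c902 : lp7 (fun s => chk (ent L902 s)) 0 = true := by decide +kernel
theorem p902 : PrL chk L902 := leafL c902

theorem c903 : lp7 (fun s => chk (ent L903 s)) 0 = true := by decide +kernel
theorem p903 : PrL chk L903 := leafL c903

theorem c904 : lp7 (fun s => chk (ent L904 s)) 0 = true := by decide +kernel
theorem p904 : PrL chk L904 := leafL c904

theorem c905 : lp7 (fun s => chk (ent L905 s)) 0 = true := by decide +kernel
theorem p905 : PrL chk L905 := leafL c905

theorem c906 : lp7 (fun s => chk (ent L906 s)) 0 = true := by decide +kernel
theorem p906 : PrL chk L906 := leafL c906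

theorem c907 : lp7 (fun s => chk (ent L907 s)) 0 = true := by decide +kernel
theorem p907 : PrL chk L907 := leafL c907

theorem c908 : lp7 (fun s => chk (ent L908 s)) 0 = true := by decide +kernel
theorem p908 : PrL chk L908 := leafL c908

theorem c909 : lp7 (fun s => chk (ent L909 s)) 0 = true := by decide +kernel
theorem p909 : PrL chk L909 := leafL c909

theorem c910 : lp7 (fun s => chk (ent L910 s)) 0 = true := by decide +kernel
theorem p910 : PrL chk L910 := leafL c910

theorem c911 : lp7 (fun s => chk (ent L911 s)) 0 = true := by decide +kernel
theorem p911 : PrL chk L911 := leafL c911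

theorem c912 : lp7 (fun s => chk (ent L912 s)) 0 = true := by decide +kernel
theorem p912 : PrL chk L912 := leafL c912

theorem c913 : lp7 (fun s => chk (ent L913 s)) 0 = true := by decide +kernel
theorem p913 : PrL chk L913 := leafL c913

theorem c914 : lp7 (fun s => chk (ent L914 s)) 0 = true := by decide +kernel
theorem p914 : PrL chk L914 := leafL c914

theorem c915 : lp7 (fun s => chk (ent L915 s)) 0 = true := by decide +kernel
theorem p915 : PrL chk L915 := leafL c915

theorem c916 : lp7 (fun s => chk (ent L916 s)) 0 = true := by decide +kernel
theorem p916 : PrL chk L916 := leafL c916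

theorem c917 : lp7 (fun s => chk (ent L917 s)) 0 = true := by decide +kernel
theorem p917 : PrL chk L917 := leafL c917

theorem c918 : lp7 (fun s => chk (ent L918 s)) 0 = true := by decide +kernel
theorem p918 : PrL chk L918 := leafL c918

theorem c919 : lp7 (fun s => chk (ent L919 s)) 0 = true := by decide +kernel
theorem p919 : PrL chk L919 := leafL c919

theorem c920 : lp7 (fun s => chk (ent L920 s)) 0 = true := by decide +kernel
theorem p920 : PrL chk L920 := leafL c920

theorem c921 : lp7 (fun s => chk (ent L921 s)) 0 = true := by decide +kernel
theorem p921 : PrL chk L921 := leafL c921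

theorem c922 : lp7 (fun s => chk (ent L922 s)) 0 = true := by decide +kernel
theorem p922 : PrL chk L922 := leafL c922

theorem c923 : lp7 (fun s => chk (ent L923 s)) 0 = true := by decide +kernel
theorem p923 : PrL chk L923 := leafL c923

theorem c924 : lp7 (fun s => chk (ent L924 s)) 0 = true := by decide +kernel
theorem p924 : PrL chk L924 := leafL c924

theorem c925 : lp7 (fun s => chk (ent L925 s)) 0 = true := by decide +kernel
theorem p925 : PrL chk L925 := leafL c925

theorem c926 : lp7 (fun s => chk (ent L926 s)) 0 = true := by decide +kernel
theorem p926 : PrL chk L926 := leafL c926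

theorem c927 : lp7 (fun s => chk (ent L927 s)) 0 = true := by decide +kernel
theorem p927 : PrL chk L927 := leafL c927

theorem c928 : lp7 (fun s => chk (ent L928 s)) 0 = true := by decide +kernel
theorem p928 : PrL chk L928 := leafL c928

theorem c929 : lp7 (fun s => chk (ent L929 s)) 0 = true := by decide +kernel
theorem p929 : PrL chk L929 := leafL c929

theorem c930 : lp7 (fun s => chk (ent L930 s)) 0 = true := by decide +kernel
theorem p930 : PrL chk L930 := leafL c930

theorem c931 : lp7 (fun s => chk (ent L931 s)) 0 = true := by decide +kernel
theorem p931 : PrL chk L931 := leafL c931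

theorem c932 : lp7 (fun s => chk (ent L932 s)) 0 = true := by decide +kernel
theorem p932 : PrL chk L932 := leafL c932

theorem c933 : lp7 (fun s => chk (ent L933 s)) 0 = true := by decide +kernel
theorem p933 : PrL chk L933 := leafL c933

theorem c934 : lp7 (fun s => chk (ent L934 s)) 0 = true := by decide +kernel
theorem p934 : PrL chk L934 := leafL c934

theorem c935 : lp7 (fun s => chk (ent L935 s)) 0 = true := by decide +kernel
theorem p935 : PrL chk L935 := leafL c935

theorem c936 : lp7 (fun s => chk (ent L936 s)) 0 = true := by decide +kernel
theorem p936 : PrL chk L936 := leafL c936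

theorem c937 : lp7 (fun s => chk (ent L937 s)) 0 = true := by decide +kernel
theorem p937 : PrL chk L937 := leafL c937

theorem c938 : lp7 (fun s => chk (ent L938 s)) 0 = true := by decide +kernel
theorem p938 : PrL chk L938 := leafL c938

theorem c939 : lp7 (fun s => chk (ent L939 s)) 0 = true := by decide +kernel
theorem p939 : PrL chk L939 := leafL c939

theorem c940 : lp7 (fun s => chk (ent L940 s)) 0 = true := by decide +kernel
theorem p940 : PrL chk L940 := leafL c940

theorem c941 : lp7 (fun s => chk (ent L941 s)) 0 = true := by decide +kernel
theorem p941 : PrL chk L941 := leafL c941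

theorem c942 : lp7 (fun s => chk (ent L942 s)) 0 = true := by decide +kernel
theorem p942 : PrL chk L942 := leafL c942

theorem c943 : lp7 (fun s => chk (ent L943 s)) 0 = true := by decide +kernel
theorem p943 : PrL chk L943 := leafL c943

theorem c944 : lp7 (fun s => chk (ent L944 s)) 0 = true := by decide +kernel
theorem p944 : PrL chk L944 := leafL c944

theorem c945 : lp7 (fun s => chk (ent L945 s)) 0 = true := by decide +kernel
theorem p945 : PrL chk L945 := leafL c945

theorem c946 : lp7 (fun s => chk (ent L946 s)) 0 = true := by decide +kernel
theorem p946 : PrL chk L946 := leafL c946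

theorem c947 : lp7 (fun s => chk (ent L947 s)) 0 = true := by decide +kernel
theorem p947 : PrL chk L947 := leafL c947

theorem c948 : lp7 (fun s => chk (ent L948 s)) 0 = true := by decide +kernel
theorem p948 : PrL chk L948 := leafL c948

theorem c949 : lp7 (fun s => chk (ent L949 s)) 0 = true := by decide +kernel
theorem p949 : PrL chk L949 := leafL c949

theorem c950 : lp7 (fun s => chk (ent L950 s)) 0 = true := by decide +kernel
theorem p950 : PrL chk L950 := leafL c950

theorem c951 : lp7 (fun s => chk (ent L951 s)) 0 = true := by decide +kernel
theorem p951 : PrL chk L951 := leafL c951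

theorem c952 : lp7 (fun s => chk (ent L952 s)) 0 = true := by decide +kernel
theorem p952 : PrL chk L952 := leafL c952

theorem c953 : lp7 (fun s => chk (ent L953 s)) 0 = true := by decide +kernel
theorem p953 : PrL chk L953 := leafL c953

theorem c954 : lp7 (fun s => chk (ent L954 s)) 0 = true := by decide +kernel
theorem p954 : PrL chk L954 := leafL c954

theorem c955 : lp7 (fun s => chk (ent L955 s)) 0 = true := by decide +kernel
theorem p955 : PrL chk L955 := leafL c955

theorem c956 : lp7 (fun s => chk (ent L956 s)) 0 = true := by decide +kernel
theorem p956 : PrL chk L956 := leafL c956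

theorem c957 : lp7 (fun s => chk (ent L957 s)) 0 = true := by decide +kernel
theorem p957 : PrL chk L957 := leafL c957

theorem c958 : lp7 (fun s => chk (ent L958 s)) 0 = true := by decide +kernel
theorem p958 : PrL chk L958 := leafL c958

theorem c959 : lp7 (fun s => chk (ent L959 s)) 0 = true := by decide +kernel
theorem p959 : PrL chk L959 := leafL c959

theorem c960 : lp7 (fun s => chk (ent L960 s)) 0 = true := by decide +kernel
theorem p960 : PrL chk L960 := leafL c960

theorem c961 : lp7 (fun s => chk (ent L961 s)) 0 = true := by decide +kernel
theorem p961 : PrL chk L961 := leafL c961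

theorem c962 : lp7 (fun s => chk (ent L962 s)) 0 = true := by decide +kernel
theorem p962 : PrL chk L962 := leafL c962

theorem c963 : lp7 (fun s => chk (ent L963 s)) 0 = true := by decide +kernel
theorem p963 : PrL chk L963 := leafL c963

theorem c964 : lp7 (fun s => chk (ent L964 s)) 0 = true := by decide +kernel
theorem p964 : PrL chk L964 := leafL c964

theorem c965 : lp7 (fun s => chk (ent L965 s)) 0 = true := by decide +kernel
theorem p965 : PrL chk L965 := leafL c965

theorem c966 : lp7 (fun s => chk (ent L966 s)) 0 = true := by decide +kernel
theorem p966 : PrL chk L966 := leafL c966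

theorem c967 : lp7 (fun s => chk (ent L967 s)) 0 = true := by decide +kernel
theorem p967 : PrL chk L967 := leafL c967

theorem c968 : lp7 (fun s => chk (ent L968 s)) 0 = true := by decide +kernel
theorem p968 : PrL chk L968 := leafL c968

theorem c969 : lp7 (fun s => chk (ent L969 s)) 0 = true := by decide +kernel
theorem p969 : PrL chk L969 := leafL c969

theorem c970 : lp7 (fun s => chk (ent L970 s)) 0 = true := by decide +kernel
theorem p970 : PrL chk L970 := leafL c970

theorem c971 : lp7 (fun s => chk (ent L971 s)) 0 = true := by decide +kernel
theorem p971 : PrL chk L971 := leafL c971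

theorem c972 : lp7 (fun s => chk (ent L972 s)) 0 = true := by decide +kernel
theorem p972 : PrL chk L972 := leafL c972

theorem c973 : lp7 (fun s => chk (ent L973 s)) 0 = true := by decide +kernel
theorem p973 : PrL chk L973 := leafL c973

theorem c974 : lp7 (fun s => chk (ent L974 s)) 0 = true := by decide +kernel
theorem p974 : PrL chk L974 := leafL c974

theorem c975 : lp7 (fun s => chk (ent L975 s)) 0 = true := by decide +kernel
theorem p975 : PrL chk L975 := leafL c975

theorem c976 : lp7 (fun s => chk (ent L976 s)) 0 = true := by decide +kernel
theorem p976 : PrL chk L976 := leafL c976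

theorem c977 : lp7 (fun s => chk (ent L977 s)) 0 = true := by decide +kernel
theorem p977 : PrL chk L977 := leafL c977

theorem c978 : lp7 (fun s => chk (ent L978 s)) 0 = true := by decide +kernel
theorem p978 : PrL chk L978 := leafL c978

theorem c979 : lp7 (fun s => chk (ent L979 s)) 0 = true := by decide +kernel
theorem p979 : PrL chk L979 := leafL c979

theorem c980 : lp7 (fun s => chk (ent L980 s)) 0 = true := by decide +kernel
theorem p980 : PrL chk L980 := leafL c980

theorem c981 : lp7 (fun s => chk (ent L981 s)) 0 = true := by decide +kernel
theorem p981 : PrL chk L981 := leafL c981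

theorem c982 : lp7 (fun s => chk (ent L982 s)) 0 = true := by decide +kernel
theorem p982 : PrL chk L982 := leafL c982

theorem c983 : lp7 (fun s => chk (ent L983 s)) 0 = true := by decide +kernel
theorem p983 : PrL chk L983 := leafL c983

theorem c984 : lp7 (fun s => chk (ent L984 s)) 0 = true := by decide +kernel
theorem p984 : PrL chk L984 := leafL c984

theorem c985 : lp7 (fun s => chk (ent L985 s)) 0 = true := by decide +kernel
theorem p985 : PrL chk L985 := leafL c985

theorem c986 : lp7 (fun s => chk (ent L986 s)) 0 = true := by decide +kernel
theorem p986 : PrL chk L986 := leafL c986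

theorem c987 : lp7 (fun s => chk (ent L987 s)) 0 = true := by decide +kernel
theorem p987 : PrL chk L987 := leafL c987

theorem c988 : lp7 (fun s => chk (ent L988 s)) 0 = true := by decide +kernel
theorem p988 : PrL chk L988 := leafL c988

theorem c989 : lp7 (fun s => chk (ent L989 s)) 0 = true := by decide +kernel
theorem p989 : PrL chk L989 := leafL c989

theorem c990 : lp7 (fun s => chk (ent L990 s)) 0 = true := by decide +kernel
theorem p990 : PrL chk L990 := leafL c990

theorem c991 : lp7 (fun s => chk (ent L991 s)) 0 = true := by decide +kernel
theorem p991 : PrL chk L991 := leafL c991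

theorem c992 : lp7 (fun s => chk (ent L992 s)) 0 = true := by decide +kernel
theorem p992 : PrL chk L992 := leafL c992

theorem c993 : lp7 (fun s => chk (ent L993 s)) 0 = true := by decide +kernel
theorem p993 : PrL chk L993 := leafL c993

theorem c994 : lp7 (fun s => chk (ent L994 s)) 0 = true := by decide +kernel
theorem p994 : PrL chk L994 := leafL c994

theorem c995 : lp7 (fun s => chk (ent L995 s)) 0 = true := by decide +kernel
theorem p995 : PrL chk L995 := leafL c995

theorem c996 : lp7 (fun s => chk (ent L996 s)) 0 = true := by decide +kernel
theorem p996 : PrL chk L996 := leafL c996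

theorem c997 : lp7 (fun s => chk (ent L997 s)) 0 = true := by decide +kernel
theorem p997 : PrL chk L997 := leafL c997

theorem c998 : lp7 (fun s => chk (ent L998 s)) 0 = true := by decide +kernel
theorem p998 : PrL chk L998 := leafL c998

theorem c999 : lp7 (fun s => chk (ent L999 s)) 0 = true := by decide +kernel
theorem p999 : PrL chk L999 := leafL c999

theorem c1000 : lp7 (fun s => chk (ent L1000 s)) 0 = true := by decide +kernel
theorem p1000 : PrL chk L1000 := leafL c1000

theorem c1001 : lp7 (fun s => chk (ent L1001 s)) 0 = true := by decide +kernel
theorem p1001 : PrL chk L1001 := leafL c1001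

theorem c1002 : lp7 (fun s => chk (ent L1002 s)) 0 = true := by decide +kernel
theorem p1002 : PrL chk L1002 := leafL c1002

theorem c1003 : lp7 (fun s => chk (ent L1003 s)) 0 = true := by decide +kernel
theorem p1003 : PrL chk L1003 := leafL c1003

theorem c1004 : lp7 (fun s => chk (ent L1004 s)) 0 = true := by decide +kernel
theorem p1004 : PrL chk L1004 := leafL c1004

theorem c1005 : lp7 (fun s => chk (ent L1005 s)) 0 = true := by decide +kernel
theorem p1005 : PrL chk L1005 := leafL c1005

theorem c1006 : lp7 (fun s => chk (ent L1006 s)) 0 = true := by decide +kernel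
theorem p1006 : PrL chk L1006 := leafL c1006

theorem c1007 : lp7 (fun s => chk (ent L1007 s)) 0 = true := by decide +kernel
theorem p1007 : PrL chk L1007 := leafL c1007

theorem c1008 : lp7 (fun s => chk (ent L1008 s)) 0 = true := by decide +kernel
theorem p1008 : PrL chk L1008 := leafL c1008

theorem c1009 : lp7 (fun s => chk (ent L1009 s)) 0 = true := by decide +kernel
theorem p1009 : PrL chk L1009 := leafL c1009

theorem c1010 : lp7 (fun s => chk (ent L1010 s)) 0 = true := by decide +kernel
theorem p1010 : PrL chk L1010 := leafL c1010

theorem c1011 : lp7 (fun s => chk (ent L1011 s)) 0 = true := by decide +kernel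
theorem p1011 : PrL chk L1011 := leafL c1011

theorem c1012 : lp7 (fun s => chk (ent L1012 s)) 0 = true := by decide +kernel
theorem p1012 : PrL chk L1012 := leafL c1012

theorem c1013 : lp7 (fun s => chk (ent L1013 s)) 0 = true := by decide +kernel
theorem p1013 : PrL chk L1013 := leafL c1013

theorem c1014 : lp7 (fun s => chk (ent L1014 s)) 0 = true := by decide +kernel
theorem p1014 : PrL chk L1014 := leafL c1014

theorem c1015 : lp7 (fun s => chk (ent L1015 s)) 0 = true := by decide +kernel
theorem p1015 : PrL chk L1015 := leafL c1015

theorem c1016 : lp7 (fun s => chk (ent L1016 s)) 0 = true := by decide +kernel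
theorem p1016 : PrL chk L1016 := leafL c1016

theorem c1017 : lp7 (fun s => chk (ent L1017 s)) 0 = true := by decide +kernel
theorem p1017 : PrL chk L1017 := leafL c1017

theorem c1018 : lp7 (fun s => chk (ent L1018 s)) 0 = true := by decide +kernel
theorem p1018 : PrL chk L1018 := leafL c1018

theorem c1019 : lp7 (fun s => chk (ent L1019 s)) 0 = true := by decide +kernel
theorem p1019 : PrL chk L1019 := leafL c1019

theorem c1020 : lp7 (fun s => chk (ent L1020 s)) 0 = true := by decide +kernel
theorem p1020 : PrL chk L1020 := leafL c1020

theorem c1021 : lp7 (fun s => chk (ent L1021 s)) 0 = true := by decide +kernel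
theorem p1021 : PrL chk L1021 := leafL c1021

theorem c1022 : lp7 (fun s => chk (ent L1022 s)) 0 = true := by decide +kernel
theorem p1022 : PrL chk L1022 := leafL c1022

theorem c1023 : lp7 (fun s => chk (ent L1023 s)) 0 = true := by decide +kernel
theorem p1023 : PrL chk L1023 := leafL c1023

end Pool.Agent.ad013a.LA
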