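import Pool.Agent.H.MP_ad013a_pr.h63l.A.T
import Pool.Agent.H.MP_ad013a_pr.h63w.VLoop

namespace Pool.Agent.ad013a.LA

theorem c7680 : lp7 (fun s => chk (ent L7680 s)) 0 = true := by decide +kernel
theorem p7680 : PrL chk L7680 := leafL c7680

theorem c7681 : lp7 (fun s => chk (ent L7681 s)) 0 = true := by decide +kernel
theorem p7681 : PrL chk L7681 := leafL c7681

theorem c7682 : lp7 (fun s => chk (ent L7682 s)) 0 = true := by decide +kernel
theorem p7682 : PrL chk L7682 := leafL c7682

theorem c7683 : lp7 (fun s => chk (ent L7683 s)) 0 = true := by decide +kernel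
theorem p7683 : PrL chk L7683 := leafL c7683

theorem c7684 : lp7 (fun s => chk (ent L7684 s)) 0 = true := by decide +kernel
theorem p7684 : PrL chk L7684 := leafL c7684

theorem c7685 : lp7 (fun s => chk (ent L7685 s)) 0 = true := by decide +kernel
theorem p7685 : PrL chk L7685 := leafL c7685

theorem c7686 : lp7 (fun s => chk (ent L7686 s)) 0 = true := by decide +kernel
theorem p7686 : PrL chk L7686 := leafL c7686

theorem c7687 : lp7 (fun s => chk (ent L7687 s)) 0 = true := by decide +kernel
theorem p7687 : PrL chk L7687 := leafL c7687

theorem c7688 : lp7 (fun s => chk (ent L7688 s)) 0 = true := by decide +kernel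
theorem p7688 : PrL chk L7688 := leafL c7688

theorem c7689 : lp7 (fun s => chk (ent L7689 s)) 0 = true := by decide +kernel
theorem p7689 : PrL chk L7689 := leafL c7689

theorem c7690 : lp7 (fun s => chk (ent L7690 s)) 0 = true := by decide +kernel
theorem p7690 : PrL chk L7690 := leafL c7690

theorem c7691 : lp7 (fun s => chk (ent L7691 s)) 0 = true := by decide +kernel
theorem p7691 : PrL chk L7691 := leafL c7691

theorem c7692 : lp7 (fun s => chk (ent L7692 s)) 0 = true := by decide +kernel
theorem p7692 : PrL chk L7692 := leafL c7692

theorem c7693 : lp7 (fun s => chk (ent L7693 s)) 0 = true := by decide +kernel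
theorem p7693 : PrL chk L7693 := leafL c7693

theorem c7694 : lp7 (fun s => chk (ent L7694 s)) 0 = true := by decide +kernel
theorem p7694 : PrL chk L7694 := leafL c7694

theorem c7695 : lp7 (fun s => chk (ent L7695 s)) 0 = true := by decide +kernel
theorem p7695 : PrL chk L7695 := leafL c7695

theorem c7696 : lp7 (fun s => chk (ent L7696 s)) 0 = true := by decide +kernel
theorem p7696 : PrL chk L7696 := leafL c7696

theorem c7697 : lp7 (fun s => chk (ent L7697 s)) 0 = true := by decide +kernel
theorem p7697 : PrL chk L7697 := leafL c7697

theorem c7698 : lp7 (fun s => chk (ent L7698 s)) 0 = true := by decide +kernel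
theorem p7698 : PrL chk L7698 := leafL c7698

theorem c7699 : lp7 (fun s => chk (ent L7699 s)) 0 = true := by decide +kernel
theorem p7699 : PrL chk L7699 := leafL c7699

theorem c7700 : lp7 (fun s => chk (ent L7700 s)) 0 = true := by decide +kernel
theorem p7700 : PrL chk L7700 := leafL c7700

theorem c7701 : lp7 (fun s => chk (ent L7701 s)) 0 = true := by decide +kernel
theorem p7701 : PrL chk L7701 := leafL c7701

theorem c7702 : lp7 (fun s => chk (ent L7702 s)) 0 = true := by decide +kernel
theorem p7702 : PrL chk L7702 := leafL c7702

theorem c7703 : lp7 (fun s => chk (ent L7703 s)) 0 = true := by decide +kernel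
theorem p7703 : PrL chk L7703 := leafL c7703

theorem c7704 : lp7 (fun s => chk (ent L7704 s)) 0 = true := by decide +kernel
theorem p7704 : PrL chk L7704 := leafL c7704

theorem c7705 : lp7 (fun s => chk (ent L7705 s)) 0 = true := by decide +kernel
theorem p7705 : PrL chk L7705 := leafL c7705

theorem c7706 : lp7 (fun s => chk (ent L7706 s)) 0 = true := by decide +kernel
theorem p7706 : PrL chk L7706 := leafL c7706

theorem c7707 : lp7 (fun s => chk (ent L7707 s)) 0 = true := by decide +kernel
theorem p7707 : PrL chk L7707 := leafL c7707

theorem c7708 : lp7 (fun s => chk (ent L7708 s)) 0 = true := by decide +kernel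
theorem p7708 : PrL chk L7708 := leafL c7708

theorem c7709 : lp7 (fun s => chk (ent L7709 s)) 0 = true := by decide +kernel
theorem p7709 : PrL chk L7709 := leafL c7709

theorem c7710 : lp7 (fun s => chk (ent L7710 s)) 0 = true := by decide +kernel
theorem p7710 : PrL chk L7710 := leafL c7710

theorem c7711 : lp7 (fun s => chk (ent L7711 s)) 0 = true := by decide +kernel
theorem p7711 : PrL chk L7711 := leafL c7711

theorem c7712 : lp7 (fun s => chk (ent L7712 s)) 0 = true := by decide +kernel
theorem p7712 : PrL chk L7712 := leafL c7712

theorem c7713 : lp7 (fun s => chk (ent L7713 s)) 0 = true := by decide +kernel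
theorem p7713 : PrL chk L7713 := leafL c7713

theorem c7714 : lp7 (fun s => chk (ent L7714 s)) 0 = true := by decide +kernel
theorem p7714 : PrL chk L7714 := leafL c7714

theorem c7715 : lp7 (fun s => chk (ent L7715 s)) 0 = true := by decide +kernel
theorem p7715 : PrL chk L7715 := leafL c7715

theorem c7716 : lp7 (fun s => chk (ent L7716 s)) 0 = true := by decide +kernel
theorem p7716 : PrL chk L7716 := leafL c7716

theorem c7717 : lp7 (fun s => chk (ent L7717 s)) 0 = true := by decide +kernel
theorem p7717 : PrL chk L7717 := leafL c7717

theorem c7718 : lp7 (fun s => chk (ent L7718 s)) 0 = true := by decide +kernel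
theorem p7718 : PrL chk L7718 := leafL c7718

theorem c7719 : lp7 (fun s => chk (ent L7719 s)) 0 = true := by decide +kernel
theorem p7719 : PrL chk L7719 := leafL c7719

theorem c7720 : lp7 (fun s => chk (ent L7720 s)) 0 = true := by decide +kernel
theorem p7720 : PrL chk L7720 := leafL c7720

theorem c7721 : lp7 (fun s => chk (ent L7721 s)) 0 = true := by decide +kernel
theorem p7721 : PrL chk L7721 := leafL c7721

theorem c7722 : lp7 (fun s => chk (ent L7722 s)) 0 = true := by decide +kernel
theorem p7722 : PrL chk L7722 := leafL c7722

theorem c7723 : lp7 (fun s => chk (ent L7723 s)) 0 = true := by decide +kernel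
theorem p7723 : PrL chk L7723 := leafL c7723

theorem c7724 : lp7 (fun s => chk (ent L7724 s)) 0 = true := by decide +kernel
theorem p7724 : PrL chk L7724 := leafL c7724

theorem c7725 : lp7 (fun s => chk (ent L7725 s)) 0 = true := by decide +kernel
theorem p7725 : PrL chk L7725 := leafL c7725

theorem c7726 : lp7 (fun s => chk (ent L7726 s)) 0 = true := by decide +kernel
theorem p7726 : PrL chk L7726 := leafL c7726

theorem c7727 : lp7 (fun s => chk (ent L7727 s)) 0 = true := by decide +kernel
theorem p7727 : PrL chk L7727 := leafL c7727

theorem c7728 : lp7 (fun s => chk (ent L7728 s)) 0 = true := by decide +kernel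
theorem p7728 : PrL chk L7728 := leafL c7728

theorem c7729 : lp7 (fun s => chk (ent L7729 s)) 0 = true := by decide +kernel
theorem p7729 : PrL chk L7729 := leafL c7729

theorem c7730 : lp7 (fun s => chk (ent L7730 s)) 0 = true := by decide +kernel
theorem p7730 : PrL chk L7730 := leafL c7730

theorem c7731 : lp7 (fun s => chk (ent L7731 s)) 0 = true := by decide +kernel
theorem p7731 : PrL chk L7731 := leafL c7731

theorem c7732 : lp7 (fun s => chk (ent L7732 s)) 0 = true := by decide +kernel
theorem p7732 : PrL chk L7732 := leafL c7732

theorem c7733 : lp7 (fun s => chk (ent L7733 s)) 0 = true := by decide +kernel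
theorem p7733 : PrL chk L7733 := leafL c7733

theorem c7734 : lp7 (fun s => chk (ent L7734 s)) 0 = true := by decide +kernel
theorem p7734 : PrL chk L7734 := leafL c7734

theorem c7735 : lp7 (fun s => chk (ent L7735 s)) 0 = true := by decide +kernel
theorem p7735 : PrL chk L7735 := leafL c7735

theorem c7736 : lp7 (fun s => chk (ent L7736 s)) 0 = true := by decide +kernel
theorem p7736 : PrL chk L7736 := leafL c7736

theorem c7737 : lp7 (fun s => chk (ent L7737 s)) 0 = true := by decide +kernel
theorem p7737 : PrL chk L7737 := leafL c7737

theorem c7738 : lp7 (fun s => chk (ent L7738 s)) 0 = true := by decide +kernel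
theorem p7738 : PrL chk L7738 := leafL c7738

theorem c7739 : lp7 (fun s => chk (ent L7739 s)) 0 = true := by decide +kernel
theorem p7739 : PrL chk L7739 := leafL c7739

theorem c7740 : lp7 (fun s => chk (ent L7740 s)) 0 = true := by decide +kernel
theorem p7740 : PrL chk L7740 := leafL c7740

theorem c7741 : lp7 (fun s => chk (ent L7741 s)) 0 = true := by decide +kernel
theorem p7741 : PrL chk L7741 := leafL c7741

theorem c7742 : lp7 (fun s => chk (ent L7742 s)) 0 = true := by decide +kernel
theorem p7742 : PrL chk L7742 := leafL c7742

theorem c7743 : lp7 (fun s => chk (ent L7743 s)) 0 = true := by decide +kernel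
theorem p7743 : PrL chk L7743 := leafL c7743

theorem c7744 : lp7 (fun s => chk (ent L7744 s)) 0 = true := by decide +kernel
theorem p7744 : PrL chk L7744 := leafL c7744

theorem c7745 : lp7 (fun s => chk (ent L7745 s)) 0 = true := by decide +kernel
theorem p7745 : PrL chk L7745 := leafL c7745

theorem c7746 : lp7 (fun s => chk (ent L7746 s)) 0 = true := by decide +kernel
theorem p7746 : PrL chk L7746 := leafL c7746

theorem c7747 : lp7 (fun s => chk (ent L7747 s)) 0 = true := by decide +kernel
theorem p7747 : PrL chk L7747 := leafL c7747

theorem c7748 : lp7 (fun s => chk (ent L7748 s)) 0 = true := by decide +kernel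
theorem p7748 : PrL chk L7748 := leafL c7748

theorem c7749 : lp7 (fun s => chk (ent L7749 s)) 0 = true := by decide +kernel
theorem p7749 : PrL chk L7749 := leafL c7749

theorem c7750 : lp7 (fun s => chk (ent L7750 s)) 0 = true := by decide +kernel
theorem p7750 : PrL chk L7750 := leafL c7750

theorem c7751 : lp7 (fun s => chk (ent L7751 s)) 0 = true := by decide +kernel
theorem p7751 : PrL chk L7751 := leafL c7751

theorem c7752 : lp7 (fun s => chk (ent L7752 s)) 0 = true := by decide +kernel
theorem p7752 : PrL chk L7752 := leafL c7752

theorem c7753 : lp7 (fun s => chk (ent L7753 s)) 0 = true := by decide +kernel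
theorem p7753 : PrL chk L7753 := leafL c7753

theorem c7754 : lp7 (fun s => chk (ent L7754 s)) 0 = true := by decide +kernel
theorem p7754 : PrL chk L7754 := leafL c7754

theorem c7755 : lp7 (fun s => chk (ent L7755 s)) 0 = true := by decide +kernel
theorem p7755 : PrL chk L7755 := leafL c7755

theorem c7756 : lp7 (fun s => chk (ent L7756 s)) 0 = true := by decide +kernel
theorem p7756 : PrL chk L7756 := leafL c7756

theorem c7757 : lp7 (fun s => chk (ent L7757 s)) 0 = true := by decide +kernel
theorem p7757 : PrL chk L7757 := leafL c7757

theorem c7758 : lp7 (fun s => chk (ent L7758 s)) 0 = true := by decide +kernel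
theorem p7758 : PrL chk L7758 := leafL c7758

theorem c7759 : lp7 (fun s => chk (ent L7759 s)) 0 = true := by decide +kernel
theorem p7759 : PrL chk L7759 := leafL c7759

theorem c7760 : lp7 (fun s => chk (ent L7760 s)) 0 = true := by decide +kernel
theorem p7760 : PrL chk L7760 := leafL c7760

theorem c7761 : lp7 (fun s => chk (ent L7761 s)) 0 = true := by decide +kernel
theorem p7761 : PrL chk L7761 := leafL c7761

theorem c7762 : lp7 (fun s => chk (ent L7762 s)) 0 = true := by decide +kernel
theorem p7762 : PrL chk L7762 := leafL c7762

theorem c7763 : lp7 (fun s => chk (ent L7763 s)) 0 = true := by decide +kernel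
theorem p7763 : PrL chk L7763 := leafL c7763

theorem c7764 : lp7 (fun s => chk (ent L7764 s)) 0 = true := by decide +kernel
theorem p7764 : PrL chk L7764 := leafL c7764

theorem c7765 : lp7 (fun s => chk (ent L7765 s)) 0 = true := by decide +kernel
theorem p7765 : PrL chk L7765 := leafL c7765

theorem c7766 : lp7 (fun s => chk (ent L7766 s)) 0 = true := by decide +kernel
theorem p7766 : PrL chk L7766 := leafL c7766

theorem c7767 : lp7 (fun s => chk (ent L7767 s)) 0 = true := by decide +kernel
theorem p7767 : PrL chk L7767 := leafL c7767

theorem c7768 : lp7 (fun s => chk (ent L7768 s)) 0 = true := by decide +kernel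
theorem p7768 : PrL chk L7768 := leafL c7768

theorem c7769 : lp7 (fun s => chk (ent L7769 s)) 0 = true := by decide +kernel
theorem p7769 : PrL chk L7769 := leafL c7769

theorem c7770 : lp7 (fun s => chk (ent L7770 s)) 0 = true := by decide +kernel
theorem p7770 : PrL chk L7770 := leafL c7770

theorem c7771 : lp7 (fun s => chk (ent L7771 s)) 0 = true := by decide +kernel
theorem p7771 : PrL chk L7771 := leafL c7771

theorem c7772 : lp7 (fun s => chk (ent L7772 s)) 0 = true := by decide +kernel
theorem p7772 : PrL chk L7772 := leafL c7772

theorem c7773 : lp7 (fun s => chk (ent L7773 s)) 0 = true := by decide +kernel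
theorem p7773 : PrL chk L7773 := leafL c7773

theorem c7774 : lp7 (fun s => chk (ent L7774 s)) 0 = true := by decide +kernel
theorem p7774 : PrL chk L7774 := leafL c7774

theorem c7775 : lp7 (fun s => chk (ent L7775 s)) 0 = true := by decide +kernel
theorem p7775 : PrL chk L7775 := leafL c7775

theorem c7776 : lp7 (fun s => chk (ent L7776 s)) 0 = true := by decide +kernel
theorem p7776 : PrL chk L7776 := leafL c7776

theorem c7777 : lp7 (fun s => chk (ent L7777 s)) 0 = true := by decide +kernel
theorem p7777 : PrL chk L7777 := leafL c7777

theorem c7778 : lp7 (fun s => chk (ent L7778 s)) 0 = true := by decide +kernel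
theorem p7778 : PrL chk L7778 := leafL c7778

theorem c7779 : lp7 (fun s => chk (ent L7779 s)) 0 = true := by decide +kernel
theorem p7779 : PrL chk L7779 := leafL c7779

theorem c7780 : lp7 (fun s => chk (ent L7780 s)) 0 = true := by decide +kernel
theorem p7780 : PrL chk L7780 := leafL c7780

theorem c7781 : lp7 (fun s => chk (ent L7781 s)) 0 = true := by decide +kernel
theorem p7781 : PrL chk L7781 := leafL c7781

theorem c7782 : lp7 (fun s => chk (ent L7782 s)) 0 = true := by decide +kernel
theorem p7782 : PrL chk L7782 := leafL c7782

theorem c7783 : lp7 (fun s => chk (ent L7783 s)) 0 = true := by decide +kernel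
theorem p7783 : PrL chk L7783 := leafL c7783

theorem c7784 : lp7 (fun s => chk (ent L7784 s)) 0 = true := by decide +kernel
theorem p7784 : PrL chk L7784 := leafL c7784

theorem c7785 : lp7 (fun s => chk (ent L7785 s)) 0 = true := by decide +kernel
theorem p7785 : PrL chk L7785 := leafL c7785

theorem c7786 : lp7 (fun s => chk (ent L7786 s)) 0 = true := by decide +kernel
theorem p7786 : PrL chk L7786 := leafL c7786

theorem c7787 : lp7 (fun s => chk (ent L7787 s)) 0 = true := by decide +kernel
theorem p7787 : PrL chk L7787 := leafL c7787

theorem c7788 : lp7 (fun s => chk (ent L7788 s)) 0 = true := by decide +kernel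
theorem p7788 : PrL chk L7788 := leafL c7788

theorem c7789 : lp7 (fun s => chk (ent L7789 s)) 0 = true := by decide +kernel
theorem p7789 : PrL chk L7789 := leafL c7789

theorem c7790 : lp7 (fun s => chk (ent L7790 s)) 0 = true := by decide +kernel
theorem p7790 : PrL chk L7790 := leafL c7790

theorem c7791 : lp7 (fun s => chk (ent L7791 s)) 0 = true := by decide +kernel
theorem p7791 : PrL chk L7791 := leafL c7791

theorem c7792 : lp7 (fun s => chk (ent L7792 s)) 0 = true := by decide +kernel
theorem p7792 : PrL chk L7792 := leafL c7792

theorem c7793 : lp7 (fun s => chk (ent L7793 s)) 0 = true := by decide +kernel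
theorem p7793 : PrL chk L7793 := leafL c7793

theorem c7794 : lp7 (fun s => chk (ent L7794 s)) 0 = true := by decide +kernel
theorem p7794 : PrL chk L7794 := leafL c7794

theorem c7795 : lp7 (fun s => chk (ent L7795 s)) 0 = true := by decide +kernel
theorem p7795 : PrL chk L7795 := leafL c7795

theorem c7796 : lp7 (fun s => chk (ent L7796 s)) 0 = true := by decide +kernel
theorem p7796 : PrL chk L7796 := leafL c7796

theorem c7797 : lp7 (fun s => chk (ent L7797 s)) 0 = true := by decide +kernel
theorem p7797 : PrL chk L7797 := leafL c7797

theorem c7798 : lp7 (fun s => chk (ent L7798 s)) 0 = true := by decide +kernel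
theorem p7798 : PrL chk L7798 := leafL c7798

theorem c7799 : lp7 (fun s => chk (ent L7799 s)) 0 = true := by decide +kernel
theorem p7799 : PrL chk L7799 := leafL c7799

theorem c7800 : lp7 (fun s => chk (ent L7800 s)) 0 = true := by decide +kernel
theorem p7800 : PrL chk L7800 := leafL c7800

theorem c7801 : lp7 (fun s => chk (ent L7801 s)) 0 = true := by decide +kernel
theorem p7801 : PrL chk L7801 := leafL c7801

theorem c7802 : lp7 (fun s => chk (ent L7802 s)) 0 = true := by decide +kernel
theorem p7802 : PrL chk L7802 := leafL c7802

theorem c7803 : lp7 (fun s => chk (ent L7803 s)) 0 = true := by decide +kernel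
theorem p7803 : PrL chk L7803 := leafL c7803

theorem c7804 : lp7 (fun s => chk (ent L7804 s)) 0 = true := by decide +kernel
theorem p7804 : PrL chk L7804 := leafL c7804

theorem c7805 : lp7 (fun s => chk (ent L7805 s)) 0 = true := by decide +kernel
theorem p7805 : PrL chk L7805 := leafL c7805

theorem c7806 : lp7 (fun s => chk (ent L7806 s)) 0 = true := by decide +kernel
theorem p7806 : PrL chk L7806 := leafL c7806

theorem c7807 : lp7 (fun s => chk (ent L7807 s)) 0 = true := by decide +kernel
theorem p7807 : PrL chk L7807 := leafL c7807

theorem c7808 : lp7 (fun s => chk (ent L7808 s)) 0 = true := by decide +kernel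
theorem p7808 : PrL chk L7808 := leafL c7808

theorem c7809 : lp7 (fun s => chk (ent L7809 s)) 0 = true := by decide +kernel
theorem p7809 : PrL chk L7809 := leafL c7809

theorem c7810 : lp7 (fun s => chk (ent L7810 s)) 0 = true := by decide +kernel
theorem p7810 : PrL chk L7810 := leafL c7810

theorem c7811 : lp7 (fun s => chk (ent L7811 s)) 0 = true := by decide +kernel
theorem p7811 : PrL chk L7811 := leafL c7811

theorem c7812 : lp7 (fun s => chk (ent L7812 s)) 0 = true := by decide +kernel
theorem p7812 : PrL chk L7812 := leafL c7812

theorem c7813 : lp7 (fun s => chk (ent L7813 s)) 0 = true := by decide +kernel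
theorem p7813 : PrL chk L7813 := leafL c7813

theorem c7814 : lp7 (fun s => chk (ent L7814 s)) 0 = true := by decide +kernel
theorem p7814 : PrL chk L7814 := leafL c7814

theorem c7815 : lp7 (fun s => chk (ent L7815 s)) 0 = true := by decide +kernel
theorem p7815 : PrL chk L7815 := leafL c7815

theorem c7816 : lp7 (fun s => chk (ent L7816 s)) 0 = true := by decide +kernel
theorem p7816 : PrL chk L7816 := leafL c7816

theorem c7817 : lp7 (fun s => chk (ent L7817 s)) 0 = true := by decide +kernel
theorem p7817 : PrL chk L7817 := leafL c7817

theorem c7818 : lp7 (fun s => chk (ent L7818 s)) 0 = true := by decide +kernel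
theorem p7818 : PrL chk L7818 := leafL c7818

theorem c7819 : lp7 (fun s => chk (ent L7819 s)) 0 = true := by decide +kernel
theorem p7819 : PrL chk L7819 := leafL c7819

theorem c7820 : lp7 (fun s => chk (ent L7820 s)) 0 = true := by decide +kernel
theorem p7820 : PrL chk L7820 := leafL c7820

theorem c7821 : lp7 (fun s => chk (ent L7821 s)) 0 = true := by decide +kernel
theorem p7821 : PrL chk L7821 := leafL c7821

theorem c7822 : lp7 (fun s => chk (ent L7822 s)) 0 = true := by decide +kernel
theorem p7822 : PrL chk L7822 := leafL c7822

theorem c7823 : lp7 (fun s => chk (ent L7823 s)) 0 = true := by decide +kernel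
theorem p7823 : PrL chk L7823 := leafL c7823

theorem c7824 : lp7 (fun s => chk (ent L7824 s)) 0 = true := by decide +kernel
theorem p7824 : PrL chk L7824 := leafL c7824

theorem c7825 : lp7 (fun s => chk (ent L7825 s)) 0 = true := by decide +kernel
theorem p7825 : PrL chk L7825 := leafL c7825

theorem c7826 : lp7 (fun s => chk (ent L7826 s)) 0 = true := by decide +kernel
theorem p7826 : PrL chk L7826 := leafL c7826

theorem c7827 : lp7 (fun s => chk (ent L7827 s)) 0 = true := by decide +kernel
theorem p7827 : PrL chk L7827 := leafL c7827

theorem c7828 : lp7 (fun s => chk (ent L7828 s)) 0 = true := by decide +kernel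
theorem p7828 : PrL chk L7828 := leafL c7828

theorem c7829 : lp7 (fun s => chk (ent L7829 s)) 0 = true := by decide +kernel
theorem p7829 : PrL chk L7829 := leafL c7829

theorem c7830 : lp7 (fun s => chk (ent L7830 s)) 0 = true := by decide +kernel
theorem p7830 : PrL chk L7830 := leafL c7830

theorem c7831 : lp7 (fun s => chk (ent L7831 s)) 0 = true := by decide +kernel
theorem p7831 : PrL chk L7831 := leafL c7831

theorem c7832 : lp7 (fun s => chk (ent L7832 s)) 0 = true := by decide +kernel
theorem p7832 : PrL chk L7832 := leafL c7832

theorem c7833 : lp7 (fun s => chk (ent L7833 s)) 0 = true := by decide +kernel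
theorem p7833 : PrL chk L7833 := leafL c7833

theorem c7834 : lp7 (fun s => chk (ent L7834 s)) 0 = true := by decide +kernel
theorem p7834 : PrL chk L7834 := leafL c7834

theorem c7835 : lp7 (fun s => chk (ent L7835 s)) 0 = true := by decide +kernel
theorem p7835 : PrL chk L7835 := leafL c7835

theorem c7836 : lp7 (fun s => chk (ent L7836 s)) 0 = true := by decide +kernel
theorem p7836 : PrL chk L7836 := leafL c7836

theorem c7837 : lp7 (fun s => chk (ent L7837 s)) 0 = true := by decide +kernel
theorem p7837 : PrL chk L7837 := leafL c7837

theorem c7838 : lp7 (fun s => chk (ent L7838 s)) 0 = true := by decide +kernel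
theorem p7838 : PrL chk L7838 := leafL c7838

theorem c7839 : lp7 (fun s => chk (ent L7839 s)) 0 = true := by decide +kernel
theorem p7839 : PrL chk L7839 := leafL c7839

theorem c7840 : lp7 (fun s => chk (ent L7840 s)) 0 = true := by decide +kernel
theorem p7840 : PrL chk L7840 := leafL c7840

theorem c7841 : lp7 (fun s => chk (ent L7841 s)) 0 = true := by decide +kernel
theorem p7841 : PrL chk L7841 := leafL c7841

theorem c7842 : lp7 (fun s => chk (ent L7842 s)) 0 = true := by decide +kernel
theorem p7842 : PrL chk L7842 := leafL c7842

theorem c7843 : lp7 (fun s => chk (ent L7843 s)) 0 = true := by decide +kernel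
theorem p7843 : PrL chk L7843 := leafL c7843

theorem c7844 : lp7 (fun s => chk (ent L7844 s)) 0 = true := by decide +kernel
theorem p7844 : PrL chk L7844 := leafL c7844

theorem c7845 : lp7 (fun s => chk (ent L7845 s)) 0 = true := by decide +kernel
theorem p7845 : PrL chk L7845 := leafL c7845

theorem c7846 : lp7 (fun s => chk (ent L7846 s)) 0 = true := by decide +kernel
theorem p7846 : PrL chk L7846 := leafL c7846

theorem c7847 : lp7 (fun s => chk (ent L7847 s)) 0 = true := by decide +kernel
theorem p7847 : PrL chk L7847 := leafL c7847

theorem c7848 : lp7 (fun s => chk (ent L7848 s)) 0 = true := by decide +kernel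
theorem p7848 : PrL chk L7848 := leafL c7848

theorem c7849 : lp7 (fun s => chk (ent L7849 s)) 0 = true := by decide +kernel
theorem p7849 : PrL chk L7849 := leafL c7849

theorem c7850 : lp7 (fun s => chk (ent L7850 s)) 0 = true := by decide +kernel
theorem p7850 : PrL chk L7850 := leafL c7850

theorem c7851 : lp7 (fun s => chk (ent L7851 s)) 0 = true := by decide +kernel
theorem p7851 : PrL chk L7851 := leafL c7851

theorem c7852 : lp7 (fun s => chk (ent L7852 s)) 0 = true := by decide +kernel
theorem p7852 : PrL chk L7852 := leafL c7852

theorem c7853 : lp7 (fun s => chk (ent L7853 s)) 0 = true := by decide +kernel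
theorem p7853 : PrL chk L7853 := leafL c7853

theorem c7854 : lp7 (fun s => chk (ent L7854 s)) 0 = true := by decide +kernel
theorem p7854 : PrL chk L7854 := leafL c7854

theorem c7855 : lp7 (fun s => chk (ent L7855 s)) 0 = true := by decide +kernel
theorem p7855 : PrL chk L7855 := leafL c7855

theorem c7856 : lp7 (fun s => chk (ent L7856 s)) 0 = true := by decide +kernel
theorem p7856 : PrL chk L7856 := leafL c7856

theorem c7857 : lp7 (fun s => chk (ent L7857 s)) 0 = true := by decide +kernel
theorem p7857 : PrL chk L7857 := leafL c7857

end Pool.Agent.ad013a.LA
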