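import Pool.Agent.H.MP_ad013a_pr.h63l.A.T
import Pool.Agent.H.MP_ad013a_pr.h63w.VLoop

namespace Pool.Agent.ad013a.LA

theorem c1280 : lp7 (fun s => chk (ent L1280 s)) 0 = true := by decide +kernel
theorem p1280 : PrL chk L1280 := leafL c1280

theorem c1281 : lp7 (fun s => chk (ent L1281 s)) 0 = true := by decide +kernel
theorem p1281 : PrL chk L1281 := leafL c1281

theorem c1282 : lp7 (fun s => chk (ent L1282 s)) 0 = true := by decide +kernel
theorem p1282 : PrL chk L1282 := leafL c1282

theorem c1283 : lp7 (fun s => chk (ent L1283 s)) 0 = true := by decide +kernel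
theorem p1283 : PrL chk L1283 := leafL c1283

theorem c1284 : lp7 (fun s => chk (ent L1284 s)) 0 = true := by decide +kernel
theorem p1284 : PrL chk L1284 := leafL c1284

theorem c1285 : lp7 (fun s => chk (ent L1285 s)) 0 = true := by decide +kernel
theorem p1285 : PrL chk L1285 := leafL c1285

theorem c1286 : lp7 (fun s => chk (ent L1286 s)) 0 = true := by decide +kernel
theorem p1286 : PrL chk L1286 := leafL c1286

theorem c1287 : lp7 (fun s => chk (ent L1287 s)) 0 = true := by decide +kernel
theorem p1287 : PrL chk L1287 := leafL c1287

theorem c1288 : lp7 (fun s => chk (ent L1288 s)) 0 = true := by decide +kernel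
theorem p1288 : PrL chk L1288 := leafL c1288

theorem c1289 : lp7 (fun s => chk (ent L1289 s)) 0 = true := by decide +kernel
theorem p1289 : PrL chk L1289 := leafL c1289

theorem c1290 : lp7 (fun s => chk (ent L1290 s)) 0 = true := by decide +kernel
theorem p1290 : PrL chk L1290 := leafL c1290

theorem c1291 : lp7 (fun s => chk (ent L1291 s)) 0 = true := by decide +kernel
theorem p1291 : PrL chk L1291 := leafL c1291

theorem c1292 : lp7 (fun s => chk (ent L1292 s)) 0 = true := by decide +kernel
theorem p1292 : PrL chk L1292 := leafL c1292

theorem c1293 : lp7 (fun s => chk (ent L1293 s)) 0 = true := by decide +kernel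
theorem p1293 : PrL chk L1293 := leafL c1293

theorem c1294 : lp7 (fun s => chk (ent L1294 s)) 0 = true := by decide +kernel
theorem p1294 : PrL chk L1294 := leafL c1294

theorem c1295 : lp7 (fun s => chk (ent L1295 s)) 0 = true := by decide +kernel
theorem p1295 : PrL chk L1295 := leafL c1295

theorem c1296 : lp7 (fun s => chk (ent L1296 s)) 0 = true := by decide +kernel
theorem p1296 : PrL chk L1296 := leafL c1296

theorem c1297 : lp7 (fun s => chk (ent L1297 s)) 0 = true := by decide +kernel
theorem p1297 : PrL chk L1297 := leafL c1297

theorem c1298 : lp7 (fun s => chk (ent L1298 s)) 0 = true := by decide +kernel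
theorem p1298 : PrL chk L1298 := leafL c1298

theorem c1299 : lp7 (fun s => chk (ent L1299 s)) 0 = true := by decide +kernel
theorem p1299 : PrL chk L1299 := leafL c1299

theorem c1300 : lp7 (fun s => chk (ent L1300 s)) 0 = true := by decide +kernel
theorem p1300 : PrL chk L1300 := leafL c1300

theorem c1301 : lp7 (fun s => chk (ent L1301 s)) 0 = true := by decide +kernel
theorem p1301 : PrL chk L1301 := leafL c1301

theorem c1302 : lp7 (fun s => chk (ent L1302 s)) 0 = true := by decide +kernel
theorem p1302 : PrL chk L1302 := leafL c1302

theorem c1303 : lp7 (fun s => chk (ent L1303 s)) 0 = true := by decide +kernel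
theorem p1303 : PrL chk L1303 := leafL c1303

theorem c1304 : lp7 (fun s => chk (ent L1304 s)) 0 = true := by decide +kernel
theorem p1304 : PrL chk L1304 := leafL c1304

theorem c1305 : lp7 (fun s => chk (ent L1305 s)) 0 = true := by decide +kernel
theorem p1305 : PrL chk L1305 := leafL c1305

theorem c1306 : lp7 (fun s => chk (ent L1306 s)) 0 = true := by decide +kernel
theorem p1306 : PrL chk L1306 := leafL c1306

theorem c1307 : lp7 (fun s => chk (ent L1307 s)) 0 = true := by decide +kernel
theorem p1307 : PrL chk L1307 := leafL c1307

theorem c1308 : lp7 (fun s => chk (ent L1308 s)) 0 = true := by decide +kernel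
theorem p1308 : PrL chk L1308 := leafL c1308

theorem c1309 : lp7 (fun s => chk (ent L1309 s)) 0 = true := by decide +kernel
theorem p1309 : PrL chk L1309 := leafL c1309

theorem c1310 : lp7 (fun s => chk (ent L1310 s)) 0 = true := by decide +kernel
theorem p1310 : PrL chk L1310 := leafL c1310

theorem c1311 : lp7 (fun s => chk (ent L1311 s)) 0 = true := by decide +kernel
theorem p1311 : PrL chk L1311 := leafL c1311

theorem c1312 : lp7 (fun s => chk (ent L1312 s)) 0 = true := by decide +kernel
theorem p1312 : PrL chk L1312 := leafL c1312

theorem c1313 : lp7 (fun s => chk (ent L1313 s)) 0 = true := by decide +kernel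
theorem p1313 : PrL chk L1313 := leafL c1313

theorem c1314 : lp7 (fun s => chk (ent L1314 s)) 0 = true := by decide +kernel
theorem p1314 : PrL chk L1314 := leafL c1314

theorem c1315 : lp7 (fun s => chk (ent L1315 s)) 0 = true := by decide +kernel
theorem p1315 : PrL chk L1315 := leafL c1315

theorem c1316 : lp7 (fun s => chk (ent L1316 s)) 0 = true := by decide +kernel
theorem p1316 : PrL chk L1316 := leafL c1316

theorem c1317 : lp7 (fun s => chk (ent L1317 s)) 0 = true := by decide +kernel
theorem p1317 : PrL chk L1317 := leafL c1317

theorem c1318 : lp7 (fun s => chk (ent L1318 s)) 0 = true := by decide +kernel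
theorem p1318 : PrL chk L1318 := leafL c1318

theorem c1319 : lp7 (fun s => chk (ent L1319 s)) 0 = true := by decide +kernel
theorem p1319 : PrL chk L1319 := leafL c1319

theorem c1320 : lp7 (fun s => chk (ent L1320 s)) 0 = true := by decide +kernel
theorem p1320 : PrL chk L1320 := leafL c1320

theorem c1321 : lp7 (fun s => chk (ent L1321 s)) 0 = true := by decide +kernel
theorem p1321 : PrL chk L1321 := leafL c1321

theorem c1322 : lp7 (fun s => chk (ent L1322 s)) 0 = true := by decide +kernel
theorem p1322 : PrL chk L1322 := leafL c1322

theorem c1323 : lp7 (fun s => chk (ent L1323 s)) 0 = true := by decide +kernel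
theorem p1323 : PrL chk L1323 := leafL c1323

theorem c1324 : lp7 (fun s => chk (ent L1324 s)) 0 = true := by decide +kernel
theorem p1324 : PrL chk L1324 := leafL c1324

theorem c1325 : lp7 (fun s => chk (ent L1325 s)) 0 = true := by decide +kernel
theorem p1325 : PrL chk L1325 := leafL c1325

theorem c1326 : lp7 (fun s => chk (ent L1326 s)) 0 = true := by decide +kernel
theorem p1326 : PrL chk L1326 := leafL c1326

theorem c1327 : lp7 (fun s => chk (ent L1327 s)) 0 = true := by decide +kernel
theorem p1327 : PrL chk L1327 := leafL c1327

theorem c1328 : lp7 (fun s => chk (ent L1328 s)) 0 = true := by decide +kernel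
theorem p1328 : PrL chk L1328 := leafL c1328

theorem c1329 : lp7 (fun s => chk (ent L1329 s)) 0 = true := by decide +kernel
theorem p1329 : PrL chk L1329 := leafL c1329

theorem c1330 : lp7 (fun s => chk (ent L1330 s)) 0 = true := by decide +kernel
theorem p1330 : PrL chk L1330 := leafL c1330

theorem c1331 : lp7 (fun s => chk (ent L1331 s)) 0 = true := by decide +kernel
theorem p1331 : PrL chk L1331 := leafL c1331

theorem c1332 : lp7 (fun s => chk (ent L1332 s)) 0 = true := by decide +kernel
theorem p1332 : PrL chk L1332 := leafL c1332

theorem c1333 : lp7 (fun s => chk (ent L1333 s)) 0 = true := by decide +kernel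
theorem p1333 : PrL chk L1333 := leafL c1333

theorem c1334 : lp7 (fun s => chk (ent L1334 s)) 0 = true := by decide +kernel
theorem p1334 : PrL chk L1334 := leafL c1334

theorem c1335 : lp7 (fun s => chk (ent L1335 s)) 0 = true := by decide +kernel
theorem p1335 : PrL chk L1335 := leafL c1335

theorem c1336 : lp7 (fun s => chk (ent L1336 s)) 0 = true := by decide +kernel
theorem p1336 : PrL chk L1336 := leafL c1336

theorem c1337 : lp7 (fun s => chk (ent L1337 s)) 0 = true := by decide +kernel
theorem p1337 : PrL chk L1337 := leafL c1337

theorem c1338 : lp7 (fun s => chk (ent L1338 s)) 0 = true := by decide +kernel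
theorem p1338 : PrL chk L1338 := leafL c1338

theorem c1339 : lp7 (fun s => chk (ent L1339 s)) 0 = true := by decide +kernel
theorem p1339 : PrL chk L1339 := leafL c1339

theorem c1340 : lp7 (fun s => chk (ent L1340 s)) 0 = true := by decide +kernel
theorem p1340 : PrL chk L1340 := leafL c1340

theorem c1341 : lp7 (fun s => chk (ent L1341 s)) 0 = true := by decide +kernel
theorem p1341 : PrL chk L1341 := leafL c1341

theorem c1342 : lp7 (fun s => chk (ent L1342 s)) 0 = true := by decide +kernel
theorem p1342 : PrL chk L1342 := leafL c1342

theorem c1343 : lp7 (fun s => chk (ent L1343 s)) 0 = true := by decide +kernel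
theorem p1343 : PrL chk L1343 := leafL c1343

theorem c1344 : lp7 (fun s => chk (ent L1344 s)) 0 = true := by decide +kernel
theorem p1344 : PrL chk L1344 := leafL c1344

theorem c1345 : lp7 (fun s => chk (ent L1345 s)) 0 = true := by decide +kernel
theorem p1345 : PrL chk L1345 := leafL c1345

theorem c1346 : lp7 (fun s => chk (ent L1346 s)) 0 = true := by decide +kernel
theorem p1346 : PrL chk L1346 := leafL c1346

theorem c1347 : lp7 (fun s => chk (ent L1347 s)) 0 = true := by decide +kernel
theorem p1347 : PrL chk L1347 := leafL c1347

theorem c1348 : lp7 (fun s => chk (ent L1348 s)) 0 = true := by decide +kernel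
theorem p1348 : PrL chk L1348 := leafL c1348

theorem c1349 : lp7 (fun s => chk (ent L1349 s)) 0 = true := by decide +kernel
theorem p1349 : PrL chk L1349 := leafL c1349

theorem c1350 : lp7 (fun s => chk (ent L1350 s)) 0 = true := by decide +kernel
theorem p1350 : PrL chk L1350 := leafL c1350

theorem c1351 : lp7 (fun s => chk (ent L1351 s)) 0 = true := by decide +kernel
theorem p1351 : PrL chk L1351 := leafL c1351

theorem c1352 : lp7 (fun s => chk (ent L1352 s)) 0 = true := by decide +kernel
theorem p1352 : PrL chk L1352 := leafL c1352

theorem c1353 : lp7 (fun s => chk (ent L1353 s)) 0 = true := by decide +kernel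
theorem p1353 : PrL chk L1353 := leafL c1353

theorem c1354 : lp7 (fun s => chk (ent L1354 s)) 0 = true := by decide +kernel
theorem p1354 : PrL chk L1354 := leafL c1354

theorem c1355 : lp7 (fun s => chk (ent L1355 s)) 0 = true := by decide +kernel
theorem p1355 : PrL chk L1355 := leafL c1355

theorem c1356 : lp7 (fun s => chk (ent L1356 s)) 0 = true := by decide +kernel
theorem p1356 : PrL chk L1356 := leafL c1356

theorem c1357 : lp7 (fun s => chk (ent L1357 s)) 0 = true := by decide +kernel
theorem p1357 : PrL chk L1357 := leafL c1357

theorem c1358 : lp7 (fun s => chk (ent L1358 s)) 0 = true := by decide +kernel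
theorem p1358 : PrL chk L1358 := leafL c1358

theorem c1359 : lp7 (fun s => chk (ent L1359 s)) 0 = true := by decide +kernel
theorem p1359 : PrL chk L1359 := leafL c1359

theorem c1360 : lp7 (fun s => chk (ent L1360 s)) 0 = true := by decide +kernel
theorem p1360 : PrL chk L1360 := leafL c1360

theorem c1361 : lp7 (fun s => chk (ent L1361 s)) 0 = true := by decide +kernel
theorem p1361 : PrL chk L1361 := leafL c1361

theorem c1362 : lp7 (fun s => chk (ent L1362 s)) 0 = true := by decide +kernel
theorem p1362 : PrL chk L1362 := leafL c1362

theorem c1363 : lp7 (fun s => chk (ent L1363 s)) 0 = true := by decide +kernel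
theorem p1363 : PrL chk L1363 := leafL c1363

theorem c1364 : lp7 (fun s => chk (ent L1364 s)) 0 = true := by decide +kernel
theorem p1364 : PrL chk L1364 := leafL c1364

theorem c1365 : lp7 (fun s => chk (ent L1365 s)) 0 = true := by decide +kernel
theorem p1365 : PrL chk L1365 := leafL c1365

theorem c1366 : lp7 (fun s => chk (ent L1366 s)) 0 = true := by decide +kernel
theorem p1366 : PrL chk L1366 := leafL c1366

theorem c1367 : lp7 (fun s => chk (ent L1367 s)) 0 = true := by decide +kernel
theorem p1367 : PrL chk L1367 := leafL c1367

theorem c1368 : lp7 (fun s => chk (ent L1368 s)) 0 = true := by decide +kernel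
theorem p1368 : PrL chk L1368 := leafL c1368

theorem c1369 : lp7 (fun s => chk (ent L1369 s)) 0 = true := by decide +kernel
theorem p1369 : PrL chk L1369 := leafL c1369

theorem c1370 : lp7 (fun s => chk (ent L1370 s)) 0 = true := by decide +kernel
theorem p1370 : PrL chk L1370 := leafL c1370

theorem c1371 : lp7 (fun s => chk (ent L1371 s)) 0 = true := by decide +kernel
theorem p1371 : PrL chk L1371 := leafL c1371

theorem c1372 : lp7 (fun s => chk (ent L1372 s)) 0 = true := by decide +kernel
theorem p1372 : PrL chk L1372 := leafL c1372

theorem c1373 : lp7 (fun s => chk (ent L1373 s)) 0 = true := by decide +kernel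
theorem p1373 : PrL chk L1373 := leafL c1373

theorem c1374 : lp7 (fun s => chk (ent L1374 s)) 0 = true := by decide +kernel
theorem p1374 : PrL chk L1374 := leafL c1374

theorem c1375 : lp7 (fun s => chk (ent L1375 s)) 0 = true := by decide +kernel
theorem p1375 : PrL chk L1375 := leafL c1375

theorem c1376 : lp7 (fun s => chk (ent L1376 s)) 0 = true := by decide +kernel
theorem p1376 : PrL chk L1376 := leafL c1376

theorem c1377 : lp7 (fun s => chk (ent L1377 s)) 0 = true := by decide +kernel
theorem p1377 : PrL chk L1377 := leafL c1377

theorem c1378 : lp7 (fun s => chk (ent L1378 s)) 0 = true := by decide +kernel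
theorem p1378 : PrL chk L1378 := leafL c1378

theorem c1379 : lp7 (fun s => chk (ent L1379 s)) 0 = true := by decide +kernel
theorem p1379 : PrL chk L1379 := leafL c1379

theorem c1380 : lp7 (fun s => chk (ent L1380 s)) 0 = true := by decide +kernel
theorem p1380 : PrL chk L1380 := leafL c1380

theorem c1381 : lp7 (fun s => chk (ent L1381 s)) 0 = true := by decide +kernel
theorem p1381 : PrL chk L1381 := leafL c1381

theorem c1382 : lp7 (fun s => chk (ent L1382 s)) 0 = true := by decide +kernel
theorem p1382 : PrL chk L1382 := leafL c1382

theorem c1383 : lp7 (fun s => chk (ent L1383 s)) 0 = true := by decide +kernel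
theorem p1383 : PrL chk L1383 := leafL c1383

theorem c1384 : lp7 (fun s => chk (ent L1384 s)) 0 = true := by decide +kernel
theorem p1384 : PrL chk L1384 := leafL c1384

theorem c1385 : lp7 (fun s => chk (ent L1385 s)) 0 = true := by decide +kernel
theorem p1385 : PrL chk L1385 := leafL c1385

theorem c1386 : lp7 (fun s => chk (ent L1386 s)) 0 = true := by decide +kernel
theorem p1386 : PrL chk L1386 := leafL c1386

theorem c1387 : lp7 (fun s => chk (ent L1387 s)) 0 = true := by decide +kernel
theorem p1387 : PrL chk L1387 := leafL c1387

theorem c1388 : lp7 (fun s => chk (ent L1388 s)) 0 = true := by decide +kernel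
theorem p1388 : PrL chk L1388 := leafL c1388

theorem c1389 : lp7 (fun s => chk (ent L1389 s)) 0 = true := by decide +kernel
theorem p1389 : PrL chk L1389 := leafL c1389

theorem c1390 : lp7 (fun s => chk (ent L1390 s)) 0 = true := by decide +kernel
theorem p1390 : PrL chk L1390 := leafL c1390

theorem c1391 : lp7 (fun s => chk (ent L1391 s)) 0 = true := by decide +kernel
theorem p1391 : PrL chk L1391 := leafL c1391

theorem c1392 : lp7 (fun s => chk (ent L1392 s)) 0 = true := by decide +kernel
theorem p1392 : PrL chk L1392 := leafL c1392

theorem c1393 : lp7 (fun s => chk (ent L1393 s)) 0 = true := by decide +kernel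
theorem p1393 : PrL chk L1393 := leafL c1393

theorem c1394 : lp7 (fun s => chk (ent L1394 s)) 0 = true := by decide +kernel
theorem p1394 : PrL chk L1394 := leafL c1394

theorem c1395 : lp7 (fun s => chk (ent L1395 s)) 0 = true := by decide +kernel
theorem p1395 : PrL chk L1395 := leafL c1395

theorem c1396 : lp7 (fun s => chk (ent L1396 s)) 0 = true := by decide +kernel
theorem p1396 : PrL chk L1396 := leafL c1396

theorem c1397 : lp7 (fun s => chk (ent L1397 s)) 0 = true := by decide +kernel
theorem p1397 : PrL chk L1397 := leafL c1397

theorem c1398 : lp7 (fun s => chk (ent L1398 s)) 0 = true := by decide +kernel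
theorem p1398 : PrL chk L1398 := leafL c1398

theorem c1399 : lp7 (fun s => chk (ent L1399 s)) 0 = true := by decide +kernel
theorem p1399 : PrL chk L1399 := leafL c1399

theorem c1400 : lp7 (fun s => chk (ent L1400 s)) 0 = true := by decide +kernel
theorem p1400 : PrL chk L1400 := leafL c1400

theorem c1401 : lp7 (fun s => chk (ent L1401 s)) 0 = true := by decide +kernel
theorem p1401 : PrL chk L1401 := leafL c1401

theorem c1402 : lp7 (fun s => chk (ent L1402 s)) 0 = true := by decide +kernel
theorem p1402 : PrL chk L1402 := leafL c1402

theorem c1403 : lp7 (fun s => chk (ent L1403 s)) 0 = true := by decide +kernel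
theorem p1403 : PrL chk L1403 := leafL c1403

theorem c1404 : lp7 (fun s => chk (ent L1404 s)) 0 = true := by decide +kernel
theorem p1404 : PrL chk L1404 := leafL c1404

theorem c1405 : lp7 (fun s => chk (ent L1405 s)) 0 = true := by decide +kernel
theorem p1405 : PrL chk L1405 := leafL c1405

theorem c1406 : lp7 (fun s => chk (ent L1406 s)) 0 = true := by decide +kernel
theorem p1406 : PrL chk L1406 := leafL c1406

theorem c1407 : lp7 (fun s => chk (ent L1407 s)) 0 = true := by decide +kernel
theorem p1407 : PrL chk L1407 := leafL c1407

theorem c1408 : lp7 (fun s => chk (ent L1408 s)) 0 = true := by decide +kernel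
theorem p1408 : PrL chk L1408 := leafL c1408

theorem c1409 : lp7 (fun s => chk (ent L1409 s)) 0 = true := by decide +kernel
theorem p1409 : PrL chk L1409 := leafL c1409

theorem c1410 : lp7 (fun s => chk (ent L1410 s)) 0 = true := by decide +kernel
theorem p1410 : PrL chk L1410 := leafL c1410

theorem c1411 : lp7 (fun s => chk (ent L1411 s)) 0 = true := by decide +kernel
theorem p1411 : PrL chk L1411 := leafL c1411

theorem c1412 : lp7 (fun s => chk (ent L1412 s)) 0 = true := by decide +kernel
theorem p1412 : PrL chk L1412 := leafL c1412

theorem c1413 : lp7 (fun s => chk (ent L1413 s)) 0 = true := by decide +kernel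
theorem p1413 : PrL chk L1413 := leafL c1413

theorem c1414 : lp7 (fun s => chk (ent L1414 s)) 0 = true := by decide +kernel
theorem p1414 : PrL chk L1414 := leafL c1414

theorem c1415 : lp7 (fun s => chk (ent L1415 s)) 0 = true := by decide +kernel
theorem p1415 : PrL chk L1415 := leafL c1415

theorem c1416 : lp7 (fun s => chk (ent L1416 s)) 0 = true := by decide +kernel
theorem p1416 : PrL chk L1416 := leafL c1416

theorem c1417 : lp7 (fun s => chk (ent L1417 s)) 0 = true := by decide +kernel
theorem p1417 : PrL chk L1417 := leafL c1417

theorem c1418 : lp7 (fun s => chk (ent L1418 s)) 0 = true := by decide +kernel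
theorem p1418 : PrL chk L1418 := leafL c1418

theorem c1419 : lp7 (fun s => chk (ent L1419 s)) 0 = true := by decide +kernel
theorem p1419 : PrL chk L1419 := leafL c1419

theorem c1420 : lp7 (fun s => chk (ent L1420 s)) 0 = true := by decide +kernel
theorem p1420 : PrL chk L1420 := leafL c1420

theorem c1421 : lp7 (fun s => chk (ent L1421 s)) 0 = true := by decide +kernel
theorem p1421 : PrL chk L1421 := leafL c1421

theorem c1422 : lp7 (fun s => chk (ent L1422 s)) 0 = true := by decide +kernel
theorem p1422 : PrL chk L1422 := leafL c1422

theorem c1423 : lp7 (fun s => chk (ent L1423 s)) 0 = true := by decide +kernel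
theorem p1423 : PrL chk L1423 := leafL c1423

theorem c1424 : lp7 (fun s => chk (ent L1424 s)) 0 = true := by decide +kernel
theorem p1424 : PrL chk L1424 := leafL c1424

theorem c1425 : lp7 (fun s => chk (ent L1425 s)) 0 = true := by decide +kernel
theorem p1425 : PrL chk L1425 := leafL c1425

theorem c1426 : lp7 (fun s => chk (ent L1426 s)) 0 = true := by decide +kernel
theorem p1426 : PrL chk L1426 := leafL c1426

theorem c1427 : lp7 (fun s => chk (ent L1427 s)) 0 = true := by decide +kernel
theorem p1427 : PrL chk L1427 := leafL c1427

theorem c1428 : lp7 (fun s => chk (ent L1428 s)) 0 = true := by decide +kernel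
theorem p1428 : PrL chk L1428 := leafL c1428

theorem c1429 : lp7 (fun s => chk (ent L1429 s)) 0 = true := by decide +kernel
theorem p1429 : PrL chk L1429 := leafL c1429

theorem c1430 : lp7 (fun s => chk (ent L1430 s)) 0 = true := by decide +kernel
theorem p1430 : PrL chk L1430 := leafL c1430

theorem c1431 : lp7 (fun s => chk (ent L1431 s)) 0 = true := by decide +kernel
theorem p1431 : PrL chk L1431 := leafL c1431

theorem c1432 : lp7 (fun s => chk (ent L1432 s)) 0 = true := by decide +kernel
theorem p1432 : PrL chk L1432 := leafL c1432

theorem c1433 : lp7 (fun s => chk (ent L1433 s)) 0 = true := by decide +kernel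
theorem p1433 : PrL chk L1433 := leafL c1433

theorem c1434 : lp7 (fun s => chk (ent L1434 s)) 0 = true := by decide +kernel
theorem p1434 : PrL chk L1434 := leafL c1434

theorem c1435 : lp7 (fun s => chk (ent L1435 s)) 0 = true := by decide +kernel
theorem p1435 : PrL chk L1435 := leafL c1435

theorem c1436 : lp7 (fun s => chk (ent L1436 s)) 0 = true := by decide +kernel
theorem p1436 : PrL chk L1436 := leafL c1436

theorem c1437 : lp7 (fun s => chk (ent L1437 s)) 0 = true := by decide +kernel
theorem p1437 : PrL chk L1437 := leafL c1437

theorem c1438 : lp7 (fun s => chk (ent L1438 s)) 0 = true := by decide +kernel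
theorem p1438 : PrL chk L1438 := leafL c1438

theorem c1439 : lp7 (fun s => chk (ent L1439 s)) 0 = true := by decide +kernel
theorem p1439 : PrL chk L1439 := leafL c1439

theorem c1440 : lp7 (fun s => chk (ent L1440 s)) 0 = true := by decide +kernel
theorem p1440 : PrL chk L1440 := leafL c1440

theorem c1441 : lp7 (fun s => chk (ent L1441 s)) 0 = true := by decide +kernel
theorem p1441 : PrL chk L1441 := leafL c1441

theorem c1442 : lp7 (fun s => chk (ent L1442 s)) 0 = true := by decide +kernel
theorem p1442 : PrL chk L1442 := leafL c1442

theorem c1443 : lp7 (fun s => chk (ent L1443 s)) 0 = true := by decide +kernel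
theorem p1443 : PrL chk L1443 := leafL c1443

theorem c1444 : lp7 (fun s => chk (ent L1444 s)) 0 = true := by decide +kernel
theorem p1444 : PrL chk L1444 := leafL c1444

theorem c1445 : lp7 (fun s => chk (ent L1445 s)) 0 = true := by decide +kernel
theorem p1445 : PrL chk L1445 := leafL c1445

theorem c1446 : lp7 (fun s => chk (ent L1446 s)) 0 = true := by decide +kernel
theorem p1446 : PrL chk L1446 := leafL c1446

theorem c1447 : lp7 (fun s => chk (ent L1447 s)) 0 = true := by decide +kernel
theorem p1447 : PrL chk L1447 := leafL c1447

theorem c1448 : lp7 (fun s => chk (ent L1448 s)) 0 = true := by decide +kernel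
theorem p1448 : PrL chk L1448 := leafL c1448

theorem c1449 : lp7 (fun s => chk (ent L1449 s)) 0 = true := by decide +kernel
theorem p1449 : PrL chk L1449 := leafL c1449

theorem c1450 : lp7 (fun s => chk (ent L1450 s)) 0 = true := by decide +kernel
theorem p1450 : PrL chk L1450 := leafL c1450

theorem c1451 : lp7 (fun s => chk (ent L1451 s)) 0 = true := by decide +kernel
theorem p1451 : PrL chk L1451 := leafL c1451

theorem c1452 : lp7 (fun s => chk (ent L1452 s)) 0 = true := by decide +kernel
theorem p1452 : PrL chk L1452 := leafL c1452

theorem c1453 : lp7 (fun s => chk (ent L1453 s)) 0 = true := by decide +kernel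
theorem p1453 : PrL chk L1453 := leafL c1453

theorem c1454 : lp7 (fun s => chk (ent L1454 s)) 0 = true := by decide +kernel
theorem p1454 : PrL chk L1454 := leafL c1454

theorem c1455 : lp7 (fun s => chk (ent L1455 s)) 0 = true := by decide +kernel
theorem p1455 : PrL chk L1455 := leafL c1455

theorem c1456 : lp7 (fun s => chk (ent L1456 s)) 0 = true := by decide +kernel
theorem p1456 : PrL chk L1456 := leafL c1456

theorem c1457 : lp7 (fun s => chk (ent L1457 s)) 0 = true := by decide +kernel
theorem p1457 : PrL chk L1457 := leafL c1457

theorem c1458 : lp7 (fun s => chk (ent L1458 s)) 0 = true := by decide +kernel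
theorem p1458 : PrL chk L1458 := leafL c1458

theorem c1459 : lp7 (fun s => chk (ent L1459 s)) 0 = true := by decide +kernel
theorem p1459 : PrL chk L1459 := leafL c1459

theorem c1460 : lp7 (fun s => chk (ent L1460 s)) 0 = true := by decide +kernel
theorem p1460 : PrL chk L1460 := leafL c1460

theorem c1461 : lp7 (fun s => chk (ent L1461 s)) 0 = true := by decide +kernel
theorem p1461 : PrL chk L1461 := leafL c1461

theorem c1462 : lp7 (fun s => chk (ent L1462 s)) 0 = true := by decide +kernel
theorem p1462 : PrL chk L1462 := leafL c1462

theorem c1463 : lp7 (fun s => chk (ent L1463 s)) 0 = true := by decide +kernel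
theorem p1463 : PrL chk L1463 := leafL c1463

theorem c1464 : lp7 (fun s => chk (ent L1464 s)) 0 = true := by decide +kernel
theorem p1464 : PrL chk L1464 := leafL c1464

theorem c1465 : lp7 (fun s => chk (ent L1465 s)) 0 = true := by decide +kernel
theorem p1465 : PrL chk L1465 := leafL c1465

theorem c1466 : lp7 (fun s => chk (ent L1466 s)) 0 = true := by decide +kernel
theorem p1466 : PrL chk L1466 := leafL c1466

theorem c1467 : lp7 (fun s => chk (ent L1467 s)) 0 = true := by decide +kernel
theorem p1467 : PrL chk L1467 := leafL c1467

theorem c1468 : lp7 (fun s => chk (ent L1468 s)) 0 = true := by decide +kernel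
theorem p1468 : PrL chk L1468 := leafL c1468

theorem c1469 : lp7 (fun s => chk (ent L1469 s)) 0 = true := by decide +kernel
theorem p1469 : PrL chk L1469 := leafL c1469

theorem c1470 : lp7 (fun s => chk (ent L1470 s)) 0 = true := by decide +kernel
theorem p1470 : PrL chk L1470 := leafL c1470

theorem c1471 : lp7 (fun s => chk (ent L1471 s)) 0 = true := by decide +kernel
theorem p1471 : PrL chk L1471 := leafL c1471

theorem c1472 : lp7 (fun s => chk (ent L1472 s)) 0 = true := by decide +kernel
theorem p1472 : PrL chk L1472 := leafL c1472

theorem c1473 : lp7 (fun s => chk (ent L1473 s)) 0 = true := by decide +kernel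
theorem p1473 : PrL chk L1473 := leafL c1473

theorem c1474 : lp7 (fun s => chk (ent L1474 s)) 0 = true := by decide +kernel
theorem p1474 : PrL chk L1474 := leafL c1474

theorem c1475 : lp7 (fun s => chk (ent L1475 s)) 0 = true := by decide +kernel
theorem p1475 : PrL chk L1475 := leafL c1475

theorem c1476 : lp7 (fun s => chk (ent L1476 s)) 0 = true := by decide +kernel
theorem p1476 : PrL chk L1476 := leafL c1476

theorem c1477 : lp7 (fun s => chk (ent L1477 s)) 0 = true := by decide +kernel
theorem p1477 : PrL chk L1477 := leafL c1477

theorem c1478 : lp7 (fun s => chk (ent L1478 s)) 0 = true := by decide +kernel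
theorem p1478 : PrL chk L1478 := leafL c1478

theorem c1479 : lp7 (fun s => chk (ent L1479 s)) 0 = true := by decide +kernel
theorem p1479 : PrL chk L1479 := leafL c1479

theorem c1480 : lp7 (fun s => chk (ent L1480 s)) 0 = true := by decide +kernel
theorem p1480 : PrL chk L1480 := leafL c1480

theorem c1481 : lp7 (fun s => chk (ent L1481 s)) 0 = true := by decide +kernel
theorem p1481 : PrL chk L1481 := leafL c1481

theorem c1482 : lp7 (fun s => chk (ent L1482 s)) 0 = true := by decide +kernel
theorem p1482 : PrL chk L1482 := leafL c1482

theorem c1483 : lp7 (fun s => chk (ent L1483 s)) 0 = true := by decide +kernel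
theorem p1483 : PrL chk L1483 := leafL c1483

theorem c1484 : lp7 (fun s => chk (ent L1484 s)) 0 = true := by decide +kernel
theorem p1484 : PrL chk L1484 := leafL c1484

theorem c1485 : lp7 (fun s => chk (ent L1485 s)) 0 = true := by decide +kernel
theorem p1485 : PrL chk L1485 := leafL c1485

theorem c1486 : lp7 (fun s => chk (ent L1486 s)) 0 = true := by decide +kernel
theorem p1486 : PrL chk L1486 := leafL c1486

theorem c1487 : lp7 (fun s => chk (ent L1487 s)) 0 = true := by decide +kernel
theorem p1487 : PrL chk L1487 := leafL c1487

theorem c1488 : lp7 (fun s => chk (ent L1488 s)) 0 = true := by decide +kernel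
theorem p1488 : PrL chk L1488 := leafL c1488

theorem c1489 : lp7 (fun s => chk (ent L1489 s)) 0 = true := by decide +kernel
theorem p1489 : PrL chk L1489 := leafL c1489

theorem c1490 : lp7 (fun s => chk (ent L1490 s)) 0 = true := by decide +kernel
theorem p1490 : PrL chk L1490 := leafL c1490

theorem c1491 : lp7 (fun s => chk (ent L1491 s)) 0 = true := by decide +kernel
theorem p1491 : PrL chk L1491 := leafL c1491

theorem c1492 : lp7 (fun s => chk (ent L1492 s)) 0 = true := by decide +kernel
theorem p1492 : PrL chk L1492 := leafL c1492

theorem c1493 : lp7 (fun s => chk (ent L1493 s)) 0 = true := by decide +kernel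
theorem p1493 : PrL chk L1493 := leafL c1493

theorem c1494 : lp7 (fun s => chk (ent L1494 s)) 0 = true := by decide +kernel
theorem p1494 : PrL chk L1494 := leafL c1494

theorem c1495 : lp7 (fun s => chk (ent L1495 s)) 0 = true := by decide +kernel
theorem p1495 : PrL chk L1495 := leafL c1495

theorem c1496 : lp7 (fun s => chk (ent L1496 s)) 0 = true := by decide +kernel
theorem p1496 : PrL chk L1496 := leafL c1496

theorem c1497 : lp7 (fun s => chk (ent L1497 s)) 0 = true := by decide +kernel
theorem p1497 : PrL chk L1497 := leafL c1497

theorem c1498 : lp7 (fun s => chk (ent L1498 s)) 0 = true := by decide +kernel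
theorem p1498 : PrL chk L1498 := leafL c1498

theorem c1499 : lp7 (fun s => chk (ent L1499 s)) 0 = true := by decide +kernel
theorem p1499 : PrL chk L1499 := leafL c1499

theorem c1500 : lp7 (fun s => chk (ent L1500 s)) 0 = true := by decide +kernel
theorem p1500 : PrL chk L1500 := leafL c1500

theorem c1501 : lp7 (fun s => chk (ent L1501 s)) 0 = true := by decide +kernel
theorem p1501 : PrL chk L1501 := leafL c1501

theorem c1502 : lp7 (fun s => chk (ent L1502 s)) 0 = true := by decide +kernel
theorem p1502 : PrL chk L1502 := leafL c1502

theorem c1503 : lp7 (fun s => chk (ent L1503 s)) 0 = true := by decide +kernel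
theorem p1503 : PrL chk L1503 := leafL c1503

theorem c1504 : lp7 (fun s => chk (ent L1504 s)) 0 = true := by decide +kernel
theorem p1504 : PrL chk L1504 := leafL c1504

theorem c1505 : lp7 (fun s => chk (ent L1505 s)) 0 = true := by decide +kernel
theorem p1505 : PrL chk L1505 := leafL c1505

theorem c1506 : lp7 (fun s => chk (ent L1506 s)) 0 = true := by decide +kernel
theorem p1506 : PrL chk L1506 := leafL c1506

theorem c1507 : lp7 (fun s => chk (ent L1507 s)) 0 = true := by decide +kernel
theorem p1507 : PrL chk L1507 := leafL c1507

theorem c1508 : lp7 (fun s => chk (ent L1508 s)) 0 = true := by decide +kernel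
theorem p1508 : PrL chk L1508 := leafL c1508

theorem c1509 : lp7 (fun s => chk (ent L1509 s)) 0 = true := by decide +kernel
theorem p1509 : PrL chk L1509 := leafL c1509

theorem c1510 : lp7 (fun s => chk (ent L1510 s)) 0 = true := by decide +kernel
theorem p1510 : PrL chk L1510 := leafL c1510

theorem c1511 : lp7 (fun s => chk (ent L1511 s)) 0 = true := by decide +kernel
theorem p1511 : PrL chk L1511 := leafL c1511

theorem c1512 : lp7 (fun s => chk (ent L1512 s)) 0 = true := by decide +kernel
theorem p1512 : PrL chk L1512 := leafL c1512

theorem c1513 : lp7 (fun s => chk (ent L1513 s)) 0 = true := by decide +kernel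
theorem p1513 : PrL chk L1513 := leafL c1513

theorem c1514 : lp7 (fun s => chk (ent L1514 s)) 0 = true := by decide +kernel
theorem p1514 : PrL chk L1514 := leafL c1514

theorem c1515 : lp7 (fun s => chk (ent L1515 s)) 0 = true := by decide +kernel
theorem p1515 : PrL chk L1515 := leafL c1515

theorem c1516 : lp7 (fun s => chk (ent L1516 s)) 0 = true := by decide +kernel
theorem p1516 : PrL chk L1516 := leafL c1516

theorem c1517 : lp7 (fun s => chk (ent L1517 s)) 0 = true := by decide +kernel
theorem p1517 : PrL chk L1517 := leafL c1517

theorem c1518 : lp7 (fun s => chk (ent L1518 s)) 0 = true := by decide +kernel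
theorem p1518 : PrL chk L1518 := leafL c1518

theorem c1519 : lp7 (fun s => chk (ent L1519 s)) 0 = true := by decide +kernel
theorem p1519 : PrL chk L1519 := leafL c1519

theorem c1520 : lp7 (fun s => chk (ent L1520 s)) 0 = true := by decide +kernel
theorem p1520 : PrL chk L1520 := leafL c1520

theorem c1521 : lp7 (fun s => chk (ent L1521 s)) 0 = true := by decide +kernel
theorem p1521 : PrL chk L1521 := leafL c1521

theorem c1522 : lp7 (fun s => chk (ent L1522 s)) 0 = true := by decide +kernel
theorem p1522 : PrL chk L1522 := leafL c1522

theorem c1523 : lp7 (fun s => chk (ent L1523 s)) 0 = true := by decide +kernel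
theorem p1523 : PrL chk L1523 := leafL c1523

theorem c1524 : lp7 (fun s => chk (ent L1524 s)) 0 = true := by decide +kernel
theorem p1524 : PrL chk L1524 := leafL c1524

theorem c1525 : lp7 (fun s => chk (ent L1525 s)) 0 = true := by decide +kernel
theorem p1525 : PrL chk L1525 := leafL c1525

theorem c1526 : lp7 (fun s => chk (ent L1526 s)) 0 = true := by decide +kernel
theorem p1526 : PrL chk L1526 := leafL c1526

theorem c1527 : lp7 (fun s => chk (ent L1527 s)) 0 = true := by decide +kernel
theorem p1527 : PrL chk L1527 := leafL c1527

theorem c1528 : lp7 (fun s => chk (ent L1528 s)) 0 = true := by decide +kernel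
theorem p1528 : PrL chk L1528 := leafL c1528

theorem c1529 : lp7 (fun s => chk (ent L1529 s)) 0 = true := by decide +kernel
theorem p1529 : PrL chk L1529 := leafL c1529

theorem c1530 : lp7 (fun s => chk (ent L1530 s)) 0 = true := by decide +kernel
theorem p1530 : PrL chk L1530 := leafL c1530

theorem c1531 : lp7 (fun s => chk (ent L1531 s)) 0 = true := by decide +kernel
theorem p1531 : PrL chk L1531 := leafL c1531

theorem c1532 : lp7 (fun s => chk (ent L1532 s)) 0 = true := by decide +kernel
theorem p1532 : PrL chk L1532 := leafL c1532

theorem c1533 : lp7 (fun s => chk (ent L1533 s)) 0 = true := by decide +kernel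
theorem p1533 : PrL chk L1533 := leafL c1533

theorem c1534 : lp7 (fun s => chk (ent L1534 s)) 0 = true := by decide +kernel
theorem p1534 : PrL chk L1534 := leafL c1534

theorem c1535 : lp7 (fun s => chk (ent L1535 s)) 0 = true := by decide +kernel
theorem p1535 : PrL chk L1535 := leafL c1535

end Pool.Agent.ad013a.LA
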