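import Pool.Agent.H.MP_ad013a_pr.h63l.A.T
import Pool.Agent.H.MP_ad013a_pr.h63w.VLoop

namespace Pool.Agent.ad013a.LA

theorem c1536 : lp7 (fun s => chk (ent L1536 s)) 0 = true := by decide +kernel
theorem p1536 : PrL chk L1536 := leafL c1536

theorem c1537 : lp7 (fun s => chk (ent L1537 s)) 0 = true := by decide +kernel
theorem p1537 : PrL chk L1537 := leafL c1537

theorem c1538 : lp7 (fun s => chk (ent L1538 s)) 0 = true := by decide +kernel
theorem p1538 : PrL chk L1538 := leafL c1538

theorem c1539 : lp7 (fun s => chk (ent L1539 s)) 0 = true := by decide +kernel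
theorem p1539 : PrL chk L1539 := leafL c1539

theorem c1540 : lp7 (fun s => chk (ent L1540 s)) 0 = true := by decide +kernel
theorem p1540 : PrL chk L1540 := leafL c1540

theorem c1541 : lp7 (fun s => chk (ent L1541 s)) 0 = true := by decide +kernel
theorem p1541 : PrL chk L1541 := leafL c1541

theorem c1542 : lp7 (fun s => chk (ent L1542 s)) 0 = true := by decide +kernel
theorem p1542 : PrL chk L1542 := leafL c1542

theorem c1543 : lp7 (fun s => chk (ent L1543 s)) 0 = true := by decide +kernel
theorem p1543 : PrL chk L1543 := leafL c1543

theorem c1544 : lp7 (fun s => chk (ent L1544 s)) 0 = true := by decide +kernel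
theorem p1544 : PrL chk L1544 := leafL c1544

theorem c1545 : lp7 (fun s => chk (ent L1545 s)) 0 = true := by decide +kernel
theorem p1545 : PrL chk L1545 := leafL c1545

theorem c1546 : lp7 (fun s => chk (ent L1546 s)) 0 = true := by decide +kernel
theorem p1546 : PrL chk L1546 := leafL c1546

theorem c1547 : lp7 (fun s => chk (ent L1547 s)) 0 = true := by decide +kernel
theorem p1547 : PrL chk L1547 := leafL c1547

theorem c1548 : lp7 (fun s => chk (ent L1548 s)) 0 = true := by decide +kernel
theorem p1548 : PrL chk L1548 := leafL c1548

theorem c1549 : lp7 (fun s => chk (ent L1549 s)) 0 = true := by decide +kernel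
theorem p1549 : PrL chk L1549 := leafL c1549

theorem c1550 : lp7 (fun s => chk (ent L1550 s)) 0 = true := by decide +kernel
theorem p1550 : PrL chk L1550 := leafL c1550

theorem c1551 : lp7 (fun s => chk (ent L1551 s)) 0 = true := by decide +kernel
theorem p1551 : PrL chk L1551 := leafL c1551

theorem c1552 : lp7 (fun s => chk (ent L1552 s)) 0 = true := by decide +kernel
theorem p1552 : PrL chk L1552 := leafL c1552

theorem c1553 : lp7 (fun s => chk (ent L1553 s)) 0 = true := by decide +kernel
theorem p1553 : PrL chk L1553 := leafL c1553

theorem c1554 : lp7 (fun s => chk (ent L1554 s)) 0 = true := by decide +kernel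
theorem p1554 : PrL chk L1554 := leafL c1554

theorem c1555 : lp7 (fun s => chk (ent L1555 s)) 0 = true := by decide +kernel
theorem p1555 : PrL chk L1555 := leafL c1555

theorem c1556 : lp7 (fun s => chk (ent L1556 s)) 0 = true := by decide +kernel
theorem p1556 : PrL chk L1556 := leafL c1556

theorem c1557 : lp7 (fun s => chk (ent L1557 s)) 0 = true := by decide +kernel
theorem p1557 : PrL chk L1557 := leafL c1557

theorem c1558 : lp7 (fun s => chk (ent L1558 s)) 0 = true := by decide +kernel
theorem p1558 : PrL chk L1558 := leafL c1558

theorem c1559 : lp7 (fun s => chk (ent L1559 s)) 0 = true := by decide +kernel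
theorem p1559 : PrL chk L1559 := leafL c1559

theorem c1560 : lp7 (fun s => chk (ent L1560 s)) 0 = true := by decide +kernel
theorem p1560 : PrL chk L1560 := leafL c1560

theorem c1561 : lp7 (fun s => chk (ent L1561 s)) 0 = true := by decide +kernel
theorem p1561 : PrL chk L1561 := leafL c1561

theorem c1562 : lp7 (fun s => chk (ent L1562 s)) 0 = true := by decide +kernel
theorem p1562 : PrL chk L1562 := leafL c1562

theorem c1563 : lp7 (fun s => chk (ent L1563 s)) 0 = true := by decide +kernel
theorem p1563 : PrL chk L1563 := leafL c1563

theorem c1564 : lp7 (fun s => chk (ent L1564 s)) 0 = true := by decide +kernel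
theorem p1564 : PrL chk L1564 := leafL c1564

theorem c1565 : lp7 (fun s => chk (ent L1565 s)) 0 = true := by decide +kernel
theorem p1565 : PrL chk L1565 := leafL c1565

theorem c1566 : lp7 (fun s => chk (ent L1566 s)) 0 = true := by decide +kernel
theorem p1566 : PrL chk L1566 := leafL c1566

theorem c1567 : lp7 (fun s => chk (ent L1567 s)) 0 = true := by decide +kernel
theorem p1567 : PrL chk L1567 := leafL c1567

theorem c1568 : lp7 (fun s => chk (ent L1568 s)) 0 = true := by decide +kernel
theorem p1568 : PrL chk L1568 := leafL c1568

theorem c1569 : lp7 (fun s => chk (ent L1569 s)) 0 = true := by decide +kernel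
theorem p1569 : PrL chk L1569 := leafL c1569

theorem c1570 : lp7 (fun s => chk (ent L1570 s)) 0 = true := by decide +kernel
theorem p1570 : PrL chk L1570 := leafL c1570

theorem c1571 : lp7 (fun s => chk (ent L1571 s)) 0 = true := by decide +kernel
theorem p1571 : PrL chk L1571 := leafL c1571

theorem c1572 : lp7 (fun s => chk (ent L1572 s)) 0 = true := by decide +kernel
theorem p1572 : PrL chk L1572 := leafL c1572

theorem c1573 : lp7 (fun s => chk (ent L1573 s)) 0 = true := by decide +kernel
theorem p1573 : PrL chk L1573 := leafL c1573

theorem c1574 : lp7 (fun s => chk (ent L1574 s)) 0 = true := by decide +kernel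
theorem p1574 : PrL chk L1574 := leafL c1574

theorem c1575 : lp7 (fun s => chk (ent L1575 s)) 0 = true := by decide +kernel
theorem p1575 : PrL chk L1575 := leafL c1575

theorem c1576 : lp7 (fun s => chk (ent L1576 s)) 0 = true := by decide +kernel
theorem p1576 : PrL chk L1576 := leafL c1576

theorem c1577 : lp7 (fun s => chk (ent L1577 s)) 0 = true := by decide +kernel
theorem p1577 : PrL chk L1577 := leafL c1577

theorem c1578 : lp7 (fun s => chk (ent L1578 s)) 0 = true := by decide +kernel
theorem p1578 : PrL chk L1578 := leafL c1578

theorem c1579 : lp7 (fun s => chk (ent L1579 s)) 0 = true := by decide +kernel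
theorem p1579 : PrL chk L1579 := leafL c1579

theorem c1580 : lp7 (fun s => chk (ent L1580 s)) 0 = true := by decide +kernel
theorem p1580 : PrL chk L1580 := leafL c1580

theorem c1581 : lp7 (fun s => chk (ent L1581 s)) 0 = true := by decide +kernel
theorem p1581 : PrL chk L1581 := leafL c1581

theorem c1582 : lp7 (fun s => chk (ent L1582 s)) 0 = true := by decide +kernel
theorem p1582 : PrL chk L1582 := leafL c1582

theorem c1583 : lp7 (fun s => chk (ent L1583 s)) 0 = true := by decide +kernel
theorem p1583 : PrL chk L1583 := leafL c1583

theorem c1584 : lp7 (fun s => chk (ent L1584 s)) 0 = true := by decide +kernel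
theorem p1584 : PrL chk L1584 := leafL c1584

theorem c1585 : lp7 (fun s => chk (ent L1585 s)) 0 = true := by decide +kernel
theorem p1585 : PrL chk L1585 := leafL c1585

theorem c1586 : lp7 (fun s => chk (ent L1586 s)) 0 = true := by decide +kernel
theorem p1586 : PrL chk L1586 := leafL c1586

theorem c1587 : lp7 (fun s => chk (ent L1587 s)) 0 = true := by decide +kernel
theorem p1587 : PrL chk L1587 := leafL c1587

theorem c1588 : lp7 (fun s => chk (ent L1588 s)) 0 = true := by decide +kernel
theorem p1588 : PrL chk L1588 := leafL c1588

theorem c1589 : lp7 (fun s => chk (ent L1589 s)) 0 = true := by decide +kernel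
theorem p1589 : PrL chk L1589 := leafL c1589

theorem c1590 : lp7 (fun s => chk (ent L1590 s)) 0 = true := by decide +kernel
theorem p1590 : PrL chk L1590 := leafL c1590

theorem c1591 : lp7 (fun s => chk (ent L1591 s)) 0 = true := by decide +kernel
theorem p1591 : PrL chk L1591 := leafL c1591

theorem c1592 : lp7 (fun s => chk (ent L1592 s)) 0 = true := by decide +kernel
theorem p1592 : PrL chk L1592 := leafL c1592

theorem c1593 : lp7 (fun s => chk (ent L1593 s)) 0 = true := by decide +kernel
theorem p1593 : PrL chk L1593 := leafL c1593

theorem c1594 : lp7 (fun s => chk (ent L1594 s)) 0 = true := by decide +kernel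
theorem p1594 : PrL chk L1594 := leafL c1594

theorem c1595 : lp7 (fun s => chk (ent L1595 s)) 0 = true := by decide +kernel
theorem p1595 : PrL chk L1595 := leafL c1595

theorem c1596 : lp7 (fun s => chk (ent L1596 s)) 0 = true := by decide +kernel
theorem p1596 : PrL chk L1596 := leafL c1596

theorem c1597 : lp7 (fun s => chk (ent L1597 s)) 0 = true := by decide +kernel
theorem p1597 : PrL chk L1597 := leafL c1597

theorem c1598 : lp7 (fun s => chk (ent L1598 s)) 0 = true := by decide +kernel
theorem p1598 : PrL chk L1598 := leafL c1598

theorem c1599 : lp7 (fun s => chk (ent L1599 s)) 0 = true := by decide +kernel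
theorem p1599 : PrL chk L1599 := leafL c1599

theorem c1600 : lp7 (fun s => chk (ent L1600 s)) 0 = true := by decide +kernel
theorem p1600 : PrL chk L1600 := leafL c1600

theorem c1601 : lp7 (fun s => chk (ent L1601 s)) 0 = true := by decide +kernel
theorem p1601 : PrL chk L1601 := leafL c1601

theorem c1602 : lp7 (fun s => chk (ent L1602 s)) 0 = true := by decide +kernel
theorem p1602 : PrL chk L1602 := leafL c1602

theorem c1603 : lp7 (fun s => chk (ent L1603 s)) 0 = true := by decide +kernel
theorem p1603 : PrL chk L1603 := leafL c1603

theorem c1604 : lp7 (fun s => chk (ent L1604 s)) 0 = true := by decide +kernel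
theorem p1604 : PrL chk L1604 := leafL c1604

theorem c1605 : lp7 (fun s => chk (ent L1605 s)) 0 = true := by decide +kernel
theorem p1605 : PrL chk L1605 := leafL c1605

theorem c1606 : lp7 (fun s => chk (ent L1606 s)) 0 = true := by decide +kernel
theorem p1606 : PrL chk L1606 := leafL c1606

theorem c1607 : lp7 (fun s => chk (ent L1607 s)) 0 = true := by decide +kernel
theorem p1607 : PrL chk L1607 := leafL c1607

theorem c1608 : lp7 (fun s => chk (ent L1608 s)) 0 = true := by decide +kernel
theorem p1608 : PrL chk L1608 := leafL c1608

theorem c1609 : lp7 (fun s => chk (ent L1609 s)) 0 = true := by decide +kernel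
theorem p1609 : PrL chk L1609 := leafL c1609

theorem c1610 : lp7 (fun s => chk (ent L1610 s)) 0 = true := by decide +kernel
theorem p1610 : PrL chk L1610 := leafL c1610

theorem c1611 : lp7 (fun s => chk (ent L1611 s)) 0 = true := by decide +kernel
theorem p1611 : PrL chk L1611 := leafL c1611

theorem c1612 : lp7 (fun s => chk (ent L1612 s)) 0 = true := by decide +kernel
theorem p1612 : PrL chk L1612 := leafL c1612

theorem c1613 : lp7 (fun s => chk (ent L1613 s)) 0 = true := by decide +kernel
theorem p1613 : PrL chk L1613 := leafL c1613

theorem c1614 : lp7 (fun s => chk (ent L1614 s)) 0 = true := by decide +kernel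
theorem p1614 : PrL chk L1614 := leafL c1614

theorem c1615 : lp7 (fun s => chk (ent L1615 s)) 0 = true := by decide +kernel
theorem p1615 : PrL chk L1615 := leafL c1615

theorem c1616 : lp7 (fun s => chk (ent L1616 s)) 0 = true := by decide +kernel
theorem p1616 : PrL chk L1616 := leafL c1616

theorem c1617 : lp7 (fun s => chk (ent L1617 s)) 0 = true := by decide +kernel
theorem p1617 : PrL chk L1617 := leafL c1617

theorem c1618 : lp7 (fun s => chk (ent L1618 s)) 0 = true := by decide +kernel
theorem p1618 : PrL chk L1618 := leafL c1618

theorem c1619 : lp7 (fun s => chk (ent L1619 s)) 0 = true := by decide +kernel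
theorem p1619 : PrL chk L1619 := leafL c1619

theorem c1620 : lp7 (fun s => chk (ent L1620 s)) 0 = true := by decide +kernel
theorem p1620 : PrL chk L1620 := leafL c1620

theorem c1621 : lp7 (fun s => chk (ent L1621 s)) 0 = true := by decide +kernel
theorem p1621 : PrL chk L1621 := leafL c1621

theorem c1622 : lp7 (fun s => chk (ent L1622 s)) 0 = true := by decide +kernel
theorem p1622 : PrL chk L1622 := leafL c1622

theorem c1623 : lp7 (fun s => chk (ent L1623 s)) 0 = true := by decide +kernel
theorem p1623 : PrL chk L1623 := leafL c1623

theorem c1624 : lp7 (fun s => chk (ent L1624 s)) 0 = true := by decide +kernel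
theorem p1624 : PrL chk L1624 := leafL c1624

theorem c1625 : lp7 (fun s => chk (ent L1625 s)) 0 = true := by decide +kernel
theorem p1625 : PrL chk L1625 := leafL c1625

theorem c1626 : lp7 (fun s => chk (ent L1626 s)) 0 = true := by decide +kernel
theorem p1626 : PrL chk L1626 := leafL c1626

theorem c1627 : lp7 (fun s => chk (ent L1627 s)) 0 = true := by decide +kernel
theorem p1627 : PrL chk L1627 := leafL c1627

theorem c1628 : lp7 (fun s => chk (ent L1628 s)) 0 = true := by decide +kernel
theorem p1628 : PrL chk L1628 := leafL c1628

theorem c1629 : lp7 (fun s => chk (ent L1629 s)) 0 = true := by decide +kernel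
theorem p1629 : PrL chk L1629 := leafL c1629

theorem c1630 : lp7 (fun s => chk (ent L1630 s)) 0 = true := by decide +kernel
theorem p1630 : PrL chk L1630 := leafL c1630

theorem c1631 : lp7 (fun s => chk (ent L1631 s)) 0 = true := by decide +kernel
theorem p1631 : PrL chk L1631 := leafL c1631

theorem c1632 : lp7 (fun s => chk (ent L1632 s)) 0 = true := by decide +kernel
theorem p1632 : PrL chk L1632 := leafL c1632

theorem c1633 : lp7 (fun s => chk (ent L1633 s)) 0 = true := by decide +kernel
theorem p1633 : PrL chk L1633 := leafL c1633

theorem c1634 : lp7 (fun s => chk (ent L1634 s)) 0 = true := by decide +kernel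
theorem p1634 : PrL chk L1634 := leafL c1634

theorem c1635 : lp7 (fun s => chk (ent L1635 s)) 0 = true := by decide +kernel
theorem p1635 : PrL chk L1635 := leafL c1635

theorem c1636 : lp7 (fun s => chk (ent L1636 s)) 0 = true := by decide +kernel
theorem p1636 : PrL chk L1636 := leafL c1636

theorem c1637 : lp7 (fun s => chk (ent L1637 s)) 0 = true := by decide +kernel
theorem p1637 : PrL chk L1637 := leafL c1637

theorem c1638 : lp7 (fun s => chk (ent L1638 s)) 0 = true := by decide +kernel
theorem p1638 : PrL chk L1638 := leafL c1638

theorem c1639 : lp7 (fun s => chk (ent L1639 s)) 0 = true := by decide +kernel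
theorem p1639 : PrL chk L1639 := leafL c1639

theorem c1640 : lp7 (fun s => chk (ent L1640 s)) 0 = true := by decide +kernel
theorem p1640 : PrL chk L1640 := leafL c1640

theorem c1641 : lp7 (fun s => chk (ent L1641 s)) 0 = true := by decide +kernel
theorem p1641 : PrL chk L1641 := leafL c1641

theorem c1642 : lp7 (fun s => chk (ent L1642 s)) 0 = true := by decide +kernel
theorem p1642 : PrL chk L1642 := leafL c1642

theorem c1643 : lp7 (fun s => chk (ent L1643 s)) 0 = true := by decide +kernel
theorem p1643 : PrL chk L1643 := leafL c1643

theorem c1644 : lp7 (fun s => chk (ent L1644 s)) 0 = true := by decide +kernel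
theorem p1644 : PrL chk L1644 := leafL c1644

theorem c1645 : lp7 (fun s => chk (ent L1645 s)) 0 = true := by decide +kernel
theorem p1645 : PrL chk L1645 := leafL c1645

theorem c1646 : lp7 (fun s => chk (ent L1646 s)) 0 = true := by decide +kernel
theorem p1646 : PrL chk L1646 := leafL c1646

theorem c1647 : lp7 (fun s => chk (ent L1647 s)) 0 = true := by decide +kernel
theorem p1647 : PrL chk L1647 := leafL c1647

theorem c1648 : lp7 (fun s => chk (ent L1648 s)) 0 = true := by decide +kernel
theorem p1648 : PrL chk L1648 := leafL c1648

theorem c1649 : lp7 (fun s => chk (ent L1649 s)) 0 = true := by decide +kernel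
theorem p1649 : PrL chk L1649 := leafL c1649

theorem c1650 : lp7 (fun s => chk (ent L1650 s)) 0 = true := by decide +kernel
theorem p1650 : PrL chk L1650 := leafL c1650

theorem c1651 : lp7 (fun s => chk (ent L1651 s)) 0 = true := by decide +kernel
theorem p1651 : PrL chk L1651 := leafL c1651

theorem c1652 : lp7 (fun s => chk (ent L1652 s)) 0 = true := by decide +kernel
theorem p1652 : PrL chk L1652 := leafL c1652

theorem c1653 : lp7 (fun s => chk (ent L1653 s)) 0 = true := by decide +kernel
theorem p1653 : PrL chk L1653 := leafL c1653

theorem c1654 : lp7 (fun s => chk (ent L1654 s)) 0 = true := by decide +kernel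
theorem p1654 : PrL chk L1654 := leafL c1654

theorem c1655 : lp7 (fun s => chk (ent L1655 s)) 0 = true := by decide +kernel
theorem p1655 : PrL chk L1655 := leafL c1655

theorem c1656 : lp7 (fun s => chk (ent L1656 s)) 0 = true := by decide +kernel
theorem p1656 : PrL chk L1656 := leafL c1656

theorem c1657 : lp7 (fun s => chk (ent L1657 s)) 0 = true := by decide +kernel
theorem p1657 : PrL chk L1657 := leafL c1657

theorem c1658 : lp7 (fun s => chk (ent L1658 s)) 0 = true := by decide +kernel
theorem p1658 : PrL chk L1658 := leafL c1658

theorem c1659 : lp7 (fun s => chk (ent L1659 s)) 0 = true := by decide +kernel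
theorem p1659 : PrL chk L1659 := leafL c1659

theorem c1660 : lp7 (fun s => chk (ent L1660 s)) 0 = true := by decide +kernel
theorem p1660 : PrL chk L1660 := leafL c1660

theorem c1661 : lp7 (fun s => chk (ent L1661 s)) 0 = true := by decide +kernel
theorem p1661 : PrL chk L1661 := leafL c1661

theorem c1662 : lp7 (fun s => chk (ent L1662 s)) 0 = true := by decide +kernel
theorem p1662 : PrL chk L1662 := leafL c1662

theorem c1663 : lp7 (fun s => chk (ent L1663 s)) 0 = true := by decide +kernel
theorem p1663 : PrL chk L1663 := leafL c1663

theorem c1664 : lp7 (fun s => chk (ent L1664 s)) 0 = true := by decide +kernel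
theorem p1664 : PrL chk L1664 := leafL c1664

theorem c1665 : lp7 (fun s => chk (ent L1665 s)) 0 = true := by decide +kernel
theorem p1665 : PrL chk L1665 := leafL c1665

theorem c1666 : lp7 (fun s => chk (ent L1666 s)) 0 = true := by decide +kernel
theorem p1666 : PrL chk L1666 := leafL c1666

theorem c1667 : lp7 (fun s => chk (ent L1667 s)) 0 = true := by decide +kernel
theorem p1667 : PrL chk L1667 := leafL c1667

theorem c1668 : lp7 (fun s => chk (ent L1668 s)) 0 = true := by decide +kernel
theorem p1668 : PrL chk L1668 := leafL c1668

theorem c1669 : lp7 (fun s => chk (ent L1669 s)) 0 = true := by decide +kernel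
theorem p1669 : PrL chk L1669 := leafL c1669

theorem c1670 : lp7 (fun s => chk (ent L1670 s)) 0 = true := by decide +kernel
theorem p1670 : PrL chk L1670 := leafL c1670

theorem c1671 : lp7 (fun s => chk (ent L1671 s)) 0 = true := by decide +kernel
theorem p1671 : PrL chk L1671 := leafL c1671

theorem c1672 : lp7 (fun s => chk (ent L1672 s)) 0 = true := by decide +kernel
theorem p1672 : PrL chk L1672 := leafL c1672

theorem c1673 : lp7 (fun s => chk (ent L1673 s)) 0 = true := by decide +kernel
theorem p1673 : PrL chk L1673 := leafL c1673

theorem c1674 : lp7 (fun s => chk (ent L1674 s)) 0 = true := by decide +kernel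
theorem p1674 : PrL chk L1674 := leafL c1674

theorem c1675 : lp7 (fun s => chk (ent L1675 s)) 0 = true := by decide +kernel
theorem p1675 : PrL chk L1675 := leafL c1675

theorem c1676 : lp7 (fun s => chk (ent L1676 s)) 0 = true := by decide +kernel
theorem p1676 : PrL chk L1676 := leafL c1676

theorem c1677 : lp7 (fun s => chk (ent L1677 s)) 0 = true := by decide +kernel
theorem p1677 : PrL chk L1677 := leafL c1677

theorem c1678 : lp7 (fun s => chk (ent L1678 s)) 0 = true := by decide +kernel
theorem p1678 : PrL chk L1678 := leafL c1678

theorem c1679 : lp7 (fun s => chk (ent L1679 s)) 0 = true := by decide +kernel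
theorem p1679 : PrL chk L1679 := leafL c1679

theorem c1680 : lp7 (fun s => chk (ent L1680 s)) 0 = true := by decide +kernel
theorem p1680 : PrL chk L1680 := leafL c1680

theorem c1681 : lp7 (fun s => chk (ent L1681 s)) 0 = true := by decide +kernel
theorem p1681 : PrL chk L1681 := leafL c1681

theorem c1682 : lp7 (fun s => chk (ent L1682 s)) 0 = true := by decide +kernel
theorem p1682 : PrL chk L1682 := leafL c1682

theorem c1683 : lp7 (fun s => chk (ent L1683 s)) 0 = true := by decide +kernel
theorem p1683 : PrL chk L1683 := leafL c1683

theorem c1684 : lp7 (fun s => chk (ent L1684 s)) 0 = true := by decide +kernel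
theorem p1684 : PrL chk L1684 := leafL c1684

theorem c1685 : lp7 (fun s => chk (ent L1685 s)) 0 = true := by decide +kernel
theorem p1685 : PrL chk L1685 := leafL c1685

theorem c1686 : lp7 (fun s => chk (ent L1686 s)) 0 = true := by decide +kernel
theorem p1686 : PrL chk L1686 := leafL c1686

theorem c1687 : lp7 (fun s => chk (ent L1687 s)) 0 = true := by decide +kernel
theorem p1687 : PrL chk L1687 := leafL c1687

theorem c1688 : lp7 (fun s => chk (ent L1688 s)) 0 = true := by decide +kernel
theorem p1688 : PrL chk L1688 := leafL c1688

theorem c1689 : lp7 (fun s => chk (ent L1689 s)) 0 = true := by decide +kernel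
theorem p1689 : PrL chk L1689 := leafL c1689

theorem c1690 : lp7 (fun s => chk (ent L1690 s)) 0 = true := by decide +kernel
theorem p1690 : PrL chk L1690 := leafL c1690

theorem c1691 : lp7 (fun s => chk (ent L1691 s)) 0 = true := by decide +kernel
theorem p1691 : PrL chk L1691 := leafL c1691

theorem c1692 : lp7 (fun s => chk (ent L1692 s)) 0 = true := by decide +kernel
theorem p1692 : PrL chk L1692 := leafL c1692

theorem c1693 : lp7 (fun s => chk (ent L1693 s)) 0 = true := by decide +kernel
theorem p1693 : PrL chk L1693 := leafL c1693

theorem c1694 : lp7 (fun s => chk (ent L1694 s)) 0 = true := by decide +kernel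
theorem p1694 : PrL chk L1694 := leafL c1694

theorem c1695 : lp7 (fun s => chk (ent L1695 s)) 0 = true := by decide +kernel
theorem p1695 : PrL chk L1695 := leafL c1695

theorem c1696 : lp7 (fun s => chk (ent L1696 s)) 0 = true := by decide +kernel
theorem p1696 : PrL chk L1696 := leafL c1696

theorem c1697 : lp7 (fun s => chk (ent L1697 s)) 0 = true := by decide +kernel
theorem p1697 : PrL chk L1697 := leafL c1697

theorem c1698 : lp7 (fun s => chk (ent L1698 s)) 0 = true := by decide +kernel
theorem p1698 : PrL chk L1698 := leafL c1698

theorem c1699 : lp7 (fun s => chk (ent L1699 s)) 0 = true := by decide +kernel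
theorem p1699 : PrL chk L1699 := leafL c1699

theorem c1700 : lp7 (fun s => chk (ent L1700 s)) 0 = true := by decide +kernel
theorem p1700 : PrL chk L1700 := leafL c1700

theorem c1701 : lp7 (fun s => chk (ent L1701 s)) 0 = true := by decide +kernel
theorem p1701 : PrL chk L1701 := leafL c1701

theorem c1702 : lp7 (fun s => chk (ent L1702 s)) 0 = true := by decide +kernel
theorem p1702 : PrL chk L1702 := leafL c1702

theorem c1703 : lp7 (fun s => chk (ent L1703 s)) 0 = true := by decide +kernel
theorem p1703 : PrL chk L1703 := leafL c1703

theorem c1704 : lp7 (fun s => chk (ent L1704 s)) 0 = true := by decide +kernel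
theorem p1704 : PrL chk L1704 := leafL c1704

theorem c1705 : lp7 (fun s => chk (ent L1705 s)) 0 = true := by decide +kernel
theorem p1705 : PrL chk L1705 := leafL c1705

theorem c1706 : lp7 (fun s => chk (ent L1706 s)) 0 = true := by decide +kernel
theorem p1706 : PrL chk L1706 := leafL c1706

theorem c1707 : lp7 (fun s => chk (ent L1707 s)) 0 = true := by decide +kernel
theorem p1707 : PrL chk L1707 := leafL c1707

theorem c1708 : lp7 (fun s => chk (ent L1708 s)) 0 = true := by decide +kernel
theorem p1708 : PrL chk L1708 := leafL c1708

theorem c1709 : lp7 (fun s => chk (ent L1709 s)) 0 = true := by decide +kernel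
theorem p1709 : PrL chk L1709 := leafL c1709

theorem c1710 : lp7 (fun s => chk (ent L1710 s)) 0 = true := by decide +kernel
theorem p1710 : PrL chk L1710 := leafL c1710

theorem c1711 : lp7 (fun s => chk (ent L1711 s)) 0 = true := by decide +kernel
theorem p1711 : PrL chk L1711 := leafL c1711

theorem c1712 : lp7 (fun s => chk (ent L1712 s)) 0 = true := by decide +kernel
theorem p1712 : PrL chk L1712 := leafL c1712

theorem c1713 : lp7 (fun s => chk (ent L1713 s)) 0 = true := by decide +kernel
theorem p1713 : PrL chk L1713 := leafL c1713

theorem c1714 : lp7 (fun s => chk (ent L1714 s)) 0 = true := by decide +kernel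
theorem p1714 : PrL chk L1714 := leafL c1714

theorem c1715 : lp7 (fun s => chk (ent L1715 s)) 0 = true := by decide +kernel
theorem p1715 : PrL chk L1715 := leafL c1715

theorem c1716 : lp7 (fun s => chk (ent L1716 s)) 0 = true := by decide +kernel
theorem p1716 : PrL chk L1716 := leafL c1716

theorem c1717 : lp7 (fun s => chk (ent L1717 s)) 0 = true := by decide +kernel
theorem p1717 : PrL chk L1717 := leafL c1717

theorem c1718 : lp7 (fun s => chk (ent L1718 s)) 0 = true := by decide +kernel
theorem p1718 : PrL chk L1718 := leafL c1718

theorem c1719 : lp7 (fun s => chk (ent L1719 s)) 0 = true := by decide +kernel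
theorem p1719 : PrL chk L1719 := leafL c1719

theorem c1720 : lp7 (fun s => chk (ent L1720 s)) 0 = true := by decide +kernel
theorem p1720 : PrL chk L1720 := leafL c1720

theorem c1721 : lp7 (fun s => chk (ent L1721 s)) 0 = true := by decide +kernel
theorem p1721 : PrL chk L1721 := leafL c1721

theorem c1722 : lp7 (fun s => chk (ent L1722 s)) 0 = true := by decide +kernel
theorem p1722 : PrL chk L1722 := leafL c1722

theorem c1723 : lp7 (fun s => chk (ent L1723 s)) 0 = true := by decide +kernel
theorem p1723 : PrL chk L1723 := leafL c1723

theorem c1724 : lp7 (fun s => chk (ent L1724 s)) 0 = true := by decide +kernel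
theorem p1724 : PrL chk L1724 := leafL c1724

theorem c1725 : lp7 (fun s => chk (ent L1725 s)) 0 = true := by decide +kernel
theorem p1725 : PrL chk L1725 := leafL c1725

theorem c1726 : lp7 (fun s => chk (ent L1726 s)) 0 = true := by decide +kernel
theorem p1726 : PrL chk L1726 := leafL c1726

theorem c1727 : lp7 (fun s => chk (ent L1727 s)) 0 = true := by decide +kernel
theorem p1727 : PrL chk L1727 := leafL c1727

theorem c1728 : lp7 (fun s => chk (ent L1728 s)) 0 = true := by decide +kernel
theorem p1728 : PrL chk L1728 := leafL c1728

theorem c1729 : lp7 (fun s => chk (ent L1729 s)) 0 = true := by decide +kernel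
theorem p1729 : PrL chk L1729 := leafL c1729

theorem c1730 : lp7 (fun s => chk (ent L1730 s)) 0 = true := by decide +kernel
theorem p1730 : PrL chk L1730 := leafL c1730

theorem c1731 : lp7 (fun s => chk (ent L1731 s)) 0 = true := by decide +kernel
theorem p1731 : PrL chk L1731 := leafL c1731

theorem c1732 : lp7 (fun s => chk (ent L1732 s)) 0 = true := by decide +kernel
theorem p1732 : PrL chk L1732 := leafL c1732

theorem c1733 : lp7 (fun s => chk (ent L1733 s)) 0 = true := by decide +kernel
theorem p1733 : PrL chk L1733 := leafL c1733

theorem c1734 : lp7 (fun s => chk (ent L1734 s)) 0 = true := by decide +kernel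
theorem p1734 : PrL chk L1734 := leafL c1734

theorem c1735 : lp7 (fun s => chk (ent L1735 s)) 0 = true := by decide +kernel
theorem p1735 : PrL chk L1735 := leafL c1735

theorem c1736 : lp7 (fun s => chk (ent L1736 s)) 0 = true := by decide +kernel
theorem p1736 : PrL chk L1736 := leafL c1736

theorem c1737 : lp7 (fun s => chk (ent L1737 s)) 0 = true := by decide +kernel
theorem p1737 : PrL chk L1737 := leafL c1737

theorem c1738 : lp7 (fun s => chk (ent L1738 s)) 0 = true := by decide +kernel
theorem p1738 : PrL chk L1738 := leafL c1738

theorem c1739 : lp7 (fun s => chk (ent L1739 s)) 0 = true := by decide +kernel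
theorem p1739 : PrL chk L1739 := leafL c1739

theorem c1740 : lp7 (fun s => chk (ent L1740 s)) 0 = true := by decide +kernel
theorem p1740 : PrL chk L1740 := leafL c1740

theorem c1741 : lp7 (fun s => chk (ent L1741 s)) 0 = true := by decide +kernel
theorem p1741 : PrL chk L1741 := leafL c1741

theorem c1742 : lp7 (fun s => chk (ent L1742 s)) 0 = true := by decide +kernel
theorem p1742 : PrL chk L1742 := leafL c1742

theorem c1743 : lp7 (fun s => chk (ent L1743 s)) 0 = true := by decide +kernel
theorem p1743 : PrL chk L1743 := leafL c1743

theorem c1744 : lp7 (fun s => chk (ent L1744 s)) 0 = true := by decide +kernel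
theorem p1744 : PrL chk L1744 := leafL c1744

theorem c1745 : lp7 (fun s => chk (ent L1745 s)) 0 = true := by decide +kernel
theorem p1745 : PrL chk L1745 := leafL c1745

theorem c1746 : lp7 (fun s => chk (ent L1746 s)) 0 = true := by decide +kernel
theorem p1746 : PrL chk L1746 := leafL c1746

theorem c1747 : lp7 (fun s => chk (ent L1747 s)) 0 = true := by decide +kernel
theorem p1747 : PrL chk L1747 := leafL c1747

theorem c1748 : lp7 (fun s => chk (ent L1748 s)) 0 = true := by decide +kernel
theorem p1748 : PrL chk L1748 := leafL c1748

theorem c1749 : lp7 (fun s => chk (ent L1749 s)) 0 = true := by decide +kernel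
theorem p1749 : PrL chk L1749 := leafL c1749

theorem c1750 : lp7 (fun s => chk (ent L1750 s)) 0 = true := by decide +kernel
theorem p1750 : PrL chk L1750 := leafL c1750

theorem c1751 : lp7 (fun s => chk (ent L1751 s)) 0 = true := by decide +kernel
theorem p1751 : PrL chk L1751 := leafL c1751

theorem c1752 : lp7 (fun s => chk (ent L1752 s)) 0 = true := by decide +kernel
theorem p1752 : PrL chk L1752 := leafL c1752

theorem c1753 : lp7 (fun s => chk (ent L1753 s)) 0 = true := by decide +kernel
theorem p1753 : PrL chk L1753 := leafL c1753

theorem c1754 : lp7 (fun s => chk (ent L1754 s)) 0 = true := by decide +kernel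
theorem p1754 : PrL chk L1754 := leafL c1754

theorem c1755 : lp7 (fun s => chk (ent L1755 s)) 0 = true := by decide +kernel
theorem p1755 : PrL chk L1755 := leafL c1755

theorem c1756 : lp7 (fun s => chk (ent L1756 s)) 0 = true := by decide +kernel
theorem p1756 : PrL chk L1756 := leafL c1756

theorem c1757 : lp7 (fun s => chk (ent L1757 s)) 0 = true := by decide +kernel
theorem p1757 : PrL chk L1757 := leafL c1757

theorem c1758 : lp7 (fun s => chk (ent L1758 s)) 0 = true := by decide +kernel
theorem p1758 : PrL chk L1758 := leafL c1758

theorem c1759 : lp7 (fun s => chk (ent L1759 s)) 0 = true := by decide +kernel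
theorem p1759 : PrL chk L1759 := leafL c1759

theorem c1760 : lp7 (fun s => chk (ent L1760 s)) 0 = true := by decide +kernel
theorem p1760 : PrL chk L1760 := leafL c1760

theorem c1761 : lp7 (fun s => chk (ent L1761 s)) 0 = true := by decide +kernel
theorem p1761 : PrL chk L1761 := leafL c1761

theorem c1762 : lp7 (fun s => chk (ent L1762 s)) 0 = true := by decide +kernel
theorem p1762 : PrL chk L1762 := leafL c1762

theorem c1763 : lp7 (fun s => chk (ent L1763 s)) 0 = true := by decide +kernel
theorem p1763 : PrL chk L1763 := leafL c1763

theorem c1764 : lp7 (fun s => chk (ent L1764 s)) 0 = true := by decide +kernel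
theorem p1764 : PrL chk L1764 := leafL c1764

theorem c1765 : lp7 (fun s => chk (ent L1765 s)) 0 = true := by decide +kernel
theorem p1765 : PrL chk L1765 := leafL c1765

theorem c1766 : lp7 (fun s => chk (ent L1766 s)) 0 = true := by decide +kernel
theorem p1766 : PrL chk L1766 := leafL c1766

theorem c1767 : lp7 (fun s => chk (ent L1767 s)) 0 = true := by decide +kernel
theorem p1767 : PrL chk L1767 := leafL c1767

theorem c1768 : lp7 (fun s => chk (ent L1768 s)) 0 = true := by decide +kernel
theorem p1768 : PrL chk L1768 := leafL c1768

theorem c1769 : lp7 (fun s => chk (ent L1769 s)) 0 = true := by decide +kernel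
theorem p1769 : PrL chk L1769 := leafL c1769

theorem c1770 : lp7 (fun s => chk (ent L1770 s)) 0 = true := by decide +kernel
theorem p1770 : PrL chk L1770 := leafL c1770

theorem c1771 : lp7 (fun s => chk (ent L1771 s)) 0 = true := by decide +kernel
theorem p1771 : PrL chk L1771 := leafL c1771

theorem c1772 : lp7 (fun s => chk (ent L1772 s)) 0 = true := by decide +kernel
theorem p1772 : PrL chk L1772 := leafL c1772

theorem c1773 : lp7 (fun s => chk (ent L1773 s)) 0 = true := by decide +kernel
theorem p1773 : PrL chk L1773 := leafL c1773

theorem c1774 : lp7 (fun s => chk (ent L1774 s)) 0 = true := by decide +kernel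
theorem p1774 : PrL chk L1774 := leafL c1774

theorem c1775 : lp7 (fun s => chk (ent L1775 s)) 0 = true := by decide +kernel
theorem p1775 : PrL chk L1775 := leafL c1775

theorem c1776 : lp7 (fun s => chk (ent L1776 s)) 0 = true := by decide +kernel
theorem p1776 : PrL chk L1776 := leafL c1776

theorem c1777 : lp7 (fun s => chk (ent L1777 s)) 0 = true := by decide +kernel
theorem p1777 : PrL chk L1777 := leafL c1777

theorem c1778 : lp7 (fun s => chk (ent L1778 s)) 0 = true := by decide +kernel
theorem p1778 : PrL chk L1778 := leafL c1778

theorem c1779 : lp7 (fun s => chk (ent L1779 s)) 0 = true := by decide +kernel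
theorem p1779 : PrL chk L1779 := leafL c1779

theorem c1780 : lp7 (fun s => chk (ent L1780 s)) 0 = true := by decide +kernel
theorem p1780 : PrL chk L1780 := leafL c1780

theorem c1781 : lp7 (fun s => chk (ent L1781 s)) 0 = true := by decide +kernel
theorem p1781 : PrL chk L1781 := leafL c1781

theorem c1782 : lp7 (fun s => chk (ent L1782 s)) 0 = true := by decide +kernel
theorem p1782 : PrL chk L1782 := leafL c1782

theorem c1783 : lp7 (fun s => chk (ent L1783 s)) 0 = true := by decide +kernel
theorem p1783 : PrL chk L1783 := leafL c1783

theorem c1784 : lp7 (fun s => chk (ent L1784 s)) 0 = true := by decide +kernel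
theorem p1784 : PrL chk L1784 := leafL c1784

theorem c1785 : lp7 (fun s => chk (ent L1785 s)) 0 = true := by decide +kernel
theorem p1785 : PrL chk L1785 := leafL c1785

theorem c1786 : lp7 (fun s => chk (ent L1786 s)) 0 = true := by decide +kernel
theorem p1786 : PrL chk L1786 := leafL c1786

theorem c1787 : lp7 (fun s => chk (ent L1787 s)) 0 = true := by decide +kernel
theorem p1787 : PrL chk L1787 := leafL c1787

theorem c1788 : lp7 (fun s => chk (ent L1788 s)) 0 = true := by decide +kernel
theorem p1788 : PrL chk L1788 := leafL c1788

theorem c1789 : lp7 (fun s => chk (ent L1789 s)) 0 = true := by decide +kernel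
theorem p1789 : PrL chk L1789 := leafL c1789

theorem c1790 : lp7 (fun s => chk (ent L1790 s)) 0 = true := by decide +kernel
theorem p1790 : PrL chk L1790 := leafL c1790

theorem c1791 : lp7 (fun s => chk (ent L1791 s)) 0 = true := by decide +kernel
theorem p1791 : PrL chk L1791 := leafL c1791

end Pool.Agent.ad013a.LA
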