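import Pool.Agent.H.MP_ad013a_pr.h63l.A.T
import Pool.Agent.H.MP_ad013a_pr.h63w.VLoop

namespace Pool.Agent.ad013a.LA

theorem c1792 : lp7 (fun s => chk (ent L1792 s)) 0 = true := by decide +kernel
theorem p1792 : PrL chk L1792 := leafL c1792

theorem c1793 : lp7 (fun s => chk (ent L1793 s)) 0 = true := by decide +kernel
theorem p1793 : PrL chk L1793 := leafL c1793

theorem c1794 : lp7 (fun s => chk (ent L1794 s)) 0 = true := by decide +kernel
theorem p1794 : PrL chk L1794 := leafL c1794

theorem c1795 : lp7 (fun s => chk (ent L1795 s)) 0 = true := by decide +kernel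
theorem p1795 : PrL chk L1795 := leafL c1795

theorem c1796 : lp7 (fun s => chk (ent L1796 s)) 0 = true := by decide +kernel
theorem p1796 : PrL chk L1796 := leafL c1796

theorem c1797 : lp7 (fun s => chk (ent L1797 s)) 0 = true := by decide +kernel
theorem p1797 : PrL chk L1797 := leafL c1797

theorem c1798 : lp7 (fun s => chk (ent L1798 s)) 0 = true := by decide +kernel
theorem p1798 : PrL chk L1798 := leafL c1798

theorem c1799 : lp7 (fun s => chk (ent L1799 s)) 0 = true := by decide +kernel
theorem p1799 : PrL chk L1799 := leafL c1799

theorem c1800 : lp7 (fun s => chk (ent L1800 s)) 0 = true := by decide +kernel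
theorem p1800 : PrL chk L1800 := leafL c1800

theorem c1801 : lp7 (fun s => chk (ent L1801 s)) 0 = true := by decide +kernel
theorem p1801 : PrL chk L1801 := leafL c1801

theorem c1802 : lp7 (fun s => chk (ent L1802 s)) 0 = true := by decide +kernel
theorem p1802 : PrL chk L1802 := leafL c1802

theorem c1803 : lp7 (fun s => chk (ent L1803 s)) 0 = true := by decide +kernel
theorem p1803 : PrL chk L1803 := leafL c1803

theorem c1804 : lp7 (fun s => chk (ent L1804 s)) 0 = true := by decide +kernel
theorem p1804 : PrL chk L1804 := leafL c1804

theorem c1805 : lp7 (fun s => chk (ent L1805 s)) 0 = true := by decide +kernel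
theorem p1805 : PrL chk L1805 := leafL c1805

theorem c1806 : lp7 (fun s => chk (ent L1806 s)) 0 = true := by decide +kernel
theorem p1806 : PrL chk L1806 := leafL c1806

theorem c1807 : lp7 (fun s => chk (ent L1807 s)) 0 = true := by decide +kernel
theorem p1807 : PrL chk L1807 := leafL c1807

theorem c1808 : lp7 (fun s => chk (ent L1808 s)) 0 = true := by decide +kernel
theorem p1808 : PrL chk L1808 := leafL c1808

theorem c1809 : lp7 (fun s => chk (ent L1809 s)) 0 = true := by decide +kernel
theorem p1809 : PrL chk L1809 := leafL c1809

theorem c1810 : lp7 (fun s => chk (ent L1810 s)) 0 = true := by decide +kernel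
theorem p1810 : PrL chk L1810 := leafL c1810

theorem c1811 : lp7 (fun s => chk (ent L1811 s)) 0 = true := by decide +kernel
theorem p1811 : PrL chk L1811 := leafL c1811

theorem c1812 : lp7 (fun s => chk (ent L1812 s)) 0 = true := by decide +kernel
theorem p1812 : PrL chk L1812 := leafL c1812

theorem c1813 : lp7 (fun s => chk (ent L1813 s)) 0 = true := by decide +kernel
theorem p1813 : PrL chk L1813 := leafL c1813

theorem c1814 : lp7 (fun s => chk (ent L1814 s)) 0 = true := by decide +kernel
theorem p1814 : PrL chk L1814 := leafL c1814

theorem c1815 : lp7 (fun s => chk (ent L1815 s)) 0 = true := by decide +kernel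
theorem p1815 : PrL chk L1815 := leafL c1815

theorem c1816 : lp7 (fun s => chk (ent L1816 s)) 0 = true := by decide +kernel
theorem p1816 : PrL chk L1816 := leafL c1816

theorem c1817 : lp7 (fun s => chk (ent L1817 s)) 0 = true := by decide +kernel
theorem p1817 : PrL chk L1817 := leafL c1817

theorem c1818 : lp7 (fun s => chk (ent L1818 s)) 0 = true := by decide +kernel
theorem p1818 : PrL chk L1818 := leafL c1818

theorem c1819 : lp7 (fun s => chk (ent L1819 s)) 0 = true := by decide +kernel
theorem p1819 : PrL chk L1819 := leafL c1819

theorem c1820 : lp7 (fun s => chk (ent L1820 s)) 0 = true := by decide +kernel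
theorem p1820 : PrL chk L1820 := leafL c1820

theorem c1821 : lp7 (fun s => chk (ent L1821 s)) 0 = true := by decide +kernel
theorem p1821 : PrL chk L1821 := leafL c1821

theorem c1822 : lp7 (fun s => chk (ent L1822 s)) 0 = true := by decide +kernel
theorem p1822 : PrL chk L1822 := leafL c1822

theorem c1823 : lp7 (fun s => chk (ent L1823 s)) 0 = true := by decide +kernel
theorem p1823 : PrL chk L1823 := leafL c1823

theorem c1824 : lp7 (fun s => chk (ent L1824 s)) 0 = true := by decide +kernel
theorem p1824 : PrL chk L1824 := leafL c1824

theorem c1825 : lp7 (fun s => chk (ent L1825 s)) 0 = true := by decide +kernel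
theorem p1825 : PrL chk L1825 := leafL c1825

theorem c1826 : lp7 (fun s => chk (ent L1826 s)) 0 = true := by decide +kernel
theorem p1826 : PrL chk L1826 := leafL c1826

theorem c1827 : lp7 (fun s => chk (ent L1827 s)) 0 = true := by decide +kernel
theorem p1827 : PrL chk L1827 := leafL c1827

theorem c1828 : lp7 (fun s => chk (ent L1828 s)) 0 = true := by decide +kernel
theorem p1828 : PrL chk L1828 := leafL c1828

theorem c1829 : lp7 (fun s => chk (ent L1829 s)) 0 = true := by decide +kernel
theorem p1829 : PrL chk L1829 := leafL c1829

theorem c1830 : lp7 (fun s => chk (ent L1830 s)) 0 = true := by decide +kernel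
theorem p1830 : PrL chk L1830 := leafL c1830

theorem c1831 : lp7 (fun s => chk (ent L1831 s)) 0 = true := by decide +kernel
theorem p1831 : PrL chk L1831 := leafL c1831

theorem c1832 : lp7 (fun s => chk (ent L1832 s)) 0 = true := by decide +kernel
theorem p1832 : PrL chk L1832 := leafL c1832

theorem c1833 : lp7 (fun s => chk (ent L1833 s)) 0 = true := by decide +kernel
theorem p1833 : PrL chk L1833 := leafL c1833

theorem c1834 : lp7 (fun s => chk (ent L1834 s)) 0 = true := by decide +kernel
theorem p1834 : PrL chk L1834 := leafL c1834

theorem c1835 : lp7 (fun s => chk (ent L1835 s)) 0 = true := by decide +kernel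
theorem p1835 : PrL chk L1835 := leafL c1835

theorem c1836 : lp7 (fun s => chk (ent L1836 s)) 0 = true := by decide +kernel
theorem p1836 : PrL chk L1836 := leafL c1836

theorem c1837 : lp7 (fun s => chk (ent L1837 s)) 0 = true := by decide +kernel
theorem p1837 : PrL chk L1837 := leafL c1837

theorem c1838 : lp7 (fun s => chk (ent L1838 s)) 0 = true := by decide +kernel
theorem p1838 : PrL chk L1838 := leafL c1838

theorem c1839 : lp7 (fun s => chk (ent L1839 s)) 0 = true := by decide +kernel
theorem p1839 : PrL chk L1839 := leafL c1839

theorem c1840 : lp7 (fun s => chk (ent L1840 s)) 0 = true := by decide +kernel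
theorem p1840 : PrL chk L1840 := leafL c1840

theorem c1841 : lp7 (fun s => chk (ent L1841 s)) 0 = true := by decide +kernel
theorem p1841 : PrL chk L1841 := leafL c1841

theorem c1842 : lp7 (fun s => chk (ent L1842 s)) 0 = true := by decide +kernel
theorem p1842 : PrL chk L1842 := leafL c1842

theorem c1843 : lp7 (fun s => chk (ent L1843 s)) 0 = true := by decide +kernel
theorem p1843 : PrL chk L1843 := leafL c1843

theorem c1844 : lp7 (fun s => chk (ent L1844 s)) 0 = true := by decide +kernel
theorem p1844 : PrL chk L1844 := leafL c1844

theorem c1845 : lp7 (fun s => chk (ent L1845 s)) 0 = true := by decide +kernel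
theorem p1845 : PrL chk L1845 := leafL c1845

theorem c1846 : lp7 (fun s => chk (ent L1846 s)) 0 = true := by decide +kernel
theorem p1846 : PrL chk L1846 := leafL c1846

theorem c1847 : lp7 (fun s => chk (ent L1847 s)) 0 = true := by decide +kernel
theorem p1847 : PrL chk L1847 := leafL c1847

theorem c1848 : lp7 (fun s => chk (ent L1848 s)) 0 = true := by decide +kernel
theorem p1848 : PrL chk L1848 := leafL c1848

theorem c1849 : lp7 (fun s => chk (ent L1849 s)) 0 = true := by decide +kernel
theorem p1849 : PrL chk L1849 := leafL c1849

theorem c1850 : lp7 (fun s => chk (ent L1850 s)) 0 = true := by decide +kernel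
theorem p1850 : PrL chk L1850 := leafL c1850

theorem c1851 : lp7 (fun s => chk (ent L1851 s)) 0 = true := by decide +kernel
theorem p1851 : PrL chk L1851 := leafL c1851

theorem c1852 : lp7 (fun s => chk (ent L1852 s)) 0 = true := by decide +kernel
theorem p1852 : PrL chk L1852 := leafL c1852

theorem c1853 : lp7 (fun s => chk (ent L1853 s)) 0 = true := by decide +kernel
theorem p1853 : PrL chk L1853 := leafL c1853

theorem c1854 : lp7 (fun s => chk (ent L1854 s)) 0 = true := by decide +kernel
theorem p1854 : PrL chk L1854 := leafL c1854

theorem c1855 : lp7 (fun s => chk (ent L1855 s)) 0 = true := by decide +kernel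
theorem p1855 : PrL chk L1855 := leafL c1855

theorem c1856 : lp7 (fun s => chk (ent L1856 s)) 0 = true := by decide +kernel
theorem p1856 : PrL chk L1856 := leafL c1856

theorem c1857 : lp7 (fun s => chk (ent L1857 s)) 0 = true := by decide +kernel
theorem p1857 : PrL chk L1857 := leafL c1857

theorem c1858 : lp7 (fun s => chk (ent L1858 s)) 0 = true := by decide +kernel
theorem p1858 : PrL chk L1858 := leafL c1858

theorem c1859 : lp7 (fun s => chk (ent L1859 s)) 0 = true := by decide +kernel
theorem p1859 : PrL chk L1859 := leafL c1859

theorem c1860 : lp7 (fun s => chk (ent L1860 s)) 0 = true := by decide +kernel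
theorem p1860 : PrL chk L1860 := leafL c1860

theorem c1861 : lp7 (fun s => chk (ent L1861 s)) 0 = true := by decide +kernel
theorem p1861 : PrL chk L1861 := leafL c1861

theorem c1862 : lp7 (fun s => chk (ent L1862 s)) 0 = true := by decide +kernel
theorem p1862 : PrL chk L1862 := leafL c1862

theorem c1863 : lp7 (fun s => chk (ent L1863 s)) 0 = true := by decide +kernel
theorem p1863 : PrL chk L1863 := leafL c1863

theorem c1864 : lp7 (fun s => chk (ent L1864 s)) 0 = true := by decide +kernel
theorem p1864 : PrL chk L1864 := leafL c1864

theorem c1865 : lp7 (fun s => chk (ent L1865 s)) 0 = true := by decide +kernel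
theorem p1865 : PrL chk L1865 := leafL c1865

theorem c1866 : lp7 (fun s => chk (ent L1866 s)) 0 = true := by decide +kernel
theorem p1866 : PrL chk L1866 := leafL c1866

theorem c1867 : lp7 (fun s => chk (ent L1867 s)) 0 = true := by decide +kernel
theorem p1867 : PrL chk L1867 := leafL c1867

theorem c1868 : lp7 (fun s => chk (ent L1868 s)) 0 = true := by decide +kernel
theorem p1868 : PrL chk L1868 := leafL c1868

theorem c1869 : lp7 (fun s => chk (ent L1869 s)) 0 = true := by decide +kernel
theorem p1869 : PrL chk L1869 := leafL c1869

theorem c1870 : lp7 (fun s => chk (ent L1870 s)) 0 = true := by decide +kernel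
theorem p1870 : PrL chk L1870 := leafL c1870

theorem c1871 : lp7 (fun s => chk (ent L1871 s)) 0 = true := by decide +kernel
theorem p1871 : PrL chk L1871 := leafL c1871

theorem c1872 : lp7 (fun s => chk (ent L1872 s)) 0 = true := by decide +kernel
theorem p1872 : PrL chk L1872 := leafL c1872

theorem c1873 : lp7 (fun s => chk (ent L1873 s)) 0 = true := by decide +kernel
theorem p1873 : PrL chk L1873 := leafL c1873

theorem c1874 : lp7 (fun s => chk (ent L1874 s)) 0 = true := by decide +kernel
theorem p1874 : PrL chk L1874 := leafL c1874

theorem c1875 : lp7 (fun s => chk (ent L1875 s)) 0 = true := by decide +kernel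
theorem p1875 : PrL chk L1875 := leafL c1875

theorem c1876 : lp7 (fun s => chk (ent L1876 s)) 0 = true := by decide +kernel
theorem p1876 : PrL chk L1876 := leafL c1876

theorem c1877 : lp7 (fun s => chk (ent L1877 s)) 0 = true := by decide +kernel
theorem p1877 : PrL chk L1877 := leafL c1877

theorem c1878 : lp7 (fun s => chk (ent L1878 s)) 0 = true := by decide +kernel
theorem p1878 : PrL chk L1878 := leafL c1878

theorem c1879 : lp7 (fun s => chk (ent L1879 s)) 0 = true := by decide +kernel
theorem p1879 : PrL chk L1879 := leafL c1879

theorem c1880 : lp7 (fun s => chk (ent L1880 s)) 0 = true := by decide +kernel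
theorem p1880 : PrL chk L1880 := leafL c1880

theorem c1881 : lp7 (fun s => chk (ent L1881 s)) 0 = true := by decide +kernel
theorem p1881 : PrL chk L1881 := leafL c1881

theorem c1882 : lp7 (fun s => chk (ent L1882 s)) 0 = true := by decide +kernel
theorem p1882 : PrL chk L1882 := leafL c1882

theorem c1883 : lp7 (fun s => chk (ent L1883 s)) 0 = true := by decide +kernel
theorem p1883 : PrL chk L1883 := leafL c1883

theorem c1884 : lp7 (fun s => chk (ent L1884 s)) 0 = true := by decide +kernel
theorem p1884 : PrL chk L1884 := leafL c1884

theorem c1885 : lp7 (fun s => chk (ent L1885 s)) 0 = true := by decide +kernel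
theorem p1885 : PrL chk L1885 := leafL c1885

theorem c1886 : lp7 (fun s => chk (ent L1886 s)) 0 = true := by decide +kernel
theorem p1886 : PrL chk L1886 := leafL c1886

theorem c1887 : lp7 (fun s => chk (ent L1887 s)) 0 = true := by decide +kernel
theorem p1887 : PrL chk L1887 := leafL c1887

theorem c1888 : lp7 (fun s => chk (ent L1888 s)) 0 = true := by decide +kernel
theorem p1888 : PrL chk L1888 := leafL c1888

theorem c1889 : lp7 (fun s => chk (ent L1889 s)) 0 = true := by decide +kernel
theorem p1889 : PrL chk L1889 := leafL c1889

theorem c1890 : lp7 (fun s => chk (ent L1890 s)) 0 = true := by decide +kernel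
theorem p1890 : PrL chk L1890 := leafL c1890

theorem c1891 : lp7 (fun s => chk (ent L1891 s)) 0 = true := by decide +kernel
theorem p1891 : PrL chk L1891 := leafL c1891

theorem c1892 : lp7 (fun s => chk (ent L1892 s)) 0 = true := by decide +kernel
theorem p1892 : PrL chk L1892 := leafL c1892

theorem c1893 : lp7 (fun s => chk (ent L1893 s)) 0 = true := by decide +kernel
theorem p1893 : PrL chk L1893 := leafL c1893

theorem c1894 : lp7 (fun s => chk (ent L1894 s)) 0 = true := by decide +kernel
theorem p1894 : PrL chk L1894 := leafL c1894

theorem c1895 : lp7 (fun s => chk (ent L1895 s)) 0 = true := by decide +kernel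
theorem p1895 : PrL chk L1895 := leafL c1895

theorem c1896 : lp7 (fun s => chk (ent L1896 s)) 0 = true := by decide +kernel
theorem p1896 : PrL chk L1896 := leafL c1896

theorem c1897 : lp7 (fun s => chk (ent L1897 s)) 0 = true := by decide +kernel
theorem p1897 : PrL chk L1897 := leafL c1897

theorem c1898 : lp7 (fun s => chk (ent L1898 s)) 0 = true := by decide +kernel
theorem p1898 : PrL chk L1898 := leafL c1898

theorem c1899 : lp7 (fun s => chk (ent L1899 s)) 0 = true := by decide +kernel
theorem p1899 : PrL chk L1899 := leafL c1899

theorem c1900 : lp7 (fun s => chk (ent L1900 s)) 0 = true := by decide +kernel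
theorem p1900 : PrL chk L1900 := leafL c1900

theorem c1901 : lp7 (fun s => chk (ent L1901 s)) 0 = true := by decide +kernel
theorem p1901 : PrL chk L1901 := leafL c1901

theorem c1902 : lp7 (fun s => chk (ent L1902 s)) 0 = true := by decide +kernel
theorem p1902 : PrL chk L1902 := leafL c1902

theorem c1903 : lp7 (fun s => chk (ent L1903 s)) 0 = true := by decide +kernel
theorem p1903 : PrL chk L1903 := leafL c1903

theorem c1904 : lp7 (fun s => chk (ent L1904 s)) 0 = true := by decide +kernel
theorem p1904 : PrL chk L1904 := leafL c1904

theorem c1905 : lp7 (fun s => chk (ent L1905 s)) 0 = true := by decide +kernel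
theorem p1905 : PrL chk L1905 := leafL c1905

theorem c1906 : lp7 (fun s => chk (ent L1906 s)) 0 = true := by decide +kernel
theorem p1906 : PrL chk L1906 := leafL c1906

theorem c1907 : lp7 (fun s => chk (ent L1907 s)) 0 = true := by decide +kernel
theorem p1907 : PrL chk L1907 := leafL c1907

theorem c1908 : lp7 (fun s => chk (ent L1908 s)) 0 = true := by decide +kernel
theorem p1908 : PrL chk L1908 := leafL c1908

theorem c1909 : lp7 (fun s => chk (ent L1909 s)) 0 = true := by decide +kernel
theorem p1909 : PrL chk L1909 := leafL c1909

theorem c1910 : lp7 (fun s => chk (ent L1910 s)) 0 = true := by decide +kernel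
theorem p1910 : PrL chk L1910 := leafL c1910

theorem c1911 : lp7 (fun s => chk (ent L1911 s)) 0 = true := by decide +kernel
theorem p1911 : PrL chk L1911 := leafL c1911

theorem c1912 : lp7 (fun s => chk (ent L1912 s)) 0 = true := by decide +kernel
theorem p1912 : PrL chk L1912 := leafL c1912

theorem c1913 : lp7 (fun s => chk (ent L1913 s)) 0 = true := by decide +kernel
theorem p1913 : PrL chk L1913 := leafL c1913

theorem c1914 : lp7 (fun s => chk (ent L1914 s)) 0 = true := by decide +kernel
theorem p1914 : PrL chk L1914 := leafL c1914

theorem c1915 : lp7 (fun s => chk (ent L1915 s)) 0 = true := by decide +kernel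
theorem p1915 : PrL chk L1915 := leafL c1915

theorem c1916 : lp7 (fun s => chk (ent L1916 s)) 0 = true := by decide +kernel
theorem p1916 : PrL chk L1916 := leafL c1916

theorem c1917 : lp7 (fun s => chk (ent L1917 s)) 0 = true := by decide +kernel
theorem p1917 : PrL chk L1917 := leafL c1917

theorem c1918 : lp7 (fun s => chk (ent L1918 s)) 0 = true := by decide +kernel
theorem p1918 : PrL chk L1918 := leafL c1918

theorem c1919 : lp7 (fun s => chk (ent L1919 s)) 0 = true := by decide +kernel
theorem p1919 : PrL chk L1919 := leafL c1919

theorem c1920 : lp7 (fun s => chk (ent L1920 s)) 0 = true := by decide +kernel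
theorem p1920 : PrL chk L1920 := leafL c1920

theorem c1921 : lp7 (fun s => chk (ent L1921 s)) 0 = true := by decide +kernel
theorem p1921 : PrL chk L1921 := leafL c1921

theorem c1922 : lp7 (fun s => chk (ent L1922 s)) 0 = true := by decide +kernel
theorem p1922 : PrL chk L1922 := leafL c1922

theorem c1923 : lp7 (fun s => chk (ent L1923 s)) 0 = true := by decide +kernel
theorem p1923 : PrL chk L1923 := leafL c1923

theorem c1924 : lp7 (fun s => chk (ent L1924 s)) 0 = true := by decide +kernel
theorem p1924 : PrL chk L1924 := leafL c1924

theorem c1925 : lp7 (fun s => chk (ent L1925 s)) 0 = true := by decide +kernel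
theorem p1925 : PrL chk L1925 := leafL c1925

theorem c1926 : lp7 (fun s => chk (ent L1926 s)) 0 = true := by decide +kernel
theorem p1926 : PrL chk L1926 := leafL c1926

theorem c1927 : lp7 (fun s => chk (ent L1927 s)) 0 = true := by decide +kernel
theorem p1927 : PrL chk L1927 := leafL c1927

theorem c1928 : lp7 (fun s => chk (ent L1928 s)) 0 = true := by decide +kernel
theorem p1928 : PrL chk L1928 := leafL c1928

theorem c1929 : lp7 (fun s => chk (ent L1929 s)) 0 = true := by decide +kernel
theorem p1929 : PrL chk L1929 := leafL c1929

theorem c1930 : lp7 (fun s => chk (ent L1930 s)) 0 = true := by decide +kernel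
theorem p1930 : PrL chk L1930 := leafL c1930

theorem c1931 : lp7 (fun s => chk (ent L1931 s)) 0 = true := by decide +kernel
theorem p1931 : PrL chk L1931 := leafL c1931

theorem c1932 : lp7 (fun s => chk (ent L1932 s)) 0 = true := by decide +kernel
theorem p1932 : PrL chk L1932 := leafL c1932

theorem c1933 : lp7 (fun s => chk (ent L1933 s)) 0 = true := by decide +kernel
theorem p1933 : PrL chk L1933 := leafL c1933

theorem c1934 : lp7 (fun s => chk (ent L1934 s)) 0 = true := by decide +kernel
theorem p1934 : PrL chk L1934 := leafL c1934

theorem c1935 : lp7 (fun s => chk (ent L1935 s)) 0 = true := by decide +kernel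
theorem p1935 : PrL chk L1935 := leafL c1935

theorem c1936 : lp7 (fun s => chk (ent L1936 s)) 0 = true := by decide +kernel
theorem p1936 : PrL chk L1936 := leafL c1936

theorem c1937 : lp7 (fun s => chk (ent L1937 s)) 0 = true := by decide +kernel
theorem p1937 : PrL chk L1937 := leafL c1937

theorem c1938 : lp7 (fun s => chk (ent L1938 s)) 0 = true := by decide +kernel
theorem p1938 : PrL chk L1938 := leafL c1938

theorem c1939 : lp7 (fun s => chk (ent L1939 s)) 0 = true := by decide +kernel
theorem p1939 : PrL chk L1939 := leafL c1939

theorem c1940 : lp7 (fun s => chk (ent L1940 s)) 0 = true := by decide +kernel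
theorem p1940 : PrL chk L1940 := leafL c1940

theorem c1941 : lp7 (fun s => chk (ent L1941 s)) 0 = true := by decide +kernel
theorem p1941 : PrL chk L1941 := leafL c1941

theorem c1942 : lp7 (fun s => chk (ent L1942 s)) 0 = true := by decide +kernel
theorem p1942 : PrL chk L1942 := leafL c1942

theorem c1943 : lp7 (fun s => chk (ent L1943 s)) 0 = true := by decide +kernel
theorem p1943 : PrL chk L1943 := leafL c1943

theorem c1944 : lp7 (fun s => chk (ent L1944 s)) 0 = true := by decide +kernel
theorem p1944 : PrL chk L1944 := leafL c1944

theorem c1945 : lp7 (fun s => chk (ent L1945 s)) 0 = true := by decide +kernel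
theorem p1945 : PrL chk L1945 := leafL c1945

theorem c1946 : lp7 (fun s => chk (ent L1946 s)) 0 = true := by decide +kernel
theorem p1946 : PrL chk L1946 := leafL c1946

theorem c1947 : lp7 (fun s => chk (ent L1947 s)) 0 = true := by decide +kernel
theorem p1947 : PrL chk L1947 := leafL c1947

theorem c1948 : lp7 (fun s => chk (ent L1948 s)) 0 = true := by decide +kernel
theorem p1948 : PrL chk L1948 := leafL c1948

theorem c1949 : lp7 (fun s => chk (ent L1949 s)) 0 = true := by decide +kernel
theorem p1949 : PrL chk L1949 := leafL c1949

theorem c1950 : lp7 (fun s => chk (ent L1950 s)) 0 = true := by decide +kernel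
theorem p1950 : PrL chk L1950 := leafL c1950

theorem c1951 : lp7 (fun s => chk (ent L1951 s)) 0 = true := by decide +kernel
theorem p1951 : PrL chk L1951 := leafL c1951

theorem c1952 : lp7 (fun s => chk (ent L1952 s)) 0 = true := by decide +kernel
theorem p1952 : PrL chk L1952 := leafL c1952

theorem c1953 : lp7 (fun s => chk (ent L1953 s)) 0 = true := by decide +kernel
theorem p1953 : PrL chk L1953 := leafL c1953

theorem c1954 : lp7 (fun s => chk (ent L1954 s)) 0 = true := by decide +kernel
theorem p1954 : PrL chk L1954 := leafL c1954

theorem c1955 : lp7 (fun s => chk (ent L1955 s)) 0 = true := by decide +kernel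
theorem p1955 : PrL chk L1955 := leafL c1955

theorem c1956 : lp7 (fun s => chk (ent L1956 s)) 0 = true := by decide +kernel
theorem p1956 : PrL chk L1956 := leafL c1956

theorem c1957 : lp7 (fun s => chk (ent L1957 s)) 0 = true := by decide +kernel
theorem p1957 : PrL chk L1957 := leafL c1957

theorem c1958 : lp7 (fun s => chk (ent L1958 s)) 0 = true := by decide +kernel
theorem p1958 : PrL chk L1958 := leafL c1958

theorem c1959 : lp7 (fun s => chk (ent L1959 s)) 0 = true := by decide +kernel
theorem p1959 : PrL chk L1959 := leafL c1959

theorem c1960 : lp7 (fun s => chk (ent L1960 s)) 0 = true := by decide +kernel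
theorem p1960 : PrL chk L1960 := leafL c1960

theorem c1961 : lp7 (fun s => chk (ent L1961 s)) 0 = true := by decide +kernel
theorem p1961 : PrL chk L1961 := leafL c1961

theorem c1962 : lp7 (fun s => chk (ent L1962 s)) 0 = true := by decide +kernel
theorem p1962 : PrL chk L1962 := leafL c1962

theorem c1963 : lp7 (fun s => chk (ent L1963 s)) 0 = true := by decide +kernel
theorem p1963 : PrL chk L1963 := leafL c1963

theorem c1964 : lp7 (fun s => chk (ent L1964 s)) 0 = true := by decide +kernel
theorem p1964 : PrL chk L1964 := leafL c1964

theorem c1965 : lp7 (fun s => chk (ent L1965 s)) 0 = true := by decide +kernel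
theorem p1965 : PrL chk L1965 := leafL c1965

theorem c1966 : lp7 (fun s => chk (ent L1966 s)) 0 = true := by decide +kernel
theorem p1966 : PrL chk L1966 := leafL c1966

theorem c1967 : lp7 (fun s => chk (ent L1967 s)) 0 = true := by decide +kernel
theorem p1967 : PrL chk L1967 := leafL c1967

theorem c1968 : lp7 (fun s => chk (ent L1968 s)) 0 = true := by decide +kernel
theorem p1968 : PrL chk L1968 := leafL c1968

theorem c1969 : lp7 (fun s => chk (ent L1969 s)) 0 = true := by decide +kernel
theorem p1969 : PrL chk L1969 := leafL c1969

theorem c1970 : lp7 (fun s => chk (ent L1970 s)) 0 = true := by decide +kernel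
theorem p1970 : PrL chk L1970 := leafL c1970

theorem c1971 : lp7 (fun s => chk (ent L1971 s)) 0 = true := by decide +kernel
theorem p1971 : PrL chk L1971 := leafL c1971

theorem c1972 : lp7 (fun s => chk (ent L1972 s)) 0 = true := by decide +kernel
theorem p1972 : PrL chk L1972 := leafL c1972

theorem c1973 : lp7 (fun s => chk (ent L1973 s)) 0 = true := by decide +kernel
theorem p1973 : PrL chk L1973 := leafL c1973

theorem c1974 : lp7 (fun s => chk (ent L1974 s)) 0 = true := by decide +kernel
theorem p1974 : PrL chk L1974 := leafL c1974

theorem c1975 : lp7 (fun s => chk (ent L1975 s)) 0 = true := by decide +kernel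
theorem p1975 : PrL chk L1975 := leafL c1975

theorem c1976 : lp7 (fun s => chk (ent L1976 s)) 0 = true := by decide +kernel
theorem p1976 : PrL chk L1976 := leafL c1976

theorem c1977 : lp7 (fun s => chk (ent L1977 s)) 0 = true := by decide +kernel
theorem p1977 : PrL chk L1977 := leafL c1977

theorem c1978 : lp7 (fun s => chk (ent L1978 s)) 0 = true := by decide +kernel
theorem p1978 : PrL chk L1978 := leafL c1978

theorem c1979 : lp7 (fun s => chk (ent L1979 s)) 0 = true := by decide +kernel
theorem p1979 : PrL chk L1979 := leafL c1979

theorem c1980 : lp7 (fun s => chk (ent L1980 s)) 0 = true := by decide +kernel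
theorem p1980 : PrL chk L1980 := leafL c1980

theorem c1981 : lp7 (fun s => chk (ent L1981 s)) 0 = true := by decide +kernel
theorem p1981 : PrL chk L1981 := leafL c1981

theorem c1982 : lp7 (fun s => chk (ent L1982 s)) 0 = true := by decide +kernel
theorem p1982 : PrL chk L1982 := leafL c1982

theorem c1983 : lp7 (fun s => chk (ent L1983 s)) 0 = true := by decide +kernel
theorem p1983 : PrL chk L1983 := leafL c1983

theorem c1984 : lp7 (fun s => chk (ent L1984 s)) 0 = true := by decide +kernel
theorem p1984 : PrL chk L1984 := leafL c1984

theorem c1985 : lp7 (fun s => chk (ent L1985 s)) 0 = true := by decide +kernel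
theorem p1985 : PrL chk L1985 := leafL c1985

theorem c1986 : lp7 (fun s => chk (ent L1986 s)) 0 = true := by decide +kernel
theorem p1986 : PrL chk L1986 := leafL c1986

theorem c1987 : lp7 (fun s => chk (ent L1987 s)) 0 = true := by decide +kernel
theorem p1987 : PrL chk L1987 := leafL c1987

theorem c1988 : lp7 (fun s => chk (ent L1988 s)) 0 = true := by decide +kernel
theorem p1988 : PrL chk L1988 := leafL c1988

theorem c1989 : lp7 (fun s => chk (ent L1989 s)) 0 = true := by decide +kernel
theorem p1989 : PrL chk L1989 := leafL c1989

theorem c1990 : lp7 (fun s => chk (ent L1990 s)) 0 = true := by decide +kernel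
theorem p1990 : PrL chk L1990 := leafL c1990

theorem c1991 : lp7 (fun s => chk (ent L1991 s)) 0 = true := by decide +kernel
theorem p1991 : PrL chk L1991 := leafL c1991

theorem c1992 : lp7 (fun s => chk (ent L1992 s)) 0 = true := by decide +kernel
theorem p1992 : PrL chk L1992 := leafL c1992

theorem c1993 : lp7 (fun s => chk (ent L1993 s)) 0 = true := by decide +kernel
theorem p1993 : PrL chk L1993 := leafL c1993

theorem c1994 : lp7 (fun s => chk (ent L1994 s)) 0 = true := by decide +kernel
theorem p1994 : PrL chk L1994 := leafL c1994

theorem c1995 : lp7 (fun s => chk (ent L1995 s)) 0 = true := by decide +kernel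
theorem p1995 : PrL chk L1995 := leafL c1995

theorem c1996 : lp7 (fun s => chk (ent L1996 s)) 0 = true := by decide +kernel
theorem p1996 : PrL chk L1996 := leafL c1996

theorem c1997 : lp7 (fun s => chk (ent L1997 s)) 0 = true := by decide +kernel
theorem p1997 : PrL chk L1997 := leafL c1997

theorem c1998 : lp7 (fun s => chk (ent L1998 s)) 0 = true := by decide +kernel
theorem p1998 : PrL chk L1998 := leafL c1998

theorem c1999 : lp7 (fun s => chk (ent L1999 s)) 0 = true := by decide +kernel
theorem p1999 : PrL chk L1999 := leafL c1999

theorem c2000 : lp7 (fun s => chk (ent L2000 s)) 0 = true := by decide +kernel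
theorem p2000 : PrL chk L2000 := leafL c2000

theorem c2001 : lp7 (fun s => chk (ent L2001 s)) 0 = true := by decide +kernel
theorem p2001 : PrL chk L2001 := leafL c2001

theorem c2002 : lp7 (fun s => chk (ent L2002 s)) 0 = true := by decide +kernel
theorem p2002 : PrL chk L2002 := leafL c2002

theorem c2003 : lp7 (fun s => chk (ent L2003 s)) 0 = true := by decide +kernel
theorem p2003 : PrL chk L2003 := leafL c2003

theorem c2004 : lp7 (fun s => chk (ent L2004 s)) 0 = true := by decide +kernel
theorem p2004 : PrL chk L2004 := leafL c2004

theorem c2005 : lp7 (fun s => chk (ent L2005 s)) 0 = true := by decide +kernel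
theorem p2005 : PrL chk L2005 := leafL c2005

theorem c2006 : lp7 (fun s => chk (ent L2006 s)) 0 = true := by decide +kernel
theorem p2006 : PrL chk L2006 := leafL c2006

theorem c2007 : lp7 (fun s => chk (ent L2007 s)) 0 = true := by decide +kernel
theorem p2007 : PrL chk L2007 := leafL c2007

theorem c2008 : lp7 (fun s => chk (ent L2008 s)) 0 = true := by decide +kernel
theorem p2008 : PrL chk L2008 := leafL c2008

theorem c2009 : lp7 (fun s => chk (ent L2009 s)) 0 = true := by decide +kernel
theorem p2009 : PrL chk L2009 := leafL c2009

theorem c2010 : lp7 (fun s => chk (ent L2010 s)) 0 = true := by decide +kernel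
theorem p2010 : PrL chk L2010 := leafL c2010

theorem c2011 : lp7 (fun s => chk (ent L2011 s)) 0 = true := by decide +kernel
theorem p2011 : PrL chk L2011 := leafL c2011

theorem c2012 : lp7 (fun s => chk (ent L2012 s)) 0 = true := by decide +kernel
theorem p2012 : PrL chk L2012 := leafL c2012

theorem c2013 : lp7 (fun s => chk (ent L2013 s)) 0 = true := by decide +kernel
theorem p2013 : PrL chk L2013 := leafL c2013

theorem c2014 : lp7 (fun s => chk (ent L2014 s)) 0 = true := by decide +kernel
theorem p2014 : PrL chk L2014 := leafL c2014

theorem c2015 : lp7 (fun s => chk (ent L2015 s)) 0 = true := by decide +kernel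
theorem p2015 : PrL chk L2015 := leafL c2015

theorem c2016 : lp7 (fun s => chk (ent L2016 s)) 0 = true := by decide +kernel
theorem p2016 : PrL chk L2016 := leafL c2016

theorem c2017 : lp7 (fun s => chk (ent L2017 s)) 0 = true := by decide +kernel
theorem p2017 : PrL chk L2017 := leafL c2017

theorem c2018 : lp7 (fun s => chk (ent L2018 s)) 0 = true := by decide +kernel
theorem p2018 : PrL chk L2018 := leafL c2018

theorem c2019 : lp7 (fun s => chk (ent L2019 s)) 0 = true := by decide +kernel
theorem p2019 : PrL chk L2019 := leafL c2019

theorem c2020 : lp7 (fun s => chk (ent L2020 s)) 0 = true := by decide +kernel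
theorem p2020 : PrL chk L2020 := leafL c2020

theorem c2021 : lp7 (fun s => chk (ent L2021 s)) 0 = true := by decide +kernel
theorem p2021 : PrL chk L2021 := leafL c2021

theorem c2022 : lp7 (fun s => chk (ent L2022 s)) 0 = true := by decide +kernel
theorem p2022 : PrL chk L2022 := leafL c2022

theorem c2023 : lp7 (fun s => chk (ent L2023 s)) 0 = true := by decide +kernel
theorem p2023 : PrL chk L2023 := leafL c2023

theorem c2024 : lp7 (fun s => chk (ent L2024 s)) 0 = true := by decide +kernel
theorem p2024 : PrL chk L2024 := leafL c2024

theorem c2025 : lp7 (fun s => chk (ent L2025 s)) 0 = true := by decide +kernel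
theorem p2025 : PrL chk L2025 := leafL c2025

theorem c2026 : lp7 (fun s => chk (ent L2026 s)) 0 = true := by decide +kernel
theorem p2026 : PrL chk L2026 := leafL c2026

theorem c2027 : lp7 (fun s => chk (ent L2027 s)) 0 = true := by decide +kernel
theorem p2027 : PrL chk L2027 := leafL c2027

theorem c2028 : lp7 (fun s => chk (ent L2028 s)) 0 = true := by decide +kernel
theorem p2028 : PrL chk L2028 := leafL c2028

theorem c2029 : lp7 (fun s => chk (ent L2029 s)) 0 = true := by decide +kernel
theorem p2029 : PrL chk L2029 := leafL c2029

theorem c2030 : lp7 (fun s => chk (ent L2030 s)) 0 = true := by decide +kernel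
theorem p2030 : PrL chk L2030 := leafL c2030

theorem c2031 : lp7 (fun s => chk (ent L2031 s)) 0 = true := by decide +kernel
theorem p2031 : PrL chk L2031 := leafL c2031

theorem c2032 : lp7 (fun s => chk (ent L2032 s)) 0 = true := by decide +kernel
theorem p2032 : PrL chk L2032 := leafL c2032

theorem c2033 : lp7 (fun s => chk (ent L2033 s)) 0 = true := by decide +kernel
theorem p2033 : PrL chk L2033 := leafL c2033

theorem c2034 : lp7 (fun s => chk (ent L2034 s)) 0 = true := by decide +kernel
theorem p2034 : PrL chk L2034 := leafL c2034

theorem c2035 : lp7 (fun s => chk (ent L2035 s)) 0 = true := by decide +kernel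
theorem p2035 : PrL chk L2035 := leafL c2035

theorem c2036 : lp7 (fun s => chk (ent L2036 s)) 0 = true := by decide +kernel
theorem p2036 : PrL chk L2036 := leafL c2036

theorem c2037 : lp7 (fun s => chk (ent L2037 s)) 0 = true := by decide +kernel
theorem p2037 : PrL chk L2037 := leafL c2037

theorem c2038 : lp7 (fun s => chk (ent L2038 s)) 0 = true := by decide +kernel
theorem p2038 : PrL chk L2038 := leafL c2038

theorem c2039 : lp7 (fun s => chk (ent L2039 s)) 0 = true := by decide +kernel
theorem p2039 : PrL chk L2039 := leafL c2039

theorem c2040 : lp7 (fun s => chk (ent L2040 s)) 0 = true := by decide +kernel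
theorem p2040 : PrL chk L2040 := leafL c2040

theorem c2041 : lp7 (fun s => chk (ent L2041 s)) 0 = true := by decide +kernel
theorem p2041 : PrL chk L2041 := leafL c2041

theorem c2042 : lp7 (fun s => chk (ent L2042 s)) 0 = true := by decide +kernel
theorem p2042 : PrL chk L2042 := leafL c2042

theorem c2043 : lp7 (fun s => chk (ent L2043 s)) 0 = true := by decide +kernel
theorem p2043 : PrL chk L2043 := leafL c2043

theorem c2044 : lp7 (fun s => chk (ent L2044 s)) 0 = true := by decide +kernel
theorem p2044 : PrL chk L2044 := leafL c2044

theorem c2045 : lp7 (fun s => chk (ent L2045 s)) 0 = true := by decide +kernel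
theorem p2045 : PrL chk L2045 := leafL c2045

theorem c2046 : lp7 (fun s => chk (ent L2046 s)) 0 = true := by decide +kernel
theorem p2046 : PrL chk L2046 := leafL c2046

theorem c2047 : lp7 (fun s => chk (ent L2047 s)) 0 = true := by decide +kernel
theorem p2047 : PrL chk L2047 := leafL c2047

end Pool.Agent.ad013a.LA
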