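import Pool.Agent.H.MP_ad013a_pr.h63l.A.T
import Pool.Agent.H.MP_ad013a_pr.h63w.VLoop

namespace Pool.Agent.ad013a.LA

theorem c2048 : lp7 (fun s => chk (ent L2048 s)) 0 = true := by decide +kernel
theorem p2048 : PrL chk L2048 := leafL c2048

theorem c2049 : lp7 (fun s => chk (ent L2049 s)) 0 = true := by decide +kernel
theorem p2049 : PrL chk L2049 := leafL c2049

theorem c2050 : lp7 (fun s => chk (ent L2050 s)) 0 = true := by decide +kernel
theorem p2050 : PrL chk L2050 := leafL c2050

theorem c2051 : lp7 (fun s => chk (ent L2051 s)) 0 = true := by decide +kernel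
theorem p2051 : PrL chk L2051 := leafL c2051

theorem c2052 : lp7 (fun s => chk (ent L2052 s)) 0 = true := by decide +kernel
theorem p2052 : PrL chk L2052 := leafL c2052

theorem c2053 : lp7 (fun s => chk (ent L2053 s)) 0 = true := by decide +kernel
theorem p2053 : PrL chk L2053 := leafL c2053

theorem c2054 : lp7 (fun s => chk (ent L2054 s)) 0 = true := by decide +kernel
theorem p2054 : PrL chk L2054 := leafL c2054

theorem c2055 : lp7 (fun s => chk (ent L2055 s)) 0 = true := by decide +kernel
theorem p2055 : PrL chk L2055 := leafL c2055

theorem c2056 : lp7 (fun s => chk (ent L2056 s)) 0 = true := by decide +kernel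
theorem p2056 : PrL chk L2056 := leafL c2056

theorem c2057 : lp7 (fun s => chk (ent L2057 s)) 0 = true := by decide +kernel
theorem p2057 : PrL chk L2057 := leafL c2057

theorem c2058 : lp7 (fun s => chk (ent L2058 s)) 0 = true := by decide +kernel
theorem p2058 : PrL chk L2058 := leafL c2058

theorem c2059 : lp7 (fun s => chk (ent L2059 s)) 0 = true := by decide +kernel
theorem p2059 : PrL chk L2059 := leafL c2059

theorem c2060 : lp7 (fun s => chk (ent L2060 s)) 0 = true := by decide +kernel
theorem p2060 : PrL chk L2060 := leafL c2060

theorem c2061 : lp7 (fun s => chk (ent L2061 s)) 0 = true := by decide +kernel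
theorem p2061 : PrL chk L2061 := leafL c2061

theorem c2062 : lp7 (fun s => chk (ent L2062 s)) 0 = true := by decide +kernel
theorem p2062 : PrL chk L2062 := leafL c2062

theorem c2063 : lp7 (fun s => chk (ent L2063 s)) 0 = true := by decide +kernel
theorem p2063 : PrL chk L2063 := leafL c2063

theorem c2064 : lp7 (fun s => chk (ent L2064 s)) 0 = true := by decide +kernel
theorem p2064 : PrL chk L2064 := leafL c2064

theorem c2065 : lp7 (fun s => chk (ent L2065 s)) 0 = true := by decide +kernel
theorem p2065 : PrL chk L2065 := leafL c2065

theorem c2066 : lp7 (fun s => chk (ent L2066 s)) 0 = true := by decide +kernel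
theorem p2066 : PrL chk L2066 := leafL c2066

theorem c2067 : lp7 (fun s => chk (ent L2067 s)) 0 = true := by decide +kernel
theorem p2067 : PrL chk L2067 := leafL c2067

theorem c2068 : lp7 (fun s => chk (ent L2068 s)) 0 = true := by decide +kernel
theorem p2068 : PrL chk L2068 := leafL c2068

theorem c2069 : lp7 (fun s => chk (ent L2069 s)) 0 = true := by decide +kernel
theorem p2069 : PrL chk L2069 := leafL c2069

theorem c2070 : lp7 (fun s => chk (ent L2070 s)) 0 = true := by decide +kernel
theorem p2070 : PrL chk L2070 := leafL c2070

theorem c2071 : lp7 (fun s => chk (ent L2071 s)) 0 = true := by decide +kernel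
theorem p2071 : PrL chk L2071 := leafL c2071

theorem c2072 : lp7 (fun s => chk (ent L2072 s)) 0 = true := by decide +kernel
theorem p2072 : PrL chk L2072 := leafL c2072

theorem c2073 : lp7 (fun s => chk (ent L2073 s)) 0 = true := by decide +kernel
theorem p2073 : PrL chk L2073 := leafL c2073

theorem c2074 : lp7 (fun s => chk (ent L2074 s)) 0 = true := by decide +kernel
theorem p2074 : PrL chk L2074 := leafL c2074

theorem c2075 : lp7 (fun s => chk (ent L2075 s)) 0 = true := by decide +kernel
theorem p2075 : PrL chk L2075 := leafL c2075

theorem c2076 : lp7 (fun s => chk (ent L2076 s)) 0 = true := by decide +kernel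
theorem p2076 : PrL chk L2076 := leafL c2076

theorem c2077 : lp7 (fun s => chk (ent L2077 s)) 0 = true := by decide +kernel
theorem p2077 : PrL chk L2077 := leafL c2077

theorem c2078 : lp7 (fun s => chk (ent L2078 s)) 0 = true := by decide +kernel
theorem p2078 : PrL chk L2078 := leafL c2078

theorem c2079 : lp7 (fun s => chk (ent L2079 s)) 0 = true := by decide +kernel
theorem p2079 : PrL chk L2079 := leafL c2079

theorem c2080 : lp7 (fun s => chk (ent L2080 s)) 0 = true := by decide +kernel
theorem p2080 : PrL chk L2080 := leafL c2080

theorem c2081 : lp7 (fun s => chk (ent L2081 s)) 0 = true := by decide +kernel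
theorem p2081 : PrL chk L2081 := leafL c2081

theorem c2082 : lp7 (fun s => chk (ent L2082 s)) 0 = true := by decide +kernel
theorem p2082 : PrL chk L2082 := leafL c2082

theorem c2083 : lp7 (fun s => chk (ent L2083 s)) 0 = true := by decide +kernel
theorem p2083 : PrL chk L2083 := leafL c2083

theorem c2084 : lp7 (fun s => chk (ent L2084 s)) 0 = true := by decide +kernel
theorem p2084 : PrL chk L2084 := leafL c2084

theorem c2085 : lp7 (fun s => chk (ent L2085 s)) 0 = true := by decide +kernel
theorem p2085 : PrL chk L2085 := leafL c2085

theorem c2086 : lp7 (fun s => chk (ent L2086 s)) 0 = true := by decide +kernel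
theorem p2086 : PrL chk L2086 := leafL c2086

theorem c2087 : lp7 (fun s => chk (ent L2087 s)) 0 = true := by decide +kernel
theorem p2087 : PrL chk L2087 := leafL c2087

theorem c2088 : lp7 (fun s => chk (ent L2088 s)) 0 = true := by decide +kernel
theorem p2088 : PrL chk L2088 := leafL c2088

theorem c2089 : lp7 (fun s => chk (ent L2089 s)) 0 = true := by decide +kernel
theorem p2089 : PrL chk L2089 := leafL c2089

theorem c2090 : lp7 (fun s => chk (ent L2090 s)) 0 = true := by decide +kernel
theorem p2090 : PrL chk L2090 := leafL c2090

theorem c2091 : lp7 (fun s => chk (ent L2091 s)) 0 = true := by decide +kernel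
theorem p2091 : PrL chk L2091 := leafL c2091

theorem c2092 : lp7 (fun s => chk (ent L2092 s)) 0 = true := by decide +kernel
theorem p2092 : PrL chk L2092 := leafL c2092

theorem c2093 : lp7 (fun s => chk (ent L2093 s)) 0 = true := by decide +kernel
theorem p2093 : PrL chk L2093 := leafL c2093

theorem c2094 : lp7 (fun s => chk (ent L2094 s)) 0 = true := by decide +kernel
theorem p2094 : PrL chk L2094 := leafL c2094

theorem c2095 : lp7 (fun s => chk (ent L2095 s)) 0 = true := by decide +kernel
theorem p2095 : PrL chk L2095 := leafL c2095

theorem c2096 : lp7 (fun s => chk (ent L2096 s)) 0 = true := by decide +kernel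
theorem p2096 : PrL chk L2096 := leafL c2096

theorem c2097 : lp7 (fun s => chk (ent L2097 s)) 0 = true := by decide +kernel
theorem p2097 : PrL chk L2097 := leafL c2097

theorem c2098 : lp7 (fun s => chk (ent L2098 s)) 0 = true := by decide +kernel
theorem p2098 : PrL chk L2098 := leafL c2098

theorem c2099 : lp7 (fun s => chk (ent L2099 s)) 0 = true := by decide +kernel
theorem p2099 : PrL chk L2099 := leafL c2099

theorem c2100 : lp7 (fun s => chk (ent L2100 s)) 0 = true := by decide +kernel
theorem p2100 : PrL chk L2100 := leafL c2100

theorem c2101 : lp7 (fun s => chk (ent L2101 s)) 0 = true := by decide +kernel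
theorem p2101 : PrL chk L2101 := leafL c2101

theorem c2102 : lp7 (fun s => chk (ent L2102 s)) 0 = true := by decide +kernel
theorem p2102 : PrL chk L2102 := leafL c2102

theorem c2103 : lp7 (fun s => chk (ent L2103 s)) 0 = true := by decide +kernel
theorem p2103 : PrL chk L2103 := leafL c2103

theorem c2104 : lp7 (fun s => chk (ent L2104 s)) 0 = true := by decide +kernel
theorem p2104 : PrL chk L2104 := leafL c2104

theorem c2105 : lp7 (fun s => chk (ent L2105 s)) 0 = true := by decide +kernel
theorem p2105 : PrL chk L2105 := leafL c2105

theorem c2106 : lp7 (fun s => chk (ent L2106 s)) 0 = true := by decide +kernel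
theorem p2106 : PrL chk L2106 := leafL c2106

theorem c2107 : lp7 (fun s => chk (ent L2107 s)) 0 = true := by decide +kernel
theorem p2107 : PrL chk L2107 := leafL c2107

theorem c2108 : lp7 (fun s => chk (ent L2108 s)) 0 = true := by decide +kernel
theorem p2108 : PrL chk L2108 := leafL c2108

theorem c2109 : lp7 (fun s => chk (ent L2109 s)) 0 = true := by decide +kernel
theorem p2109 : PrL chk L2109 := leafL c2109

theorem c2110 : lp7 (fun s => chk (ent L2110 s)) 0 = true := by decide +kernel
theorem p2110 : PrL chk L2110 := leafL c2110

theorem c2111 : lp7 (fun s => chk (ent L2111 s)) 0 = true := by decide +kernel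
theorem p2111 : PrL chk L2111 := leafL c2111

theorem c2112 : lp7 (fun s => chk (ent L2112 s)) 0 = true := by decide +kernel
theorem p2112 : PrL chk L2112 := leafL c2112

theorem c2113 : lp7 (fun s => chk (ent L2113 s)) 0 = true := by decide +kernel
theorem p2113 : PrL chk L2113 := leafL c2113

theorem c2114 : lp7 (fun s => chk (ent L2114 s)) 0 = true := by decide +kernel
theorem p2114 : PrL chk L2114 := leafL c2114

theorem c2115 : lp7 (fun s => chk (ent L2115 s)) 0 = true := by decide +kernel
theorem p2115 : PrL chk L2115 := leafL c2115

theorem c2116 : lp7 (fun s => chk (ent L2116 s)) 0 = true := by decide +kernel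
theorem p2116 : PrL chk L2116 := leafL c2116

theorem c2117 : lp7 (fun s => chk (ent L2117 s)) 0 = true := by decide +kernel
theorem p2117 : PrL chk L2117 := leafL c2117

theorem c2118 : lp7 (fun s => chk (ent L2118 s)) 0 = true := by decide +kernel
theorem p2118 : PrL chk L2118 := leafL c2118

theorem c2119 : lp7 (fun s => chk (ent L2119 s)) 0 = true := by decide +kernel
theorem p2119 : PrL chk L2119 := leafL c2119

theorem c2120 : lp7 (fun s => chk (ent L2120 s)) 0 = true := by decide +kernel
theorem p2120 : PrL chk L2120 := leafL c2120

theorem c2121 : lp7 (fun s => chk (ent L2121 s)) 0 = true := by decide +kernel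
theorem p2121 : PrL chk L2121 := leafL c2121

theorem c2122 : lp7 (fun s => chk (ent L2122 s)) 0 = true := by decide +kernel
theorem p2122 : PrL chk L2122 := leafL c2122

theorem c2123 : lp7 (fun s => chk (ent L2123 s)) 0 = true := by decide +kernel
theorem p2123 : PrL chk L2123 := leafL c2123

theorem c2124 : lp7 (fun s => chk (ent L2124 s)) 0 = true := by decide +kernel
theorem p2124 : PrL chk L2124 := leafL c2124

theorem c2125 : lp7 (fun s => chk (ent L2125 s)) 0 = true := by decide +kernel
theorem p2125 : PrL chk L2125 := leafL c2125

theorem c2126 : lp7 (fun s => chk (ent L2126 s)) 0 = true := by decide +kernel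
theorem p2126 : PrL chk L2126 := leafL c2126

theorem c2127 : lp7 (fun s => chk (ent L2127 s)) 0 = true := by decide +kernel
theorem p2127 : PrL chk L2127 := leafL c2127

theorem c2128 : lp7 (fun s => chk (ent L2128 s)) 0 = true := by decide +kernel
theorem p2128 : PrL chk L2128 := leafL c2128

theorem c2129 : lp7 (fun s => chk (ent L2129 s)) 0 = true := by decide +kernel
theorem p2129 : PrL chk L2129 := leafL c2129

theorem c2130 : lp7 (fun s => chk (ent L2130 s)) 0 = true := by decide +kernel
theorem p2130 : PrL chk L2130 := leafL c2130

theorem c2131 : lp7 (fun s => chk (ent L2131 s)) 0 = true := by decide +kernel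
theorem p2131 : PrL chk L2131 := leafL c2131

theorem c2132 : lp7 (fun s => chk (ent L2132 s)) 0 = true := by decide +kernel
theorem p2132 : PrL chk L2132 := leafL c2132

theorem c2133 : lp7 (fun s => chk (ent L2133 s)) 0 = true := by decide +kernel
theorem p2133 : PrL chk L2133 := leafL c2133

theorem c2134 : lp7 (fun s => chk (ent L2134 s)) 0 = true := by decide +kernel
theorem p2134 : PrL chk L2134 := leafL c2134

theorem c2135 : lp7 (fun s => chk (ent L2135 s)) 0 = true := by decide +kernel
theorem p2135 : PrL chk L2135 := leafL c2135

theorem c2136 : lp7 (fun s => chk (ent L2136 s)) 0 = true := by decide +kernel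
theorem p2136 : PrL chk L2136 := leafL c2136

theorem c2137 : lp7 (fun s => chk (ent L2137 s)) 0 = true := by decide +kernel
theorem p2137 : PrL chk L2137 := leafL c2137

theorem c2138 : lp7 (fun s => chk (ent L2138 s)) 0 = true := by decide +kernel
theorem p2138 : PrL chk L2138 := leafL c2138

theorem c2139 : lp7 (fun s => chk (ent L2139 s)) 0 = true := by decide +kernel
theorem p2139 : PrL chk L2139 := leafL c2139

theorem c2140 : lp7 (fun s => chk (ent L2140 s)) 0 = true := by decide +kernel
theorem p2140 : PrL chk L2140 := leafL c2140

theorem c2141 : lp7 (fun s => chk (ent L2141 s)) 0 = true := by decide +kernel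
theorem p2141 : PrL chk L2141 := leafL c2141

theorem c2142 : lp7 (fun s => chk (ent L2142 s)) 0 = true := by decide +kernel
theorem p2142 : PrL chk L2142 := leafL c2142

theorem c2143 : lp7 (fun s => chk (ent L2143 s)) 0 = true := by decide +kernel
theorem p2143 : PrL chk L2143 := leafL c2143

theorem c2144 : lp7 (fun s => chk (ent L2144 s)) 0 = true := by decide +kernel
theorem p2144 : PrL chk L2144 := leafL c2144

theorem c2145 : lp7 (fun s => chk (ent L2145 s)) 0 = true := by decide +kernel
theorem p2145 : PrL chk L2145 := leafL c2145

theorem c2146 : lp7 (fun s => chk (ent L2146 s)) 0 = true := by decide +kernel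
theorem p2146 : PrL chk L2146 := leafL c2146

theorem c2147 : lp7 (fun s => chk (ent L2147 s)) 0 = true := by decide +kernel
theorem p2147 : PrL chk L2147 := leafL c2147

theorem c2148 : lp7 (fun s => chk (ent L2148 s)) 0 = true := by decide +kernel
theorem p2148 : PrL chk L2148 := leafL c2148

theorem c2149 : lp7 (fun s => chk (ent L2149 s)) 0 = true := by decide +kernel
theorem p2149 : PrL chk L2149 := leafL c2149

theorem c2150 : lp7 (fun s => chk (ent L2150 s)) 0 = true := by decide +kernel
theorem p2150 : PrL chk L2150 := leafL c2150

theorem c2151 : lp7 (fun s => chk (ent L2151 s)) 0 = true := by decide +kernel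
theorem p2151 : PrL chk L2151 := leafL c2151

theorem c2152 : lp7 (fun s => chk (ent L2152 s)) 0 = true := by decide +kernel
theorem p2152 : PrL chk L2152 := leafL c2152

theorem c2153 : lp7 (fun s => chk (ent L2153 s)) 0 = true := by decide +kernel
theorem p2153 : PrL chk L2153 := leafL c2153

theorem c2154 : lp7 (fun s => chk (ent L2154 s)) 0 = true := by decide +kernel
theorem p2154 : PrL chk L2154 := leafL c2154

theorem c2155 : lp7 (fun s => chk (ent L2155 s)) 0 = true := by decide +kernel
theorem p2155 : PrL chk L2155 := leafL c2155

theorem c2156 : lp7 (fun s => chk (ent L2156 s)) 0 = true := by decide +kernel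
theorem p2156 : PrL chk L2156 := leafL c2156

theorem c2157 : lp7 (fun s => chk (ent L2157 s)) 0 = true := by decide +kernel
theorem p2157 : PrL chk L2157 := leafL c2157

theorem c2158 : lp7 (fun s => chk (ent L2158 s)) 0 = true := by decide +kernel
theorem p2158 : PrL chk L2158 := leafL c2158

theorem c2159 : lp7 (fun s => chk (ent L2159 s)) 0 = true := by decide +kernel
theorem p2159 : PrL chk L2159 := leafL c2159

theorem c2160 : lp7 (fun s => chk (ent L2160 s)) 0 = true := by decide +kernel
theorem p2160 : PrL chk L2160 := leafL c2160

theorem c2161 : lp7 (fun s => chk (ent L2161 s)) 0 = true := by decide +kernel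
theorem p2161 : PrL chk L2161 := leafL c2161

theorem c2162 : lp7 (fun s => chk (ent L2162 s)) 0 = true := by decide +kernel
theorem p2162 : PrL chk L2162 := leafL c2162

theorem c2163 : lp7 (fun s => chk (ent L2163 s)) 0 = true := by decide +kernel
theorem p2163 : PrL chk L2163 := leafL c2163

theorem c2164 : lp7 (fun s => chk (ent L2164 s)) 0 = true := by decide +kernel
theorem p2164 : PrL chk L2164 := leafL c2164

theorem c2165 : lp7 (fun s => chk (ent L2165 s)) 0 = true := by decide +kernel
theorem p2165 : PrL chk L2165 := leafL c2165

theorem c2166 : lp7 (fun s => chk (ent L2166 s)) 0 = true := by decide +kernel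
theorem p2166 : PrL chk L2166 := leafL c2166

theorem c2167 : lp7 (fun s => chk (ent L2167 s)) 0 = true := by decide +kernel
theorem p2167 : PrL chk L2167 := leafL c2167

theorem c2168 : lp7 (fun s => chk (ent L2168 s)) 0 = true := by decide +kernel
theorem p2168 : PrL chk L2168 := leafL c2168

theorem c2169 : lp7 (fun s => chk (ent L2169 s)) 0 = true := by decide +kernel
theorem p2169 : PrL chk L2169 := leafL c2169

theorem c2170 : lp7 (fun s => chk (ent L2170 s)) 0 = true := by decide +kernel
theorem p2170 : PrL chk L2170 := leafL c2170

theorem c2171 : lp7 (fun s => chk (ent L2171 s)) 0 = true := by decide +kernel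
theorem p2171 : PrL chk L2171 := leafL c2171

theorem c2172 : lp7 (fun s => chk (ent L2172 s)) 0 = true := by decide +kernel
theorem p2172 : PrL chk L2172 := leafL c2172

theorem c2173 : lp7 (fun s => chk (ent L2173 s)) 0 = true := by decide +kernel
theorem p2173 : PrL chk L2173 := leafL c2173

theorem c2174 : lp7 (fun s => chk (ent L2174 s)) 0 = true := by decide +kernel
theorem p2174 : PrL chk L2174 := leafL c2174

theorem c2175 : lp7 (fun s => chk (ent L2175 s)) 0 = true := by decide +kernel
theorem p2175 : PrL chk L2175 := leafL c2175

theorem c2176 : lp7 (fun s => chk (ent L2176 s)) 0 = true := by decide +kernel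
theorem p2176 : PrL chk L2176 := leafL c2176

theorem c2177 : lp7 (fun s => chk (ent L2177 s)) 0 = true := by decide +kernel
theorem p2177 : PrL chk L2177 := leafL c2177

theorem c2178 : lp7 (fun s => chk (ent L2178 s)) 0 = true := by decide +kernel
theorem p2178 : PrL chk L2178 := leafL c2178

theorem c2179 : lp7 (fun s => chk (ent L2179 s)) 0 = true := by decide +kernel
theorem p2179 : PrL chk L2179 := leafL c2179

theorem c2180 : lp7 (fun s => chk (ent L2180 s)) 0 = true := by decide +kernel
theorem p2180 : PrL chk L2180 := leafL c2180

theorem c2181 : lp7 (fun s => chk (ent L2181 s)) 0 = true := by decide +kernel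
theorem p2181 : PrL chk L2181 := leafL c2181

theorem c2182 : lp7 (fun s => chk (ent L2182 s)) 0 = true := by decide +kernel
theorem p2182 : PrL chk L2182 := leafL c2182

theorem c2183 : lp7 (fun s => chk (ent L2183 s)) 0 = true := by decide +kernel
theorem p2183 : PrL chk L2183 := leafL c2183

theorem c2184 : lp7 (fun s => chk (ent L2184 s)) 0 = true := by decide +kernel
theorem p2184 : PrL chk L2184 := leafL c2184

theorem c2185 : lp7 (fun s => chk (ent L2185 s)) 0 = true := by decide +kernel
theorem p2185 : PrL chk L2185 := leafL c2185

theorem c2186 : lp7 (fun s => chk (ent L2186 s)) 0 = true := by decide +kernel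
theorem p2186 : PrL chk L2186 := leafL c2186

theorem c2187 : lp7 (fun s => chk (ent L2187 s)) 0 = true := by decide +kernel
theorem p2187 : PrL chk L2187 := leafL c2187

theorem c2188 : lp7 (fun s => chk (ent L2188 s)) 0 = true := by decide +kernel
theorem p2188 : PrL chk L2188 := leafL c2188

theorem c2189 : lp7 (fun s => chk (ent L2189 s)) 0 = true := by decide +kernel
theorem p2189 : PrL chk L2189 := leafL c2189

theorem c2190 : lp7 (fun s => chk (ent L2190 s)) 0 = true := by decide +kernel
theorem p2190 : PrL chk L2190 := leafL c2190

theorem c2191 : lp7 (fun s => chk (ent L2191 s)) 0 = true := by decide +kernel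
theorem p2191 : PrL chk L2191 := leafL c2191

theorem c2192 : lp7 (fun s => chk (ent L2192 s)) 0 = true := by decide +kernel
theorem p2192 : PrL chk L2192 := leafL c2192

theorem c2193 : lp7 (fun s => chk (ent L2193 s)) 0 = true := by decide +kernel
theorem p2193 : PrL chk L2193 := leafL c2193

theorem c2194 : lp7 (fun s => chk (ent L2194 s)) 0 = true := by decide +kernel
theorem p2194 : PrL chk L2194 := leafL c2194

theorem c2195 : lp7 (fun s => chk (ent L2195 s)) 0 = true := by decide +kernel
theorem p2195 : PrL chk L2195 := leafL c2195

theorem c2196 : lp7 (fun s => chk (ent L2196 s)) 0 = true := by decide +kernel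
theorem p2196 : PrL chk L2196 := leafL c2196

theorem c2197 : lp7 (fun s => chk (ent L2197 s)) 0 = true := by decide +kernel
theorem p2197 : PrL chk L2197 := leafL c2197

theorem c2198 : lp7 (fun s => chk (ent L2198 s)) 0 = true := by decide +kernel
theorem p2198 : PrL chk L2198 := leafL c2198

theorem c2199 : lp7 (fun s => chk (ent L2199 s)) 0 = true := by decide +kernel
theorem p2199 : PrL chk L2199 := leafL c2199

theorem c2200 : lp7 (fun s => chk (ent L2200 s)) 0 = true := by decide +kernel
theorem p2200 : PrL chk L2200 := leafL c2200

theorem c2201 : lp7 (fun s => chk (ent L2201 s)) 0 = true := by decide +kernel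
theorem p2201 : PrL chk L2201 := leafL c2201

theorem c2202 : lp7 (fun s => chk (ent L2202 s)) 0 = true := by decide +kernel
theorem p2202 : PrL chk L2202 := leafL c2202

theorem c2203 : lp7 (fun s => chk (ent L2203 s)) 0 = true := by decide +kernel
theorem p2203 : PrL chk L2203 := leafL c2203

theorem c2204 : lp7 (fun s => chk (ent L2204 s)) 0 = true := by decide +kernel
theorem p2204 : PrL chk L2204 := leafL c2204

theorem c2205 : lp7 (fun s => chk (ent L2205 s)) 0 = true := by decide +kernel
theorem p2205 : PrL chk L2205 := leafL c2205

theorem c2206 : lp7 (fun s => chk (ent L2206 s)) 0 = true := by decide +kernel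
theorem p2206 : PrL chk L2206 := leafL c2206

theorem c2207 : lp7 (fun s => chk (ent L2207 s)) 0 = true := by decide +kernel
theorem p2207 : PrL chk L2207 := leafL c2207

theorem c2208 : lp7 (fun s => chk (ent L2208 s)) 0 = true := by decide +kernel
theorem p2208 : PrL chk L2208 := leafL c2208

theorem c2209 : lp7 (fun s => chk (ent L2209 s)) 0 = true := by decide +kernel
theorem p2209 : PrL chk L2209 := leafL c2209

theorem c2210 : lp7 (fun s => chk (ent L2210 s)) 0 = true := by decide +kernel
theorem p2210 : PrL chk L2210 := leafL c2210

theorem c2211 : lp7 (fun s => chk (ent L2211 s)) 0 = true := by decide +kernel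
theorem p2211 : PrL chk L2211 := leafL c2211

theorem c2212 : lp7 (fun s => chk (ent L2212 s)) 0 = true := by decide +kernel
theorem p2212 : PrL chk L2212 := leafL c2212

theorem c2213 : lp7 (fun s => chk (ent L2213 s)) 0 = true := by decide +kernel
theorem p2213 : PrL chk L2213 := leafL c2213

theorem c2214 : lp7 (fun s => chk (ent L2214 s)) 0 = true := by decide +kernel
theorem p2214 : PrL chk L2214 := leafL c2214

theorem c2215 : lp7 (fun s => chk (ent L2215 s)) 0 = true := by decide +kernel
theorem p2215 : PrL chk L2215 := leafL c2215

theorem c2216 : lp7 (fun s => chk (ent L2216 s)) 0 = true := by decide +kernel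
theorem p2216 : PrL chk L2216 := leafL c2216

theorem c2217 : lp7 (fun s => chk (ent L2217 s)) 0 = true := by decide +kernel
theorem p2217 : PrL chk L2217 := leafL c2217

theorem c2218 : lp7 (fun s => chk (ent L2218 s)) 0 = true := by decide +kernel
theorem p2218 : PrL chk L2218 := leafL c2218

theorem c2219 : lp7 (fun s => chk (ent L2219 s)) 0 = true := by decide +kernel
theorem p2219 : PrL chk L2219 := leafL c2219

theorem c2220 : lp7 (fun s => chk (ent L2220 s)) 0 = true := by decide +kernel
theorem p2220 : PrL chk L2220 := leafL c2220

theorem c2221 : lp7 (fun s => chk (ent L2221 s)) 0 = true := by decide +kernel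
theorem p2221 : PrL chk L2221 := leafL c2221

theorem c2222 : lp7 (fun s => chk (ent L2222 s)) 0 = true := by decide +kernel
theorem p2222 : PrL chk L2222 := leafL c2222

theorem c2223 : lp7 (fun s => chk (ent L2223 s)) 0 = true := by decide +kernel
theorem p2223 : PrL chk L2223 := leafL c2223

theorem c2224 : lp7 (fun s => chk (ent L2224 s)) 0 = true := by decide +kernel
theorem p2224 : PrL chk L2224 := leafL c2224

theorem c2225 : lp7 (fun s => chk (ent L2225 s)) 0 = true := by decide +kernel
theorem p2225 : PrL chk L2225 := leafL c2225

theorem c2226 : lp7 (fun s => chk (ent L2226 s)) 0 = true := by decide +kernel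
theorem p2226 : PrL chk L2226 := leafL c2226

theorem c2227 : lp7 (fun s => chk (ent L2227 s)) 0 = true := by decide +kernel
theorem p2227 : PrL chk L2227 := leafL c2227

theorem c2228 : lp7 (fun s => chk (ent L2228 s)) 0 = true := by decide +kernel
theorem p2228 : PrL chk L2228 := leafL c2228

theorem c2229 : lp7 (fun s => chk (ent L2229 s)) 0 = true := by decide +kernel
theorem p2229 : PrL chk L2229 := leafL c2229

theorem c2230 : lp7 (fun s => chk (ent L2230 s)) 0 = true := by decide +kernel
theorem p2230 : PrL chk L2230 := leafL c2230

theorem c2231 : lp7 (fun s => chk (ent L2231 s)) 0 = true := by decide +kernel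
theorem p2231 : PrL chk L2231 := leafL c2231

theorem c2232 : lp7 (fun s => chk (ent L2232 s)) 0 = true := by decide +kernel
theorem p2232 : PrL chk L2232 := leafL c2232

theorem c2233 : lp7 (fun s => chk (ent L2233 s)) 0 = true := by decide +kernel
theorem p2233 : PrL chk L2233 := leafL c2233

theorem c2234 : lp7 (fun s => chk (ent L2234 s)) 0 = true := by decide +kernel
theorem p2234 : PrL chk L2234 := leafL c2234

theorem c2235 : lp7 (fun s => chk (ent L2235 s)) 0 = true := by decide +kernel
theorem p2235 : PrL chk L2235 := leafL c2235

theorem c2236 : lp7 (fun s => chk (ent L2236 s)) 0 = true := by decide +kernel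
theorem p2236 : PrL chk L2236 := leafL c2236

theorem c2237 : lp7 (fun s => chk (ent L2237 s)) 0 = true := by decide +kernel
theorem p2237 : PrL chk L2237 := leafL c2237

theorem c2238 : lp7 (fun s => chk (ent L2238 s)) 0 = true := by decide +kernel
theorem p2238 : PrL chk L2238 := leafL c2238

theorem c2239 : lp7 (fun s => chk (ent L2239 s)) 0 = true := by decide +kernel
theorem p2239 : PrL chk L2239 := leafL c2239

theorem c2240 : lp7 (fun s => chk (ent L2240 s)) 0 = true := by decide +kernel
theorem p2240 : PrL chk L2240 := leafL c2240

theorem c2241 : lp7 (fun s => chk (ent L2241 s)) 0 = true := by decide +kernel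
theorem p2241 : PrL chk L2241 := leafL c2241

theorem c2242 : lp7 (fun s => chk (ent L2242 s)) 0 = true := by decide +kernel
theorem p2242 : PrL chk L2242 := leafL c2242

theorem c2243 : lp7 (fun s => chk (ent L2243 s)) 0 = true := by decide +kernel
theorem p2243 : PrL chk L2243 := leafL c2243

theorem c2244 : lp7 (fun s => chk (ent L2244 s)) 0 = true := by decide +kernel
theorem p2244 : PrL chk L2244 := leafL c2244

theorem c2245 : lp7 (fun s => chk (ent L2245 s)) 0 = true := by decide +kernel
theorem p2245 : PrL chk L2245 := leafL c2245

theorem c2246 : lp7 (fun s => chk (ent L2246 s)) 0 = true := by decide +kernel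
theorem p2246 : PrL chk L2246 := leafL c2246

theorem c2247 : lp7 (fun s => chk (ent L2247 s)) 0 = true := by decide +kernel
theorem p2247 : PrL chk L2247 := leafL c2247

theorem c2248 : lp7 (fun s => chk (ent L2248 s)) 0 = true := by decide +kernel
theorem p2248 : PrL chk L2248 := leafL c2248

theorem c2249 : lp7 (fun s => chk (ent L2249 s)) 0 = true := by decide +kernel
theorem p2249 : PrL chk L2249 := leafL c2249

theorem c2250 : lp7 (fun s => chk (ent L2250 s)) 0 = true := by decide +kernel
theorem p2250 : PrL chk L2250 := leafL c2250

theorem c2251 : lp7 (fun s => chk (ent L2251 s)) 0 = true := by decide +kernel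
theorem p2251 : PrL chk L2251 := leafL c2251

theorem c2252 : lp7 (fun s => chk (ent L2252 s)) 0 = true := by decide +kernel
theorem p2252 : PrL chk L2252 := leafL c2252

theorem c2253 : lp7 (fun s => chk (ent L2253 s)) 0 = true := by decide +kernel
theorem p2253 : PrL chk L2253 := leafL c2253

theorem c2254 : lp7 (fun s => chk (ent L2254 s)) 0 = true := by decide +kernel
theorem p2254 : PrL chk L2254 := leafL c2254

theorem c2255 : lp7 (fun s => chk (ent L2255 s)) 0 = true := by decide +kernel
theorem p2255 : PrL chk L2255 := leafL c2255

theorem c2256 : lp7 (fun s => chk (ent L2256 s)) 0 = true := by decide +kernel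
theorem p2256 : PrL chk L2256 := leafL c2256

theorem c2257 : lp7 (fun s => chk (ent L2257 s)) 0 = true := by decide +kernel
theorem p2257 : PrL chk L2257 := leafL c2257

theorem c2258 : lp7 (fun s => chk (ent L2258 s)) 0 = true := by decide +kernel
theorem p2258 : PrL chk L2258 := leafL c2258

theorem c2259 : lp7 (fun s => chk (ent L2259 s)) 0 = true := by decide +kernel
theorem p2259 : PrL chk L2259 := leafL c2259

theorem c2260 : lp7 (fun s => chk (ent L2260 s)) 0 = true := by decide +kernel
theorem p2260 : PrL chk L2260 := leafL c2260

theorem c2261 : lp7 (fun s => chk (ent L2261 s)) 0 = true := by decide +kernel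
theorem p2261 : PrL chk L2261 := leafL c2261

theorem c2262 : lp7 (fun s => chk (ent L2262 s)) 0 = true := by decide +kernel
theorem p2262 : PrL chk L2262 := leafL c2262

theorem c2263 : lp7 (fun s => chk (ent L2263 s)) 0 = true := by decide +kernel
theorem p2263 : PrL chk L2263 := leafL c2263

theorem c2264 : lp7 (fun s => chk (ent L2264 s)) 0 = true := by decide +kernel
theorem p2264 : PrL chk L2264 := leafL c2264

theorem c2265 : lp7 (fun s => chk (ent L2265 s)) 0 = true := by decide +kernel
theorem p2265 : PrL chk L2265 := leafL c2265

theorem c2266 : lp7 (fun s => chk (ent L2266 s)) 0 = true := by decide +kernel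
theorem p2266 : PrL chk L2266 := leafL c2266

theorem c2267 : lp7 (fun s => chk (ent L2267 s)) 0 = true := by decide +kernel
theorem p2267 : PrL chk L2267 := leafL c2267

theorem c2268 : lp7 (fun s => chk (ent L2268 s)) 0 = true := by decide +kernel
theorem p2268 : PrL chk L2268 := leafL c2268

theorem c2269 : lp7 (fun s => chk (ent L2269 s)) 0 = true := by decide +kernel
theorem p2269 : PrL chk L2269 := leafL c2269

theorem c2270 : lp7 (fun s => chk (ent L2270 s)) 0 = true := by decide +kernel
theorem p2270 : PrL chk L2270 := leafL c2270

theorem c2271 : lp7 (fun s => chk (ent L2271 s)) 0 = true := by decide +kernel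
theorem p2271 : PrL chk L2271 := leafL c2271

theorem c2272 : lp7 (fun s => chk (ent L2272 s)) 0 = true := by decide +kernel
theorem p2272 : PrL chk L2272 := leafL c2272

theorem c2273 : lp7 (fun s => chk (ent L2273 s)) 0 = true := by decide +kernel
theorem p2273 : PrL chk L2273 := leafL c2273

theorem c2274 : lp7 (fun s => chk (ent L2274 s)) 0 = true := by decide +kernel
theorem p2274 : PrL chk L2274 := leafL c2274

theorem c2275 : lp7 (fun s => chk (ent L2275 s)) 0 = true := by decide +kernel
theorem p2275 : PrL chk L2275 := leafL c2275

theorem c2276 : lp7 (fun s => chk (ent L2276 s)) 0 = true := by decide +kernel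
theorem p2276 : PrL chk L2276 := leafL c2276

theorem c2277 : lp7 (fun s => chk (ent L2277 s)) 0 = true := by decide +kernel
theorem p2277 : PrL chk L2277 := leafL c2277

theorem c2278 : lp7 (fun s => chk (ent L2278 s)) 0 = true := by decide +kernel
theorem p2278 : PrL chk L2278 := leafL c2278

theorem c2279 : lp7 (fun s => chk (ent L2279 s)) 0 = true := by decide +kernel
theorem p2279 : PrL chk L2279 := leafL c2279

theorem c2280 : lp7 (fun s => chk (ent L2280 s)) 0 = true := by decide +kernel
theorem p2280 : PrL chk L2280 := leafL c2280

theorem c2281 : lp7 (fun s => chk (ent L2281 s)) 0 = true := by decide +kernel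
theorem p2281 : PrL chk L2281 := leafL c2281

theorem c2282 : lp7 (fun s => chk (ent L2282 s)) 0 = true := by decide +kernel
theorem p2282 : PrL chk L2282 := leafL c2282

theorem c2283 : lp7 (fun s => chk (ent L2283 s)) 0 = true := by decide +kernel
theorem p2283 : PrL chk L2283 := leafL c2283

theorem c2284 : lp7 (fun s => chk (ent L2284 s)) 0 = true := by decide +kernel
theorem p2284 : PrL chk L2284 := leafL c2284

theorem c2285 : lp7 (fun s => chk (ent L2285 s)) 0 = true := by decide +kernel
theorem p2285 : PrL chk L2285 := leafL c2285

theorem c2286 : lp7 (fun s => chk (ent L2286 s)) 0 = true := by decide +kernel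
theorem p2286 : PrL chk L2286 := leafL c2286

theorem c2287 : lp7 (fun s => chk (ent L2287 s)) 0 = true := by decide +kernel
theorem p2287 : PrL chk L2287 := leafL c2287

theorem c2288 : lp7 (fun s => chk (ent L2288 s)) 0 = true := by decide +kernel
theorem p2288 : PrL chk L2288 := leafL c2288

theorem c2289 : lp7 (fun s => chk (ent L2289 s)) 0 = true := by decide +kernel
theorem p2289 : PrL chk L2289 := leafL c2289

theorem c2290 : lp7 (fun s => chk (ent L2290 s)) 0 = true := by decide +kernel
theorem p2290 : PrL chk L2290 := leafL c2290

theorem c2291 : lp7 (fun s => chk (ent L2291 s)) 0 = true := by decide +kernel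
theorem p2291 : PrL chk L2291 := leafL c2291

theorem c2292 : lp7 (fun s => chk (ent L2292 s)) 0 = true := by decide +kernel
theorem p2292 : PrL chk L2292 := leafL c2292

theorem c2293 : lp7 (fun s => chk (ent L2293 s)) 0 = true := by decide +kernel
theorem p2293 : PrL chk L2293 := leafL c2293

theorem c2294 : lp7 (fun s => chk (ent L2294 s)) 0 = true := by decide +kernel
theorem p2294 : PrL chk L2294 := leafL c2294

theorem c2295 : lp7 (fun s => chk (ent L2295 s)) 0 = true := by decide +kernel
theorem p2295 : PrL chk L2295 := leafL c2295

theorem c2296 : lp7 (fun s => chk (ent L2296 s)) 0 = true := by decide +kernel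
theorem p2296 : PrL chk L2296 := leafL c2296

theorem c2297 : lp7 (fun s => chk (ent L2297 s)) 0 = true := by decide +kernel
theorem p2297 : PrL chk L2297 := leafL c2297

theorem c2298 : lp7 (fun s => chk (ent L2298 s)) 0 = true := by decide +kernel
theorem p2298 : PrL chk L2298 := leafL c2298

theorem c2299 : lp7 (fun s => chk (ent L2299 s)) 0 = true := by decide +kernel
theorem p2299 : PrL chk L2299 := leafL c2299

theorem c2300 : lp7 (fun s => chk (ent L2300 s)) 0 = true := by decide +kernel
theorem p2300 : PrL chk L2300 := leafL c2300

theorem c2301 : lp7 (fun s => chk (ent L2301 s)) 0 = true := by decide +kernel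
theorem p2301 : PrL chk L2301 := leafL c2301

theorem c2302 : lp7 (fun s => chk (ent L2302 s)) 0 = true := by decide +kernel
theorem p2302 : PrL chk L2302 := leafL c2302

theorem c2303 : lp7 (fun s => chk (ent L2303 s)) 0 = true := by decide +kernel
theorem p2303 : PrL chk L2303 := leafL c2303

end Pool.Agent.ad013a.LA
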