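import Pool.Agent.H.MP_ad013a_pr.h63l.A.T
import Pool.Agent.H.MP_ad013a_pr.h63w.VLoop

namespace Pool.Agent.ad013a.LA

theorem c2304 : lp7 (fun s => chk (ent L2304 s)) 0 = true := by decide +kernel
theorem p2304 : PrL chk L2304 := leafL c2304

theorem c2305 : lp7 (fun s => chk (ent L2305 s)) 0 = true := by decide +kernel
theorem p2305 : PrL chk L2305 := leafL c2305

theorem c2306 : lp7 (fun s => chk (ent L2306 s)) 0 = true := by decide +kernel
theorem p2306 : PrL chk L2306 := leafL c2306

theorem c2307 : lp7 (fun s => chk (ent L2307 s)) 0 = true := by decide +kernel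
theorem p2307 : PrL chk L2307 := leafL c2307

theorem c2308 : lp7 (fun s => chk (ent L2308 s)) 0 = true := by decide +kernel
theorem p2308 : PrL chk L2308 := leafL c2308

theorem c2309 : lp7 (fun s => chk (ent L2309 s)) 0 = true := by decide +kernel
theorem p2309 : PrL chk L2309 := leafL c2309

theorem c2310 : lp7 (fun s => chk (ent L2310 s)) 0 = true := by decide +kernel
theorem p2310 : PrL chk L2310 := leafL c2310

theorem c2311 : lp7 (fun s => chk (ent L2311 s)) 0 = true := by decide +kernel
theorem p2311 : PrL chk L2311 := leafL c2311

theorem c2312 : lp7 (fun s => chk (ent L2312 s)) 0 = true := by decide +kernel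
theorem p2312 : PrL chk L2312 := leafL c2312

theorem c2313 : lp7 (fun s => chk (ent L2313 s)) 0 = true := by decide +kernel
theorem p2313 : PrL chk L2313 := leafL c2313

theorem c2314 : lp7 (fun s => chk (ent L2314 s)) 0 = true := by decide +kernel
theorem p2314 : PrL chk L2314 := leafL c2314

theorem c2315 : lp7 (fun s => chk (ent L2315 s)) 0 = true := by decide +kernel
theorem p2315 : PrL chk L2315 := leafL c2315

theorem c2316 : lp7 (fun s => chk (ent L2316 s)) 0 = true := by decide +kernel
theorem p2316 : PrL chk L2316 := leafL c2316

theorem c2317 : lp7 (fun s => chk (ent L2317 s)) 0 = true := by decide +kernel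
theorem p2317 : PrL chk L2317 := leafL c2317

theorem c2318 : lp7 (fun s => chk (ent L2318 s)) 0 = true := by decide +kernel
theorem p2318 : PrL chk L2318 := leafL c2318

theorem c2319 : lp7 (fun s => chk (ent L2319 s)) 0 = true := by decide +kernel
theorem p2319 : PrL chk L2319 := leafL c2319

theorem c2320 : lp7 (fun s => chk (ent L2320 s)) 0 = true := by decide +kernel
theorem p2320 : PrL chk L2320 := leafL c2320

theorem c2321 : lp7 (fun s => chk (ent L2321 s)) 0 = true := by decide +kernel
theorem p2321 : PrL chk L2321 := leafL c2321

theorem c2322 : lp7 (fun s => chk (ent L2322 s)) 0 = true := by decide +kernel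
theorem p2322 : PrL chk L2322 := leafL c2322

theorem c2323 : lp7 (fun s => chk (ent L2323 s)) 0 = true := by decide +kernel
theorem p2323 : PrL chk L2323 := leafL c2323

theorem c2324 : lp7 (fun s => chk (ent L2324 s)) 0 = true := by decide +kernel
theorem p2324 : PrL chk L2324 := leafL c2324

theorem c2325 : lp7 (fun s => chk (ent L2325 s)) 0 = true := by decide +kernel
theorem p2325 : PrL chk L2325 := leafL c2325

theorem c2326 : lp7 (fun s => chk (ent L2326 s)) 0 = true := by decide +kernel
theorem p2326 : PrL chk L2326 := leafL c2326

theorem c2327 : lp7 (fun s => chk (ent L2327 s)) 0 = true := by decide +kernel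
theorem p2327 : PrL chk L2327 := leafL c2327

theorem c2328 : lp7 (fun s => chk (ent L2328 s)) 0 = true := by decide +kernel
theorem p2328 : PrL chk L2328 := leafL c2328

theorem c2329 : lp7 (fun s => chk (ent L2329 s)) 0 = true := by decide +kernel
theorem p2329 : PrL chk L2329 := leafL c2329

theorem c2330 : lp7 (fun s => chk (ent L2330 s)) 0 = true := by decide +kernel
theorem p2330 : PrL chk L2330 := leafL c2330

theorem c2331 : lp7 (fun s => chk (ent L2331 s)) 0 = true := by decide +kernel
theorem p2331 : PrL chk L2331 := leafL c2331

theorem c2332 : lp7 (fun s => chk (ent L2332 s)) 0 = true := by decide +kernel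
theorem p2332 : PrL chk L2332 := leafL c2332

theorem c2333 : lp7 (fun s => chk (ent L2333 s)) 0 = true := by decide +kernel
theorem p2333 : PrL chk L2333 := leafL c2333

theorem c2334 : lp7 (fun s => chk (ent L2334 s)) 0 = true := by decide +kernel
theorem p2334 : PrL chk L2334 := leafL c2334

theorem c2335 : lp7 (fun s => chk (ent L2335 s)) 0 = true := by decide +kernel
theorem p2335 : PrL chk L2335 := leafL c2335

theorem c2336 : lp7 (fun s => chk (ent L2336 s)) 0 = true := by decide +kernel
theorem p2336 : PrL chk L2336 := leafL c2336

theorem c2337 : lp7 (fun s => chk (ent L2337 s)) 0 = true := by decide +kernel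
theorem p2337 : PrL chk L2337 := leafL c2337

theorem c2338 : lp7 (fun s => chk (ent L2338 s)) 0 = true := by decide +kernel
theorem p2338 : PrL chk L2338 := leafL c2338

theorem c2339 : lp7 (fun s => chk (ent L2339 s)) 0 = true := by decide +kernel
theorem p2339 : PrL chk L2339 := leafL c2339

theorem c2340 : lp7 (fun s => chk (ent L2340 s)) 0 = true := by decide +kernel
theorem p2340 : PrL chk L2340 := leafL c2340

theorem c2341 : lp7 (fun s => chk (ent L2341 s)) 0 = true := by decide +kernel
theorem p2341 : PrL chk L2341 := leafL c2341

theorem c2342 : lp7 (fun s => chk (ent L2342 s)) 0 = true := by decide +kernel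
theorem p2342 : PrL chk L2342 := leafL c2342

theorem c2343 : lp7 (fun s => chk (ent L2343 s)) 0 = true := by decide +kernel
theorem p2343 : PrL chk L2343 := leafL c2343

theorem c2344 : lp7 (fun s => chk (ent L2344 s)) 0 = true := by decide +kernel
theorem p2344 : PrL chk L2344 := leafL c2344

theorem c2345 : lp7 (fun s => chk (ent L2345 s)) 0 = true := by decide +kernel
theorem p2345 : PrL chk L2345 := leafL c2345

theorem c2346 : lp7 (fun s => chk (ent L2346 s)) 0 = true := by decide +kernel
theorem p2346 : PrL chk L2346 := leafL c2346

theorem c2347 : lp7 (fun s => chk (ent L2347 s)) 0 = true := by decide +kernel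
theorem p2347 : PrL chk L2347 := leafL c2347

theorem c2348 : lp7 (fun s => chk (ent L2348 s)) 0 = true := by decide +kernel
theorem p2348 : PrL chk L2348 := leafL c2348

theorem c2349 : lp7 (fun s => chk (ent L2349 s)) 0 = true := by decide +kernel
theorem p2349 : PrL chk L2349 := leafL c2349

theorem c2350 : lp7 (fun s => chk (ent L2350 s)) 0 = true := by decide +kernel
theorem p2350 : PrL chk L2350 := leafL c2350

theorem c2351 : lp7 (fun s => chk (ent L2351 s)) 0 = true := by decide +kernel
theorem p2351 : PrL chk L2351 := leafL c2351

theorem c2352 : lp7 (fun s => chk (ent L2352 s)) 0 = true := by decide +kernel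
theorem p2352 : PrL chk L2352 := leafL c2352

theorem c2353 : lp7 (fun s => chk (ent L2353 s)) 0 = true := by decide +kernel
theorem p2353 : PrL chk L2353 := leafL c2353

theorem c2354 : lp7 (fun s => chk (ent L2354 s)) 0 = true := by decide +kernel
theorem p2354 : PrL chk L2354 := leafL c2354

theorem c2355 : lp7 (fun s => chk (ent L2355 s)) 0 = true := by decide +kernel
theorem p2355 : PrL chk L2355 := leafL c2355

theorem c2356 : lp7 (fun s => chk (ent L2356 s)) 0 = true := by decide +kernel
theorem p2356 : PrL chk L2356 := leafL c2356

theorem c2357 : lp7 (fun s => chk (ent L2357 s)) 0 = true := by decide +kernel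
theorem p2357 : PrL chk L2357 := leafL c2357

theorem c2358 : lp7 (fun s => chk (ent L2358 s)) 0 = true := by decide +kernel
theorem p2358 : PrL chk L2358 := leafL c2358

theorem c2359 : lp7 (fun s => chk (ent L2359 s)) 0 = true := by decide +kernel
theorem p2359 : PrL chk L2359 := leafL c2359

theorem c2360 : lp7 (fun s => chk (ent L2360 s)) 0 = true := by decide +kernel
theorem p2360 : PrL chk L2360 := leafL c2360

theorem c2361 : lp7 (fun s => chk (ent L2361 s)) 0 = true := by decide +kernel
theorem p2361 : PrL chk L2361 := leafL c2361

theorem c2362 : lp7 (fun s => chk (ent L2362 s)) 0 = true := by decide +kernel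
theorem p2362 : PrL chk L2362 := leafL c2362

theorem c2363 : lp7 (fun s => chk (ent L2363 s)) 0 = true := by decide +kernel
theorem p2363 : PrL chk L2363 := leafL c2363

theorem c2364 : lp7 (fun s => chk (ent L2364 s)) 0 = true := by decide +kernel
theorem p2364 : PrL chk L2364 := leafL c2364

theorem c2365 : lp7 (fun s => chk (ent L2365 s)) 0 = true := by decide +kernel
theorem p2365 : PrL chk L2365 := leafL c2365

theorem c2366 : lp7 (fun s => chk (ent L2366 s)) 0 = true := by decide +kernel
theorem p2366 : PrL chk L2366 := leafL c2366

theorem c2367 : lp7 (fun s => chk (ent L2367 s)) 0 = true := by decide +kernel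
theorem p2367 : PrL chk L2367 := leafL c2367

theorem c2368 : lp7 (fun s => chk (ent L2368 s)) 0 = true := by decide +kernel
theorem p2368 : PrL chk L2368 := leafL c2368

theorem c2369 : lp7 (fun s => chk (ent L2369 s)) 0 = true := by decide +kernel
theorem p2369 : PrL chk L2369 := leafL c2369

theorem c2370 : lp7 (fun s => chk (ent L2370 s)) 0 = true := by decide +kernel
theorem p2370 : PrL chk L2370 := leafL c2370

theorem c2371 : lp7 (fun s => chk (ent L2371 s)) 0 = true := by decide +kernel
theorem p2371 : PrL chk L2371 := leafL c2371

theorem c2372 : lp7 (fun s => chk (ent L2372 s)) 0 = true := by decide +kernel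
theorem p2372 : PrL chk L2372 := leafL c2372

theorem c2373 : lp7 (fun s => chk (ent L2373 s)) 0 = true := by decide +kernel
theorem p2373 : PrL chk L2373 := leafL c2373

theorem c2374 : lp7 (fun s => chk (ent L2374 s)) 0 = true := by decide +kernel
theorem p2374 : PrL chk L2374 := leafL c2374

theorem c2375 : lp7 (fun s => chk (ent L2375 s)) 0 = true := by decide +kernel
theorem p2375 : PrL chk L2375 := leafL c2375

theorem c2376 : lp7 (fun s => chk (ent L2376 s)) 0 = true := by decide +kernel
theorem p2376 : PrL chk L2376 := leafL c2376

theorem c2377 : lp7 (fun s => chk (ent L2377 s)) 0 = true := by decide +kernel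
theorem p2377 : PrL chk L2377 := leafL c2377

theorem c2378 : lp7 (fun s => chk (ent L2378 s)) 0 = true := by decide +kernel
theorem p2378 : PrL chk L2378 := leafL c2378

theorem c2379 : lp7 (fun s => chk (ent L2379 s)) 0 = true := by decide +kernel
theorem p2379 : PrL chk L2379 := leafL c2379

theorem c2380 : lp7 (fun s => chk (ent L2380 s)) 0 = true := by decide +kernel
theorem p2380 : PrL chk L2380 := leafL c2380

theorem c2381 : lp7 (fun s => chk (ent L2381 s)) 0 = true := by decide +kernel
theorem p2381 : PrL chk L2381 := leafL c2381

theorem c2382 : lp7 (fun s => chk (ent L2382 s)) 0 = true := by decide +kernel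
theorem p2382 : PrL chk L2382 := leafL c2382

theorem c2383 : lp7 (fun s => chk (ent L2383 s)) 0 = true := by decide +kernel
theorem p2383 : PrL chk L2383 := leafL c2383

theorem c2384 : lp7 (fun s => chk (ent L2384 s)) 0 = true := by decide +kernel
theorem p2384 : PrL chk L2384 := leafL c2384

theorem c2385 : lp7 (fun s => chk (ent L2385 s)) 0 = true := by decide +kernel
theorem p2385 : PrL chk L2385 := leafL c2385

theorem c2386 : lp7 (fun s => chk (ent L2386 s)) 0 = true := by decide +kernel
theorem p2386 : PrL chk L2386 := leafL c2386

theorem c2387 : lp7 (fun s => chk (ent L2387 s)) 0 = true := by decide +kernel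
theorem p2387 : PrL chk L2387 := leafL c2387

theorem c2388 : lp7 (fun s => chk (ent L2388 s)) 0 = true := by decide +kernel
theorem p2388 : PrL chk L2388 := leafL c2388

theorem c2389 : lp7 (fun s => chk (ent L2389 s)) 0 = true := by decide +kernel
theorem p2389 : PrL chk L2389 := leafL c2389

theorem c2390 : lp7 (fun s => chk (ent L2390 s)) 0 = true := by decide +kernel
theorem p2390 : PrL chk L2390 := leafL c2390

theorem c2391 : lp7 (fun s => chk (ent L2391 s)) 0 = true := by decide +kernel
theorem p2391 : PrL chk L2391 := leafL c2391

theorem c2392 : lp7 (fun s => chk (ent L2392 s)) 0 = true := by decide +kernel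
theorem p2392 : PrL chk L2392 := leafL c2392

theorem c2393 : lp7 (fun s => chk (ent L2393 s)) 0 = true := by decide +kernel
theorem p2393 : PrL chk L2393 := leafL c2393

theorem c2394 : lp7 (fun s => chk (ent L2394 s)) 0 = true := by decide +kernel
theorem p2394 : PrL chk L2394 := leafL c2394

theorem c2395 : lp7 (fun s => chk (ent L2395 s)) 0 = true := by decide +kernel
theorem p2395 : PrL chk L2395 := leafL c2395

theorem c2396 : lp7 (fun s => chk (ent L2396 s)) 0 = true := by decide +kernel
theorem p2396 : PrL chk L2396 := leafL c2396

theorem c2397 : lp7 (fun s => chk (ent L2397 s)) 0 = true := by decide +kernel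
theorem p2397 : PrL chk L2397 := leafL c2397

theorem c2398 : lp7 (fun s => chk (ent L2398 s)) 0 = true := by decide +kernel
theorem p2398 : PrL chk L2398 := leafL c2398

theorem c2399 : lp7 (fun s => chk (ent L2399 s)) 0 = true := by decide +kernel
theorem p2399 : PrL chk L2399 := leafL c2399

theorem c2400 : lp7 (fun s => chk (ent L2400 s)) 0 = true := by decide +kernel
theorem p2400 : PrL chk L2400 := leafL c2400

theorem c2401 : lp7 (fun s => chk (ent L2401 s)) 0 = true := by decide +kernel
theorem p2401 : PrL chk L2401 := leafL c2401

theorem c2402 : lp7 (fun s => chk (ent L2402 s)) 0 = true := by decide +kernel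
theorem p2402 : PrL chk L2402 := leafL c2402

theorem c2403 : lp7 (fun s => chk (ent L2403 s)) 0 = true := by decide +kernel
theorem p2403 : PrL chk L2403 := leafL c2403

theorem c2404 : lp7 (fun s => chk (ent L2404 s)) 0 = true := by decide +kernel
theorem p2404 : PrL chk L2404 := leafL c2404

theorem c2405 : lp7 (fun s => chk (ent L2405 s)) 0 = true := by decide +kernel
theorem p2405 : PrL chk L2405 := leafL c2405

theorem c2406 : lp7 (fun s => chk (ent L2406 s)) 0 = true := by decide +kernel
theorem p2406 : PrL chk L2406 := leafL c2406

theorem c2407 : lp7 (fun s => chk (ent L2407 s)) 0 = true := by decide +kernel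
theorem p2407 : PrL chk L2407 := leafL c2407

theorem c2408 : lp7 (fun s => chk (ent L2408 s)) 0 = true := by decide +kernel
theorem p2408 : PrL chk L2408 := leafL c2408

theorem c2409 : lp7 (fun s => chk (ent L2409 s)) 0 = true := by decide +kernel
theorem p2409 : PrL chk L2409 := leafL c2409

theorem c2410 : lp7 (fun s => chk (ent L2410 s)) 0 = true := by decide +kernel
theorem p2410 : PrL chk L2410 := leafL c2410

theorem c2411 : lp7 (fun s => chk (ent L2411 s)) 0 = true := by decide +kernel
theorem p2411 : PrL chk L2411 := leafL c2411

theorem c2412 : lp7 (fun s => chk (ent L2412 s)) 0 = true := by decide +kernel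
theorem p2412 : PrL chk L2412 := leafL c2412

theorem c2413 : lp7 (fun s => chk (ent L2413 s)) 0 = true := by decide +kernel
theorem p2413 : PrL chk L2413 := leafL c2413

theorem c2414 : lp7 (fun s => chk (ent L2414 s)) 0 = true := by decide +kernel
theorem p2414 : PrL chk L2414 := leafL c2414

theorem c2415 : lp7 (fun s => chk (ent L2415 s)) 0 = true := by decide +kernel
theorem p2415 : PrL chk L2415 := leafL c2415

theorem c2416 : lp7 (fun s => chk (ent L2416 s)) 0 = true := by decide +kernel
theorem p2416 : PrL chk L2416 := leafL c2416

theorem c2417 : lp7 (fun s => chk (ent L2417 s)) 0 = true := by decide +kernel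
theorem p2417 : PrL chk L2417 := leafL c2417

theorem c2418 : lp7 (fun s => chk (ent L2418 s)) 0 = true := by decide +kernel
theorem p2418 : PrL chk L2418 := leafL c2418

theorem c2419 : lp7 (fun s => chk (ent L2419 s)) 0 = true := by decide +kernel
theorem p2419 : PrL chk L2419 := leafL c2419

theorem c2420 : lp7 (fun s => chk (ent L2420 s)) 0 = true := by decide +kernel
theorem p2420 : PrL chk L2420 := leafL c2420

theorem c2421 : lp7 (fun s => chk (ent L2421 s)) 0 = true := by decide +kernel
theorem p2421 : PrL chk L2421 := leafL c2421

theorem c2422 : lp7 (fun s => chk (ent L2422 s)) 0 = true := by decide +kernel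
theorem p2422 : PrL chk L2422 := leafL c2422

theorem c2423 : lp7 (fun s => chk (ent L2423 s)) 0 = true := by decide +kernel
theorem p2423 : PrL chk L2423 := leafL c2423

theorem c2424 : lp7 (fun s => chk (ent L2424 s)) 0 = true := by decide +kernel
theorem p2424 : PrL chk L2424 := leafL c2424

theorem c2425 : lp7 (fun s => chk (ent L2425 s)) 0 = true := by decide +kernel
theorem p2425 : PrL chk L2425 := leafL c2425

theorem c2426 : lp7 (fun s => chk (ent L2426 s)) 0 = true := by decide +kernel
theorem p2426 : PrL chk L2426 := leafL c2426

theorem c2427 : lp7 (fun s => chk (ent L2427 s)) 0 = true := by decide +kernel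
theorem p2427 : PrL chk L2427 := leafL c2427

theorem c2428 : lp7 (fun s => chk (ent L2428 s)) 0 = true := by decide +kernel
theorem p2428 : PrL chk L2428 := leafL c2428

theorem c2429 : lp7 (fun s => chk (ent L2429 s)) 0 = true := by decide +kernel
theorem p2429 : PrL chk L2429 := leafL c2429

theorem c2430 : lp7 (fun s => chk (ent L2430 s)) 0 = true := by decide +kernel
theorem p2430 : PrL chk L2430 := leafL c2430

theorem c2431 : lp7 (fun s => chk (ent L2431 s)) 0 = true := by decide +kernel
theorem p2431 : PrL chk L2431 := leafL c2431

theorem c2432 : lp7 (fun s => chk (ent L2432 s)) 0 = true := by decide +kernel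
theorem p2432 : PrL chk L2432 := leafL c2432

theorem c2433 : lp7 (fun s => chk (ent L2433 s)) 0 = true := by decide +kernel
theorem p2433 : PrL chk L2433 := leafL c2433

theorem c2434 : lp7 (fun s => chk (ent L2434 s)) 0 = true := by decide +kernel
theorem p2434 : PrL chk L2434 := leafL c2434

theorem c2435 : lp7 (fun s => chk (ent L2435 s)) 0 = true := by decide +kernel
theorem p2435 : PrL chk L2435 := leafL c2435

theorem c2436 : lp7 (fun s => chk (ent L2436 s)) 0 = true := by decide +kernel
theorem p2436 : PrL chk L2436 := leafL c2436

theorem c2437 : lp7 (fun s => chk (ent L2437 s)) 0 = true := by decide +kernel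
theorem p2437 : PrL chk L2437 := leafL c2437

theorem c2438 : lp7 (fun s => chk (ent L2438 s)) 0 = true := by decide +kernel
theorem p2438 : PrL chk L2438 := leafL c2438

theorem c2439 : lp7 (fun s => chk (ent L2439 s)) 0 = true := by decide +kernel
theorem p2439 : PrL chk L2439 := leafL c2439

theorem c2440 : lp7 (fun s => chk (ent L2440 s)) 0 = true := by decide +kernel
theorem p2440 : PrL chk L2440 := leafL c2440

theorem c2441 : lp7 (fun s => chk (ent L2441 s)) 0 = true := by decide +kernel
theorem p2441 : PrL chk L2441 := leafL c2441

theorem c2442 : lp7 (fun s => chk (ent L2442 s)) 0 = true := by decide +kernel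
theorem p2442 : PrL chk L2442 := leafL c2442

theorem c2443 : lp7 (fun s => chk (ent L2443 s)) 0 = true := by decide +kernel
theorem p2443 : PrL chk L2443 := leafL c2443

theorem c2444 : lp7 (fun s => chk (ent L2444 s)) 0 = true := by decide +kernel
theorem p2444 : PrL chk L2444 := leafL c2444

theorem c2445 : lp7 (fun s => chk (ent L2445 s)) 0 = true := by decide +kernel
theorem p2445 : PrL chk L2445 := leafL c2445

theorem c2446 : lp7 (fun s => chk (ent L2446 s)) 0 = true := by decide +kernel
theorem p2446 : PrL chk L2446 := leafL c2446

theorem c2447 : lp7 (fun s => chk (ent L2447 s)) 0 = true := by decide +kernel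
theorem p2447 : PrL chk L2447 := leafL c2447

theorem c2448 : lp7 (fun s => chk (ent L2448 s)) 0 = true := by decide +kernel
theorem p2448 : PrL chk L2448 := leafL c2448

theorem c2449 : lp7 (fun s => chk (ent L2449 s)) 0 = true := by decide +kernel
theorem p2449 : PrL chk L2449 := leafL c2449

theorem c2450 : lp7 (fun s => chk (ent L2450 s)) 0 = true := by decide +kernel
theorem p2450 : PrL chk L2450 := leafL c2450

theorem c2451 : lp7 (fun s => chk (ent L2451 s)) 0 = true := by decide +kernel
theorem p2451 : PrL chk L2451 := leafL c2451

theorem c2452 : lp7 (fun s => chk (ent L2452 s)) 0 = true := by decide +kernel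
theorem p2452 : PrL chk L2452 := leafL c2452

theorem c2453 : lp7 (fun s => chk (ent L2453 s)) 0 = true := by decide +kernel
theorem p2453 : PrL chk L2453 := leafL c2453

theorem c2454 : lp7 (fun s => chk (ent L2454 s)) 0 = true := by decide +kernel
theorem p2454 : PrL chk L2454 := leafL c2454

theorem c2455 : lp7 (fun s => chk (ent L2455 s)) 0 = true := by decide +kernel
theorem p2455 : PrL chk L2455 := leafL c2455

theorem c2456 : lp7 (fun s => chk (ent L2456 s)) 0 = true := by decide +kernel
theorem p2456 : PrL chk L2456 := leafL c2456

theorem c2457 : lp7 (fun s => chk (ent L2457 s)) 0 = true := by decide +kernel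
theorem p2457 : PrL chk L2457 := leafL c2457

theorem c2458 : lp7 (fun s => chk (ent L2458 s)) 0 = true := by decide +kernel
theorem p2458 : PrL chk L2458 := leafL c2458

theorem c2459 : lp7 (fun s => chk (ent L2459 s)) 0 = true := by decide +kernel
theorem p2459 : PrL chk L2459 := leafL c2459

theorem c2460 : lp7 (fun s => chk (ent L2460 s)) 0 = true := by decide +kernel
theorem p2460 : PrL chk L2460 := leafL c2460

theorem c2461 : lp7 (fun s => chk (ent L2461 s)) 0 = true := by decide +kernel
theorem p2461 : PrL chk L2461 := leafL c2461

theorem c2462 : lp7 (fun s => chk (ent L2462 s)) 0 = true := by decide +kernel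
theorem p2462 : PrL chk L2462 := leafL c2462

theorem c2463 : lp7 (fun s => chk (ent L2463 s)) 0 = true := by decide +kernel
theorem p2463 : PrL chk L2463 := leafL c2463

theorem c2464 : lp7 (fun s => chk (ent L2464 s)) 0 = true := by decide +kernel
theorem p2464 : PrL chk L2464 := leafL c2464

theorem c2465 : lp7 (fun s => chk (ent L2465 s)) 0 = true := by decide +kernel
theorem p2465 : PrL chk L2465 := leafL c2465

theorem c2466 : lp7 (fun s => chk (ent L2466 s)) 0 = true := by decide +kernel
theorem p2466 : PrL chk L2466 := leafL c2466

theorem c2467 : lp7 (fun s => chk (ent L2467 s)) 0 = true := by decide +kernel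
theorem p2467 : PrL chk L2467 := leafL c2467

theorem c2468 : lp7 (fun s => chk (ent L2468 s)) 0 = true := by decide +kernel
theorem p2468 : PrL chk L2468 := leafL c2468

theorem c2469 : lp7 (fun s => chk (ent L2469 s)) 0 = true := by decide +kernel
theorem p2469 : PrL chk L2469 := leafL c2469

theorem c2470 : lp7 (fun s => chk (ent L2470 s)) 0 = true := by decide +kernel
theorem p2470 : PrL chk L2470 := leafL c2470

theorem c2471 : lp7 (fun s => chk (ent L2471 s)) 0 = true := by decide +kernel
theorem p2471 : PrL chk L2471 := leafL c2471

theorem c2472 : lp7 (fun s => chk (ent L2472 s)) 0 = true := by decide +kernel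
theorem p2472 : PrL chk L2472 := leafL c2472

theorem c2473 : lp7 (fun s => chk (ent L2473 s)) 0 = true := by decide +kernel
theorem p2473 : PrL chk L2473 := leafL c2473

theorem c2474 : lp7 (fun s => chk (ent L2474 s)) 0 = true := by decide +kernel
theorem p2474 : PrL chk L2474 := leafL c2474

theorem c2475 : lp7 (fun s => chk (ent L2475 s)) 0 = true := by decide +kernel
theorem p2475 : PrL chk L2475 := leafL c2475

theorem c2476 : lp7 (fun s => chk (ent L2476 s)) 0 = true := by decide +kernel
theorem p2476 : PrL chk L2476 := leafL c2476

theorem c2477 : lp7 (fun s => chk (ent L2477 s)) 0 = true := by decide +kernel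
theorem p2477 : PrL chk L2477 := leafL c2477

theorem c2478 : lp7 (fun s => chk (ent L2478 s)) 0 = true := by decide +kernel
theorem p2478 : PrL chk L2478 := leafL c2478

theorem c2479 : lp7 (fun s => chk (ent L2479 s)) 0 = true := by decide +kernel
theorem p2479 : PrL chk L2479 := leafL c2479

theorem c2480 : lp7 (fun s => chk (ent L2480 s)) 0 = true := by decide +kernel
theorem p2480 : PrL chk L2480 := leafL c2480

theorem c2481 : lp7 (fun s => chk (ent L2481 s)) 0 = true := by decide +kernel
theorem p2481 : PrL chk L2481 := leafL c2481

theorem c2482 : lp7 (fun s => chk (ent L2482 s)) 0 = true := by decide +kernel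
theorem p2482 : PrL chk L2482 := leafL c2482

theorem c2483 : lp7 (fun s => chk (ent L2483 s)) 0 = true := by decide +kernel
theorem p2483 : PrL chk L2483 := leafL c2483

theorem c2484 : lp7 (fun s => chk (ent L2484 s)) 0 = true := by decide +kernel
theorem p2484 : PrL chk L2484 := leafL c2484

theorem c2485 : lp7 (fun s => chk (ent L2485 s)) 0 = true := by decide +kernel
theorem p2485 : PrL chk L2485 := leafL c2485

theorem c2486 : lp7 (fun s => chk (ent L2486 s)) 0 = true := by decide +kernel
theorem p2486 : PrL chk L2486 := leafL c2486

theorem c2487 : lp7 (fun s => chk (ent L2487 s)) 0 = true := by decide +kernel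
theorem p2487 : PrL chk L2487 := leafL c2487

theorem c2488 : lp7 (fun s => chk (ent L2488 s)) 0 = true := by decide +kernel
theorem p2488 : PrL chk L2488 := leafL c2488

theorem c2489 : lp7 (fun s => chk (ent L2489 s)) 0 = true := by decide +kernel
theorem p2489 : PrL chk L2489 := leafL c2489

theorem c2490 : lp7 (fun s => chk (ent L2490 s)) 0 = true := by decide +kernel
theorem p2490 : PrL chk L2490 := leafL c2490

theorem c2491 : lp7 (fun s => chk (ent L2491 s)) 0 = true := by decide +kernel
theorem p2491 : PrL chk L2491 := leafL c2491

theorem c2492 : lp7 (fun s => chk (ent L2492 s)) 0 = true := by decide +kernel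
theorem p2492 : PrL chk L2492 := leafL c2492

theorem c2493 : lp7 (fun s => chk (ent L2493 s)) 0 = true := by decide +kernel
theorem p2493 : PrL chk L2493 := leafL c2493

theorem c2494 : lp7 (fun s => chk (ent L2494 s)) 0 = true := by decide +kernel
theorem p2494 : PrL chk L2494 := leafL c2494

theorem c2495 : lp7 (fun s => chk (ent L2495 s)) 0 = true := by decide +kernel
theorem p2495 : PrL chk L2495 := leafL c2495

theorem c2496 : lp7 (fun s => chk (ent L2496 s)) 0 = true := by decide +kernel
theorem p2496 : PrL chk L2496 := leafL c2496

theorem c2497 : lp7 (fun s => chk (ent L2497 s)) 0 = true := by decide +kernel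
theorem p2497 : PrL chk L2497 := leafL c2497

theorem c2498 : lp7 (fun s => chk (ent L2498 s)) 0 = true := by decide +kernel
theorem p2498 : PrL chk L2498 := leafL c2498

theorem c2499 : lp7 (fun s => chk (ent L2499 s)) 0 = true := by decide +kernel
theorem p2499 : PrL chk L2499 := leafL c2499

theorem c2500 : lp7 (fun s => chk (ent L2500 s)) 0 = true := by decide +kernel
theorem p2500 : PrL chk L2500 := leafL c2500

theorem c2501 : lp7 (fun s => chk (ent L2501 s)) 0 = true := by decide +kernel
theorem p2501 : PrL chk L2501 := leafL c2501

theorem c2502 : lp7 (fun s => chk (ent L2502 s)) 0 = true := by decide +kernel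
theorem p2502 : PrL chk L2502 := leafL c2502

theorem c2503 : lp7 (fun s => chk (ent L2503 s)) 0 = true := by decide +kernel
theorem p2503 : PrL chk L2503 := leafL c2503

theorem c2504 : lp7 (fun s => chk (ent L2504 s)) 0 = true := by decide +kernel
theorem p2504 : PrL chk L2504 := leafL c2504

theorem c2505 : lp7 (fun s => chk (ent L2505 s)) 0 = true := by decide +kernel
theorem p2505 : PrL chk L2505 := leafL c2505

theorem c2506 : lp7 (fun s => chk (ent L2506 s)) 0 = true := by decide +kernel
theorem p2506 : PrL chk L2506 := leafL c2506

theorem c2507 : lp7 (fun s => chk (ent L2507 s)) 0 = true := by decide +kernel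
theorem p2507 : PrL chk L2507 := leafL c2507

theorem c2508 : lp7 (fun s => chk (ent L2508 s)) 0 = true := by decide +kernel
theorem p2508 : PrL chk L2508 := leafL c2508

theorem c2509 : lp7 (fun s => chk (ent L2509 s)) 0 = true := by decide +kernel
theorem p2509 : PrL chk L2509 := leafL c2509

theorem c2510 : lp7 (fun s => chk (ent L2510 s)) 0 = true := by decide +kernel
theorem p2510 : PrL chk L2510 := leafL c2510

theorem c2511 : lp7 (fun s => chk (ent L2511 s)) 0 = true := by decide +kernel
theorem p2511 : PrL chk L2511 := leafL c2511

theorem c2512 : lp7 (fun s => chk (ent L2512 s)) 0 = true := by decide +kernel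
theorem p2512 : PrL chk L2512 := leafL c2512

theorem c2513 : lp7 (fun s => chk (ent L2513 s)) 0 = true := by decide +kernel
theorem p2513 : PrL chk L2513 := leafL c2513

theorem c2514 : lp7 (fun s => chk (ent L2514 s)) 0 = true := by decide +kernel
theorem p2514 : PrL chk L2514 := leafL c2514

theorem c2515 : lp7 (fun s => chk (ent L2515 s)) 0 = true := by decide +kernel
theorem p2515 : PrL chk L2515 := leafL c2515

theorem c2516 : lp7 (fun s => chk (ent L2516 s)) 0 = true := by decide +kernel
theorem p2516 : PrL chk L2516 := leafL c2516

theorem c2517 : lp7 (fun s => chk (ent L2517 s)) 0 = true := by decide +kernel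
theorem p2517 : PrL chk L2517 := leafL c2517

theorem c2518 : lp7 (fun s => chk (ent L2518 s)) 0 = true := by decide +kernel
theorem p2518 : PrL chk L2518 := leafL c2518

theorem c2519 : lp7 (fun s => chk (ent L2519 s)) 0 = true := by decide +kernel
theorem p2519 : PrL chk L2519 := leafL c2519

theorem c2520 : lp7 (fun s => chk (ent L2520 s)) 0 = true := by decide +kernel
theorem p2520 : PrL chk L2520 := leafL c2520

theorem c2521 : lp7 (fun s => chk (ent L2521 s)) 0 = true := by decide +kernel
theorem p2521 : PrL chk L2521 := leafL c2521

theorem c2522 : lp7 (fun s => chk (ent L2522 s)) 0 = true := by decide +kernel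
theorem p2522 : PrL chk L2522 := leafL c2522

theorem c2523 : lp7 (fun s => chk (ent L2523 s)) 0 = true := by decide +kernel
theorem p2523 : PrL chk L2523 := leafL c2523

theorem c2524 : lp7 (fun s => chk (ent L2524 s)) 0 = true := by decide +kernel
theorem p2524 : PrL chk L2524 := leafL c2524

theorem c2525 : lp7 (fun s => chk (ent L2525 s)) 0 = true := by decide +kernel
theorem p2525 : PrL chk L2525 := leafL c2525

theorem c2526 : lp7 (fun s => chk (ent L2526 s)) 0 = true := by decide +kernel
theorem p2526 : PrL chk L2526 := leafL c2526

theorem c2527 : lp7 (fun s => chk (ent L2527 s)) 0 = true := by decide +kernel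
theorem p2527 : PrL chk L2527 := leafL c2527

theorem c2528 : lp7 (fun s => chk (ent L2528 s)) 0 = true := by decide +kernel
theorem p2528 : PrL chk L2528 := leafL c2528

theorem c2529 : lp7 (fun s => chk (ent L2529 s)) 0 = true := by decide +kernel
theorem p2529 : PrL chk L2529 := leafL c2529

theorem c2530 : lp7 (fun s => chk (ent L2530 s)) 0 = true := by decide +kernel
theorem p2530 : PrL chk L2530 := leafL c2530

theorem c2531 : lp7 (fun s => chk (ent L2531 s)) 0 = true := by decide +kernel
theorem p2531 : PrL chk L2531 := leafL c2531

theorem c2532 : lp7 (fun s => chk (ent L2532 s)) 0 = true := by decide +kernel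
theorem p2532 : PrL chk L2532 := leafL c2532

theorem c2533 : lp7 (fun s => chk (ent L2533 s)) 0 = true := by decide +kernel
theorem p2533 : PrL chk L2533 := leafL c2533

theorem c2534 : lp7 (fun s => chk (ent L2534 s)) 0 = true := by decide +kernel
theorem p2534 : PrL chk L2534 := leafL c2534

theorem c2535 : lp7 (fun s => chk (ent L2535 s)) 0 = true := by decide +kernel
theorem p2535 : PrL chk L2535 := leafL c2535

theorem c2536 : lp7 (fun s => chk (ent L2536 s)) 0 = true := by decide +kernel
theorem p2536 : PrL chk L2536 := leafL c2536

theorem c2537 : lp7 (fun s => chk (ent L2537 s)) 0 = true := by decide +kernel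
theorem p2537 : PrL chk L2537 := leafL c2537

theorem c2538 : lp7 (fun s => chk (ent L2538 s)) 0 = true := by decide +kernel
theorem p2538 : PrL chk L2538 := leafL c2538

theorem c2539 : lp7 (fun s => chk (ent L2539 s)) 0 = true := by decide +kernel
theorem p2539 : PrL chk L2539 := leafL c2539

theorem c2540 : lp7 (fun s => chk (ent L2540 s)) 0 = true := by decide +kernel
theorem p2540 : PrL chk L2540 := leafL c2540

theorem c2541 : lp7 (fun s => chk (ent L2541 s)) 0 = true := by decide +kernel
theorem p2541 : PrL chk L2541 := leafL c2541

theorem c2542 : lp7 (fun s => chk (ent L2542 s)) 0 = true := by decide +kernel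
theorem p2542 : PrL chk L2542 := leafL c2542

theorem c2543 : lp7 (fun s => chk (ent L2543 s)) 0 = true := by decide +kernel
theorem p2543 : PrL chk L2543 := leafL c2543

theorem c2544 : lp7 (fun s => chk (ent L2544 s)) 0 = true := by decide +kernel
theorem p2544 : PrL chk L2544 := leafL c2544

theorem c2545 : lp7 (fun s => chk (ent L2545 s)) 0 = true := by decide +kernel
theorem p2545 : PrL chk L2545 := leafL c2545

theorem c2546 : lp7 (fun s => chk (ent L2546 s)) 0 = true := by decide +kernel
theorem p2546 : PrL chk L2546 := leafL c2546

theorem c2547 : lp7 (fun s => chk (ent L2547 s)) 0 = true := by decide +kernel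
theorem p2547 : PrL chk L2547 := leafL c2547

theorem c2548 : lp7 (fun s => chk (ent L2548 s)) 0 = true := by decide +kernel
theorem p2548 : PrL chk L2548 := leafL c2548

theorem c2549 : lp7 (fun s => chk (ent L2549 s)) 0 = true := by decide +kernel
theorem p2549 : PrL chk L2549 := leafL c2549

theorem c2550 : lp7 (fun s => chk (ent L2550 s)) 0 = true := by decide +kernel
theorem p2550 : PrL chk L2550 := leafL c2550

theorem c2551 : lp7 (fun s => chk (ent L2551 s)) 0 = true := by decide +kernel
theorem p2551 : PrL chk L2551 := leafL c2551

theorem c2552 : lp7 (fun s => chk (ent L2552 s)) 0 = true := by decide +kernel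
theorem p2552 : PrL chk L2552 := leafL c2552

theorem c2553 : lp7 (fun s => chk (ent L2553 s)) 0 = true := by decide +kernel
theorem p2553 : PrL chk L2553 := leafL c2553

theorem c2554 : lp7 (fun s => chk (ent L2554 s)) 0 = true := by decide +kernel
theorem p2554 : PrL chk L2554 := leafL c2554

theorem c2555 : lp7 (fun s => chk (ent L2555 s)) 0 = true := by decide +kernel
theorem p2555 : PrL chk L2555 := leafL c2555

theorem c2556 : lp7 (fun s => chk (ent L2556 s)) 0 = true := by decide +kernel
theorem p2556 : PrL chk L2556 := leafL c2556

theorem c2557 : lp7 (fun s => chk (ent L2557 s)) 0 = true := by decide +kernel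
theorem p2557 : PrL chk L2557 := leafL c2557

theorem c2558 : lp7 (fun s => chk (ent L2558 s)) 0 = true := by decide +kernel
theorem p2558 : PrL chk L2558 := leafL c2558

theorem c2559 : lp7 (fun s => chk (ent L2559 s)) 0 = true := by decide +kernel
theorem p2559 : PrL chk L2559 := leafL c2559

end Pool.Agent.ad013a.LA
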